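import Mathlib

/-!
# CG S6: the order lemma (random tie breaking)

PAPER PROOF. Let n = |S| and take a uniformly random bijection τ : S → Fin n. Order S
lexicographically by (lev, τ), r(v) = lev v * n + τ v (injective on S, refines lev).
For v ∈ Sa: pred v ∩ S has at most one element u ≠ v, lev u ≤ lev v; if lev u < lev v then u precedes
v, otherwise it does with probability 1/2. For v ∈ Sb: pred v ∩ S ⊆ {u₁,u₂}, both ≠ v; if both have
smaller level, fine; if only one has equal level: probability 1/2; if both: v is the last of three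
with probability 1/3. So the expected number of v ∈ Sa ∪ Sb with all of pred v ∩ S before v is
≥ |Sa|/2 + |Sb|/3, and some τ attains the average.
(Counting: for distinct v,u₁,u₂ the transpositions (v u₁), (v u₂) show that each of the three is last
for the same number of τ; similarly for two elements. It is convenient to sum over `Equiv.Perm` of a
type with n elements.)
-/

set_option autoImplicit false

namespace Pool.Agent.CG

open Finset

private lemma S6_last {α : Type} [Fintype α] [DecidableEq α] {n : ℕ} (e : α ≃ Fin n)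
    (A : Finset α) (v : α) (hv : v ∈ A) :
    Fintype.card (Equiv.Perm α) ≤ A.card *
      ((univ : Finset (Equiv.Perm α)).filter
        (fun π => ∀ u ∈ A, u ≠ v → e (π u) < e (π v))).card := by
  classical
  set G : α → Finset (Equiv.Perm α) := fun w =>
    (univ : Finset (Equiv.Perm α)).filter (fun π => ∀ u ∈ A, u ≠ w → e (π u) < e (π w)) with hG
  have h1 : (univ : Finset (Equiv.Perm α)) ⊆ A.biUnion G := by
    intro π _
    obtain ⟨w, hw, hmax⟩ := exists_max_image A (fun u => e (π u)) ⟨v, hv⟩
    rw [mem_biUnion]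
    refine ⟨w, hw, ?_⟩
    simp only [hG, mem_filter, mem_univ, true_and]
    intro u hu huw
    refine lt_of_le_of_ne (hmax u hu) ?_
    intro h
    exact huw (π.injective (e.injective h))
  have h2 : ∀ w ∈ A, (G w).card ≤ (G v).card := by
    intro w hw
    refine card_le_card_of_injOn (fun π => π * Equiv.swap v w) ?_ ?_
    · intro π hπ
      simp only [hG, coe_filter, mem_univ, true_and, Set.mem_setOf_eq] at hπ ⊢
      intro u hu huv
      simp only [Equiv.Perm.coe_mul, Function.comp_apply, Equiv.swap_apply_left]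
      refine hπ _ ?_ ?_
      · by_cases h : u = w
        · subst h
          simpa using hv
        · rw [Equiv.swap_apply_of_ne_of_ne huv h]
          exact hu
      · intro h
        apply huv
        have := congrArg (Equiv.swap v w) h
        simpa using this
    · intro π _ π' _ h
      exact mul_right_cancel h
  calc Fintype.card (Equiv.Perm α) = (univ : Finset (Equiv.Perm α)).card := (card_univ).symm
    _ ≤ (A.biUnion G).card := card_le_card h1
    _ ≤ ∑ w ∈ A, (G w).card := card_biUnion_le
    _ ≤ ∑ _w ∈ A, (G v).card := sum_le_sum h2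
    _ = A.card * (G v).card := by rw [sum_const, smul_eq_mul]

theorem order {ι : Type} [DecidableEq ι] (S Sa Sb : Finset ι) (lev : ι → ℕ) (pred : ι → Finset ι)
    (ha : Sa ⊆ S) (hb : Sb ⊆ S) (hab : Disjoint Sa Sb)
    (ha1 : ∀ v ∈ Sa, (pred v ∩ S).card ≤ 1) (hb2 : ∀ v ∈ Sb, (pred v ∩ S).card ≤ 2)
    (hself : ∀ v ∈ Sa ∪ Sb, v ∉ pred v)
    (hlev : ∀ v ∈ Sa ∪ Sb, ∀ u ∈ pred v ∩ S, lev u ≤ lev v) :
    ∃ r : ι → ℕ, Set.InjOn r S ∧ (∀ u ∈ S, ∀ v ∈ S, lev u < lev v → r u < r v) ∧
      3 * Sa.card + 2 * Sb.card ≤
        6 * ((Sa ∪ Sb).filter (fun v => ∀ u ∈ pred v ∩ S, r u < r v)).card := by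
  classical
  set n := S.card with hn
  have hcard : Fintype.card {x // x ∈ S} = n := by simp [hn]
  let e : {x // x ∈ S} ≃ Fin n := Fintype.equivFinOfCardEq hcard
  let τ : Equiv.Perm {x // x ∈ S} → ι → ℕ := fun π x =>
    if h : x ∈ S then ((e (π ⟨x, h⟩) : Fin n) : ℕ) else 0
  have hτ : ∀ π x (h : x ∈ S), τ π x = ((e (π ⟨x, h⟩) : Fin n) : ℕ) := by
    intro π x h
    simp [τ, h]
  have hτlt : ∀ π x, x ∈ S → τ π x < n := by
    intro π x h
    rw [hτ π x h]
    exact (e (π ⟨x, h⟩)).2
  let r : Equiv.Perm {x // x ∈ S} → ι → ℕ := fun π x => lev x * n + τ π x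
  have hr2 : ∀ π, ∀ u ∈ S, ∀ v ∈ S, lev u < lev v → r π u < r π v := by
    intro π u hu v hv h
    have h1 := hτlt π u hu
    show lev u * n + τ π u < lev v * n + τ π v
    calc lev u * n + τ π u < lev u * n + n := by omega
      _ = (lev u + 1) * n := by ring
      _ ≤ lev v * n := Nat.mul_le_mul_right _ h
      _ ≤ lev v * n + τ π v := Nat.le_add_right _ _
  have hr1 : ∀ π, Set.InjOn (r π) S := by
    intro π u hu v hv h
    have hu' : u ∈ S := hu
    have hv' : v ∈ S := hv
    rcases lt_trichotomy (lev u) (lev v) with h1 | h1 | h1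
    · exact absurd h (hr2 π u hu' v hv' h1).ne
    · have h2 : lev u * n + τ π u = lev v * n + τ π v := h
      rw [h1] at h2
      have h3 : τ π u = τ π v := by omega
      rw [hτ π u hu', hτ π v hv'] at h3
      have h4 := π.injective (e.injective (Fin.ext h3))
      exact congrArg Subtype.val h4
    · exact absurd h (hr2 π v hv' u hu' h1).ne'
  set N := Fintype.card (Equiv.Perm {x // x ∈ S}) with hN
  have hNpos : 0 < N := Fintype.card_pos
  -- counting for one vertex
  have hone : ∀ v ∈ Sa ∪ Sb, ∀ k : ℕ, (pred v ∩ S).card ≤ k →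
      N ≤ (k + 1) * ((univ : Finset (Equiv.Perm {x // x ∈ S})).filter
        (fun π => ∀ u ∈ pred v ∩ S, r π u < r π v)).card := by
    intro v hv k hk
    have hvS : v ∈ S := by
      rcases mem_union.1 hv with h | h
      · exact ha h
      · exact hb h
    set Q : Finset {x // x ∈ S} :=
      (univ : Finset {x // x ∈ S}).filter (fun x => (x : ι) ∈ pred v) with hQ
    set A : Finset {x // x ∈ S} := insert ⟨v, hvS⟩ Q with hA
    have hQc : Q.card ≤ k := by
      refine le_trans ?_ hk
      refine card_le_card_of_injOn (fun x => (x : ι)) ?_ ?_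
      · intro x hx
        simp only [hQ, coe_filter, mem_univ, true_and, Set.mem_setOf_eq] at hx
        simp only [coe_inter, Set.mem_inter_iff, mem_coe]
        exact ⟨hx, x.2⟩
      · intro x _ y _ h
        exact Subtype.ext h
    have hAc : A.card ≤ k + 1 := le_trans (card_insert_le _ _) (by omega)
    have h1 := S6_last e A ⟨v, hvS⟩ (mem_insert_self _ _)
    refine le_trans h1 (Nat.mul_le_mul hAc (card_le_card ?_))
    intro π hπ
    simp only [mem_filter, mem_univ, true_and] at hπ ⊢
    intro u hu
    have huS : u ∈ S := (mem_inter.1 hu).2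
    have hup : u ∈ pred v := (mem_inter.1 hu).1
    have huv : u ≠ v := by
      intro h
      subst h
      exact hself _ hv hup
    have h2 := hlev v hv u hu
    rcases lt_or_eq_of_le h2 with h3 | h3
    · exact hr2 π u huS v hvS h3
    · have h4 : e (π ⟨u, huS⟩) < e (π ⟨v, hvS⟩) := by
        refine hπ ⟨u, huS⟩ ?_ ?_
        · refine mem_insert_of_mem ?_
          simp only [hQ, mem_filter, mem_univ, true_and]
          exact hup
        · intro h
          exact huv (congrArg Subtype.val h)
      have h5 : τ π u < τ π v := by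
        rw [hτ π u huS, hτ π v hvS]
        exact h4
      show lev u * n + τ π u < lev v * n + τ π v
      rw [h3]
      omega
  -- double counting
  have hsum : ∑ π : Equiv.Perm {x // x ∈ S},
      ((Sa ∪ Sb).filter (fun v => ∀ u ∈ pred v ∩ S, r π u < r π v)).card
      = ∑ v ∈ Sa ∪ Sb, ((univ : Finset (Equiv.Perm {x // x ∈ S})).filter
        (fun π => ∀ u ∈ pred v ∩ S, r π u < r π v)).card := by
    simp only [card_filter]
    rw [sum_comm]
  have hlow : N * (3 * Sa.card + 2 * Sb.card) ≤ 6 * ∑ v ∈ Sa ∪ Sb,
      ((univ : Finset (Equiv.Perm {x // x ∈ S})).filter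
        (fun π => ∀ u ∈ pred v ∩ S, r π u < r π v)).card := by
    rw [sum_union hab, mul_add, mul_add]
    refine add_le_add ?_ ?_
    · calc N * (3 * Sa.card) = ∑ _v ∈ Sa, 3 * N := by
            rw [sum_const, smul_eq_mul]; ring
        _ ≤ ∑ v ∈ Sa, 6 * ((univ : Finset (Equiv.Perm {x // x ∈ S})).filter
            (fun π => ∀ u ∈ pred v ∩ S, r π u < r π v)).card := by
            refine sum_le_sum fun v hv => ?_
            have := hone v (mem_union_left _ hv) 1 (ha1 v hv)
            omega
        _ = _ := by rw [← mul_sum]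
    · calc N * (2 * Sb.card) = ∑ _v ∈ Sb, 2 * N := by
            rw [sum_const, smul_eq_mul]; ring
        _ ≤ ∑ v ∈ Sb, 6 * ((univ : Finset (Equiv.Perm {x // x ∈ S})).filter
            (fun π => ∀ u ∈ pred v ∩ S, r π u < r π v)).card := by
            refine sum_le_sum fun v hv => ?_
            have := hone v (mem_union_right _ hv) 2 (hb2 v hv)
            omega
        _ = _ := by rw [← mul_sum]
  rw [← hsum] at hlow
  by_contra hcon
  push Not at hcon
  have hall : ∀ π : Equiv.Perm {x // x ∈ S},
      6 * ((Sa ∪ Sb).filter (fun v => ∀ u ∈ pred v ∩ S, r π u < r π v)).card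
        < 3 * Sa.card + 2 * Sb.card := fun π => hcon (r π) (hr1 π) (hr2 π)
  have hlt : 6 * ∑ π : Equiv.Perm {x // x ∈ S},
      ((Sa ∪ Sb).filter (fun v => ∀ u ∈ pred v ∩ S, r π u < r π v)).card
        < N * (3 * Sa.card + 2 * Sb.card) := by
    rw [mul_sum]
    calc ∑ π : Equiv.Perm {x // x ∈ S},
        6 * ((Sa ∪ Sb).filter (fun v => ∀ u ∈ pred v ∩ S, r π u < r π v)).card
          < ∑ _π : Equiv.Perm {x // x ∈ S}, (3 * Sa.card + 2 * Sb.card) := by
          refine sum_lt_sum_of_nonempty univ_nonempty fun π _ => hall π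
      _ = N * (3 * Sa.card + 2 * Sb.card) := by
          rw [sum_const, smul_eq_mul, card_univ]
  exact absurd hlow (not_le.2 hlt)

end Pool.Agent.CG
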