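import Pool.Agent.CG.Ed
import Pool.Agent.CG.S6

/-!
# CG A1: determined vertices

`grow σ x E U` : all sets obtained from a member of `U` by adding one vertex `v` such that the partner
of the edge `xv` lies inside `E ∪ (the set)`.

PAPER PROOF. S = A \ E. For v ∈ Ra σ A x \ E with pi s(x,v) = s(x,y) put pred v = {y}; for
v ∈ Rb σ A x \ E with pi s(x,v) = s(z,w) put pred v = {z,w} (Ra and Rb are disjoint: in the first case
x ∈ pi s(x,v), in the second x ∉ pi s(x,v)). Apply `order` with Sa = Ra \ E, Sb = Rb \ E, lev = 0.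
Since Ra ∪ Rb ⊆ A \ {x} and x ∈ E:  3|Ra \ E| + 2|Rb \ E| ≥ 3|Ra| + 2|Rb| - 3(|E| - 1), hence the set
Det of determined vertices has |Det| ≥ |Ra|/2 + |Rb|/3 - (|E|-1)/2 ≥ s. Choose Det' ⊆ Det with
|Det'| = s, U = S \ Det', and add the elements of Det' in the order r: when v is added, all of
pred v ∩ S precede v, hence are in U or were added before, so e := pi s(x,v) ∈ ed (E ∪ current set)
(x ∈ E) and pi e = s(x,v).
-/

set_option autoImplicit false

namespace Pool.Agent.CG

open Finset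

variable {V : Type} [DecidableEq V] [Fintype V]

open Classical in
/-- add one determined vertex -/
noncomputable def grow (σ : St (Sym2 V)) (x : V) (E : Finset V) (𝒰 : Finset (Finset V)) :
    Finset (Finset V) :=
  univ.filter (fun S => ∃ U ∈ 𝒰, ∃ v, v ∉ U ∧ v ∉ E ∧ (∃ e ∈ ed (E ∪ U), σ.pi e = s(x, v)) ∧
    S = insert v U)

open Classical in
private noncomputable def A1_pred (σ : St (Sym2 V)) (x v : V) : Finset V :=
  univ.filter (fun u => u ∈ σ.pi s(x, v) ∧ u ≠ x)

private theorem A1_mem_pred {σ : St (Sym2 V)} {x v u : V} :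
    u ∈ A1_pred σ x v ↔ u ∈ σ.pi s(x, v) ∧ u ≠ x := by
  classical
  unfold A1_pred
  rw [mem_filter]
  exact ⟨fun h => h.2, fun h => ⟨mem_univ _, h⟩⟩

private theorem A1_Ra {σ : St (Sym2 V)} {A : Finset V} {x v : V} (h : v ∈ Ra σ A x) :
    v ∈ A ∧ v ≠ x ∧ ∃ y ∈ A, y ≠ x ∧ y ≠ v ∧ σ.pi s(x, v) = s(x, y) ∧ A1_pred σ x v = {y} := by
  unfold Ra at h
  rw [mem_filter] at h
  obtain ⟨h1, h2, y, h3, h4, h5, h6⟩ := h
  refine ⟨h1, h2, y, h3, h4, h5, h6, ?_⟩
  ext u
  rw [A1_mem_pred, h6, Sym2.mem_iff, mem_singleton]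
  constructor
  · rintro ⟨h7 | h7, h8⟩
    · exact absurd h7 h8
    · exact h7
  · rintro rfl
    exact ⟨Or.inr rfl, h4⟩

private theorem A1_Rb {σ : St (Sym2 V)} {A : Finset V} {x v : V} (h : v ∈ Rb σ A x) :
    v ∈ A ∧ v ≠ x ∧ ∃ z ∈ A, ∃ w ∈ A, z ≠ w ∧ z ≠ x ∧ w ≠ x ∧ z ≠ v ∧ w ≠ v ∧
      σ.pi s(x, v) = s(z, w) ∧ A1_pred σ x v = {z, w} := by
  unfold Rb at h
  rw [mem_filter] at h
  obtain ⟨h1, h2, z, h3, w, h4, h5, h6, h7, h8, h9, h10⟩ := h
  refine ⟨h1, h2, z, h3, w, h4, h5, h6, h7, h8, h9, h10, ?_⟩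
  ext u
  rw [A1_mem_pred, h10, Sym2.mem_iff, mem_insert, mem_singleton]
  constructor
  · rintro ⟨h11, _⟩
    exact h11
  · rintro (rfl | rfl)
    · exact ⟨Or.inl rfl, h6⟩
    · exact ⟨Or.inr rfl, h7⟩

/-- the common description of the partner of `xv` -/
private theorem A1_desc {σ : St (Sym2 V)} {A : Finset V} {x v : V} (hx : x ∈ A)
    (h : v ∈ Ra σ A x ∨ v ∈ Rb σ A x) :
    ∃ p ∈ A, ∃ q ∈ A, p ≠ q ∧ σ.pi s(x, v) = s(p, q) ∧ (p = x ∨ p ∈ A1_pred σ x v) ∧
      (q = x ∨ q ∈ A1_pred σ x v) := by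
  rcases h with h | h
  · obtain ⟨_, _, y, h3, h4, _, h6, h7⟩ := A1_Ra h
    exact ⟨x, hx, y, h3, h4.symm, h6, Or.inl rfl, Or.inr (by rw [h7]; exact mem_singleton_self y)⟩
  · obtain ⟨_, _, z, h3, w, h4, h5, _, _, _, _, h10, h11⟩ := A1_Rb h
    refine ⟨z, h3, w, h4, h5, h10, Or.inr ?_, Or.inr ?_⟩
    · rw [h11]; exact mem_insert_self _ _
    · rw [h11]; exact mem_insert_of_mem (mem_singleton_self _)

private theorem A1_disj (σ : St (Sym2 V)) (A : Finset V) (x : V) :
    Disjoint (Ra σ A x) (Rb σ A x) := by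
  rw [disjoint_left]
  intro v ha hb
  obtain ⟨_, _, y, _, _, _, h6, _⟩ := A1_Ra ha
  obtain ⟨_, _, z, _, w, _, _, h5, h6', _, _, h10, _⟩ := A1_Rb hb
  have h : x ∈ s(z, w) := by
    rw [← h10, h6]
    exact Sym2.mem_mk_left x y
  rw [Sym2.mem_iff] at h
  rcases h with h | h
  · exact h5 h.symm
  · exact h6' h.symm

private theorem A1_grow_mem {σ : St (Sym2 V)} {x : V} {E U : Finset V} {𝒰 : Finset (Finset V)}
    {v : V} (hU : U ∈ 𝒰) (hv : v ∉ U) (hvE : v ∉ E) (he : ∃ e ∈ ed (E ∪ U), σ.pi e = s(x, v)) :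
    insert v U ∈ grow σ x E 𝒰 := by
  classical
  unfold grow
  rw [mem_filter]
  exact ⟨mem_univ _, U, hU, v, hv, hvE, he, rfl⟩

/-- adding the elements of `D` in the order `r` -/
private theorem A1_iter {σ : St (Sym2 V)} {A E : Finset V} {x : V} (hx : x ∈ E) (hE : E ⊆ A)
    (r : V → ℕ) : ∀ (n : ℕ) (D U : Finset V), D.card = n → D ⊆ A \ E → Set.InjOn r D →
      Disjoint U D → (∀ v ∈ D, v ∈ Ra σ A x ∨ v ∈ Rb σ A x) →
      (∀ v ∈ D, ∀ u ∈ A1_pred σ x v ∩ (A \ E), u ∈ U ∪ D ∧ r u < r v) →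
      U ∪ D ∈ (grow σ x E)^[n] {U} := by
  intro n
  induction n with
  | zero =>
    intro D U hD _ _ _ _ _
    rw [card_eq_zero] at hD
    rw [hD, union_empty, Function.iterate_zero, id, mem_singleton]
  | succ n ih =>
    intro D U hD hDS hinj hdisj hR hpred
    have hne : D.Nonempty := by
      rw [← card_pos, hD]; omega
    obtain ⟨v, hvD, hmax⟩ := exists_max_image D r hne
    have hcard : (D.erase v).card = n := by
      rw [card_erase_of_mem hvD, hD]; rfl
    have hsub : D.erase v ⊆ D := erase_subset _ _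
    have h1 : U ∪ D.erase v ∈ (grow σ x E)^[n] {U} := by
      apply ih (D.erase v) U hcard (hsub.trans hDS) (hinj.mono (by exact_mod_cast hsub))
        (disjoint_of_subset_right hsub hdisj) (fun w hw => hR w (hsub hw))
      intro w hw u hu
      obtain ⟨h2, h3⟩ := hpred w (hsub hw) u hu
      refine ⟨?_, h3⟩
      have h4 : u ≠ v := by
        rintro rfl
        have := hmax w (hsub hw)
        omega
      rw [mem_union] at h2 ⊢
      rcases h2 with h2 | h2
      · exact Or.inl h2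
      · exact Or.inr (mem_erase.2 ⟨h4, h2⟩)
    rw [Function.iterate_succ_apply']
    have h5 : U ∪ D = insert v (U ∪ D.erase v) := by
      ext u
      rw [mem_union, mem_insert, mem_union, mem_erase]
      by_cases h : u = v
      · subst h; simp [hvD]
      · tauto
    rw [h5]
    have hvS := mem_sdiff.1 (hDS hvD)
    apply A1_grow_mem h1
    · rw [mem_union, mem_erase]
      rintro (h | h)
      · exact disjoint_left.1 hdisj h hvD
      · exact h.1 rfl
    · exact hvS.2
    · obtain ⟨p, hp, q, hq, hpq, hpi, hp', hq'⟩ := A1_desc (hE hx) (hR v hvD)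
      have key : ∀ t ∈ A, (t = x ∨ t ∈ A1_pred σ x v) → t ∈ E ∪ (U ∪ D.erase v) := by
        intro t htA ht
        rcases ht with rfl | ht
        · exact mem_union_left _ hx
        · by_cases htE : t ∈ E
          · exact mem_union_left _ htE
          · obtain ⟨h2, h3⟩ := hpred v hvD t (mem_inter.2 ⟨ht, mem_sdiff.2 ⟨htA, htE⟩⟩)
            apply mem_union_right
            rw [mem_union] at h2 ⊢
            rcases h2 with h2 | h2
            · exact Or.inl h2
            · refine Or.inr (mem_erase.2 ⟨?_, h2⟩)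
              rintro rfl
              omega
      refine ⟨s(p, q), ?_, ?_⟩
      · rw [mk_mem_ed]
        exact ⟨key p hp hp', key q hq hq', hpq⟩
      · rw [← hpi, σ.inv]

theorem growMem (σ : St (Sym2 V)) (A E : Finset V) (x : V) (hx : x ∈ E) (hE : E ⊆ A) (s : ℕ)
    (hs : (s:ℝ) ≤ ((Ra σ A x).card : ℝ) / 2 + ((Rb σ A x).card : ℝ) / 4 - ((E.card : ℝ) - 1) / 2) :
    ∃ U ⊆ A \ E, U.card + s = (A \ E).card ∧ A \ E ∈ (grow σ x E)^[s] {U} := by
  classical
  have hRaA : Ra σ A x ⊆ A := by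
    intro v hv
    exact (A1_Ra hv).1
  have hRbA : Rb σ A x ⊆ A := by
    intro v hv
    exact (A1_Rb hv).1
  obtain ⟨r, hr1, _, hr3⟩ := order (A \ E) (Ra σ A x \ E) (Rb σ A x \ E) (fun _ => 0)
    (A1_pred σ x) (sdiff_subset_sdiff hRaA le_rfl) (sdiff_subset_sdiff hRbA le_rfl)
    (disjoint_of_subset_left sdiff_subset (disjoint_of_subset_right sdiff_subset (A1_disj σ A x)))
    (by
      intro v hv
      obtain ⟨_, _, y, _, _, _, _, h7⟩ := A1_Ra (mem_sdiff.1 hv).1
      rw [h7]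
      exact (card_le_card inter_subset_left).trans (by rw [card_singleton]))
    (by
      intro v hv
      obtain ⟨_, _, z, _, w, _, _, _, _, _, _, _, h11⟩ := A1_Rb (mem_sdiff.1 hv).1
      rw [h11]
      exact (card_le_card inter_subset_left).trans card_le_two)
    (by
      intro v hv
      rcases mem_union.1 hv with hv | hv
      · obtain ⟨_, _, y, _, _, h5, _, h7⟩ := A1_Ra (mem_sdiff.1 hv).1
        rw [h7, mem_singleton]
        exact fun h => h5 h.symm
      · obtain ⟨_, _, z, _, w, _, _, _, _, h8, h9, _, h11⟩ := A1_Rb (mem_sdiff.1 hv).1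
        rw [h11, mem_insert, mem_singleton]
        rintro (h | h)
        · exact h8 h.symm
        · exact h9 h.symm)
    (fun _ _ _ _ => le_rfl)
  set Det := ((Ra σ A x \ E) ∪ (Rb σ A x \ E)).filter
    (fun v => ∀ u ∈ A1_pred σ x v ∩ (A \ E), r u < r v) with hDet
  have hr4 : 3 * (Ra σ A x \ E).card + 2 * (Rb σ A x \ E).card ≤ 6 * Det.card := by
    rw [hDet]
    convert hr3
  -- cardinalities
  have hEx : (E.erase x).card + 1 = E.card := by
    rw [card_erase_of_mem hx]
    have : 0 < E.card := card_pos.2 ⟨x, hx⟩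
    omega
  have c1 : (Ra σ A x ∩ E).card + (Rb σ A x ∩ E).card ≤ (E.erase x).card := by
    rw [← card_union_of_disjoint (disjoint_of_subset_left inter_subset_left
      (disjoint_of_subset_right inter_subset_left (A1_disj σ A x)))]
    apply card_le_card
    intro v hv
    rw [mem_union, mem_inter, mem_inter] at hv
    rw [mem_erase]
    rcases hv with hv | hv
    · exact ⟨(A1_Ra hv.1).2.1, hv.2⟩
    · exact ⟨(A1_Rb hv.1).2.1, hv.2⟩
  have c2 := card_sdiff_add_card_inter (Ra σ A x) E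
  have c3 := card_sdiff_add_card_inter (Rb σ A x) E
  have c4 : 3 * (Ra σ A x).card + 2 * (Rb σ A x).card ≤ 6 * Det.card + 3 * (E.erase x).card := by
    omega
  have c5 : s ≤ Det.card := by
    have h1 : (3 : ℝ) * (Ra σ A x).card + 2 * (Rb σ A x).card ≤
        6 * Det.card + 3 * (E.erase x).card := by exact_mod_cast c4
    have h2 : ((E.erase x).card : ℝ) + 1 = E.card := by exact_mod_cast hEx
    have h3 : (0 : ℝ) ≤ (Rb σ A x).card := Nat.cast_nonneg _
    have h4 : (s : ℝ) ≤ Det.card := by linarith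
    exact_mod_cast h4
  obtain ⟨D, hD, hDc⟩ := exists_subset_card_eq c5
  have hDS : D ⊆ A \ E := by
    intro v hv
    have h1 := hD hv
    rw [hDet, mem_filter, mem_union, mem_sdiff, mem_sdiff] at h1
    rw [mem_sdiff]
    rcases h1.1 with h2 | h2
    · exact ⟨hRaA h2.1, h2.2⟩
    · exact ⟨hRbA h2.1, h2.2⟩
  refine ⟨(A \ E) \ D, sdiff_subset, ?_, ?_⟩
  · rw [← hDc]
    exact card_sdiff_add_card_eq_card hDS
  · have h := A1_iter hx hE r s D ((A \ E) \ D) hDc hDS
      (hr1.mono (by exact_mod_cast hDS)) sdiff_disjoint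
      (by
        intro v hv
        have h1 := hD hv
        rw [hDet, mem_filter, mem_union, mem_sdiff, mem_sdiff] at h1
        rcases h1.1 with h2 | h2
        · exact Or.inl h2.1
        · exact Or.inr h2.1)
      (by
        intro v hv u hu
        have h1 := hD hv
        rw [hDet, mem_filter] at h1
        refine ⟨?_, h1.2 u hu⟩
        rw [sdiff_union_of_subset hDS]
        exact (mem_inter.1 hu).2)
    rwa [sdiff_union_of_subset hDS] at h

end Pool.Agent.CG
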