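import Pool.Agent.CG.A1

/-!
# CG A2a: counting sets with determined vertices

PAPER PROOF.
`growMono`: clear. `growCount`: for given U the vertex v is determined by e ∈ ed (E ∪ U)
(s(x,v) = pi e), so |grow 𝒰| ≤ |𝒰| * b² if |E ∪ U| ≤ b for all U ∈ 𝒰 (|ed (E ∪ U)| ≤ C(b,2) ≤ b²);
iterate: members of (grow)^[i] 𝒰 have at most m + i elements if members of 𝒰 have m elements.
`restrGrow`: if X contains all edges star E v (v ∈ V) and their partners then the relation
e ∈ ed (E ∪ U), pi e = s(x,v) with v ∉ E ∪ U is the same for σ and restr σ X (x ∈ E): pi e = s(x,v)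
implies s(x,v) ∈ X, e = pi s(x,v) ∈ X; conversely (restr σ X).pi e is pi e or e, and e ≠ s(x,v)
because v ∉ E ∪ U.
-/

set_option autoImplicit false

namespace Pool.Agent.CG

open Finset

variable {V : Type} [DecidableEq V] [Fintype V]

theorem A2a_mem_grow {σ : St (Sym2 V)} {x : V} {E : Finset V} {𝒰 : Finset (Finset V)}
    {S : Finset V} : S ∈ grow σ x E 𝒰 ↔ ∃ U ∈ 𝒰, ∃ v, v ∉ U ∧ v ∉ E ∧
      (∃ e ∈ ed (E ∪ U), σ.pi e = s(x, v)) ∧ S = insert v U := by
  unfold grow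
  rw [mem_filter]
  exact ⟨fun h => h.2, fun h => ⟨mem_univ _, h⟩⟩

theorem A2a_grow_mono (σ : St (Sym2 V)) (x : V) (E : Finset V) {𝒰 𝒰' : Finset (Finset V)}
    (h : 𝒰 ⊆ 𝒰') : grow σ x E 𝒰 ⊆ grow σ x E 𝒰' := by
  intro S hS
  rw [A2a_mem_grow] at hS ⊢
  obtain ⟨U, hU, h'⟩ := hS
  exact ⟨U, h hU, h'⟩

theorem growMono (σ : St (Sym2 V)) (x : V) (E : Finset V) (s : ℕ) {𝒰 𝒰' : Finset (Finset V)}
    (h : 𝒰 ⊆ 𝒰') : (grow σ x E)^[s] 𝒰 ⊆ (grow σ x E)^[s] 𝒰' := by
  induction s with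
  | zero => exact h
  | succ s ih =>
    rw [Function.iterate_succ_apply', Function.iterate_succ_apply']
    exact A2a_grow_mono σ x E ih

/-- one step of the counting -/
theorem A2a_growCount_one (σ : St (Sym2 V)) (x : V) (E : Finset V) (m b : ℕ)
    (𝒰 : Finset (Finset V)) (hm : ∀ U ∈ 𝒰, U.card = m) (hb : E.card + m ≤ b) :
    (grow σ x E 𝒰).card ≤ 𝒰.card * b ^ 2 ∧ ∀ S ∈ grow σ x E 𝒰, S.card = m + 1 := by
  classical
  constructor
  · have h1 : grow σ x E 𝒰 ⊆ 𝒰.biUnion (fun U =>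
        (univ.filter (fun v => ∃ e ∈ ed (E ∪ U), σ.pi e = s(x, v))).image
          (fun v => insert v U)) := by
      intro S hS
      rw [A2a_mem_grow] at hS
      obtain ⟨U, hU, v, -, -, he, rfl⟩ := hS
      rw [mem_biUnion]
      exact ⟨U, hU, mem_image.2 ⟨v, mem_filter.2 ⟨mem_univ _, he⟩, rfl⟩⟩
    refine (card_le_card h1).trans ?_
    refine card_biUnion_le_card_mul _ _ _ ?_
    intro U hU
    refine card_image_le.trans ?_
    have hinj : Function.Injective (fun v : V => s(x, v)) := by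
      intro v w h
      have h' : v = w ∨ x = w ∧ v = x := by simpa using h
      rcases h' with h' | ⟨h2, h3⟩
      · exact h'
      · exact h3.trans h2
    have h2 : (univ.filter (fun v => ∃ e ∈ ed (E ∪ U), σ.pi e = s(x, v))).card
        ≤ (ed (E ∪ U)).card := by
      rw [← card_image_of_injective _ hinj]
      refine le_trans (card_le_card ?_) (card_image_le (s := ed (E ∪ U)) (f := σ.pi))
      intro e he
      rw [mem_image] at he
      obtain ⟨v, hv, rfl⟩ := he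
      obtain ⟨e, he, h⟩ := (mem_filter.1 hv).2
      exact mem_image.2 ⟨e, he, h⟩
    refine h2.trans ?_
    rw [card_ed]
    have h3 : (E ∪ U).card ≤ b := by
      refine (card_union_le _ _).trans ?_
      rw [hm U hU]
      exact hb
    refine (Nat.choose_le_pow _ _).trans ?_
    exact Nat.pow_le_pow_left h3 2
  · intro S hS
    rw [A2a_mem_grow] at hS
    obtain ⟨U, hU, v, hv, -, -, rfl⟩ := hS
    rw [card_insert_of_notMem hv, hm U hU]

theorem growCount (σ : St (Sym2 V)) (x : V) (E : Finset V) (s m b : ℕ) (𝒰 : Finset (Finset V))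
    (hm : ∀ U ∈ 𝒰, U.card = m) (hb : E.card + m + s ≤ b) :
    ((grow σ x E)^[s] 𝒰).card ≤ 𝒰.card * (b ^ 2) ^ s ∧
      ∀ S ∈ (grow σ x E)^[s] 𝒰, S.card = m + s := by
  induction s with
  | zero =>
    refine ⟨?_, ?_⟩
    · simp
    · simpa using hm
  | succ s ih =>
    obtain ⟨h1, h2⟩ := ih (by omega)
    rw [Function.iterate_succ_apply']
    obtain ⟨h3, h4⟩ := A2a_growCount_one σ x E (m + s) b _ h2 (by omega)
    refine ⟨h3.trans ?_, h4⟩
    rw [pow_succ (b ^ 2) s, ← mul_assoc]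
    exact Nat.mul_le_mul_right _ h1

theorem growDisjoint (σ : St (Sym2 V)) (x : V) (E : Finset V) (s : ℕ) (𝒰 : Finset (Finset V))
    (hm : ∀ U ∈ 𝒰, Disjoint U E) : ∀ S ∈ (grow σ x E)^[s] 𝒰, Disjoint S E := by
  induction s with
  | zero => exact hm
  | succ s ih =>
    intro S hS
    rw [Function.iterate_succ_apply', A2a_mem_grow] at hS
    obtain ⟨U, hU, v, -, hv, -, rfl⟩ := hS
    rw [disjoint_insert_left]
    exact ⟨hv, ih U hU⟩

theorem restrGrow (σ : St (Sym2 V)) (x : V) (E : Finset V) (hx : x ∈ E) (X : Finset (Sym2 V))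
    (hX : ∀ y ∈ E, ∀ v, s(y, v) ∈ X ∧ σ.pi s(y, v) ∈ X) (𝒰 : Finset (Finset V)) :
    grow (restr σ X) x E 𝒰 = grow σ x E 𝒰 := by
  ext S
  rw [A2a_mem_grow, A2a_mem_grow]
  constructor
  · rintro ⟨U, hU, v, hvU, hvE, ⟨e, he, hpi⟩, hS⟩
    refine ⟨U, hU, v, hvU, hvE, ⟨e, he, ?_⟩, hS⟩
    by_cases h : e ∈ X ∧ σ.pi e ∈ X
    · rw [restr_pi_of_mem σ h.1 h.2] at hpi
      exact hpi
    · exfalso
      have h1 : (restr σ X).pi e = e := by
        show (if e ∈ X ∧ σ.pi e ∈ X then σ.pi e else e) = e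
        rw [if_neg h]
      rw [h1] at hpi
      rw [hpi, mk_mem_ed] at he
      rcases mem_union.1 he.2.1 with h2 | h2
      · exact hvE h2
      · exact hvU h2
  · rintro ⟨U, hU, v, hvU, hvE, ⟨e, he, hpi⟩, hS⟩
    refine ⟨U, hU, v, hvU, hvE, ⟨e, he, ?_⟩, hS⟩
    have h1 := hX x hx v
    have h2 : e = σ.pi s(x, v) := by rw [← hpi, σ.inv]
    rw [restr_pi_of_mem σ (by rw [h2]; exact h1.2) (by rw [hpi]; exact h1.1)]
    exact hpi

end Pool.Agent.CG
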