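import Pool.Agent.CG.Ed

/-!
# CG A2b: weighted counting of vertex sets

PAPER PROOF.
`esymmBound`: m! ∑_{|U| = m} ∏ w ≤ (∑ w)^m (expand; or induction on S:
e_m(S ∪ {v}) = e_m(S) + w_v e_{m-1}(S), and (x+w)^m ≥ x^m + m w x^(m-1)).
`baseCount`: every counted U has ∏_{v ∈ U} 2^lw(star E v) = 2^(∑ lw) ≥ 2^Γ; apply `esymmBound` to
S = {v ∉ E : star E v alive}, w v = 2^lw.
`baseRestr`: use `lw_restr`, `disjoint_restr`.
-/

set_option autoImplicit false

namespace Pool.Agent.CG

open Finset

variable {V : Type} [DecidableEq V] [Fintype V]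

private theorem A2b_pow (x w : ℝ) (hx : 0 ≤ x) (hw : 0 ≤ w) (n : ℕ) :
    x ^ (n + 1) + ((n : ℝ) + 1) * (w * x ^ n) ≤ (w + x) ^ (n + 1) := by
  induction n with
  | zero => simp; linarith
  | succ n ih =>
    have h1 : (w + x) ^ (n + 1 + 1) = (w + x) ^ (n + 1) * (w + x) := pow_succ _ _
    have h2 : 0 ≤ w + x := add_nonneg hw hx
    have h3 := mul_le_mul_of_nonneg_right ih h2
    have h4 : 0 ≤ x ^ n := pow_nonneg hx n
    have h5 : 0 ≤ ((n : ℝ) + 1) * (w * (w * x ^ n)) := by positivity
    rw [h1]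
    refine le_trans ?_ h3
    push_cast
    have e1 : x ^ (n + 1 + 1) = x ^ n * x * x := by ring
    have e2 : x ^ (n + 1) = x ^ n * x := pow_succ _ _
    rw [e1, e2]
    nlinarith

theorem esymmBound {ι : Type} [DecidableEq ι] (S : Finset ι) (w : ι → ℝ) (hw : ∀ i ∈ S, 0 ≤ w i)
    (m : ℕ) : ∑ U ∈ powersetCard m S, ∏ i ∈ U, w i ≤ (∑ i ∈ S, w i) ^ m / (m.factorial : ℝ) := by
  induction S using Finset.induction_on generalizing m with
  | empty =>
    cases m with
    | zero => simp
    | succ n =>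
      have h : powersetCard (n + 1) (∅ : Finset ι) = ∅ := by
        apply powersetCard_eq_empty.2
        simp
      rw [h]
      simp
  | insert a s ha ih =>
    have hws : ∀ i ∈ s, 0 ≤ w i := fun i hi => hw i (mem_insert_of_mem hi)
    have hwa : 0 ≤ w a := hw a (mem_insert_self a s)
    cases m with
    | zero => simp
    | succ n =>
      have hT : 0 ≤ ∑ i ∈ s, w i := sum_nonneg hws
      have hdisj : Disjoint (powersetCard (n + 1) s) ((powersetCard n s).image (insert a)) := by
        rw [disjoint_left]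
        intro U hU hU'
        rw [mem_image] at hU'
        obtain ⟨U', _, rfl⟩ := hU'
        rw [mem_powersetCard] at hU
        exact ha (hU.1 (mem_insert_self a U'))
      rw [powersetCard_succ_insert ha, sum_union hdisj, sum_image, sum_insert ha]
      · have h1 := ih hws (n + 1)
        have h2 := ih hws n
        have h3 : ∑ x ∈ powersetCard n s, ∏ i ∈ insert a x, w i =
            w a * ∑ x ∈ powersetCard n s, ∏ i ∈ x, w i := by
          rw [mul_sum]
          refine sum_congr rfl fun x hx => ?_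
          rw [mem_powersetCard] at hx
          rw [prod_insert (fun h => ha (hx.1 h))]
        rw [h3]
        have h4 := A2b_pow (∑ i ∈ s, w i) (w a) hT hwa n
        have hf : (0:ℝ) < (n.factorial : ℝ) := by exact_mod_cast n.factorial_pos
        have hf1 : (((n + 1).factorial : ℕ) : ℝ) = ((n : ℝ) + 1) * (n.factorial : ℝ) := by
          rw [Nat.factorial_succ]; push_cast; ring
        have hn : (0:ℝ) < (n : ℝ) + 1 := by positivity
        calc _ ≤ (∑ i ∈ s, w i) ^ (n + 1) / ((n + 1).factorial : ℝ) +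
              w a * ((∑ i ∈ s, w i) ^ n / (n.factorial : ℝ)) :=
              add_le_add h1 (mul_le_mul_of_nonneg_left h2 hwa)
          _ = ((∑ i ∈ s, w i) ^ (n + 1) + ((n : ℝ) + 1) * (w a * (∑ i ∈ s, w i) ^ n)) /
              ((n + 1).factorial : ℝ) := by
              rw [hf1]; field_simp
          _ ≤ _ := by
              apply div_le_div_of_nonneg_right h4
              positivity
      · intro x hx y hy hxy
        have hx' := (mem_powersetCard.1 (mem_coe.1 hx)).1
        have hy' := (mem_powersetCard.1 (mem_coe.1 hy)).1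
        have h1 : (insert a x).erase a = x := erase_insert (fun h => ha (hx' h))
        have h2 : (insert a y).erase a = y := erase_insert (fun h => ha (hy' h))
        have hxy' : insert a x = insert a y := hxy
        rw [← h1, ← h2, hxy']

/-- sets of `m` vertices outside `E` with alive stars and total star weight at least `Γ` -/
noncomputable def baseSets (σ : St (Sym2 V)) (E : Finset V) (m : ℕ) (Γ : ℝ) :
    Finset (Finset V) :=
  (powersetCard m (univ \ E)).filter (fun U => (∀ v ∈ U, Disjoint (star E v) σ.B) ∧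
    Γ ≤ ∑ v ∈ U, lw σ (star E v))

theorem baseCount (σ : St (Sym2 V)) (E : Finset V) (m : ℕ) (Γ : ℝ) :
    ((baseSets σ E m Γ).card : ℝ) ≤
      (∑ v ∈ univ.filter (fun v => v ∉ E ∧ Disjoint (star E v) σ.B), (2:ℝ) ^ (lw σ (star E v))) ^ m
        / (m.factorial : ℝ) * (2:ℝ) ^ (-Γ) := by
  have h2 : (0:ℝ) < (2:ℝ) ^ Γ := Real.rpow_pos_of_pos (by norm_num) Γ
  rw [Real.rpow_neg (by norm_num : (0:ℝ) ≤ 2), ← div_eq_mul_inv, le_div_iff₀ h2]
  refine le_trans ?_ (esymmBound (univ.filter (fun v => v ∉ E ∧ Disjoint (star E v) σ.B))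
    (fun v => (2:ℝ) ^ (lw σ (star E v))) (fun i _ => by positivity) m)
  have hsub : baseSets σ E m Γ ⊆
      powersetCard m (univ.filter (fun v => v ∉ E ∧ Disjoint (star E v) σ.B)) := by
    intro U hU
    unfold baseSets at hU
    rw [mem_filter, mem_powersetCard] at hU
    rw [mem_powersetCard]
    refine ⟨fun v hv => ?_, hU.1.2⟩
    rw [mem_filter]
    exact ⟨mem_univ v, (mem_sdiff.1 (hU.1.1 hv)).2, hU.2.1 v hv⟩
  calc ((baseSets σ E m Γ).card : ℝ) * (2:ℝ) ^ Γ = ∑ U ∈ baseSets σ E m Γ, (2:ℝ) ^ Γ := by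
        rw [sum_const, nsmul_eq_mul]
    _ ≤ ∑ U ∈ baseSets σ E m Γ, ∏ v ∈ U, (2:ℝ) ^ (lw σ (star E v)) := by
        refine sum_le_sum fun U hU => ?_
        unfold baseSets at hU
        rw [mem_filter] at hU
        rw [← Real.rpow_sum_of_pos (by norm_num : (0:ℝ) < 2)]
        exact Real.rpow_le_rpow_of_exponent_le (by norm_num) hU.2.2
    _ ≤ _ := sum_le_sum_of_subset_of_nonneg hsub fun U _ _ =>
        prod_nonneg fun v _ => by positivity

theorem baseRestr (σ : St (Sym2 V)) (E : Finset V) (X : Finset (Sym2 V))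
    (hX : ∀ v, star E v ⊆ X) (m : ℕ) (Γ : ℝ) :
    baseSets (restr σ X) E m Γ = baseSets σ E m Γ := by
  unfold baseSets
  refine filter_congr fun U _ => ?_
  have h1 : (∀ v ∈ U, Disjoint (star E v) (restr σ X).B) ↔
      (∀ v ∈ U, Disjoint (star E v) σ.B) :=
    forall₂_congr fun v _ => disjoint_restr σ (hX v)
  have h2 : ∑ v ∈ U, lw (restr σ X) (star E v) = ∑ v ∈ U, lw σ (star E v) :=
    sum_congr rfl fun v _ => lw_restr σ (hX v)
  rw [h1, h2]

end Pool.Agent.CG
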