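import Pool.Agent.CG.S7

/-!
# CG A3n: numerics of the rooted and of the population step

Notation: L = LL N, k = |E| (kernel with root), s = number of determined vertices, n = q - k.
PAPER PROOF of `numRooted`. Divide by 2^(-Γ) (it appears on both sides). Take log₂ of the left side:
(n-s)(log₂(5(k+1)) + L) - log₂((n-s)!) + s k + 2s log₂ q + 2, and (n-s)! ≥ q!/q^(k+s), so
log₂((n-s)!) ≥ log₂ q! - (k+s) log₂ q. With `slack`: q L - log₂ q! ≤ C(q,2), hence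
left - right ≤ -(k+s)L + (k+3s) log₂ q + q log₂(5(k+1)) + s k + 2 + C(k,2) + u + 2β(J+1)q + 1 + 0.04JL.
Here k ≤ 4J+1, s ≤ J, J ≤ 10^-14 L: s k + C(k,2) ≤ k(J + 2.5 J) ≤ 0.001 k L + ..; log₂ q ≤ 0.001 L;
q log₂(5(k+1)) ≤ 2L log₂(5(4J+2)) ≤ 0.001 J L for J ≥ C large; u ≤ 0.01 J L; 2β(J+1)q ≤ 0.8304 (J+1) L;
k + s ≥ k/2 + 0.98 J + 1/2 - 1. Total ≤ J L (-0.998*0.98 + 0.01 + 0.8304 + 0.04 + 0.003) + O(L) < 0.
PAPER PROOF of `numPop` (n = q - k, j = 10^6 J, ν ≤ 1 - 1/160000):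
log₂ left = νjL + (n-j)L - log₂((n-j)!) + 2, log₂((n-j)!) ≥ log₂ q! - (k+j) log₂ q,
C(n,2) ≥ C(q,2) - kq. left - right ≤ -j(1-ν)L - kL + kq + (k+j) log₂ q + u + 2β(J+1)q + 0.04JL + 3
≤ -6.25 J L + (4J+1) L + 0.9 J L + small < 0. (n - j ≥ 0 because j ≤ 10^-8 L, k ≤ 5J.)
-/

set_option autoImplicit false

namespace Pool.Agent.CG

open Finset Filter

theorem A3n_pw {x : ℝ} (hx : 0 < x) (n : ℕ) : x ^ n = (2:ℝ) ^ ((n:ℝ) * Real.logb 2 x) := by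
  rw [mul_comm, Real.rpow_mul (by norm_num), Real.rpow_logb (by norm_num) (by norm_num) hx,
    Real.rpow_natCast]

theorem A3n_fact {q n m : ℕ} (h : n + m = q) (hq : 1 ≤ q) :
    (1:ℝ) / (n.factorial : ℝ) ≤
      (2:ℝ) ^ ((m:ℝ) * Real.logb 2 (q:ℝ) - Real.logb 2 (q.factorial : ℝ)) := by
  have hq0 : (0:ℝ) < (q:ℝ) := by exact_mod_cast hq
  have hqf : (0:ℝ) < (q.factorial : ℝ) := by exact_mod_cast q.factorial_pos
  have hnf : (0:ℝ) < (n.factorial : ℝ) := by exact_mod_cast n.factorial_pos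
  have h1 : q.factorial ≤ n.factorial * q ^ m := by
    have h2 := Nat.factorial_mul_descFactorial (n := q) (k := m) (by omega)
    have h3 : q - m = n := by omega
    rw [h3] at h2
    rw [← h2]
    exact Nat.mul_le_mul_left _ (Nat.descFactorial_le_pow q m)
  have h1' : (q.factorial : ℝ) ≤ (n.factorial : ℝ) * (q:ℝ) ^ m := by exact_mod_cast h1
  rw [Real.rpow_sub (by norm_num), ← A3n_pw hq0 m, Real.rpow_logb (by norm_num) (by norm_num) hqf,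
    div_le_div_iff₀ hnf hqf]
  linarith

theorem A3n_logb {x y : ℝ} (hx : 0 < x) (hy : 0 ≤ y) (h : x ≤ y ^ 2) : Real.logb 2 x ≤ 4 * y := by
  have hs : Real.sqrt x ≤ y := Real.sqrt_le_iff.2 ⟨hy, h⟩
  have hs0 : 0 < Real.sqrt x := Real.sqrt_pos.2 hx
  have h1 : Real.log x = 2 * Real.log (Real.sqrt x) := by
    have h2 : x = Real.sqrt x ^ 2 := (Real.sq_sqrt hx.le).symm
    conv_lhs => rw [h2]
    rw [Real.log_pow]
    norm_num
  have h2 : Real.log (Real.sqrt x) ≤ Real.sqrt x - 1 := Real.log_le_sub_one_of_pos hs0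
  have h3 : (0.5:ℝ) ≤ Real.log 2 := by
    have := Real.log_two_gt_d9
    linarith
  have h4 : Real.log x ≤ 2 * y := by linarith
  unfold Real.logb
  rw [div_le_iff₀ (by linarith)]
  nlinarith

theorem A3n_N {N : ℕ} (h : 0 < LL N) : (0:ℝ) < (N:ℝ) ∧ 1 ≤ N := by
  rcases Nat.eq_zero_or_pos N with h0 | h0
  · subst h0
    simp [LL] at h
  · exact ⟨by exact_mod_cast h0, h0⟩

theorem A3n_uJ (N J : ℕ) (h : 0 ≤ LL N) : ((uJ N J : ℕ) : ℝ) ≤ (J:ℝ) * LL N / 100 := by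
  unfold uJ
  exact Nat.floor_le (by positivity)

theorem A3n_choose_le (k : ℕ) : (k.choose 2 : ℝ) ≤ (k:ℝ) ^ 2 / 2 := by
  rw [Nat.cast_choose_two]
  nlinarith [(Nat.cast_nonneg k : (0:ℝ) ≤ (k:ℝ))]

theorem A3n_choose_sub {q k : ℕ} (h : k ≤ q) :
    (q.choose 2 : ℝ) - k * q ≤ ((q - k).choose 2 : ℝ) := by
  rw [Nat.cast_choose_two, Nat.cast_choose_two, Nat.cast_sub h]
  nlinarith [(Nat.cast_nonneg k : (0:ℝ) ≤ (k:ℝ))]

theorem numRooted : ∀ᶠ C : ℕ in atTop, ∀ᶠ N : ℕ in atTop, ∀ q J : ℕ, Reg C N q → C ≤ J →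
    (J:ℝ) ≤ eta * LL N → ∀ (k s : ℕ) (Γ : ℝ), 1 ≤ k → k ≤ 4 * J + 1 → s ≤ J →
    (0.98:ℝ) * J - ((k:ℝ) - 1) / 2 - 1 ≤ s →
    (5 * ((k:ℝ) + 1) * N) ^ (q - k - s) / ((q - k - s).factorial : ℝ) * (2:ℝ) ^ (-(Γ - s * k)) *
        ((q:ℝ) ^ 2) ^ s * 4 <
      (2:ℝ) ^ (((q.choose 2 : ℝ) - (k.choose 2 : ℝ) - uJ N J - 2 * beta * (J + 1) * q - Γ - 1)
        - 0.04 * J * LL N) := by
  filter_upwards [regNum, slack, Filter.eventually_ge_atTop (10 ^ 10)] with C hr hsl hC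
  filter_upwards [hr, hsl] with N hrN hsN
  intro q J hReg hCJ hJ k s Γ hk1 hk hs1 hs2
  obtain ⟨hL1, hL2, hL3, hL4⟩ := hrN q hReg
  have hslack := hsN q hReg
  have hL3' : (10:ℝ) ^ 30 ≤ LL N := le_trans (by norm_num) hL3
  have hLpos : 0 < LL N := lt_of_lt_of_le (by norm_num) hL3'
  obtain ⟨hN0, hN1⟩ := A3n_N hLpos
  have hC' : (10:ℝ) ^ 10 ≤ (C:ℝ) := by exact_mod_cast hC
  have hJC : (C:ℝ) ≤ (J:ℝ) := by exact_mod_cast hCJ
  have hJ10 : (10:ℝ) ^ 10 ≤ (J:ℝ) := hC'.trans hJC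
  have hJ' : (J:ℝ) ≤ 1 / 10 ^ 14 * LL N := hJ
  have hk' : (k:ℝ) ≤ 4 * J + 1 := by exact_mod_cast hk
  have hk1' : (1:ℝ) ≤ (k:ℝ) := by exact_mod_cast hk1
  have hs1' : (s:ℝ) ≤ J := by exact_mod_cast hs1
  have hs0 : (0:ℝ) ≤ (s:ℝ) := Nat.cast_nonneg s
  have hq0 : (0:ℝ) < (q:ℝ) := by nlinarith
  have hq1 : 1 ≤ q := by exact_mod_cast hq0
  have hksq : k + s ≤ q := by
    have : ((k + s : ℕ) : ℝ) ≤ (q:ℝ) := by
      push_cast
      norm_num at hJ' hL3' ⊢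
      linarith
    exact_mod_cast this
  obtain ⟨n, hn⟩ : ∃ n, n = q - k - s := ⟨_, rfl⟩
  rw [← hn]
  have hnq : n + (k + s) = q := by omega
  have hnq' : (n:ℝ) + (k + s) = q := by exact_mod_cast hnq
  have hn0 : (0:ℝ) ≤ (n:ℝ) := Nat.cast_nonneg n
  have h5 : (0:ℝ) < 5 * ((k:ℝ) + 1) := by linarith
  -- rewrite the factors as powers of two
  have e1 : (5 * ((k:ℝ) + 1) * N) ^ n = (2:ℝ) ^ ((n:ℝ) * (Real.logb 2 (5 * ((k:ℝ) + 1)) + LL N)) := by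
    rw [A3n_pw (by positivity) n, Real.logb_mul h5.ne' hN0.ne']
    rfl
  have e2 := A3n_fact hnq hq1
  have e3 : ((q:ℝ) ^ 2) ^ s = (2:ℝ) ^ (2 * (s:ℝ) * Real.logb 2 (q:ℝ)) := by
    rw [← pow_mul, A3n_pw hq0 (2 * s)]
    push_cast
    ring_nf
  have e4 : (4:ℝ) = (2:ℝ) ^ (2:ℝ) := by
    norm_num
  have hle : (5 * ((k:ℝ) + 1) * N) ^ n / (n.factorial : ℝ) * (2:ℝ) ^ (-(Γ - s * k)) *
      ((q:ℝ) ^ 2) ^ s * 4 ≤ (2:ℝ) ^ ((n:ℝ) * (Real.logb 2 (5 * ((k:ℝ) + 1)) + LL N) +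
        ((((k + s : ℕ) : ℝ)) * Real.logb 2 (q:ℝ) - Real.logb 2 (q.factorial : ℝ)) +
        (-(Γ - s * k)) + (2 * (s:ℝ) * Real.logb 2 (q:ℝ)) + 2) := by
    rw [Real.rpow_add (by norm_num), Real.rpow_add (by norm_num), Real.rpow_add (by norm_num),
      Real.rpow_add (by norm_num), ← e4, e1, e3, div_eq_mul_one_div]
    gcongr
  refine lt_of_le_of_lt hle (Real.rpow_lt_rpow_of_exponent_lt (by norm_num) ?_)
  -- numerical bounds
  have hP : LL N * 10 ^ 10 ≤ (J:ℝ) * LL N := by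
    rw [mul_comm]
    exact mul_le_mul_of_nonneg_right hJ10 hLpos.le
  have b3 : Real.logb 2 (5 * ((k:ℝ) + 1)) ≤ 0.0005 * J := by
    have h := A3n_logb (x := 5 * ((k:ℝ) + 1)) (y := (J:ℝ) / 8000) h5 (by positivity) (by nlinarith)
    linarith
  have b3' : 0 ≤ Real.logb 2 (5 * ((k:ℝ) + 1)) := Real.logb_nonneg (by norm_num) (by linarith)
  have b4 : Real.logb 2 (q:ℝ) ≤ LL N / 10 ^ 9 := by
    have h := A3n_logb (x := (q:ℝ)) (y := LL N / (4 * 10 ^ 9)) hq0 (by positivity) (by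
      refine hL2.trans ?_
      have h1 : 2 * LL N * (4 * 10 ^ 9) ^ 2 ≤ LL N ^ 2 := by nlinarith
      rw [div_pow, le_div_iff₀ (by positivity)]
      exact h1)
    have e : 4 * (LL N / (4 * 10 ^ 9)) = LL N / 10 ^ 9 := by ring
    rw [e] at h
    exact h
  have b4' : 0 ≤ Real.logb 2 (q:ℝ) := Real.logb_nonneg (by norm_num) (by exact_mod_cast hq1)
  have c3 : (n:ℝ) * Real.logb 2 (5 * ((k:ℝ) + 1)) ≤ 0.001 * (J * LL N) := by
    have h1 : (n:ℝ) ≤ 2 * LL N := by linarith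
    have h2 : (n:ℝ) * Real.logb 2 (5 * ((k:ℝ) + 1)) ≤ (2 * LL N) * (0.0005 * J) :=
      mul_le_mul h1 b3 b3' (by positivity)
    linarith
  have c4 : ((k:ℝ) + s + 2 * s) * Real.logb 2 (q:ℝ) ≤ (8 * J) * (LL N / 10 ^ 9) := by
    refine mul_le_mul ?_ b4 b4' (by positivity)
    linarith
  have hJJ : (J:ℝ) * J ≤ (J * LL N) / 10 ^ 14 := by
    have h1 : (J:ℝ) * J ≤ J * (1 / 10 ^ 14 * LL N) := mul_le_mul_of_nonneg_left hJ' (by positivity)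
    linarith
  have c5 : (s:ℝ) * k ≤ 5 * (J * J) := by
    have h1 : (s:ℝ) * k ≤ J * (5 * J) := mul_le_mul hs1' (by linarith) (by positivity) (by positivity)
    linarith
  have c6 : (k.choose 2 : ℝ) ≤ 13 * (J * J) := by
    have h1 := A3n_choose_le k
    have h2 : (k:ℝ) ≤ 5 * J := by linarith
    nlinarith
  have c7 := A3n_uJ N J hLpos.le
  have c8 : 2 * beta * (J + 1) * q ≤ 0.8304 * (J * LL N) + 0.8304 * LL N := by
    have h1 := beta_lt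
    have h2 := beta_pos
    have h3 : 2 * beta * ((J:ℝ) + 1) ≤ 0.4152 * (J + 1) :=
      mul_le_mul_of_nonneg_right (by linarith) (by positivity)
    have h4 : 2 * beta * ((J:ℝ) + 1) * q ≤ 0.4152 * (J + 1) * (2 * LL N) :=
      mul_le_mul h3 hL2 hq0.le (by positivity)
    linarith
  have c9 : (0:ℝ) ≤ (q:ℝ) * ((C:ℝ) / 2 - 1) := by
    apply mul_nonneg hq0.le
    linarith
  have c2 : ((k:ℝ) / 2 + 0.98 * J - 1 / 2) * LL N ≤ (k + s) * LL N :=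
    mul_le_mul_of_nonneg_right (by linarith) hLpos.le
  have c10 : (n:ℝ) * LL N = q * LL N - (k + s) * LL N := by
    rw [← hnq']
    ring
  have c11 : 0 ≤ (k:ℝ) / 2 * LL N := by positivity
  push_cast
  norm_num at hP c3 c4 hJJ c8 c2 c7 hL3' ⊢
  linarith

theorem numPop : ∀ᶠ C : ℕ in atTop, ∀ᶠ N : ℕ in atTop, ∀ q J : ℕ, Reg C N q → C ≤ J →
    (J:ℝ) ≤ eta * LL N → ∀ (k : ℕ) (ν : ℝ), k ≤ 4 * J + 1 → 0 ≤ ν → ν ≤ 1 - del1 →
    ((N:ℝ) ^ ν) ^ (10 ^ 6 * J) * ((N:ℝ) ^ (q - k - 10 ^ 6 * J) /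
        ((q - k - 10 ^ 6 * J).factorial : ℝ)) * 4 <
      (2:ℝ) ^ ((((q - k).choose 2 : ℝ) - uJ N J - 2 * beta * (J + 1) * q) - 0.04 * J * LL N) := by
  filter_upwards [regNum, slack, Filter.eventually_ge_atTop (10 ^ 10)] with C hr hsl hC
  filter_upwards [hr, hsl] with N hrN hsN
  intro q J hReg hCJ hJ k ν hk hν0 hν1
  obtain ⟨hL1, hL2, hL3, hL4⟩ := hrN q hReg
  have hslack := hsN q hReg
  have hL3' : (10:ℝ) ^ 30 ≤ LL N := le_trans (by norm_num) hL3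
  have hLpos : 0 < LL N := lt_of_lt_of_le (by norm_num) hL3'
  obtain ⟨hN0, hN1⟩ := A3n_N hLpos
  have hC' : (10:ℝ) ^ 10 ≤ (C:ℝ) := by exact_mod_cast hC
  have hJC : (C:ℝ) ≤ (J:ℝ) := by exact_mod_cast hCJ
  have hJ10 : (10:ℝ) ^ 10 ≤ (J:ℝ) := hC'.trans hJC
  have hJ' : (J:ℝ) ≤ 1 / 10 ^ 14 * LL N := hJ
  have hk' : (k:ℝ) ≤ 4 * J + 1 := by exact_mod_cast hk
  have hk0 : (0:ℝ) ≤ (k:ℝ) := Nat.cast_nonneg k
  have hν1' : ν ≤ 1 - 1 / 160000 := hν1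
  have hq0 : (0:ℝ) < (q:ℝ) := by nlinarith
  have hq1 : 1 ≤ q := by exact_mod_cast hq0
  obtain ⟨j, hj⟩ : ∃ j, j = 10 ^ 6 * J := ⟨_, rfl⟩
  rw [← hj]
  have hj' : (j:ℝ) = 10 ^ 6 * J := by
    rw [hj]
    push_cast
    ring
  have hksq : k + j ≤ q := by
    have : ((k + j : ℕ) : ℝ) ≤ (q:ℝ) := by
      push_cast
      norm_num at hJ' hL3' hj' ⊢
      linarith
    exact_mod_cast this
  obtain ⟨n, hn⟩ : ∃ n, n = q - k - j := ⟨_, rfl⟩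
  rw [← hn]
  have hnq : n + (k + j) = q := by omega
  have hnq' : (n:ℝ) + (k + j) = q := by exact_mod_cast hnq
  have hn0 : (0:ℝ) ≤ (n:ℝ) := Nat.cast_nonneg n
  have e0 : ((N:ℝ) ^ ν) ^ j = (2:ℝ) ^ ((j:ℝ) * (ν * LL N)) := by
    rw [A3n_pw (Real.rpow_pos_of_pos hN0 ν) j, Real.logb_rpow_eq_mul_logb_of_pos hN0]
    rfl
  have e1 : (N:ℝ) ^ n = (2:ℝ) ^ ((n:ℝ) * LL N) := A3n_pw hN0 n
  have e2 := A3n_fact hnq hq1
  have e4 : (4:ℝ) = (2:ℝ) ^ (2:ℝ) := by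
    norm_num
  have hle : ((N:ℝ) ^ ν) ^ j * ((N:ℝ) ^ n / (n.factorial : ℝ)) * 4 ≤
      (2:ℝ) ^ ((j:ℝ) * (ν * LL N) + ((n:ℝ) * LL N +
        ((((k + j : ℕ) : ℝ)) * Real.logb 2 (q:ℝ) - Real.logb 2 (q.factorial : ℝ))) + 2) := by
    rw [Real.rpow_add (by norm_num), Real.rpow_add (by norm_num), Real.rpow_add (by norm_num),
      ← e4, e0, e1, div_eq_mul_one_div ((2:ℝ) ^ ((n:ℝ) * LL N))]
    gcongr
  refine lt_of_le_of_lt hle (Real.rpow_lt_rpow_of_exponent_lt (by norm_num) ?_)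
  have hP : LL N * 10 ^ 10 ≤ (J:ℝ) * LL N := by
    rw [mul_comm]
    exact mul_le_mul_of_nonneg_right hJ10 hLpos.le
  have b4 : Real.logb 2 (q:ℝ) ≤ LL N / 10 ^ 9 := by
    have h := A3n_logb (x := (q:ℝ)) (y := LL N / (4 * 10 ^ 9)) hq0 (by positivity) (by
      refine hL2.trans ?_
      have h1 : 2 * LL N * (4 * 10 ^ 9) ^ 2 ≤ LL N ^ 2 := by nlinarith
      rw [div_pow, le_div_iff₀ (by positivity)]
      exact h1)
    have e : 4 * (LL N / (4 * 10 ^ 9)) = LL N / 10 ^ 9 := by ring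
    rw [e] at h
    exact h
  have b4' : 0 ≤ Real.logb 2 (q:ℝ) := Real.logb_nonneg (by norm_num) (by exact_mod_cast hq1)
  have c4 : ((k:ℝ) + j) * Real.logb 2 (q:ℝ) ≤ (2 * 10 ^ 6 * J) * (LL N / 10 ^ 9) := by
    refine mul_le_mul ?_ b4 b4' (by positivity)
    linarith
  have c7 := A3n_uJ N J hLpos.le
  have c8 : 2 * beta * (J + 1) * q ≤ 0.8304 * (J * LL N) + 0.8304 * LL N := by
    have h1 := beta_lt
    have h2 := beta_pos
    have h3 : 2 * beta * ((J:ℝ) + 1) ≤ 0.4152 * (J + 1) :=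
      mul_le_mul_of_nonneg_right (by linarith) (by positivity)
    have h4 : 2 * beta * ((J:ℝ) + 1) * q ≤ 0.4152 * (J + 1) * (2 * LL N) :=
      mul_le_mul h3 hL2 hq0.le (by positivity)
    linarith
  have c9 : (0:ℝ) ≤ (q:ℝ) * ((C:ℝ) / 2 - 1) := by
    apply mul_nonneg hq0.le
    linarith
  have c10 : (n:ℝ) * LL N = q * LL N - k * LL N - j * LL N := by
    rw [← hnq']
    ring
  have c11 := A3n_choose_sub (q := q) (k := k) (by omega)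
  have c12 : (k:ℝ) * q ≤ k * (2 * LL N) := mul_le_mul_of_nonneg_left hL2 hk0
  have c13 : (k:ℝ) * LL N ≤ (4 * J + 1) * LL N := mul_le_mul_of_nonneg_right hk' hLpos.le
  have c14 : (j:ℝ) * (ν * LL N) ≤ j * LL N - 6.25 * (J * LL N) := by
    have h1 : ν * LL N ≤ (1 - 1 / 160000) * LL N := mul_le_mul_of_nonneg_right hν1' hLpos.le
    have h2 : (j:ℝ) * (ν * LL N) ≤ j * ((1 - 1 / 160000) * LL N) :=
      mul_le_mul_of_nonneg_left h1 (by positivity)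
    have h3 : (j:ℝ) * ((1 - 1 / 160000) * LL N) = j * LL N - 6.25 * (J * LL N) := by
      rw [hj']
      ring
    linarith
  push_cast
  norm_num at hP c4 c8 c7 hL3' ⊢
  linarith

end Pool.Agent.CG
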