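import Pool.Agent.CG.S1a

/-!
# CG S1: the sampling lemma

PAPER PROOF. Use `Cert.family` with the index type Σ D : Δ, (Fin w → T D) (elements of `T D` as a
subtype; or sequences a : Fin w → ι filtered by a i ∈ T D) and the edge set
H(D; a) = ⋃_i Pr D (a i). It gives  ∑ W ≤ K * |index| ≤ K * |Δ| * t^w, hence for every D
   Z(D) := ∑_{a ∈ (T D)^w} W σ (⋃_i Pr D (a i)) ≤ K |Δ| t^w       (W ≥ 0).
Fix D, A, l, τ as in the statement. For a set F put n(F) = #{a ∈ A : |Pr D a ∩ F| ≤ τ}. Suppose the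
conclusion fails: for ALL F with |F| ≤ 2wp we have n(F) * 2^(l-τ) > y := t (K|Δ|)^(1/w) ≥ 0.
Claim (induction on j ≤ w): for every edge set H with |H| ≤ (w-j) p, H disjoint from σ.B (alive):
   ∑_{a ∈ A^j} W σ (H ∪ ⋃ Pr D (a i)) ≥ y^j * W σ H   (strict for j ≥ 1 if wanted),
since for F = H ∪ H.image pi, |F| ≤ 2|H| ≤ 2wp, every a ∈ A with |Pr D a ∩ F| ≤ τ satisfies by
`oneStep`  W σ (H ∪ Pr D a) ≥ 2^(l-τ) W σ H, and |H ∪ Pr D a| ≤ (w-j+1)p.
With H = ∅ (W = 1) and j = w: Z(D) > y^w = t^w K |Δ|, contradiction (w ≥ 1).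
If K|Δ| = 0 everything is trivial too (Z(D) ≤ 0 while Z(D) > 0).
-/

set_option autoImplicit false

namespace Pool.Agent.CG

open Finset

variable {α : Type} [DecidableEq α]

/-- the sum over sequences in `A` -/
private noncomputable def S1_S {ι : Type} (σ : St α) (P : ι → Finset α) (A : Finset ι) (j : ℕ)
    (H : Finset α) : ℝ :=
  ∑ a ∈ Fintype.piFinset (fun _ : Fin j => A), W σ (H ∪ univ.biUnion (fun i => P (a i)))

private theorem S1_zero {ι : Type} (σ : St α) (P : ι → Finset α) (A : Finset ι) (H : Finset α) :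
    S1_S σ P A 0 H = W σ H := by
  unfold S1_S
  have : Fintype.piFinset (fun _ : Fin 0 => A) = {fun i => i.elim0} := by
    ext a
    simp only [Fintype.mem_piFinset, mem_singleton]
    constructor
    · intro _; funext i; exact i.elim0
    · intro _ i; exact i.elim0
  rw [this, sum_singleton]
  simp

private theorem S1_succ {ι : Type} (σ : St α) (P : ι → Finset α) (A : Finset ι) (j : ℕ)
    (H : Finset α) : S1_S σ P A (j + 1) H = ∑ x ∈ A, S1_S σ P A j (H ∪ P x) := by
  unfold S1_S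
  rw [← sum_product']
  symm
  refine sum_nbij' (fun p => Fin.cons p.1 p.2) (fun a => (a 0, fun i => a i.succ)) ?_ ?_ ?_ ?_ ?_
  · rintro ⟨x, a⟩ h
    simp only [mem_product, Fintype.mem_piFinset] at h ⊢
    intro i
    refine Fin.cases ?_ (fun i => ?_) i
    · exact h.1
    · exact h.2 i
  · intro a h
    simp only [mem_product, Fintype.mem_piFinset] at h ⊢
    exact ⟨h 0, fun i => h i.succ⟩
  · rintro ⟨x, a⟩ _
    simp
  · intro a _
    simp only
    funext i
    refine Fin.cases ?_ (fun i => ?_) i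
    · rfl
    · rfl
  · rintro ⟨x, a⟩ _
    simp only
    congr 1
    ext e
    simp only [mem_union, mem_biUnion, mem_univ, true_and]
    rw [Fin.exists_fin_succ]
    simp only [Fin.cons_zero, Fin.cons_succ]
    tauto

private theorem S1_nonneg {ι : Type} (σ : St α) (P : ι → Finset α) (A : Finset ι) (j : ℕ)
    (H : Finset α) : 0 ≤ S1_S σ P A j H :=
  sum_nonneg fun _ _ => W_nonneg σ _

private theorem S1_main {ι : Type} [DecidableEq ι] (σ : St α) (P : ι → Finset α) (A : Finset ι)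
    (p w : ℕ) (y l τ : ℝ) (hy : 0 ≤ y) (hp : ∀ a ∈ A, (P a).card ≤ p)
    (hA : ∀ a ∈ A, Disjoint (P a) σ.B ∧ l ≤ lw σ (P a))
    (hF : ∀ F : Finset α, F.card ≤ 2 * w * p →
      y < ((A.filter (fun a => ((P a ∩ F).card : ℝ) ≤ τ)).card : ℝ) * (2:ℝ) ^ (l - τ))
    (j : ℕ) (hj : j ≤ w) (H : Finset α) (hH : H.card ≤ (w - j) * p) (hd : Disjoint H σ.B) :
    y ^ j * W σ H ≤ S1_S σ P A j H ∧ 0 < S1_S σ P A j H ∧
      (1 ≤ j → y ^ j * W σ H < S1_S σ P A j H) := by
  induction j generalizing H with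
  | zero =>
    rw [S1_zero, pow_zero, one_mul]
    exact ⟨le_rfl, lt_of_lt_of_le one_pos (one_le_W_of_disjoint hd), fun h => by omega⟩
  | succ j ih =>
    have hw : w - j = w - (j + 1) + 1 := by omega
    have hW : 0 < W σ H := lt_of_lt_of_le one_pos (one_le_W_of_disjoint hd)
    set F := H ∪ H.image σ.pi with hFdef
    have hFc : F.card ≤ 2 * w * p := by
      calc F.card ≤ H.card + (H.image σ.pi).card := card_union_le _ _
        _ ≤ H.card + H.card := Nat.add_le_add_left card_image_le _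
        _ = 2 * H.card := by ring
        _ ≤ 2 * ((w - (j + 1)) * p) := Nat.mul_le_mul_left _ hH
        _ ≤ 2 * (w * p) := Nat.mul_le_mul_left _ (Nat.mul_le_mul_right _ (Nat.sub_le _ _))
        _ = 2 * w * p := by ring
    have h1 := hF F hFc
    set G := A.filter (fun a => ((P a ∩ F).card : ℝ) ≤ τ) with hG
    have hpos : (0:ℝ) < (2:ℝ) ^ (l - τ) := Real.rpow_pos_of_pos (by norm_num) _
    have hGpos : (0:ℝ) < (G.card : ℝ) := by
      by_contra hc
      have : (G.card : ℝ) = 0 := le_antisymm (not_lt.1 hc) (Nat.cast_nonneg _)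
      rw [this, zero_mul] at h1
      exact absurd h1 (not_lt.2 hy)
    have hGne : G.Nonempty := by
      rw [← card_pos]
      exact_mod_cast hGpos
    have hstep : ∀ a ∈ G, Disjoint (H ∪ P a) σ.B ∧ (H ∪ P a).card ≤ (w - j) * p ∧
        (2:ℝ) ^ (l - τ) * W σ H ≤ W σ (H ∪ P a) := by
      intro a ha
      rw [hG, mem_filter] at ha
      have hda : Disjoint (H ∪ P a) σ.B := disjoint_union_left.2 ⟨hd, (hA a ha.1).1⟩
      refine ⟨hda, ?_, ?_⟩
      · rw [hw, add_mul, one_mul]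
        exact (card_union_le _ _).trans (Nat.add_le_add hH (hp a ha.1))
      · rw [W_of_disjoint hda, W_of_disjoint hd, ← Real.rpow_add (by norm_num)]
        apply Real.rpow_le_rpow_of_exponent_le (by norm_num)
        have h2 := oneStep σ H (P a)
        have h3 := (hA a ha.1).2
        have h4 := ha.2
        linarith
    have hsum : ∑ a ∈ G, S1_S σ P A j (H ∪ P a) ≤ S1_S σ P A (j + 1) H := by
      rw [S1_succ]
      exact sum_le_sum_of_subset_of_nonneg (filter_subset _ _) fun a _ _ => S1_nonneg σ P A j _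
    have hih : ∀ a ∈ G, y ^ j * W σ (H ∪ P a) ≤ S1_S σ P A j (H ∪ P a) ∧
        0 < S1_S σ P A j (H ∪ P a) := by
      intro a ha
      have h2 := hstep a ha
      have h3 := ih (by omega) (H ∪ P a) h2.2.1 h2.1
      exact ⟨h3.1, h3.2.1⟩
    have hposS : 0 < ∑ a ∈ G, S1_S σ P A j (H ∪ P a) := sum_pos (fun a ha => (hih a ha).2) hGne
    have hstrict : y ^ (j + 1) * W σ H < S1_S σ P A (j + 1) H := by
      rcases hy.eq_or_lt with h0 | h0
      · rw [← h0, zero_pow (Nat.succ_ne_zero j), zero_mul]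
        exact hposS.trans_le hsum
      · refine lt_of_lt_of_le ?_ hsum
        have h2 : (G.card : ℝ) * (y ^ j * ((2:ℝ) ^ (l - τ) * W σ H)) ≤
            ∑ a ∈ G, S1_S σ P A j (H ∪ P a) := by
          rw [← nsmul_eq_mul]
          apply card_nsmul_le_sum
          intro a ha
          refine le_trans ?_ (hih a ha).1
          exact mul_le_mul_of_nonneg_left (hstep a ha).2.2 (pow_nonneg hy j)
        refine lt_of_lt_of_le ?_ h2
        have h3 : 0 < y ^ j * W σ H := mul_pos (pow_pos h0 j) hW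
        calc y ^ (j + 1) * W σ H = y * (y ^ j * W σ H) := by ring
          _ < (G.card : ℝ) * (2:ℝ) ^ (l - τ) * (y ^ j * W σ H) := mul_lt_mul_of_pos_right h1 h3
          _ = (G.card : ℝ) * (y ^ j * ((2:ℝ) ^ (l - τ) * W σ H)) := by ring
    exact ⟨hstrict.le, hposS.trans_le hsum, fun _ => hstrict⟩

theorem sampling [Fintype α] {Δ ι : Type} [Fintype Δ] [DecidableEq ι] (T : Δ → Finset ι)
    (Pr : Δ → ι → Finset α) (t : ℝ) (p w : ℕ) (K : ℝ) (hK : 0 ≤ K) (hw : 1 ≤ w)
    (hT : ∀ D, ((T D).card : ℝ) ≤ t) (hp : ∀ D, ∀ a ∈ T D, (Pr D a).card ≤ p) :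
    Cert K (fun σ : St α => ∀ D : Δ, ∀ A ⊆ T D, ∀ l τ : ℝ,
      (∀ a ∈ A, Disjoint (Pr D a) σ.B ∧ l ≤ lw σ (Pr D a)) →
      ∃ F : Finset α, F.card ≤ 2 * w * p ∧
        ((A.filter (fun a => ((Pr D a ∩ F).card : ℝ) ≤ τ)).card : ℝ) * (2:ℝ) ^ (l - τ) ≤
          t * (K * Fintype.card Δ) ^ (1 / (w : ℝ))) := by
  have hfam := Cert.family (K := K)
    (ι := Σ D : Δ, {a : Fin w → ι // a ∈ Fintype.piFinset (fun _ : Fin w => T D)})
    (fun x => univ.biUnion (fun i => Pr x.1 (x.2.1 i)))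
  refine hfam.mono le_rfl fun σ hσ D A hAT l τ hA => ?_
  by_contra hcon
  push Not at hcon
  have ht : 0 ≤ t := le_trans (Nat.cast_nonneg _) (hT D)
  have hKD : 0 ≤ K * (Fintype.card Δ : ℝ) := mul_nonneg hK (Nat.cast_nonneg _)
  have hy : 0 ≤ t * (K * Fintype.card Δ) ^ (1 / (w : ℝ)) :=
    mul_nonneg ht (Real.rpow_nonneg hKD _)
  have hmain := (S1_main σ (Pr D) A p w _ l τ hy (fun a ha => hp D a (hAT ha)) hA hcon w le_rfl ∅
    (by simp) (disjoint_empty_left _)).2.2 hw
  have hW0 : W σ (∅ : Finset α) = 1 := by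
    rw [W_of_disjoint (disjoint_empty_left _)]
    simp [lw, cl, dd]
  rw [hW0, mul_one, mul_pow, one_div, Real.rpow_inv_natCast_pow hKD (by omega)] at hmain
  have hZ : S1_S σ (Pr D) A w ∅ ≤
      ∑ a ∈ Fintype.piFinset (fun _ : Fin w => T D), W σ (univ.biUnion (fun i => Pr D (a i))) := by
    unfold S1_S
    simp only [empty_union]
    exact sum_le_sum_of_subset_of_nonneg (Fintype.piFinset_subset _ _ fun _ => hAT)
      fun a _ _ => W_nonneg σ _
  have hsum : ∑ x : (Σ D : Δ, {a : Fin w → ι // a ∈ Fintype.piFinset (fun _ : Fin w => T D)}),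
      W σ (univ.biUnion (fun i => Pr x.1 (x.2.1 i))) =
      ∑ D : Δ, ∑ a ∈ Fintype.piFinset (fun _ : Fin w => T D),
        W σ (univ.biUnion (fun i => Pr D (a i))) := by
    rw [Fintype.sum_sigma]
    refine sum_congr rfl fun D _ => ?_
    exact (sum_coe_sort (Fintype.piFinset (fun _ : Fin w => T D))
      (fun a => W σ (univ.biUnion (fun i => Pr D (a i)))))
  have hle : ∑ a ∈ Fintype.piFinset (fun _ : Fin w => T D),
        W σ (univ.biUnion (fun i => Pr D (a i))) ≤
      ∑ D : Δ, ∑ a ∈ Fintype.piFinset (fun _ : Fin w => T D),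
        W σ (univ.biUnion (fun i => Pr D (a i))) :=
    single_le_sum (f := fun D : Δ => ∑ a ∈ Fintype.piFinset (fun _ : Fin w => T D),
        W σ (univ.biUnion (fun i => Pr D (a i))))
      (fun D _ => sum_nonneg fun a _ => W_nonneg σ _) (mem_univ D)
  have hcard : (Fintype.card (Σ D : Δ, {a : Fin w → ι // a ∈ Fintype.piFinset
      (fun _ : Fin w => T D)}) : ℝ) ≤ Fintype.card Δ * t ^ w := by
    rw [Fintype.card_sigma]
    push_cast
    calc ∑ D : Δ, (Fintype.card {a : Fin w → ι // a ∈ Fintype.piFinset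
          (fun _ : Fin w => T D)} : ℝ) ≤ ∑ _D : Δ, t ^ w := by
          refine sum_le_sum fun D _ => ?_
          rw [Fintype.card_coe, Fintype.card_piFinset_const]
          push_cast
          exact pow_le_pow_left₀ (Nat.cast_nonneg _) (hT D) w
      _ = Fintype.card Δ * t ^ w := by simp
  rw [hsum] at hσ
  have h5 := mul_le_mul_of_nonneg_left hcard hK
  have h6 : K * (↑(Fintype.card Δ) * t ^ w) = t ^ w * (K * ↑(Fintype.card Δ)) := by ring
  linarith

end Pool.Agent.CG
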