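import Pool.Agent.CG.Basic

/-!
# CG S7: numerics of the clique size

PAPER PROOF of `slack`. Write L = LL N, l = log₂ L. q! ≥ (q/e)^q, so log₂ q! ≥ q log₂ q - 1.4427 q
(log₂ e < 1.4427). By Reg, (q-1)/2 ≥ L - l + C/2 - 1/2, and q ≥ 1.999 L gives
log₂ q ≥ l + 0.999 (log₂ 1.999 > 0.999). So
C(q,2) - qL + log₂ q! ≥ q [(q-1)/2 - L + log₂ q - 1.4427] ≥ q (C/2 - 0.944) ≥ q (C/2 - 1).
`regNum`: l = o(L), so for N large (depending on C) 2l - C - 1 is between 0 and 0.001 L.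
`log_fact_lower`, `choose_le`: C(N,k) ≤ N^k / k!.
-/

set_option autoImplicit false

namespace Pool.Agent.CG

open Finset Filter

private theorem S7_LL : Tendsto (fun N : ℕ => LL N) atTop atTop := by
  unfold LL
  exact (Real.tendsto_logb_atTop (by norm_num)).comp tendsto_natCast_atTop_atTop

private theorem S7_ev (C : ℕ) : ∀ᶠ x : ℝ in atTop, (10:ℝ)^100 ≤ x ∧ (C:ℝ) * 10^100 ≤ x ∧
    (C:ℝ) + 1 ≤ 2 * Real.logb 2 x ∧ 2 * Real.logb 2 x ≤ 0.001 * x := by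
  have h1 : ∀ᶠ x : ℝ in atTop, (10:ℝ)^100 ≤ x := eventually_ge_atTop _
  have h2 : ∀ᶠ x : ℝ in atTop, (C:ℝ) * 10^100 ≤ x := eventually_ge_atTop _
  have h3 : ∀ᶠ x : ℝ in atTop, ((C:ℝ) + 1) / 2 ≤ Real.logb 2 x :=
    (Real.tendsto_logb_atTop (by norm_num)).eventually (eventually_ge_atTop _)
  have h4 : ∀ᶠ x : ℝ in atTop, ‖Real.log x‖ ≤ 0.0003 * ‖id x‖ :=
    Real.isLittleO_log_id_atTop.def (by norm_num)
  filter_upwards [h1, h2, h3, h4] with x a1 a2 a3 a4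
  refine ⟨a1, a2, by linarith, ?_⟩
  have hx : (0:ℝ) < x := lt_of_lt_of_le (by positivity) a1
  have hl : Real.log x ≤ 0.0003 * x := by
    have b1 : Real.log x ≤ ‖Real.log x‖ := le_abs_self _
    have b2 : ‖id x‖ = x := by
      simp only [id]
      exact abs_of_pos hx
    rw [b2] at a4
    exact le_trans b1 a4
  have l2 : (0.69:ℝ) < Real.log 2 := by
    have := Real.log_two_gt_d9
    linarith
  unfold Real.logb
  rw [mul_div_assoc', div_le_iff₀ (by linarith)]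
  nlinarith

private theorem S7_fact (q : ℕ) (hq : 0 < q) :
    (q:ℝ) * (Real.logb 2 q - 1.4427) ≤ Real.logb 2 (q.factorial : ℝ) := by
  have hq' : (0:ℝ) < q := by exact_mod_cast hq
  have h1 := Real.pow_div_factorial_le_exp (x := (q:ℝ)) hq'.le q
  have hf : (0:ℝ) < (q.factorial : ℝ) := by exact_mod_cast Nat.factorial_pos q
  have h2 : (q:ℝ) ^ q ≤ Real.exp q * (q.factorial : ℝ) := by
    rwa [div_le_iff₀ hf] at h1
  have h3 : Real.log ((q:ℝ) ^ q) ≤ Real.log (Real.exp q * (q.factorial : ℝ)) :=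
    Real.log_le_log (by positivity) h2
  rw [Real.log_mul (Real.exp_ne_zero _) hf.ne', Real.log_exp, Real.log_pow] at h3
  have l2 := Real.log_two_gt_d9
  have l2p : (0:ℝ) < Real.log 2 := by linarith
  unfold Real.logb
  rw [le_div_iff₀ l2p]
  have e : (q:ℝ) * (Real.log q / Real.log 2 - 1.4427) * Real.log 2 =
      q * Real.log q - q * (1.4427 * Real.log 2) := by
    field_simp
  rw [e]
  have h4 : (1:ℝ) ≤ 1.4427 * Real.log 2 := by nlinarith
  nlinarith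

private theorem S7_c : (0.999:ℝ) ≤ Real.logb 2 1.999 := by
  have l2 := Real.log_two_gt_d9
  have l2p : (0:ℝ) < Real.log 2 := by linarith
  have e : (1.999:ℝ) = 2 * 0.9995 := by norm_num
  rw [e]
  unfold Real.logb
  rw [Real.log_mul (by norm_num) (by norm_num), le_div_iff₀ l2p]
  have h := Real.one_sub_inv_le_log_of_pos (x := (0.9995:ℝ)) (by norm_num)
  have h2 : (-0.0006:ℝ) ≤ 1 - (0.9995:ℝ)⁻¹ := by norm_num
  nlinarith

private theorem S7_reg (C : ℕ) : ∀ᶠ N : ℕ in atTop, ∀ q : ℕ, Reg C N q →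
    (1.999:ℝ) * LL N ≤ q ∧ (q:ℝ) ≤ 2 * LL N ∧ (10:ℝ)^100 ≤ LL N ∧ (C:ℝ) ≤ LL N / 10^100 := by
  have h := S7_LL.eventually (S7_ev C)
  filter_upwards [h] with N hN q hq
  obtain ⟨a1, a2, a3, a4⟩ := hN
  obtain ⟨b1, b2⟩ := hq
  have hC : (0:ℝ) ≤ C := Nat.cast_nonneg C
  refine ⟨by linarith, by linarith, a1, ?_⟩
  rw [le_div_iff₀ (by positivity)]
  exact a2

theorem regNum : ∀ᶠ C : ℕ in atTop, ∀ᶠ N : ℕ in atTop, ∀ q : ℕ, Reg C N q →
    (1.999:ℝ) * LL N ≤ q ∧ (q:ℝ) ≤ 2 * LL N ∧ (10:ℝ)^100 ≤ LL N ∧ (C:ℝ) ≤ LL N / 10^100 :=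
  Eventually.of_forall S7_reg

theorem slack : ∀ᶠ C : ℕ in atTop, ∀ᶠ N : ℕ in atTop, ∀ q : ℕ, Reg C N q →
    (q:ℝ) * ((C:ℝ) / 2 - 1) ≤ (q.choose 2 : ℝ) - q * LL N + Real.logb 2 (q.factorial : ℝ) := by
  refine Eventually.of_forall fun C => ?_
  filter_upwards [S7_reg C] with N hN q hq
  obtain ⟨a1, a2, a3, a4⟩ := hN q hq
  obtain ⟨b1, b2⟩ := hq
  have hL : (0:ℝ) < LL N := lt_of_lt_of_le (by positivity) a3
  have hq0 : (0:ℝ) < q := by nlinarith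
  have hq1 : 0 < q := by exact_mod_cast hq0
  have h1 := S7_fact q hq1
  have h2 : Real.logb 2 (LL N) + 0.999 ≤ Real.logb 2 q := by
    have e : Real.logb 2 (1.999 * LL N) = Real.logb 2 1.999 + Real.logb 2 (LL N) :=
      Real.logb_mul (by norm_num) hL.ne'
    have m : Real.logb 2 (1.999 * LL N) ≤ Real.logb 2 q :=
      Real.logb_le_logb_of_le (by norm_num) (by positivity) a1
    have := S7_c
    linarith
  have h3 : (q.choose 2 : ℝ) = (q:ℝ) * ((q:ℝ) - 1) / 2 := Nat.cast_choose_two ℝ q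
  rw [h3]
  have h4 : (C:ℝ) / 2 - 1 ≤ ((q:ℝ) - 1) / 2 - LL N + (Real.logb 2 q - 1.4427) := by linarith
  have h5 := mul_le_mul_of_nonneg_left h4 hq0.le
  nlinarith

end Pool.Agent.CG
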