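import Pool.Agent.CG.S1
import Pool.Agent.CG.S7

/-!
# CG S2: the vertex lemma

PAPER PROOF of `vertexCount`. Apply `sampling` with Δ = {E : Finset (Fin N) // E.card ≤ k}
(at most (N+1)^k elements), ι = Fin N, T D = univ, Pr E v = star E v (at most k edges), t = N, p = k,
w = ⌈(k + 22) L⌉ (L = LL N), K = N^20. Let E, l be given, A = {v ∉ E : star E v alive, lw ≥ l}, τ = 0:
there is F with |F| ≤ 2wk and #{v ∈ A : star E v ∩ F = ∅} 2^l ≤ N (N^20 (N+1)^k)^(1/w) ≤ 2N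
(since N^20 (N+1)^k ≤ 2^((k+22) L) for N ≥ 2 large: (N+1)^k ≤ N^k * 2^k/…; use (N+1)^k ≤ N^(k+1) for
k ≤ LL N, as (1+1/N)^k ≤ N). For v ∈ A with star E v ∩ F ≠ ∅ choose an edge s(x,v) ∈ F, x ∈ E; as
v ∉ E the edge determines v. So there are at most |F| such v:
|A| ≤ 2N 2^(-l) + 2wk ≤ 2N 2^(-l) + 2k((k+22)L + 1).
PAPER PROOF of `vertexSum`: for t = 0,1,..,k let A_t = {v ∉ E alive, t ≤ lw < t+1}
(0 ≤ lw ≤ |E| ≤ k). ∑ 2^lw ≤ ∑_t 2^(t+1) |A_t| ≤ ∑_t (4N + 2^(t+1) 2k((k+22)L+1))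
≤ 4(k+1)N + 2^(k+2) 2k((k+22)L+1) ≤ 5(k+1)N since 2^k ≤ 4 N^0.6, k ≤ L, N large.
-/

set_option autoImplicit false

namespace Pool.Agent.CG

open Finset Filter

/-- subsets with at most `k` elements: at most `(k+1) N^k` -/
private theorem S2_cardΔ (N k : ℕ) (hN : 1 ≤ N) :
    Fintype.card {E : Finset (Fin N) // E.card ≤ k} ≤ (k + 1) * N ^ k := by
  classical
  rw [Fintype.card_subtype]
  have hsub : (univ.filter (fun E : Finset (Fin N) => E.card ≤ k)) ⊆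
      (range (k + 1)).biUnion (fun i => powersetCard i (univ : Finset (Fin N))) := by
    intro E hE
    rw [mem_filter] at hE
    rw [mem_biUnion]
    exact ⟨E.card, mem_range.2 (Nat.lt_succ_of_le hE.2), mem_powersetCard.2 ⟨subset_univ _, rfl⟩⟩
  calc (univ.filter (fun E : Finset (Fin N) => E.card ≤ k)).card
      ≤ ((range (k + 1)).biUnion (fun i => powersetCard i (univ : Finset (Fin N)))).card :=
        card_le_card hsub
    _ ≤ ∑ i ∈ range (k + 1), (powersetCard i (univ : Finset (Fin N))).card := card_biUnion_le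
    _ ≤ ∑ _i ∈ range (k + 1), N ^ k := by
        refine sum_le_sum fun i hi => ?_
        rw [card_powersetCard, card_univ, Fintype.card_fin]
        exact (Nat.choose_le_pow N i).trans
          (Nat.pow_le_pow_right hN (Nat.le_of_lt_succ (mem_range.1 hi)))
    _ = (k + 1) * N ^ k := by rw [sum_const, card_range, smul_eq_mul]

/-- the vertices outside `E` with an edge of `F` to `E` -/
private theorem S2_hit {N : ℕ} (E : Finset (Fin N)) (F : Finset (Sym2 (Fin N)))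
    (A : Finset (Fin N)) (hA : ∀ v ∈ A, v ∉ E ∧ 0 < (star E v ∩ F).card) : A.card ≤ F.card := by
  classical
  have hex : ∀ v : Fin N, ∃ x : Fin N, v ∈ A → x ∈ E ∧ s(x, v) ∈ F := by
    intro v
    by_cases hv : v ∈ A
    · obtain ⟨e, he⟩ := card_pos.1 (hA v hv).2
      rw [mem_inter] at he
      unfold star at he
      rw [mem_image] at he
      obtain ⟨⟨x, hx, rfl⟩, heF⟩ := he
      exact ⟨x, fun _ => ⟨hx, heF⟩⟩
    · exact ⟨v, fun h => absurd h hv⟩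
  choose x hx using hex
  refine card_le_card_of_injOn (fun v => s(x v, v)) ?_ ?_
  · intro v hv
    exact (hx v hv).2
  · intro v hv u hu huv
    have huv' : s(x v, v) = s(x u, u) := huv
    rw [Sym2.eq_iff] at huv'
    rcases huv' with h | h
    · exact h.2
    · exfalso
      have h1 := (hx u hu).1
      rw [← h.2] at h1
      exact (hA v hv).1 h1

private theorem S2_LL_pos {N : ℕ} (hN : 2 ≤ N) : 0 < LL N := by
  unfold LL
  apply Real.logb_pos (by norm_num)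
  exact_mod_cast hN

private theorem S2_rpow_LL {N : ℕ} (hN : 1 ≤ N) : (2:ℝ) ^ (LL N) = N := by
  unfold LL
  exact Real.rpow_logb (by norm_num) (by norm_num) (by exact_mod_cast hN)

/-- `L = o(N^(1/5))` -/
private theorem S2_ev : ∀ᶠ N : ℕ in atTop, 8 * LL N ≤ (N:ℝ) ^ (0.2 : ℝ) := by
  have h := (isLittleO_log_rpow_atTop (r := (0.2 : ℝ)) (by norm_num)).bound
    (c := Real.log 2 / 8) (by have := Real.log_pos (by norm_num : (1:ℝ) < 2); positivity)
  have h2 := tendsto_natCast_atTop_atTop.eventually h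
  filter_upwards [h2, eventually_ge_atTop 2] with N hN hN2
  have hN2' : (2:ℝ) ≤ N := by exact_mod_cast hN2
  have hlog2 := Real.log_pos (by norm_num : (1:ℝ) < 2)
  have hlogN : 0 ≤ Real.log N := Real.log_nonneg (by linarith)
  rw [Real.norm_of_nonneg hlogN, Real.norm_of_nonneg (by positivity)] at hN
  unfold LL Real.logb
  have : 8 * (Real.log N / Real.log 2) = Real.log N / (Real.log 2 / 8) := by
    field_simp
  rw [this, div_le_iff₀ (by positivity)]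
  linarith

private theorem S2_LL_large : Tendsto (fun N : ℕ => LL N) atTop atTop := by
  unfold LL
  exact (Real.tendsto_logb_atTop (by norm_num)).comp tendsto_natCast_atTop_atTop

theorem vertexCount : ∀ᶠ N : ℕ in atTop, ∀ k : ℕ, (k:ℝ) ≤ 0.6 * LL N + 2 →
    Cert ((N:ℝ) ^ 20) (fun σ : St (Sym2 (Fin N)) => ∀ E : Finset (Fin N), E.card ≤ k → ∀ l : ℝ,
      ((univ.filter (fun v => v ∉ E ∧ Disjoint (star E v) σ.B ∧ l ≤ lw σ (star E v))).card : ℝ) ≤
        2 * N * (2:ℝ) ^ (-l) + 2 * k * ((k + 22) * LL N + 1)) := by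
  classical
  filter_upwards [S2_ev, eventually_ge_atTop 2, S2_LL_large.eventually_ge_atTop 10]
    with N hev hN2 hL10 k hk
  have hN2' : (2:ℝ) ≤ N := by exact_mod_cast hN2
  have hN1 : (1:ℝ) ≤ N := by linarith
  have hL : 0 < LL N := S2_LL_pos hN2
  -- k + 1 ≤ N
  have hN02 : (N:ℝ) ^ (0.2:ℝ) ≤ N := by
    calc (N:ℝ) ^ (0.2:ℝ) ≤ (N:ℝ) ^ (1:ℝ) := Real.rpow_le_rpow_of_exponent_le hN1 (by norm_num)
      _ = N := Real.rpow_one _
  have hkN : (k:ℝ) + 1 ≤ N := by nlinarith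
  set w : ℕ := ⌈((k:ℝ) + 22) * LL N⌉₊ with hw
  have hkL : 0 < ((k:ℝ) + 22) * LL N := by positivity
  have hw1 : 1 ≤ w := Nat.one_le_iff_ne_zero.2 (by
    rw [hw]; exact (Nat.ceil_pos.2 hkL).ne')
  have hwge : ((k:ℝ) + 22) * LL N ≤ w := Nat.le_ceil _
  have hwle : (w:ℝ) ≤ ((k:ℝ) + 22) * LL N + 1 := (Nat.ceil_lt_add_one hkL.le).le
  have hwpos : (0:ℝ) < w := by exact_mod_cast hw1
  have hsamp := sampling (α := Sym2 (Fin N)) (Δ := {E : Finset (Fin N) // E.card ≤ k})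
    (ι := Fin N) (fun _ => univ) (fun D v => star D.1 v) (N:ℝ) k w ((N:ℝ) ^ 20) (by positivity) hw1
    (fun D => by simp) (fun D a _ => (card_image_le).trans D.2)
  refine hsamp.mono le_rfl ?_
  intro σ hσ E hE l
  obtain ⟨F, hF, hcount⟩ := hσ ⟨E, hE⟩
    (univ.filter (fun v => v ∉ E ∧ Disjoint (star E v) σ.B ∧ l ≤ lw σ (star E v)))
    (subset_univ _) l 0 (by
      intro a ha
      rw [mem_filter] at ha
      exact ⟨ha.2.2.1, ha.2.2.2⟩)
  set A := univ.filter (fun v => v ∉ E ∧ Disjoint (star E v) σ.B ∧ l ≤ lw σ (star E v)) with hA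
  -- the sampling bound
  have hbase : ((N:ℝ) ^ 20 * (Fintype.card {E : Finset (Fin N) // E.card ≤ k} : ℝ)) ≤
      (2:ℝ) ^ (((k:ℝ) + 22) * LL N) := by
    have h1 : (Fintype.card {E : Finset (Fin N) // E.card ≤ k} : ℝ) ≤ ((k:ℝ) + 1) * (N:ℝ) ^ k := by
      exact_mod_cast S2_cardΔ N k (by omega)
    have h2 : ((k:ℝ) + 1) * (N:ℝ) ^ k ≤ (N:ℝ) ^ (k + 1) := by
      rw [pow_succ, mul_comm ((N:ℝ) ^ k)]
      exact mul_le_mul_of_nonneg_right hkN (by positivity)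
    have h3 : (N:ℝ) ^ 20 * (N:ℝ) ^ (k + 1) ≤ (N:ℝ) ^ (k + 22) := by
      rw [← pow_add]
      exact pow_le_pow_right₀ hN1 (by omega)
    have h4 : (N:ℝ) ^ (k + 22) = (2:ℝ) ^ (((k:ℝ) + 22) * LL N) := by
      rw [mul_comm, Real.rpow_mul (by norm_num), S2_rpow_LL (by omega)]
      rw [← Real.rpow_natCast]
      push_cast
      rfl
    rw [← h4]
    refine le_trans ?_ h3
    exact mul_le_mul_of_nonneg_left (h1.trans h2) (by positivity)
  have hroot : ((N:ℝ) ^ 20 * (Fintype.card {E : Finset (Fin N) // E.card ≤ k} : ℝ)) ^ (1 / (w:ℝ)) ≤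
      2 := by
    calc ((N:ℝ) ^ 20 * (Fintype.card {E : Finset (Fin N) // E.card ≤ k} : ℝ)) ^ (1 / (w:ℝ))
        ≤ ((2:ℝ) ^ (((k:ℝ) + 22) * LL N)) ^ (1 / (w:ℝ)) :=
          Real.rpow_le_rpow (by positivity) hbase (by positivity)
      _ = (2:ℝ) ^ (((k:ℝ) + 22) * LL N * (1 / (w:ℝ))) := by
          rw [← Real.rpow_mul (by norm_num)]
      _ ≤ (2:ℝ) ^ (1:ℝ) := by
          apply Real.rpow_le_rpow_of_exponent_le (by norm_num)
          rw [mul_one_div, div_le_one hwpos]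
          exact hwge
      _ = 2 := Real.rpow_one _
  have hA1 : ((A.filter (fun a => ((star E a ∩ F).card : ℝ) ≤ 0)).card : ℝ) ≤
      2 * N * (2:ℝ) ^ (-l) := by
    rw [sub_zero] at hcount
    have h1 : ((A.filter (fun a => ((star E a ∩ F).card : ℝ) ≤ 0)).card : ℝ) * (2:ℝ) ^ l ≤
        (N:ℝ) * 2 := hcount.trans (mul_le_mul_of_nonneg_left hroot (by positivity))
    have h2 : (2:ℝ) ^ (-l) = ((2:ℝ) ^ l)⁻¹ := Real.rpow_neg (by norm_num) l
    rw [h2, ← div_eq_mul_inv, le_div_iff₀ (by positivity)]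
    linarith
  have hA2 : ((A.filter (fun a => ¬ ((star E a ∩ F).card : ℝ) ≤ 0)).card : ℝ) ≤
      2 * k * ((k + 22) * LL N + 1) := by
    have h1 : (A.filter (fun a => ¬ ((star E a ∩ F).card : ℝ) ≤ 0)).card ≤ F.card := by
      apply S2_hit E F
      intro v hv
      rw [mem_filter] at hv
      have hv1 := hv.1
      rw [hA, mem_filter] at hv1
      refine ⟨hv1.2.1, ?_⟩
      have := hv.2
      push Not at this
      exact_mod_cast this
    calc ((A.filter (fun a => ¬ ((star E a ∩ F).card : ℝ) ≤ 0)).card : ℝ)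
        ≤ (F.card : ℝ) := by exact_mod_cast h1
      _ ≤ ((2 * w * k : ℕ) : ℝ) := by exact_mod_cast hF
      _ = 2 * k * w := by push_cast; ring
      _ ≤ 2 * k * ((k + 22) * LL N + 1) := mul_le_mul_of_nonneg_left hwle (by positivity)
  have hsplit : (A.card : ℝ) = ((A.filter (fun a => ((star E a ∩ F).card : ℝ) ≤ 0)).card : ℝ) +
      ((A.filter (fun a => ¬ ((star E a ∩ F).card : ℝ) ≤ 0)).card : ℝ) := by
    rw [← card_filter_add_card_filter_not (s := A) (fun a => ((star E a ∩ F).card : ℝ) ≤ 0)]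
    push_cast
    rfl
  rw [hsplit]
  exact add_le_add hA1 hA2

theorem vertexSum : ∀ᶠ N : ℕ in atTop, ∀ k : ℕ, (k:ℝ) ≤ 0.6 * LL N + 2 →
    Cert ((N:ℝ) ^ 20) (fun σ : St (Sym2 (Fin N)) => ∀ E : Finset (Fin N), E.card ≤ k →
      ∑ v ∈ univ.filter (fun v => v ∉ E ∧ Disjoint (star E v) σ.B), (2:ℝ) ^ (lw σ (star E v)) ≤
        5 * (k + 1) * N) := by
  classical
  filter_upwards [vertexCount, S2_ev, eventually_ge_atTop 2, S2_LL_large.eventually_ge_atTop 30]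
    with N hcnt hev hN2 hL30 k hk
  have hN2' : (2:ℝ) ≤ N := by exact_mod_cast hN2
  have hN1 : (1:ℝ) ≤ N := by linarith
  have hNpos : (0:ℝ) < N := by linarith
  have hL : 0 < LL N := S2_LL_pos hN2
  refine (hcnt k hk).mono le_rfl ?_
  intro σ hσ E hE
  set A := univ.filter (fun v => v ∉ E ∧ Disjoint (star E v) σ.B) with hA
  set At : ℕ → Finset (Fin N) := fun t =>
    univ.filter (fun v => v ∉ E ∧ Disjoint (star E v) σ.B ∧ (t:ℝ) ≤ lw σ (star E v)) with hAt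
  -- lw at most k
  have hlwk : ∀ v, lw σ (star E v) ≤ k := by
    intro v
    have h1 : lw σ (star E v) ≤ cl σ (star E v) := lw_le_cl σ _
    have h2 : cl σ (star E v) ≤ k := (cl_le_card σ _).trans (card_image_le.trans hE)
    have h2' : (cl σ (star E v) : ℝ) ≤ k := by exact_mod_cast h2
    linarith
  -- pointwise bound
  have hpt : ∀ v ∈ A, (2:ℝ) ^ (lw σ (star E v)) ≤
      ∑ t ∈ range (k + 1), (if v ∈ At t then (2:ℝ) ^ ((t:ℝ) + 1) else 0) := by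
    intro v hv
    rw [hA, mem_filter] at hv
    have h0 := lw_nonneg σ (star E v)
    have ht : ⌊lw σ (star E v)⌋₊ ∈ range (k + 1) := by
      rw [mem_range]
      have : ⌊lw σ (star E v)⌋₊ ≤ k := Nat.floor_le_of_le (hlwk v)
      omega
    have hmem : v ∈ At ⌊lw σ (star E v)⌋₊ := by
      rw [hAt]
      simp only [mem_filter, mem_univ, true_and]
      exact ⟨hv.2.1, hv.2.2, Nat.floor_le h0⟩
    calc (2:ℝ) ^ (lw σ (star E v)) ≤ (2:ℝ) ^ (((⌊lw σ (star E v)⌋₊ : ℕ) : ℝ) + 1) :=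
          Real.rpow_le_rpow_of_exponent_le (by norm_num) (Nat.lt_floor_add_one _).le
      _ = (if v ∈ At ⌊lw σ (star E v)⌋₊ then
            (2:ℝ) ^ (((⌊lw σ (star E v)⌋₊ : ℕ) : ℝ) + 1) else 0) := by rw [if_pos hmem]
      _ ≤ ∑ t ∈ range (k + 1), (if v ∈ At t then (2:ℝ) ^ ((t:ℝ) + 1) else 0) :=
          single_le_sum (f := fun t : ℕ => if v ∈ At t then (2:ℝ) ^ ((t:ℝ) + 1) else 0)
            (fun t _ => by split_ifs <;> positivity) ht
  set X : ℝ := 2 * k * ((k + 22) * LL N + 1) with hX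
  have hXnn : 0 ≤ X := by rw [hX]; positivity
  have hsum : ∑ v ∈ A, (2:ℝ) ^ (lw σ (star E v)) ≤
      ∑ t ∈ range (k + 1), (4 * N + (2:ℝ) ^ ((t:ℝ) + 1) * X) := by
    calc ∑ v ∈ A, (2:ℝ) ^ (lw σ (star E v))
        ≤ ∑ v ∈ A, ∑ t ∈ range (k + 1), (if v ∈ At t then (2:ℝ) ^ ((t:ℝ) + 1) else 0) :=
          sum_le_sum hpt
      _ = ∑ t ∈ range (k + 1), ∑ v ∈ A, (if v ∈ At t then (2:ℝ) ^ ((t:ℝ) + 1) else 0) := sum_comm
      _ ≤ ∑ t ∈ range (k + 1), ((At t).card : ℝ) * (2:ℝ) ^ ((t:ℝ) + 1) := by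
          refine sum_le_sum fun t _ => ?_
          rw [← sum_filter, sum_const, nsmul_eq_mul]
          apply mul_le_mul_of_nonneg_right _ (by positivity)
          have : (A.filter (fun v => v ∈ At t)).card ≤ (At t).card :=
            card_le_card (fun v hv => (mem_filter.1 hv).2)
          exact_mod_cast this
      _ ≤ ∑ t ∈ range (k + 1), (4 * N + (2:ℝ) ^ ((t:ℝ) + 1) * X) := by
          refine sum_le_sum fun t _ => ?_
          have h1 : ((At t).card : ℝ) ≤ 2 * N * (2:ℝ) ^ (-(t:ℝ)) + X := hσ E hE (t:ℝ)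
          have h2 : (0:ℝ) < (2:ℝ) ^ ((t:ℝ) + 1) := by positivity
          calc ((At t).card : ℝ) * (2:ℝ) ^ ((t:ℝ) + 1)
              ≤ (2 * N * (2:ℝ) ^ (-(t:ℝ)) + X) * (2:ℝ) ^ ((t:ℝ) + 1) :=
                mul_le_mul_of_nonneg_right h1 h2.le
            _ = 2 * N * ((2:ℝ) ^ (-(t:ℝ)) * (2:ℝ) ^ ((t:ℝ) + 1)) + (2:ℝ) ^ ((t:ℝ) + 1) * X := by ring
            _ = 2 * N * 2 + (2:ℝ) ^ ((t:ℝ) + 1) * X := by
                rw [← Real.rpow_add (by norm_num)]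
                have : -(t:ℝ) + ((t:ℝ) + 1) = 1 := by ring
                rw [this, Real.rpow_one]
            _ = 4 * N + (2:ℝ) ^ ((t:ℝ) + 1) * X := by ring
  -- geometric sum
  have hgeom : ∑ t ∈ range (k + 1), (2:ℝ) ^ ((t:ℝ) + 1) ≤ (2:ℝ) ^ ((k:ℝ) + 2) := by
    have : ∀ m : ℕ, ∑ t ∈ range m, (2:ℝ) ^ ((t:ℝ) + 1) ≤ (2:ℝ) ^ ((m:ℝ) + 1) := by
      intro m
      induction m with
      | zero => simp
      | succ m ih =>
        rw [sum_range_succ]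
        have h1 : (2:ℝ) ^ (((m + 1 : ℕ) : ℝ) + 1) = 2 * (2:ℝ) ^ ((m:ℝ) + 1) := by
          rw [mul_comm, ← Real.rpow_add_one (by norm_num)]
          push_cast
          rfl
        rw [h1]
        linarith
    have h2 := this (k + 1)
    have h3 : (((k + 1 : ℕ) : ℝ) + 1) = (k:ℝ) + 2 := by push_cast; ring
    rw [h3] at h2
    exact h2
  have hpow : (2:ℝ) ^ ((k:ℝ) + 2) ≤ 16 * (N:ℝ) ^ (0.6:ℝ) := by
    calc (2:ℝ) ^ ((k:ℝ) + 2) ≤ (2:ℝ) ^ (4 + LL N * 0.6) := by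
          apply Real.rpow_le_rpow_of_exponent_le (by norm_num)
          linarith
      _ = 16 * (N:ℝ) ^ (0.6:ℝ) := by
          rw [Real.rpow_add (by norm_num), Real.rpow_mul (by norm_num), S2_rpow_LL (by omega)]
          norm_num
  have hXle : X ≤ 4 * ((k:ℝ) + 1) * LL N ^ 2 := by
    rw [hX]
    have hk0 : (0:ℝ) ≤ k := by positivity
    have h1 : ((k:ℝ) + 22) * LL N + 1 ≤ 2 * LL N ^ 2 := by nlinarith
    calc 2 * (k:ℝ) * ((k + 22) * LL N + 1) ≤ 2 * (k:ℝ) * (2 * LL N ^ 2) :=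
          mul_le_mul_of_nonneg_left h1 (by positivity)
      _ ≤ 4 * ((k:ℝ) + 1) * LL N ^ 2 := by nlinarith [sq_nonneg (LL N)]
  have hL2 : 64 * LL N ^ 2 ≤ (N:ℝ) ^ (0.4:ℝ) := by
    have h1 : (8 * LL N) ^ 2 ≤ ((N:ℝ) ^ (0.2:ℝ)) ^ 2 := by
      apply pow_le_pow_left₀ (by positivity) hev
    have h2 : ((N:ℝ) ^ (0.2:ℝ)) ^ 2 = (N:ℝ) ^ (0.4:ℝ) := by
      rw [← Real.rpow_natCast, ← Real.rpow_mul hNpos.le]
      norm_num
    rw [h2] at h1
    linarith [h1, (by ring : (8 * LL N) ^ 2 = 64 * LL N ^ 2)]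
  have hNN : (N:ℝ) ^ (0.6:ℝ) * (N:ℝ) ^ (0.4:ℝ) = N := by
    rw [← Real.rpow_add hNpos]
    norm_num
  calc ∑ v ∈ A, (2:ℝ) ^ (lw σ (star E v))
      ≤ ∑ t ∈ range (k + 1), (4 * N + (2:ℝ) ^ ((t:ℝ) + 1) * X) := hsum
    _ = 4 * ((k:ℝ) + 1) * N + (∑ t ∈ range (k + 1), (2:ℝ) ^ ((t:ℝ) + 1)) * X := by
        rw [sum_add_distrib, sum_const, card_range, nsmul_eq_mul, sum_mul]
        push_cast
        ring
    _ ≤ 4 * ((k:ℝ) + 1) * N + (16 * (N:ℝ) ^ (0.6:ℝ)) * (4 * ((k:ℝ) + 1) * LL N ^ 2) := by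
        have := mul_le_mul (hgeom.trans hpow) hXle hXnn (by positivity)
        linarith
    _ = 4 * ((k:ℝ) + 1) * N + ((k:ℝ) + 1) * ((N:ℝ) ^ (0.6:ℝ) * (64 * LL N ^ 2)) := by ring
    _ ≤ 4 * ((k:ℝ) + 1) * N + ((k:ℝ) + 1) * ((N:ℝ) ^ (0.6:ℝ) * (N:ℝ) ^ (0.4:ℝ)) := by
        have h1 : (N:ℝ) ^ (0.6:ℝ) * (64 * LL N ^ 2) ≤ (N:ℝ) ^ (0.6:ℝ) * (N:ℝ) ^ (0.4:ℝ) :=
          mul_le_mul_of_nonneg_left hL2 (by positivity)
        have := mul_le_mul_of_nonneg_left h1 (by positivity : (0:ℝ) ≤ (k:ℝ) + 1)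
        linarith
    _ = 5 * (k + 1) * N := by rw [hNN]; ring

end Pool.Agent.CG
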