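import Pool.Agent.CG.Basic

/-!
# CG S4: there are few small states

PAPER PROOF. A state is determined by M, B and pi. The number of subsets of α of size ≤ b is at most
(|α|+1)^b (every such set is the range of a map Fin b → Option α). Given M with |M| ≤ b, pi is the
identity outside M (field `mem`), so it is determined by its restriction to M: at most
|α|^|M| ≤ (|α|+1)^b possibilities. Together (|α|+1)^(3b).
(St α is finite: it injects into Finset α × Finset α × (α → α).)
-/

set_option autoImplicit false

namespace Pool.Agent.CG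

open Finset

private noncomputable def S4_enc {α : Type} (b : ℕ) (S : Finset α) : Fin b → Option α :=
  fun i => S.toList[i.val]?

private theorem S4_enc_mem {α : Type} {b : ℕ} {S : Finset α} (h : S.card ≤ b) (e : α) :
    e ∈ S ↔ ∃ i, S4_enc b S i = some e := by
  unfold S4_enc
  rw [← Finset.mem_toList, List.mem_iff_getElem?]
  constructor
  · rintro ⟨n, hn⟩
    have h1 : n < S.toList.length := by
      by_contra h2
      rw [List.getElem?_eq_none (by omega)] at hn
      exact absurd hn (by simp)
    rw [Finset.length_toList] at h1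
    exact ⟨⟨n, by omega⟩, hn⟩
  · rintro ⟨i, hi⟩
    exact ⟨i.val, hi⟩

private noncomputable def S4_F {α : Type} (b : ℕ) (σ : St α) :
    (Fin b → Option α) × (Fin b → Option α) × (Fin b → Option α) :=
  (S4_enc b σ.M, S4_enc b σ.B, fun i => (S4_enc b σ.M i).map σ.pi)

private theorem S4_inj {α : Type} [DecidableEq α] (b : ℕ) :
    Set.InjOn (S4_F (α := α) b) {σ | σ.M.card ≤ b ∧ σ.B.card ≤ b} := by
  rintro σ ⟨h1, h2⟩ τ ⟨h3, h4⟩ h
  unfold S4_F at h
  rw [Prod.mk.injEq, Prod.mk.injEq] at h
  obtain ⟨hM, hB, hp⟩ := h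
  have eM : σ.M = τ.M := by
    ext e
    rw [S4_enc_mem h1, S4_enc_mem h3, hM]
  have eB : σ.B = τ.B := by
    ext e
    rw [S4_enc_mem h2, S4_enc_mem h4, hB]
  have ep : σ.pi = τ.pi := by
    funext e
    by_cases he : e ∈ σ.M
    · obtain ⟨i, hi⟩ := (S4_enc_mem h1 e).1 he
      have h5 := congrFun hp i
      rw [← hM, hi] at h5
      simpa using h5
    · have h6 : σ.pi e = e := by
        by_contra h7
        exact he (σ.mem e h7)
      have h8 : τ.pi e = e := by
        by_contra h7
        exact he (by rw [eM]; exact τ.mem e h7)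
      rw [h6, h8]
  cases σ
  cases τ
  simp only at eM eB ep
  subst eM eB ep
  rfl

theorem card_small {α : Type} [DecidableEq α] [Fintype α] (b : ℕ) : ∃ Sm : Finset (St α),
    (∀ σ : St α, σ ∈ Sm ↔ σ.M.card ≤ b ∧ σ.B.card ≤ b) ∧
      Sm.card ≤ (Fintype.card α + 1) ^ (3 * b) := by
  classical
  have hfin : {σ : St α | σ.M.card ≤ b ∧ σ.B.card ≤ b}.Finite :=
    Set.Finite.of_finite_image (Set.toFinite _) (S4_inj b)
  refine ⟨hfin.toFinset, fun σ => by rw [Set.Finite.mem_toFinset]; rfl, ?_⟩
  have h1 : hfin.toFinset.card ≤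
      (univ : Finset ((Fin b → Option α) × (Fin b → Option α) × (Fin b → Option α))).card := by
    apply Finset.card_le_card_of_injOn (S4_F b) (fun _ _ => Finset.mem_univ _)
    intro σ hσ τ hτ h
    rw [Finset.mem_coe, Set.Finite.mem_toFinset] at hσ hτ
    exact S4_inj b hσ hτ h
  refine h1.trans (le_of_eq ?_)
  rw [Finset.card_univ, Fintype.card_prod, Fintype.card_prod, Fintype.card_fun, Fintype.card_fin,
    Fintype.card_option]
  ring

end Pool.Agent.CG
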