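import Pool.Agent.CG.A2a
import Pool.Agent.CG.A2b
import Pool.Agent.CG.A3n
import Pool.Agent.CG.S1
import Pool.Agent.CG.S2
import Pool.Agent.CG.S4

/-!
# CG A3: the rooted step

PAPER PROOF. Let L = LL N, w = ⌈N^(1+g)⌉₊, g = gg, for E with x ∈ E, k = |E|,
s = ⌊0.98 J - (k-1)/2⌋₊ (so 0.98J - (k-1)/2 - 1 ≤ s ≤ J). For each k ≤ 4J+1 and each Γ ∈ {0,..,q²}
apply `sampling` with
 Δ = (small states of `card_small` with b = 2(k+1)N + …, i.e. b ≥ |X|) × (Finset (Fin N)) (restricted to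
     card = k; use a subtype or a Finset type with ≤ (N+1)^k elements) × Fin N,
 ι = Finset (Fin N),
 T (τ,E,x) = if |E| = k and x ∈ E and ∑_{v ∉ E alive} 2^lw τ (star E v) ≤ 5(k+1)N
             then (grow τ x E)^[s] (baseSets τ E (q-k-s) (Γ - s k)) else ∅,
 t = (5(k+1)N)^(q-k-s)/(q-k-s)! * 2^(-(Γ-sk)) * (q²)^s (`growCount`, `baseCount`, b := q),
 Pr S = ed S, p = q², K = N^20 (so K^(1/w), |Δ|^(1/w) ≤ 2 each: log₂|Δ| ≤ 3b(2L+1) + kL+2L ≤ N^(1+g)).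
For σ and E, x let X = all edges s(y,v), y ∈ E, v arbitrary, together with their partners under pi;
|X| ≤ 2kN ≤ b; τ = restr σ X is small. By `restrGrow`, `baseRestr`, T(τ,E,x) is the same set computed
with σ (the sum condition holds by `vertexSum`, also a Cert (combine with `Cert.and`, `Cert.forall`)).
A = {S ∈ T : ed S alive, lw σ (ed S) ≥ l}, l = C(q,2) - C(k,2) - u - 2β(J+1)q - Γ - 1, gives F_Γ with
|F_Γ| ≤ 2wq² and, by `numRooted`, #{S ∈ A : |ed S ∩ F_Γ| ≤ 0.04JL} * 2^(l-0.04JL) ≤ 4t < 2^(l-0.04JL),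
so there is no such S. Let F = ⋃_Γ F_Γ: |F| ≤ (q²+1) 2wq² ≤ N^(1+2g)/2 for N large.
Now let A₀ ∈ GJ σ q J, E ⊆ A₀, with the root inequality; dd/(2q) ≥ 0.98 J. Put S = A₀ \ E,
Γ = ⌊∑_{v∈S} lw σ (star E v)⌋ ∈ {0..q²}. By `growMem` S ∈ (grow σ x E)^[s] {U} with
|U| = q-k-s, U ⊆ S, alive stars, and ∑_{v∈U} lw ≥ Γ - s k (each lw(star E v) ≤ k): U ∈ baseSets, so
S ∈ T (`growMono`). By `lw_decomp`, cl σ (ed A₀) ≥ C(q,2) - u, dd ≤ 2(J+1)q:
lw σ (ed S) ≥ C(q,2) - u - 2β(J+1)q·… - C(k,2) - Γ - 1 = l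
(β dd ≤ 2β(J+1)q). So |ed S ∩ F| ≥ |ed S ∩ F_Γ| > 0.04 J L.
-/

set_option autoImplicit false

namespace Pool.Agent.CG

open Finset Filter

private lemma a3_pow : ∀ᶠ N : ℕ in atTop, 10 ^ 4 * (LL N) ^ 10 ≤ (N:ℝ) ^ gg := by
  have hg : 0 < gg := by unfold gg; norm_num
  have hl2 : 0 < Real.log 2 := Real.log_pos (by norm_num)
  have h := (isLittleO_log_rpow_rpow_atTop (10:ℝ) hg).def (c := (Real.log 2)^10 / 10^4)
    (by positivity)
  have h2 := (tendsto_natCast_atTop_atTop (R := ℝ)).eventually h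
  filter_upwards [h2, eventually_ge_atTop 1] with N hN h1
  have h1' : (1:ℝ) ≤ N := by exact_mod_cast h1
  have hlog : 0 ≤ Real.log N := Real.log_nonneg h1'
  have hNg : 0 ≤ (N:ℝ) ^ gg := by positivity
  rw [Real.norm_of_nonneg (by positivity), Real.norm_of_nonneg hNg] at hN
  have h10 : (Real.log N) ^ (10:ℝ) = (Real.log N) ^ (10:ℕ) := by
    rw [← Real.rpow_natCast]; norm_num
  rw [h10] at hN
  have hLL : LL N = Real.log N / Real.log 2 := by
    unfold LL Real.logb; rfl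
  rw [hLL, div_pow]
  have : (10:ℝ) ^ 4 * (Real.log N ^ 10 / Real.log 2 ^ 10) ≤
      10 ^ 4 * ((Real.log 2 ^ 10 / 10 ^ 4 * (N:ℝ) ^ gg) / Real.log 2 ^ 10) := by
    gcongr
  refine this.trans (le_of_eq ?_)
  field_simp

private lemma a3_N_eq {N : ℕ} (hN : 1 ≤ N) : (N:ℝ) = (2:ℝ) ^ (LL N) := by
  unfold LL
  rw [Real.rpow_logb (by norm_num) (by norm_num)]
  exact_mod_cast hN

private lemma a3_sym2 {N : ℕ} (hN : 2 ≤ N) : Fintype.card (Sym2 (Fin N)) + 1 ≤ N ^ 2 := by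
  rw [Sym2.card, Fintype.card_fin, Nat.choose_two_right, Nat.add_sub_cancel]
  have h : (N + 1) * N / 2 ≤ N ^ 2 - 1 := by
    rw [Nat.div_le_iff_le_mul_add_pred (by norm_num)]
    zify [Nat.one_le_pow 2 N (by omega)]
    nlinarith
  have h2 : 1 ≤ N ^ 2 := Nat.one_le_pow 2 N (by omega)
  omega

private lemma a3_count {N k w : ℕ} (hN : 2 ≤ N) (hL : (10:ℝ)^100 ≤ LL N) (hk : (k:ℝ) ≤ LL N)
    (hpow : 10 ^ 4 * (LL N) ^ 10 ≤ (N:ℝ) ^ gg) (hw : (N:ℝ)^(1+gg) ≤ w)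
    (m : ℕ) (hm : m ≤ (Fintype.card (Sym2 (Fin N)) + 1) ^ (3 * (2 * k * N))) :
    (N:ℝ)^20 * ((m * (2^N * N) : ℕ) : ℝ) ≤ (4:ℝ)^w := by
  have hN1 : (1:ℝ) ≤ N := by exact_mod_cast (by omega : 1 ≤ N)
  have h1 : m ≤ N ^ (12 * k * N) := by
    refine hm.trans ?_
    refine (Nat.pow_le_pow_left (a3_sym2 hN) _).trans (le_of_eq ?_)
    rw [← pow_mul]
    congr 1; ring
  have h2 : (N:ℝ)^20 * ((m * (2^N * N) : ℕ) : ℝ) ≤ (N:ℝ)^20 * ((N:ℝ) ^ (12 * k * N) * (2^N * N)) := by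
    push_cast
    gcongr
    exact_mod_cast h1
  refine h2.trans ?_
  have h3 : (N:ℝ)^20 * ((N:ℝ) ^ (12 * k * N) * (2^N * N)) =
      (2:ℝ) ^ (LL N * ((21 + 12 * k * N : ℕ) : ℝ) + N) := by
    rw [Real.rpow_add (by norm_num), Real.rpow_mul (by norm_num), ← a3_N_eq (by omega),
      Real.rpow_natCast, Real.rpow_natCast]
    ring
  rw [h3]
  have h4 : (4:ℝ)^w = (2:ℝ) ^ (2 * (w:ℝ)) := by
    rw [Real.rpow_mul (by norm_num), Real.rpow_natCast]; norm_num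
  rw [h4]
  apply Real.rpow_le_rpow_of_exponent_le (by norm_num)
  have h5 : (N:ℝ)^(1+gg) = N * (N:ℝ)^gg := by
    rw [Real.rpow_add (by linarith), Real.rpow_one]
  rw [h5] at hw
  have hL1 : (1:ℝ) ≤ LL N := le_trans (by norm_num) hL
  have h6 : (LL N)^2 ≤ (LL N)^10 := pow_le_pow_right₀ hL1 (by norm_num)
  have h7 : (N:ℝ) * (10^4 * (LL N)^2) ≤ N * (N:ℝ)^gg := by
    apply mul_le_mul_of_nonneg_left _ (by linarith)
    linarith
  push_cast
  have h8 : LL N * (12 * k * N) ≤ LL N * (12 * LL N * N) := by gcongr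
  have h9 : LL N ≤ (LL N)^2 := by nlinarith
  have h10 : LL N * 1 ≤ (LL N)^2 * N := by
    apply mul_le_mul h9 hN1 (by norm_num) (by positivity)
  have h11 : (1:ℝ) * N ≤ (LL N)^2 * N := by
    apply mul_le_mul_of_nonneg_right _ (by linarith)
    nlinarith
  nlinarith

/-- the sampled family -/
private noncomputable def TT {N : ℕ} (q k s : ℕ) (Γ : ℝ) (τ : St (Sym2 (Fin N)))
    (E : Finset (Fin N)) (x : Fin N) : Finset (Finset (Fin N)) :=
  if E.card = k ∧ x ∈ E ∧ ∑ v ∈ univ.filter (fun v => v ∉ E ∧ Disjoint (star E v) τ.B),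
      (2:ℝ) ^ (lw τ (star E v)) ≤ 5 * ((k:ℝ) + 1) * N then
    (grow τ x E)^[s] (baseSets τ E (q - k - s) (Γ - s * k)) else ∅

private lemma baseSets_card {V : Type} [DecidableEq V] [Fintype V] (σ : St (Sym2 V)) (E : Finset V)
    (m : ℕ) (Γ : ℝ) : ∀ U ∈ baseSets σ E m Γ, U.card = m := by
  intro U hU
  unfold baseSets at hU
  rw [mem_filter, mem_powersetCard] at hU
  exact hU.1.2

private lemma baseSets_mem {V : Type} [DecidableEq V] [Fintype V] (σ : St (Sym2 V)) (E : Finset V)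
    (m : ℕ) (Γ : ℝ) (U : Finset V) (h1 : Disjoint U E) (h2 : U.card = m)
    (h3 : ∀ v ∈ U, Disjoint (star E v) σ.B) (h4 : Γ ≤ ∑ v ∈ U, lw σ (star E v)) :
    U ∈ baseSets σ E m Γ := by
  unfold baseSets
  rw [mem_filter, mem_powersetCard]
  refine ⟨⟨?_, h2⟩, h3, h4⟩
  intro v hv
  exact mem_sdiff.2 ⟨mem_univ _, fun hvE => (disjoint_left.1 h1) hv hvE⟩

private lemma TT_card {N : ℕ} (q k s : ℕ) (hks : k + s ≤ q) (Γ : ℝ) (τ : St (Sym2 (Fin N)))
    (E : Finset (Fin N)) (x : Fin N) :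
    ((TT q k s Γ τ E x).card : ℝ) ≤
      (5 * ((k:ℝ) + 1) * N) ^ (q - k - s) / ((q - k - s).factorial : ℝ) *
        (2:ℝ) ^ (-(Γ - s * k)) * ((q:ℝ) ^ 2) ^ s := by
  unfold TT
  split_ifs with h
  · obtain ⟨h1, h2, h3⟩ := h
    have hg := (growCount τ x E s (q - k - s) q (baseSets τ E (q - k - s) (Γ - s * k))
      (baseSets_card _ _ _ _) (by omega)).1
    have hb := baseCount τ E (q - k - s) (Γ - s * k)
    have hg' : (((grow τ x E)^[s] (baseSets τ E (q - k - s) (Γ - s * k))).card : ℝ) ≤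
        ((baseSets τ E (q - k - s) (Γ - s * k)).card : ℝ) * ((q:ℝ) ^ 2) ^ s := by
      exact_mod_cast hg
    refine hg'.trans ?_
    apply mul_le_mul_of_nonneg_right _ (by positivity)
    refine hb.trans ?_
    have h0 : 0 ≤ ∑ v ∈ univ.filter (fun v => v ∉ E ∧ Disjoint (star E v) τ.B),
      (2:ℝ) ^ (lw τ (star E v)) := sum_nonneg fun _ _ => by positivity
    gcongr
  · simp only [card_empty, Nat.cast_zero]
    positivity

private lemma TT_mem_card {N : ℕ} (q k s : ℕ) (hks : k + s ≤ q) (Γ : ℝ) (τ : St (Sym2 (Fin N)))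
    (E : Finset (Fin N)) (x : Fin N) : ∀ S ∈ TT q k s Γ τ E x, (ed S).card ≤ q ^ 2 := by
  intro S hS
  unfold TT at hS
  split_ifs at hS with h
  · have hg := (growCount τ x E s (q - k - s) q (baseSets τ E (q - k - s) (Γ - s * k))
      (baseSets_card _ _ _ _) (by omega)).2 S hS
    rw [card_ed, hg]
    have h1 : q - k - s + s ≤ q := by omega
    calc (q - k - s + s).choose 2 ≤ q.choose 2 := Nat.choose_le_choose 2 h1
      _ ≤ q ^ 2 := Nat.choose_le_pow q 2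
  · simp at hS

/-- the sampling step for fixed `k`, `Γ` -/
private lemma a3_sample {N q J : ℕ} (hN : 2 ≤ N) (hL : (10:ℝ)^100 ≤ LL N) {k s w : ℕ} {Γ : ℝ}
    (hk : (k:ℝ) ≤ LL N) (hks : k + s ≤ q)
    (hpow : 10 ^ 4 * (LL N) ^ 10 ≤ (N:ℝ) ^ gg) (hw : (N:ℝ)^(1+gg) ≤ w) (hw1 : 1 ≤ w) (l : ℝ)
    (hnum : (5 * ((k:ℝ) + 1) * N) ^ (q - k - s) / ((q - k - s).factorial : ℝ) *
        (2:ℝ) ^ (-(Γ - s * k)) * ((q:ℝ) ^ 2) ^ s * 4 < (2:ℝ) ^ (l - 0.04 * J * LL N)) :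
    Cert ((N:ℝ) ^ 20) (fun σ : St (Sym2 (Fin N)) => ∀ (E : Finset (Fin N)) (x : Fin N), x ∈ E →
      E.card = k → ∑ v ∈ univ.filter (fun v => v ∉ E ∧ Disjoint (star E v) σ.B),
        (2:ℝ) ^ (lw σ (star E v)) ≤ 5 * ((k:ℝ) + 1) * N →
      ∃ F : Finset (Sym2 (Fin N)), F.card ≤ 2 * w * q ^ 2 ∧
        ∀ S ∈ (grow σ x E)^[s] (baseSets σ E (q - k - s) (Γ - s * k)), Disjoint (ed S) σ.B →
          l ≤ lw σ (ed S) → 0.04 * J * LL N < ((ed S ∩ F).card : ℝ)) := by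
  classical
  obtain ⟨Sm, hSm1, hSm2⟩ := card_small (α := Sym2 (Fin N)) (2 * k * N)
  set t : ℝ := (5 * ((k:ℝ) + 1) * N) ^ (q - k - s) / ((q - k - s).factorial : ℝ) *
        (2:ℝ) ^ (-(Γ - s * k)) * ((q:ℝ) ^ 2) ^ s with ht
  have ht0 : 0 ≤ t := by rw [ht]; positivity
  have hs := sampling (α := Sym2 (Fin N)) (Δ := {τ // τ ∈ Sm} × Finset (Fin N) × Fin N)
    (ι := Finset (Fin N))
    (fun D => TT q k s Γ D.1.1 D.2.1 D.2.2) (fun _ S => ed S) t (q ^ 2) w ((N:ℝ) ^ 20)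
    (by positivity) hw1 (fun D => TT_card q k s hks Γ _ _ _)
    (fun D a ha => TT_mem_card q k s hks Γ _ _ _ a ha)
  refine hs.mono le_rfl ?_
  intro σ hσ E x hx hE hsum
  set X : Finset (Sym2 (Fin N)) := (E ×ˢ (univ : Finset (Fin N))).image (fun p => s(p.1, p.2)) ∪
    (E ×ˢ (univ : Finset (Fin N))).image (fun p => σ.pi s(p.1, p.2)) with hXdef
  have hX : ∀ y ∈ E, ∀ v, s(y, v) ∈ X ∧ σ.pi s(y, v) ∈ X := by
    intro y hy v
    constructor
    · exact mem_union_left _ (mem_image.2 ⟨(y, v), by simp [hy], rfl⟩)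
    · exact mem_union_right _ (mem_image.2 ⟨(y, v), by simp [hy], rfl⟩)
  have hXc : X.card ≤ 2 * k * N := by
    have hp : (E ×ˢ (univ : Finset (Fin N))).card = k * N := by
      rw [card_product, hE, card_univ, Fintype.card_fin]
    calc X.card ≤ _ := card_union_le _ _
      _ ≤ k * N + k * N := by
          apply Nat.add_le_add <;> exact card_image_le.trans hp.le
      _ = 2 * k * N := by ring
  have hstar : ∀ v, star E v ⊆ X := by
    intro v e he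
    rw [mem_star] at he
    obtain ⟨y, hy, rfl⟩ := he
    exact (hX y hy v).1
  have hτ : restr σ X ∈ Sm := by
    rw [hSm1]
    exact ⟨(card_le_card inter_subset_right).trans hXc, (card_le_card inter_subset_right).trans hXc⟩
  have hsum' : ∑ v ∈ univ.filter (fun v => v ∉ E ∧ Disjoint (star E v) (restr σ X).B),
      (2:ℝ) ^ (lw (restr σ X) (star E v)) ≤ 5 * ((k:ℝ) + 1) * N := by
    have h1 : univ.filter (fun v => v ∉ E ∧ Disjoint (star E v) (restr σ X).B) =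
        univ.filter (fun v => v ∉ E ∧ Disjoint (star E v) σ.B) := by
      apply filter_congr
      intro v _
      rw [disjoint_restr σ (hstar v)]
    rw [h1]
    refine le_trans (le_of_eq ?_) hsum
    exact sum_congr rfl fun v _ => by rw [lw_restr σ (hstar v)]
  have hT : TT q k s Γ (restr σ X) E x =
      (grow σ x E)^[s] (baseSets σ E (q - k - s) (Γ - s * k)) := by
    unfold TT
    rw [if_pos ⟨hE, hx, hsum'⟩, baseRestr σ E X hstar]
    have : grow (restr σ X) x E = grow σ x E := funext fun 𝒰 => restrGrow σ x E hx X hX 𝒰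
    rw [this]
  obtain ⟨F, hF1, hF2⟩ := hσ (⟨restr σ X, hτ⟩, E, x)
    (((grow σ x E)^[s] (baseSets σ E (q - k - s) (Γ - s * k))).filter
      (fun S => Disjoint (ed S) σ.B ∧ l ≤ lw σ (ed S)))
    (by
      show _ ⊆ TT q k s Γ (restr σ X) E x
      rw [hT]; exact filter_subset _ _) l (0.04 * J * LL N)
    (by
      intro S hS
      exact (mem_filter.1 hS).2)
  refine ⟨F, hF1, ?_⟩
  intro S hS hd hl
  by_contra hc
  push Not at hc
  have hcard : 1 ≤ ((((grow σ x E)^[s] (baseSets σ E (q - k - s) (Γ - s * k))).filter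
      (fun S => Disjoint (ed S) σ.B ∧ l ≤ lw σ (ed S))).filter
        (fun a => ((ed a ∩ F).card : ℝ) ≤ 0.04 * J * LL N)).card := by
    rw [Nat.one_le_iff_ne_zero, Ne, card_eq_zero, ← Ne, ← nonempty_iff_ne_empty]
    exact ⟨S, mem_filter.2 ⟨mem_filter.2 ⟨hS, hd, hl⟩, hc⟩⟩
  have h4 : ((N:ℝ) ^ 20 * (Fintype.card ({τ // τ ∈ Sm} × Finset (Fin N) × Fin N) : ℝ)) ^
      (1 / (w:ℝ)) ≤ 4 := by
    have hc1 : Fintype.card ({τ // τ ∈ Sm} × Finset (Fin N) × Fin N) = Sm.card * (2 ^ N * N) := by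
      rw [Fintype.card_prod, Fintype.card_prod, Fintype.card_finset, Fintype.card_coe,
        Fintype.card_fin]
    rw [hc1]
    have hc2 := a3_count hN hL hk hpow hw Sm.card hSm2
    calc _ ≤ ((4:ℝ)^w) ^ (1 / (w:ℝ)) := by
          apply Real.rpow_le_rpow (by positivity) hc2 (by positivity)
      _ = 4 := by
          rw [one_div]
          exact Real.pow_rpow_inv_natCast (by norm_num) (by omega)
  have h5 : (1:ℝ) * (2:ℝ) ^ (l - 0.04 * J * LL N) ≤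
      ((((((grow σ x E)^[s] (baseSets σ E (q - k - s) (Γ - s * k))).filter
      (fun S => Disjoint (ed S) σ.B ∧ l ≤ lw σ (ed S))).filter
        (fun a => ((ed a ∩ F).card : ℝ) ≤ 0.04 * J * LL N)).card : ℕ) : ℝ) *
        (2:ℝ) ^ (l - 0.04 * J * LL N) := by
    apply mul_le_mul_of_nonneg_right _ (by positivity)
    exact_mod_cast hcard
  have h6 := h5.trans hF2
  have h7 : t * ((N:ℝ) ^ 20 * (Fintype.card ({τ // τ ∈ Sm} × Finset (Fin N) × Fin N) : ℝ)) ^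
      (1 / (w:ℝ)) ≤ t * 4 := mul_le_mul_of_nonneg_left h4 ht0
  linarith

/-- the final deduction for a single clique: membership in the sampled family -/
private lemma a3_mem {V : Type} [DecidableEq V] [Fintype V] (σ : St (Sym2 V)) (A E : Finset V)
    (x : V) (hx : x ∈ E) (hE : E ⊆ A) {q k s : ℕ} (hk : E.card = k) (hq : A.card = q)
    (hks : k + s ≤ q) (hA : Disjoint (ed A) σ.B) {Γ : ℝ}
    (hΓ : Γ ≤ ∑ v ∈ A \ E, lw σ (star E v))
    (hs : s = 0 ∨ (s:ℝ) ≤ ((Ra σ A x).card : ℝ) / 2 + ((Rb σ A x).card : ℝ) / 4 - ((k : ℝ) - 1) / 2) :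
    A \ E ∈ (grow σ x E)^[s] (baseSets σ E (q - k - s) (Γ - s * k)) := by
  have hgm : ∃ U ⊆ A \ E, U.card + s = (A \ E).card ∧ A \ E ∈ (grow σ x E)^[s] {U} := by
    rcases hs with rfl | hs
    · exact ⟨A \ E, subset_rfl, by simp, by simp⟩
    · exact growMem σ A E x hx hE s (by rw [hk]; exact hs)
  obtain ⟨U, hU1, hU2, hU3⟩ := hgm
  have hcard : (A \ E).card = q - k := by rw [card_sdiff_of_subset hE, hk, hq]
  rw [hcard] at hU2
  refine growMono σ x E s ?_ hU3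
  rw [singleton_subset_iff]
  apply baseSets_mem
  · exact disjoint_of_subset_left hU1 sdiff_disjoint
  · omega
  · intro v hv
    exact disjoint_of_subset_left (star_subset_ed hE (hU1 hv)) hA
  · have h1 : ∑ v ∈ A \ E, lw σ (star E v) =
        ∑ v ∈ (A \ E) \ U, lw σ (star E v) + ∑ v ∈ U, lw σ (star E v) :=
      (sum_sdiff hU1).symm
    have h2 : ∑ v ∈ (A \ E) \ U, lw σ (star E v) ≤ s * k := by
      have h3 : ((A \ E) \ U).card = s := by rw [card_sdiff_of_subset hU1, hcard]; omega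
      calc ∑ v ∈ (A \ E) \ U, lw σ (star E v) ≤ ∑ v ∈ (A \ E) \ U, (k:ℝ) := by
            apply sum_le_sum
            intro v _
            refine (lw_le_cl σ _).trans ?_
            have := cl_le_card σ (star E v)
            rw [card_star, hk] at this
            exact_mod_cast this
        _ = s * k := by rw [sum_const, h3, nsmul_eq_mul]
    linarith

theorem rootedStep : ∀ᶠ C : ℕ in atTop, ∀ᶠ N : ℕ in atTop, ∀ q J : ℕ, Reg C N q → C ≤ J →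
    (J:ℝ) ≤ eta * LL N →
    Cert ((N:ℝ) ^ 12) (fun σ : St (Sym2 (Fin N)) => ∀ (E : Finset (Fin N)) (x : Fin N), x ∈ E →
      E.card ≤ 4 * J + 1 → ∃ F : Finset (Sym2 (Fin N)), (F.card : ℝ) ≤ (N:ℝ) ^ (1 + 2 * gg) / 2 ∧
        ∀ A ∈ GJ σ q J, E ⊆ A →
          (dd σ (ed A) : ℝ) / (2 * q) ≤ ((Ra σ A x).card : ℝ) / 2 + ((Rb σ A x).card : ℝ) / 4 →
          0.04 * J * LL N < ((ed (A \ E) ∩ F).card : ℝ)) := by
  filter_upwards [regNum, numRooted] with C hC1 hC2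
  filter_upwards [hC1, hC2, vertexSum, a3_pow, eventually_ge_atTop 2] with N hreg hnumR hvs hpow hN
  intro q J hR hCJ hJ
  obtain ⟨hq1, hq2, hL, -⟩ := hreg q hR
  have hnum := hnumR q J hR hCJ hJ
  clear hC1 hC2 hnumR hreg
  -- numeric preliminaries
  have hN1 : (1:ℝ) ≤ N := by exact_mod_cast (by omega : 1 ≤ N)
  have hL1 : (1:ℝ) ≤ LL N := le_trans (by norm_num) hL
  have hJ' : (J:ℝ) ≤ LL N / 10 ^ 14 := by
    have : eta * LL N = LL N / 10 ^ 14 := by unfold eta; ring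
    rw [← this]; exact hJ
  have hk1 : 4 * (J:ℝ) + 1 ≤ 0.6 * LL N := by
    have : (10:ℝ)^2 ≤ LL N := le_trans (by norm_num) hL
    have h2 : LL N / 10 ^ 14 ≤ LL N / 100 := by
      apply div_le_div_of_nonneg_left (by linarith) (by norm_num) (by norm_num)
    linarith
  have hq0 : (0:ℝ) < q := by linarith
  set w : ℕ := ⌈(N:ℝ) ^ (1 + gg)⌉₊ with hw
  have hw0 : (N:ℝ) ^ (1 + gg) ≤ w := Nat.le_ceil _
  have hgg : 0 < gg := by unfold gg; norm_num
  have hNg1 : 1 ≤ (N:ℝ) ^ (1 + gg) := Real.one_le_rpow hN1 (by linarith)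
  have hw1 : 1 ≤ w := by
    have : (1:ℝ) ≤ w := hNg1.trans hw0
    exact_mod_cast this
  have hw2 : (w:ℝ) ≤ 2 * (N:ℝ) ^ (1 + gg) := by
    have := Nat.ceil_lt_add_one (a := (N:ℝ) ^ (1 + gg)) (by linarith)
    linarith
  -- the parameter s
  set sf : ℕ → ℕ := fun k => ⌊(0.98:ℝ) * J - ((k:ℝ) - 1) / 2⌋₊ with hsf
  have hsf1 : ∀ k : ℕ, (0.98:ℝ) * J - ((k:ℝ) - 1) / 2 - 1 ≤ sf k := by
    intro k
    have := Nat.lt_floor_add_one ((0.98:ℝ) * J - ((k:ℝ) - 1) / 2)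
    show (0.98:ℝ) * J - ((k:ℝ) - 1) / 2 - 1 ≤ (⌊(0.98:ℝ) * J - ((k:ℝ) - 1) / 2⌋₊ : ℝ)
    linarith
  have hsf2 : ∀ k : ℕ, 1 ≤ k → sf k ≤ J := by
    intro k hk
    have hk' : (1:ℝ) ≤ k := by exact_mod_cast hk
    have hJ0 : (0:ℝ) ≤ J := by positivity
    show ⌊(0.98:ℝ) * J - ((k:ℝ) - 1) / 2⌋₊ ≤ J
    apply Nat.floor_le_of_le
    linarith
  -- the index set
  let lf : ℕ → ℝ → ℝ := fun k Γ => (q.choose 2 : ℝ) - (k.choose 2 : ℝ) - uJ N J -
    2 * beta * (J + 1) * q - Γ - 1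
  let P : Fin (4 * J + 1) × Fin (q ^ 2 + 1) → St (Sym2 (Fin N)) → Prop := fun θ σ =>
    (∀ (E : Finset (Fin N)) (x : Fin N), x ∈ E → E.card = θ.1.1 + 1 →
      ∑ v ∈ univ.filter (fun v => v ∉ E ∧ Disjoint (star E v) σ.B),
        (2:ℝ) ^ (lw σ (star E v)) ≤ 5 * (((θ.1.1 + 1 : ℕ):ℝ) + 1) * N →
      ∃ F : Finset (Sym2 (Fin N)), F.card ≤ 2 * w * q ^ 2 ∧
        ∀ S ∈ (grow σ x E)^[sf (θ.1.1 + 1)] (baseSets σ E (q - (θ.1.1 + 1) - sf (θ.1.1 + 1))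
          ((θ.2.1:ℝ) - sf (θ.1.1 + 1) * ((θ.1.1 + 1 : ℕ) : ℝ))), Disjoint (ed S) σ.B →
          lf (θ.1.1 + 1) θ.2.1 ≤ lw σ (ed S) → 0.04 * J * LL N < ((ed S ∩ F).card : ℝ)) ∧
    (∀ E : Finset (Fin N), E.card ≤ θ.1.1 + 1 →
      ∑ v ∈ univ.filter (fun v => v ∉ E ∧ Disjoint (star E v) σ.B), (2:ℝ) ^ (lw σ (star E v)) ≤
        5 * (((θ.1.1 + 1 : ℕ):ℝ) + 1) * N)
  have hks : ∀ k : ℕ, 1 ≤ k → k ≤ 4 * J + 1 → k + sf k ≤ q := by
    intro k hk hk'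
    have h1 := hsf2 k hk
    have h2 : ((k + sf k : ℕ) : ℝ) ≤ q := by
      have h3 : ((k + sf k : ℕ) : ℝ) ≤ ((4 * J + 1 + J : ℕ) : ℝ) := by exact_mod_cast (by omega)
      push_cast at h3 ⊢
      have h4 : (J:ℝ) ≤ 4 * J + 1 := by
        have : (0:ℝ) ≤ J := by positivity
        linarith
      linarith
    exact_mod_cast h2
  have hcert : Cert ((N:ℝ) ^ 12) (fun σ : St (Sym2 (Fin N)) => ∀ θ, P θ σ) := by
    apply Cert.forall
    rintro ⟨⟨k, hk⟩, ⟨G, hG⟩⟩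
    have hcard : 2 * ((N:ℝ) ^ 12 * (Fintype.card (Fin (4 * J + 1) × Fin (q ^ 2 + 1)) : ℝ)) ≤
        (N:ℝ) ^ 20 := by
      rw [Fintype.card_prod, Fintype.card_fin, Fintype.card_fin]
      push_cast
      have hq3 : (q:ℝ) ^ 2 + 1 ≤ 5 * (LL N) ^ 2 := by nlinarith
      have hJ3 : 4 * (J:ℝ) + 1 ≤ LL N := by linarith
      have hNg : (N:ℝ) ^ gg ≤ N := by
        calc (N:ℝ) ^ gg ≤ (N:ℝ) ^ (1:ℝ) :=
              Real.rpow_le_rpow_of_exponent_le hN1 (by unfold gg; norm_num)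
          _ = N := Real.rpow_one _
      have h10 : 10 * (LL N) ^ 3 ≤ N := by
        have h6 : (LL N)^3 ≤ (LL N)^10 := pow_le_pow_right₀ hL1 (by norm_num)
        have h7 : 0 ≤ (LL N) ^ 10 := by positivity
        linarith
      have h11 : (N:ℝ) ≤ (N:ℝ) ^ 8 := by
        calc (N:ℝ) = (N:ℝ) ^ 1 := (pow_one _).symm
          _ ≤ (N:ℝ) ^ 8 := pow_le_pow_right₀ hN1 (by norm_num)
      calc 2 * ((N:ℝ) ^ 12 * ((4 * (J:ℝ) + 1) * ((q:ℝ) ^ 2 + 1)))
          ≤ 2 * ((N:ℝ) ^ 12 * (LL N * (5 * (LL N) ^ 2))) := by gcongr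
        _ = (N:ℝ) ^ 12 * (10 * (LL N) ^ 3) := by ring
        _ ≤ (N:ℝ) ^ 12 * (N:ℝ) ^ 8 := by
            apply mul_le_mul_of_nonneg_left (h10.trans h11) (by positivity)
        _ = (N:ℝ) ^ 20 := by ring
    have hkJ : k + 1 ≤ 4 * J + 1 := by omega
    have hkL : ((k + 1 : ℕ) : ℝ) ≤ 0.6 * LL N := by
      have : ((k + 1 : ℕ) : ℝ) ≤ ((4 * J + 1 : ℕ) : ℝ) := by exact_mod_cast hkJ
      push_cast at this ⊢
      linarith
    apply Cert.and
    · refine (a3_sample (q := q) (J := J) hN hL (k := k + 1) (s := sf (k + 1)) (w := w)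
        (Γ := (G:ℝ)) (by linarith) (hks (k + 1) (by omega) hkJ) hpow hw0 hw1
        (lf (k + 1) G) ?_).mono hcard (fun σ h => h)
      exact hnum (k + 1) (sf (k + 1)) G (by omega) hkJ (hsf2 _ (by omega)) (hsf1 _)
    · exact (hvs (k + 1) (by linarith)).mono hcard (fun σ h => h)
  refine hcert.mono le_rfl ?_
  intro σ hσ E x hx hE
  have hk0 : 1 ≤ E.card := card_pos.2 ⟨x, hx⟩
  obtain ⟨k, hk⟩ : ∃ k, E.card = k + 1 := ⟨E.card - 1, by omega⟩
  have hkJ : k < 4 * J + 1 := by omega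
  have hF : ∀ G : Fin (q ^ 2 + 1), ∃ F : Finset (Sym2 (Fin N)), F.card ≤ 2 * w * q ^ 2 ∧
        ∀ S ∈ (grow σ x E)^[sf (k + 1)] (baseSets σ E (q - (k + 1) - sf (k + 1))
          ((G.1:ℝ) - sf (k + 1) * ((k + 1 : ℕ) : ℝ))), Disjoint (ed S) σ.B →
          lf (k + 1) G.1 ≤ lw σ (ed S) → 0.04 * J * LL N < ((ed S ∩ F).card : ℝ) := by
    intro G
    have h := hσ (⟨k, hkJ⟩, G)
    exact h.1 E x hx hk (h.2 E hk.le)
  choose F hF1 hF2 using hF
  refine ⟨univ.biUnion F, ?_, ?_⟩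
  · -- the size of F
    have h1 : (univ.biUnion F).card ≤ (q ^ 2 + 1) * (2 * w * q ^ 2) := by
      refine card_biUnion_le.trans ?_
      calc ∑ G : Fin (q ^ 2 + 1), (F G).card ≤ ∑ _G : Fin (q ^ 2 + 1), 2 * w * q ^ 2 :=
            sum_le_sum fun G _ => hF1 G
        _ = (q ^ 2 + 1) * (2 * w * q ^ 2) := by
            rw [sum_const, card_univ, Fintype.card_fin, smul_eq_mul]
    have h2 : ((univ.biUnion F).card : ℝ) ≤ ((q:ℝ) ^ 2 + 1) * (2 * w * (q:ℝ) ^ 2) := by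
      exact_mod_cast h1
    refine h2.trans ?_
    have hq3 : (q:ℝ) ^ 2 + 1 ≤ 5 * (LL N) ^ 2 := by nlinarith
    have hq4 : (q:ℝ) ^ 2 ≤ 4 * (LL N) ^ 2 := by nlinarith
    have h3 : (N:ℝ) ^ (1 + 2 * gg) = (N:ℝ) ^ (1 + gg) * (N:ℝ) ^ gg := by
      rw [← Real.rpow_add (by linarith)]; congr 1; ring
    rw [h3]
    have h6 : (LL N)^4 ≤ (LL N)^10 := pow_le_pow_right₀ hL1 (by norm_num)
    calc ((q:ℝ) ^ 2 + 1) * (2 * w * (q:ℝ) ^ 2)
        ≤ (5 * (LL N) ^ 2) * (2 * (2 * (N:ℝ) ^ (1 + gg)) * (4 * (LL N) ^ 2)) := by gcongr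
      _ = (N:ℝ) ^ (1 + gg) * (80 * (LL N) ^ 4) := by ring
      _ ≤ (N:ℝ) ^ (1 + gg) * ((N:ℝ) ^ gg / 2) := by
          apply mul_le_mul_of_nonneg_left _ (by positivity)
          have h7 : 0 ≤ (LL N) ^ 10 := by positivity
          linarith
      _ = (N:ℝ) ^ (1 + gg) * (N:ℝ) ^ gg / 2 := by ring
  · intro A hA hEA hroot
    unfold GJ at hA
    rw [mem_filter, mem_powersetCard] at hA
    obtain ⟨⟨-, hAq⟩, hAB, hAu, hAd1, hAd2⟩ := hA
    -- the value of Γ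
    set S0 : ℝ := ∑ v ∈ A \ E, lw σ (star E v) with hS0
    have hS0n : 0 ≤ S0 := sum_nonneg fun v _ => lw_nonneg σ _
    have hkq : E.card ≤ q := by rw [← hAq]; exact card_le_card hEA
    have hS0q : S0 ≤ q ^ 2 := by
      have h1 : S0 ≤ ∑ v ∈ A \ E, (q:ℝ) := by
        apply sum_le_sum
        intro v _
        refine (lw_le_cl σ _).trans ?_
        have := cl_le_card σ (star E v)
        rw [card_star] at this
        exact_mod_cast this.trans hkq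
      rw [sum_const, nsmul_eq_mul] at h1
      have h2 : ((A \ E).card : ℝ) ≤ q := by
        have : (A \ E).card ≤ A.card := card_le_card sdiff_subset
        rw [hAq] at this
        exact_mod_cast this
      calc S0 ≤ ((A \ E).card : ℝ) * q := h1
        _ ≤ q * q := by apply mul_le_mul_of_nonneg_right h2 hq0.le
        _ = q ^ 2 := by ring
    have hG : ⌊S0⌋₊ < q ^ 2 + 1 := by
      have : ⌊S0⌋₊ ≤ q ^ 2 := by
        apply Nat.floor_le_of_le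
        exact_mod_cast hS0q
      omega
    have hG1 : ((⌊S0⌋₊ : ℕ) : ℝ) ≤ S0 := Nat.floor_le hS0n
    have hG2 : S0 < ((⌊S0⌋₊ : ℕ) : ℝ) + 1 := Nat.lt_floor_add_one S0
    have hkk : k + 1 ≤ 4 * J + 1 := by omega
    have hkc : (((k + 1 : ℕ) : ℝ)) = (k:ℝ) + 1 := by push_cast; ring
    have hmem : A \ E ∈ (grow σ x E)^[sf (k + 1)] (baseSets σ E (q - (k + 1) - sf (k + 1))
          (((⌊S0⌋₊ : ℕ):ℝ) - sf (k + 1) * ((k + 1 : ℕ) : ℝ))) := by
      apply a3_mem σ A E x hx hEA hk hAq (hks (k + 1) (by omega) hkk) hAB hG1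
      by_cases h0 : (0:ℝ) ≤ (0.98:ℝ) * J - (((k + 1 : ℕ):ℝ) - 1) / 2
      · right
        have h1 : (sf (k + 1) : ℝ) ≤ (0.98:ℝ) * J - (((k + 1 : ℕ):ℝ) - 1) / 2 := Nat.floor_le h0
        have h2 : (0.98:ℝ) * J ≤ (dd σ (ed A) : ℝ) / (2 * q) := by
          rw [le_div_iff₀ (by linarith)]
          linarith
        linarith
      · left
        exact Nat.floor_of_nonpos (not_le.1 h0).le
    have hlw : lf (k + 1) ((⌊S0⌋₊ : ℕ) : ℝ) ≤ lw σ (ed (A \ E)) := by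
      have h1 := lw_decomp σ hEA
      rw [hk] at h1
      have h2 : (q.choose 2 : ℝ) - uJ N J - 2 * beta * (J + 1) * q ≤ lw σ (ed A) := by
        unfold lw
        have h3 := cl_add_card_sdiff σ (ed A)
        rw [card_ed, hAq] at h3
        have h4 : (q.choose 2 : ℝ) = cl σ (ed A) + ((ed A \ σ.M).card : ℝ) := by
          exact_mod_cast h3.symm
        have h5 : ((ed A \ σ.M).card : ℝ) ≤ uJ N J := by exact_mod_cast hAu
        have h6 : (dd σ (ed A) : ℝ) ≤ 2 * (J + 1) * q := by exact_mod_cast hAd2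
        have h7 := mul_le_mul_of_nonneg_left h6 beta_pos.le
        linarith
      show (q.choose 2 : ℝ) - ((k + 1).choose 2 : ℝ) - uJ N J -
        2 * beta * (J + 1) * q - ((⌊S0⌋₊ : ℕ) : ℝ) - 1 ≤ lw σ (ed (A \ E))
      linarith
    have hres := hF2 ⟨⌊S0⌋₊, hG⟩ (A \ E) hmem
      (disjoint_of_subset_left (ed_subset sdiff_subset) hAB) hlw
    refine hres.trans_le ?_
    exact_mod_cast card_le_card (inter_subset_inter_left
      (subset_biUnion_of_mem F (mem_univ (⟨⌊S0⌋₊, hG⟩ : Fin (q ^ 2 + 1)))))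

end Pool.Agent.CG
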