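import Pool.Agent.CG.Basic

/-!
# Project CG: facts on `ed` and `star`
-/

set_option autoImplicit false

namespace Pool.Agent.CG

open Finset

variable {V : Type} [DecidableEq V]

theorem mk_mem_ed {A : Finset V} {a b : V} : s(a, b) ∈ ed A ↔ a ∈ A ∧ b ∈ A ∧ a ≠ b := by
  unfold ed
  rw [mem_filter, mk_mem_sym2_iff, Sym2.mk_isDiag_iff]
  tauto

theorem ed_subset {A B : Finset V} (h : A ⊆ B) : ed A ⊆ ed B := by
  intro e
  induction e using Sym2.ind with
  | _ a b =>
    rw [mk_mem_ed, mk_mem_ed]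
    exact fun ⟨h1, h2, h3⟩ => ⟨h h1, h h2, h3⟩

theorem ed_inter (A B : Finset V) : ed (A ∩ B) = ed A ∩ ed B := by
  ext e
  induction e using Sym2.ind with
  | _ a b =>
    rw [mem_inter, mk_mem_ed, mk_mem_ed, mk_mem_ed, mem_inter, mem_inter]
    tauto

theorem card_ed (A : Finset V) : (ed A).card = A.card.choose 2 := by
  have : ed A = A.offDiag.image (fun p : V × V => s(p.1, p.2)) := by
    ext e
    induction e using Sym2.ind with
    | _ a b =>
      rw [mk_mem_ed, mem_image]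
      constructor
      · rintro ⟨h1, h2, h3⟩
        exact ⟨(a, b), mem_offDiag.2 ⟨h1, h2, h3⟩, rfl⟩
      · rintro ⟨⟨c, d⟩, hcd, h⟩
        rw [mem_offDiag] at hcd
        simp only [Sym2.eq_iff] at h
        rcases h with ⟨rfl, rfl⟩ | ⟨rfl, rfl⟩
        · exact hcd
        · exact ⟨hcd.2.1, hcd.1, hcd.2.2.symm⟩
  rw [this]
  exact Sym2.card_image_offDiag A

theorem mem_star {E : Finset V} {v : V} {e : Sym2 V} : e ∈ star E v ↔ ∃ x ∈ E, s(x, v) = e := by
  unfold star; rw [mem_image]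

theorem card_star (E : Finset V) (v : V) : (star E v).card = E.card := by
  unfold star
  apply card_image_of_injective
  intro x y h
  have h' : x = y ∨ x = v ∧ v = y := by simpa using h
  rcases h' with h' | ⟨h1, h2⟩
  · exact h'
  · exact h1.trans h2

theorem star_subset_ed {A E : Finset V} (hE : E ⊆ A) {v : V} (hv : v ∈ A \ E) : star E v ⊆ ed A := by
  intro e he
  rw [mem_star] at he
  obtain ⟨x, hx, rfl⟩ := he
  rw [mem_sdiff] at hv
  rw [mk_mem_ed]
  exact ⟨hE hx, hv.1, fun h => hv.2 (h ▸ hx)⟩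

/-- decomposition of `ed A` -/
theorem ed_decomp {A E : Finset V} (hE : E ⊆ A) :
    ed A = ed E ∪ (ed (A \ E) ∪ (A \ E).biUnion (star E)) := by
  ext e
  induction e using Sym2.ind with
  | _ a b =>
    rw [mem_union, mem_union, mk_mem_ed, mk_mem_ed, mk_mem_ed, mem_biUnion]
    constructor
    · rintro ⟨ha, hb, hab⟩
      by_cases h1 : a ∈ E <;> by_cases h2 : b ∈ E
      · exact Or.inl ⟨h1, h2, hab⟩
      · exact Or.inr (Or.inr ⟨b, mem_sdiff.2 ⟨hb, h2⟩, mem_star.2 ⟨a, h1, rfl⟩⟩)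
      · exact Or.inr (Or.inr ⟨a, mem_sdiff.2 ⟨ha, h1⟩, mem_star.2 ⟨b, h2, Sym2.eq_swap⟩⟩)
      · exact Or.inr (Or.inl ⟨mem_sdiff.2 ⟨ha, h1⟩, mem_sdiff.2 ⟨hb, h2⟩, hab⟩)
    · rintro (⟨h1, h2, h3⟩ | ⟨h1, h2, h3⟩ | ⟨v, hv, he⟩)
      · exact ⟨hE h1, hE h2, h3⟩
      · exact ⟨(mem_sdiff.1 h1).1, (mem_sdiff.1 h2).1, h3⟩
      · exact mk_mem_ed.1 (star_subset_ed hE hv he)

theorem star_pairwise_disjoint (A E : Finset V) :
    Set.PairwiseDisjoint (↑(A \ E) : Set V) (star E) := by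
  intro v hv w hw hvw
  rw [Function.onFun, disjoint_left]
  intro e he he'
  rw [mem_star] at he he'
  obtain ⟨x, hx, rfl⟩ := he
  obtain ⟨y, hy, h⟩ := he'
  rw [coe_sdiff, Set.mem_sdiff] at hv hw
  simp only [Sym2.eq_iff] at h
  rcases h with ⟨_, h⟩ | ⟨h, h'⟩
  · exact hvw h.symm
  · exact hv.2 (by rw [← h]; exact hy)

theorem disjoint_ed_rest (A E : Finset V) :
    Disjoint (ed E) (ed (A \ E) ∪ (A \ E).biUnion (star E)) := by
  rw [disjoint_left]
  intro e he he'
  induction e using Sym2.ind with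
  | _ a b =>
    rw [mk_mem_ed] at he
    rw [mem_union, mk_mem_ed, mem_biUnion] at he'
    rcases he' with ⟨h1, _, _⟩ | ⟨v, hv, h⟩
    · exact (mem_sdiff.1 h1).2 he.1
    · rw [mem_star] at h
      obtain ⟨x, hx, h⟩ := h
      simp only [Sym2.eq_iff] at h
      rcases h with ⟨_, h⟩ | ⟨_, h⟩
      · exact (mem_sdiff.1 hv).2 (h ▸ he.2.1)
      · exact (mem_sdiff.1 hv).2 (h ▸ he.1)

theorem disjoint_ed_star (A E : Finset V) :
    Disjoint (ed (A \ E)) ((A \ E).biUnion (star E)) := by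
  rw [disjoint_left]
  intro e he he'
  induction e using Sym2.ind with
  | _ a b =>
    rw [mk_mem_ed] at he
    rw [mem_biUnion] at he'
    obtain ⟨v, hv, h⟩ := he'
    rw [mem_star] at h
    obtain ⟨x, hx, h⟩ := h
    simp only [Sym2.eq_iff] at h
    rcases h with ⟨h, _⟩ | ⟨h, _⟩
    · exact (mem_sdiff.1 he.1).2 (h ▸ hx)
    · exact (mem_sdiff.1 he.2.1).2 (h ▸ hx)

theorem lw_biUnion_le {ι α : Type} [DecidableEq α] (σ : St α) (s : Finset ι)
    (f : ι → Finset α) (h : Set.PairwiseDisjoint (↑s : Set ι) f) :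
    lw σ (s.biUnion f) ≤ ∑ i ∈ s, lw σ (f i) := by
  classical
  induction s using Finset.induction_on with
  | empty => simp [lw, cl, dd]
  | insert i s his ih =>
    rw [biUnion_insert, sum_insert his]
    have h1 : Set.PairwiseDisjoint (↑s : Set ι) f := h.subset (by simp)
    have h2 : Disjoint (f i) (s.biUnion f) := by
      rw [disjoint_biUnion_right]
      intro j hj
      exact h (by simp) (by simp [hj]) (fun hc => his (hc ▸ hj))
    exact (lw_union_le σ h2).trans (add_le_add le_rfl (ih h1))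

/-- the main decomposition inequality -/
theorem lw_decomp (σ : St (Sym2 V)) {A E : Finset V} (hE : E ⊆ A) :
    lw σ (ed A) - (E.card.choose 2 : ℝ) ≤
      lw σ (ed (A \ E)) + ∑ v ∈ A \ E, lw σ (star E v) := by
  have h1 := lw_union_le σ (disjoint_ed_rest A E)
  have h2 := lw_union_le σ (disjoint_ed_star A E)
  have h3 := lw_biUnion_le σ (A \ E) (star E) (star_pairwise_disjoint A E)
  rw [← ed_decomp hE] at h1
  have h4 : lw σ (ed E) ≤ (E.card.choose 2 : ℝ) := by
    refine (lw_le_cl σ _).trans ?_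
    have := cl_le_card σ (ed E)
    rw [card_ed] at this
    exact_mod_cast this
  linarith

end Pool.Agent.CG
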