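import Pool.Agent.CG.A3n
import Pool.Agent.CG.Ed
import Pool.Agent.CG.S1

/-!
# CG A4: the population step

PAPER PROOF. L = LL N, j = 10^6 J, w = ⌈N^(ν+g)⌉₊, g = gg. For each k ≤ 4J+1 apply `sampling` with
Δ = pairs (E,R) of vertex sets with |E| = k, |R| ≤ N^ν (at most (N+1)^(k + N^ν) pairs),
T(E,R) = {S : S ∩ E = ∅, |S| = q-k, |S ∩ R| ≥ j}, of size ≤ C(⌊N^ν⌋,j) C(N,q-k-j)
≤ (N^ν)^j * N^(q-k-j)/(q-k-j)! =: t (S = S₁ ∪ S₂, S₁ ⊆ R, |S₁| = j), Pr S = ed S, p = q², K = N^20: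
(K|Δ|)^(1/w) ≤ 4 since log₂(K|Δ|) ≤ (k + N^ν + 25)·2L ≤ N^(ν+g) ≤ w for N large (uniformly in ν).
For σ, E, R: the sets S = A \ E, A ∈ GJ σ q J, E ⊆ A, |(A\E) ∩ R| ≥ j, are alive and
lw σ (ed S) ≥ l := C(q-k,2) - u - 2β(J+1)q (cl σ (ed S) ≥ |ed S| - u because ed S ⊆ ed A, and
dd σ (ed S) ≤ dd σ (ed A) ≤ 2(J+1)q). So there is F, |F| ≤ 2wq² ≤ N^(ν+2g)/2, with
#{S : |ed S ∩ F| ≤ 0.04JL} 2^(l - 0.04JL) ≤ 4t < 2^(l-0.04JL) by `numPop`: no such S.
-/

set_option autoImplicit false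

namespace Pool.Agent.CG

open Finset Filter

/-- the number of subsets with at most `r` elements -/
private theorem A4_card_small (N r : ℕ) :
    ((range (r + 1)).biUnion fun i => powersetCard i (univ : Finset (Fin N))).card ≤ (N + 1) ^ r := by
  refine card_biUnion_le.trans ?_
  rw [add_pow]
  refine sum_le_sum fun i hi => ?_
  rw [card_powersetCard, card_univ, Fintype.card_fin, one_pow, mul_one]
  have h1 : N.choose i ≤ N ^ i := Nat.choose_le_pow N i
  have h2 : 1 ≤ r.choose i := Nat.choose_pos (Nat.lt_succ_iff.1 (mem_range.1 hi))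
  calc N.choose i ≤ N ^ i := h1
    _ = N ^ i * 1 := (mul_one _).symm
    _ ≤ N ^ i * r.choose i := Nat.mul_le_mul_left _ h2

/-- the number of pairs -/
private theorem A4_card_pairs (N k r : ℕ) :
    Fintype.card {p : Finset (Fin N) × Finset (Fin N) // p.1.card = k ∧ p.2.card ≤ r} ≤
      (N + 1) ^ (k + r) := by
  rw [Fintype.card_subtype]
  have hsub : (univ : Finset (Finset (Fin N) × Finset (Fin N))).filter
      (fun p => p.1.card = k ∧ p.2.card ≤ r) ⊆
      powersetCard k univ ×ˢ ((range (r + 1)).biUnion fun i => powersetCard i (univ : Finset (Fin N))) := by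
    intro p hp
    rw [mem_filter] at hp
    rw [mem_product, mem_powersetCard, mem_biUnion]
    exact ⟨⟨subset_univ _, hp.2.1⟩, p.2.card, mem_range.2 (Nat.lt_succ_iff.2 hp.2.2),
      mem_powersetCard.2 ⟨subset_univ _, rfl⟩⟩
  refine (card_le_card hsub).trans ?_
  rw [card_product, card_powersetCard, card_univ, Fintype.card_fin, pow_add]
  refine Nat.mul_le_mul ?_ (A4_card_small N r)
  exact (Nat.choose_le_pow N k).trans (Nat.pow_le_pow_left (Nat.le_succ N) k)

/-- the sets counted by `T` -/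
private def A4_T (N q k j : ℕ) (E R : Finset (Fin N)) : Finset (Finset (Fin N)) :=
  (powersetCard (q - k) univ).filter fun S => Disjoint S E ∧ j ≤ (S ∩ R).card

private theorem A4_card_T (N q k j : ℕ) (E R : Finset (Fin N)) (x : ℝ) (hR : (R.card : ℝ) ≤ x) :
    ((A4_T N q k j E R).card : ℝ) ≤ x ^ j * ((N:ℝ) ^ (q - k - j) / ((q - k - j).factorial : ℝ)) := by
  have hx : 0 ≤ x := (Nat.cast_nonneg _).trans hR
  by_cases hj : j ≤ q - k
  · have hsub : A4_T N q k j E R ⊆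
        (powersetCard j R ×ˢ powersetCard (q - k - j) univ).image (fun p => p.1 ∪ p.2) := by
      intro S hS
      unfold A4_T at hS
      rw [mem_filter, mem_powersetCard] at hS
      obtain ⟨⟨_, hc⟩, _, hSR⟩ := hS
      obtain ⟨S1, hS1, hS1c⟩ := exists_subset_card_eq hSR
      rw [mem_image]
      refine ⟨(S1, S \ S1), ?_, ?_⟩
      · rw [mem_product, mem_powersetCard, mem_powersetCard]
        refine ⟨⟨hS1.trans inter_subset_right, hS1c⟩, subset_univ _, ?_⟩
        rw [card_sdiff_of_subset (hS1.trans inter_subset_left), hc, hS1c]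
      · show S1 ∪ S \ S1 = S
        exact union_sdiff_of_subset (hS1.trans inter_subset_left)
    have h1 : (A4_T N q k j E R).card ≤ R.card.choose j * N.choose (q - k - j) := by
      refine (card_le_card hsub).trans (card_image_le.trans ?_)
      rw [card_product, card_powersetCard, card_powersetCard, card_univ, Fintype.card_fin]
    have h2 : ((A4_T N q k j E R).card : ℝ) ≤ (R.card.choose j : ℝ) * (N.choose (q - k - j) : ℝ) := by
      exact_mod_cast h1
    refine h2.trans (mul_le_mul ?_ ?_ (by positivity) (by positivity))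
    · have h3 : (R.card.choose j : ℝ) ≤ (R.card : ℝ) ^ j := by exact_mod_cast Nat.choose_le_pow R.card j
      exact h3.trans (pow_le_pow_left₀ (by positivity) hR j)
    · exact Nat.choose_le_pow_div (q - k - j) N
  · have h0 : A4_T N q k j E R = ∅ := by
      rw [eq_empty_iff_forall_notMem]
      intro S hS
      unfold A4_T at hS
      rw [mem_filter, mem_powersetCard] at hS
      have := card_le_card (inter_subset_left : S ∩ R ⊆ S)
      omega
    rw [h0, card_empty, Nat.cast_zero]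
    positivity

/-- `N` is large -/
private theorem A4_large : ∀ᶠ N : ℕ in atTop, 2 ≤ N ∧ 1 ≤ LL N ∧ 32 * LL N ^ 2 ≤ (N:ℝ) ^ gg := by
  have hgg : (0:ℝ) < gg := by unfold gg; norm_num
  have h1 : ∀ᶠ N : ℕ in atTop, 2 ≤ N := eventually_ge_atTop 2
  have hl2 : 0 < Real.log 2 := Real.log_pos (by norm_num)
  have h2 := (isLittleO_log_rpow_rpow_atTop (s := gg) (2:ℝ) hgg).bound
    (show (0:ℝ) < Real.log 2 ^ 2 / 32 by positivity)
  have h3 := tendsto_natCast_atTop_atTop.eventually h2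
  filter_upwards [h1, h3] with N hN hb
  have hN2 : (2:ℝ) ≤ N := by exact_mod_cast hN
  have hlog : 0 ≤ Real.log N := Real.log_nonneg (by linarith)
  refine ⟨hN, ?_, ?_⟩
  · unfold LL
    rw [Real.le_logb_iff_rpow_le (by norm_num) (by linarith), Real.rpow_one]
    exact hN2
  · rw [Real.norm_eq_abs, Real.norm_eq_abs, Real.rpow_two, abs_of_nonneg (sq_nonneg _),
      abs_of_nonneg (by positivity)] at hb
    unfold LL
    rw [Real.logb, div_pow]
    have h4 : 32 * (Real.log N ^ 2 / Real.log 2 ^ 2) ≤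
        32 * ((Real.log 2 ^ 2 / 32 * (N:ℝ) ^ gg) / Real.log 2 ^ 2) := by
      gcongr
    refine h4.trans (le_of_eq ?_)
    field_simp

theorem popStep : ∀ᶠ C : ℕ in atTop, ∀ᶠ N : ℕ in atTop, ∀ (q J : ℕ) (ν : ℝ), Reg C N q → C ≤ J →
    (J:ℝ) ≤ eta * LL N → 0 ≤ ν → ν ≤ 1 - del1 →
    Cert ((N:ℝ) ^ 12) (fun σ : St (Sym2 (Fin N)) => ∀ E R : Finset (Fin N),
      E.card ≤ 4 * J + 1 → (R.card : ℝ) ≤ (N:ℝ) ^ ν →
      ∃ F : Finset (Sym2 (Fin N)), (F.card : ℝ) ≤ (N:ℝ) ^ (ν + 2 * gg) / 2 ∧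
        ∀ A ∈ GJ σ q J, E ⊆ A → 10 ^ 6 * J ≤ ((A \ E) ∩ R).card →
          0.04 * J * LL N < ((ed (A \ E) ∩ F).card : ℝ)) := by
  filter_upwards [numPop, regNum] with C hC1 hC2
  filter_upwards [hC1, hC2, A4_large] with N hN1 hN2 hN3
  intro q J ν hreg hCJ hJ hν0 hν1
  obtain ⟨hN, hL1, hL2⟩ := hN3
  obtain ⟨_, hq, _, _⟩ := hN2 q hreg
  have hNR : (2:ℝ) ≤ N := by exact_mod_cast hN
  have hN0 : (0:ℝ) < N := by linarith
  have hN1' : (1:ℝ) ≤ N := by linarith
  have hgg : (0:ℝ) < gg := by unfold gg; norm_num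
  have hν : 1 ≤ (N:ℝ) ^ ν := Real.one_le_rpow hN1' hν0
  have hLN : LL N ≤ N := by
    unfold LL
    rw [Real.logb_le_iff_le_rpow (by norm_num) hN0, Real.rpow_natCast]
    exact_mod_cast Nat.lt_two_pow_self.le
  have hJL : (J:ℝ) ≤ LL N / 8 := by
    refine hJ.trans ?_
    unfold eta
    have : 0 ≤ LL N := by linarith
    nlinarith
  -- one value of the size of the kernel
  have key : ∀ θ : Fin (4 * J + 2), Cert ((N:ℝ) ^ 12 * Fintype.card (Fin (4 * J + 2)))
      (fun σ : St (Sym2 (Fin N)) => ∀ E R : Finset (Fin N),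
      E.card = θ.val → (R.card : ℝ) ≤ (N:ℝ) ^ ν →
      ∃ F : Finset (Sym2 (Fin N)), (F.card : ℝ) ≤ (N:ℝ) ^ (ν + 2 * gg) / 2 ∧
        ∀ A ∈ GJ σ q J, E ⊆ A → 10 ^ 6 * J ≤ ((A \ E) ∩ R).card →
          0.04 * J * LL N < ((ed (A \ E) ∩ F).card : ℝ)) := by
    intro θ
    set k : ℕ := θ.val with hk
    have hk1 : k ≤ 4 * J + 1 := Nat.lt_succ_iff.1 θ.2
    set r : ℕ := ⌊(N:ℝ) ^ ν⌋₊ with hr
    set j : ℕ := 10 ^ 6 * J with hj
    set w : ℕ := ⌈(N:ℝ) ^ (ν + gg)⌉₊ with hw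
    set t : ℝ := ((N:ℝ) ^ ν) ^ j * ((N:ℝ) ^ (q - k - j) / ((q - k - j).factorial : ℝ)) with ht
    have hwpos : 0 < (N:ℝ) ^ (ν + gg) := Real.rpow_pos_of_pos hN0 _
    have hw1 : 1 ≤ w := Nat.one_le_iff_ne_zero.2 (Nat.ceil_pos.2 hwpos).ne'
    have hwge : (N:ℝ) ^ (ν + gg) ≤ w := Nat.le_ceil _
    have hw1le : (1:ℝ) ≤ (N:ℝ) ^ (ν + gg) := Real.one_le_rpow hN1' (by linarith)
    have hwle : (w:ℝ) ≤ 2 * (N:ℝ) ^ (ν + gg) := by
      have := (Nat.ceil_lt_add_one hwpos.le).le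
      rw [← hw] at this
      linarith
    have hrle : (r:ℝ) ≤ (N:ℝ) ^ ν := Nat.floor_le (by positivity)
    have ht0 : 0 ≤ t := by rw [ht]; positivity
    have hnum := hN1 q J hreg hCJ hJ k ν hk1 hν0 hν1
    rw [← hj, ← ht] at hnum
    -- the size of the certificate
    have hcard : (N:ℝ) ^ 12 * Fintype.card (Fin (4 * J + 2)) ≤ (N:ℝ) ^ 20 := by
      rw [Fintype.card_fin]
      push_cast
      have h1 : 4 * (J:ℝ) + 2 ≤ N ^ 8 := by
        have h2 : (J:ℝ) ≤ N / 8 := by linarith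
        have h3 : (N:ℝ) ^ 2 ≤ N ^ 8 := pow_le_pow_right₀ hN1' (by norm_num)
        nlinarith
      calc (N:ℝ) ^ 12 * (4 * (J:ℝ) + 2) ≤ (N:ℝ) ^ 12 * N ^ 8 := by gcongr
        _ = (N:ℝ) ^ 20 := by ring
    have hroot : ((N:ℝ) ^ 20 * (Fintype.card {p : Finset (Fin N) × Finset (Fin N) //
        p.1.card = k ∧ p.2.card ≤ r} : ℝ)) ^ (1 / (w:ℝ)) ≤ 4 := by
      have hwR : (0:ℝ) < w := by exact_mod_cast hw1
      have h1 : (Fintype.card {p : Finset (Fin N) × Finset (Fin N) //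
        p.1.card = k ∧ p.2.card ≤ r} : ℝ) ≤ ((N:ℝ) + 1) ^ (k + r) := by
        exact_mod_cast A4_card_pairs N k r
      have h2 : ((N:ℝ) + 1) ^ (k + r) ≤ ((N:ℝ) ^ 2) ^ (k + r) := by
        refine pow_le_pow_left₀ (by positivity) ?_ _
        nlinarith
      have h3 : (N:ℝ) ^ 20 * (Fintype.card {p : Finset (Fin N) × Finset (Fin N) //
        p.1.card = k ∧ p.2.card ≤ r} : ℝ) ≤ (N:ℝ) ^ (20 + 2 * (k + r)) := by
        calc (N:ℝ) ^ 20 * (Fintype.card {p : Finset (Fin N) × Finset (Fin N) //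
            p.1.card = k ∧ p.2.card ≤ r} : ℝ) ≤ (N:ℝ) ^ 20 * ((N:ℝ) ^ 2) ^ (k + r) := by
              exact mul_le_mul_of_nonneg_left (h1.trans h2) (by positivity)
          _ = (N:ℝ) ^ (20 + 2 * (k + r)) := by rw [← pow_mul, ← pow_add]
      have h4 : (N:ℝ) ^ (20 + 2 * (k + r)) = (2:ℝ) ^ (LL N * ((20 + 2 * (k + r) : ℕ) : ℝ)) := by
        rw [Real.rpow_mul (by norm_num), Real.rpow_natCast]
        congr 1
        unfold LL
        rw [Real.rpow_logb (by norm_num) (by norm_num) hN0]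
      have h5 : LL N * ((20 + 2 * (k + r) : ℕ) : ℝ) ≤ 2 * w := by
        push_cast
        have hkR : (k:ℝ) ≤ LL N := by
          have h6 : (k:ℝ) ≤ 4 * J + 1 := by exact_mod_cast hk1
          by_cases hJ0 : J = 0
          · rw [hJ0] at h6
            simp only [Nat.cast_zero, mul_zero, zero_add] at h6
            linarith
          · have h7 : (1:ℝ) ≤ J := by exact_mod_cast Nat.one_le_iff_ne_zero.2 hJ0
            linarith
        have h6 : LL N * (20 + 2 * ((k:ℝ) + r)) ≤ 32 * LL N ^ 2 * (N:ℝ) ^ ν := by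
          have h7 : 20 + 2 * ((k:ℝ) + r) ≤ 24 * LL N * (N:ℝ) ^ ν := by
            have h8 : LL N * 1 ≤ LL N * (N:ℝ) ^ ν := mul_le_mul_of_nonneg_left hν (by linarith)
            have h9 : 1 * (N:ℝ) ^ ν ≤ LL N * (N:ℝ) ^ ν := mul_le_mul_of_nonneg_right hL1 (by positivity)
            linarith
          calc LL N * (20 + 2 * ((k:ℝ) + r)) ≤ LL N * (24 * LL N * (N:ℝ) ^ ν) :=
                mul_le_mul_of_nonneg_left h7 (by linarith)
            _ = 24 * (LL N ^ 2 * (N:ℝ) ^ ν) := by ring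
            _ ≤ 32 * LL N ^ 2 * (N:ℝ) ^ ν := by
              have : 0 ≤ LL N ^ 2 * (N:ℝ) ^ ν := by positivity
              linarith
        have h7 : 32 * LL N ^ 2 * (N:ℝ) ^ ν ≤ (N:ℝ) ^ (ν + gg) := by
          rw [add_comm ν gg, Real.rpow_add hN0]
          exact mul_le_mul_of_nonneg_right hL2 (by positivity)
        have h8 : (w:ℝ) ≤ 2 * w := by linarith
        linarith
      have h6 : (N:ℝ) ^ (20 + 2 * (k + r)) ≤ (4:ℝ) ^ (w:ℝ) := by
        rw [h4, show (4:ℝ) = 2 ^ (2:ℝ) by norm_num, ← Real.rpow_mul (by norm_num)]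
        exact Real.rpow_le_rpow_of_exponent_le (by norm_num) h5
      calc ((N:ℝ) ^ 20 * (Fintype.card {p : Finset (Fin N) × Finset (Fin N) //
            p.1.card = k ∧ p.2.card ≤ r} : ℝ)) ^ (1 / (w:ℝ)) ≤ ((4:ℝ) ^ (w:ℝ)) ^ (1 / (w:ℝ)) := by
            refine Real.rpow_le_rpow (by positivity) (h3.trans h6) (by positivity)
        _ = 4 := by
          rw [← Real.rpow_mul (by norm_num), mul_one_div, div_self hwR.ne', Real.rpow_one]
    have hF2 : (2 * (w:ℝ) * (q:ℝ) ^ 2) ≤ (N:ℝ) ^ (ν + 2 * gg) / 2 := by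
      have h1 : (q:ℝ) ^ 2 ≤ 4 * LL N ^ 2 := by
        have : (q:ℝ) ^ 2 ≤ (2 * LL N) ^ 2 := pow_le_pow_left₀ (by positivity) hq 2
        linarith
      have h2 : 2 * (w:ℝ) * (q:ℝ) ^ 2 ≤ 2 * (2 * (N:ℝ) ^ (ν + gg)) * (4 * LL N ^ 2) := by
        gcongr
      have h3 : (N:ℝ) ^ (ν + 2 * gg) = (N:ℝ) ^ (ν + gg) * (N:ℝ) ^ gg := by
        rw [← Real.rpow_add hN0]
        congr 1
        ring
      rw [h3]
      have h4 : (N:ℝ) ^ (ν + gg) * (32 * LL N ^ 2) ≤ (N:ℝ) ^ (ν + gg) * (N:ℝ) ^ gg :=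
        mul_le_mul_of_nonneg_left hL2 (by positivity)
      linarith
    have hsamp := sampling (α := Sym2 (Fin N))
      (Δ := {p : Finset (Fin N) × Finset (Fin N) // p.1.card = k ∧ p.2.card ≤ r})
      (ι := Finset (Fin N)) (fun D => A4_T N q k j D.1.1 D.1.2) (fun _ S => ed S) t (q ^ 2) w
      ((N:ℝ) ^ 20) (by positivity) hw1
      (fun D => A4_card_T N q k j D.1.1 D.1.2 _ ((Nat.cast_le.2 D.2.2).trans hrle))
      (by
        intro D S hS
        unfold A4_T at hS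
        rw [mem_filter, mem_powersetCard] at hS
        rw [card_ed, hS.1.2]
        calc (q - k).choose 2 ≤ q.choose 2 := Nat.choose_le_choose 2 (Nat.sub_le q k)
          _ ≤ q ^ 2 := Nat.choose_le_pow q 2)
    refine hsamp.mono hcard ?_
    intro σ hσ E R hE hR
    have hRr : R.card ≤ r := Nat.le_floor hR
    set Fam : Finset (Finset (Fin N)) :=
      ((GJ σ q J).filter (fun A => E ⊆ A ∧ j ≤ ((A \ E) ∩ R).card)).image (fun A => A \ E) with hFam
    have hFT : Fam ⊆ A4_T N q k j E R := by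
      intro S hS
      rw [hFam, mem_image] at hS
      obtain ⟨A, hA, rfl⟩ := hS
      rw [mem_filter] at hA
      have hA1 := hA.1
      unfold GJ at hA1
      rw [mem_filter, mem_powersetCard] at hA1
      unfold A4_T
      rw [mem_filter, mem_powersetCard]
      refine ⟨⟨subset_univ _, ?_⟩, sdiff_disjoint, hA.2.2⟩
      rw [card_sdiff_of_subset hA.2.1, hA1.1.2, hE]
    obtain ⟨F, hF1, hF3⟩ := hσ ⟨(E, R), hE, hRr⟩ Fam hFT
      (((q - k).choose 2 : ℝ) - uJ N J - 2 * beta * (J + 1) * q) (0.04 * J * LL N) (by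
        intro S hS
        rw [hFam, mem_image] at hS
        obtain ⟨A, hA, rfl⟩ := hS
        rw [mem_filter] at hA
        have hA1 := hA.1
        unfold GJ at hA1
        rw [mem_filter, mem_powersetCard] at hA1
        obtain ⟨⟨_, hAq⟩, hAB, hAu, _, hAd⟩ := hA1
        have hsub : ed (A \ E) ⊆ ed A := ed_subset sdiff_subset
        refine ⟨disjoint_of_subset_left hsub hAB, ?_⟩
        have h1 := cl_add_card_sdiff σ (ed (A \ E))
        have h2 : (ed (A \ E) \ σ.M).card ≤ uJ N J :=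
          (card_le_card (sdiff_subset_sdiff hsub (Subset.refl _))).trans hAu
        have h3 : dd σ (ed (A \ E)) ≤ 2 * (J + 1) * q := (dd_mono σ hsub).trans hAd
        have h4 : (ed (A \ E)).card = (q - k).choose 2 := by
          rw [card_ed, card_sdiff_of_subset hA.2.1, hAq, hE]
        rw [h4] at h1
        have h1' : (cl σ (ed (A \ E)) : ℝ) + ((ed (A \ E) \ σ.M).card : ℝ) = ((q - k).choose 2 : ℝ) := by
          exact_mod_cast h1
        have h2' : ((ed (A \ E) \ σ.M).card : ℝ) ≤ uJ N J := by exact_mod_cast h2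
        have h3' : (dd σ (ed (A \ E)) : ℝ) ≤ 2 * (J + 1) * q := by exact_mod_cast h3
        have h5 : beta * (dd σ (ed (A \ E)) : ℝ) ≤ beta * (2 * (J + 1) * q) :=
          mul_le_mul_of_nonneg_left h3' beta_pos.le
        unfold lw
        linarith)
    refine ⟨F, ?_, ?_⟩
    · refine le_trans ?_ hF2
      have : (F.card : ℝ) ≤ ((2 * w * q ^ 2 : ℕ) : ℝ) := by exact_mod_cast hF1
      refine this.trans (le_of_eq ?_)
      push_cast
      ring
    · intro A hA hEA hAR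
      by_contra hcon
      rw [not_lt] at hcon
      have hmem : A \ E ∈ Fam.filter (fun S => ((ed S ∩ F).card : ℝ) ≤ 0.04 * J * LL N) := by
        rw [mem_filter, hFam, mem_image]
        exact ⟨⟨A, mem_filter.2 ⟨hA, hEA, hAR⟩, rfl⟩, hcon⟩
      have h1 : 1 ≤ (Fam.filter (fun S => ((ed S ∩ F).card : ℝ) ≤ 0.04 * J * LL N)).card :=
        card_pos.2 ⟨_, hmem⟩
      have h1' : (1:ℝ) ≤ ((Fam.filter (fun S => ((ed S ∩ F).card : ℝ) ≤ 0.04 * J * LL N)).card : ℝ) := by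
        exact_mod_cast h1
      have hpow : (0:ℝ) < (2:ℝ) ^ ((((q - k).choose 2 : ℝ) - uJ N J - 2 * beta * (J + 1) * q) -
          0.04 * J * LL N) := Real.rpow_pos_of_pos (by norm_num) _
      have h2 := mul_le_mul_of_nonneg_right h1' hpow.le
      have h3 := mul_le_mul_of_nonneg_left hroot ht0
      linarith
  have hall := Cert.forall (Θ := Fin (4 * J + 2)) (K := (N:ℝ) ^ 12) key
  refine hall.mono le_rfl ?_
  intro σ hσ E R hE hR
  exact hσ ⟨E.card, Nat.lt_succ_iff.2 hE⟩ E R rfl hR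

end Pool.Agent.CG
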