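import Pool.Agent.CG.Ed
import Pool.Agent.CG.S7

/-!
# CG A5: the star step

PAPER PROOF. L = LL N, F-degree of v: number of edges of F (non-diagonal) containing v. Let
R = {v : deg v ≥ N^del0}. Then |R| N^del0 ≤ 2|F| ≤ N^(ν+2gg), |R| ≤ N^(ν + 2gg - del0) = N^(ν-del1)
(del0 = 4gg, del1 = 2gg). Call A ∈ G bad if there is v ∈ A \ E', v ∉ R, with at least k0
F-neighbours in A \ E'. Then A contains V' = {v} ∪ S with S a k0-subset of the F-neighbours of v
(S outside E', V' disjoint from E, |V'| = k0+1). The number of pairs (v,S) is ≤ N (N^del0)^k0, and for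
each |sub G V'| < N^(-c5(k0+1)) |G| (Spr). Since 1 + del0 k0 - c5(k0+1) = 1 + 12.5 - 50 - c5 < -30:
at most N^(-30)|G| bad sets. If A is not bad and |ed(A\E') ∩ F| > 0.04JL: the edges of F in A\E' with an
endpoint not in R are at most k0 q ≤ 2·10^6 L ≤ 0.001 J L (J ≥ C large), so ≥ 0.039JL edges lie inside
(A\E') ∩ R, hence |(A\E') ∩ R|² / 2 ≥ 0.039 J L and |(A\E')∩R| ≥ sqrt(0.078 J L) ≥ 10^6 J because
J ≤ 10^-14 L.
-/

set_option autoImplicit false

namespace Pool.Agent.CG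

open Finset Filter

private def A5_nbr {N : ℕ} (F : Finset (Sym2 (Fin N))) (v : Fin N) : Finset (Fin N) :=
  univ.filter (fun w => w ≠ v ∧ s(v, w) ∈ F)

private theorem A5_mem_nbr {N : ℕ} {F : Finset (Sym2 (Fin N))} {v w : Fin N} :
    w ∈ A5_nbr F v ↔ w ≠ v ∧ s(v, w) ∈ F := by
  unfold A5_nbr
  rw [mem_filter]
  exact ⟨fun h => h.2, fun h => ⟨mem_univ _, h⟩⟩

private theorem A5_handshake {N : ℕ} (F : Finset (Sym2 (Fin N))) :
    ∑ v : Fin N, (A5_nbr F v).card ≤ 2 * F.card := by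
  have h1 : ∑ v : Fin N, (A5_nbr F v).card =
      ((univ : Finset (Fin N)).sigma (fun v => A5_nbr F v)).card := by
    rw [card_sigma]
  rw [h1]
  apply card_le_mul_card_image_of_maps_to (f := fun p => s(p.1, p.2))
  · rintro ⟨v, w⟩ hp
    rw [mem_sigma] at hp
    exact (A5_mem_nbr.1 hp.2).2
  · intro e _
    induction e using Sym2.ind with
    | _ a b =>
      have hsub : (((univ : Finset (Fin N)).sigma (fun v => A5_nbr F v)).filter
          (fun p => s(p.1, p.2) = s(a, b))) ⊆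
          ({⟨a, b⟩, ⟨b, a⟩} : Finset (Σ _ : Fin N, Fin N)) := by
        rintro ⟨v, w⟩ hp
        rw [mem_filter] at hp
        have h2 := hp.2
        simp only [Sym2.eq_iff] at h2
        rw [mem_insert, mem_singleton]
        rcases h2 with ⟨rfl, rfl⟩ | ⟨rfl, rfl⟩
        · exact Or.inl rfl
        · exact Or.inr rfl
      exact (card_le_card hsub).trans (card_le_two)

/-- the edges of `F` in `S` -/
private theorem A5_edges {N : ℕ} (F : Finset (Sym2 (Fin N))) (S R : Finset (Fin N)) (k : ℕ)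
    (h : ∀ v ∈ S, v ∉ R → (A5_nbr F v ∩ S).card ≤ k) :
    (ed S ∩ F).card ≤ (S ∩ R).card.choose 2 + S.card * k := by
  have hsub : ed S ∩ F ⊆ ed (S ∩ R) ∪
      (S \ R).biUnion (fun v => (A5_nbr F v ∩ S).image (fun w => s(v, w))) := by
    intro e
    induction e using Sym2.ind with
    | _ a b =>
      intro he
      rw [mem_inter, mk_mem_ed] at he
      obtain ⟨⟨ha, hb, hab⟩, hF⟩ := he
      rw [mem_union, mk_mem_ed, mem_biUnion]
      by_cases haR : a ∈ R
      · by_cases hbR : b ∈ R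
        · exact Or.inl ⟨mem_inter.2 ⟨ha, haR⟩, mem_inter.2 ⟨hb, hbR⟩, hab⟩
        · refine Or.inr ⟨b, mem_sdiff.2 ⟨hb, hbR⟩, mem_image.2 ⟨a, mem_inter.2 ⟨?_, ha⟩, ?_⟩⟩
          · rw [A5_mem_nbr, Sym2.eq_swap]
            exact ⟨hab, hF⟩
          · exact Sym2.eq_swap
      · refine Or.inr ⟨a, mem_sdiff.2 ⟨ha, haR⟩, mem_image.2 ⟨b, mem_inter.2 ⟨?_, hb⟩, rfl⟩⟩
        rw [A5_mem_nbr]
        exact ⟨hab.symm, hF⟩
  refine (card_le_card hsub).trans ((card_union_le _ _).trans ?_)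
  rw [card_ed]
  refine Nat.add_le_add_left ?_ _
  refine card_biUnion_le.trans ?_
  calc ∑ v ∈ S \ R, ((A5_nbr F v ∩ S).image (fun w => s(v, w))).card
      ≤ ∑ _v ∈ S \ R, k := by
        refine sum_le_sum fun v hv => card_image_le.trans ?_
        have hv' := Finset.mem_sdiff.1 hv
        exact h v hv'.1 hv'.2
    _ = (S \ R).card * k := by rw [sum_const, smul_eq_mul]
    _ ≤ S.card * k := Nat.mul_le_mul_right _ (card_le_card sdiff_subset)

/-- the number of bad sets -/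
private theorem A5_bad {N : ℕ} (F : Finset (Sym2 (Fin N))) (E E' R : Finset (Fin N))
    (G : Finset (Finset (Fin N))) (k : ℕ) (ρ D : ℝ) (hρ : 0 ≤ ρ) (hD : 0 ≤ D) (hE : E ⊆ E')
    (hS : Spr ρ (k + 1) G E) (hR : ∀ v, v ∉ R → ((A5_nbr F v).card : ℝ) ≤ D) :
    ((G.filter (fun A => ∃ v ∈ A \ E', v ∉ R ∧ k < (A5_nbr F v ∩ (A \ E')).card)).card : ℝ) ≤
      N * (D ^ k * (ρ ^ (k + 1) * G.card)) := by
  have hsub : G.filter (fun A => ∃ v ∈ A \ E', v ∉ R ∧ k < (A5_nbr F v ∩ (A \ E')).card) ⊆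
      (univ.filter (fun v => v ∉ R)).biUnion (fun v =>
        ((powersetCard k (A5_nbr F v)).filter (fun S => Disjoint (insert v S) E)).biUnion
          (fun S => sub G (insert v S))) := by
    intro A hA
    rw [mem_filter] at hA
    obtain ⟨hAG, v, hv, hvR, hk⟩ := hA
    obtain ⟨S, hS1, hS2⟩ := exists_subset_card_eq hk.le
    rw [mem_biUnion]
    refine ⟨v, mem_filter.2 ⟨mem_univ _, hvR⟩, ?_⟩
    rw [mem_biUnion]
    have hSA : insert v S ⊆ A \ E' := by
      rw [insert_subset_iff]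
      exact ⟨hv, hS1.trans inter_subset_right⟩
    refine ⟨S, mem_filter.2 ⟨mem_powersetCard.2 ⟨hS1.trans inter_subset_left, hS2⟩, ?_⟩, ?_⟩
    · rw [disjoint_left]
      intro x hx hxE
      exact (mem_sdiff.1 (hSA hx)).2 (hE hxE)
    · unfold sub
      rw [mem_filter]
      exact ⟨hAG, hSA.trans sdiff_subset⟩
  have h1 : ∀ v ∈ (univ : Finset (Fin N)).filter (fun v => v ∉ R),
      (((((powersetCard k (A5_nbr F v)).filter (fun S => Disjoint (insert v S) E)).biUnion
          (fun S => sub G (insert v S))).card : ℕ) : ℝ) ≤ D ^ k * (ρ ^ (k + 1) * G.card) := by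
    intro v hv
    rw [mem_filter] at hv
    have h2 : ∀ S ∈ (powersetCard k (A5_nbr F v)).filter (fun S => Disjoint (insert v S) E),
        ((sub G (insert v S)).card : ℝ) ≤ ρ ^ (k + 1) * G.card := by
      intro S hSm
      rw [mem_filter, mem_powersetCard] at hSm
      have hvS : v ∉ S := fun h => (A5_mem_nbr.1 (hSm.1.1 h)).1 rfl
      have hc : (insert v S).card = k + 1 := by rw [card_insert_of_notMem hvS, hSm.1.2]
      have := hS (insert v S) (insert_nonempty _ _) hSm.2 hc.le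
      rw [hc] at this
      exact this.le
    have h3 : (0:ℝ) ≤ ρ ^ (k + 1) * G.card := by positivity
    calc (((((powersetCard k (A5_nbr F v)).filter (fun S => Disjoint (insert v S) E)).biUnion
          (fun S => sub G (insert v S))).card : ℕ) : ℝ)
        ≤ ((∑ S ∈ (powersetCard k (A5_nbr F v)).filter (fun S => Disjoint (insert v S) E),
          (sub G (insert v S)).card : ℕ) : ℝ) := by exact_mod_cast card_biUnion_le
      _ = ∑ S ∈ (powersetCard k (A5_nbr F v)).filter (fun S => Disjoint (insert v S) E),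
          ((sub G (insert v S)).card : ℝ) := by push_cast; rfl
      _ ≤ ∑ S ∈ (powersetCard k (A5_nbr F v)).filter (fun S => Disjoint (insert v S) E),
          ρ ^ (k + 1) * G.card := sum_le_sum h2
      _ = (((powersetCard k (A5_nbr F v)).filter (fun S => Disjoint (insert v S) E)).card : ℝ) *
          (ρ ^ (k + 1) * G.card) := by rw [sum_const, nsmul_eq_mul]
      _ ≤ D ^ k * (ρ ^ (k + 1) * G.card) := by
          refine mul_le_mul_of_nonneg_right ?_ h3
          calc (((powersetCard k (A5_nbr F v)).filter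
                (fun S => Disjoint (insert v S) E)).card : ℝ)
              ≤ ((powersetCard k (A5_nbr F v)).card : ℝ) := by
                exact_mod_cast card_filter_le _ _
            _ = (((A5_nbr F v).card.choose k : ℕ) : ℝ) := by rw [card_powersetCard]
            _ ≤ (((A5_nbr F v).card ^ k : ℕ) : ℝ) := by exact_mod_cast Nat.choose_le_pow _ _
            _ = ((A5_nbr F v).card : ℝ) ^ k := by push_cast; rfl
            _ ≤ D ^ k := pow_le_pow_left₀ (by positivity) (hR v hv.2) _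
  calc ((G.filter (fun A => ∃ v ∈ A \ E', v ∉ R ∧ k < (A5_nbr F v ∩ (A \ E')).card)).card : ℝ)
      ≤ (((univ.filter (fun v => v ∉ R)).biUnion (fun v =>
        ((powersetCard k (A5_nbr F v)).filter (fun S => Disjoint (insert v S) E)).biUnion
          (fun S => sub G (insert v S)))).card : ℝ) := by exact_mod_cast card_le_card hsub
    _ ≤ ((∑ v ∈ univ.filter (fun v => v ∉ R),
        (((powersetCard k (A5_nbr F v)).filter (fun S => Disjoint (insert v S) E)).biUnion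
          (fun S => sub G (insert v S))).card : ℕ) : ℝ) := by exact_mod_cast card_biUnion_le
    _ = ∑ v ∈ univ.filter (fun v => v ∉ R),
        ((((powersetCard k (A5_nbr F v)).filter (fun S => Disjoint (insert v S) E)).biUnion
          (fun S => sub G (insert v S))).card : ℝ) := by push_cast; rfl
    _ ≤ ∑ v ∈ univ.filter (fun v => v ∉ R), D ^ k * (ρ ^ (k + 1) * G.card) := sum_le_sum h1
    _ = ((univ.filter (fun v : Fin N => v ∉ R)).card : ℝ) * (D ^ k * (ρ ^ (k + 1) * G.card)) := by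
        rw [sum_const, nsmul_eq_mul]
    _ ≤ N * (D ^ k * (ρ ^ (k + 1) * G.card)) := by
        refine mul_le_mul_of_nonneg_right ?_ (by positivity)
        have := card_filter_le (univ : Finset (Fin N)) (fun v => v ∉ R)
        rw [card_univ, Fintype.card_fin] at this
        exact_mod_cast this

private theorem A5_pow (N : ℕ) (hN : 1 ≤ N) (g : ℝ) (hg : 0 ≤ g) :
    (N : ℝ) * (((N:ℝ) ^ del0) ^ k0 * (((N:ℝ) ^ (-c5)) ^ (k0 + 1) * g)) ≤ (N:ℝ) ^ (-(30:ℝ)) * g := by
  have hN0 : (0:ℝ) < N := by exact_mod_cast hN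
  have hN1 : (1:ℝ) ≤ N := by exact_mod_cast hN
  rw [← Real.rpow_natCast ((N:ℝ) ^ del0) k0, ← Real.rpow_natCast ((N:ℝ) ^ (-c5)) (k0 + 1),
    ← Real.rpow_mul hN0.le, ← Real.rpow_mul hN0.le]
  have e1 : (N : ℝ) * ((N:ℝ) ^ (del0 * (k0 : ℝ)) * ((N:ℝ) ^ (-c5 * ((k0 + 1 : ℕ) : ℝ)) * g)) =
      (N:ℝ) ^ (1 + (del0 * (k0 : ℝ) + -c5 * ((k0 + 1 : ℕ) : ℝ))) * g := by
    rw [Real.rpow_add hN0, Real.rpow_add hN0, Real.rpow_one]
    ring
  rw [e1]
  refine mul_le_mul_of_nonneg_right ?_ hg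
  apply Real.rpow_le_rpow_of_exponent_le hN1
  have hk : ((k0 : ℕ) : ℝ) = 10 ^ 6 := by unfold k0; norm_num
  push_cast
  rw [hk]
  unfold del0 c5
  norm_num

private theorem A5_large (C : ℕ) : ∀ᶠ N : ℕ in atTop, 1 ≤ N ∧ 0 ≤ LL N ∧
    ((C : ℝ) + 1) / 2 ≤ Real.logb 2 (LL N) := by
  have h1 : Tendsto (fun N : ℕ => LL N) atTop atTop := by
    unfold LL
    exact (Real.tendsto_logb_atTop (by norm_num)).comp tendsto_natCast_atTop_atTop
  have h2 : Tendsto (fun N : ℕ => Real.logb 2 (LL N)) atTop atTop :=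
    (Real.tendsto_logb_atTop (by norm_num)).comp h1
  exact (eventually_ge_atTop 1).and ((h1.eventually_ge_atTop 0).and
    (h2.eventually_ge_atTop (((C : ℝ) + 1) / 2)))

theorem starStep : ∀ᶠ C : ℕ in atTop, ∀ᶠ N : ℕ in atTop, ∀ (q J : ℕ) (ν : ℝ), Reg C N q → C ≤ J →
    (J:ℝ) ≤ eta * LL N → ∀ (E E' : Finset (Fin N)) (G : Finset (Finset (Fin N)))
      (F : Finset (Sym2 (Fin N))), E ⊆ E' → (∀ A ∈ G, A.card = q) →
      Spr ((N:ℝ) ^ (-c5)) (k0 + 1) G E → (F.card : ℝ) ≤ (N:ℝ) ^ (ν + 2 * gg) / 2 →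
      ∃ R : Finset (Fin N), (R.card : ℝ) ≤ (N:ℝ) ^ (ν - del1) ∧
        ((G.filter (fun A => 0.04 * J * LL N < ((ed (A \ E') ∩ F).card : ℝ) ∧
          ((A \ E') ∩ R).card < 10 ^ 6 * J)).card : ℝ) ≤ (N:ℝ) ^ (-(30:ℝ)) * G.card := by
  filter_upwards [eventually_ge_atTop (2 * 10 ^ 9)] with C hC
  filter_upwards [A5_large C] with N hN q J ν hreg hCJ hJ E E' G F hEE hG hSpr hF
  obtain ⟨hN1, hL0, hLL⟩ := hN
  have hNpos : (0:ℝ) < N := by exact_mod_cast hN1
  obtain ⟨R, hR⟩ : ∃ R : Finset (Fin N),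
      R = univ.filter (fun v => (N:ℝ) ^ del0 ≤ ((A5_nbr F v).card : ℝ)) := ⟨_, rfl⟩
  have hmem : ∀ v, v ∈ R ↔ (N:ℝ) ^ del0 ≤ ((A5_nbr F v).card : ℝ) := by
    intro v
    rw [hR, mem_filter]
    exact ⟨fun h => h.2, fun h => ⟨mem_univ _, h⟩⟩
  refine ⟨R, ?_, ?_⟩
  · -- the size of `R`
    have h1 : (R.card : ℝ) * (N:ℝ) ^ del0 ≤ (N:ℝ) ^ (ν + 2 * gg) := by
      calc (R.card : ℝ) * (N:ℝ) ^ del0 = ∑ _v ∈ R, (N:ℝ) ^ del0 := by
            rw [sum_const, nsmul_eq_mul]
        _ ≤ ∑ v ∈ R, ((A5_nbr F v).card : ℝ) := sum_le_sum fun v hv => (hmem v).1 hv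
        _ ≤ ∑ v : Fin N, ((A5_nbr F v).card : ℝ) :=
            sum_le_sum_of_subset_of_nonneg (subset_univ _) (fun _ _ _ => by positivity)
        _ ≤ 2 * F.card := by exact_mod_cast A5_handshake F
        _ ≤ (N:ℝ) ^ (ν + 2 * gg) := by linarith
    have h2 : (N:ℝ) ^ (ν + 2 * gg) = (N:ℝ) ^ (ν - del1) * (N:ℝ) ^ del0 := by
      rw [← Real.rpow_add hNpos]
      congr 1
      unfold gg del1 del0
      ring
    rw [h2] at h1
    exact le_of_mul_le_mul_right h1 (Real.rpow_pos_of_pos hNpos _)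
  · have hbad := A5_bad F E E' R G k0 ((N:ℝ) ^ (-c5)) ((N:ℝ) ^ del0) (by positivity)
      (by positivity) hEE hSpr (fun v hv => by
        rw [hmem] at hv
        exact (not_le.1 hv).le)
    refine le_trans ?_ (hbad.trans (A5_pow N hN1 _ (by positivity)))
    have hsub : G.filter (fun A => 0.04 * J * LL N < ((ed (A \ E') ∩ F).card : ℝ) ∧
          ((A \ E') ∩ R).card < 10 ^ 6 * J) ⊆
        G.filter (fun A => ∃ v ∈ A \ E', v ∉ R ∧ k0 < (A5_nbr F v ∩ (A \ E')).card) := by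
      intro A hA
      rw [mem_filter] at hA ⊢
      obtain ⟨hAG, h1, h2⟩ := hA
      refine ⟨hAG, ?_⟩
      by_contra hcon
      push Not at hcon
      have h3 := A5_edges F (A \ E') R k0 hcon
      have hq : (A \ E').card ≤ q := (card_le_card sdiff_subset).trans (hG A hAG).le
      have hk : ((k0 : ℕ) : ℝ) = 10 ^ 6 := by unfold k0; norm_num
      have h4 : ((ed (A \ E') ∩ F).card : ℝ) ≤
          (((A \ E') ∩ R).card : ℝ) ^ 2 / 2 + (q : ℝ) * 10 ^ 6 := by
        have h5 : ((ed (A \ E') ∩ F).card : ℝ) ≤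
            ((((A \ E') ∩ R).card.choose 2 : ℕ) : ℝ) + (q : ℝ) * k0 := by
          have : (ed (A \ E') ∩ F).card ≤ ((A \ E') ∩ R).card.choose 2 + q * k0 :=
            h3.trans (Nat.add_le_add_left (Nat.mul_le_mul_right _ hq) _)
          exact_mod_cast this
        rw [hk, Nat.cast_choose_two] at h5
        have h6 : (0:ℝ) ≤ (((A \ E') ∩ R).card : ℝ) := by positivity
        linarith
      have h5 : (((A \ E') ∩ R).card : ℝ) ≤ 10 ^ 6 * J := by exact_mod_cast h2.le
      have h6 : (((A \ E') ∩ R).card : ℝ) ^ 2 ≤ (10 ^ 6 * (J:ℝ)) ^ 2 :=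
        pow_le_pow_left₀ (by positivity) h5 2
      have hJ0 : (2 * 10 ^ 9 : ℝ) ≤ J := by exact_mod_cast hC.trans hCJ
      have hq2 : (q : ℝ) ≤ 2 * LL N := by
        have := hreg.2
        linarith
      unfold eta at hJ
      have hJJ : (J:ℝ) * J ≤ J * (1 / 10 ^ 14 * LL N) := mul_le_mul_of_nonneg_left hJ (by linarith)
      have hJL : 2 * 10 ^ 9 * LL N ≤ J * LL N := mul_le_mul_of_nonneg_right hJ0 hL0
      have hJL0 : 0 ≤ J * LL N := by positivity
      have e2 : (10 ^ 6 * (J:ℝ)) ^ 2 = 10 ^ 12 * (J * J) := by ring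
      rw [e2] at h6
      norm_num at *
      nlinarith
    exact_mod_cast card_le_card hsub

end Pool.Agent.CG
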