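import Pool.Agent.CG.Basic

/-!
# CG S5: root selection

PAPER PROOF. Call e ∈ ed A good if pi e ≠ e and pi e ∈ ed A; dd σ (ed A) = number of good e.
A good e is a cherry if e and pi e share a vertex (then exactly one, since both are non-diagonal and
different), otherwise it is disjoint. If e = s(x,v) is a cherry with common vertex x then v ∈ Ra σ A x,
so ∑_x |Ra x| = #cherries (the pair (x,v) is determined by e). If e = s(x,v) is of disjoint type then
v ∈ Rb σ A x and x ∈ Rb σ A v, so ∑_x |Rb x| = 2 * #disjoint. Hence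
∑_{x ∈ A} (|Ra x|/2 + |Rb x|/4) = dd/2 and some x ∈ A has at least the average dd/(2|A|).
(Only ≥ is needed.)
-/

set_option autoImplicit false

namespace Pool.Agent.CG

open Finset

private theorem S5_mem_ed {V : Type} [DecidableEq V] {A : Finset V} {x v : V} :
    s(x, v) ∈ ed A ↔ x ∈ A ∧ v ∈ A ∧ x ≠ v := by
  unfold ed
  rw [mem_filter, mk_mem_sym2_iff, Sym2.mk_isDiag_iff]
  tauto

private theorem S5_count {V : Type} [DecidableEq V] (σ : St (Sym2 V)) (A : Finset V) :
    2 * dd σ (ed A) ≤ 2 * ∑ x ∈ A, (Ra σ A x).card + ∑ x ∈ A, (Rb σ A x).card := by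
  classical
  set D := (ed A).filter (fun e => σ.pi e ≠ e ∧ σ.pi e ∈ ed A) with hD
  set P := (A ×ˢ A).filter (fun p => s(p.1, p.2) ∈ D) with hP
  set Pa := (A.sigma (fun x => Ra σ A x)).image (fun q => (q.1, q.2)) with hPa
  set Pb := (A.sigma (fun x => Rb σ A x)).image (fun q => (q.1, q.2)) with hPb
  have hPac : Pa.card ≤ ∑ x ∈ A, (Ra σ A x).card := by
    rw [← card_sigma]
    exact card_image_le
  have hPbc : Pb.card ≤ ∑ x ∈ A, (Rb σ A x).card := by
    rw [← card_sigma]
    exact card_image_le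
  have h1 : 2 * D.card ≤ P.card := by
    have h2 : ∀ p ∈ P, s(p.1, p.2) ∈ D := fun p hp => (mem_filter.mp hp).2
    rw [card_eq_sum_card_fiberwise (f := fun p : V × V => s(p.1, p.2)) (t := D) h2]
    have h3 : ∀ e ∈ D, 2 ≤ (P.filter (fun p => s(p.1, p.2) = e)).card := by
      intro e he
      induction e using Sym2.ind with
      | h x v =>
        have h4 : s(x, v) ∈ ed A := (mem_filter.mp he).1
        rw [S5_mem_ed] at h4
        have h5 : (x, v) ∈ P.filter (fun p => s(p.1, p.2) = s(x, v)) := by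
          rw [mem_filter]
          refine ⟨mem_filter.mpr ⟨mem_product.mpr ⟨h4.1, h4.2.1⟩, he⟩, rfl⟩
        have h6 : (v, x) ∈ P.filter (fun p => s(p.1, p.2) = s(x, v)) := by
          rw [mem_filter]
          have h7 : s(v, x) = s(x, v) := Sym2.eq_swap
          refine ⟨mem_filter.mpr ⟨mem_product.mpr ⟨h4.2.1, h4.1⟩, ?_⟩, h7⟩
          show s(v, x) ∈ D
          rw [h7]
          exact he
        have h8 : (x, v) ≠ (v, x) := by
          intro h
          exact h4.2.2 (Prod.ext_iff.mp h).1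
        exact one_lt_card.mpr ⟨_, h5, _, h6, h8⟩
    calc 2 * D.card = ∑ _e ∈ D, 2 := by rw [sum_const, smul_eq_mul, mul_comm]
      _ ≤ _ := sum_le_sum h3
  have h2 : P ⊆ Pa ∪ Pa.image Prod.swap ∪ Pb := by
    intro p hp
    obtain ⟨x, v⟩ := p
    rw [hP, mem_filter] at hp
    have hxA : x ∈ A := (mem_product.mp hp.1).1
    have hvA : v ∈ A := (mem_product.mp hp.1).2
    have hed : s(x, v) ∈ ed A := (mem_filter.mp hp.2).1
    have hne : σ.pi s(x, v) ≠ s(x, v) := (mem_filter.mp hp.2).2.1
    have hin : σ.pi s(x, v) ∈ ed A := (mem_filter.mp hp.2).2.2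
    have hxv : x ≠ v := (S5_mem_ed.mp hed).2.2
    generalize hf : σ.pi s(x, v) = f at hne hin
    induction f using Sym2.ind with
    | h z w =>
      rw [S5_mem_ed] at hin
      obtain ⟨hz, hw, hzw⟩ := hin
      rw [mem_union, mem_union]
      -- membership helpers
      have hA : ∀ a b c : V, a ∈ A → b ∈ A → c ∈ A → b ≠ a → c ≠ a → c ≠ b →
          σ.pi s(a, b) = s(a, c) → (a, b) ∈ Pa := by
        intro a b c ha hb hc h1 h2 h3 h4
        rw [hPa, mem_image]
        refine ⟨⟨a, b⟩, mem_sigma.mpr ⟨ha, ?_⟩, rfl⟩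
        unfold Ra
        rw [mem_filter]
        exact ⟨hb, h1, c, hc, h2, h3, h4⟩
      by_cases hzx : z = x
      · subst hzx
        left; left
        refine hA z v w hxA hvA hw hxv.symm hzw.symm ?_ hf
        rintro rfl
        exact hne rfl
      by_cases hwx : w = x
      · subst hwx
        left; left
        refine hA w v z hxA hvA hz hxv.symm hzx ?_ (by rw [hf]; exact Sym2.eq_swap)
        rintro rfl
        exact hne Sym2.eq_swap
      by_cases hzv : z = v
      · subst hzv
        left; right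
        rw [mem_image]
        refine ⟨(z, x), ?_, rfl⟩
        exact hA z x w hvA hxA hw hxv hzw.symm hwx (by rw [Sym2.eq_swap]; exact hf)
      by_cases hwv : w = v
      · subst hwv
        left; right
        rw [mem_image]
        refine ⟨(w, x), ?_, rfl⟩
        refine hA w x z hvA hxA hz hxv hzv hzx ?_
        rw [Sym2.eq_swap, hf]
        exact Sym2.eq_swap
      · right
        rw [hPb, mem_image]
        refine ⟨⟨x, v⟩, mem_sigma.mpr ⟨hxA, ?_⟩, rfl⟩
        unfold Rb
        rw [mem_filter]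
        exact ⟨hvA, hxv.symm, z, hz, w, hw, hzw, hzx, hwx, hzv, hwv, hf⟩
  have h3 : P.card ≤ Pa.card + Pa.card + Pb.card := by
    refine (card_le_card h2).trans ((card_union_le _ _).trans ?_)
    refine Nat.add_le_add_right ((card_union_le _ _).trans ?_) _
    exact Nat.add_le_add_left card_image_le _
  have h4 : dd σ (ed A) = D.card := rfl
  rw [h4]
  omega

theorem root {V : Type} [DecidableEq V] (σ : St (Sym2 V)) (A : Finset V) (hA : A.Nonempty) :
    ∃ x ∈ A, (dd σ (ed A) : ℝ) / (2 * A.card) ≤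
      ((Ra σ A x).card : ℝ) / 2 + ((Rb σ A x).card : ℝ) / 4 := by
  have h1 := S5_count σ A
  have hc : (0 : ℝ) < A.card := by exact_mod_cast hA.card_pos
  refine exists_le_of_sum_le hA ?_
  rw [sum_const, nsmul_eq_mul, sum_add_distrib, ← sum_div, ← sum_div]
  have h2 : (2 : ℝ) * dd σ (ed A) ≤ 2 * ∑ x ∈ A, ((Ra σ A x).card : ℝ) +
      ∑ x ∈ A, ((Rb σ A x).card : ℝ) := by exact_mod_cast h1
  have h3 : (A.card : ℝ) * ((dd σ (ed A) : ℝ) / (2 * A.card)) = (dd σ (ed A) : ℝ) / 2 := by
    field_simp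
  rw [h3]
  linarith

end Pool.Agent.CG
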