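import Pool.Agent.CG.A3
import Pool.Agent.CG.A4
import Pool.Agent.CG.A5
import Pool.Agent.CG.S5

/-!
# CG A6: regime I.A

PAPER PROOF. Combine (Cert.forall / Cert.and; N^12 ≥ 200000·N^10 for N large) `rootedStep` and, for
i = 1..160000, `popStep` with ν = 1 - i del1. Let σ be a state where all hold, |E| ≤ 4J,
G ⊆ GJ σ q J nonempty, E ⊆ A for A ∈ G, and suppose Spr (N^-c5) (k0+1) G E. For A ∈ G choose a root
x(A) ∈ A by `root` (|A| = q). Some x has |G_x| ≥ |G|/N, G_x = {A ∈ G : x(A) = x}. E' = insert x E,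
|E'| ≤ 4J+1, E' ⊆ A for A ∈ G_x. F₀ from `rootedStep` (E', x); `starStep` (ν = 1, G, E, E', F₀) gives R₁,
|R₁| ≤ N^(1-del1), and all A ∈ G_x outside a set Bad₀ of size ≤ N^(-30)|G| have
|(A\E') ∩ R₁| ≥ 10^6 J. Inductively for i = 1..160000: `popStep` (ν = 1 - i del1 ≥ 0, E', R_i) gives F_i
with |ed(A\E') ∩ F_i| > 0.04JL for all A ∈ G_x with |(A\E')∩R_i| ≥ 10^6 J, and `starStep` gives R_{i+1},
|R_{i+1}| ≤ N^(1-(i+1)del1), Bad_i. At i = 160000: |R_160001| ≤ N^(-del1) < 1, so R is empty and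
10^6 J ≤ 0 fails (J ≥ C ≥ 1): all A ∈ G_x are bad: |G|/N ≤ |G_x| ≤ 160001 N^(-30)|G|, false as |G| > 0.
-/

set_option autoImplicit false

namespace Pool.Agent.CG

open Finset Filter

private theorem A6_fiber {N : ℕ} (G : Finset (Finset (Fin N))) (hG : G.Nonempty)
    (f : Finset (Fin N) → Fin N) :
    ∃ x : Fin N, (G.card : ℝ) ≤ N * ((G.filter (fun A => f A = x)).card : ℝ) := by
  by_contra hcon
  push Not at hcon
  have h1 : G.card = ∑ x : Fin N, (G.filter (fun A => f A = x)).card :=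
    card_eq_sum_card_fiberwise (f := f) (t := univ) (fun A _ => mem_univ _)
  obtain ⟨A0, _⟩ := hG
  have hN : 0 < N := (f A0).pos
  have hNr : (0 : ℝ) < N := by exact_mod_cast hN
  have h2 : (N : ℝ) * G.card < N * G.card := by
    calc (N : ℝ) * G.card = ∑ x : Fin N, (N : ℝ) * ((G.filter (fun A => f A = x)).card : ℝ) := by
          rw [← mul_sum, h1]
          push_cast
          rfl
      _ < ∑ _x : Fin N, (G.card : ℝ) := by
          apply sum_lt_sum_of_nonempty
          · exact ⟨f A0, mem_univ _⟩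
          · intro x _
            exact hcon x
      _ = N * G.card := by simp
  exact lt_irrefl _ h2

theorem regIA : ∀ᶠ C : ℕ in atTop, ∀ᶠ N : ℕ in atTop, ∀ q J : ℕ, Reg C N q → C ≤ J →
    (J:ℝ) ≤ eta * LL N →
    Cert ((N:ℝ) ^ 10) (fun σ : St (Sym2 (Fin N)) => ∀ E : Finset (Fin N), E.card ≤ 4 * J →
      ∀ G ⊆ GJ σ q J, (∀ A ∈ G, E ⊆ A) → G.Nonempty →
        ¬ Spr ((N:ℝ) ^ (-c5)) (k0 + 1) G E) := by
  filter_upwards [rootedStep, popStep, starStep, eventually_ge_atTop 1] with C hC1 hC2 hC3 hC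
  filter_upwards [hC1, hC2, hC3, eventually_ge_atTop 600] with N hN1 hN2 hN3 hN
  intro q J hreg hCJ hJ
  have hNr : (600 : ℝ) ≤ N := by exact_mod_cast hN
  have hN0 : (0 : ℝ) < N := by linarith
  have hJ1 : 1 ≤ J := hC.trans hCJ
  -- the numbers `ν`
  have hd1 : del1 = 1 / 160000 := rfl
  have hd1p : 0 < del1 := by rw [hd1]; norm_num
  -- q is positive
  have hq : 1 ≤ q := by
    have h1 := hreg.1
    have hJr : (1 : ℝ) ≤ J := by exact_mod_cast hJ1
    have hL : 0 < LL N := by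
      unfold LL
      exact Real.logb_pos (by norm_num) (by linarith)
    have h2 : Real.logb 2 (LL N) ≤ LL N := by
      rw [Real.logb_le_iff_le_rpow (by norm_num) hL]
      have h3 : (LL N : ℝ) + 1 ≤ Real.exp (LL N) := Real.add_one_le_exp _
      by_cases hL4 : LL N ≤ 1
      · calc LL N ≤ 1 := hL4
          _ ≤ (2 : ℝ) ^ (LL N) := Real.one_le_rpow (by norm_num) hL.le
      · push Not at hL4
        have h5 := one_add_mul_self_le_rpow_one_add (s := (1 : ℝ)) (p := LL N) (by norm_num)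
          hL4.le
        have h6 : (1 + 1 : ℝ) = 2 := by norm_num
        rw [h6] at h5
        linarith
    have h3 : (1 : ℝ) ≤ C := by exact_mod_cast hC
    have h4 : (1 : ℝ) ≤ q := by linarith
    exact_mod_cast h4
  have hK : (2 : ℝ) * (N : ℝ) ^ 10 ≤ (N : ℝ) ^ 12 := by
    have : (N : ℝ) ^ 12 = (N : ℝ) ^ 2 * (N : ℝ) ^ 10 := by ring
    rw [this]
    apply mul_le_mul_of_nonneg_right _ (by positivity)
    nlinarith
  have hK2 : (2 : ℝ) * (N : ℝ) ^ 10 * Fintype.card (Fin 160000) ≤ (N : ℝ) ^ 12 := by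
    rw [Fintype.card_fin]
    have : (N : ℝ) ^ 12 = (N : ℝ) ^ 2 * (N : ℝ) ^ 10 := by ring
    rw [this]
    have h2 : (320000 : ℝ) ≤ (N : ℝ) ^ 2 := by nlinarith
    have h3 : (0 : ℝ) ≤ (N : ℝ) ^ 10 := by positivity
    push_cast
    nlinarith
  have cR := (hN1 q J hreg hCJ hJ).mono hK (fun σ h => h)
  have cP : Cert (2 * (N : ℝ) ^ 10) (fun σ : St (Sym2 (Fin N)) => ∀ i : Fin 160000,
      ∀ E R : Finset (Fin N), E.card ≤ 4 * J + 1 →
      (R.card : ℝ) ≤ (N:ℝ) ^ (1 - ((i : ℕ) + 1 : ℝ) * del1) →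
      ∃ F : Finset (Sym2 (Fin N)),
        (F.card : ℝ) ≤ (N:ℝ) ^ (1 - ((i : ℕ) + 1 : ℝ) * del1 + 2 * gg) / 2 ∧
        ∀ A ∈ GJ σ q J, E ⊆ A → 10 ^ 6 * J ≤ ((A \ E) ∩ R).card →
          0.04 * J * LL N < ((ed (A \ E) ∩ F).card : ℝ)) := by
    apply Cert.forall
    intro i
    have hi : ((i : ℕ) : ℝ) + 1 ≤ 160000 := by
      have := i.2
      exact_mod_cast this
    have hi0 : (0 : ℝ) ≤ ((i : ℕ) : ℝ) := by positivity
    refine (hN2 q J (1 - ((i : ℕ) + 1 : ℝ) * del1) hreg hCJ hJ ?_ ?_).mono hK2 (fun σ h => h)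
    · rw [hd1]
      linarith
    · rw [hd1]
      linarith
  refine (cR.and cP).mono le_rfl ?_
  rintro σ ⟨hR, hP⟩ E hE G hG hEG hGne hspr
  have hcard : ∀ A ∈ G, A.card = q := by
    intro A hA
    have := hG hA
    unfold GJ at this
    rw [mem_filter, mem_powersetCard] at this
    exact this.1.2
  -- the roots
  have hroot : ∀ A : Finset (Fin N), ∃ x : Fin N, A ∈ G → x ∈ A ∧
      (dd σ (ed A) : ℝ) / (2 * q) ≤ ((Ra σ A x).card : ℝ) / 2 + ((Rb σ A x).card : ℝ) / 4 := by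
    intro A
    by_cases hA : A ∈ G
    · have hAne : A.Nonempty := by
        rw [← card_pos, hcard A hA]
        omega
      obtain ⟨x, hx, h⟩ := root σ A hAne
      rw [hcard A hA] at h
      exact ⟨x, fun _ => ⟨hx, h⟩⟩
    · exact ⟨⟨0, by omega⟩, fun h => absurd h hA⟩
  choose rt hrt using hroot
  obtain ⟨x, hx⟩ := A6_fiber G hGne rt
  set Gx := G.filter (fun A => rt A = x) with hGx
  have hGxG : Gx ⊆ G := filter_subset _ _
  set E' := insert x E with hE'
  have hE'c : E'.card ≤ 4 * J + 1 := (card_insert_le x E).trans (by omega)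
  have hxE' : x ∈ E' := mem_insert_self x E
  have hE'A : ∀ A ∈ Gx, E' ⊆ A := by
    intro A hA
    have h1 := mem_filter.mp hA
    intro y hy
    rcases mem_insert.mp hy with rfl | hy
    · rw [← h1.2]
      exact (hrt A h1.1).1
    · exact hEG A h1.1 hy
  -- the iteration
  have hiter : ∀ i : ℕ, i ≤ 160000 → ∃ R : Finset (Fin N),
      (R.card : ℝ) ≤ (N:ℝ) ^ (1 - ((i : ℕ) + 1 : ℝ) * del1) ∧
      ((Gx.filter (fun A => ((A \ E') ∩ R).card < 10 ^ 6 * J)).card : ℝ) ≤
        ((i : ℝ) + 1) * ((N:ℝ) ^ (-(30:ℝ)) * G.card) := by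
    intro i
    induction i with
    | zero =>
      intro _
      obtain ⟨F, hF1, hF2⟩ := hR E' x hxE' hE'c
      obtain ⟨R, hR1, hR2⟩ := hN3 q J 1 hreg hCJ hJ E E' G F (subset_insert x E) hcard hspr hF1
      refine ⟨R, ?_, ?_⟩
      · have : (1 - (((0 : ℕ) : ℝ) + 1) * del1) = 1 - del1 := by
          push_cast
          ring
        rw [this]
        exact hR1
      · refine le_trans ?_ (hR2.trans (le_of_eq (by push_cast; ring)))
        exact_mod_cast card_le_card (by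
          intro A hA
          rw [mem_filter] at hA ⊢
          have h1 := mem_filter.mp hA.1
          refine ⟨h1.1, ?_, hA.2⟩
          apply hF2 A (hG h1.1) (hE'A A hA.1)
          have h2 := (hrt A h1.1).2
          rw [h1.2] at h2
          exact h2)
    | succ i ih =>
      intro hi
      obtain ⟨R, hR1, hR2⟩ := ih (by omega)
      obtain ⟨F, hF1, hF2⟩ := hP ⟨i, by omega⟩ E' R hE'c hR1
      obtain ⟨R', hR1', hR2'⟩ := hN3 q J (1 - ((i : ℕ) + 1 : ℝ) * del1) hreg hCJ hJ E E' G F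
        (subset_insert x E) hcard hspr hF1
      refine ⟨R', ?_, ?_⟩
      · have : (1 - (((i + 1 : ℕ) : ℝ) + 1) * del1) = 1 - ((i : ℕ) + 1 : ℝ) * del1 - del1 := by
          push_cast
          ring
        rw [this]
        exact hR1'
      · have h1 : Gx.filter (fun A => ((A \ E') ∩ R').card < 10 ^ 6 * J) ⊆
            Gx.filter (fun A => ((A \ E') ∩ R).card < 10 ^ 6 * J) ∪
            G.filter (fun A => 0.04 * J * LL N < ((ed (A \ E') ∩ F).card : ℝ) ∧
              ((A \ E') ∩ R').card < 10 ^ 6 * J) := by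
          intro A hA
          rw [mem_filter] at hA
          rw [mem_union]
          by_cases h2 : ((A \ E') ∩ R).card < 10 ^ 6 * J
          · exact Or.inl (mem_filter.mpr ⟨hA.1, h2⟩)
          · right
            push Not at h2
            have h3 := hGxG hA.1
            exact mem_filter.mpr ⟨h3, hF2 A (hG h3) (hE'A A hA.1) h2, hA.2⟩
        have h2 := (card_le_card h1).trans (card_union_le _ _)
        have h3 : ((Gx.filter (fun A => ((A \ E') ∩ R').card < 10 ^ 6 * J)).card : ℝ) ≤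
            ((Gx.filter (fun A => ((A \ E') ∩ R).card < 10 ^ 6 * J)).card : ℝ) +
            ((G.filter (fun A => 0.04 * J * LL N < ((ed (A \ E') ∩ F).card : ℝ) ∧
              ((A \ E') ∩ R').card < 10 ^ 6 * J)).card : ℝ) := by exact_mod_cast h2
        refine h3.trans ((add_le_add hR2 hR2').trans (le_of_eq ?_))
        push_cast
        ring
  obtain ⟨R, hR1, hR2⟩ := hiter 160000 le_rfl
  have hR0 : R = ∅ := by
    rw [← card_eq_zero]
    have h1 : (R.card : ℝ) < 1 := by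
      refine lt_of_le_of_lt hR1 ?_
      apply Real.rpow_lt_one_of_one_lt_of_neg (by linarith)
      rw [hd1]
      norm_num
    have h2 : R.card < 1 := by exact_mod_cast h1
    omega
  have hall : Gx.filter (fun A => ((A \ E') ∩ R).card < 10 ^ 6 * J) = Gx := by
    apply filter_true_of_mem
    intro A _
    rw [hR0, inter_empty, card_empty]
    omega
  rw [hall] at hR2
  have hGpos : (0 : ℝ) < G.card := by exact_mod_cast card_pos.mpr hGne
  have h1 : (N : ℝ) ^ (-(30:ℝ)) = ((N : ℝ) ^ 30)⁻¹ := by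
    rw [Real.rpow_neg hN0.le]
    norm_cast
  have h2 : (G.card : ℝ) ≤ N * ((((160000 : ℕ) : ℝ) + 1) * ((N:ℝ) ^ (-(30:ℝ)) * G.card)) :=
    hx.trans (mul_le_mul_of_nonneg_left hR2 hN0.le)
  have h3 : (N : ℝ) * ((((160000 : ℕ) : ℝ) + 1) * ((N:ℝ) ^ (-(30:ℝ)) * G.card)) =
      (160001 / (N : ℝ) ^ 29) * G.card := by
    rw [h1]
    push_cast
    field_simp
    norm_num
  rw [h3] at h2
  have h4 : (160001 : ℝ) / (N : ℝ) ^ 29 < 1 := by
    rw [div_lt_one (by positivity)]
    calc (160001 : ℝ) < 600 ^ 2 := by norm_num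
      _ ≤ (N : ℝ) ^ 2 := by gcongr
      _ ≤ (N : ℝ) ^ 29 := pow_le_pow_right₀ (by linarith) (by norm_num)
  nlinarith

end Pool.Agent.CG
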