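import Pool.Agent.CG.Ed

/-!
# CG B0: tools for several members of a family (Jensen, double counting)

PAPER PROOF.
`jensen`: AM-GM / convexity of 2^x: ∑_{i∈S} 2^(g i) ≥ |S| 2^(avg g).
`sumInter`: G a family of vertex sets all containing E; for e ∉ ed E let n_e = #{A ∈ G : e ∈ ed A}.
∑_{A,A'∈G} |ed A ∩ ed A' \ ed E| = ∑_{e ∉ ed E} n_e² and an edge e ∈ ed A \ ed E has an endpoint
v ∉ E, so n_e ≤ |sub G {v}| ≤ ρ |G| (Spr with V' = {v}); ∑_e n_e = ∑_A |ed A \ ed E|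
= |G| (C(q,2) - C(k,2)).
`crossSum`: ∑_{A,A'} #{e ∈ ed A \ ed E : pi e ≠ e, pi e ∈ ed A' \ ed E} = ∑_e n_e n_{pi e} ≤
∑_e (n_e² + n_{pi e}²)/2 = ∑_e n_e² (pi is a bijection) = ∑_{A,A'} |(ed A ∩ ed A') \ ed E|.
`vertSum`: ∑_{A,A'} |(A ∩ A') \ E| = ∑_{v∉E} |sub G {v}|² ≤ ρ|G| ∑_v |sub G {v}| = ρ |G|² (q - |E|).
`pairSum`: ∑_{A,A'} C(|(A∩A')\E|, 2) = ∑_{V' ⊆ V\E, |V'|=2} |sub G V'|² ≤ ρ² |G| * ∑_{V'} |sub G V'|
= ρ² |G|² C(q-|E|,2).
`tailCount`: #{(A,A') : |(A∩A')\E| ≥ t} ≤ ∑_A ∑_{V' ⊆ A\E, |V'|=t} |sub G V'| ≤ C(q-|E|,t) ρ^t |G|²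
≤ 2^(q-|E|) ρ^t |G|² (t ≥ 1; for t = 0 trivial).
-/

set_option autoImplicit false

namespace Pool.Agent.CG

open Finset

theorem jensen {ι : Type} (S : Finset ι) (hS : S.Nonempty) (g : ι → ℝ) :
    (S.card : ℝ) * (2:ℝ) ^ ((∑ i ∈ S, g i) / S.card) ≤ ∑ i ∈ S, (2:ℝ) ^ (g i) := by
  have hc : (S.card : ℝ) ≠ 0 := by exact_mod_cast hS.card_ne_zero
  set a : ℝ := (∑ i ∈ S, g i) / S.card with ha
  have h1 : ∀ i ∈ S, (2:ℝ) ^ a * (1 + Real.log 2 * (g i - a)) ≤ (2:ℝ) ^ (g i) := by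
    intro i _
    have h2 : (2:ℝ) ^ (g i) = (2:ℝ) ^ a * Real.exp (Real.log 2 * (g i - a)) := by
      rw [← Real.rpow_def_of_pos (by norm_num), ← Real.rpow_add (by norm_num)]
      congr 1
      ring
    rw [h2]
    refine mul_le_mul_of_nonneg_left ?_ (by positivity)
    have := Real.add_one_le_exp (Real.log 2 * (g i - a))
    linarith
  have h3 : ∑ i ∈ S, (2:ℝ) ^ a * (1 + Real.log 2 * (g i - a)) = (S.card : ℝ) * (2:ℝ) ^ a := by
    have h4 : ∑ i ∈ S, (g i - a) = 0 := by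
      rw [sum_sub_distrib, sum_const, nsmul_eq_mul, ha]
      field_simp
      ring
    rw [← mul_sum, sum_add_distrib, ← mul_sum, h4, sum_const, nsmul_eq_mul]
    ring
  rw [← h3]
  exact sum_le_sum h1

/-! ### Double counting -/

private theorem B0_count {V X : Type} [DecidableEq V] [DecidableEq X] (G : Finset (Finset V))
    (f : Finset V → Finset X) (H : Finset X) :
    ∑ A' ∈ G, (H ∩ f A').card = ∑ x ∈ H, (G.filter (fun A' => x ∈ f A')).card := by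
  have h1 : ∀ A' ∈ G, (H ∩ f A').card = ∑ x ∈ H, if x ∈ f A' then 1 else 0 := by
    intro A' _
    rw [← filter_mem_eq_inter, card_filter]
  rw [sum_congr rfl h1, sum_comm]
  refine sum_congr rfl fun x _ => ?_
  rw [card_filter]

private theorem B0_gen {V X : Type} [DecidableEq V] [DecidableEq X] (G : Finset (Finset V))
    (f : Finset V → Finset X) (c : ℝ)
    (hc : ∀ A ∈ G, ∀ x ∈ f A, ((G.filter (fun A' => x ∈ f A')).card : ℝ) ≤ c) :
    (∑ A ∈ G, ∑ A' ∈ G, ((f A ∩ f A').card : ℝ)) ≤ c * ∑ A ∈ G, ((f A).card : ℝ) := by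
  rw [mul_sum]
  refine sum_le_sum fun A hA => ?_
  have h1 : (∑ A' ∈ G, ((f A ∩ f A').card : ℝ)) =
      ∑ x ∈ f A, ((G.filter (fun A' => x ∈ f A')).card : ℝ) := by
    have := B0_count G f (f A)
    exact_mod_cast this
  rw [h1]
  calc ∑ x ∈ f A, ((G.filter (fun A' => x ∈ f A')).card : ℝ) ≤ ∑ _x ∈ f A, c :=
        sum_le_sum fun x hx => hc A hA x hx
    _ = c * ((f A).card : ℝ) := by rw [sum_const, nsmul_eq_mul]; ring

private theorem B0_spr {N : ℕ} {ρ : ℝ} {G : Finset (Finset (Fin N))} {E : Finset (Fin N)}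
    (hS : Spr ρ N G E) {V' : Finset (Fin N)} (h1 : V'.Nonempty) (h2 : Disjoint V' E)
    (P : Finset (Fin N) → Prop) [DecidablePred P] (hP : ∀ A ∈ G, P A → V' ⊆ A) :
    ((G.filter P).card : ℝ) ≤ ρ ^ V'.card * (G.card : ℝ) := by
  have h3 := hS V' h1 h2 ((card_le_univ V').trans (by simp))
  refine le_trans ?_ h3.le
  have h4 : G.filter P ⊆ sub G V' := by
    intro A hA
    rw [mem_filter] at hA
    unfold sub
    exact mem_filter.2 ⟨hA.1, hP A hA.1 hA.2⟩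
  exact_mod_cast card_le_card h4

theorem sumInter {N : ℕ} {ρ : ℝ} (hρ : 0 ≤ ρ) (G : Finset (Finset (Fin N))) (E : Finset (Fin N)) (q : ℕ)
    (hq : ∀ A ∈ G, A.card = q) (hE : ∀ A ∈ G, E ⊆ A) (hS : Spr ρ N G E) :
    (∑ A ∈ G, ∑ A' ∈ G, (((ed A ∩ ed A') \ ed E).card : ℝ)) ≤
      ρ * (G.card : ℝ) ^ 2 * ((q.choose 2 : ℝ) - (E.card.choose 2 : ℝ)) := by
  have h1 : ∀ A A' : Finset (Fin N), (ed A ∩ ed A') \ ed E = (ed A \ ed E) ∩ (ed A' \ ed E) := by
    intro A A'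
    ext e
    simp only [mem_sdiff, mem_inter]
    tauto
  simp only [h1]
  have h2 := B0_gen G (fun A => ed A \ ed E) (ρ * (G.card : ℝ)) ?_
  · refine h2.trans (le_of_eq ?_)
    have h3 : ∀ A ∈ G, ((ed A \ ed E).card : ℝ) = (q.choose 2 : ℝ) - (E.card.choose 2 : ℝ) := by
      intro A hA
      have h4 := card_sdiff_add_card_eq_card (ed_subset (hE A hA))
      rw [card_ed, card_ed, hq A hA] at h4
      rw [← h4]
      push_cast
      ring
    rw [sum_congr rfl h3, sum_const, nsmul_eq_mul]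
    ring
  · intro A _ x hx
    induction x using Sym2.ind with
    | _ a b =>
      simp only [mem_sdiff, mk_mem_ed] at hx
      obtain ⟨⟨ha, hb, hab⟩, hn⟩ := hx
      have h5 : ∃ v, v ∉ E ∧ (v = a ∨ v = b) := by
        by_cases h6 : a ∈ E
        · refine ⟨b, fun h7 => hn ⟨h6, h7, hab⟩, Or.inr rfl⟩
        · exact ⟨a, h6, Or.inl rfl⟩
      obtain ⟨v, hv, hvab⟩ := h5
      have h6 := B0_spr hS (V' := {v}) (singleton_nonempty v)
        (disjoint_singleton_left.2 hv) (fun A' => s(a, b) ∈ ed A' \ ed E) ?_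
      · simpa using h6
      · intro A' _ h7
        rw [mem_sdiff, mk_mem_ed] at h7
        rw [singleton_subset_iff]
        rcases hvab with rfl | rfl
        · exact h7.1.1
        · exact h7.1.2.1

theorem crossSum {N : ℕ} (σ : St (Sym2 (Fin N))) (G : Finset (Finset (Fin N))) (E : Finset (Fin N)) :
    (∑ A ∈ G, ∑ A' ∈ G, ((ed A \ ed E).filter
        (fun e => σ.pi e ≠ e ∧ σ.pi e ∈ ed A' \ ed E)).card) ≤
      ∑ A ∈ G, ∑ A' ∈ G, ((ed A ∩ ed A') \ ed E).card := by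
  classical
  set n : Sym2 (Fin N) → ℕ := fun e => (G.filter (fun A => e ∈ ed A \ ed E)).card with hn
  have key : ∀ τ : Sym2 (Fin N) → Sym2 (Fin N),
      ∑ A ∈ G, ∑ A' ∈ G, ((ed A \ ed E).filter (fun e => τ e ∈ ed A' \ ed E)).card =
        ∑ e, n e * n (τ e) := by
    intro τ
    have h1 : ∀ A ∈ G, ∀ A' ∈ G, ((ed A \ ed E).filter (fun e => τ e ∈ ed A' \ ed E)).card =
        ∑ e, (if e ∈ ed A \ ed E then 1 else 0) * (if τ e ∈ ed A' \ ed E then 1 else 0) := by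
      intro A _ A' _
      rw [card_filter]
      simp only [ite_mul, one_mul, zero_mul]
      rw [← sum_filter (s := univ) (p := fun e => e ∈ ed A \ ed E)]
      refine sum_congr ?_ fun _ _ => rfl
      ext e
      simp
    rw [sum_congr rfl fun A hA => sum_congr rfl fun A' hA' => h1 A hA A' hA']
    rw [sum_congr rfl fun A _ => sum_comm, sum_comm]
    refine sum_congr rfl fun e _ => ?_
    rw [hn]
    simp only [card_filter]
    rw [sum_mul_sum]
  have h2 : ∑ A ∈ G, ∑ A' ∈ G, ((ed A \ ed E).filter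
        (fun e => σ.pi e ≠ e ∧ σ.pi e ∈ ed A' \ ed E)).card ≤
      ∑ A ∈ G, ∑ A' ∈ G, ((ed A \ ed E).filter (fun e => σ.pi e ∈ ed A' \ ed E)).card := by
    refine sum_le_sum fun A _ => sum_le_sum fun A' _ => card_le_card ?_
    intro e he
    rw [mem_filter] at he ⊢
    exact ⟨he.1, he.2.2⟩
  have h3 : ∑ A ∈ G, ∑ A' ∈ G, ((ed A ∩ ed A') \ ed E).card = ∑ e, n e * n e := by
    have h4 := key id
    simp only [id] at h4
    rw [← h4]
    refine sum_congr rfl fun A _ => sum_congr rfl fun A' _ => ?_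
    congr 1
    ext e
    simp only [mem_sdiff, mem_inter, mem_filter]
    tauto
  refine h2.trans ?_
  rw [key σ.pi, h3]
  have h5 : ∑ e, n (σ.pi e) * n (σ.pi e) = ∑ e, n e * n e :=
    Equiv.sum_comp (Function.Involutive.toPerm σ.pi σ.inv) (fun e => n e * n e)
  have h6 : 2 * ∑ e, n e * n (σ.pi e) ≤ ∑ e, n e * n e + ∑ e, n (σ.pi e) * n (σ.pi e) := by
    rw [mul_sum, ← sum_add_distrib]
    refine sum_le_sum fun e _ => ?_
    have h7 := two_mul_le_add_sq (n e) (n (σ.pi e))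
    nlinarith [h7]
  rw [h5] at h6
  omega

theorem vertSum {N : ℕ} {ρ : ℝ} (hρ : 0 ≤ ρ) (G : Finset (Finset (Fin N))) (E : Finset (Fin N)) (q : ℕ)
    (hq : ∀ A ∈ G, A.card = q) (hE : ∀ A ∈ G, E ⊆ A) (hS : Spr ρ N G E) :
    (∑ A ∈ G, ∑ A' ∈ G, (((A ∩ A') \ E).card : ℝ)) ≤
      ρ * (G.card : ℝ) ^ 2 * ((q : ℝ) - E.card) := by
  have h1 : ∀ A A' : Finset (Fin N), (A ∩ A') \ E = (A \ E) ∩ (A' \ E) := by
    intro A A'
    ext e
    simp only [mem_sdiff, mem_inter]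
    tauto
  simp only [h1]
  have h2 := B0_gen G (fun A => A \ E) (ρ * (G.card : ℝ)) ?_
  · refine h2.trans (le_of_eq ?_)
    have h3 : ∀ A ∈ G, ((A \ E).card : ℝ) = (q : ℝ) - E.card := by
      intro A hA
      have h4 := card_sdiff_add_card_eq_card (hE A hA)
      rw [hq A hA] at h4
      rw [← h4]
      push_cast
      ring
    rw [sum_congr rfl h3, sum_const, nsmul_eq_mul]
    ring
  · intro A _ v hv
    rw [mem_sdiff] at hv
    have h6 := B0_spr hS (V' := {v}) (singleton_nonempty v)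
      (disjoint_singleton_left.2 hv.2) (fun A' => v ∈ A' \ E) ?_
    · simpa using h6
    · intro A' _ h7
      rw [singleton_subset_iff]
      exact (mem_sdiff.1 h7).1

private theorem B0_pow {N : ℕ} {ρ : ℝ} (G : Finset (Finset (Fin N))) (E : Finset (Fin N)) (q : ℕ)
    (hq : ∀ A ∈ G, A.card = q) (hE : ∀ A ∈ G, E ⊆ A) (hS : Spr ρ N G E) (t : ℕ) (ht : 1 ≤ t) :
    (∑ A ∈ G, ∑ A' ∈ G, ((((A ∩ A') \ E).card.choose t : ℕ) : ℝ)) ≤
      ρ ^ t * (G.card : ℝ) ^ 2 * ((q - E.card).choose t : ℝ) := by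
  have h1 : ∀ A A' : Finset (Fin N), ((A ∩ A') \ E).card.choose t =
      (powersetCard t (A \ E) ∩ powersetCard t (A' \ E)).card := by
    intro A A'
    rw [← card_powersetCard]
    congr 1
    ext B
    simp only [mem_powersetCard, mem_inter]
    constructor
    · rintro ⟨h2, h3⟩
      exact ⟨⟨h2.trans (sdiff_subset_sdiff inter_subset_left (le_refl _)), h3⟩,
        ⟨h2.trans (sdiff_subset_sdiff inter_subset_right (le_refl _)), h3⟩⟩
    · rintro ⟨⟨h2, h3⟩, ⟨h4, _⟩⟩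
      refine ⟨fun x hx => ?_, h3⟩
      have h5 := mem_sdiff.1 (h2 hx)
      have h6 := mem_sdiff.1 (h4 hx)
      exact mem_sdiff.2 ⟨mem_inter.2 ⟨h5.1, h6.1⟩, h5.2⟩
  simp only [h1]
  have h2 := B0_gen G (fun A => powersetCard t (A \ E)) (ρ ^ t * (G.card : ℝ)) ?_
  · refine h2.trans (le_of_eq ?_)
    have h3 : ∀ A ∈ G, ((powersetCard t (A \ E)).card : ℝ) = ((q - E.card).choose t : ℝ) := by
      intro A hA
      rw [card_powersetCard, card_sdiff_of_subset (hE A hA), hq A hA]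
    rw [sum_congr rfl h3, sum_const, nsmul_eq_mul]
    ring
  · intro A _ B hB
    rw [mem_powersetCard] at hB
    have h6 := B0_spr hS (V' := B) (card_pos.1 (by omega))
      (disjoint_left.2 fun x hx hx' => (mem_sdiff.1 (hB.1 hx)).2 hx')
      (fun A' => B ∈ powersetCard t (A' \ E)) ?_
    · rw [hB.2] at h6
      exact h6
    · intro A' _ h7
      exact (mem_powersetCard.1 h7).1.trans sdiff_subset

theorem pairSum {N : ℕ} {ρ : ℝ} (hρ : 0 ≤ ρ) (G : Finset (Finset (Fin N))) (E : Finset (Fin N)) (q : ℕ)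
    (hq : ∀ A ∈ G, A.card = q) (hE : ∀ A ∈ G, E ⊆ A) (hS : Spr ρ N G E) :
    (∑ A ∈ G, ∑ A' ∈ G, ((((A ∩ A') \ E).card.choose 2 : ℕ) : ℝ)) ≤
      ρ ^ 2 * (G.card : ℝ) ^ 2 * ((q - E.card).choose 2 : ℝ) :=
  B0_pow G E q hq hE hS 2 (by norm_num)

theorem tailCount {N : ℕ} {ρ : ℝ} (hρ : 0 ≤ ρ) (G : Finset (Finset (Fin N))) (E : Finset (Fin N)) (q : ℕ)
    (hq : ∀ A ∈ G, A.card = q) (hE : ∀ A ∈ G, E ⊆ A) (hS : Spr ρ N G E) (t : ℕ) :
    (((G ×ˢ G).filter (fun p => t ≤ ((p.1 ∩ p.2) \ E).card)).card : ℝ) ≤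
      (2:ℝ) ^ (q - E.card) * ρ ^ t * (G.card : ℝ) ^ 2 := by
  have h2p : (1 : ℝ) ≤ (2:ℝ) ^ (q - E.card) := one_le_pow₀ (by norm_num)
  rcases Nat.eq_zero_or_pos t with ht | ht
  · subst ht
    have h1 : (((G ×ˢ G).filter (fun p => 0 ≤ ((p.1 ∩ p.2) \ E).card)).card : ℝ) ≤
        (G.card : ℝ) ^ 2 := by
      have := card_filter_le (G ×ˢ G) (fun p => 0 ≤ ((p.1 ∩ p.2) \ E).card)
      rw [card_product] at this
      have h3 : (((G ×ˢ G).filter (fun p => 0 ≤ ((p.1 ∩ p.2) \ E).card)).card : ℝ) ≤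
          ((G.card * G.card : ℕ) : ℝ) := by exact_mod_cast this
      refine h3.trans (le_of_eq ?_)
      push_cast
      ring
    refine h1.trans ?_
    rw [pow_zero, mul_one]
    exact le_mul_of_one_le_left (by positivity) h2p
  · have h1 := B0_pow G E q hq hE hS t ht
    have h3 : (((G ×ˢ G).filter (fun p => t ≤ ((p.1 ∩ p.2) \ E).card)).card : ℝ) ≤
        ∑ A ∈ G, ∑ A' ∈ G, ((((A ∩ A') \ E).card.choose t : ℕ) : ℝ) := by
      rw [card_filter, sum_product]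
      push_cast
      refine sum_le_sum fun A _ => sum_le_sum fun A' _ => ?_
      split_ifs with h
      · have := Nat.choose_pos h
        exact_mod_cast this
      · positivity
    refine (h3.trans h1).trans ?_
    have h4 : ((q - E.card).choose t : ℝ) ≤ (2:ℝ) ^ (q - E.card) := by
      exact_mod_cast Nat.choose_le_two_pow (q - E.card) t
    calc ρ ^ t * (G.card : ℝ) ^ 2 * ((q - E.card).choose t : ℝ)
        ≤ ρ ^ t * (G.card : ℝ) ^ 2 * (2:ℝ) ^ (q - E.card) :=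
          mul_le_mul_of_nonneg_left h4 (by positivity)
      _ = (2:ℝ) ^ (q - E.card) * ρ ^ t * (G.card : ℝ) ^ 2 := by ring

end Pool.Agent.CG
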