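import Pool.Agent.CG.B1n

/-!
# CG B1: regime I.B1

PAPER PROOF. For every k (≤ N) combine `pairStep N k (q-k) (N^20)` (Cert.forall). Let σ, E, G be as in the
statement, k = |E|, m = q - k ≥ 10J, and suppose Spr ρ N G E, ρ = 2^(-kap9 J). Let g = |G| and
xb = g⁻² ∑∑ |(A∩A')\E|, cb = g⁻² ∑∑ C(|(A∩A')\E|,2). `vertSum`: xb ≤ ρ m; `pairSum`: cb ≤ ρ² C(m,2).
cb ≤ 0.1 L xb + 1: for X ≤ 0.2L: C(X,2) ≤ X²/2 ≤ 0.1 L X; the pairs with X > 0.2L contribute at most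
C(m,2) * 2^m ρ^t with t = ⌈0.2L⌉ (`tailCount`), and m² 2^m 2^(-kap9 J * 0.2 L) ≤ 1 because m ≤ 2L and
kap9 * 0.2 * J ≥ 3 for J ≥ C large. `crossSum`: g⁻² ∑∑ cross ≤ g⁻² ∑∑ |(ed A ∩ ed A')\ed E| =
g⁻² ∑∑ (C(k+X,2) - C(k,2)) = k xb + cb (|A ∩ A'| = k + X, `ed_inter`, `card_ed`).
`lw_pair` (d = 2(J+1)q, u = uJ) summed over G×G, `logDX` and `pairStep`:
 2 log₂ g + avg(lw - log₂ DX) ≤ 2 log₂(m+1) + 20 L ≤ 26L - 1, while by `numB1` avg(lw - log₂ DX) > 26L.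
-/

set_option autoImplicit false

namespace Pool.Agent.CG

open Finset Filter

private theorem B1_inter {V : Type} [DecidableEq V] (A A' E : Finset V) (hE : E ⊆ A) (hE' : E ⊆ A') :
    (((ed A ∩ ed A') \ ed E).card : ℝ) =
      E.card * ((A ∩ A') \ E).card + (((A ∩ A') \ E).card.choose 2 : ℝ) := by
  have hEA : E ⊆ A ∩ A' := subset_inter hE hE'
  have h1 : ((ed A ∩ ed A') \ ed E).card + (ed E).card = (ed A ∩ ed A').card := by
    rw [← ed_inter]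
    exact card_sdiff_add_card_eq_card (ed_subset hEA)
  have h2 : (A ∩ A').card = E.card + ((A ∩ A') \ E).card := by
    rw [add_comm]; exact (card_sdiff_add_card_eq_card hEA).symm
  rw [← ed_inter, card_ed, card_ed, h2] at h1
  have h3 : (((ed A ∩ ed A') \ ed E).card : ℝ) + (E.card.choose 2 : ℝ) =
      ((E.card + ((A ∩ A') \ E).card).choose 2 : ℝ) := by
    rw [← ed_inter]
    exact_mod_cast h1
  rw [Nat.cast_choose_two, Nat.cast_choose_two] at h3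
  rw [Nat.cast_choose_two]
  push_cast at h3 ⊢
  linarith

private theorem B1_tail {N J : ℕ} {ρ : ℝ} (hJ : 100 ≤ kap9 * J) (hL : 0 ≤ LL N)
    (hρ : ρ = (2:ℝ) ^ (-(kap9 * J))) (G : Finset (Finset (Fin N))) (E : Finset (Fin N)) (q m : ℕ)
    (hq : ∀ A ∈ G, A.card = q) (hGE : ∀ A ∈ G, E ⊆ A) (hS : Spr ρ N G E)
    (hm : m = q - E.card) (hm2L : (m:ℝ) ≤ 2 * LL N) :
    (∑ A ∈ G, ∑ A' ∈ G, ((((A ∩ A') \ E).card.choose 2 : ℕ) : ℝ)) ≤
      0.1 * LL N * (∑ A ∈ G, ∑ A' ∈ G, (((A ∩ A') \ E).card : ℝ)) + (G.card : ℝ) ^ 2 := by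
  have hρ0 : 0 ≤ ρ := by rw [hρ]; positivity
  have hXm : ∀ A ∈ G, ∀ A' ∈ G, ((A ∩ A') \ E).card ≤ m := by
    intro A hA A' _
    have h4 : ((A ∩ A') \ E).card ≤ (A \ E).card :=
      card_le_card (sdiff_subset_sdiff inter_subset_left le_rfl)
    rw [card_sdiff_of_subset (hGE A hA), hq A hA] at h4
    omega
  set t := ⌈0.2 * LL N⌉₊ with ht
  have htl := tailCount hρ0 G E q hq hGE hS t
  have hpt : ∀ A ∈ G, ∀ A' ∈ G, ((((A ∩ A') \ E).card.choose 2 : ℕ) : ℝ) ≤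
      0.1 * LL N * (((A ∩ A') \ E).card : ℝ) +
        (if t ≤ ((A ∩ A') \ E).card then (2:ℝ) ^ m else 0) := by
    intro A hA A' hA'
    have hXm' := hXm A hA A' hA'
    generalize ((A ∩ A') \ E).card = X at hXm' ⊢
    by_cases htX : t ≤ X
    · rw [if_pos htX]
      have h5 : ((X.choose 2 : ℕ) : ℝ) ≤ (2:ℝ) ^ m := by
        have h6 : X.choose 2 ≤ 2 ^ X := Nat.choose_le_two_pow X 2
        have h7 : 2 ^ X ≤ 2 ^ m := Nat.pow_le_pow_right (by norm_num) hXm'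
        exact_mod_cast h6.trans h7
      have : 0 ≤ 0.1 * LL N * (X : ℝ) := mul_nonneg (mul_nonneg (by norm_num) hL) (Nat.cast_nonneg _)
      linarith
    · rw [if_neg htX]
      push Not at htX
      have h5 : (X:ℝ) < 0.2 * LL N := Nat.lt_ceil.1 htX
      rw [Nat.cast_choose_two]
      have h6 : (0:ℝ) ≤ X := Nat.cast_nonneg _
      nlinarith
  have hsum : (∑ A ∈ G, ∑ A' ∈ G, ((((A ∩ A') \ E).card.choose 2 : ℕ) : ℝ)) ≤
      0.1 * LL N * (∑ A ∈ G, ∑ A' ∈ G, (((A ∩ A') \ E).card : ℝ)) + (2:ℝ) ^ m *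
      (((G ×ˢ G).filter (fun p => t ≤ ((p.1 ∩ p.2) \ E).card)).card : ℝ) := by
    refine le_trans (sum_le_sum fun A hA => sum_le_sum fun A' hA' => hpt A hA A' hA') (le_of_eq ?_)
    simp only [sum_add_distrib, ← mul_sum]
    congr 1
    rw [card_filter, Nat.cast_sum, sum_product, mul_sum]
    refine sum_congr rfl fun A _ => ?_
    rw [mul_sum]
    refine sum_congr rfl fun A' _ => ?_
    by_cases h : t ≤ ((A ∩ A') \ E).card
    · simp [h]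
    · simp [h]
  have hsmall : (2:ℝ) ^ m * ((2:ℝ) ^ (q - E.card) * ρ ^ t) ≤ 1 := by
    have h8 : ρ ^ t = (2:ℝ) ^ (-(kap9 * J) * t) := by
      rw [hρ, ← Real.rpow_natCast, ← Real.rpow_mul (by norm_num)]
    rw [h8, ← hm, ← Real.rpow_natCast 2 m, ← Real.rpow_add (by norm_num),
      ← Real.rpow_add (by norm_num)]
    apply Real.rpow_le_one_of_one_le_of_nonpos (by norm_num)
    have h9 : 0.2 * LL N ≤ (t:ℝ) := Nat.le_ceil _
    nlinarith
  have h11 : (2:ℝ) ^ m * (((G ×ˢ G).filter (fun p => t ≤ ((p.1 ∩ p.2) \ E).card)).card : ℝ)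
      ≤ (G.card : ℝ) ^ 2 := by
    have h12 : (2:ℝ) ^ m * (((G ×ˢ G).filter (fun p => t ≤ ((p.1 ∩ p.2) \ E).card)).card : ℝ)
        ≤ (2:ℝ) ^ m * ((2:ℝ) ^ (q - E.card) * ρ ^ t * (G.card : ℝ) ^ 2) :=
          mul_le_mul_of_nonneg_left htl (by positivity)
    have h13 := mul_le_mul_of_nonneg_right hsmall (sq_nonneg (G.card : ℝ))
    linarith
  linarith

theorem regIB1 : ∀ᶠ C : ℕ in atTop, ∀ᶠ N : ℕ in atTop, ∀ q J : ℕ, Reg C N q → C ≤ J →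
    (J:ℝ) ≤ eta * LL N →
    Cert ((N:ℝ) ^ 10) (fun σ : St (Sym2 (Fin N)) => ∀ E : Finset (Fin N), (3.9:ℝ) * J ≤ E.card →
      E.card + 10 * J ≤ q → ∀ G ⊆ GJ σ q J, (∀ A ∈ G, E ⊆ A) → G.Nonempty →
        ¬ Spr ((2:ℝ) ^ (-(kap9 * J))) N G E) := by
  filter_upwards [numB1, regNum, eventually_ge_atTop 1000000] with C h1 h2 hC
  filter_upwards [h1, h2, logDX, eventually_ge_atTop 16] with N h1 h2 h3 hN
  intro q J hreg hCJ hJ
  have hnum := h1 q J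
  obtain ⟨hq1, hq2, hL, -⟩ := h2 q hreg
  have hN4 : (16:ℝ) ≤ N := by exact_mod_cast hN
  have hLpos : 0 < LL N := lt_of_lt_of_le (by positivity) hL
  have hLN : LL N ≤ N := by
    unfold LL
    rw [Real.logb_le_iff_le_rpow (by norm_num) (by linarith)]
    have := one_add_mul_self_le_rpow_one_add (s := 1) (p := (N:ℝ)) (by norm_num) (by linarith)
    norm_num at this ⊢
    linarith
  have hNpow : (N:ℝ) = (2:ℝ) ^ (LL N) := by
    unfold LL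
    rw [Real.rpow_logb (by norm_num) (by norm_num) (by linarith)]
  have hcert : Cert ((N:ℝ) ^ 10) (fun σ : St (Sym2 (Fin N)) => ∀ k : Fin (q + 1),
      ∀ E : Finset (Fin N), E.card = (k:ℕ) →
      ∀ G : Finset (Finset (Fin N)), (∀ A ∈ G, E ⊆ A ∧ A.card = k + (q - k) ∧
        Disjoint (ed A) σ.B) → G.Nonempty →
        (G.card : ℝ) ^ 2 * (2:ℝ) ^ ((∑ A ∈ G, ∑ A' ∈ G, (lw σ (ed A ∪ ed A') -
          Real.logb 2 (DX N k (q - k) ((A ∩ A') \ E).card))) / (G.card : ℝ) ^ 2) ≤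
            (((q - k : ℕ) : ℝ) + 1) ^ 2 * (N:ℝ) ^ 20) := by
    apply Cert.forall
    intro k
    refine (pairStep N k (q - k) ((N:ℝ) ^ 20) (by positivity)).mono ?_ fun σ h => h
    rw [Fintype.card_fin]
    push_cast
    have h3 : (q:ℝ) + 1 ≤ (N:ℝ) ^ 10 := by
      have : (q:ℝ) + 1 ≤ 3 * N := by linarith
      have h4 : (3:ℝ) ≤ (N:ℝ) ^ 9 := by
        calc (3:ℝ) ≤ 16 ^ 9 := by norm_num
          _ ≤ (N:ℝ) ^ 9 := pow_le_pow_left₀ (by norm_num) hN4 9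
      have h5 : (N:ℝ) ^ 10 = (N:ℝ) ^ 9 * N := by ring
      nlinarith
    calc (N:ℝ) ^ 10 * ((q:ℝ) + 1) ≤ (N:ℝ) ^ 10 * (N:ℝ) ^ 10 :=
          mul_le_mul_of_nonneg_left h3 (by positivity)
      _ = (N:ℝ) ^ 20 := by ring
  refine hcert.mono le_rfl ?_
  intro σ hσ E hE hEJ G hG hGE hGne hS
  have hJpos : (1000000:ℝ) ≤ J := by exact_mod_cast hC.trans hCJ
  set k := E.card with hk
  set m := q - k with hm
  have hkm : k + m = q := by omega
  have hmJ : 10 * J ≤ m := by omega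
  have hkmr : (k:ℝ) + m = q := by exact_mod_cast hkm
  set ρ : ℝ := (2:ℝ) ^ (-(kap9 * J)) with hρ
  have hρ0 : 0 ≤ ρ := by positivity
  have hgpos : (0:ℝ) < G.card := by exact_mod_cast card_pos.2 hGne
  have hg1 : (1:ℝ) ≤ G.card := by exact_mod_cast card_pos.2 hGne
  have hg2 : (0:ℝ) < (G.card : ℝ) ^ 2 := by positivity
  have hmem : ∀ A ∈ G, A.card = q ∧ Disjoint (ed A) σ.B ∧ (ed A \ σ.M).card ≤ uJ N J ∧
      dd σ (ed A) ≤ 2 * (J + 1) * q := by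
    intro A hA
    have := hG hA
    unfold GJ at this
    rw [mem_filter, mem_powersetCard] at this
    exact ⟨this.1.2, this.2.1, this.2.2.1, this.2.2.2.2⟩
  have hq : ∀ A ∈ G, A.card = q := fun A hA => (hmem A hA).1
  set SX : ℝ := ∑ A ∈ G, ∑ A' ∈ G, (((A ∩ A') \ E).card : ℝ) with hSX
  set SC : ℝ := ∑ A ∈ G, ∑ A' ∈ G, ((((A ∩ A') \ E).card.choose 2 : ℕ) : ℝ) with hSC
  have hvert := vertSum hρ0 G E q hq hGE hS
  have hpair := pairSum hρ0 G E q hq hGE hS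
  have hSX0 : 0 ≤ SX := sum_nonneg fun _ _ => sum_nonneg fun _ _ => Nat.cast_nonneg _
  have hSC0 : 0 ≤ SC := sum_nonneg fun _ _ => sum_nonneg fun _ _ => Nat.cast_nonneg _
  have hXm : ∀ A ∈ G, ∀ A' ∈ G, ((A ∩ A') \ E).card ≤ m := by
    intro A hA A' _
    have h4 : ((A ∩ A') \ E).card ≤ (A \ E).card :=
      card_le_card (sdiff_subset_sdiff inter_subset_left le_rfl)
    rw [card_sdiff_of_subset (hGE A hA), hq A hA] at h4
    exact h4
  have hm2L : (m:ℝ) ≤ 2 * LL N := by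
    have : (0:ℝ) ≤ k := by positivity
    linarith
  -- tail
  have htail : SC ≤ 0.1 * LL N * SX + (G.card : ℝ) ^ 2 :=
    B1_tail (by unfold kap9; linarith) hLpos.le hρ G E q m hq hGE hS hm hm2L
  set xb : ℝ := SX / (G.card : ℝ) ^ 2 with hxb
  set cb : ℝ := SC / (G.card : ℝ) ^ 2 with hcb
  have hxbS : xb * (G.card : ℝ) ^ 2 = SX := by rw [hxb]; field_simp
  have hcbS : cb * (G.card : ℝ) ^ 2 = SC := by rw [hcb]; field_simp
  have hqE : (q:ℝ) - E.card = m := by rw [← hk]; linarith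
  have hx1 : xb ≤ ρ * m := by
    rw [hxb, div_le_iff₀ hg2]
    calc SX ≤ ρ * (G.card : ℝ) ^ 2 * ((q : ℝ) - E.card) := hvert
      _ = ρ * m * (G.card : ℝ) ^ 2 := by rw [hqE]; ring
  have hc1 : cb ≤ ρ ^ 2 * (m.choose 2 : ℝ) := by
    rw [hcb, div_le_iff₀ hg2]
    calc SC ≤ ρ ^ 2 * (G.card : ℝ) ^ 2 * ((q - E.card).choose 2 : ℝ) := hpair
      _ = ρ ^ 2 * (m.choose 2 : ℝ) * (G.card : ℝ) ^ 2 := by rw [← hk, ← hm]; ring
  have hc2 : cb ≤ 0.1 * LL N * xb + 1 := by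
    rw [hcb, div_le_iff₀ hg2, add_mul, mul_assoc, hxbS]
    linarith
  have hn := hnum k m hreg hCJ hJ hkm hE hmJ xb cb ρ rfl (div_nonneg hSX0 hg2.le)
    (div_nonneg hSC0 hg2.le) hx1 hc1 hc2
  -- cross sum
  have hcross := crossSum σ G E
  set SR : ℝ := ∑ A ∈ G, ∑ A' ∈ G, (((ed A \ ed E).filter
        (fun e => σ.pi e ≠ e ∧ σ.pi e ∈ ed A' \ ed E)).card : ℝ) with hSR
  have hSRle : SR ≤ k * SX + SC := by
    have h4 : SR ≤ ∑ A ∈ G, ∑ A' ∈ G, (((ed A ∩ ed A') \ ed E).card : ℝ) := by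
      rw [hSR]; exact_mod_cast hcross
    refine h4.trans (le_of_eq ?_)
    rw [hSX, hSC, mul_sum, ← sum_add_distrib]
    refine sum_congr rfl fun A hA => ?_
    rw [mul_sum, ← sum_add_distrib]
    refine sum_congr rfl fun A' hA' => ?_
    exact B1_inter A A' E (hGE A hA) (hGE A' hA')
  -- total lower bound
  have hbeta := beta_pos
  set D0 : ℝ := 2 * (q.choose 2 : ℝ) - (k.choose 2 : ℝ) - 2 * uJ N J - beta * (2 * (2 * (J + 1) * q : ℕ))
    with hD0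
  set D1 : ℝ := k * LL N - Real.logb 2 (k.factorial : ℝ) +
      2 * (m * LL N - Real.logb 2 (m.factorial : ℝ)) + m with hD1
  have hkN : k ≤ N := by
    have := card_le_univ E
    rwa [Fintype.card_fin] at this
  have hmN : m ≤ N := by
    obtain ⟨A₀, hA₀⟩ := hGne
    have := card_le_univ A₀
    rw [Fintype.card_fin, hq A₀ hA₀] at this
    omega
  have hm1 : 1 ≤ m := by
    have : 1000000 ≤ J := hC.trans hCJ
    omega
  have hpt : ∀ A ∈ G, ∀ A' ∈ G, D0 - k * (((A ∩ A') \ E).card : ℝ)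
      - ((((A ∩ A') \ E).card.choose 2 : ℕ) : ℝ) - 2 * beta * (((ed A \ ed E).filter
        (fun e => σ.pi e ≠ e ∧ σ.pi e ∈ ed A' \ ed E)).card : ℝ) -
        (D1 - (((A ∩ A') \ E).card : ℝ) * (LL N - Real.logb 2 (m:ℝ))) ≤
      lw σ (ed A ∪ ed A') - Real.logb 2 (DX N k m ((A ∩ A') \ E).card) := by
    intro A hA A' hA'
    have h5 := lw_pair σ A A' E (hGE A hA) (hGE A' hA') q (uJ N J) (2 * (J + 1) * q)
      (hq A hA) (hq A' hA') (hmem A hA).2.2.1 (hmem A' hA').2.2.1 (hmem A hA).2.2.2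
      (hmem A' hA').2.2.2
    have h6 := h3 k m ((A ∩ A') \ E).card hm1 (hXm A hA A' hA') hkN hmN
    rw [hD0, hD1]
    rw [← hk] at h5
    linarith
  have hsum : (G.card : ℝ) ^ 2 * (D0 - D1) - k * SX - SC - 2 * beta * SR
      + SX * (LL N - Real.logb 2 (m:ℝ)) ≤ ∑ A ∈ G, ∑ A' ∈ G, (lw σ (ed A ∪ ed A') -
          Real.logb 2 (DX N k m ((A ∩ A') \ E).card)) := by
    refine le_trans (le_of_eq ?_) (sum_le_sum fun A hA => sum_le_sum fun A' hA' => hpt A hA A' hA')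
    simp only [sum_sub_distrib, ← mul_sum, ← sum_mul, sum_const, nsmul_eq_mul]
    rw [hSX, hSC, hSR]
    ring
  have hT := hσ ⟨k, by omega⟩ E rfl G (fun A hA => ⟨hGE A hA, by
    rw [(hmem A hA).1]; exact hkm.symm, (hmem A hA).2.1⟩) hGne
  simp only [← hm] at hT
  set avg := (∑ A ∈ G, ∑ A' ∈ G, (lw σ (ed A ∪ ed A') -
          Real.logb 2 (DX N k m ((A ∩ A') \ E).card))) / (G.card : ℝ) ^ 2 with havg
  have havg1 : 26 * LL N < avg := by
    rw [havg, lt_div_iff₀ hg2]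
    refine lt_of_lt_of_le ?_ hsum
    have h7 : 2 * beta * SR ≤ 2 * beta * (k * SX + SC) :=
      mul_le_mul_of_nonneg_left hSRle (by linarith)
    have h8 := mul_lt_mul_of_pos_right hn hg2
    refine lt_of_lt_of_le h8 ?_
    have h9 : (2 * (q.choose 2 : ℝ) - (k.choose 2 : ℝ) - 2 * uJ N J - 4 * beta * (J + 1) * q
      - (1 + 2 * beta) * (k * xb + cb)
      - (k * LL N - Real.logb 2 (k.factorial : ℝ) +
      2 * (m * LL N - Real.logb 2 (m.factorial : ℝ)) + m - xb * (LL N - Real.logb 2 (m:ℝ)))) *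
        (G.card : ℝ) ^ 2 = (G.card : ℝ) ^ 2 * (D0 - D1) - (1 + 2 * beta) * (k * SX + SC)
        + SX * (LL N - Real.logb 2 (m:ℝ)) := by
      rw [← hxbS, ← hcbS, hD0, hD1]
      push_cast
      ring
    rw [h9]
    linarith
  have hfin : (2:ℝ) ^ avg ≤ ((m:ℝ) + 1) ^ 2 * (N:ℝ) ^ 20 := by
    refine le_trans ?_ hT
    have : (1:ℝ) ≤ (G.card : ℝ) ^ 2 := one_le_pow₀ hg1
    nlinarith [Real.rpow_pos_of_pos (show (0:ℝ) < 2 by norm_num) avg]
  have hm1N : (m:ℝ) + 1 ≤ (N:ℝ) ^ 3 := by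
    have h12 : (m:ℝ) + 1 ≤ 3 * N := by linarith
    have h13 : (3:ℝ) ≤ (N:ℝ) ^ 2 := by nlinarith
    have h14 : (N:ℝ) ^ 3 = (N:ℝ) ^ 2 * N := by ring
    nlinarith
  have hfin2 : ((m:ℝ) + 1) ^ 2 * (N:ℝ) ^ 20 ≤ (N:ℝ) ^ 26 := by
    calc ((m:ℝ) + 1) ^ 2 * (N:ℝ) ^ 20 ≤ ((N:ℝ) ^ 3) ^ 2 * (N:ℝ) ^ 20 := by
          apply mul_le_mul_of_nonneg_right _ (by positivity)
          exact pow_le_pow_left₀ (by positivity) hm1N 2
      _ = (N:ℝ) ^ 26 := by ring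
  have hfin3 : (N:ℝ) ^ 26 = (2:ℝ) ^ (26 * LL N) := by
    rw [mul_comm, Real.rpow_mul (by norm_num), ← hNpow]
    norm_cast
  have hlt : (2:ℝ) ^ (26 * LL N) < (2:ℝ) ^ avg :=
    Real.rpow_lt_rpow_of_exponent_lt (by norm_num) havg1
  linarith

end Pool.Agent.CG
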