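import Pool.Agent.CG.B0

/-!
# CG B1a: compression for pairs of members

PAPER PROOF. For fixed X ≤ m use `Cert.family` with index type (E,S₁,Z,S₂), E a k-set, S₁ an m-set,
Z a subset of S₁ (with X elements; or an arbitrary subset), S₂ an (m-X)-set; edge set
ed (E ∪ S₁) ∪ ed (E ∪ Z ∪ S₂). The number of indices is ≤ C(N,k) C(N,m) 2^m C(N,m-X) = DX N k m X.
(`Cert.family` gives ∑ W ≤ K * |index|; restrict to subtypes, or use an index type of tuples of
finsets and `powersetCard`.) `Cert.forall` over X ∈ Fin (m+1): all X at once with constant (m+1)K.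
For a family G of (k+m)-sets containing E, a pair (A,A') with |(A ∩ A') \ E| = X is described by
(E, A\E, (A∩A')\E, A'\A), different pairs by different indices (E fixed):
∑_{(A,A'), X} W σ (ed A ∪ ed A') ≤ (m+1) K DX. Hence ∑_{(A,A')} W / DX(X(A,A')) ≤ (m+1)² K
(X ≤ m always). Members alive: W = 2^lw; apply `jensen` to G × G and g = lw - log₂ DX
(DX > 0 when the class is nonempty; m - X ≤ N etc.).
-/

set_option autoImplicit false

namespace Pool.Agent.CG

open Finset

/-- number of descriptions of a pair with `X` common vertices outside the kernel -/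
noncomputable def DX (N k m X : ℕ) : ℝ :=
  (N.choose k : ℝ) * (N.choose m : ℝ) * (2:ℝ) ^ m * (N.choose (m - X) : ℝ)

/-- indices of the descriptions of pairs -/
private noncomputable def B1a_I (N k m X : ℕ) :
    Finset (Finset (Fin N) × (Finset (Fin N) × Finset (Fin N)) × Finset (Fin N)) :=
  (powersetCard k univ) ×ˢ
    (((powersetCard m univ).biUnion (fun S => S.powerset.image (fun Z => (S, Z)))) ×ˢ
      (powersetCard (m - X) univ))

private theorem B1a_card (N k m X : ℕ) : ((B1a_I N k m X).card : ℝ) ≤ DX N k m X := by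
  unfold B1a_I DX
  rw [card_product, card_product, card_powersetCard, card_powersetCard, card_univ, Fintype.card_fin]
  have h : ((powersetCard m (univ : Finset (Fin N))).biUnion
      (fun S => S.powerset.image (fun Z => (S, Z)))).card ≤ N.choose m * 2 ^ m := by
    refine (card_biUnion_le).trans ?_
    calc ∑ S ∈ powersetCard m (univ : Finset (Fin N)), (S.powerset.image (fun Z => (S, Z))).card
        ≤ ∑ S ∈ powersetCard m (univ : Finset (Fin N)), 2 ^ m := by
          refine sum_le_sum fun S hS => ?_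
          refine card_image_le.trans ?_
          rw [card_powerset, (mem_powersetCard.1 hS).2]
      _ = N.choose m * 2 ^ m := by
          rw [sum_const, card_powersetCard, card_univ, Fintype.card_fin, smul_eq_mul]
  have h' : ((((powersetCard m (univ : Finset (Fin N))).biUnion
      (fun S => S.powerset.image (fun Z => (S, Z)))).card : ℕ) : ℝ) ≤
      (N.choose m : ℝ) * (2:ℝ) ^ m := by exact_mod_cast h
  push_cast
  calc (N.choose k : ℝ) * ((((powersetCard m (univ : Finset (Fin N))).biUnion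
      (fun S => S.powerset.image (fun Z => (S, Z)))).card : ℝ) * (N.choose (m - X) : ℝ))
      ≤ (N.choose k : ℝ) * (((N.choose m : ℝ) * (2:ℝ) ^ m) * (N.choose (m - X) : ℝ)) := by
        gcongr
    _ = (N.choose k : ℝ) * (N.choose m : ℝ) * (2:ℝ) ^ m * (N.choose (m - X) : ℝ) := by ring

private theorem B1a_interCard {N k : ℕ} {E A A' : Finset (Fin N)} (hEc : E.card = k)
    (hA : E ⊆ A) (hA' : E ⊆ A') : (A ∩ A').card = k + ((A ∩ A') \ E).card := by
  have hEA : E ⊆ A ∩ A' := subset_inter hA hA'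
  have h1 : ((A ∩ A') \ E).card = (A ∩ A').card - k := by
    rw [card_sdiff_of_subset hEA, hEc]
  have h2 : k ≤ (A ∩ A').card := hEc ▸ card_le_card hEA
  omega

private theorem B1a_mem {N k m : ℕ} {E A A' : Finset (Fin N)} (hEc : E.card = k)
    (hA : E ⊆ A ∧ A.card = k + m) (hA' : E ⊆ A' ∧ A'.card = k + m) :
    (E, (A \ E, (A ∩ A') \ E), A' \ A) ∈ B1a_I N k m ((A ∩ A') \ E).card := by
  have h1 := B1a_interCard hEc hA.1 hA'.1
  unfold B1a_I
  rw [mem_product, mem_product, mem_biUnion]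
  refine ⟨mem_powersetCard.2 ⟨subset_univ _, hEc⟩, ⟨A \ E, ?_, ?_⟩, ?_⟩
  · rw [mem_powersetCard]
    refine ⟨subset_univ _, ?_⟩
    rw [card_sdiff_of_subset hA.1, hEc, hA.2]
    omega
  · rw [mem_image]
    refine ⟨(A ∩ A') \ E, ?_, rfl⟩
    rw [mem_powerset]
    exact sdiff_subset_sdiff inter_subset_left (Subset.refl _)
  · rw [mem_powersetCard]
    refine ⟨subset_univ _, ?_⟩
    have h3 : (A' \ A).card = A'.card - (A ∩ A').card := card_sdiff
    show (A' \ A).card = m - ((A ∩ A') \ E).card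
    rw [h3, h1, hA'.2]
    omega

/-- the edge set of a description -/
private noncomputable def B1a_H {N : ℕ}
    (i : Finset (Fin N) × (Finset (Fin N) × Finset (Fin N)) × Finset (Fin N)) :
    Finset (Sym2 (Fin N)) :=
  ed (i.1 ∪ i.2.1.1) ∪ ed (i.1 ∪ i.2.1.2 ∪ i.2.2)

private theorem B1a_recover {N : ℕ} {E A A' : Finset (Fin N)} (hA : E ⊆ A) (hA' : E ⊆ A') :
    E ∪ (A \ E) = A ∧ E ∪ ((A ∩ A') \ E) ∪ (A' \ A) = A' := by
  constructor
  · exact union_sdiff_of_subset hA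
  · rw [union_sdiff_of_subset (subset_inter hA hA')]
    ext x
    simp only [mem_union, mem_inter, mem_sdiff]
    tauto

private theorem B1a_class {N k m : ℕ} {K : ℝ} (hK : 0 ≤ K) {σ : St (Sym2 (Fin N))}
    (hσ : ∀ X : Fin (m + 1), ∑ i : {i // i ∈ B1a_I N k m X}, W σ (B1a_H i.1) ≤
      (K * Fintype.card (Fin (m + 1))) * Fintype.card {i // i ∈ B1a_I N k m X})
    {E : Finset (Fin N)} (hEc : E.card = k) {G : Finset (Finset (Fin N))}
    (hG : ∀ A ∈ G, E ⊆ A ∧ A.card = k + m ∧ Disjoint (ed A) σ.B) (X : ℕ) (hX : X < m + 1) :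
    ∑ p ∈ (G ×ˢ G).filter (fun p => ((p.1 ∩ p.2) \ E).card = X), W σ (ed p.1 ∪ ed p.2) ≤
      K * (m + 1) * DX N k m X := by
  classical
  set T := (G ×ˢ G).filter (fun p => ((p.1 ∩ p.2) \ E).card = X) with hT
  let f : Finset (Fin N) × Finset (Fin N) →
      Finset (Fin N) × (Finset (Fin N) × Finset (Fin N)) × Finset (Fin N) :=
    fun p => (E, (p.1 \ E, (p.1 ∩ p.2) \ E), p.2 \ p.1)
  have hsub : ∀ p ∈ T, E ⊆ p.1 ∧ E ⊆ p.2 := by
    intro p hp
    rw [hT, mem_filter, mem_product] at hp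
    exact ⟨(hG _ hp.1.1).1, (hG _ hp.1.2).1⟩
  have hfm : ∀ p ∈ T, f p ∈ B1a_I N k m X := by
    intro p hp
    rw [hT, mem_filter, mem_product] at hp
    have := B1a_mem hEc ⟨(hG _ hp.1.1).1, (hG _ hp.1.1).2.1⟩ ⟨(hG _ hp.1.2).1, (hG _ hp.1.2).2.1⟩
    rw [hp.2] at this
    exact this
  have hfi : Set.InjOn f T := by
    intro p hp p' hp' h
    have h1 := B1a_recover (hsub p hp).1 (hsub p hp).2
    have h2 := B1a_recover (hsub p' hp').1 (hsub p' hp').2
    simp only [f, Prod.mk.injEq, true_and] at h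
    obtain ⟨⟨ha, hb⟩, hc⟩ := h
    apply Prod.ext
    · rw [← h1.1, ← h2.1, ha]
    · rw [← h1.2, ← h2.2, hb, hc]
  have hW : ∀ p ∈ T, W σ (ed p.1 ∪ ed p.2) = W σ (B1a_H (f p)) := by
    intro p hp
    have h1 := B1a_recover (hsub p hp).1 (hsub p hp).2
    unfold B1a_H
    simp only [f]
    rw [h1.1, h1.2]
  calc ∑ p ∈ T, W σ (ed p.1 ∪ ed p.2) = ∑ p ∈ T, W σ (B1a_H (f p)) := sum_congr rfl hW
    _ = ∑ i ∈ T.image f, W σ (B1a_H i) := (sum_image (f := fun i => W σ (B1a_H i)) hfi).symm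
    _ ≤ ∑ i ∈ B1a_I N k m X, W σ (B1a_H i) := by
        refine sum_le_sum_of_subset_of_nonneg ?_ (fun _ _ _ => W_nonneg _ _)
        intro i hi
        rw [mem_image] at hi
        obtain ⟨p, hp, rfl⟩ := hi
        exact hfm p hp
    _ = ∑ i : {i // i ∈ B1a_I N k m X}, W σ (B1a_H i.1) := by
        rw [← sum_coe_sort]
    _ ≤ (K * Fintype.card (Fin (m + 1))) * Fintype.card {i // i ∈ B1a_I N k m X} := hσ ⟨X, hX⟩
    _ = K * (m + 1) * (B1a_I N k m X).card := by
        rw [Fintype.card_fin, Fintype.card_coe]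
        push_cast
        ring
    _ ≤ K * (m + 1) * DX N k m X :=
        mul_le_mul_of_nonneg_left (B1a_card N k m X) (by positivity)

theorem pairStep (N k m : ℕ) (K : ℝ) (hK : 0 ≤ K) :
    Cert K (fun σ : St (Sym2 (Fin N)) => ∀ E : Finset (Fin N), E.card = k →
      ∀ G : Finset (Finset (Fin N)), (∀ A ∈ G, E ⊆ A ∧ A.card = k + m ∧ Disjoint (ed A) σ.B) →
        G.Nonempty →
        (G.card : ℝ) ^ 2 * (2:ℝ) ^ ((∑ A ∈ G, ∑ A' ∈ G, (lw σ (ed A ∪ ed A') -
          Real.logb 2 (DX N k m ((A ∩ A') \ E).card))) / (G.card : ℝ) ^ 2) ≤ (m + 1) ^ 2 * K) := by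
  classical
  have key : Cert K (fun σ : St (Sym2 (Fin N)) => ∀ X : Fin (m + 1),
      ∑ i : {i // i ∈ B1a_I N k m X}, W σ (B1a_H i.1) ≤
      (K * Fintype.card (Fin (m + 1))) * Fintype.card {i // i ∈ B1a_I N k m X}) := by
    apply Cert.forall
    intro X
    exact Cert.family (K := K * Fintype.card (Fin (m + 1)))
      (fun i : {i // i ∈ B1a_I N k m X} => B1a_H i.1)
  refine key.mono le_rfl fun σ hσ E hEc G hG hne => ?_
  set g : Finset (Fin N) × Finset (Fin N) → ℝ := fun p =>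
    lw σ (ed p.1 ∪ ed p.2) - Real.logb 2 (DX N k m ((p.1 ∩ p.2) \ E).card) with hg
  have hj := jensen (G ×ˢ G) (hne.product hne) g
  rw [card_product] at hj
  have hsum : ∑ p ∈ G ×ˢ G, g p = ∑ A ∈ G, ∑ A' ∈ G, (lw σ (ed A ∪ ed A') -
          Real.logb 2 (DX N k m ((A ∩ A') \ E).card)) := by
    rw [sum_product]
  rw [hsum] at hj
  push_cast at hj
  rw [← pow_two] at hj
  refine hj.trans ?_
  -- split according to the size of the common part
  have hle : ∀ p ∈ G ×ˢ G, ((p.1 ∩ p.2) \ E).card < m + 1 := by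
    intro p hp
    rw [mem_product] at hp
    have h1 := B1a_interCard hEc (hG _ hp.1).1 (hG _ hp.2).1
    have h2 : (p.1 ∩ p.2).card ≤ p.1.card := card_le_card inter_subset_left
    rw [(hG _ hp.1).2.1] at h2
    omega
  have hpt : ∀ p ∈ G ×ˢ G, (2:ℝ) ^ (g p) =
      W σ (ed p.1 ∪ ed p.2) / DX N k m ((p.1 ∩ p.2) \ E).card := by
    intro p hp
    rw [mem_product] at hp
    have hmem := B1a_mem hEc ⟨(hG _ hp.1).1, (hG _ hp.1).2.1⟩ ⟨(hG _ hp.2).1, (hG _ hp.2).2.1⟩
    have hpos : (0:ℝ) < DX N k m ((p.1 ∩ p.2) \ E).card := by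
      refine lt_of_lt_of_le ?_ (B1a_card N k m _)
      exact_mod_cast card_pos.2 ⟨_, hmem⟩
    have hdis : Disjoint (ed p.1 ∪ ed p.2) σ.B :=
      disjoint_union_left.2 ⟨(hG _ hp.1).2.2, (hG _ hp.2).2.2⟩
    rw [W_of_disjoint hdis, hg]
    simp only
    rw [Real.rpow_sub (by norm_num), Real.rpow_logb (by norm_num) (by norm_num) hpos]
  calc ∑ p ∈ G ×ˢ G, (2:ℝ) ^ (g p)
      = ∑ X ∈ range (m + 1), ∑ p ∈ (G ×ˢ G).filter (fun p => ((p.1 ∩ p.2) \ E).card = X),
          (2:ℝ) ^ (g p) := by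
        rw [sum_fiberwise_of_maps_to]
        intro p hp
        exact mem_range.2 (hle p hp)
    _ ≤ ∑ X ∈ range (m + 1), (K * (m + 1)) := by
        refine sum_le_sum fun X hX => ?_
        have hc := B1a_class hK hσ hEc hG X (mem_range.1 hX)
        have heq : ∑ p ∈ (G ×ˢ G).filter (fun p => ((p.1 ∩ p.2) \ E).card = X), (2:ℝ) ^ (g p) =
            (∑ p ∈ (G ×ˢ G).filter (fun p => ((p.1 ∩ p.2) \ E).card = X),
              W σ (ed p.1 ∪ ed p.2)) / DX N k m X := by
          rw [sum_div]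
          refine sum_congr rfl fun p hp => ?_
          rw [mem_filter] at hp
          rw [hpt p hp.1, hp.2]
        rw [heq]
        have h0 : (0:ℝ) ≤ DX N k m X := le_trans (by positivity) (B1a_card N k m X)
        rcases h0.eq_or_lt with h0 | h0
        · rw [← h0, div_zero]; positivity
        · rw [div_le_iff₀ h0]; exact hc
    _ = (m + 1) ^ 2 * K := by
        rw [sum_const, card_range, nsmul_eq_mul]
        push_cast
        ring

/-- lower bound for the weight of a pair -/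
theorem lw_pair {N : ℕ} (σ : St (Sym2 (Fin N))) (A A' E : Finset (Fin N)) (hE : E ⊆ A) (hE' : E ⊆ A')
    (q u d : ℕ) (hA : A.card = q) (hA' : A'.card = q) (hu : (ed A \ σ.M).card ≤ u)
    (hu' : (ed A' \ σ.M).card ≤ u) (hd : dd σ (ed A) ≤ d) (hd' : dd σ (ed A') ≤ d) :
    2 * (q.choose 2 : ℝ) - (E.card.choose 2 : ℝ) - E.card * ((A ∩ A') \ E).card
        - (((A ∩ A') \ E).card.choose 2 : ℝ) - 2 * u - beta * (2 * d) -
      2 * beta * ((ed A \ ed E).filter (fun e => σ.pi e ≠ e ∧ σ.pi e ∈ ed A' \ ed E)).card ≤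
      lw σ (ed A ∪ ed A') := by
  classical
  have hXc := B1a_interCard rfl hE hE'
  set X := ((A ∩ A') \ E).card with hX
  set cr := ((ed A \ ed E).filter (fun e => σ.pi e ≠ e ∧ σ.pi e ∈ ed A' \ ed E)).card with hcr
  -- claimed edges
  have hcl : (ed A ∪ ed A').card ≤ cl σ (ed A ∪ ed A') + (2 * u) := by
    have h1 := cl_add_card_sdiff σ (ed A ∪ ed A')
    have h2 : ((ed A ∪ ed A') \ σ.M).card ≤ 2 * u := by
      rw [union_sdiff_distrib]
      refine (card_union_le _ _).trans ?_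
      omega
    omega
  have hU : (ed A ∪ ed A').card + (ed (A ∩ A')).card = 2 * q.choose 2 := by
    rw [ed_inter, card_union_add_card_inter, card_ed, card_ed, hA, hA']
    ring
  have hI : ((ed (A ∩ A')).card : ℝ) = (E.card.choose 2 : ℝ) + E.card * X + (X.choose 2 : ℝ) := by
    rw [card_ed, hXc, Nat.cast_choose_two, Nat.cast_choose_two, Nat.cast_choose_two]
    push_cast
    ring
  -- partners
  have hdd : dd σ (ed A ∪ ed A') ≤ 2 * d + 2 * cr := by
    have hsplit : (ed A ∪ ed A').filter (fun e => σ.pi e ≠ e ∧ σ.pi e ∈ ed A ∪ ed A') ⊆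
        (ed A).filter (fun e => σ.pi e ≠ e ∧ σ.pi e ∈ ed A) ∪
        (ed A').filter (fun e => σ.pi e ≠ e ∧ σ.pi e ∈ ed A') ∪
        ((ed A \ ed E).filter (fun e => σ.pi e ≠ e ∧ σ.pi e ∈ ed A' \ ed E) ∪
        ((ed A \ ed E).filter (fun e => σ.pi e ≠ e ∧ σ.pi e ∈ ed A' \ ed E)).image σ.pi) := by
      intro e he
      rw [mem_filter] at he
      obtain ⟨h1, h2, h3⟩ := he
      have hEA : ed E ⊆ ed A := ed_subset hE
      have hEA' : ed E ⊆ ed A' := ed_subset hE'
      rw [mem_union] at h1 h3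
      by_cases a1 : e ∈ ed A ∧ σ.pi e ∈ ed A
      · exact mem_union_left _ (mem_union_left _ (mem_filter.2 ⟨a1.1, h2, a1.2⟩))
      by_cases a2 : e ∈ ed A' ∧ σ.pi e ∈ ed A'
      · exact mem_union_left _ (mem_union_right _ (mem_filter.2 ⟨a2.1, h2, a2.2⟩))
      apply mem_union_right
      by_cases b1 : e ∈ ed A
      · have b2 : σ.pi e ∉ ed A := fun h => a1 ⟨b1, h⟩
        have b3 : σ.pi e ∈ ed A' := h3.resolve_left b2
        have b4 : e ∉ ed A' := fun h => a2 ⟨h, b3⟩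
        refine mem_union_left _ (mem_filter.2 ⟨mem_sdiff.2 ⟨b1, fun h => b4 (hEA' h)⟩, h2,
          mem_sdiff.2 ⟨b3, fun h => b2 (hEA h)⟩⟩)
      · have b2 : e ∈ ed A' := h1.resolve_left b1
        have b3 : σ.pi e ∉ ed A' := fun h => a2 ⟨b2, h⟩
        have b4 : σ.pi e ∈ ed A := h3.resolve_right b3
        refine mem_union_right _ (mem_image.2 ⟨σ.pi e, mem_filter.2 ⟨mem_sdiff.2 ⟨b4,
          fun h => b3 (hEA' h)⟩, ?_, ?_⟩, σ.inv e⟩)
        · rw [σ.inv]
          exact fun h => h2 h.symm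
        · rw [σ.inv]
          exact mem_sdiff.2 ⟨b2, fun h => b1 (hEA h)⟩
    have h := card_le_card hsplit
    have h4 := card_union_le ((ed A).filter (fun e => σ.pi e ≠ e ∧ σ.pi e ∈ ed A) ∪
        (ed A').filter (fun e => σ.pi e ≠ e ∧ σ.pi e ∈ ed A'))
        ((ed A \ ed E).filter (fun e => σ.pi e ≠ e ∧ σ.pi e ∈ ed A' \ ed E) ∪
        ((ed A \ ed E).filter (fun e => σ.pi e ≠ e ∧ σ.pi e ∈ ed A' \ ed E)).image σ.pi)
    have h5 := card_union_le ((ed A).filter (fun e => σ.pi e ≠ e ∧ σ.pi e ∈ ed A))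
        ((ed A').filter (fun e => σ.pi e ≠ e ∧ σ.pi e ∈ ed A'))
    have h6 := card_union_le ((ed A \ ed E).filter (fun e => σ.pi e ≠ e ∧ σ.pi e ∈ ed A' \ ed E))
        (((ed A \ ed E).filter (fun e => σ.pi e ≠ e ∧ σ.pi e ∈ ed A' \ ed E)).image σ.pi)
    have h7 : (((ed A \ ed E).filter (fun e => σ.pi e ≠ e ∧ σ.pi e ∈ ed A' \ ed E)).image
        σ.pi).card ≤ cr := card_image_le
    have h8 : dd σ (ed A ∪ ed A') =
      ((ed A ∪ ed A').filter (fun e => σ.pi e ≠ e ∧ σ.pi e ∈ ed A ∪ ed A')).card := rfl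
    have h9 : dd σ (ed A) = ((ed A).filter (fun e => σ.pi e ≠ e ∧ σ.pi e ∈ ed A)).card := rfl
    have h10 : dd σ (ed A') = ((ed A').filter (fun e => σ.pi e ≠ e ∧ σ.pi e ∈ ed A')).card := rfl
    omega
  have hcl' : ((ed A ∪ ed A').card : ℝ) ≤ cl σ (ed A ∪ ed A') + 2 * u := by exact_mod_cast hcl
  have hU' : ((ed A ∪ ed A').card : ℝ) + ((ed (A ∩ A')).card : ℝ) = 2 * (q.choose 2 : ℝ) := by
    exact_mod_cast hU
  have hdd' : (dd σ (ed A ∪ ed A') : ℝ) ≤ 2 * d + 2 * cr := by exact_mod_cast hdd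
  have hb := mul_le_mul_of_nonneg_left hdd' beta_pos.le
  unfold lw
  linarith

end Pool.Agent.CG
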