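import Pool.Agent.CG.B1a
import Pool.Agent.CG.S7

/-!
# CG B1n: numerics of case B1

PAPER PROOF. Let L = LL N, a(k) = kL - C(k,2) - log₂ k!.
`logDX`: log₂ C(N,a) ≤ aL - log₂ a!, and (m-X)! ≥ m!/m^X (X ≤ m).
`aLower` (k + m = q, 3.9J ≤ k, 10J ≤ m, C ≤ J ≤ 10^-14 L):
 - k ≤ 0.6L: a ≥ k(L - k/2 - log₂ k) ≥ 0.69 kL;
 - 0.6L ≤ k ≤ 1.9L: a ≥ k(0.05L) - k log₂ k ≥ 0.02L²;
 - k ≥ 1.9L: k! ≤ e k (k/e)^k, L - (k-1)/2 ≥ log₂ L - C/2 + m/2 (by Reg, k = q - m), so
   a ≥ k(log₂ L - C/2 + m/2 - log₂ k + 1.44) - log₂(e k) ≥ k (m-C)/2 ≥ 0.85 L * 0.9 m (C ≤ J ≤ m/10).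
`slackUse`: by `slack` (C ≥ 2) C(q,2) ≥ qL - log₂ q!, hence
 C(q,2) - C(k,2) - mL + log₂ m! ≥ a(k) - log₂ C(q,k) ≥ a(k) - q, and
 2C(q,2) - C(k,2) - kL + log₂ k! - 2mL + 2 log₂ m! ≥ 2(a(k)-q) - a(k) = a(k) - 2q.
`numB1`: the left side is ≤ 26L; the right side is ≥ a(k) - 2q - m - 2u - 4β(J+1)q + ov where
 ov = xb(L - log₂ m) - (1+2β)(k xb + cb).
 If k ≤ 0.6L use cb ≤ 0.1 L xb + 1: ov ≥ -1.5 (log₂ m ≤ 0.009L), and a(k) ≥ 0.69*3.9 J L = 2.69 JL versus
 4β(J+1)q ≤ 1.661(J+1)L, 2u ≤ 0.02JL, 2q + m + 26L + 2 ≤ 33L ≤ 0.1 JL.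
 If k ≥ 0.6L use xb ≤ ρ m, cb ≤ ρ² C(m,2): (1+2β)(k xb + cb) ≤ 1.5 ρ m (k + m) ≤ 3ρ L m ≤ 0.001 L m
 (ρ = 2^(-J/10000) ≤ 10^-4 for J ≥ C large), and xb(L - log₂ m) ≥ 0; a(k) is ≥ 0.02L² resp. ≥ 0.76 L m,
 m ≥ 10 J.
-/

set_option autoImplicit false

namespace Pool.Agent.CG

open Finset Filter

private theorem B1n_log_choose {N a : ℕ} (hN : 1 ≤ N) (ha : a ≤ N) :
    Real.logb 2 (N.choose a : ℝ) ≤ a * LL N - Real.logb 2 (a.factorial : ℝ) := by
  have hN' : (0:ℝ) < N := by exact_mod_cast hN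
  have hf : (0:ℝ) < a.factorial := by exact_mod_cast Nat.factorial_pos a
  have hc : (0:ℝ) < (N.choose a : ℝ) := by exact_mod_cast Nat.choose_pos ha
  have h1 : ((N.choose a : ℝ)) ≤ (N:ℝ) ^ a / a.factorial := Nat.choose_le_pow_div a N
  have h2 : Real.logb 2 (N.choose a : ℝ) ≤ Real.logb 2 ((N:ℝ) ^ a / a.factorial) :=
    Real.logb_le_logb_of_le (by norm_num) hc h1
  rw [Real.logb_div (by positivity) (by positivity), Real.logb_pow] at h2
  exact h2

private theorem B1n_log_fact {m X : ℕ} (hm : 1 ≤ m) (hX : X ≤ m) :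
    Real.logb 2 (m.factorial : ℝ) ≤ Real.logb 2 ((m - X).factorial : ℝ) + X * Real.logb 2 (m:ℝ) := by
  have hm' : (0:ℝ) < m := by exact_mod_cast hm
  have hf : (0:ℝ) < m.factorial := by exact_mod_cast Nat.factorial_pos m
  have hf' : (0:ℝ) < (m - X).factorial := by exact_mod_cast Nat.factorial_pos (m - X)
  have h1 : m.factorial ≤ (m - X).factorial * m ^ X := by
    rw [← Nat.factorial_mul_descFactorial hX]
    exact Nat.mul_le_mul_left _ (Nat.descFactorial_le_pow m X)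
  have h1' : (m.factorial : ℝ) ≤ ((m - X).factorial : ℝ) * (m:ℝ) ^ X := by exact_mod_cast h1
  have h2 := Real.logb_le_logb_of_le (b := 2) (by norm_num) hf h1'
  rw [Real.logb_mul (by positivity) (by positivity), Real.logb_pow] at h2
  exact h2

theorem logDX : ∀ᶠ N : ℕ in atTop, ∀ k m X : ℕ, 1 ≤ m → X ≤ m → k ≤ N → m ≤ N →
    Real.logb 2 (DX N k m X) ≤ k * LL N - Real.logb 2 (k.factorial : ℝ) +
      2 * (m * LL N - Real.logb 2 (m.factorial : ℝ)) + m - X * (LL N - Real.logb 2 (m:ℝ)) := by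
  filter_upwards [eventually_ge_atTop 1] with N hN k m X hm hX hk hmN
  have c1 := B1n_log_choose hN hk
  have c2 := B1n_log_choose hN hmN
  have c3 := B1n_log_choose hN ((Nat.sub_le m X).trans hmN)
  have c4 := B1n_log_fact hm hX
  have p1 : (N.choose k : ℝ) ≠ 0 := by
    have := Nat.choose_pos hk
    positivity
  have p2 : (N.choose m : ℝ) ≠ 0 := by
    have := Nat.choose_pos hmN
    positivity
  have p3 : (N.choose (m - X) : ℝ) ≠ 0 := by
    have := Nat.choose_pos ((Nat.sub_le m X).trans hmN)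
    positivity
  have e1 : Real.logb 2 (DX N k m X) = Real.logb 2 (N.choose k : ℝ) + Real.logb 2 (N.choose m : ℝ) +
      m + Real.logb 2 (N.choose (m - X) : ℝ) := by
    unfold DX
    rw [Real.logb_mul (mul_ne_zero (mul_ne_zero p1 p2) (by positivity)) p3,
      Real.logb_mul (mul_ne_zero p1 p2) (by positivity), Real.logb_mul p1 p2, Real.logb_pow,
      Real.logb_self_eq_one (by norm_num)]
    ring
  have e2 : ((m - X : ℕ) : ℝ) = (m:ℝ) - X := by push_cast [hX]; ring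
  rw [e2] at c3
  rw [e1]
  linarith

private theorem B1n_log_small {x : ℝ} (hx : (10:ℝ) ^ 100 ≤ x) : Real.logb 2 x ≤ x / 10 ^ 40 := by
  have hx0 : (0:ℝ) < x := lt_of_lt_of_le (by positivity) hx
  have h1 : Real.log x ≤ 2 * Real.sqrt x := by
    have h := Real.log_le_sub_one_of_pos (Real.sqrt_pos.2 hx0)
    rw [Real.log_sqrt hx0.le] at h
    linarith
  have h2 : Real.sqrt x * 10 ^ 50 ≤ x := by
    have h3 : (10:ℝ) ^ 50 ≤ Real.sqrt x := by
      apply Real.le_sqrt_of_sq_le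
      calc ((10:ℝ) ^ 50) ^ 2 = 10 ^ 100 := by norm_num
        _ ≤ x := hx
    calc Real.sqrt x * 10 ^ 50 ≤ Real.sqrt x * Real.sqrt x :=
          mul_le_mul_of_nonneg_left h3 (Real.sqrt_nonneg x)
      _ = x := Real.mul_self_sqrt hx0.le
  have h4 : (0.6931471803:ℝ) < Real.log 2 := Real.log_two_gt_d9
  rw [Real.logb, div_le_iff₀ (by linarith)]
  have h5 : Real.sqrt x ≤ x / 10 ^ 50 := by
    rw [le_div_iff₀ (by positivity)]; exact h2
  have h6 : x / 10 ^ 50 * 4 ≤ x / 10 ^ 40 := by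
    have h8 : x / 10 ^ 50 * 4 = x * (4 / 10 ^ 50) := by ring
    have h9 : x / 10 ^ 40 = x * (1 / 10 ^ 40) := by ring
    rw [h8, h9]
    exact mul_le_mul_of_nonneg_left (by norm_num) hx0.le
  have h7 : x / 10 ^ 40 * (1/2) ≤ x / 10 ^ 40 * Real.log 2 :=
    mul_le_mul_of_nonneg_left (by linarith) (by positivity)
  linarith

/-- the main term after using `slack` -/
private theorem B1n_main {q k m : ℕ} (hkm : k + m = q) (L : ℝ)
    (hs : 0 ≤ (q.choose 2 : ℝ) - q * L + Real.logb 2 (q.factorial : ℝ)) :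
    k * L - (k.choose 2 : ℝ) - Real.logb 2 (k.factorial : ℝ) - 2 * q ≤
      2 * (q.choose 2 : ℝ) - (k.choose 2 : ℝ) - (k * L - Real.logb 2 (k.factorial : ℝ) +
      2 * (m * L - Real.logb 2 (m.factorial : ℝ))) := by
  have hf : (0:ℝ) < k.factorial := by exact_mod_cast Nat.factorial_pos k
  have hf' : (0:ℝ) < m.factorial := by exact_mod_cast Nat.factorial_pos m
  have hkq : k ≤ q := by omega
  have hc : (0:ℝ) < (q.choose k : ℝ) := by exact_mod_cast Nat.choose_pos hkq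
  have h1 : (q.choose k : ℝ) * k.factorial * m.factorial = q.factorial := by
    have := Nat.choose_mul_factorial_mul_factorial hkq
    have h2 : q - k = m := by omega
    rw [h2] at this
    exact_mod_cast this
  have h3 : Real.logb 2 (q.factorial : ℝ) = Real.logb 2 (q.choose k : ℝ) +
      Real.logb 2 (k.factorial : ℝ) + Real.logb 2 (m.factorial : ℝ) := by
    rw [← h1, Real.logb_mul (by positivity) (by positivity), Real.logb_mul (by positivity)
      (by positivity)]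
  have h4 : Real.logb 2 (q.choose k : ℝ) ≤ q := by
    have h5 : (q.choose k : ℝ) ≤ (2:ℝ) ^ q := by exact_mod_cast Nat.choose_le_two_pow q k
    have h6 := Real.logb_le_logb_of_le (b := 2) (by norm_num) hc h5
    rw [Real.logb_pow, Real.logb_self_eq_one (by norm_num), mul_one] at h6
    exact h6
  have h7 : (q:ℝ) = k + m := by exact_mod_cast hkm.symm
  rw [h3] at hs
  have h8 : (q:ℝ) * L = k * L + m * L := by rw [h7]; ring
  linarith

/-- lower bound of the main term through `log k! ≤ k log k` -/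
private theorem B1n_a {k : ℕ} (hk : 1 ≤ k) (L : ℝ) :
    (k:ℝ) * (L - ((k:ℝ) - 1) / 2 - Real.logb 2 (k:ℝ)) ≤
      k * L - (k.choose 2 : ℝ) - Real.logb 2 (k.factorial : ℝ) := by
  have hk' : (0:ℝ) < k := by exact_mod_cast hk
  have hf : (0:ℝ) < k.factorial := by exact_mod_cast Nat.factorial_pos k
  have h1 : (k.factorial : ℝ) ≤ (k:ℝ) ^ k := by exact_mod_cast Nat.factorial_le_pow k
  have h2 := Real.logb_le_logb_of_le (b := 2) (by norm_num) hf h1
  rw [Real.logb_pow] at h2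
  rw [Nat.cast_choose_two]
  have h3 : (k:ℝ) * (L - ((k:ℝ) - 1) / 2 - Real.logb 2 (k:ℝ)) =
    k * L - k * (k - 1) / 2 - k * Real.logb 2 (k:ℝ) := by ring
  linarith

theorem numB1 : ∀ᶠ C : ℕ in atTop, ∀ᶠ N : ℕ in atTop, ∀ q J k m : ℕ, Reg C N q → C ≤ J →
    (J:ℝ) ≤ eta * LL N → k + m = q → (3.9:ℝ) * J ≤ k → 10 * J ≤ m → ∀ xb cb ρ : ℝ,
    ρ = (2:ℝ) ^ (-(kap9 * J)) → 0 ≤ xb → 0 ≤ cb → xb ≤ ρ * m → cb ≤ ρ ^ 2 * (m.choose 2 : ℝ) →
    cb ≤ 0.1 * LL N * xb + 1 →
    26 * LL N < 2 * (q.choose 2 : ℝ) - (k.choose 2 : ℝ) - 2 * uJ N J - 4 * beta * (J + 1) * q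
      - (1 + 2 * beta) * (k * xb + cb)
      - (k * LL N - Real.logb 2 (k.factorial : ℝ) +
      2 * (m * LL N - Real.logb 2 (m.factorial : ℝ)) + m - xb * (LL N - Real.logb 2 (m:ℝ))) := by
  filter_upwards [regNum, slack, eventually_ge_atTop (10 ^ 6)] with C hC1 hC2 hC3
  filter_upwards [hC1, hC2] with N hN1 hN2
  intro q J k m hReg hCJ hJ hkm hk hm xb cb ρ hρ hxb hcb hxb1 hcb1 hcb2
  obtain ⟨hq1, hq2, hL, hCL⟩ := hN1 q hReg
  have hsl := hN2 q hReg
  have hReg2 := hReg.2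
  set L := LL N with hLdef
  have hL0 : (0:ℝ) < L := lt_of_lt_of_le (by positivity) hL
  have hC3' : (10:ℝ) ^ 6 ≤ C := by exact_mod_cast hC3
  have hCJ' : (C:ℝ) ≤ J := by exact_mod_cast hCJ
  have hJ6 : (10:ℝ) ^ 6 ≤ J := hC3'.trans hCJ'
  have hm' : (10:ℝ) * J ≤ m := by exact_mod_cast hm
  have hkm' : (k:ℝ) + m = q := by exact_mod_cast hkm
  have hJ0 : (0:ℝ) < J := lt_of_lt_of_le (by positivity) hJ6
  have hJL : (J:ℝ) * 10 ^ 14 ≤ L := by
    calc (J:ℝ) * 10 ^ 14 ≤ eta * L * 10 ^ 14 := mul_le_mul_of_nonneg_right hJ (by positivity)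
      _ = L := by unfold eta; ring
  have hk0 : (0:ℝ) < k := by linarith
  have hk1 : 1 ≤ k := by exact_mod_cast hk0
  have hm0 : (0:ℝ) < m := by linarith
  have hk2 : (k:ℝ) ≤ 2 * L := by linarith
  have hm2 : (m:ℝ) ≤ 2 * L := by linarith
  -- logarithms
  have hlL : Real.logb 2 L ≤ L / 10 ^ 40 := B1n_log_small hL
  have hl2L : ∀ x : ℝ, 0 < x → x ≤ 2 * L → Real.logb 2 x ≤ 1 + Real.logb 2 L := by
    intro x hx hx2
    have h := Real.logb_le_logb_of_le (b := 2) (by norm_num) hx hx2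
    rw [Real.logb_mul (by norm_num) hL0.ne', Real.logb_self_eq_one (by norm_num)] at h
    exact h
  have hlk := hl2L k hk0 hk2
  have hlm := hl2L m hm0 hm2
  have hsmall : 1 + Real.logb 2 L ≤ L * (1 / 1000) := by
    have h1 : (1:ℝ) ≤ L / 10 ^ 40 := by
      rw [le_div_iff₀ (by positivity)]
      refine le_trans ?_ hL
      norm_num
    have h2 : L / 10 ^ 40 * 2 ≤ L * (1 / 1000) := by
      have : L / 10 ^ 40 * 2 = L * (2 / 10 ^ 40) := by ring
      rw [this]
      exact mul_le_mul_of_nonneg_left (by norm_num) hL0.le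
    linarith
  -- main term
  have hs : 0 ≤ (q.choose 2 : ℝ) - q * L + Real.logb 2 (q.factorial : ℝ) := by
    refine le_trans ?_ hsl
    have : (0:ℝ) ≤ (C:ℝ) / 2 - 1 := by linarith
    positivity
  have hmain := B1n_main hkm L hs
  have ha := B1n_a hk1 L
  -- unclaimed pairs
  have hu : (uJ N J : ℝ) ≤ 0.01 * (J * L) := by
    have h : (uJ N J : ℝ) ≤ J * L / 100 := by
      unfold uJ
      exact Nat.floor_le (by positivity)
    linarith
  -- beta term
  have hb1 := beta_lt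
  have hb0 := beta_pos
  have hbt : 4 * beta * (J + 1) * q ≤ 1.6608 * (J * L) + 1.6608 * L := by
    have h1 : beta * ((J + 1) * q) ≤ 0.2076 * ((J + 1) * (2 * L)) := by
      gcongr
    have h2 : 4 * beta * (J + 1) * q = 4 * (beta * ((J + 1) * q)) := by ring
    have h3 : (0.2076:ℝ) * ((J + 1) * (2 * L)) = 0.4152 * (J * L) + 0.4152 * L := by ring
    rw [h2]
    linarith
  have hxL : Real.logb 2 (m:ℝ) ≤ 0.009 * L := by linarith
  have hJL6 : (10:ℝ) ^ 6 * L ≤ J * L := mul_le_mul_of_nonneg_right hJ6 hL0.le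
  have hL15 : (1.5:ℝ) ≤ L := by
    refine le_trans ?_ hL
    norm_num
  generalize hOV : (1 + 2 * beta) * (k * xb + cb) = OV
  generalize hXV : xb * (L - Real.logb 2 (m:ℝ)) = XV
  generalize hBV : 4 * beta * (J + 1) * q = BV at hbt
  generalize hAV : (k:ℝ) * (L - ((k:ℝ) - 1) / 2 - Real.logb 2 (k:ℝ)) = AV at ha
  rcases le_or_gt (k:ℝ) (0.6 * L) with hcase | hcase
  · -- small kernels
    have hov : -1.5 ≤ XV - OV := by
      have h0 : k * xb ≤ 0.6 * L * xb := mul_le_mul_of_nonneg_right hcase hxb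
      have h1 : k * xb + cb ≤ 0.7 * (L * xb) + 1 := by linarith
      have h2 : (1 + 2 * beta) * (k * xb + cb) ≤ 1.4152 * (0.7 * (L * xb) + 1) := by
        apply mul_le_mul (by linarith) h1 (by positivity) (by norm_num)
      have h3 : xb * (0.991 * L) ≤ xb * (L - Real.logb 2 (m:ℝ)) :=
        mul_le_mul_of_nonneg_left (by linarith) hxb
      have h4 : 0 ≤ L * xb := by positivity
      rw [hOV] at h2
      rw [hXV] at h3
      linarith
    have hak : 0.69 * (k * L) ≤ AV := by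
      have h1 : 0.69 * L ≤ L - ((k:ℝ) - 1) / 2 - Real.logb 2 (k:ℝ) := by linarith
      have h2 := mul_le_mul_of_nonneg_left h1 hk0.le
      rw [hAV] at h2
      linarith
    have hkJ : 3.9 * J * L ≤ k * L := mul_le_mul_of_nonneg_right hk hL0.le
    linarith
  · -- large kernels
    have hρ0 : 0 < ρ := by rw [hρ]; positivity
    have hρ1 : ρ ≤ 1 / 10 ^ 4 := by
      rw [hρ]
      have h1 : (2:ℝ) ^ (-(kap9 * (J:ℝ))) ≤ (2:ℝ) ^ (-(14:ℝ)) := by
        apply Real.rpow_le_rpow_of_exponent_le (by norm_num)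
        unfold kap9
        linarith
      refine h1.trans ?_
      rw [Real.rpow_neg (by norm_num)]
      have : (2:ℝ) ^ (14:ℝ) = 2 ^ (14:ℕ) := by
        rw [← Real.rpow_natCast]; norm_num
      rw [this]
      norm_num
    have hmc : (m.choose 2 : ℝ) ≤ m * m / 2 := by
      rw [Nat.cast_choose_two]
      have : (m:ℝ) * (m - 1) ≤ m * m := mul_le_mul_of_nonneg_left (by linarith) hm0.le
      linarith
    have hLm0 : 0 ≤ L * (m:ℝ) := by positivity
    have hov : -(0.001 * (L * m)) ≤ XV - OV := by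
      have h1 : k * xb ≤ k * (1 / 10 ^ 4 * m) := by
        have : xb ≤ 1 / 10 ^ 4 * m := hxb1.trans (mul_le_mul_of_nonneg_right hρ1 hm0.le)
        exact mul_le_mul_of_nonneg_left this hk0.le
      have h2 : cb ≤ 1 / 10 ^ 4 * (m * m) := by
        have h3 : ρ ^ 2 ≤ 1 / 10 ^ 4 := by
          have h3a : ρ * ρ ≤ 1 / 10 ^ 4 * 1 :=
            mul_le_mul hρ1 (hρ1.trans (by norm_num)) hρ0.le (by norm_num)
          rw [pow_two]
          linarith
        have h4 : ρ ^ 2 * (m.choose 2 : ℝ) ≤ 1 / 10 ^ 4 * (m * m / 2) :=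
          mul_le_mul h3 hmc (by positivity) (by norm_num)
        have h5 : (0:ℝ) ≤ m * m := by positivity
        linarith
      have h3 : k * xb + cb ≤ 2 / 10 ^ 4 * (L * m) := by
        have h4 : (k:ℝ) * m + m * m = q * m := by rw [← hkm']; ring
        have h5 : (q:ℝ) * m ≤ 2 * L * m := mul_le_mul_of_nonneg_right hq2 hm0.le
        linarith
      have h4 : (1 + 2 * beta) * (k * xb + cb) ≤ 1.4152 * (2 / 10 ^ 4 * (L * m)) := by
        apply mul_le_mul (by linarith) h3 (by positivity) (by norm_num)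
      have h5 : 0 ≤ xb * (L - Real.logb 2 (m:ℝ)) := mul_nonneg hxb (by linarith)
      rw [hOV] at h4
      rw [hXV] at h5
      linarith
    rcases le_or_gt (k:ℝ) (1.9 * L) with hcase2 | hcase2
    · -- middle
      have hak : 0.024 * (L * L) ≤ AV := by
        have h1 : 0.04 * L ≤ L - ((k:ℝ) - 1) / 2 - Real.logb 2 (k:ℝ) := by linarith
        have h2 := mul_le_mul_of_nonneg_left h1 hk0.le
        have h3 : 0.6 * L * L ≤ k * L := mul_le_mul_of_nonneg_right hcase.le hL0.le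
        rw [hAV] at h2
        linarith
      have hLL : L * m ≤ L * (2 * L) := mul_le_mul_of_nonneg_left hm2 hL0.le
      have hJLL : (J:ℝ) * 10 ^ 14 * L ≤ L * L := mul_le_mul_of_nonneg_right hJL hL0.le
      have h10 : (10:ℝ) ^ 6 * L ≤ L * L :=
        mul_le_mul_of_nonneg_right (le_trans (by norm_num) hL) hL0.le
      linarith
    · -- large
      have hak : 0.85 * (L * m) ≤ AV := by
        have h1 : 0.449 * (m:ℝ) ≤ L - ((k:ℝ) - 1) / 2 - Real.logb 2 (k:ℝ) := by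
          have hk3 : (k:ℝ) = q - m := by linarith
          have : (1:ℝ) ≤ 0.001 * m := by linarith
          linarith
        have h2 : 1.9 * L * (0.449 * m) ≤ (k:ℝ) * (L - ((k:ℝ) - 1) / 2 - Real.logb 2 (k:ℝ)) := by
          apply mul_le_mul hcase2.le h1 (by positivity) hk0.le
        rw [hAV] at h2
        linarith
      have hmL : 10 * J * L ≤ m * L := mul_le_mul_of_nonneg_right hm' hL0.le
      linarith

end Pool.Agent.CG
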