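import Pool.Agent.CG.S7

/-!
# CG B2n: numerics of cases B2 and II.1

Notation L = LL N, k + m = q.
PAPER PROOF of `numB2` (K = 1000, 1 ≤ m ≤ 10J, C ≤ J ≤ 10^-14 L, ρ = 2^(-J/10000) ≤ 10^-7):
 (a) a(k) := kL - C(k,2) - log₂ k! ≤ mL: by Reg L - (k-1)/2 ≤ log₂ L - C/2 + m/2 + 1/2 and
     log₂ k! ≥ k log₂ k - 1.4427 k, log₂ k ≥ log₂ L (k ≥ L), so a ≤ k(m/2 + 1.95 - C/2) ≤ k m/2 ≤ L m.
 (b) C(q,2) - C(k,2) = m(q - (m+1)/2) ≥ 1.998 m L - …, (1-2β) > 0.5848 and K²ρ ≤ 0.1: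
     (1-2β)(K - K²ρ)(C(q,2) - C(k,2)) - K m L ≥ 0.15 K m L.
 The claim becomes 20 L + a(k) + u + 2β(J+1)q + K(0.5852 - 0.73) u < 0.15 K m L: indeed
 a(k) ≤ mL ≤ 0.15 K m L, and 20L + u + 0.8304(J+1)L ≤ 0.1448*1000 u because u ≥ JL/100 - 1
 gives 144.8 u ≥ 1.44 J L.
PAPER PROOF of `numII1` (K = 10^20, k ≥ 0.6L, u ≥ 10^-16 L² - 1, u ≤ 0.01*0.51 L², 0.77u ≤ mL):
 (1-β) > 0.7924, C(q,2) - C(k,2) = m(q - (m+1)/2), ρ K ≤ 10^-9:
 (1-β)(1-Kρ)(C(q,2)-C(k,2)) - mL ≥ m(0.7923(q - (m+1)/2) - L) which is ≥ 0.029 m L (m ≤ 1.4 L) and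
 ≥ 0.5 mL if m ≤ 0.1L. Minus (1 - β - 0.77)u ≤ 0.0226 u. If m ≤ 0.1L: ≥ 0.385u - 0.0226u ≥ 0.3u;
 else ≥ 0.0029 L² - 0.0002 L². In both cases K * that ≥ 3 L² > 20L + kL.
-/

set_option autoImplicit false

namespace Pool.Agent.CG

open Finset Filter

private theorem B2n_logfac (k : ℕ) (hk : 1 ≤ k) :
    (k:ℝ) * Real.logb 2 (k:ℝ) - 1.4427 * k ≤ Real.logb 2 (k.factorial : ℝ) := by
  have hk0 : (0:ℝ) < k := by exact_mod_cast hk
  have h1 := Real.pow_div_factorial_le_exp (k:ℝ) hk0.le k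
  have hf : (0:ℝ) < (k.factorial : ℝ) := by exact_mod_cast Nat.factorial_pos k
  have h2 : Real.log ((k:ℝ) ^ k / (k.factorial : ℝ)) ≤ k := by
    have := Real.log_le_log (by positivity) h1
    rwa [Real.log_exp] at this
  rw [Real.log_div (by positivity) hf.ne', Real.log_pow] at h2
  have hl2 : (0.6931471803:ℝ) < Real.log 2 := Real.log_two_gt_d9
  have hl0 : 0 < Real.log 2 := by linarith
  unfold Real.logb
  have h3 : (k:ℝ) * (Real.log k / Real.log 2) - 1.4427 * k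
      = ((k:ℝ) * Real.log k - 1.4427 * k * Real.log 2) / Real.log 2 := by
    field_simp
  rw [h3]
  apply div_le_div_of_nonneg_right _ hl0.le
  nlinarith

private theorem B2n_choose (q k m : ℕ) (h : k + m = q) :
    (q.choose 2 : ℝ) - (k.choose 2 : ℝ) = m * (q - (m + 1) / 2) := by
  rw [Nat.cast_choose_two, Nat.cast_choose_two, ← h]
  push_cast
  ring

theorem numB2 : ∀ᶠ C : ℕ in atTop, ∀ᶠ N : ℕ in atTop, ∀ q J k m : ℕ, Reg C N q → C ≤ J →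
    (J:ℝ) ≤ eta * LL N → k + m = q → 1 ≤ m → m ≤ 10 * J → ∀ ρ : ℝ, ρ = (2:ℝ) ^ (-(kap9 * J)) →
    20 * LL N + (k * LL N - Real.logb 2 (k.factorial : ℝ)) +
        1000 * (m * LL N - Real.logb 2 (m.factorial : ℝ)) <
      1000 * (0.73 * uJ N J) + (k.choose 2 : ℝ) - uJ N J - 2 * beta * (J + 1) * q +
        (1 - 2 * beta) * (1000 * ((q.choose 2 : ℝ) - (k.choose 2 : ℝ) - uJ N J) -
          1000 ^ 2 * ρ * ((q.choose 2 : ℝ) - (k.choose 2 : ℝ))) := by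
  filter_upwards [regNum, eventually_ge_atTop 1000000] with C hC hC6
  filter_upwards [hC] with N hN
  intro q J k m hreg hCJ hJ hkm hm1 hm10 ρ hρ
  obtain ⟨hq1, hq2, hL, hCL⟩ := hN q hreg
  obtain ⟨hr1, hr2⟩ := hreg
  obtain ⟨L, hLdef⟩ : ∃ L : ℝ, L = LL N := ⟨_, rfl⟩
  rw [← hLdef] at hq1 hq2 hL hCL hr1 hr2 hJ ⊢
  have hL0 : (10:ℝ) ^ 100 ≤ L := hL
  have hLp : (10:ℝ) ^ 20 ≤ L := le_trans (by norm_num) hL0
  have hLpos : 0 < L := lt_of_lt_of_le (by norm_num) hLp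
  have hCR : (1000000:ℝ) ≤ C := by exact_mod_cast hC6
  have hJC : (C:ℝ) ≤ J := by exact_mod_cast hCJ
  have hJ6 : (1000000:ℝ) ≤ J := hCR.trans hJC
  have hJ' : (J:ℝ) ≤ L / 10 ^ 14 := by
    have : eta * L = L / 10 ^ 14 := by unfold eta; ring
    rw [← this]; exact hJ
  have hm1R : (1:ℝ) ≤ m := by exact_mod_cast hm1
  have hm10R : (m:ℝ) ≤ 10 * J := by exact_mod_cast hm10
  have hkmR : (k:ℝ) + m = q := by exact_mod_cast hkm
  have hmL : (m:ℝ) ≤ L / 10 ^ 13 := by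
    have : (10:ℝ) * (L / 10 ^ 14) = L / 10 ^ 13 := by ring
    linarith
  have hkL : L ≤ (k:ℝ) := by linarith
  have hk1 : 1 ≤ k := by
    have : (1:ℝ) ≤ (k:ℝ) := by linarith
    exact_mod_cast this
  have hk2L : (k:ℝ) ≤ 2 * L := by linarith
  have hk0 : (0:ℝ) < k := by linarith
  -- ρ is small
  have hρ0 : 0 < ρ := by rw [hρ]; positivity
  have hρ7 : ρ ≤ 1 / 10 ^ 7 := by
    rw [hρ]
    have h1 : (2:ℝ) ^ (-(kap9 * J)) ≤ (2:ℝ) ^ (-(24:ℝ)) := by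
      apply Real.rpow_le_rpow_of_exponent_le (by norm_num)
      unfold kap9
      linarith
    have h2 : (2:ℝ) ^ (-(24:ℝ)) = 1 / 2 ^ 24 := by
      rw [Real.rpow_neg (by norm_num), one_div]
      congr 1
      rw [← Real.rpow_natCast]
      norm_num
    rw [h2] at h1
    refine h1.trans ?_
    norm_num
  -- u
  obtain ⟨u, hu⟩ : ∃ u : ℝ, u = (uJ N J : ℝ) := ⟨_, rfl⟩
  rw [← hu]
  have hu2 : (J:ℝ) * L / 100 - 1 ≤ u := by
    rw [hu, uJ, ← hLdef]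
    have := Nat.lt_floor_add_one ((J:ℝ) * L / 100)
    linarith
  have hu1 : 0 ≤ u := by rw [hu]; positivity
  -- D
  have hD := B2n_choose q k m hkm
  obtain ⟨D, hDdef⟩ : ∃ D : ℝ, D = (q.choose 2 : ℝ) - (k.choose 2 : ℝ) := ⟨_, rfl⟩
  rw [← hDdef] at hD ⊢
  have hDge : 1.998 * ((m:ℝ) * L) ≤ D := by
    rw [hD]
    have h1 : 1.998 * L ≤ (q:ℝ) - ((m:ℝ) + 1) / 2 := by linarith
    have h2 := mul_le_mul_of_nonneg_left h1 (by positivity : (0:ℝ) ≤ (m:ℝ))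
    linarith only [h2]
  have hD0 : 0 ≤ D := by
    have : 0 ≤ (m:ℝ) * L := by positivity
    linarith
  have hb1 := beta_gt
  have hb2 := beta_lt
  -- a(k) ≤ m L
  have ha : (k:ℝ) * L - Real.logb 2 (k.factorial : ℝ) - (k.choose 2 : ℝ) ≤ m * L := by
    have h1 := B2n_logfac k hk1
    have h2 : Real.logb 2 L ≤ Real.logb 2 (k:ℝ) :=
      Real.logb_le_logb_of_le (by norm_num) hLpos hkL
    have h3 : (k.choose 2 : ℝ) = k * ((k:ℝ) - 1) / 2 := Nat.cast_choose_two ℝ k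
    rw [h3]
    have h4 : L - ((k:ℝ) - 1) / 2 ≤ Real.logb 2 L - C / 2 + (m + 1) / 2 := by linarith
    have h5 : (k:ℝ) * (L - ((k:ℝ) - 1) / 2) ≤ k * (Real.logb 2 L - C / 2 + (m + 1) / 2) :=
      mul_le_mul_of_nonneg_left h4 hk0.le
    have h6 : (k:ℝ) * Real.logb 2 L ≤ k * Real.logb 2 (k:ℝ) := mul_le_mul_of_nonneg_left h2 hk0.le
    have h7 : (k:ℝ) * (m / 2) ≤ m * L := by
      have := mul_le_mul_of_nonneg_right hk2L (by positivity : (0:ℝ) ≤ (m:ℝ) / 2)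
      linarith only [this]
    have h8 : (k:ℝ) * 1000000 ≤ k * C := mul_le_mul_of_nonneg_left hCR hk0.le
    linarith only [h1, h5, h6, h7, h8, hk0]
  have hmf : 0 ≤ Real.logb 2 (m.factorial : ℝ) := by
    apply Real.logb_nonneg (by norm_num)
    exact_mod_cast Nat.one_le_iff_ne_zero.2 (Nat.factorial_ne_zero m)
  have hbq : 2 * beta * ((J:ℝ) + 1) * q ≤ 0.8304 * ((J:ℝ) + 1) * L := by
    have h1 : 2 * beta * ((J:ℝ) + 1) ≤ 0.4152 * ((J:ℝ) + 1) :=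
      mul_le_mul_of_nonneg_right (by linarith only [hb2]) (by positivity)
    have h2 : 2 * beta * ((J:ℝ) + 1) * q ≤ 0.4152 * ((J:ℝ) + 1) * q :=
      mul_le_mul_of_nonneg_right h1 (by positivity)
    have h3 : 0.4152 * ((J:ℝ) + 1) * q ≤ 0.4152 * ((J:ℝ) + 1) * (2 * L) :=
      mul_le_mul_of_nonneg_left hq2 (by positivity)
    linarith
  have hmain : 584.7 * D ≤ (1 - 2 * beta) * (1000 * D - 1000 ^ 2 * ρ * D) := by
    have h1 : (999.9:ℝ) ≤ 1000 - 1000 ^ 2 * ρ := by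
      have : (1000:ℝ) ^ 2 * ρ ≤ 1000 ^ 2 * (1 / 10 ^ 7) := by
        apply mul_le_mul_of_nonneg_left hρ7 (by norm_num)
      norm_num at this ⊢
      linarith
    have h2 : (999.9:ℝ) * D ≤ (1000 - 1000 ^ 2 * ρ) * D := mul_le_mul_of_nonneg_right h1 hD0
    have h3 : (0:ℝ) ≤ (1000 - 1000 ^ 2 * ρ) * D := le_trans (by positivity) h2
    have h4 : (0.5848:ℝ) ≤ 1 - 2 * beta := by linarith
    have h5 : 0.5848 * ((1000 - 1000 ^ 2 * ρ) * D) ≤ (1 - 2 * beta) * ((1000 - 1000 ^ 2 * ρ) * D) :=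
      mul_le_mul_of_nonneg_right h4 h3
    have h6 : (1 - 2 * beta) * (1000 * D - 1000 ^ 2 * ρ * D)
        = (1 - 2 * beta) * ((1000 - 1000 ^ 2 * ρ) * D) := by ring
    rw [h6]
    linarith
  have hu3 : (1 - 2 * beta) * (1000 * u) ≤ 585.2 * u := by
    have h0 : (1 - 2 * beta) ≤ 0.5852 := by linarith only [hb1]
    have h1 := mul_le_mul_of_nonneg_right h0 (by positivity : (0:ℝ) ≤ 1000 * u)
    have h2 : 0.5852 * (1000 * u) = 585.2 * u := by ring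
    rw [← h2]; exact h1
  have hsplit : (1 - 2 * beta) * (1000 * (D - u) - 1000 ^ 2 * ρ * D)
      = (1 - 2 * beta) * (1000 * D - 1000 ^ 2 * ρ * D) - (1 - 2 * beta) * (1000 * u) := by ring
  rw [hsplit]
  have hJL : 1000000 * L ≤ (J:ℝ) * L := mul_le_mul_of_nonneg_right hJ6 hLpos.le
  have hmLp : 1 * L ≤ (m:ℝ) * L := mul_le_mul_of_nonneg_right hm1R hLpos.le
  have hbq' : 2 * beta * ((J:ℝ) + 1) * q ≤ 0.8304 * ((J:ℝ) * L) + 0.8304 * L := by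
    linarith only [hbq]
  have hu2' : 143.8 * ((J:ℝ) * L / 100 - 1) ≤ 143.8 * u :=
    mul_le_mul_of_nonneg_left hu2 (by norm_num)
  linarith only [ha, hmf, hmain, hu3, hDge, hJL, hmLp, hbq', hu2', hLp]

theorem numII1 : ∀ᶠ C : ℕ in atTop, ∀ᶠ N : ℕ in atTop, ∀ q J k m : ℕ, Reg C N q →
    eta * LL N ≤ (J:ℝ) → 4 * (J:ℝ) ≤ 1.1 * q → k + m = q → 0.6 * LL N ≤ (k:ℝ) →
    0.77 * (uJ N J : ℝ) ≤ m * LL N → ∀ ρ : ℝ, ρ = (N:ℝ) ^ (-kap0) →
    20 * LL N + k * LL N + 10 ^ 20 * (m * LL N) <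
      10 ^ 20 * (0.77 * uJ N J) +
        (1 - beta) * (10 ^ 20 * ((q.choose 2 : ℝ) - (k.choose 2 : ℝ) - uJ N J) -
          (10 ^ 20) ^ 2 * ρ * ((q.choose 2 : ℝ) - (k.choose 2 : ℝ))) := by
  filter_upwards [regNum] with C hC
  filter_upwards [hC] with N hN
  intro q J k m hreg hJ hJq hkm hk hm ρ hρ
  obtain ⟨hq1, hq2, hL, hCL⟩ := hN q hreg
  obtain ⟨L, hLdef⟩ : ∃ L : ℝ, L = LL N := ⟨_, rfl⟩
  rw [← hLdef] at hq1 hq2 hL hCL hJ hk hm ⊢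
  have hL0 : (10:ℝ) ^ 100 ≤ L := hL
  have hLp : (10:ℝ) ^ 22 ≤ L := le_trans (by norm_num) hL0
  have hLpos : 0 < L := lt_of_lt_of_le (by norm_num) hLp
  have hkmR : (k:ℝ) + m = q := by exact_mod_cast hkm
  have hm0 : (0:ℝ) ≤ m := by positivity
  have hm14 : (m:ℝ) ≤ 1.4 * L := by linarith
  -- N is positive
  have hN0 : (0:ℝ) < N := by
    rcases Nat.eq_zero_or_pos N with h | h
    · rw [h] at hLdef
      unfold LL at hLdef
      simp at hLdef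
      linarith
    · exact_mod_cast h
  have hN2 : (N:ℝ) = (2:ℝ) ^ L := by
    rw [hLdef]
    unfold LL
    rw [Real.rpow_logb (by norm_num) (by norm_num) hN0]
  have hρ0 : 0 < ρ := by rw [hρ]; positivity
  have hρs : ρ ≤ 1 / 10 ^ 30 := by
    rw [hρ, hN2, ← Real.rpow_mul (by norm_num)]
    have h1 : (2:ℝ) ^ (L * -kap0) ≤ (2:ℝ) ^ (-(100:ℝ)) := by
      apply Real.rpow_le_rpow_of_exponent_le (by norm_num)
      unfold kap0
      have : L * -(1 / 10 ^ 19) = -(L / 10 ^ 19) := by ring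
      rw [this]
      have h2 : (100:ℝ) ≤ L / 10 ^ 19 := by
        rw [le_div_iff₀ (by norm_num)]
        refine le_trans ?_ hLp
        norm_num
      linarith
    have h2 : (2:ℝ) ^ (-(100:ℝ)) = 1 / 2 ^ 100 := by
      rw [Real.rpow_neg (by norm_num), one_div]
      congr 1
      rw [← Real.rpow_natCast]
      norm_num
    rw [h2] at h1
    refine h1.trans ?_
    norm_num
  -- u
  obtain ⟨u, hu⟩ : ∃ u : ℝ, u = (uJ N J : ℝ) := ⟨_, rfl⟩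
  rw [← hu] at hm ⊢
  have hu2 : (J:ℝ) * L / 100 - 1 ≤ u := by
    rw [hu, uJ, ← hLdef]
    have := Nat.lt_floor_add_one ((J:ℝ) * L / 100)
    linarith
  have hu3 : u ≤ (J:ℝ) * L / 100 := by
    rw [hu, uJ, ← hLdef]
    exact Nat.floor_le (by positivity)
  have hu1 : 0 ≤ u := by rw [hu]; positivity
  have hLL : (10:ℝ) ^ 22 * L ≤ L ^ 2 := by
    have := mul_le_mul_of_nonneg_right hLp hLpos.le
    linarith only [this]
  have hJ1 : L / 10 ^ 14 ≤ (J:ℝ) := by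
    have : eta * L = L / 10 ^ 14 := by unfold eta; ring
    rw [← this]; exact hJ
  have hJ2 : (J:ℝ) ≤ 0.55 * L := by linarith
  have hJL1 : L ^ 2 / 10 ^ 14 ≤ (J:ℝ) * L := by
    have := mul_le_mul_of_nonneg_right hJ1 hLpos.le
    have h2 : L / 10 ^ 14 * L = L ^ 2 / 10 ^ 14 := by ring
    rw [← h2]; exact this
  have hJL2 : (J:ℝ) * L ≤ 0.55 * L ^ 2 := by
    have := mul_le_mul_of_nonneg_right hJ2 hLpos.le
    have h2 : 0.55 * L * L = 0.55 * L ^ 2 := by ring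
    rw [← h2]; exact this
  have hD := B2n_choose q k m hkm
  obtain ⟨D, hDdef⟩ : ∃ D : ℝ, D = (q.choose 2 : ℝ) - (k.choose 2 : ℝ) := ⟨_, rfl⟩
  rw [← hDdef] at hD ⊢
  have hb1 := beta_gt
  have hb2 := beta_lt
  have hD0 : 0 ≤ D := by
    rw [hD]
    apply mul_nonneg hm0
    linarith
  have hmain : 10 ^ 20 * (0.7923 * D) ≤ (1 - beta) * (10 ^ 20 * D - (10 ^ 20) ^ 2 * ρ * D) := by
    have h1 : (10 ^ 20 * (1 - 1 / 10 ^ 9) : ℝ) ≤ 10 ^ 20 - (10 ^ 20) ^ 2 * ρ := by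
      have : ((10:ℝ) ^ 20) ^ 2 * ρ ≤ (10 ^ 20) ^ 2 * (1 / 10 ^ 30) := by
        apply mul_le_mul_of_nonneg_left hρs (by positivity)
      norm_num at this ⊢
      linarith
    have h2 : (10 ^ 20 * (1 - 1 / 10 ^ 9) : ℝ) * D ≤ (10 ^ 20 - (10 ^ 20) ^ 2 * ρ) * D :=
      mul_le_mul_of_nonneg_right h1 hD0
    have h3 : (0:ℝ) ≤ (10 ^ 20 - (10 ^ 20) ^ 2 * ρ) * D := le_trans (by positivity) h2
    have h4 : (0.7924:ℝ) ≤ 1 - beta := by linarith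
    have h5 : 0.7924 * ((10 ^ 20 - (10 ^ 20) ^ 2 * ρ) * D) ≤
        (1 - beta) * ((10 ^ 20 - (10 ^ 20) ^ 2 * ρ) * D) :=
      mul_le_mul_of_nonneg_right h4 h3
    have h6 : (1 - beta) * (10 ^ 20 * D - (10 ^ 20) ^ 2 * ρ * D)
        = (1 - beta) * ((10 ^ 20 - (10 ^ 20) ^ 2 * ρ) * D) := by ring
    rw [h6]
    norm_num at h2 h5 ⊢
    linarith
  have hu4 : (1 - beta) * (10 ^ 20 * u) ≤ 10 ^ 20 * (0.7926 * u) := by
    have h1 : (1 - beta) ≤ 0.7926 := by linarith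
    have h2 : (1 - beta) * (10 ^ 20 * u) ≤ 0.7926 * (10 ^ 20 * u) :=
      mul_le_mul_of_nonneg_right h1 (by positivity)
    linarith
  have hsplit : (1 - beta) * (10 ^ 20 * (D - u) - (10 ^ 20) ^ 2 * ρ * D)
      = (1 - beta) * (10 ^ 20 * D - (10 ^ 20) ^ 2 * ρ * D) - (1 - beta) * (10 ^ 20 * u) := by ring
  rw [hsplit]
  have hkL : (k:ℝ) * L ≤ 2 * L ^ 2 := by
    have h1 : (k:ℝ) ≤ 2 * L := by linarith only [hkmR, hm0, hq2]
    have h2 := mul_le_mul_of_nonneg_right h1 hLpos.le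
    linarith only [h2]
  -- the key inequality
  have hkey : 3 / 10 ^ 18 * L ^ 2 ≤ 0.7923 * D - m * L - 0.0226 * u := by
    rcases le_total (m:ℝ) (0.1 * L) with hmc | hmc
    · have h1 : 0.5 * (m * L) ≤ 0.7923 * D - m * L := by
        rw [hD]
        have h2 : 1.5 * L ≤ 0.7923 * ((q:ℝ) - (m + 1) / 2) := by linarith
        have h3 := mul_le_mul_of_nonneg_left h2 hm0
        linarith
      have h4 : L ^ 2 / 10 ^ 16 - 1 ≤ u := by
        have : L ^ 2 / 10 ^ 14 / 100 = L ^ 2 / 10 ^ 16 := by ring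
        linarith
      have h5 : (1:ℝ) ≤ L ^ 2 / 10 ^ 18 := by
        rw [le_div_iff₀ (by norm_num)]
        linarith only [hLL, hLp]
      have h6 : 3 / 10 ^ 18 * L ^ 2 = 3 * (L ^ 2 / 10 ^ 18) := by ring
      have h7 : L ^ 2 / 10 ^ 16 = 100 * (L ^ 2 / 10 ^ 18) := by ring
      rw [h6]
      rw [h7] at h4
      linarith only [h1, h4, h5, hm, hu1]
    · have h1 : 0.029 * (m * L) ≤ 0.7923 * D - m * L := by
        rw [hD]
        have h2 : 1.029 * L ≤ 0.7923 * ((q:ℝ) - (m + 1) / 2) := by linarith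
        have h3 := mul_le_mul_of_nonneg_left h2 hm0
        linarith
      have h4 : 0.1 * L * L ≤ (m:ℝ) * L := mul_le_mul_of_nonneg_right hmc hLpos.le
      have h5 : 0 ≤ L ^ 2 := by positivity
      have h6 : 3 / 10 ^ 18 * L ^ 2 ≤ 0.001 * L ^ 2 :=
        mul_le_mul_of_nonneg_right (by norm_num) h5
      linarith only [h1, h4, h5, h6, hu3, hJL2]
  have hfin : 10 ^ 20 * (3 / 10 ^ 18 * L ^ 2) ≤ 10 ^ 20 * (0.7923 * D - m * L - 0.0226 * u) :=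
    mul_le_mul_of_nonneg_left hkey (by positivity)
  have hfin2 : 10 ^ 20 * (3 / 10 ^ 18 * L ^ 2) = 300 * L ^ 2 := by ring
  rw [hfin2] at hfin
  have hL2 : L ≤ L ^ 2 := by linarith only [hLL, hLpos]
  have hL2' : 0 < L ^ 2 := by positivity
  linarith only [hfin, hL2, hL2', hmain, hu4, hkL]

end Pool.Agent.CG
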