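import Pool.Agent.CG.B2a
import Pool.Agent.CG.B2n

/-!
# CG B2: regime I.B2

PAPER PROOF. Combine `tupleStep N k (q-k) 1000 (N^20)` for all k ≤ q (Cert.forall / Cert.mono). Let σ, E, G
be as stated, k = |E| < q, m = q - k ≤ 10J, and suppose Spr ρ N G E, ρ = 2^(-kap9 J). G is nonempty and
all members are alive, have ≤ u = uJ unclaimed pairs and dd ≤ 2(J+1)q. For f : Fin 1000 → G,
H = ⋃ ed (f i) ⊇ ed E: `lw_over_kernel`, cl σ (ed E) ≥ C(k,2) - u, dd σ (ed E) ≤ 2(J+1)q (ed E ⊆ ed A),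
average over f with `unionLower`, log₂ of `tupleStep` (log₂ C(N,a) ≤ aL - log₂ a!):
1000 log₂|G| + avg lw ≤ 20L + kL - log₂ k! + 1000(mL - log₂ m!); with log₂|G| ≥ 0.73u this contradicts
`numB2`.
-/

set_option autoImplicit false

namespace Pool.Agent.CG

open Finset Filter

private theorem B2_choose (N k : ℕ) (hk : k ≤ N) (hN : 1 ≤ N) :
    Real.logb 2 (N.choose k : ℝ) ≤ k * LL N - Real.logb 2 (k.factorial : ℝ) := by
  have h1 : ((N.choose k : ℕ) : ℝ) ≤ (N : ℝ) ^ k / (k.factorial : ℝ) := Nat.choose_le_pow_div k N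
  have h2 : (0 : ℝ) < (N.choose k : ℝ) := by exact_mod_cast Nat.choose_pos hk
  have h3 : (0 : ℝ) < N := by exact_mod_cast hN
  have h4 : (0 : ℝ) < (k.factorial : ℝ) := by exact_mod_cast k.factorial_pos
  have h5 := Real.logb_le_logb_of_le (b := 2) (by norm_num) h2 h1
  rw [Real.logb_div (by positivity) (by positivity), Real.logb_pow] at h5
  exact h5

private theorem B2_avg {N : ℕ} (σ : St (Sym2 (Fin N))) {ρ : ℝ} (hρ : 0 ≤ ρ)
    (G : Finset (Finset (Fin N))) (E : Finset (Fin N)) (q u d K : ℕ) (hK1 : 1 ≤ K) (hG : G.Nonempty)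
    (hq : ∀ A ∈ G, A.card = q) (hE : ∀ A ∈ G, E ⊆ A) (hu : ∀ A ∈ G, (ed A \ σ.M).card ≤ u)
    (hd : ∀ A ∈ G, dd σ (ed A) ≤ d) (hS : Spr ρ N G E) :
    (E.card.choose 2 : ℝ) - u - beta * d + (1 - 2 * beta) *
      ((K:ℝ) * ((q.choose 2 : ℝ) - (E.card.choose 2 : ℝ) - u) -
        (K:ℝ) ^ 2 * ρ * ((q.choose 2 : ℝ) - (E.card.choose 2 : ℝ))) ≤
      (∑ f ∈ Fintype.piFinset (fun _ : Fin K => G),
        lw σ (univ.biUnion (fun i => ed (f i)))) / (G.card : ℝ) ^ K := by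
  have h1 := unionLower σ hρ G E q u K hK1 hG hq hE hu hS
  have hGc : (0 : ℝ) < (G.card : ℝ) ^ K := by
    have : (0 : ℝ) < G.card := by exact_mod_cast hG.card_pos
    positivity
  have hb : 0 ≤ 1 - 2 * beta := by linarith [beta_lt]
  have hb0 := beta_pos
  obtain ⟨A0, hA0⟩ := hG
  have hEA : ed E ⊆ ed A0 := ed_subset (hE A0 hA0)
  have hcl : (E.card.choose 2 : ℝ) - u ≤ cl σ (ed E) := by
    have e1 := cl_add_card_sdiff σ (ed E)
    rw [card_ed] at e1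
    have e2 : (ed E \ σ.M).card ≤ u :=
      (card_le_card (sdiff_subset_sdiff hEA Subset.rfl)).trans (hu A0 hA0)
    have e3 : E.card.choose 2 ≤ cl σ (ed E) + u := by omega
    have e4 : (E.card.choose 2 : ℝ) ≤ cl σ (ed E) + u := by exact_mod_cast e3
    linarith
  have hdd : (dd σ (ed E) : ℝ) ≤ d := by exact_mod_cast (dd_mono σ hEA).trans (hd A0 hA0)
  have hpt : ∀ f ∈ Fintype.piFinset (fun _ : Fin K => G),
      ((E.card.choose 2 : ℝ) - u - beta * d) +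
        (1 - 2 * beta) * (cl σ (univ.biUnion (fun i => ed (f i)) \ ed E) : ℝ) ≤
      lw σ (univ.biUnion (fun i => ed (f i))) := by
    intro f hf
    rw [Fintype.mem_piFinset] at hf
    have e1 : ed E ⊆ univ.biUnion (fun i => ed (f i)) := by
      refine (ed_subset (hE _ (hf ⟨0, hK1⟩))).trans ?_
      exact subset_biUnion_of_mem (fun i => ed (f i)) (mem_univ _)
    have e2 := lw_over_kernel σ E _ e1
    have e3 : beta * (dd σ (ed E) : ℝ) ≤ beta * d := mul_le_mul_of_nonneg_left hdd hb0.le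
    linarith
  have hsum := sum_le_sum hpt
  rw [sum_add_distrib, sum_const, Fintype.card_piFinset_const, nsmul_eq_mul, ← mul_sum] at hsum
  push_cast at hsum
  rw [le_div_iff₀ hGc]
  rw [le_div_iff₀ hGc] at h1
  have h2 := mul_le_mul_of_nonneg_left h1 hb
  calc ((E.card.choose 2 : ℝ) - u - beta * d + (1 - 2 * beta) *
      ((K:ℝ) * ((q.choose 2 : ℝ) - (E.card.choose 2 : ℝ) - u) -
        (K:ℝ) ^ 2 * ρ * ((q.choose 2 : ℝ) - (E.card.choose 2 : ℝ)))) * (G.card : ℝ) ^ K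
      = (G.card : ℝ) ^ K * ((E.card.choose 2 : ℝ) - u - beta * d) + (1 - 2 * beta) *
        (((K:ℝ) * ((q.choose 2 : ℝ) - (E.card.choose 2 : ℝ) - u) -
        (K:ℝ) ^ 2 * ρ * ((q.choose 2 : ℝ) - (E.card.choose 2 : ℝ))) * (G.card : ℝ) ^ K) := by ring
    _ ≤ (G.card : ℝ) ^ K * ((E.card.choose 2 : ℝ) - u - beta * d) + (1 - 2 * beta) *
        ∑ f ∈ Fintype.piFinset (fun _ : Fin K => G),
          (cl σ (univ.biUnion (fun i => ed (f i)) \ ed E) : ℝ) := by linarith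
    _ ≤ _ := hsum

private theorem B2_log (N k m K : ℕ) (g a : ℝ) (hg : 0 < g) (hN : 1 ≤ N) (hk : k ≤ N) (hm : m ≤ N)
    (h : g ^ K * (2:ℝ) ^ a ≤ (N : ℝ) ^ 20 * ((N.choose k : ℝ) * (N.choose m : ℝ) ^ K)) :
    (K : ℝ) * Real.logb 2 g + a ≤ 20 * LL N + (k * LL N - Real.logb 2 (k.factorial : ℝ)) +
      K * (m * LL N - Real.logb 2 (m.factorial : ℝ)) := by
  have hN0 : (0 : ℝ) < N := by exact_mod_cast hN
  have h2 : (0 : ℝ) < (N.choose k : ℝ) := by exact_mod_cast Nat.choose_pos hk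
  have h3 : (0 : ℝ) < (N.choose m : ℝ) := by exact_mod_cast Nat.choose_pos hm
  have h4 : 0 < g ^ K * (2:ℝ) ^ a := by positivity
  have h5 := Real.logb_le_logb_of_le (b := 2) (by norm_num) h4 h
  rw [Real.logb_mul (by positivity) (by positivity), Real.logb_pow,
    Real.logb_rpow (by norm_num) (by norm_num), Real.logb_mul (by positivity) (by positivity),
    Real.logb_mul (by positivity) (by positivity), Real.logb_pow, Real.logb_pow] at h5
  have h6 := B2_choose N k hk hN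
  have h7 := mul_le_mul_of_nonneg_left (B2_choose N m hm hN) (Nat.cast_nonneg (α := ℝ) K)
  have h8 : Real.logb 2 (N : ℝ) = LL N := rfl
  rw [h8] at h5
  push_cast at h5
  linarith

theorem regIB2 : ∀ᶠ C : ℕ in atTop, ∀ᶠ N : ℕ in atTop, ∀ q J : ℕ, Reg C N q → C ≤ J →
    (J:ℝ) ≤ eta * LL N →
    Cert ((N:ℝ) ^ 10) (fun σ : St (Sym2 (Fin N)) => ∀ E : Finset (Fin N), E.card < q →
      q ≤ E.card + 10 * J → ∀ G ⊆ GJ σ q J, (∀ A ∈ G, E ⊆ A) →
        (2:ℝ) ^ ((0.73:ℝ) * uJ N J) ≤ G.card →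
        ¬ Spr ((2:ℝ) ^ (-(kap9 * J))) N G E) := by
  filter_upwards [numB2, regNum] with C hC1 hC2
  filter_upwards [hC1, hC2, eventually_ge_atTop 1] with N hN1 hN2 hN3
  intro q J hR hCJ hJ
  obtain ⟨hq1, hq2, hL1, -⟩ := hN2 q hR
  have hNr : (1 : ℝ) ≤ N := by exact_mod_cast hN3
  have hN0 : (0 : ℝ) < N := by linarith
  have hLN : LL N ≤ N := by
    unfold LL
    rw [Real.logb_le_iff_le_rpow (by norm_num) hN0, Real.rpow_natCast]
    exact_mod_cast (Nat.lt_two_pow_self (n := N)).le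
  have hNbig : (3 : ℝ) ≤ N := by
    have h1 : (3 : ℝ) ≤ 10 ^ 100 := by norm_num
    linarith
  have hqN : ((q : ℝ) + 1) ≤ (N : ℝ) ^ 10 := by
    have h2 : (2 : ℝ) * N + 1 ≤ (N : ℝ) ^ 2 := by nlinarith
    have h3 : (N : ℝ) ^ 2 ≤ (N : ℝ) ^ 10 := pow_le_pow_right₀ hNr (by norm_num)
    linarith
  have hcert : Cert ((N:ℝ) ^ 10) (fun σ : St (Sym2 (Fin N)) => ∀ θ : Fin (q + 1),
      ∀ E : Finset (Fin N), E.card = (θ : ℕ) →
      ∀ G : Finset (Finset (Fin N)), (∀ A ∈ G, E ⊆ A ∧ A.card = (θ : ℕ) + (q - (θ : ℕ)) ∧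
        Disjoint (ed A) σ.B) → G.Nonempty →
        (G.card : ℝ) ^ 1000 * (2:ℝ) ^ ((∑ f ∈ Fintype.piFinset (fun _ : Fin 1000 => G),
          lw σ (univ.biUnion (fun i => ed (f i)))) / (G.card : ℝ) ^ 1000) ≤
            (N:ℝ) ^ 20 * ((N.choose (θ : ℕ) : ℝ) * (N.choose (q - (θ : ℕ)) : ℝ) ^ 1000)) := by
    apply Cert.forall
    intro θ
    refine (tupleStep N (θ : ℕ) (q - (θ : ℕ)) 1000 (by norm_num) ((N:ℝ) ^ 20)
      (by positivity)).mono ?_ (fun σ h => h)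
    rw [Fintype.card_fin]
    push_cast
    calc (N : ℝ) ^ 10 * ((q : ℝ) + 1) ≤ (N : ℝ) ^ 10 * (N : ℝ) ^ 10 :=
          mul_le_mul_of_nonneg_left hqN (by positivity)
      _ = (N : ℝ) ^ 20 := by rw [← pow_add]
  refine hcert.mono le_rfl ?_
  intro σ hσ E hEq hEJ G hG hGE hGc hS
  have hmem : ∀ A ∈ G, A.card = q ∧ Disjoint (ed A) σ.B ∧ (ed A \ σ.M).card ≤ uJ N J ∧
      dd σ (ed A) ≤ 2 * (J + 1) * q := by
    intro A hA
    have h1 := hG hA
    unfold GJ at h1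
    rw [mem_filter, mem_powersetCard] at h1
    exact ⟨h1.1.2, h1.2.1, h1.2.2.1, h1.2.2.2.2⟩
  have hgpos : (0 : ℝ) < G.card := lt_of_lt_of_le (by positivity) hGc
  have hGne : G.Nonempty := by
    rw [← card_pos]
    exact_mod_cast hgpos
  have hm : E.card + (q - E.card) = q := by omega
  have hm1 : 1 ≤ q - E.card := by omega
  have hm2 : q - E.card ≤ 10 * J := by omega
  have hqN' : q ≤ N := by
    obtain ⟨A, hA⟩ := hGne
    rw [← (hmem A hA).1]
    exact (card_le_univ A).trans (by rw [Fintype.card_fin])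
  have hEN : E.card ≤ N := by omega
  have hmN : q - E.card ≤ N := by omega
  have hρ : (0 : ℝ) ≤ (2:ℝ) ^ (-(kap9 * J)) := by positivity
  have ht := hσ ⟨E.card, by omega⟩ E rfl G (fun A hA => ⟨hGE A hA, by
    show A.card = E.card + (q - E.card)
    rw [hm]
    exact (hmem A hA).1, (hmem A hA).2.1⟩) hGne
  have h1 := B2_log N E.card (q - E.card) 1000 (G.card : ℝ) _ hgpos hN3 hEN hmN ht
  have h2 := B2_avg σ hρ G E q (uJ N J) (2 * (J + 1) * q) 1000 (by norm_num) hGne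
    (fun A hA => (hmem A hA).1) hGE (fun A hA => (hmem A hA).2.2.1)
    (fun A hA => (hmem A hA).2.2.2) hS
  have h3 := hN1 q J E.card (q - E.card) hR hCJ hJ hm hm1 hm2 _ rfl
  have h4 : (0.73 : ℝ) * uJ N J ≤ Real.logb 2 (G.card : ℝ) := by
    rw [Real.le_logb_iff_rpow_le (by norm_num) hgpos]
    exact hGc
  push_cast at h1 h2
  linarith

end Pool.Agent.CG
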