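import Pool.Agent.CG.B0

/-!
# CG B2a: compression for K-tuples of members

PAPER PROOF of `tupleStep`. `Cert.family` with the index type (E, (S_i)_{i<K}), E a k-set, S_i m-sets,
edge set ⋃_i ed (E ∪ S_i): number of indices C(N,k) C(N,m)^K. For a family G of (k+m)-sets containing E:
∑_{f : Fin K → G} W σ (⋃ ed (f i)) ≤ K' C(N,k) C(N,m)^K (f ↦ (E, f i \ E) injective). All alive, so
W = 2^lw; `jensen` over the |G|^K functions f (as a Finset: `Fintype.piFinset (fun _ => G)`).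
PAPER PROOF of `unionLower`: for f put H_i = ed (f i) \ ed E. |⋃ H_i| ≥ ∑ |H_i| - ∑_{i<j} |H_i ∩ H_j|.
Sum over all f: for i ≠ j, ∑_f |H_i ∩ H_j| = |G|^(K-2) ∑_{A,A'} |(ed A ∩ ed A') \ ed E|
≤ |G|^K ρ (C(q,2) - C(k,2)) by `sumInter`. Claimed: cl σ (⋃ H_i) ≥ |⋃ H_i| - K u.
-/

set_option autoImplicit false

namespace Pool.Agent.CG

open Finset

theorem tupleStep (N k m K : ℕ) (hK1 : 1 ≤ K) (K' : ℝ) (hK : 0 ≤ K') :
    Cert K' (fun σ : St (Sym2 (Fin N)) => ∀ E : Finset (Fin N), E.card = k →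
      ∀ G : Finset (Finset (Fin N)), (∀ A ∈ G, E ⊆ A ∧ A.card = k + m ∧ Disjoint (ed A) σ.B) →
        G.Nonempty →
        (G.card : ℝ) ^ K * (2:ℝ) ^ ((∑ f ∈ Fintype.piFinset (fun _ : Fin K => G),
          lw σ (univ.biUnion (fun i => ed (f i)))) / (G.card : ℝ) ^ K) ≤
            K' * ((N.choose k : ℝ) * (N.choose m : ℝ) ^ K)) := by
  classical
  have hcard : (Fintype.card ({E : Finset (Fin N) // E.card = k} ×
      (Fin K → {S : Finset (Fin N) // S.card = m})) : ℝ) =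
      (N.choose k : ℝ) * (N.choose m : ℝ) ^ K := by
    rw [Fintype.card_prod, Fintype.card_pi, Fintype.card_finset_len]
    simp only [Fintype.card_finset_len, Fintype.card_fin, prod_const, card_univ]
    push_cast
    ring
  have hc := Cert.family (K := K') (fun i : {E : Finset (Fin N) // E.card = k} ×
      (Fin K → {S : Finset (Fin N) // S.card = m}) =>
      (univ : Finset (Fin K)).biUnion (fun j => ed (i.1.1 ∪ (i.2 j).1)))
  refine hc.mono le_rfl ?_
  intro σ hσ E hE G hG hGne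
  rw [hcard] at hσ
  have hmem : ∀ f ∈ Fintype.piFinset (fun _ : Fin K => G), ∀ i, f i ∈ G := by
    intro f hf i
    exact (Fintype.mem_piFinset.1 hf) i
  have h1 : ∑ f ∈ Fintype.piFinset (fun _ : Fin K => G),
      W σ (univ.biUnion (fun i => ed (f i))) ≤
      ∑ i : {E : Finset (Fin N) // E.card = k} ×
      (Fin K → {S : Finset (Fin N) // S.card = m}),
        W σ ((univ : Finset (Fin K)).biUnion (fun j => ed (i.1.1 ∪ (i.2 j).1))) := by
    have hm : ∀ A ∈ G, (A \ E).card = m := by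
      intro A hA
      obtain ⟨h1, h2, _⟩ := hG A hA
      rw [card_sdiff_of_subset h1, h2, hE]; omega
    let Ψ : {f // f ∈ Fintype.piFinset (fun _ : Fin K => G)} →
        {E : Finset (Fin N) // E.card = k} × (Fin K → {S : Finset (Fin N) // S.card = m}) :=
      fun f => (⟨E, hE⟩, fun i => ⟨f.1 i \ E, hm _ (hmem f.1 f.2 i)⟩)
    have hΨ : Function.Injective Ψ := by
      intro f f' h
      apply Subtype.ext
      funext i
      have h2 : (Ψ f).2 i = (Ψ f').2 i := by rw [h]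
      have h3 : f.1 i \ E = f'.1 i \ E := congrArg Subtype.val h2
      have h4 := (hG _ (hmem f.1 f.2 i)).1
      have h5 := (hG _ (hmem f'.1 f'.2 i)).1
      rw [← sdiff_union_of_subset h4, h3, sdiff_union_of_subset h5]
    rw [← sum_attach]
    calc ∑ f ∈ (Fintype.piFinset (fun _ : Fin K => G)).attach,
          W σ (univ.biUnion (fun i => ed (f.1 i)))
        = ∑ f ∈ (Fintype.piFinset (fun _ : Fin K => G)).attach,
          W σ ((univ : Finset (Fin K)).biUnion
            (fun j => ed ((Ψ f).1.1 ∪ ((Ψ f).2 j).1))) := by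
          refine sum_congr rfl fun f _ => ?_
          congr 1
          refine biUnion_congr rfl fun i _ => ?_
          show ed (f.1 i) = ed (E ∪ (f.1 i \ E))
          rw [union_sdiff_of_subset (hG _ (hmem f.1 f.2 i)).1]
      _ = ∑ i ∈ (Fintype.piFinset (fun _ : Fin K => G)).attach.image Ψ,
          W σ ((univ : Finset (Fin K)).biUnion
            (fun j => ed (i.1.1 ∪ (i.2 j).1))) := by
          rw [sum_image]
          intro a _ b _ h
          exact hΨ h
      _ ≤ _ := sum_le_sum_of_subset_of_nonneg (subset_univ _) (fun i _ _ => W_nonneg _ _)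
  have h2 : ∑ f ∈ Fintype.piFinset (fun _ : Fin K => G),
      (2:ℝ) ^ (lw σ (univ.biUnion (fun i => ed (f i)))) ≤
        K' * ((N.choose k : ℝ) * (N.choose m : ℝ) ^ K) := by
    refine le_trans (le_of_eq ?_) (h1.trans hσ)
    refine sum_congr rfl fun f hf => ?_
    rw [W_of_disjoint]
    rw [disjoint_biUnion_left]
    intro i _
    exact (hG _ (hmem f hf i)).2.2
  have hne : (Fintype.piFinset (fun _ : Fin K => G)).Nonempty := by
    obtain ⟨A, hA⟩ := hGne
    exact ⟨fun _ => A, Fintype.mem_piFinset.2 fun _ => hA⟩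
  have h3 := jensen (Fintype.piFinset (fun _ : Fin K => G)) hne
    (fun f => lw σ (univ.biUnion (fun i => ed (f i))))
  have hcp : ((Fintype.piFinset (fun _ : Fin K => G)).card : ℝ) = (G.card : ℝ) ^ K := by
    rw [Fintype.card_piFinset]
    simp
  rw [hcp] at h3
  exact h3.trans h2

private theorem B2a_union_lower {α : Type} [DecidableEq α] {K : ℕ} (H : Fin K → Finset α) :
    (∑ i, ((H i).card : ℝ)) - ∑ i, ∑ j ∈ univ.erase i, (((H i) ∩ (H j)).card : ℝ) ≤
      ((univ.biUnion H).card : ℝ) := by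
  classical
  set U := univ.biUnion H with hU
  have hsub : ∀ i, H i ⊆ U := fun i => subset_biUnion_of_mem H (mem_univ i)
  have e1 : ∀ i, ((H i).card : ℝ) = ∑ e ∈ U, (if e ∈ H i then (1:ℝ) else 0) := by
    intro i
    rw [sum_ite_mem, inter_eq_right.2 (hsub i)]
    simp
  have e2 : ∀ i j, (((H i) ∩ (H j)).card : ℝ) =
      ∑ e ∈ U, (if e ∈ H i then (1:ℝ) else 0) * (if e ∈ H j then (1:ℝ) else 0) := by
    intro i j
    have : ∀ e, (if e ∈ H i then (1:ℝ) else 0) * (if e ∈ H j then (1:ℝ) else 0) =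
        if e ∈ H i ∩ H j then (1:ℝ) else 0 := by
      intro e
      by_cases h1 : e ∈ H i <;> by_cases h2 : e ∈ H j <;> simp [h1, h2]
    simp_rw [this]
    rw [sum_ite_mem, inter_eq_right.2 (inter_subset_left.trans (hsub i))]
    simp
  have e3 : ((U.card : ℕ) : ℝ) = ∑ e ∈ U, (1:ℝ) := by simp
  simp_rw [e1, e2]
  rw [e3, sum_comm]
  have e4 : ∑ i, ∑ j ∈ univ.erase i, ∑ e ∈ U, (if e ∈ H i then (1:ℝ) else 0) *
      (if e ∈ H j then (1:ℝ) else 0) = ∑ e ∈ U, ∑ i, ∑ j ∈ univ.erase i,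
      (if e ∈ H i then (1:ℝ) else 0) * (if e ∈ H j then (1:ℝ) else 0) := by
    rw [sum_comm (s := U) (t := univ)]
    refine sum_congr rfl fun i _ => ?_
    rw [sum_comm]
  rw [e4, ← sum_sub_distrib]
  refine sum_le_sum fun e he => ?_
  -- n - n(n-1) ≤ 1
  obtain ⟨i0, _, hi0⟩ := mem_biUnion.1 he
  have e5 : ∀ i, ∑ j ∈ univ.erase i, (if e ∈ H i then (1:ℝ) else 0) *
      (if e ∈ H j then (1:ℝ) else 0) = (if e ∈ H i then (1:ℝ) else 0) *
        ((∑ j, (if e ∈ H j then (1:ℝ) else 0)) - 1) := by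
    intro i
    rw [← mul_sum]
    by_cases h : e ∈ H i
    · rw [← add_sum_erase univ _ (mem_univ i)]
      simp [h]
    · simp [h]
  simp_rw [e5]
  rw [← sum_mul]
  have e6 : (1:ℝ) ≤ ∑ j, (if e ∈ H j then (1:ℝ) else 0) := by
    have := single_le_sum (f := fun j => (if e ∈ H j then (1:ℝ) else 0))
      (fun j _ => by positivity) (mem_univ i0)
    simpa [hi0] using this
  nlinarith

private theorem B2a_two_coord {β : Type} [DecidableEq β] {K : ℕ} (G : Finset β) (i j : Fin K)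
    (hij : i ≠ j) (g : β → β → ℝ) :
    (G.card : ℝ) ^ 2 * ∑ f ∈ Fintype.piFinset (fun _ : Fin K => G), g (f i) (f j) =
      (G.card : ℝ) ^ K * ∑ A ∈ G, ∑ A' ∈ G, g A A' := by
  classical
  have hL : (G.card : ℝ) ^ 2 * ∑ f ∈ Fintype.piFinset (fun _ : Fin K => G), g (f i) (f j) =
      ∑ p ∈ Fintype.piFinset (fun _ : Fin K => G) ×ˢ (G ×ˢ G), g (p.1 i) (p.1 j) := by
    rw [sum_product, mul_sum]
    refine sum_congr rfl fun f _ => ?_
    simp only [sum_const, card_product]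
    rw [nsmul_eq_mul]
    push_cast
    ring
  have hR : (G.card : ℝ) ^ K * ∑ A ∈ G, ∑ A' ∈ G, g A A' =
      ∑ p ∈ Fintype.piFinset (fun _ : Fin K => G) ×ˢ (G ×ˢ G), g p.2.1 p.2.2 := by
    rw [sum_product]
    simp only [sum_const, sum_product]
    rw [nsmul_eq_mul, Fintype.card_piFinset]
    simp
  rw [hL, hR]
  let φ : ((Fin K → β) × (β × β)) → ((Fin K → β) × (β × β)) :=
    fun p => (Function.update (Function.update p.1 i p.2.1) j p.2.2, (p.1 i, p.1 j))
  have hφ : ∀ p, φ (φ p) = p := by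
    rintro ⟨f, B, B'⟩
    simp only [φ]
    refine Prod.ext ?_ (Prod.ext ?_ ?_)
    · funext l
      by_cases h1 : l = j
      · subst h1; simp
      · by_cases h2 : l = i
        · subst h2; simp [h1]
        · simp [h1, h2]
    · simp [Function.update_of_ne hij]
    · simp
  have hmaps : ∀ p ∈ Fintype.piFinset (fun _ : Fin K => G) ×ˢ (G ×ˢ G),
      φ p ∈ Fintype.piFinset (fun _ : Fin K => G) ×ˢ (G ×ˢ G) := by
    rintro ⟨f, B, B'⟩ hp
    simp only [mem_product, Fintype.mem_piFinset] at hp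
    obtain ⟨hf, hB, hB'⟩ := hp
    simp only [φ, mem_product, Fintype.mem_piFinset]
    refine ⟨fun l => ?_, hf i, hf j⟩
    by_cases h1 : l = j
    · subst h1; simpa using hB'
    · by_cases h2 : l = i
      · subst h2; simpa [h1] using hB
      · simpa [h1, h2] using hf l
  refine sum_nbij' φ φ hmaps hmaps (fun p _ => hφ p) (fun p _ => hφ p) ?_
  rintro ⟨f, B, B'⟩ _
  rfl

theorem unionLower {N : ℕ} (σ : St (Sym2 (Fin N))) {ρ : ℝ} (hρ : 0 ≤ ρ)
    (G : Finset (Finset (Fin N))) (E : Finset (Fin N)) (q u K : ℕ) (hK1 : 1 ≤ K) (hG : G.Nonempty)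
    (hq : ∀ A ∈ G, A.card = q) (hE : ∀ A ∈ G, E ⊆ A) (hu : ∀ A ∈ G, (ed A \ σ.M).card ≤ u)
    (hS : Spr ρ N G E) :
    (K:ℝ) * ((q.choose 2 : ℝ) - (E.card.choose 2 : ℝ) - u) -
        (K:ℝ) ^ 2 * ρ * ((q.choose 2 : ℝ) - (E.card.choose 2 : ℝ)) ≤
      (∑ f ∈ Fintype.piFinset (fun _ : Fin K => G),
        (cl σ (univ.biUnion (fun i => ed (f i)) \ ed E) : ℝ)) / (G.card : ℝ) ^ K := by
  classical
  set P := Fintype.piFinset (fun _ : Fin K => G) with hP
  obtain ⟨A0, hA0⟩ := hG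
  have hgpos : (0:ℝ) < (G.card : ℝ) := by
    exact_mod_cast card_pos.2 ⟨A0, hA0⟩
  have hmem : ∀ f ∈ P, ∀ i, f i ∈ G := by
    intro f hf i
    exact (Fintype.mem_piFinset.1 hf) i
  have hPc : (P.card : ℝ) = (G.card : ℝ) ^ K := by
    rw [hP, Fintype.card_piFinset]; simp
  have hm : ∀ A ∈ G, ((ed A \ ed E).card : ℝ) = (q.choose 2 : ℝ) - (E.card.choose 2 : ℝ) := by
    intro A hA
    have h1 := card_sdiff_add_card_eq_card (ed_subset (hE A hA))
    rw [card_ed, card_ed, hq A hA] at h1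
    have h2 : ((ed A \ ed E).card : ℝ) + (E.card.choose 2 : ℝ) = (q.choose 2 : ℝ) := by
      exact_mod_cast h1
    linarith
  set μ : ℝ := (q.choose 2 : ℝ) - (E.card.choose 2 : ℝ) with hμ
  have hμ0 : 0 ≤ μ := by
    rw [← hm A0 hA0]; positivity
  -- one function
  have h1 : ∀ f ∈ P, (K:ℝ) * μ - (K:ℝ) * u -
      ∑ i, ∑ j ∈ univ.erase i, (((ed (f i) ∩ ed (f j)) \ ed E).card : ℝ) ≤
      (cl σ (univ.biUnion (fun i => ed (f i)) \ ed E) : ℝ) := by
    intro f hf
    have e1 : univ.biUnion (fun i => ed (f i)) \ ed E =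
        univ.biUnion (fun i => ed (f i) \ ed E) := by
      ext e; simp only [mem_sdiff, mem_biUnion]
      constructor
      · rintro ⟨⟨a, h1, h2⟩, h3⟩; exact ⟨a, h1, h2, h3⟩
      · rintro ⟨a, h1, h2, h3⟩; exact ⟨⟨a, h1, h2⟩, h3⟩
    have e2 := B2a_union_lower (fun i => ed (f i) \ ed E)
    have e3 : (∑ i, (((ed (f i) \ ed E).card : ℕ) : ℝ)) = (K:ℝ) * μ := by
      rw [sum_congr rfl fun i _ => hm (f i) (hmem f hf i)]
      simp
    have e4 : ∀ i j, (ed (f i) \ ed E) ∩ (ed (f j) \ ed E) = (ed (f i) ∩ ed (f j)) \ ed E := by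
      intro i j; ext e; simp only [mem_inter, mem_sdiff]; tauto
    simp only [e4] at e2
    rw [e3] at e2
    have e5 := cl_add_card_sdiff σ (univ.biUnion (fun i => ed (f i) \ ed E))
    have e6 : ((univ.biUnion (fun i => ed (f i) \ ed E)) \ σ.M).card ≤ K * u := by
      have h2 : (univ.biUnion (fun i => ed (f i) \ ed E)) \ σ.M ⊆
          univ.biUnion (fun i => ed (f i) \ σ.M) := by
        intro e he
        rw [mem_sdiff, mem_biUnion] at he
        obtain ⟨⟨i, hi, hei⟩, hM⟩ := he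
        exact mem_biUnion.2 ⟨i, hi, mem_sdiff.2 ⟨(mem_sdiff.1 hei).1, hM⟩⟩
      refine (card_le_card h2).trans (card_biUnion_le.trans ?_)
      calc ∑ i : Fin K, (ed (f i) \ σ.M).card ≤ ∑ _i : Fin K, u :=
            sum_le_sum fun i _ => hu _ (hmem f hf i)
        _ = K * u := by simp
    have e5' : (cl σ (univ.biUnion (fun i => ed (f i) \ ed E)) : ℝ) +
        (((univ.biUnion (fun i => ed (f i) \ ed E)) \ σ.M).card : ℝ) =
        ((univ.biUnion (fun i => ed (f i) \ ed E)).card : ℝ) := by exact_mod_cast e5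
    have e6' : (((univ.biUnion (fun i => ed (f i) \ ed E)) \ σ.M).card : ℝ) ≤ (K:ℝ) * u := by
      exact_mod_cast e6
    rw [e1]
    linarith
  -- sum over all functions
  have h2 := sum_le_sum h1
  rw [sum_sub_distrib, sum_const, nsmul_eq_mul, hPc] at h2
  have h3 : ∑ f ∈ P, ∑ i, ∑ j ∈ univ.erase i, (((ed (f i) ∩ ed (f j)) \ ed E).card : ℝ) ≤
      (K:ℝ) ^ 2 * ρ * μ * (G.card : ℝ) ^ K := by
    have hpair : ∀ i j : Fin K, i ≠ j →
        ∑ f ∈ P, (((ed (f i) ∩ ed (f j)) \ ed E).card : ℝ) ≤ ρ * μ * (G.card : ℝ) ^ K := by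
      intro i j hij
      have h4 := B2a_two_coord G i j hij (fun A A' => (((ed A ∩ ed A') \ ed E).card : ℝ))
      have h5 := sumInter hρ G E q hq hE hS
      have h6 : (G.card : ℝ) ^ 2 * ∑ f ∈ P, (((ed (f i) ∩ ed (f j)) \ ed E).card : ℝ) ≤
          (G.card : ℝ) ^ 2 * (ρ * μ * (G.card : ℝ) ^ K) := by
        rw [hP, h4]
        calc (G.card : ℝ) ^ K * ∑ A ∈ G, ∑ A' ∈ G, (((ed A ∩ ed A') \ ed E).card : ℝ)
            ≤ (G.card : ℝ) ^ K * (ρ * (G.card : ℝ) ^ 2 * μ) :=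
              mul_le_mul_of_nonneg_left h5 (by positivity)
          _ = _ := by ring
      exact le_of_mul_le_mul_left h6 (by positivity)
    rw [sum_comm]
    calc ∑ i, ∑ f ∈ P, ∑ j ∈ univ.erase i, (((ed (f i) ∩ ed (f j)) \ ed E).card : ℝ)
        = ∑ i, ∑ j ∈ univ.erase i, ∑ f ∈ P, (((ed (f i) ∩ ed (f j)) \ ed E).card : ℝ) := by
          refine sum_congr rfl fun i _ => ?_
          rw [sum_comm]
      _ ≤ ∑ i : Fin K, ∑ j ∈ univ.erase i, ρ * μ * (G.card : ℝ) ^ K := by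
          refine sum_le_sum fun i _ => sum_le_sum fun j hj => ?_
          exact hpair i j (fun h => (mem_erase.1 hj).1 h.symm)
      _ ≤ ∑ i : Fin K, ∑ j : Fin K, ρ * μ * (G.card : ℝ) ^ K := by
          refine sum_le_sum fun i _ => ?_
          refine sum_le_sum_of_subset_of_nonneg (subset_univ _) fun j _ _ => ?_
          positivity
      _ = (K:ℝ) ^ 2 * ρ * μ * (G.card : ℝ) ^ K := by
          simp only [sum_const, card_univ, Fintype.card_fin, nsmul_eq_mul]
          ring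
  rw [le_div_iff₀ (by positivity)]
  have h7 : ((K:ℝ) * (μ - u) - (K:ℝ) ^ 2 * ρ * μ) * (G.card : ℝ) ^ K =
      (G.card : ℝ) ^ K * ((K:ℝ) * μ - (K:ℝ) * u) - (K:ℝ) ^ 2 * ρ * μ * (G.card : ℝ) ^ K := by ring
  rw [h7]
  linarith

/-- weight of a union over the kernel: used in B2 -/
theorem lw_over_kernel {N : ℕ} (σ : St (Sym2 (Fin N))) (E : Finset (Fin N))
    (H : Finset (Sym2 (Fin N))) (hE : ed E ⊆ H) :
    (cl σ (ed E) : ℝ) - beta * dd σ (ed E) + (1 - 2 * beta) * (cl σ (H \ ed E) : ℝ) ≤ lw σ H := by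
  classical
  have h1 : cl σ H = cl σ (ed E) + cl σ (H \ ed E) := by
    rw [← cl_union_of_disjoint σ disjoint_sdiff, union_sdiff_of_subset hE]
  have h2 : dd σ H ≤ dd σ (ed E) + 2 * cl σ (H \ ed E) := by
    unfold dd cl
    have hsub : H.filter (fun e => σ.pi e ≠ e ∧ σ.pi e ∈ H) ⊆
        ((ed E).filter (fun e => σ.pi e ≠ e ∧ σ.pi e ∈ ed E) ∪ ((H \ ed E) ∩ σ.M)) ∪
          ((H \ ed E) ∩ σ.M).image σ.pi := by
      intro e he
      rw [mem_filter] at he
      obtain ⟨he1, he2, he3⟩ := he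
      by_cases hc : e ∈ ed E
      · by_cases hc' : σ.pi e ∈ ed E
        · exact mem_union_left _ (mem_union_left _ (mem_filter.2 ⟨hc, he2, hc'⟩))
        · apply mem_union_right
          rw [mem_image]
          refine ⟨σ.pi e, mem_inter.2 ⟨mem_sdiff.2 ⟨he3, hc'⟩, ?_⟩, σ.inv e⟩
          apply σ.mem
          rw [σ.inv]
          exact fun h => he2 h.symm
      · apply mem_union_left
        apply mem_union_right
        exact mem_inter.2 ⟨mem_sdiff.2 ⟨he1, hc⟩, σ.mem e he2⟩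
    have h3 := card_le_card hsub
    have h4 := card_union_le ((ed E).filter (fun e => σ.pi e ≠ e ∧ σ.pi e ∈ ed E) ∪
      ((H \ ed E) ∩ σ.M)) (((H \ ed E) ∩ σ.M).image σ.pi)
    have h5 := card_union_le ((ed E).filter (fun e => σ.pi e ≠ e ∧ σ.pi e ∈ ed E))
      ((H \ ed E) ∩ σ.M)
    have h6 : (((H \ ed E) ∩ σ.M).image σ.pi).card ≤ ((H \ ed E) ∩ σ.M).card := card_image_le
    omega
  unfold lw
  have h1' : (cl σ H : ℝ) = cl σ (ed E) + cl σ (H \ ed E) := by exact_mod_cast h1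
  have h2' : (dd σ H : ℝ) ≤ dd σ (ed E) + 2 * cl σ (H \ ed E) := by exact_mod_cast h2
  have hb := beta_pos
  have h7 := mul_le_mul_of_nonneg_left h2' hb.le
  rw [h1']
  nlinarith [h7]

end Pool.Agent.CG
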