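import Pool.Agent.CG.Defs

/-!
# Project CG: basic facts on weights, priors and certificates
-/

set_option autoImplicit false

namespace Pool.Agent.CG

open Finset

/-! ## the constant beta -/

theorem beta_pos : 0 < beta := by
  unfold beta
  have h : Real.logb 2 3 < 2 := by
    rw [Real.logb_lt_iff_lt_rpow (by norm_num) (by norm_num)]
    norm_num
  linarith

/-- `1.5849 < log₂ 3 < 1.5852`. -/
theorem logb_two_three_gt : (1.5849 : ℝ) < Real.logb 2 3 := by
  have h : ((84/53 : ℝ)) < Real.logb 2 3 := by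
    rw [Real.lt_logb_iff_rpow_lt (by norm_num) (by norm_num)]
    have h : ((2:ℝ) ^ (84/53 : ℝ)) ^ (53 : ℕ) < (3:ℝ) ^ (53 : ℕ) := by
      rw [← Real.rpow_natCast, ← Real.rpow_mul (by norm_num)]
      have : (84/53 : ℝ) * ((53 : ℕ) : ℝ) = ((84 : ℕ) : ℝ) := by norm_num
      rw [this, Real.rpow_natCast]
      norm_num
    exact lt_of_pow_lt_pow_left₀ 53 (by norm_num) h
  have h2 : (1.5849 : ℝ) < 84/53 := by norm_num
  linarith

theorem logb_two_three_lt : Real.logb 2 3 < (1.5852 : ℝ) := by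
  have h : Real.logb 2 3 < (149/94 : ℝ) := by
    rw [Real.logb_lt_iff_lt_rpow (by norm_num) (by norm_num)]
    have h : (3:ℝ) ^ (94 : ℕ) < ((2:ℝ) ^ (149/94 : ℝ)) ^ (94 : ℕ) := by
      rw [← Real.rpow_natCast ((2:ℝ) ^ (149/94 : ℝ)), ← Real.rpow_mul (by norm_num)]
      have : (149/94 : ℝ) * ((94 : ℕ) : ℝ) = ((149 : ℕ) : ℝ) := by norm_num
      rw [this, Real.rpow_natCast]
      norm_num
    exact lt_of_pow_lt_pow_left₀ 94 (by positivity) h
  have h2 : (149/94 : ℝ) < 1.5852 := by norm_num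
  linarith

theorem beta_gt : (0.2074 : ℝ) < beta := by
  unfold beta; have := logb_two_three_lt; linarith

theorem beta_lt : beta < (0.2076 : ℝ) := by
  unfold beta; have := logb_two_three_gt; linarith

/-- `2^(2 - 2β) = 3` -/
theorem two_rpow_beta : (2 : ℝ) ^ (2 - 2 * beta) = 3 := by
  unfold beta
  have : (2 : ℝ) - 2 * (1 - Real.logb 2 3 / 2) = Real.logb 2 3 := by ring
  rw [this, Real.rpow_logb (by norm_num) (by norm_num) (by norm_num)]

/-! ## cl, dd, lw, W -/

variable {α : Type} [DecidableEq α]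

theorem dd_le_cl (σ : St α) (H : Finset α) : dd σ H ≤ cl σ H := by
  unfold dd cl
  apply card_le_card
  intro e he
  simp only [mem_filter] at he
  simp only [mem_inter]
  exact ⟨he.1, σ.mem e he.2.1⟩

theorem cl_le_card (σ : St α) (H : Finset α) : cl σ H ≤ H.card := card_le_card inter_subset_left

theorem cl_mono (σ : St α) {H H' : Finset α} (h : H ⊆ H') : cl σ H ≤ cl σ H' :=
  card_le_card (inter_subset_inter_right h)

theorem dd_mono (σ : St α) {H H' : Finset α} (h : H ⊆ H') : dd σ H ≤ dd σ H' := by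
  unfold dd
  apply card_le_card
  intro e he
  simp only [mem_filter] at he ⊢
  exact ⟨h he.1, he.2.1, h he.2.2⟩

theorem cl_add_card_sdiff (σ : St α) (H : Finset α) : cl σ H + (H \ σ.M).card = H.card := by
  unfold cl; rw [add_comm]; exact card_sdiff_add_card_inter H σ.M

theorem lw_le_cl (σ : St α) (H : Finset α) : lw σ H ≤ cl σ H := by
  unfold lw
  have := beta_pos
  have : 0 ≤ beta * (dd σ H : ℝ) := by positivity
  linarith

theorem lw_ge (σ : St α) (H : Finset α) : (1 - beta) * (cl σ H : ℝ) ≤ lw σ H := by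
  unfold lw
  have h1 := beta_pos
  have h2 : (dd σ H : ℝ) ≤ cl σ H := by exact_mod_cast dd_le_cl σ H
  nlinarith

theorem lw_nonneg (σ : St α) (H : Finset α) : 0 ≤ lw σ H := by
  refine le_trans ?_ (lw_ge σ H)
  have := beta_lt
  have : 0 ≤ 1 - beta := by linarith
  positivity

theorem W_nonneg (σ : St α) (H : Finset α) : 0 ≤ W σ H := by
  unfold W; split_ifs <;> positivity

theorem W_of_disjoint {σ : St α} {H : Finset α} (h : Disjoint H σ.B) : W σ H = (2:ℝ) ^ (lw σ H) := by
  unfold W; rw [if_pos h]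

theorem one_le_W_of_disjoint {σ : St α} {H : Finset α} (h : Disjoint H σ.B) : 1 ≤ W σ H := by
  rw [W_of_disjoint h]
  exact Real.one_le_rpow (by norm_num) (lw_nonneg σ H)

/-- disjoint unions: `dd` is superadditive -/
theorem dd_add_le (σ : St α) {H H' : Finset α} (h : Disjoint H H') :
    dd σ H + dd σ H' ≤ dd σ (H ∪ H') := by
  unfold dd
  rw [← card_union_of_disjoint]
  · apply card_le_card
    intro e he
    simp only [mem_union, mem_filter] at he ⊢
    rcases he with he | he
    · exact ⟨Or.inl he.1, he.2.1, Or.inl he.2.2⟩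
    · exact ⟨Or.inr he.1, he.2.1, Or.inr he.2.2⟩
  · exact disjoint_filter_filter h

theorem cl_union_of_disjoint (σ : St α) {H H' : Finset α} (h : Disjoint H H') :
    cl σ (H ∪ H') = cl σ H + cl σ H' := by
  unfold cl
  rw [union_inter_distrib_right, card_union_of_disjoint]
  exact disjoint_of_subset_left inter_subset_left (disjoint_of_subset_right inter_subset_left h)

/-- `lw` is subadditive on disjoint unions -/
theorem lw_union_le (σ : St α) {H H' : Finset α} (h : Disjoint H H') :
    lw σ (H ∪ H') ≤ lw σ H + lw σ H' := by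
  unfold lw
  have h1 := dd_add_le σ h
  have h2 := cl_union_of_disjoint σ h
  have h1' : (dd σ H : ℝ) + dd σ H' ≤ dd σ (H ∪ H') := by exact_mod_cast h1
  have h2' : (cl σ (H ∪ H') : ℝ) = cl σ H + cl σ H' := by exact_mod_cast h2
  have := beta_pos
  rw [h2']
  nlinarith

/-! ## restricted states -/

section restr

/-- the state restricted to an edge set -/
def restr (σ : St α) (X : Finset α) : St α where
  M := σ.M ∩ X
  B := σ.B ∩ X
  pi := fun e => if e ∈ X ∧ σ.pi e ∈ X then σ.pi e else e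
  inv := by
    intro e
    by_cases h : e ∈ X ∧ σ.pi e ∈ X
    · simp only [if_pos h, σ.inv]
      rw [if_pos ⟨h.2, h.1⟩]
    · simp only [if_neg h]
  mem := by
    intro e he
    by_cases h : e ∈ X ∧ σ.pi e ∈ X
    · simp only [if_pos h] at he
      exact mem_inter.2 ⟨σ.mem e he, h.1⟩
    · simp only [if_neg h] at he
      exact absurd rfl he

theorem restr_pi_of_mem (σ : St α) {X : Finset α} {e : α} (h : e ∈ X) (h' : σ.pi e ∈ X) :
    (restr σ X).pi e = σ.pi e := by
  show (if e ∈ X ∧ σ.pi e ∈ X then σ.pi e else e) = σ.pi e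
  rw [if_pos ⟨h, h'⟩]

theorem cl_restr (σ : St α) {X H : Finset α} (h : H ⊆ X) : cl (restr σ X) H = cl σ H := by
  unfold cl
  congr 1
  ext e
  simp only [mem_inter, restr]
  exact ⟨fun ⟨h1, h2, _⟩ => ⟨h1, h2⟩, fun ⟨h1, h2⟩ => ⟨h1, h2, h h1⟩⟩

theorem dd_restr (σ : St α) {X H : Finset α} (h : H ⊆ X) : dd (restr σ X) H = dd σ H := by
  unfold dd
  congr 1
  apply filter_congr
  intro e he
  by_cases hX : e ∈ X ∧ σ.pi e ∈ X
  · rw [restr_pi_of_mem σ hX.1 hX.2]
  · have h1 : (restr σ X).pi e = e := by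
      show (if e ∈ X ∧ σ.pi e ∈ X then σ.pi e else e) = e
      rw [if_neg hX]
    have h2 : σ.pi e ∉ H := fun hc => hX ⟨h he, h hc⟩
    simp [h1, h2]

theorem lw_restr (σ : St α) {X H : Finset α} (h : H ⊆ X) : lw (restr σ X) H = lw σ H := by
  unfold lw; rw [cl_restr σ h, dd_restr σ h]

theorem disjoint_restr (σ : St α) {X H : Finset α} (h : H ⊆ X) :
    Disjoint H (restr σ X).B ↔ Disjoint H σ.B := by
  constructor
  · intro hd
    rw [disjoint_left] at hd ⊢
    intro e he hB
    exact hd he (mem_inter.2 ⟨hB, h he⟩)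
  · intro hd
    exact disjoint_of_subset_right inter_subset_left hd

end restr

/-! ## priors and certificates -/

variable [Fintype α]

theorem Phi_nonneg {c : Finset α → ℝ} (hc : ∀ H, 0 ≤ c H) (σ : St α) : 0 ≤ Phi c σ :=
  sum_nonneg fun H _ => mul_nonneg (hc H) (W_nonneg σ H)

theorem Cert.mono {K K' : ℝ} {P Q : St α → Prop} (h : Cert K P) (hK : K' ≤ K)
    (hPQ : ∀ σ, P σ → Q σ) : Cert K' Q := by
  obtain ⟨c, hc, h⟩ := h
  exact ⟨c, hc, fun σ hσ => hPQ σ (h σ (hσ.trans hK))⟩

theorem Cert.of_forall {K : ℝ} {P : St α → Prop} (h : ∀ σ, P σ) : Cert K P :=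
  ⟨fun _ => 0, ⟨fun _ => le_rfl, by simp⟩, fun σ _ => h σ⟩

/-- (R2) finitely many certificates at once -/
theorem Cert.forall {Θ : Type} [Fintype Θ] [Nonempty Θ] {K : ℝ} {P : Θ → St α → Prop}
    (h : ∀ θ, Cert (K * Fintype.card Θ) (P θ)) : Cert K (fun σ => ∀ θ, P θ σ) := by
  classical
  choose c hc hP using h
  have hpos : (0:ℝ) < Fintype.card Θ := by exact_mod_cast Fintype.card_pos
  refine ⟨fun H => (∑ θ, c θ H) / Fintype.card Θ, ⟨fun H => ?_, ?_⟩, fun σ hσ θ => ?_⟩
  · exact div_nonneg (sum_nonneg fun θ _ => (hc θ).1 H) hpos.le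
  · rw [← sum_div, sum_comm, div_le_one hpos]
    calc ∑ θ, ∑ H, c θ H ≤ ∑ _θ : Θ, (1:ℝ) := sum_le_sum fun θ _ => (hc θ).2
      _ = Fintype.card Θ := by simp
  · apply hP
    have h1 : Phi (c θ) σ ≤ ∑ θ, Phi (c θ) σ :=
      single_le_sum (f := fun θ => Phi (c θ) σ) (fun θ _ => Phi_nonneg (hc θ).1 σ) (mem_univ θ)
    have h2 : ∑ θ, Phi (c θ) σ = Phi (fun H => (∑ θ, c θ H) / Fintype.card Θ) σ * Fintype.card Θ := by
      unfold Phi
      rw [sum_comm, sum_mul]
      refine sum_congr rfl fun H _ => ?_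
      rw [← sum_mul]
      field_simp
    rw [h2] at h1
    exact h1.trans (mul_le_mul_of_nonneg_right hσ hpos.le)

theorem Cert.and {K : ℝ} {P Q : St α → Prop} (hP : Cert (2 * K) P) (hQ : Cert (2 * K) Q) :
    Cert K (fun σ => P σ ∧ Q σ) := by
  have h : Cert K (fun σ => ∀ b : Bool, (if b then P σ else Q σ)) := by
    apply Cert.forall
    intro b
    have : (Fintype.card Bool : ℝ) = 2 := by simp
    rw [this, mul_comm]
    cases b
    · simpa using hQ
    · simpa using hP
  exact h.mono le_rfl fun σ h => ⟨by simpa using h true, by simpa using h false⟩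

/-- (R3) certificates from finite families of edge sets -/
theorem Cert.family {ι : Type} [Fintype ι] {K : ℝ} (H : ι → Finset α) :
    Cert K (fun σ => ∑ i, W σ (H i) ≤ K * Fintype.card ι) := by
  classical
  rcases isEmpty_or_nonempty ι with hι | hι
  · exact Cert.of_forall fun σ => by simp
  have hpos : (0:ℝ) < Fintype.card ι := by exact_mod_cast Fintype.card_pos
  refine ⟨fun X => ((univ.filter (fun i => H i = X)).card : ℝ) / Fintype.card ι,
    ⟨fun X => by positivity, ?_⟩, fun σ hσ => ?_⟩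
  · rw [← sum_div, div_le_one hpos]
    have : ∑ X, (univ.filter (fun i => H i = X)).card = (univ : Finset ι).card :=
      (card_eq_sum_card_fiberwise (f := H) (t := univ) (fun i _ => mem_univ _)).symm
    have h2 : (∑ X, ((univ.filter (fun i => H i = X)).card : ℝ)) = ((univ : Finset ι).card : ℝ) := by
      exact_mod_cast this
    rw [h2]; simp
  · have h1 : ∑ i, W σ (H i) = ∑ X, ((univ.filter (fun i => H i = X)).card : ℝ) * W σ X := by
      rw [← sum_fiberwise (s := univ) (g := H) (f := fun i => W σ (H i))]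
      refine sum_congr rfl fun X _ => ?_
      rw [sum_congr rfl (g := fun _ => W σ X)]
      · simp
      · intro i hi; simp at hi; rw [hi]
    have h2 : Phi (fun X => ((univ.filter (fun i => H i = X)).card : ℝ) / Fintype.card ι) σ
        * Fintype.card ι = ∑ X, ((univ.filter (fun i => H i = X)).card : ℝ) * W σ X := by
      unfold Phi
      rw [sum_mul]
      refine sum_congr rfl fun X _ => ?_
      field_simp
    show ∑ i, W σ (H i) ≤ K * Fintype.card ι
    rw [h1, ← h2]
    exact mul_le_mul_of_nonneg_right hσ hpos.le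

end Pool.Agent.CG
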