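import Pool.Agent.CG.B2a
import Pool.Agent.CG.B2n

/-!
# CG C1: regime II.1

PAPER PROOF. Combine `tupleStep N k (q-k) (10^20) (N^20)` for all k ≤ q. Let σ, E, G be as stated,
k = |E| ≥ 0.6L, m = q - k, and suppose Spr ρ N G E, ρ = N^(-kap0). G nonempty; for A ∈ G:
1.96 J q ≤ dd ≤ cl ≤ C(q,2) ≤ q²/2, so 4J ≤ 1.1 q (q > 0). |G| ≤ C(N,m) ≤ 2^(mL) (A ↦ A \ E), so
0.77 u ≤ mL. If m = 0 then |G| ≤ 1, u ≤ 0: impossible for N large (or covered by numII1). For f,
lw σ (⋃ ed (f i)) ≥ (1-β) cl σ (⋃ ed (f i) \ ed E) (`lw_ge`, `cl_mono`), average with `unionLower`: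
10^20 * 0.77u + (1-β)(…) ≤ 10^20 log₂|G| + avg lw ≤ 20L + kL + 10^20 mL, contradiction to `numII1`.
-/

set_option autoImplicit false

namespace Pool.Agent.CG

open Finset Filter

private theorem C1_choose_le (N a : ℕ) (hN : 1 ≤ N) (h : 0 < N.choose a) :
    Real.logb 2 (N.choose a : ℝ) ≤ a * LL N := by
  have h1 : (N.choose a : ℝ) ≤ (N:ℝ) ^ a := by exact_mod_cast Nat.choose_le_pow N a
  have h2 : Real.logb 2 (N.choose a : ℝ) ≤ Real.logb 2 ((N:ℝ) ^ a) :=
    Real.logb_le_logb_of_le (by norm_num) (by exact_mod_cast h) h1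
  rw [Real.logb_pow] at h2
  exact h2

theorem C1_card_le {N : ℕ} (G : Finset (Finset (Fin N))) (E : Finset (Fin N)) (q : ℕ)
    (hq : ∀ A ∈ G, A.card = q) (hE : ∀ A ∈ G, E ⊆ A) : G.card ≤ N.choose (q - E.card) := by
  have h : G.card ≤ (powersetCard (q - E.card) (univ : Finset (Fin N))).card := by
    apply card_le_card_of_injOn (fun A => A \ E)
    · intro A hA
      rw [mem_coe] at hA
      rw [mem_coe, mem_powersetCard]
      exact ⟨subset_univ _, by rw [card_sdiff_of_subset (hE A hA), hq A hA]⟩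
    · intro A hA A' hA' h
      rw [mem_coe] at hA hA'
      have h' : A \ E = A' \ E := h
      rw [← sdiff_union_of_subset (hE A hA), h', sdiff_union_of_subset (hE A' hA')]
  rwa [card_powersetCard, card_univ, Fintype.card_fin] at h

theorem regII1 : ∀ᶠ C : ℕ in atTop, ∀ᶠ N : ℕ in atTop, ∀ q J : ℕ, Reg C N q → C ≤ J → J ≤ q →
    eta * LL N ≤ (J:ℝ) →
    Cert ((N:ℝ) ^ 10) (fun σ : St (Sym2 (Fin N)) => ∀ E : Finset (Fin N),
      (0.6:ℝ) * LL N ≤ E.card → ∀ G ⊆ GJ σ q J, (∀ A ∈ G, E ⊆ A) →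
        (2:ℝ) ^ ((0.77:ℝ) * uJ N J) ≤ G.card →
        ¬ Spr ((N:ℝ) ^ (-kap0)) N G E) := by
  filter_upwards [numII1, regNum] with C h1 h2
  filter_upwards [h1, h2, eventually_ge_atTop 4] with N h1 h2 hN
  intro q J hreg _ hJq hJ
  have hnum := h1 q J
  obtain ⟨hq1, hq2, hL, -⟩ := h2 q hreg
  have hN4 : (4:ℝ) ≤ N := by exact_mod_cast hN
  have hLpos : 0 < LL N := lt_of_lt_of_le (by positivity) hL
  have hqpos : (0:ℝ) < q := by nlinarith
  have hLN : LL N ≤ N := by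
    unfold LL
    rw [Real.logb_le_iff_le_rpow (by norm_num) (by linarith)]
    have := one_add_mul_self_le_rpow_one_add (s := 1) (p := (N:ℝ)) (by norm_num) (by linarith)
    norm_num at this ⊢
    linarith
  obtain ⟨K, hK⟩ : ∃ K : ℕ, K = 10 ^ 20 := ⟨_, rfl⟩
  have hK1 : 1 ≤ K := by rw [hK]; norm_num
  have hKr : (K:ℝ) = 10 ^ 20 := by rw [hK]; norm_num
  have hcert : Cert ((N:ℝ) ^ 10) (fun σ : St (Sym2 (Fin N)) => ∀ k : Fin (q + 1),
      ∀ E : Finset (Fin N), E.card = (k:ℕ) →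
      ∀ G : Finset (Finset (Fin N)), (∀ A ∈ G, E ⊆ A ∧ A.card = k + (q - k) ∧
        Disjoint (ed A) σ.B) → G.Nonempty →
        (G.card : ℝ) ^ K * (2:ℝ) ^ ((∑ f ∈ Fintype.piFinset (fun _ : Fin K => G),
          lw σ (univ.biUnion (fun i => ed (f i)))) / (G.card : ℝ) ^ K) ≤
            (N:ℝ) ^ 20 * ((N.choose k : ℝ) * (N.choose (q - k) : ℝ) ^ K)) := by
    apply Cert.forall
    intro k
    refine (tupleStep N k (q - k) K hK1 ((N:ℝ) ^ 20) (by positivity)).mono ?_ fun σ h => h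
    rw [Fintype.card_fin]
    push_cast
    have h3 : (q:ℝ) + 1 ≤ (N:ℝ) ^ 10 := by
      have : (q:ℝ) + 1 ≤ 3 * N := by linarith
      have h4 : (3:ℝ) ≤ (N:ℝ) ^ 9 := by
        calc (3:ℝ) ≤ 4 ^ 9 := by norm_num
          _ ≤ (N:ℝ) ^ 9 := pow_le_pow_left₀ (by norm_num) hN4 9
      have h5 : (N:ℝ) ^ 10 = (N:ℝ) ^ 9 * N := by ring
      nlinarith
    calc (N:ℝ) ^ 10 * ((q:ℝ) + 1) ≤ (N:ℝ) ^ 10 * (N:ℝ) ^ 10 :=
          mul_le_mul_of_nonneg_left h3 (by positivity)
      _ = (N:ℝ) ^ 20 := by ring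
  refine hcert.mono le_rfl ?_
  intro σ hσ E hE G hG hGE hcard hS
  have hGpos : (0:ℝ) < G.card := lt_of_lt_of_le (by positivity) hcard
  have hGne : G.Nonempty := by
    rw [← card_pos]; exact_mod_cast hGpos
  obtain ⟨A₀, hA₀⟩ := hGne
  have hmem : ∀ A ∈ G, A.card = q ∧ Disjoint (ed A) σ.B ∧ (ed A \ σ.M).card ≤ uJ N J ∧
      (1.96 : ℝ) * J * q ≤ (dd σ (ed A) : ℝ) := by
    intro A hA
    have := hG hA
    unfold GJ at this
    rw [mem_filter, mem_powersetCard] at this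
    exact ⟨this.1.2, this.2.1, this.2.2.1, this.2.2.2.1⟩
  have hEq : E.card ≤ q := by
    rw [← (hmem A₀ hA₀).1]; exact card_le_card (hGE A₀ hA₀)
  set k := E.card with hk
  set m := q - k with hm
  have hkm : k + m = q := by omega
  have hkmr : (k:ℝ) + m = q := by exact_mod_cast hkm
  -- 4 J ≤ 1.1 q
  have h4J : 4 * (J:ℝ) ≤ 1.1 * q := by
    have h3 := (hmem A₀ hA₀).2.2.2
    have h4 : (dd σ (ed A₀) : ℝ) ≤ (q.choose 2 : ℝ) := by
      have h5 := (dd_le_cl σ (ed A₀)).trans (cl_le_card σ (ed A₀))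
      rw [card_ed, (hmem A₀ hA₀).1] at h5
      exact_mod_cast h5
    rw [Nat.cast_choose_two] at h4
    by_contra hneg
    push Not at hneg
    nlinarith
  -- 0.77 u ≤ m L
  have hcardle := C1_card_le G E q (fun A hA => (hmem A hA).1) hGE
  have hchpos : 0 < N.choose m := by
    have : 0 < G.card := by exact_mod_cast hGpos
    exact lt_of_lt_of_le this hcardle
  have hlogG1 : Real.logb 2 (G.card : ℝ) ≤ m * LL N := by
    refine le_trans ?_ (C1_choose_le N m (by omega) hchpos)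
    exact Real.logb_le_logb_of_le (by norm_num) hGpos (by exact_mod_cast hcardle)
  have hlogG2 : 0.77 * (uJ N J : ℝ) ≤ Real.logb 2 (G.card : ℝ) := by
    rw [Real.le_logb_iff_rpow_le (by norm_num) hGpos]
    exact hcard
  have hnum' := hnum k m hreg hJ h4J hkm hE (hlogG2.trans hlogG1) _ rfl
  -- compression
  have hT := hσ ⟨k, by omega⟩ E rfl G (fun A hA => ⟨hGE A hA, by
    rw [(hmem A hA).1]; exact hkm.symm, (hmem A hA).2.1⟩) ⟨A₀, hA₀⟩
  simp only [] at hT
  have hU := unionLower σ (ρ := (N:ℝ) ^ (-kap0)) (by positivity) G E q (uJ N J) K hK1 ⟨A₀, hA₀⟩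
    (fun A hA => (hmem A hA).1) hGE (fun A hA => (hmem A hA).2.2.1) hS
  set avg := (∑ f ∈ Fintype.piFinset (fun _ : Fin K => G),
          lw σ (univ.biUnion (fun i => ed (f i)))) / (G.card : ℝ) ^ K with havg
  have hbeta := beta_lt
  have hbeta0 := beta_pos
  have havg2 : (1 - beta) * ((∑ f ∈ Fintype.piFinset (fun _ : Fin K => G),
        (cl σ (univ.biUnion (fun i => ed (f i)) \ ed E) : ℝ)) / (G.card : ℝ) ^ K) ≤ avg := by
    rw [havg, ← mul_div_assoc, mul_sum]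
    apply div_le_div_of_nonneg_right _ (by positivity)
    apply sum_le_sum
    intro f _
    refine le_trans ?_ (lw_ge σ _)
    apply mul_le_mul_of_nonneg_left _ (by linarith)
    exact_mod_cast cl_mono σ sdiff_subset
  have hlog : (K:ℝ) * Real.logb 2 (G.card : ℝ) + avg ≤
      20 * LL N + k * LL N + K * (m * LL N) := by
    have hkch : 0 < N.choose k := by
      apply Nat.choose_pos
      have := card_le_univ E
      rwa [Fintype.card_fin] at this
    have hleft : Real.logb 2 ((G.card : ℝ) ^ K * (2:ℝ) ^ avg) =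
        (K:ℝ) * Real.logb 2 (G.card : ℝ) + avg := by
      rw [Real.logb_mul (by positivity) (by positivity), Real.logb_pow, Real.logb_rpow (by norm_num)
        (by norm_num)]
    have hkch' : (0:ℝ) < (N.choose k : ℝ) := by exact_mod_cast hkch
    have hmch' : (0:ℝ) < (N.choose m : ℝ) := by exact_mod_cast hchpos
    have hNpos : (0:ℝ) < N := by linarith
    have hright : Real.logb 2 ((N:ℝ) ^ 20 * ((N.choose k : ℝ) * (N.choose m : ℝ) ^ K)) =
        20 * LL N + (Real.logb 2 (N.choose k : ℝ) + K * Real.logb 2 (N.choose m : ℝ)) := by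
      rw [Real.logb_mul (by positivity) (by positivity), Real.logb_mul (by positivity)
        (by positivity), Real.logb_pow, Real.logb_pow]
      unfold LL
      norm_num
    have hle := Real.logb_le_logb_of_le (b := 2) (by norm_num) (by positivity) hT
    rw [hleft, hright] at hle
    have h6 := C1_choose_le N k (by omega) hkch
    have h7 := C1_choose_le N m (by omega) hchpos
    have h8 : (K:ℝ) * Real.logb 2 (N.choose m : ℝ) ≤ K * (m * LL N) :=
      mul_le_mul_of_nonneg_left h7 (by positivity)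
    linarith
  have h9 : (1 - beta) * ((K:ℝ) * ((q.choose 2 : ℝ) - (k.choose 2 : ℝ) - uJ N J) -
        (K:ℝ) ^ 2 * (N:ℝ) ^ (-kap0) * ((q.choose 2 : ℝ) - (k.choose 2 : ℝ))) ≤ avg :=
    (mul_le_mul_of_nonneg_left hU (by linarith)).trans havg2
  have h10 : (K:ℝ) * (0.77 * uJ N J) ≤ (K:ℝ) * Real.logb 2 (G.card : ℝ) :=
    mul_le_mul_of_nonneg_left hlogG2 (by positivity)
  rw [← hKr] at hnum'
  linarith

end Pool.Agent.CG
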