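import Pool.Agent.CG.Ed
import Pool.Agent.CG.S7

/-!
# CG D0: definitions of regime II.2

A member of the family is written as a tuple `a : Fin q → Fin N` (the positions are `Fin q`), with the
positions `< k'` occupied by the kernel `E' = insert x E`.  `rho p = some (z, w)` means that the
partner of the edge `s(x, a p)` is `s(a z, a w)`.
-/

set_option autoImplicit false

namespace Pool.Agent.CG

open Finset

/-- gap constant -/
noncomputable def g2 : ℝ := 1 / 10 ^ 40

/-- density of heavy positions -/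
noncomputable def kap2 : ℝ := 1 / 10 ^ 40

/-- number of levels -/
def nL : ℕ := 4 * 10 ^ 19 + 1

/-- number of shifts; `kap0 / (4 * nM) = 5 * g2` -/
def nM : ℕ := 5 * 10 ^ 19

/-- number of heavy pairs allowed -/
noncomputable def tau2 (N : ℕ) : ℝ := 6 * kap2 * LL N ^ 2

variable {N q : ℕ}

/-- support of a family of tuples at a position -/
def supp (G : Finset (Fin q → Fin N)) (p : Fin q) : Finset (Fin N) := G.image (fun a => a p)

/-- the edges of the tuple `b` on a set of pairs of positions -/
def cnt (C : Finset (Fin q × Fin q)) (b : Fin q → Fin N) : Finset (Sym2 (Fin N)) :=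
  C.image (fun pp => s(b pp.1, b pp.2))

/-- the pair `(v, v')` is heavy at the pair of positions `(p, p')` -/
def Hv (G : Finset (Fin q → Fin N)) (p p' : Fin q) (v v' : Fin N) : Prop :=
  (N:ℝ) ^ (3 * g2) * (G.card : ℝ) <
    ((G.filter (fun a => a p = v ∧ a p' = v')).card : ℝ) * (supp G p).card * (supp G p').card

/-- `G` maximises `log |G'| - lam * ∑ log |supp G' p|` among its nonempty subfamilies `G'`,
`lam = 10 / (kap2 * g2 * L)` -/
def Ent (G : Finset (Fin q → Fin N)) : Prop :=
  ∀ G' ⊆ G, G'.Nonempty →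
    Real.logb 2 (G'.card : ℝ) - 10 / (kap2 * g2 * LL N) * ∑ p, Real.logb 2 ((supp G' p).card : ℝ) ≤
    Real.logb 2 (G.card : ℝ) - 10 / (kap2 * g2 * LL N) * ∑ p, Real.logb 2 ((supp G p).card : ℝ)

/-- condition of a window (`C` = pairs of positions, `l` = floor of the weight, `F` = sampled set) -/
def WinOK (σ : St (Sym2 (Fin N))) (C : Finset (Fin q × Fin q)) (l : ℕ)
    (F : Finset (Sym2 (Fin N))) (τ : ℝ) (b : Fin q → Fin N) : Prop :=
  Disjoint (cnt C b) σ.B ∧ (l : ℝ) ≤ lw σ (cnt C b) ∧ ((cnt C b ∩ F).card : ℝ) ≤ τ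

open Classical in
/-- partial tuples: the positions of level `< s` are filled (by elements of `R p`, the rules hold
there), the other positions carry the dummy `x`; the conditions of the windows `j < t` hold. -/
noncomputable def PT {n : ℕ} (σ : St (Sym2 (Fin N))) (lev : Fin q → Fin n)
    (rule : Fin q → Option (Fin q × Fin q)) (Cn : Fin n → Finset (Fin q × Fin q)) (l : Fin n → ℕ)
    (x : Fin N) (R : Fin q → Finset (Fin N)) (F : Fin n → Finset (Sym2 (Fin N))) (τ : ℝ)
    (s t : ℕ) : Finset (Fin q → Fin N) :=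
  univ.filter (fun b =>
    (∀ p, (lev p : ℕ) < s → b p ∈ R p) ∧ (∀ p, s ≤ (lev p : ℕ) → b p = x) ∧
    (∀ p z w, (lev p : ℕ) < s → rule p = some (z, w) → σ.pi s(x, b p) = s(b z, b w)) ∧
    ∀ j : Fin n, (j : ℕ) < t → WinOK σ (Cn j) (l j) (F j) τ b)

end Pool.Agent.CG
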