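import Pool.Agent.CG.D0
import Pool.Agent.CG.S1
import Pool.Agent.CG.S4

/-!
# CG D1a: adaptive sampling (the item set depends on the state through few edges)

PAPER PROOF of `cardSubLe`: a set of size ≤ b is the range of a map Fin b → Option α (see S4.lean,
`S4_enc`), or ∑_{i ≤ b} C(n,i) ≤ (n+1)^b.
PAPER PROOF of `adaptive`. Let `Sm` be the set of small states of `card_small` (parameter b). For each
s ∈ {0,…,|ι|} apply `sampling` with Δ = {τ // τ ∈ Sm} × Θ, T(τ,θ) = if |T τ θ| = s then T τ θ else ∅,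
t = s, prior constant K * (|ι| + 1); combine over s with `Cert.forall` (Θ := Fin (|ι|+1)).
Let σ, θ, A, l, τ be given and s = |T σ θ|. By `hT` there is X with |X| ≤ b and
T (restr σ X) θ = T σ θ; restr σ X ∈ Sm because its M and B are contained in X. Use the certificate for
s at the data (restr σ X, θ). |Δ| ≤ (|α|+1)^(3b) * |Θ| and rpow with exponent 1/w ≥ 0 is monotone.
-/

set_option autoImplicit false

namespace Pool.Agent.CG

open Finset

private noncomputable def D1a_enc {α : Type} (b : ℕ) (S : Finset α) : Fin b → Option α :=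
  fun i => S.toList[i.val]?

private theorem D1a_enc_mem {α : Type} {b : ℕ} {S : Finset α} (h : S.card ≤ b) (e : α) :
    e ∈ S ↔ ∃ i, D1a_enc b S i = some e := by
  unfold D1a_enc
  rw [← Finset.mem_toList, List.mem_iff_getElem?]
  constructor
  · rintro ⟨n, hn⟩
    have h1 : n < S.toList.length := by
      by_contra h2
      rw [List.getElem?_eq_none (by omega)] at hn
      exact absurd hn (by simp)
    rw [Finset.length_toList] at h1
    exact ⟨⟨n, by omega⟩, hn⟩
  · rintro ⟨i, hi⟩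
    exact ⟨i.val, hi⟩

theorem cardSubLe {α : Type} [DecidableEq α] [Fintype α] (b : ℕ) :
    ((univ : Finset (Finset α)).filter (fun S => S.card ≤ b)).card ≤ (Fintype.card α + 1) ^ b := by
  classical
  have h1 : ((univ : Finset (Finset α)).filter (fun S => S.card ≤ b)).card ≤
      (univ : Finset (Fin b → Option α)).card := by
    apply Finset.card_le_card_of_injOn (D1a_enc b) (fun _ _ => Finset.mem_univ _)
    intro S hS T hT h
    rw [Finset.mem_coe, mem_filter] at hS hT
    ext e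
    rw [D1a_enc_mem hS.2, D1a_enc_mem hT.2, h]
  refine h1.trans (le_of_eq ?_)
  rw [Finset.card_univ, Fintype.card_fun, Fintype.card_fin, Fintype.card_option]

theorem adaptive {α ι Θ : Type} [DecidableEq α] [Fintype α] [DecidableEq ι] [Fintype ι] [Fintype Θ]
    (T : St α → Θ → Finset ι) (Pr : Θ → ι → Finset α) (b p w : ℕ) (K : ℝ) (hK : 0 ≤ K)
    (hw : 1 ≤ w) (hp : ∀ σ θ, ∀ a ∈ T σ θ, (Pr θ a).card ≤ p)
    (hT : ∀ σ θ, ∃ X : Finset α, X.card ≤ b ∧ T (restr σ X) θ = T σ θ) :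
    Cert K (fun σ : St α => ∀ θ : Θ, ∀ A ⊆ T σ θ, ∀ l τ : ℝ,
      (∀ a ∈ A, Disjoint (Pr θ a) σ.B ∧ l ≤ lw σ (Pr θ a)) →
      ∃ F : Finset α, F.card ≤ 2 * w * p ∧
        ((A.filter (fun a => ((Pr θ a ∩ F).card : ℝ) ≤ τ)).card : ℝ) * (2:ℝ) ^ (l - τ) ≤
          ((T σ θ).card : ℝ) * (K * (Fintype.card ι + 1) *
            ((Fintype.card α + 1) ^ (3 * b) * Fintype.card Θ)) ^ (1 / (w : ℝ))) := by
  classical
  obtain ⟨Sm, hSm, hSmc⟩ := card_small (α := α) b
  let Q : Fin (Fintype.card ι + 1) → ({τ : St α // τ ∈ Sm} × Θ) → Finset ι :=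
    fun s D => if (T D.1.1 D.2).card = (s : ℕ) then T D.1.1 D.2 else ∅
  have hall := Cert.forall (K := K) (Θ := Fin (Fintype.card ι + 1))
    (P := fun s σ => ∀ D : ({τ : St α // τ ∈ Sm} × Θ), ∀ A ⊆ Q s D, ∀ l τ : ℝ,
      (∀ a ∈ A, Disjoint (Pr D.2 a) σ.B ∧ l ≤ lw σ (Pr D.2 a)) →
      ∃ F : Finset α, F.card ≤ 2 * w * p ∧
        ((A.filter (fun a => ((Pr D.2 a ∩ F).card : ℝ) ≤ τ)).card : ℝ) * (2:ℝ) ^ (l - τ) ≤
          (s : ℕ) * (K * Fintype.card (Fin (Fintype.card ι + 1)) *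
            Fintype.card ({τ : St α // τ ∈ Sm} × Θ)) ^ (1 / (w : ℝ))) ?_
  swap
  · intro s
    apply sampling (Q s) (fun D => Pr D.2) ((s : ℕ) : ℝ) p w _
      (mul_nonneg hK (Nat.cast_nonneg _)) hw
    · intro D
      simp only [Q]
      split_ifs with h
      · rw [h]
      · simp
    · intro D a ha
      simp only [Q] at ha
      split_ifs at ha with h
      · exact hp _ _ a ha
      · simp at ha
  refine hall.mono le_rfl fun σ hσ θ A hA l τ hAl => ?_
  obtain ⟨X, hX, hTX⟩ := hT σ θ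
  have hmem : restr σ X ∈ Sm := by
    rw [hSm]
    exact ⟨(card_le_card inter_subset_right).trans hX, (card_le_card inter_subset_right).trans hX⟩
  have hs : (T σ θ).card < Fintype.card ι + 1 := by
    have := card_le_univ (T σ θ)
    omega
  obtain ⟨F, hF1, hF2⟩ := hσ ⟨(T σ θ).card, hs⟩ (⟨restr σ X, hmem⟩, θ) A
    (by simp only [Q, hTX, if_true]; exact hA) l τ hAl
  refine ⟨F, hF1, hF2.trans ?_⟩
  apply mul_le_mul_of_nonneg_left _ (Nat.cast_nonneg _)
  apply Real.rpow_le_rpow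
  · exact mul_nonneg (mul_nonneg hK (Nat.cast_nonneg _)) (Nat.cast_nonneg _)
  · rw [Fintype.card_fin, Fintype.card_prod, Fintype.card_coe]
    push_cast
    apply mul_le_mul_of_nonneg_left _ (mul_nonneg hK (by positivity))
    apply mul_le_mul_of_nonneg_right _ (Nat.cast_nonneg _)
    exact_mod_cast hSmc
  · positivity

end Pool.Agent.CG
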