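import Pool.Agent.CG.D0

/-!
# CG D1b: the partial tuples depend on few edges; numerics of the level step

PAPER PROOF of `ptCongr`: `PT` only uses R p for lev p < s and F j for j < t.
PAPER PROOF of `ptRestr`: let X be the set of all edges s(x,v), v ∈ R p, lev p < s, together with their
partners σ.pi s(x,v), and all edges s(v,v') with v ∈ R p, v' ∈ R p', (p,p') ∈ Cn j, j < t. Then
|X| ≤ 2 q m + q² … precisely: the first two kinds are at most 2 q m, the third kind at most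
∑_{(p,p')} |R p||R p'| over the pairs of positions that occur in some window j < t: at most q² m
(use the union over all pairs (p,p') ∈ Fin q × Fin q for which some j < t has (p,p') ∈ Cn j). Total
≤ 2qm + q²m ≤ 3 q² m. For b with b p ∈ R p (lev p < s): the edges s(x, b p) and their partners lie in X,
so (restr σ X).pi s(x, b p) = σ.pi s(x, b p) (`restr_pi_of_mem`); and cnt (Cn j) b ⊆ X for j < t (levels of
window positions are ≤ j < t ≤ s), so `disjoint_restr`, `lw_restr` apply. Hence the two filters agree.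
PAPER PROOF of `numLevel` (n, the exponents fixed; N large): put L = LL N, take logb 2; 1 ≤ m and w ≥ m N^g2.
log₂ of the base: 20 L + log₂(N^q+1) + 3·3q²m·log₂(|Sym2|+1) + log₂|Θ| where
|Sym2 (Fin N)| + 1 ≤ (N+1)^2, |Θ| ≤ the product given in the statement; every term is
≤ const(n) * L^4 * m for q ≤ 2L (N large; e.g. log₂ 2^(q² n) = q² n ≤ 4 n L²). Since N^g2 ≥ L^5
eventually, the sum is ≤ 2 m N^g2 ≤ 2 w, so base^(1/w) ≤ 4.
-/

set_option autoImplicit false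

namespace Pool.Agent.CG

open Finset Filter

variable {N q n : ℕ}

theorem ptCongr (σ : St (Sym2 (Fin N))) (lev : Fin q → Fin n)
    (rule : Fin q → Option (Fin q × Fin q)) (Cn : Fin n → Finset (Fin q × Fin q)) (l : Fin n → ℕ)
    (x : Fin N) (R R' : Fin q → Finset (Fin N)) (F F' : Fin n → Finset (Sym2 (Fin N))) (τ : ℝ)
    (s t : ℕ) (hR : ∀ p, (lev p : ℕ) < s → R p = R' p) (hF : ∀ j : Fin n, (j : ℕ) < t → F j = F' j) :
    PT σ lev rule Cn l x R F τ s t = PT σ lev rule Cn l x R' F' τ s t := by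
  classical
  unfold PT
  apply filter_congr
  intro b _
  constructor
  · rintro ⟨h1, h2, h3, h4⟩
    exact ⟨fun p hp => by rw [← hR p hp]; exact h1 p hp, h2, h3,
      fun j hj => by rw [← hF j hj]; exact h4 j hj⟩
  · rintro ⟨h1, h2, h3, h4⟩
    exact ⟨fun p hp => by rw [hR p hp]; exact h1 p hp, h2, h3,
      fun j hj => by rw [hF j hj]; exact h4 j hj⟩

private theorem D1b_card {α β : Type} [DecidableEq β] [Fintype α] (s : Finset α)
    (f : α → Finset β) (m : ℕ) (h : ∀ a ∈ s, (f a).card ≤ m) :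
    (s.biUnion f).card ≤ Fintype.card α * m := by
  refine (card_biUnion_le_card_mul s f m h).trans ?_
  exact Nat.mul_le_mul_right _ (card_le_univ s)

theorem ptRestr (σ : St (Sym2 (Fin N))) (lev : Fin q → Fin n)
    (rule : Fin q → Option (Fin q × Fin q)) (Cn : Fin n → Finset (Fin q × Fin q)) (l : Fin n → ℕ)
    (x : Fin N) (R : Fin q → Finset (Fin N)) (F : Fin n → Finset (Sym2 (Fin N))) (τ : ℝ)
    (s t m : ℕ) (hts : t ≤ s) (hR : ∀ p, (lev p : ℕ) < s → (R p).card ≤ m)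
    (hC : ∀ j : Fin n, (j : ℕ) < t → ∀ pp ∈ Cn j, lev pp.1 ≤ j ∧ lev pp.2 ≤ j ∧
      (R pp.1).card * (R pp.2).card ≤ m) :
    ∃ X : Finset (Sym2 (Fin N)), X.card ≤ 3 * q ^ 2 * m ∧
      PT (restr σ X) lev rule Cn l x R F τ s t = PT σ lev rule Cn l x R F τ s t := by
  classical
  set X1 : Finset (Sym2 (Fin N)) := (univ.filter (fun p : Fin q => (lev p : ℕ) < s)).biUnion
    (fun p => (R p).image (fun v => s(x, v))) with hX1
  set X2 : Finset (Sym2 (Fin N)) := (univ.filter (fun pp : Fin q × Fin q =>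
    ∃ j : Fin n, (j : ℕ) < t ∧ pp ∈ Cn j)).biUnion
    (fun pp => (R pp.1 ×ˢ R pp.2).image (fun vv => s(vv.1, vv.2))) with hX2
  set X : Finset (Sym2 (Fin N)) := X1 ∪ X1.image σ.pi ∪ X2 with hX
  have c1 : X1.card ≤ q * m := by
    have := D1b_card (univ.filter (fun p : Fin q => (lev p : ℕ) < s))
      (fun p => (R p).image (fun v => s(x, v))) m (fun p hp => by
        rw [mem_filter] at hp
        exact card_image_le.trans (hR p hp.2))
    rw [Fintype.card_fin] at this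
    exact this
  have c2 : X2.card ≤ q ^ 2 * m := by
    have := D1b_card (univ.filter (fun pp : Fin q × Fin q =>
      ∃ j : Fin n, (j : ℕ) < t ∧ pp ∈ Cn j))
      (fun pp => (R pp.1 ×ˢ R pp.2).image (fun vv => s(vv.1, vv.2))) m (fun pp hpp => by
        rw [mem_filter] at hpp
        obtain ⟨_, j, hj, hpp⟩ := hpp
        refine card_image_le.trans ?_
        rw [card_product]
        exact (hC j hj pp hpp).2.2)
    rw [Fintype.card_prod, Fintype.card_fin, ← pow_two] at this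
    exact this
  have hq : q ≤ q ^ 2 := by
    rcases Nat.eq_zero_or_pos q with h | h
    · subst h; simp
    · nlinarith
  refine ⟨X, ?_, ?_⟩
  · have h1 : X.card ≤ X1.card + X1.card + X2.card := by
      refine (card_union_le _ _).trans (Nat.add_le_add_right ?_ _)
      exact (card_union_le _ _).trans (Nat.add_le_add_left card_image_le _)
    have h2 : q * m ≤ q ^ 2 * m := Nat.mul_le_mul_right _ hq
    calc X.card ≤ q ^ 2 * m + q ^ 2 * m + q ^ 2 * m := by omega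
      _ = 3 * q ^ 2 * m := by ring
  · have m1 : ∀ p : Fin q, (lev p : ℕ) < s → ∀ v ∈ R p, s(x, v) ∈ X ∧ σ.pi s(x, v) ∈ X := by
      intro p hp v hv
      have h1 : s(x, v) ∈ X1 := by
        rw [hX1, mem_biUnion]
        exact ⟨p, mem_filter.2 ⟨mem_univ _, hp⟩, mem_image.2 ⟨v, hv, rfl⟩⟩
      refine ⟨mem_union_left _ (mem_union_left _ h1), mem_union_left _ (mem_union_right _ ?_)⟩
      exact mem_image_of_mem _ h1
    have m2 : ∀ b : Fin q → Fin N, (∀ p, (lev p : ℕ) < s → b p ∈ R p) → ∀ j : Fin n,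
        (j : ℕ) < t → cnt (Cn j) b ⊆ X := by
      intro b hb j hj e he
      unfold cnt at he
      rw [mem_image] at he
      obtain ⟨pp, hpp, rfl⟩ := he
      obtain ⟨h1, h2, _⟩ := hC j hj pp hpp
      apply mem_union_right
      rw [hX2, mem_biUnion]
      refine ⟨pp, mem_filter.2 ⟨mem_univ _, j, hj, hpp⟩, mem_image.2 ⟨(b pp.1, b pp.2), ?_, rfl⟩⟩
      rw [mem_product]
      have h1' : (lev pp.1 : ℕ) ≤ j := h1
      have h2' : (lev pp.2 : ℕ) ≤ j := h2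
      exact ⟨hb _ (by omega), hb _ (by omega)⟩
    unfold PT
    apply filter_congr
    intro b _
    constructor
    · rintro ⟨h1, h2, h3, h4⟩
      refine ⟨h1, h2, ?_, ?_⟩
      · intro p z w hp hr
        rw [← h3 p z w hp hr]
        exact (restr_pi_of_mem σ (m1 p hp _ (h1 p hp)).1 (m1 p hp _ (h1 p hp)).2).symm
      · intro j hj
        have h5 := h4 j hj
        unfold WinOK at h5 ⊢
        rw [disjoint_restr σ (m2 b h1 j hj), lw_restr σ (m2 b h1 j hj)] at h5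
        exact h5
    · rintro ⟨h1, h2, h3, h4⟩
      refine ⟨h1, h2, ?_, ?_⟩
      · intro p z w hp hr
        rw [← h3 p z w hp hr]
        exact restr_pi_of_mem σ (m1 p hp _ (h1 p hp)).1 (m1 p hp _ (h1 p hp)).2
      · intro j hj
        have h5 := h4 j hj
        unfold WinOK at h5 ⊢
        rw [disjoint_restr σ (m2 b h1 j hj), lw_restr σ (m2 b h1 j hj)]
        exact h5

private theorem D1b_prod (N B n q m Θc : ℕ) (h0 : N ≤ B) (h1 : n ≤ B) (h2 : q ^ 2 + 1 ≤ B)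
    (h3 : 2 ≤ B) (hΘ : Θc ≤ n ^ q * (q ^ 2 + 1) ^ q * 2 ^ (q ^ 2 * n) * (q ^ 2 + 1) ^ n * N *
      (B ^ m) ^ q * ((B ^ 2) ^ m) ^ n * n) :
    N ^ 20 * (N ^ q + 1) * ((B ^ 2) ^ (3 * (3 * q ^ 2 * m)) * Θc) ≤
      B ^ (20 + (q + 1) + 18 * q ^ 2 * m + q + q + q ^ 2 * n + n + 1 + m * q + 2 * m * n + 1) := by
  have b1 : N ^ 20 ≤ B ^ 20 := Nat.pow_le_pow_left h0 20
  have b2 : N ^ q + 1 ≤ B ^ (q + 1) := by
    have h4 : N ^ q ≤ B ^ q := Nat.pow_le_pow_left h0 q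
    have h5 : 1 ≤ B ^ q := Nat.one_le_pow _ _ (by omega)
    rw [pow_succ]
    nlinarith
  have b3 : (B ^ 2) ^ (3 * (3 * q ^ 2 * m)) = B ^ (18 * q ^ 2 * m) := by
    rw [← pow_mul]
    congr 1
    ring
  have b4 : n ^ q ≤ B ^ q := Nat.pow_le_pow_left h1 q
  have b5 : (q ^ 2 + 1) ^ q ≤ B ^ q := Nat.pow_le_pow_left h2 q
  have b6 : 2 ^ (q ^ 2 * n) ≤ B ^ (q ^ 2 * n) := Nat.pow_le_pow_left h3 _
  have b7 : (q ^ 2 + 1) ^ n ≤ B ^ n := Nat.pow_le_pow_left h2 n
  have b9 : (B ^ m) ^ q = B ^ (m * q) := by rw [← pow_mul]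
  have b10 : ((B ^ 2) ^ m) ^ n = B ^ (2 * m * n) := by
    rw [← pow_mul, ← pow_mul, mul_assoc]
  rw [b9, b10] at hΘ
  have hΘ' : Θc ≤ B ^ q * B ^ q * B ^ (q ^ 2 * n) * B ^ n * B * B ^ (m * q) *
      B ^ (2 * m * n) * B := by
    refine hΘ.trans ?_
    exact Nat.mul_le_mul (Nat.mul_le_mul_right _ (Nat.mul_le_mul_right _ (Nat.mul_le_mul
      (Nat.mul_le_mul (Nat.mul_le_mul (Nat.mul_le_mul b4 b5) b6) b7) h0))) h1
  rw [b3]
  calc N ^ 20 * (N ^ q + 1) * (B ^ (18 * q ^ 2 * m) * Θc)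
      ≤ B ^ 20 * B ^ (q + 1) * (B ^ (18 * q ^ 2 * m) *
        (B ^ q * B ^ q * B ^ (q ^ 2 * n) * B ^ n * B * B ^ (m * q) *
      B ^ (2 * m * n) * B)) :=
        Nat.mul_le_mul (Nat.mul_le_mul b1 b2) (Nat.mul_le_mul_left _ hΘ')
    _ = _ := by
        simp only [pow_add, pow_one]
        simp only [mul_assoc]

private theorem D1b_E (n q m : ℕ) (hn : 1 ≤ n) (hm : 1 ≤ m) :
    20 + (q + 1) + 18 * q ^ 2 * m + q + q + q ^ 2 * n + n + 1 + m * q + 2 * m * n + 1 ≤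
      m * n * (26 + 23 * q ^ 2) := by
  have hqq : q ≤ q ^ 2 := by
    rcases Nat.eq_zero_or_pos q with h | h
    · subst h; simp
    · nlinarith
  have e1 : 1 ≤ m * n := Nat.one_le_iff_ne_zero.2 (Nat.mul_ne_zero (by omega) (by omega))
  have e2 : n ≤ m * n := Nat.le_mul_of_pos_left n (by omega)
  have e3 : m ≤ m * n := Nat.le_mul_of_pos_right m (by omega)
  have e4 : q ^ 2 ≤ m * n * q ^ 2 := Nat.le_mul_of_pos_left _ (by omega)
  have e5 : n * q ^ 2 ≤ m * n * q ^ 2 := Nat.mul_le_mul_right _ e2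
  have e6 : m * q ^ 2 ≤ m * n * q ^ 2 := Nat.mul_le_mul_right _ e3
  have e7 : m * q ≤ m * q ^ 2 := Nat.mul_le_mul_left _ hqq
  linarith

private theorem D1b_ev (n : ℕ) : ∀ᶠ N : ℕ in atTop, 2 ≤ N ∧ n ≤ N ∧ (118 * n : ℝ) ≤ LL N ∧
    (118 : ℝ) ≤ LL N ∧ LL N ^ 4 ≤ (N:ℝ) ^ g2 := by
  have hLL : Tendsto (fun N : ℕ => LL N) atTop atTop := by
    unfold LL
    exact (Real.tendsto_logb_atTop (by norm_num)).comp tendsto_natCast_atTop_atTop
  have hg : (0:ℝ) < g2 := by unfold g2; positivity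
  have hlog : 0 < Real.log 2 := Real.log_pos (by norm_num)
  have h1 := (isLittleO_log_rpow_rpow_atTop (4:ℝ) hg).def (show 0 < Real.log 2 ^ 4 by positivity)
  have h2 := tendsto_natCast_atTop_atTop (R := ℝ) |>.eventually h1
  filter_upwards [eventually_ge_atTop 2, eventually_ge_atTop n,
    hLL.eventually_ge_atTop (118 * n : ℝ), hLL.eventually_ge_atTop (118 : ℝ), h2]
    with N a1 a2 a3 a4 a5
  refine ⟨a1, a2, a3, a4, ?_⟩
  have hN : (2:ℝ) ≤ N := by exact_mod_cast a1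
  have hl : 0 ≤ Real.log N := Real.log_nonneg (by linarith)
  rw [Real.norm_of_nonneg (Real.rpow_nonneg hl _), Real.norm_of_nonneg (Real.rpow_nonneg
    (by linarith) _)] at a5
  have e4 : (Real.log N) ^ (4:ℝ) = Real.log N ^ 4 := by
    rw [show (4:ℝ) = ((4:ℕ) : ℝ) by norm_num, Real.rpow_natCast]
  rw [e4] at a5
  unfold LL Real.logb
  rw [div_pow, div_le_iff₀ (by positivity)]
  linarith

theorem numLevel (n : ℕ) (hn : 1 ≤ n) : ∀ᶠ N : ℕ in atTop, ∀ q : ℕ, (q:ℝ) ≤ 2 * LL N →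
    ∀ m w : ℕ, 1 ≤ m → (m:ℝ) * (N:ℝ) ^ g2 ≤ w → ∀ Θc : ℕ,
    Θc ≤ n ^ q * (q ^ 2 + 1) ^ q * 2 ^ (q ^ 2 * n) * (q ^ 2 + 1) ^ n * N * ((N + 1) ^ m) ^ q *
      (((N + 1) ^ 2) ^ m) ^ n * n →
    ((N:ℝ) ^ 20 * ((N:ℝ) ^ q + 1) * ((((N:ℝ) + 1) ^ 2) ^ (3 * (3 * q ^ 2 * m)) * Θc)) ^
      (1 / (w : ℝ)) ≤ 4 := by
  filter_upwards [D1b_ev n] with N hN q hq m w hm hw Θc hΘ
  obtain ⟨a1, a2, a3, a4, a5⟩ := hN
  have hN1 : (2:ℝ) ≤ N := by exact_mod_cast a1
  have hg : (0:ℝ) < g2 := by unfold g2; positivity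
  have hg1 : g2 ≤ 1 := by
    unfold g2
    rw [div_le_one (by positivity)]
    norm_num
  set L := LL N with hL
  have hL0 : 0 ≤ L := by linarith
  have hNg : (0:ℝ) < (N:ℝ) ^ g2 := Real.rpow_pos_of_pos (by linarith) _
  have hNg1 : (N:ℝ) ^ g2 ≤ N := by
    calc (N:ℝ) ^ g2 ≤ (N:ℝ) ^ (1:ℝ) := Real.rpow_le_rpow_of_exponent_le (by linarith) hg1
      _ = N := Real.rpow_one _
  have hq2R : ((q ^ 2 : ℕ) : ℝ) ≤ 4 * L ^ 2 := by
    push_cast
    have : (0:ℝ) ≤ q := Nat.cast_nonneg _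
    nlinarith
  have hLp : 4 * L ^ 2 ≤ L ^ 4 := by
    have : (4:ℝ) ≤ L ^ 2 := by nlinarith
    have h2 : 0 ≤ L ^ 2 := by positivity
    nlinarith
  have hq2 : q ^ 2 ≤ N := by
    have : ((q ^ 2 : ℕ) : ℝ) ≤ N := by linarith
    exact_mod_cast this
  have hqq : q ≤ q ^ 2 := by
    rcases Nat.eq_zero_or_pos q with h | h
    · subst h; simp
    · nlinarith
  have hw0 : (0:ℝ) < w := by
    have hm' : (1:ℝ) ≤ m := by exact_mod_cast hm
    have : 0 < (m:ℝ) * (N:ℝ) ^ g2 := by positivity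
    linarith
  -- the bound by a power of N + 1
  set E : ℕ := 20 + (q + 1) + 18 * q ^ 2 * m + q + q + q ^ 2 * n + n + 1 + m * q + 2 * m * n + 1
    with hE
  have hbase : ((N:ℝ) ^ 20 * ((N:ℝ) ^ q + 1) * ((((N:ℝ) + 1) ^ 2) ^ (3 * (3 * q ^ 2 * m)) * Θc)) ≤
      ((N:ℝ) + 1) ^ E := by
    have hnat : N ^ 20 * (N ^ q + 1) * (((N + 1) ^ 2) ^ (3 * (3 * q ^ 2 * m)) * Θc) ≤
        (N + 1) ^ E := by
      rw [hE]
      exact D1b_prod N (N + 1) n q m Θc (Nat.le_succ N) (by omega) (by omega) (by omega) hΘ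
    exact_mod_cast hnat
  have hEb : (E : ℝ) ≤ m * n * (26 + 23 * (4 * L ^ 2)) := by
    have h1 : E ≤ m * n * (26 + 23 * q ^ 2) := by
      rw [hE]
      exact D1b_E n q m hn hm
    have h2 : ((m * n * (26 + 23 * q ^ 2) : ℕ) : ℝ) ≤ m * n * (26 + 23 * (4 * L ^ 2)) := by
      push_cast
      push_cast at hq2R
      have : (0:ℝ) ≤ m * n := by positivity
      nlinarith
    have h3 : (E:ℝ) ≤ ((m * n * (26 + 23 * q ^ 2) : ℕ) : ℝ) := by exact_mod_cast h1
    linarith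
  have hlogN : Real.logb 2 ((N:ℝ) + 1) ≤ 2 * L := by
    have h1 : ((N:ℝ) + 1) ≤ (N:ℝ) ^ 2 := by nlinarith
    calc Real.logb 2 ((N:ℝ) + 1) ≤ Real.logb 2 ((N:ℝ) ^ 2) :=
          Real.logb_le_logb_of_le (by norm_num) (by linarith) h1
      _ = 2 * L := by
          rw [Real.logb_pow]
          push_cast
          rfl
  have hlogN0 : 0 ≤ Real.logb 2 ((N:ℝ) + 1) := Real.logb_nonneg (by norm_num) (by linarith)
  have hkey : Real.logb 2 ((N:ℝ) + 1) * E ≤ 2 * w := by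
    have hmn : (0:ℝ) ≤ m * n := by positivity
    have h1 : Real.logb 2 ((N:ℝ) + 1) * E ≤ 2 * L * (m * n * (26 + 23 * (4 * L ^ 2))) :=
      mul_le_mul hlogN hEb (Nat.cast_nonneg _) (by linarith)
    have h2 : (n:ℝ) * (26 + 23 * (4 * L ^ 2)) * L ≤ L ^ 4 := by
      have h3 : (26 + 23 * (4 * L ^ 2)) ≤ 118 * L ^ 2 := by nlinarith
      have hn0 : (0:ℝ) ≤ n := Nat.cast_nonneg _
      have hL2 : 0 ≤ L ^ 2 := by positivity
      calc (n:ℝ) * (26 + 23 * (4 * L ^ 2)) * L ≤ (n:ℝ) * (118 * L ^ 2) * L := by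
            apply mul_le_mul_of_nonneg_right _ hL0
            exact mul_le_mul_of_nonneg_left h3 hn0
        _ = (118 * n) * L ^ 3 := by ring
        _ ≤ L * L ^ 3 := mul_le_mul_of_nonneg_right a3 (by positivity)
        _ = L ^ 4 := by ring
    have hm0 : (0:ℝ) ≤ m := Nat.cast_nonneg _
    calc Real.logb 2 ((N:ℝ) + 1) * E ≤ 2 * L * (m * n * (26 + 23 * (4 * L ^ 2))) := h1
      _ = 2 * (m * ((n:ℝ) * (26 + 23 * (4 * L ^ 2)) * L)) := by ring
      _ ≤ 2 * (m * (N:ℝ) ^ g2) := by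
          have := mul_le_mul_of_nonneg_left (h2.trans a5) hm0
          linarith
      _ ≤ 2 * w := by linarith
  have hN1' : (0:ℝ) < (N:ℝ) + 1 := by linarith
  calc _ ≤ (((N:ℝ) + 1) ^ E) ^ (1 / (w:ℝ)) := by
        apply Real.rpow_le_rpow _ hbase (by positivity)
        positivity
    _ = (2:ℝ) ^ (Real.logb 2 ((N:ℝ) + 1) * E / w) := by
        rw [← Real.rpow_natCast, ← Real.rpow_mul hN1'.le]
        conv_lhs => rw [← Real.rpow_logb (show (0:ℝ) < 2 by norm_num) (by norm_num) hN1']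
        rw [← Real.rpow_mul (by norm_num)]
        congr 1
        ring
    _ ≤ (2:ℝ) ^ (2:ℝ) := by
        apply Real.rpow_le_rpow_of_exponent_le (by norm_num)
        rw [div_le_iff₀ hw0]
        exact hkey
    _ = 4 := by norm_num

end Pool.Agent.CG
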