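import Pool.Agent.CG.D1a
import Pool.Agent.CG.D1b

/-!
# CG D1c: the level step

PAPER PROOF. For each m ∈ {1,…,N²} (combine with `Cert.forall` over Fin (N^2+1); N^15 (N²+1) ≤ N^20 for
N large) apply `adaptive` with w = ⌈m N^g2⌉₊ (so 1 ≤ w, m N^g2 ≤ w ≤ 2 m N^g2), p = q^2, b = 3 q² m,
K = N^20, ι = Fin q → Fin N (|ι| = N^q), α = Sym2 (Fin N) (|α| + 1 ≤ (N+1)^2), and
Θ = (Fin q → Fin n) × (Fin q → Option (Fin q × Fin q)) × (Fin n → Finset (Fin q × Fin q)) ×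
    (Fin n → Fin (q^2+1)) × Fin N × (Fin q → {R : Finset (Fin N) // R.card ≤ m}) ×
    (Fin n → {F : Finset (Sym2 (Fin N)) // F.card ≤ m}) × Fin n
(cardinality at most the bound Θc of `numLevel`, by `cardSubLe`),
T σ (lev, rule, Cn, l, x, R, F, i) = if the conditions (∀ j < i, ∀ pp ∈ Cn j, lev pp.1 ≤ j ∧ lev pp.2 ≤ j ∧
|R pp.1||R pp.2| ≤ m) hold then PT σ lev rule Cn l x R F τ (i+1) i else ∅,  Pr θ b = cnt (Cn i) b
(|cnt C b| ≤ |C| ≤ q²). `hT` is `ptRestr` (s = i+1, t = i). By `numLevel` the last factor is ≤ 4.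
Given σ, m and data as in the theorem: replace R p by ∅ for lev p > i and F j by ∅ for j ≥ i (`ptCongr`),
take θ and A = {b ∈ PT … : cnt (Cn i) b alive, l i ≤ lw}; the conclusion of `adaptive` with l = l i gives Fi;
{b ∈ PT : WinOK σ (Cn i) (l i) Fi τ b} = {b ∈ A : |cnt (Cn i) b ∩ Fi| ≤ τ}.
|Fi| ≤ 2 w q² ≤ 4 m N^g2 q².
-/

set_option autoImplicit false

namespace Pool.Agent.CG

open Finset Filter

/-- parameters of the level step -/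
private abbrev D1cTh (N q n m : ℕ) : Type :=
  (Fin q → Fin n) × (Fin q → Option (Fin q × Fin q)) × (Fin n → Finset (Fin q × Fin q)) ×
    (Fin n → Fin (q ^ 2 + 1)) × Fin N × (Fin q → {R : Finset (Fin N) // R.card ≤ m}) ×
    (Fin n → {F : Finset (Sym2 (Fin N)) // F.card ≤ m}) × Fin n

private def d1cCond {N q n m : ℕ} (θ : D1cTh N q n m) : Prop :=
  ∀ j < θ.2.2.2.2.2.2.2, ∀ pp ∈ θ.2.2.1 j, θ.1 pp.1 ≤ j ∧ θ.1 pp.2 ≤ j ∧
    (θ.2.2.2.2.2.1 pp.1).1.card * (θ.2.2.2.2.2.1 pp.2).1.card ≤ m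

open Classical in
private noncomputable def d1cT {N q n m : ℕ} (τ : ℝ) (σ : St (Sym2 (Fin N))) (θ : D1cTh N q n m) :
    Finset (Fin q → Fin N) :=
  if d1cCond θ then
    PT σ θ.1 θ.2.1 θ.2.2.1 (fun j => ((θ.2.2.2.1 j : Fin (q ^ 2 + 1)) : ℕ)) θ.2.2.2.2.1
      (fun p => (θ.2.2.2.2.2.1 p).1) (fun j => (θ.2.2.2.2.2.2.1 j).1) τ ((θ.2.2.2.2.2.2.2 : ℕ) + 1)
      (θ.2.2.2.2.2.2.2 : ℕ)
  else ∅

private theorem d1c_cardSym (N : ℕ) : Fintype.card (Sym2 (Fin N)) + 1 ≤ (N + 1) ^ 2 := by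
  rw [Sym2.card, Fintype.card_fin, Nat.choose_two_right]
  have h1 : (N + 1) * (N + 1 - 1) / 2 ≤ (N + 1) * N := Nat.div_le_self _ _
  nlinarith

private theorem d1c_cardTh (N q n m : ℕ) : Fintype.card (D1cTh N q n m) ≤
    n ^ q * (q ^ 2 + 1) ^ q * 2 ^ (q ^ 2 * n) * (q ^ 2 + 1) ^ n * N * ((N + 1) ^ m) ^ q *
      (((N + 1) ^ 2) ^ m) ^ n * n := by
  classical
  have hR : Fintype.card {R : Finset (Fin N) // R.card ≤ m} ≤ (N + 1) ^ m := by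
    rw [Fintype.card_subtype]
    have h := cardSubLe (α := Fin N) m
    rw [Fintype.card_fin] at h
    exact h
  have hF : Fintype.card {F : Finset (Sym2 (Fin N)) // F.card ≤ m} ≤ ((N + 1) ^ 2) ^ m := by
    rw [Fintype.card_subtype]
    have h := cardSubLe (α := Sym2 (Fin N)) m
    exact h.trans (Nat.pow_le_pow_left (d1c_cardSym N) m)
  have hO : Fintype.card (Option (Fin q × Fin q)) = q ^ 2 + 1 := by
    rw [Fintype.card_option, Fintype.card_prod, Fintype.card_fin]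
    ring
  have hC : Fintype.card (Fin n → Finset (Fin q × Fin q)) = 2 ^ (q ^ 2 * n) := by
    rw [Fintype.card_fun, Fintype.card_fin, Fintype.card_finset, Fintype.card_prod, Fintype.card_fin,
      ← pow_mul]
    congr 1
    ring
  have h1 : Fintype.card (D1cTh N q n m) = n ^ q * (q ^ 2 + 1) ^ q * 2 ^ (q ^ 2 * n) * (q ^ 2 + 1) ^ n * N *
      (Fintype.card {R : Finset (Fin N) // R.card ≤ m}) ^ q *
      (Fintype.card {F : Finset (Sym2 (Fin N)) // F.card ≤ m}) ^ n * n := by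
    unfold D1cTh
    rw [Fintype.card_prod, Fintype.card_prod, Fintype.card_prod, Fintype.card_prod, Fintype.card_prod,
      Fintype.card_prod, Fintype.card_prod, hC]
    rw [Fintype.card_fun, Fintype.card_fun, Fintype.card_fun, Fintype.card_fun, Fintype.card_fun, hO]
    simp only [Fintype.card_fin]
    ring
  rw [h1]
  gcongr

open Classical in
private theorem d1c_one {N q n m : ℕ} (hN : 2 ≤ N) (hm : 1 ≤ m)
    (hnum : ∀ m w : ℕ, 1 ≤ m → (m:ℝ) * (N:ℝ) ^ g2 ≤ w → ∀ Θc : ℕ,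
      Θc ≤ n ^ q * (q ^ 2 + 1) ^ q * 2 ^ (q ^ 2 * n) * (q ^ 2 + 1) ^ n * N * ((N + 1) ^ m) ^ q *
        (((N + 1) ^ 2) ^ m) ^ n * n →
      ((N:ℝ) ^ 20 * ((N:ℝ) ^ q + 1) * ((((N:ℝ) + 1) ^ 2) ^ (3 * (3 * q ^ 2 * m)) * Θc)) ^
        (1 / (w : ℝ)) ≤ 4) (τ : ℝ) :
    Cert ((N:ℝ) ^ 20) (fun σ : St (Sym2 (Fin N)) =>
      ∀ (lev : Fin q → Fin n) (rule : Fin q → Option (Fin q × Fin q))
        (Cn : Fin n → Finset (Fin q × Fin q)) (l : Fin n → ℕ) (x : Fin N)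
        (R : Fin q → Finset (Fin N)) (F : Fin n → Finset (Sym2 (Fin N))) (i : Fin n),
      (∀ j, l j ≤ q ^ 2) → (∀ p, lev p ≤ i → (R p).card ≤ m) →
      (∀ j < i, ∀ pp ∈ Cn j, lev pp.1 ≤ j ∧ lev pp.2 ≤ j ∧
        (R pp.1).card * (R pp.2).card ≤ m) →
      (∀ j < i, (F j).card ≤ m) →
      ∃ Fi : Finset (Sym2 (Fin N)), (Fi.card : ℝ) ≤ 4 * m * (N:ℝ) ^ g2 * (q:ℝ) ^ 2 ∧
        (((PT σ lev rule Cn l x R F τ (i + 1) i).filter
          (fun b => WinOK σ (Cn i) (l i) Fi τ b)).card : ℝ) * (2:ℝ) ^ ((l i : ℝ) - τ) ≤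
        4 * ((PT σ lev rule Cn l x R F τ (i + 1) i).card : ℝ)) := by
  have hN1 : (1 : ℝ) ≤ (N : ℝ) := by exact_mod_cast (by omega : 1 ≤ N)
  have hN0 : (0 : ℝ) < (N : ℝ) := by linarith
  have hg0 : 0 ≤ g2 := by unfold g2; positivity
  have hNg : (1 : ℝ) ≤ (N:ℝ) ^ g2 := Real.one_le_rpow hN1 hg0
  have hm1 : (1 : ℝ) ≤ (m : ℝ) := by exact_mod_cast hm
  have hmg : (1 : ℝ) ≤ (m : ℝ) * (N:ℝ) ^ g2 := one_le_mul_of_one_le_of_one_le hm1 hNg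
  set w : ℕ := ⌈(m : ℝ) * (N:ℝ) ^ g2⌉₊ with hw
  have hw1 : (m : ℝ) * (N:ℝ) ^ g2 ≤ (w : ℝ) := Nat.le_ceil _
  have hw2 : (w : ℝ) ≤ 2 * ((m : ℝ) * (N:ℝ) ^ g2) := by
    have h := (Nat.ceil_lt_add_one (by linarith : 0 ≤ (m : ℝ) * (N:ℝ) ^ g2)).le
    linarith
  have hw3 : 1 ≤ w := by
    have : (1 : ℝ) ≤ (w : ℝ) := hmg.trans hw1
    exact_mod_cast this
  have hcertA := adaptive (α := Sym2 (Fin N)) (ι := Fin q → Fin N) (Θ := D1cTh N q n m)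
    (d1cT τ) (fun θ b => cnt (θ.2.2.1 θ.2.2.2.2.2.2.2) b) (3 * q ^ 2 * m) (q ^ 2) w ((N:ℝ) ^ 20)
    (by positivity) hw3
    (by
      intro σ θ a _
      refine (Finset.card_image_le).trans ((Finset.card_le_univ _).trans ?_)
      rw [Fintype.card_prod, Fintype.card_fin]
      exact le_of_eq (by ring))
    (by
      intro σ θ
      by_cases hc : d1cCond θ
      · obtain ⟨X, hX, hPT⟩ := ptRestr σ θ.1 θ.2.1 θ.2.2.1
          (fun j => ((θ.2.2.2.1 j : Fin (q ^ 2 + 1)) : ℕ)) θ.2.2.2.2.1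
          (fun p => (θ.2.2.2.2.2.1 p).1) (fun j => (θ.2.2.2.2.2.2.1 j).1) τ ((θ.2.2.2.2.2.2.2 : ℕ) + 1)
          (θ.2.2.2.2.2.2.2 : ℕ) m (Nat.le_succ _) (fun p _ => (θ.2.2.2.2.2.1 p).2)
          (fun j hj pp hpp => hc j (Fin.lt_def.2 hj) pp hpp)
        refine ⟨X, hX, ?_⟩
        unfold d1cT
        rw [if_pos hc, if_pos hc]
        exact hPT
      · refine ⟨∅, by simp, ?_⟩
        unfold d1cT
        rw [if_neg hc, if_neg hc])
  refine hcertA.mono le_rfl ?_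
  intro σ hσ lev rule Cn l x R F i hl hR hC hF
  -- modified data
  let R' : Fin q → {R : Finset (Fin N) // R.card ≤ m} := fun p =>
    if h : lev p ≤ i then ⟨R p, hR p h⟩ else ⟨∅, by simp⟩
  let F' : Fin n → {F : Finset (Sym2 (Fin N)) // F.card ≤ m} := fun j =>
    if h : j < i then ⟨F j, hF j h⟩ else ⟨∅, by simp⟩
  let l' : Fin n → Fin (q ^ 2 + 1) := fun j => ⟨l j, Nat.lt_succ_of_le (hl j)⟩
  let θ : D1cTh N q n m := (lev, rule, Cn, l', x, R', F', i)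
  have hR' : ∀ p, lev p ≤ i → (R' p).1 = R p := by
    intro p hp
    show (if h : lev p ≤ i then (⟨R p, hR p h⟩ : {R : Finset (Fin N) // R.card ≤ m}) else ⟨∅, by simp⟩).1 = R p
    rw [dif_pos hp]
  have hF' : ∀ j, j < i → (F' j).1 = F j := by
    intro j hj
    show (if h : j < i then (⟨F j, hF j h⟩ : {F : Finset (Sym2 (Fin N)) // F.card ≤ m}) else
      ⟨∅, by simp⟩).1 = F j
    rw [dif_pos hj]
  have hcond : d1cCond θ := by
    intro j hj pp hpp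
    obtain ⟨h1, h2, h3⟩ := hC j hj pp hpp
    refine ⟨h1, h2, ?_⟩
    show (R' pp.1).1.card * (R' pp.2).1.card ≤ m
    rw [hR' _ (h1.trans hj.le), hR' _ (h2.trans hj.le)]
    exact h3
  have hT : d1cT τ σ θ = PT σ lev rule Cn l x R F τ (i + 1) i := by
    unfold d1cT
    rw [if_pos hcond]
    exact ptCongr σ lev rule Cn l x (fun p => (R' p).1) R (fun j => (F' j).1) F τ (i + 1) i
      (fun p hp => hR' p (Fin.le_def.2 (Nat.lt_succ_iff.1 hp)))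
      (fun j hj => hF' j (Fin.lt_def.2 hj))
  obtain ⟨Fi, hFi, hbd⟩ := hσ θ ((PT σ lev rule Cn l x R F τ (i + 1) i).filter
    (fun b => Disjoint (cnt (Cn i) b) σ.B ∧ (l i : ℝ) ≤ lw σ (cnt (Cn i) b)))
    (by
      rw [hT]
      exact Finset.filter_subset _ _) (l i : ℝ) τ (fun a ha => (Finset.mem_filter.1 ha).2)
  refine ⟨Fi, ?_, ?_⟩
  · have h1 : (Fi.card : ℝ) ≤ 2 * (w : ℝ) * (q : ℝ) ^ 2 := by exact_mod_cast hFi
    refine h1.trans ?_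
    have h2 : (0 : ℝ) ≤ (q : ℝ) ^ 2 := by positivity
    nlinarith
  · have heq : (PT σ lev rule Cn l x R F τ (i + 1) i).filter (fun b => WinOK σ (Cn i) (l i) Fi τ b) =
        ((PT σ lev rule Cn l x R F τ (i + 1) i).filter
          (fun b => Disjoint (cnt (Cn i) b) σ.B ∧ (l i : ℝ) ≤ lw σ (cnt (Cn i) b))).filter
          (fun b => ((cnt (Cn i) b ∩ Fi).card : ℝ) ≤ τ) := by
      rw [Finset.filter_filter]
      refine Finset.filter_congr fun b _ => ?_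
      unfold WinOK
      exact ⟨fun h => ⟨⟨h.1, h.2.1⟩, h.2.2⟩, fun h => ⟨h.1.1, h.1.2, h.2⟩⟩
    rw [heq]
    rw [hT] at hbd
    refine hbd.trans ?_
    rw [mul_comm (4 : ℝ)]
    refine mul_le_mul_of_nonneg_left ?_ (Nat.cast_nonneg _)
    refine le_trans (Real.rpow_le_rpow (by positivity) ?_ (by positivity))
      (hnum m w hm hw1 (Fintype.card (D1cTh N q n m)) (d1c_cardTh N q n m))
    have hι : (Fintype.card (Fin q → Fin N) : ℝ) = (N : ℝ) ^ q := by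
      rw [Fintype.card_fun, Fintype.card_fin, Fintype.card_fin]
      push_cast
      rfl
    rw [hι]
    have hα : (Fintype.card (Sym2 (Fin N)) : ℝ) + 1 ≤ ((N : ℝ) + 1) ^ 2 := by
      exact_mod_cast d1c_cardSym N
    gcongr

open Classical in
theorem levelStep (n : ℕ) (hn : 1 ≤ n) : ∀ᶠ N : ℕ in atTop, ∀ q : ℕ, (q:ℝ) ≤ 2 * LL N → ∀ τ : ℝ,
    Cert ((N:ℝ) ^ 15) (fun σ : St (Sym2 (Fin N)) => ∀ m : ℕ, 1 ≤ m → m ≤ N ^ 2 →
      ∀ (lev : Fin q → Fin n) (rule : Fin q → Option (Fin q × Fin q))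
        (Cn : Fin n → Finset (Fin q × Fin q)) (l : Fin n → ℕ) (x : Fin N)
        (R : Fin q → Finset (Fin N)) (F : Fin n → Finset (Sym2 (Fin N))) (i : Fin n),
      (∀ j, l j ≤ q ^ 2) → (∀ p, lev p ≤ i → (R p).card ≤ m) →
      (∀ j < i, ∀ pp ∈ Cn j, lev pp.1 ≤ j ∧ lev pp.2 ≤ j ∧
        (R pp.1).card * (R pp.2).card ≤ m) →
      (∀ j < i, (F j).card ≤ m) →
      ∃ Fi : Finset (Sym2 (Fin N)), (Fi.card : ℝ) ≤ 4 * m * (N:ℝ) ^ g2 * (q:ℝ) ^ 2 ∧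
        (((PT σ lev rule Cn l x R F τ (i + 1) i).filter
          (fun b => WinOK σ (Cn i) (l i) Fi τ b)).card : ℝ) * (2:ℝ) ^ ((l i : ℝ) - τ) ≤
        4 * ((PT σ lev rule Cn l x R F τ (i + 1) i).card : ℝ)) := by
  filter_upwards [numLevel n hn, eventually_ge_atTop 2] with N hnum hN q hq τ
  have hN2 : (2 : ℝ) ≤ (N : ℝ) := by exact_mod_cast hN
  have hforall := Cert.forall (Θ := Fin (N ^ 2 + 1)) (K := (N:ℝ) ^ 15)
    (P := fun (m : Fin (N ^ 2 + 1)) (σ : St (Sym2 (Fin N))) => 1 ≤ (m : ℕ) →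
      ∀ (lev : Fin q → Fin n) (rule : Fin q → Option (Fin q × Fin q))
        (Cn : Fin n → Finset (Fin q × Fin q)) (l : Fin n → ℕ) (x : Fin N)
        (R : Fin q → Finset (Fin N)) (F : Fin n → Finset (Sym2 (Fin N))) (i : Fin n),
      (∀ j, l j ≤ q ^ 2) → (∀ p, lev p ≤ i → (R p).card ≤ (m : ℕ)) →
      (∀ j < i, ∀ pp ∈ Cn j, lev pp.1 ≤ j ∧ lev pp.2 ≤ j ∧
        (R pp.1).card * (R pp.2).card ≤ (m : ℕ)) →
      (∀ j < i, (F j).card ≤ (m : ℕ)) →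
      ∃ Fi : Finset (Sym2 (Fin N)), (Fi.card : ℝ) ≤ 4 * ((m : ℕ) : ℝ) * (N:ℝ) ^ g2 * (q:ℝ) ^ 2 ∧
        (((PT σ lev rule Cn l x R F τ (i + 1) i).filter
          (fun b => WinOK σ (Cn i) (l i) Fi τ b)).card : ℝ) * (2:ℝ) ^ ((l i : ℝ) - τ) ≤
        4 * ((PT σ lev rule Cn l x R F τ (i + 1) i).card : ℝ))
    (fun m => by
      have hK : (N:ℝ) ^ 15 * (Fintype.card (Fin (N ^ 2 + 1)) : ℝ) ≤ (N:ℝ) ^ 20 := by
        rw [Fintype.card_fin]
        push_cast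
        have h1 : (N:ℝ) ^ 2 + 1 ≤ (N:ℝ) ^ 5 := by
          have h2 : (1:ℝ) ≤ (N:ℝ) ^ 2 := one_le_pow₀ (by linarith)
          have h3 : (2:ℝ) ≤ (N:ℝ) ^ 3 := by
            have : (2:ℝ) ^ 3 ≤ (N:ℝ) ^ 3 := pow_le_pow_left₀ (by norm_num) hN2 3
            linarith
          have h4 : (N:ℝ) ^ 5 = (N:ℝ) ^ 2 * (N:ℝ) ^ 3 := by ring
          rw [h4]
          nlinarith
        calc (N:ℝ) ^ 15 * ((N:ℝ) ^ 2 + 1) ≤ (N:ℝ) ^ 15 * (N:ℝ) ^ 5 :=
              mul_le_mul_of_nonneg_left h1 (by positivity)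
          _ = (N:ℝ) ^ 20 := by ring
      by_cases hm : 1 ≤ (m : ℕ)
      · exact (d1c_one hN hm (hnum q hq) τ).mono hK (fun σ h _ => h)
      · exact Cert.of_forall fun σ h => absurd h hm)
  refine hforall.mono le_rfl ?_
  intro σ h m hm1 hm2
  exact h ⟨m, Nat.lt_succ_of_le hm2⟩ hm1

end Pool.Agent.CG
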