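import Pool.Agent.CG.D1b

/-!
# CG D2: extension to the next level, and the chain

PAPER PROOF of `ptExt`. For b ∈ PT … (i+1) i let b₀ be b on the positions of level < i and x elsewhere;
b₀ ∈ PT … i i: the rules at positions p of level < i involve only positions of level < i (hrule: lev z ≤ lev p),
where b₀ = b; the windows j < i only use positions of level ≤ j < i (hC), so cnt (Cn j) b₀ = cnt (Cn j) b.
The map b ↦ (b₀, (b p) for the positions p with lev p = i, rule p = none) is injective: let b, b' have the same
image. For every position p, b p = b' p, by strong induction on ord p: lev p < i: from b₀ = b₀'; lev p > i: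
both are x; lev p = i, rule p = none: second component; lev p = i, rule p = some (z,w): by induction
b z = b' z, b w = b' w, so σ.pi s(x, b p) = σ.pi s(x, b' p), apply σ.pi (σ.inv): s(x, b p) = s(x, b' p), so
b p = b' p. The values b p lie in R p. (Inject into PT … i i ×ˢ Fintype.piFinset
(fun p => if lev p = i ∧ rule p = none then R p else {x}), whose cardinality is the product.)
PAPER PROOF of `chain`. Choose F 0, F 1, … successively with `step` (F i arbitrary, e.g. ∅, for the indices
not yet chosen; by `ptCongr` the partial tuples PT … (i+1) i depend only on the F j with j < i). Then with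
Z i = |PT … i i|: Z 0 ≤ 1 (the constant tuple), Z(i+1) * 2^(l i - τ) ≤ 4 |PT … (i+1) i| ≤ 4 Z i ∏_{lev p = i, rule p = none} |R p|
(PT … (i+1) (i+1) is the filter of PT … (i+1) i by WinOK at i). Multiply over i < n; every position has
exactly one level.
-/

set_option autoImplicit false

namespace Pool.Agent.CG

open Finset

variable {N q n : ℕ}

theorem ptExt (σ : St (Sym2 (Fin N))) (lev : Fin q → Fin n)
    (rule : Fin q → Option (Fin q × Fin q)) (Cn : Fin n → Finset (Fin q × Fin q)) (l : Fin n → ℕ)
    (x : Fin N) (R : Fin q → Finset (Fin N)) (F : Fin n → Finset (Sym2 (Fin N))) (τ : ℝ)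
    (ord : Fin q → ℕ)
    (hrule : ∀ p z w, rule p = some (z, w) →
      ord z < ord p ∧ ord w < ord p ∧ lev z ≤ lev p ∧ lev w ≤ lev p)
    (hC : ∀ j, ∀ pp ∈ Cn j, lev pp.1 ≤ j ∧ lev pp.2 ≤ j) (i : Fin n) :
    (PT σ lev rule Cn l x R F τ (i + 1) i).card ≤
      (PT σ lev rule Cn l x R F τ i i).card *
        ∏ p ∈ univ.filter (fun p => lev p = i ∧ rule p = none), (R p).card := by
  classical
  set P2 : Finset (Fin q → Fin N) :=
    Fintype.piFinset (fun p => if lev p = i ∧ rule p = none then R p else {x}) with hP2
  have hcard : P2.card = ∏ p ∈ univ.filter (fun p => lev p = i ∧ rule p = none), (R p).card := by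
    rw [hP2, Fintype.card_piFinset, prod_filter]
    refine prod_congr rfl fun p _ => ?_
    split_ifs <;> simp
  rw [← hcard, ← card_product]
  refine card_le_card_of_injOn
    (fun b => ((fun p => if (lev p : ℕ) < i then b p else x),
      (fun p => if lev p = i ∧ rule p = none then b p else x))) ?_ ?_
  · intro b hb
    have hb' := (mem_filter.1 hb).2
    obtain ⟨h1, h2, h3, h4⟩ := hb'
    refine mem_product.2 ⟨mem_filter.2 ⟨mem_univ _, ?_, ?_, ?_, ?_⟩, ?_⟩
    · intro p hp
      simp only [hp, if_true]
      exact h1 p (by omega)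
    · intro p hp
      simp only [if_neg (not_lt.2 hp)]
    · intro p z w hp hr
      obtain ⟨-, -, hz, hw⟩ := hrule p z w hr
      have hz' : (lev z : ℕ) < i := lt_of_le_of_lt hz hp
      have hw' : (lev w : ℕ) < i := lt_of_le_of_lt hw hp
      simp only [hp, hz', hw', if_true]
      exact h3 p z w (by omega) hr
    · intro j hj
      have hcnt : cnt (Cn j) (fun p => if (lev p : ℕ) < i then b p else x) = cnt (Cn j) b := by
        unfold cnt
        refine image_congr ?_
        intro pp hpp
        obtain ⟨g1, g2⟩ := hC j pp hpp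
        have g1' : (lev pp.1 : ℕ) < i := lt_of_le_of_lt g1 hj
        have g2' : (lev pp.2 : ℕ) < i := lt_of_le_of_lt g2 hj
        simp only [g1', g2', if_true]
      have h5 := h4 j hj
      unfold WinOK at h5 ⊢
      rw [hcnt]
      exact h5
    · rw [hP2, Fintype.mem_piFinset]
      intro p
      by_cases hp : lev p = i ∧ rule p = none
      · simp only [if_pos hp]
        exact h1 p (by rw [hp.1]; omega)
      · simp only [if_neg hp, mem_singleton]
  · intro b hb b' hb' hbb
    obtain ⟨h1, h2, h3, -⟩ := (mem_filter.1 hb).2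
    obtain ⟨h1', h2', h3', -⟩ := (mem_filter.1 hb').2
    obtain ⟨e1, e2⟩ := Prod.mk.inj hbb
    have key : ∀ m : ℕ, ∀ p, ord p = m → b p = b' p := by
      intro m
      induction m using Nat.strong_induction_on with
      | _ m ih =>
        intro p hpm
        rcases lt_trichotomy (lev p : ℕ) (i : ℕ) with hlt | heq | hgt
        · have := congrFun e1 p
          simpa only [hlt, if_true] using this
        · have hlev : lev p = i := Fin.ext heq
          rcases hr : rule p with _ | ⟨z, w⟩
          · have := congrFun e2 p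
            simpa only [hlev, hr, true_and, if_true] using this
          · obtain ⟨oz, ow, -, -⟩ := hrule p z w hr
            have bz : b z = b' z := ih (ord z) (by omega) z rfl
            have bw : b w = b' w := ih (ord w) (by omega) w rfl
            have g1 := h3 p z w (by omega) hr
            have g2 := h3' p z w (by omega) hr
            rw [bz, bw, ← g2] at g1
            have g3 := congrArg σ.pi g1
            rw [σ.inv, σ.inv] at g3
            rcases Sym2.eq_iff.1 g3 with ⟨-, g4⟩ | ⟨g4, g5⟩
            · exact g4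
            · rw [g5, ← g4]
        · rw [h2 p (by omega), h2' p (by omega)]
    funext p
    exact key _ p rfl

open Classical in
theorem chain (σ : St (Sym2 (Fin N))) (lev : Fin q → Fin n)
    (rule : Fin q → Option (Fin q × Fin q)) (Cn : Fin n → Finset (Fin q × Fin q)) (l : Fin n → ℕ)
    (x : Fin N) (R : Fin q → Finset (Fin N)) (τ : ℝ) (ord : Fin q → ℕ) (f : Fin n → ℝ)
    (hrule : ∀ p z w, rule p = some (z, w) →
      ord z < ord p ∧ ord w < ord p ∧ lev z ≤ lev p ∧ lev w ≤ lev p)
    (hC : ∀ j, ∀ pp ∈ Cn j, lev pp.1 ≤ j ∧ lev pp.2 ≤ j)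
    (step : ∀ (i : Fin n) (F : Fin n → Finset (Sym2 (Fin N))),
      (∀ j < i, ((F j).card : ℝ) ≤ f j) →
      ∃ Fi : Finset (Sym2 (Fin N)), (Fi.card : ℝ) ≤ f i ∧
        (((PT σ lev rule Cn l x R F τ (i + 1) i).filter
          (fun b => WinOK σ (Cn i) (l i) Fi τ b)).card : ℝ) * (2:ℝ) ^ ((l i : ℝ) - τ) ≤
        4 * ((PT σ lev rule Cn l x R F τ (i + 1) i).card : ℝ)) :
    ∃ F : Fin n → Finset (Sym2 (Fin N)), (∀ j, ((F j).card : ℝ) ≤ f j) ∧
      ((PT σ lev rule Cn l x R F τ n n).card : ℝ) * (2:ℝ) ^ (∑ j, ((l j : ℝ) - τ)) ≤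
        4 ^ n * ∏ p ∈ univ.filter (fun p => rule p = none), ((R p).card : ℝ) := by
  have hchoose : ∀ k : ℕ, k ≤ n → ∃ F : Fin n → Finset (Sym2 (Fin N)),
      (∀ j : Fin n, (j : ℕ) < k → ((F j).card : ℝ) ≤ f j) ∧
      ∀ i : Fin n, (i : ℕ) < k →
        (((PT σ lev rule Cn l x R F τ (i + 1) i).filter
          (fun b => WinOK σ (Cn i) (l i) (F i) τ b)).card : ℝ) * (2:ℝ) ^ ((l i : ℝ) - τ) ≤
        4 * ((PT σ lev rule Cn l x R F τ (i + 1) i).card : ℝ) := by
    intro k
    induction k with
    | zero =>
      intro _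
      exact ⟨fun _ => ∅, fun j hj => absurd hj (Nat.not_lt_zero _), fun j hj => absurd hj (Nat.not_lt_zero _)⟩
    | succ k ih =>
      intro hk
      obtain ⟨F, hF1, hF2⟩ := ih (by omega)
      set i₀ : Fin n := ⟨k, hk⟩ with hi₀
      obtain ⟨Fi, hFi1, hFi2⟩ := step i₀ F (fun j hj => hF1 j hj)
      have hupd : ∀ j : Fin n, (j : ℕ) < k → Function.update F i₀ Fi j = F j := by
        intro j hj
        apply Function.update_of_ne
        intro h
        rw [h] at hj
        simp [hi₀] at hj
      have hPT : ∀ i : Fin n, (i : ℕ) ≤ k →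
          PT σ lev rule Cn l x R (Function.update F i₀ Fi) τ (i + 1) i =
          PT σ lev rule Cn l x R F τ (i + 1) i := by
        intro i hi
        refine ptCongr σ lev rule Cn l x R R _ _ τ _ _ (fun p _ => rfl) ?_
        intro j hj
        exact hupd j (by omega)
      refine ⟨Function.update F i₀ Fi, ?_, ?_⟩
      · intro j hj
        by_cases hjk : (j : ℕ) < k
        · rw [hupd j hjk]
          exact hF1 j hjk
        · have : j = i₀ := Fin.ext (by simp [hi₀]; omega)
          rw [this, Function.update_self]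
          exact hFi1
      · intro i hi
        by_cases hik : (i : ℕ) < k
        · rw [hPT i hik.le, hupd i hik]
          exact hF2 i hik
        · have : i = i₀ := Fin.ext (by simp [hi₀]; omega)
          rw [this, hPT i₀ (by simp [hi₀]), Function.update_self]
          exact hFi2
  obtain ⟨F, hF1, hF2⟩ := hchoose n le_rfl
  refine ⟨F, fun j => hF1 j j.2, ?_⟩
  have hfilter : ∀ i : Fin n, PT σ lev rule Cn l x R F τ (i + 1) (i + 1) =
      (PT σ lev rule Cn l x R F τ (i + 1) i).filter (fun b => WinOK σ (Cn i) (l i) (F i) τ b) := by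
    intro i
    ext b
    simp only [PT, mem_filter, mem_univ, true_and]
    constructor
    · rintro ⟨h1, h2, h3, h4⟩
      exact ⟨⟨h1, h2, h3, fun j hj => h4 j (by omega)⟩, h4 i (by omega)⟩
    · rintro ⟨⟨h1, h2, h3, h4⟩, h5⟩
      refine ⟨h1, h2, h3, fun j hj => ?_⟩
      by_cases hji : (j : ℕ) < i
      · exact h4 j hji
      · have : j = i := Fin.ext (by omega)
        rw [this]
        exact h5
  have hmain : ∀ k : ℕ, k ≤ n →
      ((PT σ lev rule Cn l x R F τ k k).card : ℝ) *
        (2:ℝ) ^ (∑ j ∈ univ.filter (fun j : Fin n => (j : ℕ) < k), ((l j : ℝ) - τ)) ≤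
      4 ^ k * ∏ p ∈ univ.filter (fun p => (lev p : ℕ) < k ∧ rule p = none), ((R p).card : ℝ) := by
    intro k
    induction k with
    | zero =>
      intro _
      have h1 : (PT σ lev rule Cn l x R F τ 0 0).card ≤ 1 := by
        rw [card_le_one]
        intro b hb b' hb'
        have hb1 := (mem_filter.1 hb).2.2.1
        have hb2 := (mem_filter.1 hb').2.2.1
        funext p
        rw [hb1 p (Nat.zero_le _), hb2 p (Nat.zero_le _)]
      have h2 : ((PT σ lev rule Cn l x R F τ 0 0).card : ℝ) ≤ 1 := by exact_mod_cast h1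
      simpa using h2
    | succ k ih =>
      intro hk
      have ih' := ih (by omega)
      set i₀ : Fin n := ⟨k, hk⟩ with hi₀
      have hi : (i₀ : ℕ) = k := rfl
      have g1 := hF2 i₀ (by rw [hi]; omega)
      rw [← hfilter i₀] at g1
      have g2 := ptExt σ lev rule Cn l x R F τ ord hrule hC i₀
      rw [hi] at g1 g2
      have g2' : ((PT σ lev rule Cn l x R F τ (k + 1) k).card : ℝ) ≤
          ((PT σ lev rule Cn l x R F τ k k).card : ℝ) *
            ∏ p ∈ univ.filter (fun p => lev p = i₀ ∧ rule p = none), ((R p).card : ℝ) := by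
        exact_mod_cast g2
      have hsum : ∑ j ∈ univ.filter (fun j : Fin n => (j : ℕ) < k + 1), ((l j : ℝ) - τ) =
          ((l i₀ : ℝ) - τ) + ∑ j ∈ univ.filter (fun j : Fin n => (j : ℕ) < k), ((l j : ℝ) - τ) := by
        have : univ.filter (fun j : Fin n => (j : ℕ) < k + 1) =
            insert i₀ (univ.filter (fun j : Fin n => (j : ℕ) < k)) := by
          ext j
          simp only [mem_filter, mem_univ, true_and, mem_insert, Fin.ext_iff, hi]
          omega
        rw [this, sum_insert]
        simp [hi]
      have hprod : ∏ p ∈ univ.filter (fun p => (lev p : ℕ) < k + 1 ∧ rule p = none), ((R p).card : ℝ) =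
          (∏ p ∈ univ.filter (fun p => lev p = i₀ ∧ rule p = none), ((R p).card : ℝ)) *
          ∏ p ∈ univ.filter (fun p => (lev p : ℕ) < k ∧ rule p = none), ((R p).card : ℝ) := by
        rw [← prod_union]
        · refine prod_congr ?_ fun _ _ => rfl
          ext p
          simp only [mem_filter, mem_univ, true_and, mem_union, Fin.ext_iff, hi]
          constructor
          · rintro ⟨a, b⟩
            by_cases hp : (lev p : ℕ) < k
            · exact Or.inr ⟨hp, b⟩
            · exact Or.inl ⟨by omega, b⟩
          · rintro (⟨a, b⟩ | ⟨a, b⟩)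
            · exact ⟨by omega, b⟩
            · exact ⟨by omega, b⟩
        · rw [disjoint_left]
          intro p hp hp'
          simp only [mem_filter, mem_univ, true_and, Fin.ext_iff, hi] at hp hp'
          omega
      rw [hsum, hprod, Real.rpow_add (by norm_num)]
      set A := ∏ p ∈ univ.filter (fun p => lev p = i₀ ∧ rule p = none), ((R p).card : ℝ)
      set B := ∏ p ∈ univ.filter (fun p => (lev p : ℕ) < k ∧ rule p = none), ((R p).card : ℝ)
      set S := (2:ℝ) ^ (∑ j ∈ univ.filter (fun j : Fin n => (j : ℕ) < k), ((l j : ℝ) - τ))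
      have hA : 0 ≤ A := prod_nonneg fun _ _ => Nat.cast_nonneg _
      have hS : 0 ≤ S := Real.rpow_nonneg (by norm_num) _
      clear_value A B S
      calc ((PT σ lev rule Cn l x R F τ (k + 1) (k + 1)).card : ℝ) * ((2:ℝ) ^ ((l i₀ : ℝ) - τ) * S)
          = ((PT σ lev rule Cn l x R F τ (k + 1) (k + 1)).card : ℝ) * (2:ℝ) ^ ((l i₀ : ℝ) - τ) * S := by
            ring
        _ ≤ 4 * ((PT σ lev rule Cn l x R F τ (k + 1) k).card : ℝ) * S :=
            mul_le_mul_of_nonneg_right g1 hS
        _ ≤ 4 * (((PT σ lev rule Cn l x R F τ k k).card : ℝ) * A) * S := by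
            refine mul_le_mul_of_nonneg_right ?_ hS
            linarith
        _ = 4 * A * (((PT σ lev rule Cn l x R F τ k k).card : ℝ) * S) := by ring
        _ ≤ 4 * A * (4 ^ k * B) := mul_le_mul_of_nonneg_left ih' (by positivity)
        _ = 4 ^ (k + 1) * (A * B) := by ring
  have hfin := hmain n le_rfl
  have e1 : univ.filter (fun j : Fin n => (j : ℕ) < n) = univ := by
    ext j
    simp
  have e2 : univ.filter (fun p => (lev p : ℕ) < n ∧ rule p = none) =
      univ.filter (fun p => rule p = none) := by
    ext p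
    simp
  rw [e1, e2] at hfin
  exact hfin

end Pool.Agent.CG
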