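import Pool.Agent.CG.D0

/-!
# CG D3: few tuples have many heavy pairs

Notation: L = LL N, g = g2, κ = kap2, d = ⌈κ L⌉₊, R p = supp G p (nonempty as G is).
PAPER PROOF of `entDrop`. If G' is empty clear. Otherwise supp G' p ⊆ supp G p for all p, and for p ∈ D
log₂|supp G' p| ≤ log₂|supp G p| - g L; by `Ent`: log₂|G'| ≤ log₂|G| - 10/(κ g L) * (κ L) * (g L) = log₂|G| - 10 L.
PAPER PROOF of `heavyFew`.
(H1) Call v h-heavy at p if N^g |G| < #{a ∈ G : a p = v} |R p|. Since ∑_v #{a ∈ G : a p = v} = |G|, the number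
of v h-heavy at p is ≤ |R p| / N^g. For every set D of positions with |D| = d the family
{a ∈ G : a p is h-heavy at p for all p ∈ D} has size ≤ 2^(-10L)|G| (`entDrop`). There are ≤ 2^q ≤ 2^(2L) sets D:
#{a ∈ G : at least d positions p with a p h-heavy at p} ≤ 2^(-8L)|G|.
(H2) Let v be not h-heavy at p: #{a ∈ G : a p = v} |R p| ≤ N^g |G|. The number of v' with Hv G p p' v v' is
≤ |R p'| / N^(2g) (sum over v' of #{a : a p = v, a p' = v'} is #{a : a p = v}); N ≥ 1 so ≤ |R p'|/N^g. So for
every (p, v) with v not h-heavy at p and every D with |D| = d the family {a ∈ G : a p = v, Hv G p p' v (a p') for all p' ∈ D} has size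
≤ 2^(-10L)|G|. At most q * N * 2^q ≤ q 2^(3L) choices: together ≤ q 2^(-7L) |G|.
All other a ∈ G have fewer than d positions p with a p h-heavy, and for every other p fewer than d positions p' with
Hv G p p' (a p) (a p'): altogether at most d q + q d ≤ 2 q (κL + 1) ≤ 4κL² + 4L ≤ 6κL² = tau2 N heavy pairs
(N large). And 2^(-8L) + q 2^(-7L) ≤ 2^(-5L) for N large (q ≤ 2L).
-/

set_option autoImplicit false

namespace Pool.Agent.CG

open Finset Filter

theorem entDrop {N q : ℕ} (hN : 2 ≤ N) (G : Finset (Fin q → Fin N)) (hG : G.Nonempty) (hE : Ent G)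
    (G' : Finset (Fin q → Fin N)) (hG' : G' ⊆ G) (D : Finset (Fin q))
    (hD : kap2 * LL N ≤ D.card)
    (h : ∀ p ∈ D, ((supp G' p).card : ℝ) * (N:ℝ) ^ g2 ≤ (supp G p).card) :
    (G'.card : ℝ) ≤ (2:ℝ) ^ (-(10 * LL N)) * G.card := by
  have hN0 : (0:ℝ) < N := by exact_mod_cast (by omega : 0 < N)
  have hL : 0 < LL N := by
    unfold LL
    exact Real.logb_pos (by norm_num) (by exact_mod_cast (by omega : 1 < N))
  have hk : 0 < kap2 := by unfold kap2; norm_num
  have hg : 0 < g2 := by unfold g2; norm_num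
  have hGc : (0:ℝ) < G.card := by exact_mod_cast hG.card_pos
  rcases G'.eq_empty_or_nonempty with he | hne
  · rw [he]
    simp only [card_empty, Nat.cast_zero]
    positivity
  have hG'c : (0:ℝ) < G'.card := by exact_mod_cast hne.card_pos
  have h1 := hE G' hG' hne
  have hsub : ∀ p, supp G' p ⊆ supp G p := fun p => image_subset_image hG'
  have hpos' : ∀ p, (0:ℝ) < (supp G' p).card := by
    intro p
    have : (supp G' p).Nonempty := hne.image _
    exact_mod_cast this.card_pos
  have hle : ∀ p, Real.logb 2 ((supp G' p).card : ℝ) - Real.logb 2 ((supp G p).card : ℝ) ≤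
      if p ∈ D then -(g2 * LL N) else 0 := by
    intro p
    split_ifs with hp
    · have h2 := h p hp
      have h3 := Real.logb_le_logb_of_le (by norm_num : (1:ℝ) < 2)
        (mul_pos (hpos' p) (Real.rpow_pos_of_pos hN0 _)) h2
      rw [Real.logb_mul (hpos' p).ne' (Real.rpow_pos_of_pos hN0 _).ne', Real.logb_rpow_eq_mul_logb_of_pos hN0] at h3
      unfold LL
      linarith
    · have h3 := Real.logb_le_logb_of_le (by norm_num : (1:ℝ) < 2) (hpos' p)
        (by exact_mod_cast card_le_card (hsub p) : ((supp G' p).card : ℝ) ≤ (supp G p).card)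
      linarith
  have hsum : (∑ p, Real.logb 2 ((supp G' p).card : ℝ)) - ∑ p, Real.logb 2 ((supp G p).card : ℝ) ≤
      -(kap2 * LL N * (g2 * LL N)) := by
    rw [← sum_sub_distrib]
    refine (sum_le_sum fun p _ => hle p).trans ?_
    rw [← sum_filter, sum_const, nsmul_eq_mul]
    have : univ.filter (fun p => p ∈ D) = D := by ext; simp
    rw [this]
    have := mul_le_mul_of_nonneg_right hD (mul_pos hg hL).le
    linarith
  have hlam : 0 < 10 / (kap2 * g2 * LL N) := by positivity
  have h4 : Real.logb 2 (G'.card : ℝ) ≤ Real.logb 2 (G.card : ℝ) - 10 * LL N := by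
    have h5 := mul_le_mul_of_nonneg_left hsum hlam.le
    have h6 : 10 / (kap2 * g2 * LL N) * -(kap2 * LL N * (g2 * LL N)) = -(10 * LL N) := by
      field_simp
    rw [h6] at h5
    linarith
  have h5 : (G'.card : ℝ) ≤ (2:ℝ) ^ (Real.logb 2 (G.card : ℝ) - 10 * LL N) :=
    (Real.logb_le_iff_le_rpow (by norm_num) hG'c).1 h4
  rw [sub_eq_add_neg, Real.rpow_add (by norm_num), Real.rpow_logb (by norm_num) (by norm_num) hGc] at h5
  linarith

/-- few values with a large fibre -/
private theorem D3_few {N q : ℕ} (G : Finset (Fin q → Fin N)) (hG : G.Nonempty) (p' : Fin q)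
    (X : Finset (Fin q → Fin N)) (c d t : ℝ) (_hc : 0 < c) (ht : 0 ≤ t)
    (V : Finset (Fin N)) (hV : ∀ v ∈ V, c * (G.card : ℝ) ≤ ((X.filter (fun a => a p' = v)).card : ℝ) * t)
    (hX : (X.card : ℝ) * t ≤ d * G.card) : (V.card : ℝ) * c ≤ d := by
  have hGc : (0:ℝ) < G.card := by exact_mod_cast hG.card_pos
  have h1 : ∑ v ∈ V, (X.filter (fun a => a p' = v)).card ≤ X.card := by
    rw [← card_biUnion]
    · exact card_le_card (biUnion_subset.2 fun v _ => filter_subset _ _)
    · intro v _ w _ hvw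
      rw [Function.onFun, disjoint_left]
      intro a ha ha'
      exact hvw ((mem_filter.1 ha).2.symm.trans (mem_filter.1 ha').2)
  have h2 : (V.card : ℝ) * (c * G.card) ≤ (X.card : ℝ) * t := by
    calc (V.card : ℝ) * (c * G.card) = ∑ _v ∈ V, c * (G.card : ℝ) := by rw [sum_const, nsmul_eq_mul]
      _ ≤ ∑ v ∈ V, ((X.filter (fun a => a p' = v)).card : ℝ) * t := sum_le_sum hV
      _ = (∑ v ∈ V, ((X.filter (fun a => a p' = v)).card : ℝ)) * t := by rw [sum_mul]
      _ ≤ (X.card : ℝ) * t := by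
          refine mul_le_mul_of_nonneg_right ?_ ht
          exact_mod_cast h1
  have h3 : (V.card : ℝ) * c * G.card ≤ d * G.card := by linarith
  exact le_of_mul_le_mul_right h3 hGc

private theorem D3_ev : ∀ᶠ N : ℕ in atTop, 2 ≤ N ∧ 2 / kap2 ≤ LL N ∧ 1 ≤ LL N := by
  have h : Tendsto (fun N : ℕ => LL N) atTop atTop := by
    unfold LL
    exact (Real.tendsto_logb_atTop (by norm_num)).comp tendsto_natCast_atTop_atTop
  filter_upwards [eventually_ge_atTop 2, h.eventually_ge_atTop (2 / kap2), h.eventually_ge_atTop 1]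
    with N h1 h2 h3
  exact ⟨h1, h2, h3⟩

open Classical in
theorem heavyFew : ∀ᶠ N : ℕ in atTop, ∀ q : ℕ, (q:ℝ) ≤ 2 * LL N →
    ∀ G : Finset (Fin q → Fin N), G.Nonempty → Ent G →
    ((G.filter (fun a => tau2 N < ((univ.filter (fun pp : Fin q × Fin q =>
      Hv G pp.1 pp.2 (a pp.1) (a pp.2))).card : ℝ))).card : ℝ) ≤
        (2:ℝ) ^ (-(5 * LL N)) * G.card := by
  filter_upwards [D3_ev] with N hN q hq G hG hE
  obtain ⟨hN2, hL2, hL1⟩ := hN
  have hk : 0 < kap2 := by unfold kap2; norm_num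
  have hg : 0 < g2 := by unfold g2; norm_num
  have hL : 0 < LL N := by linarith
  have hN0 : (0:ℝ) < N := by exact_mod_cast (by omega : 0 < N)
  have hN1 : (1:ℝ) ≤ N := by exact_mod_cast (by omega : 1 ≤ N)
  have hGc : (0:ℝ) < G.card := by exact_mod_cast hG.card_pos
  have hNL : (N:ℝ) = (2:ℝ) ^ LL N := by
    unfold LL
    rw [Real.rpow_logb (by norm_num) (by norm_num) hN0]
  set d : ℕ := ⌈kap2 * LL N⌉₊ with hd
  have hd1 : kap2 * LL N ≤ d := Nat.le_ceil _
  have hd2 : (d : ℝ) ≤ kap2 * LL N + 1 := (Nat.ceil_lt_add_one (by positivity)).le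
  set Ng : ℝ := (N:ℝ) ^ g2 with hNg
  have hNg1 : 1 ≤ Ng := Real.one_le_rpow hN1 hg.le
  have hNg0 : 0 < Ng := by linarith
  have hNg3 : (N:ℝ) ^ (3 * g2) = Ng * Ng * Ng := by
    rw [hNg, ← Real.rpow_add hN0, ← Real.rpow_add hN0]
    congr 1
    ring
  -- the families
  let hh : Fin q → Fin N → Prop := fun p v =>
    Ng * (G.card : ℝ) < ((G.filter (fun a => a p = v)).card : ℝ) * (supp G p).card
  let A1 : Finset (Fin q) → Finset (Fin q → Fin N) := fun D => G.filter (fun a => ∀ p ∈ D, hh p (a p))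
  let A2 : Fin q → Fin N → Finset (Fin q) → Finset (Fin q → Fin N) := fun p v D =>
    G.filter (fun a => ¬ hh p v ∧ a p = v ∧ ∀ p' ∈ D, Hv G p p' v (a p'))
  have hA1 : ∀ D : Finset (Fin q), D.card = d → ((A1 D).card : ℝ) ≤ (2:ℝ) ^ (-(10 * LL N)) * G.card := by
    intro D hD
    refine entDrop hN2 G hG hE (A1 D) (filter_subset _ _) D (by rw [hD]; exact hd1) ?_
    intro p hp
    refine D3_few G hG p G Ng _ ((supp G p).card : ℝ) hNg0 (Nat.cast_nonneg _) _ ?_ (by rw [mul_comm])
    intro v hv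
    obtain ⟨a, ha, hav⟩ := mem_image.1 hv
    have := (mem_filter.1 ha).2 p hp
    rw [← hav]
    exact this.le
  have hA2 : ∀ (p : Fin q) (v : Fin N) (D : Finset (Fin q)), D.card = d →
      ((A2 p v D).card : ℝ) ≤ (2:ℝ) ^ (-(10 * LL N)) * G.card := by
    intro p v D hD
    refine entDrop hN2 G hG hE (A2 p v D) (filter_subset _ _) D (by rw [hD]; exact hd1) ?_
    intro p' hp'
    by_cases hv : hh p v
    · have : A2 p v D = ∅ := by
        refine filter_eq_empty_iff.2 ?_
        intro a _ h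
        exact h.1 hv
      rw [this]
      simp [supp]
    · have hv' : ((G.filter (fun a => a p = v)).card : ℝ) * (supp G p).card ≤ Ng * (G.card : ℝ) := not_lt.1 hv
      have h3 := D3_few G hG p' (G.filter (fun a => a p = v)) (Ng * Ng * Ng) (Ng * (supp G p').card)
        (((supp G p).card : ℝ) * (supp G p').card) (by positivity) (by positivity) (supp (A2 p v D) p') ?_ ?_
      · have h4 : ((supp (A2 p v D) p').card : ℝ) * (Ng * Ng) ≤ (supp G p').card := by
          have h5 : Ng * (((supp (A2 p v D) p').card : ℝ) * (Ng * Ng)) ≤ Ng * (supp G p').card := by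
            linarith
          exact le_of_mul_le_mul_left h5 hNg0
        refine le_trans ?_ h4
        refine mul_le_mul_of_nonneg_left ?_ (Nat.cast_nonneg _)
        nlinarith
      · intro w hw
        obtain ⟨a, ha, hav⟩ := mem_image.1 hw
        have h5 := (mem_filter.1 ha).2.2.2 p' hp'
        unfold Hv at h5
        rw [hav, hNg3] at h5
        rw [filter_filter]
        linarith
      · have h6 := mul_le_mul_of_nonneg_right hv' (Nat.cast_nonneg (supp G p').card : (0:ℝ) ≤ (supp G p').card)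
        linarith
  -- the exceptional tuples
  have hcover : G.filter (fun a => tau2 N < ((univ.filter (fun pp : Fin q × Fin q =>
      Hv G pp.1 pp.2 (a pp.1) (a pp.2))).card : ℝ)) ⊆
      ((powersetCard d (univ : Finset (Fin q))).biUnion A1) ∪
      ((univ : Finset (Fin q × Fin N)) ×ˢ (powersetCard d (univ : Finset (Fin q)))).biUnion
        (fun y => A2 y.1.1 y.1.2 y.2) := by
    intro a ha
    obtain ⟨haG, hta⟩ := mem_filter.1 ha
    by_contra hcon
    rw [mem_union, not_or] at hcon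
    obtain ⟨c1, c2⟩ := hcon
    -- few heavy positions
    have k1 : (univ.filter (fun p => hh p (a p))).card ≤ d := by
      by_contra hlt
      push Not at hlt
      obtain ⟨D, hDs, hDc⟩ := exists_subset_card_eq hlt.le
      refine c1 (mem_biUnion.2 ⟨D, mem_powersetCard.2 ⟨subset_univ _, hDc⟩, mem_filter.2 ⟨haG, ?_⟩⟩)
      intro p hp
      exact (mem_filter.1 (hDs hp)).2
    have k2 : ∀ p, ¬ hh p (a p) → (univ.filter (fun p' => Hv G p p' (a p) (a p'))).card ≤ d := by
      intro p hp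
      by_contra hlt
      push Not at hlt
      obtain ⟨D, hDs, hDc⟩ := exists_subset_card_eq hlt.le
      refine c2 (mem_biUnion.2 ⟨((p, a p), D), mem_product.2 ⟨mem_univ _,
        mem_powersetCard.2 ⟨subset_univ _, hDc⟩⟩, mem_filter.2 ⟨haG, hp, rfl, ?_⟩⟩)
      intro p' hp'
      exact (mem_filter.1 (hDs hp')).2
    have k3 : (univ.filter (fun pp : Fin q × Fin q => Hv G pp.1 pp.2 (a pp.1) (a pp.2))).card ≤
        d * q + q * d := by
      have e1 : univ.filter (fun pp : Fin q × Fin q => Hv G pp.1 pp.2 (a pp.1) (a pp.2)) ⊆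
          ((univ.filter (fun p => hh p (a p))) ×ˢ (univ : Finset (Fin q))) ∪
          ((univ.filter (fun p => ¬ hh p (a p))).biUnion
            (fun p => ({p} : Finset (Fin q)) ×ˢ (univ.filter (fun p' => Hv G p p' (a p) (a p'))))) := by
        intro pp hpp
        have hpp' := (mem_filter.1 hpp).2
        by_cases hp : hh pp.1 (a pp.1)
        · exact mem_union_left _ (mem_product.2 ⟨mem_filter.2 ⟨mem_univ _, hp⟩, mem_univ _⟩)
        · refine mem_union_right _ (mem_biUnion.2 ⟨pp.1, mem_filter.2 ⟨mem_univ _, hp⟩,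
            mem_product.2 ⟨mem_singleton.2 rfl, mem_filter.2 ⟨mem_univ _, hpp'⟩⟩⟩)
      refine (card_le_card e1).trans ((card_union_le _ _).trans (Nat.add_le_add ?_ ?_))
      · rw [card_product, card_univ, Fintype.card_fin]
        exact Nat.mul_le_mul_right _ k1
      · refine card_biUnion_le.trans ?_
        calc ∑ p ∈ univ.filter (fun p => ¬ hh p (a p)),
              (({p} : Finset (Fin q)) ×ˢ (univ.filter (fun p' => Hv G p p' (a p) (a p')))).card
            ≤ ∑ _p ∈ univ.filter (fun p => ¬ hh p (a p)), d := by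
              refine sum_le_sum fun p hp => ?_
              rw [card_product, card_singleton, one_mul]
              exact k2 p (mem_filter.1 hp).2
          _ = (univ.filter (fun p => ¬ hh p (a p))).card * d := by rw [sum_const, smul_eq_mul]
          _ ≤ q * d := by
              refine Nat.mul_le_mul_right _ ?_
              exact (card_le_univ _).trans (by simp)
    have k4 : ((univ.filter (fun pp : Fin q × Fin q => Hv G pp.1 pp.2 (a pp.1) (a pp.2))).card : ℝ) ≤
        (d : ℝ) * q + q * d := by exact_mod_cast k3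
    have k5 : (d : ℝ) * q + q * d ≤ tau2 N := by
      have e1 : (d : ℝ) * q ≤ (kap2 * LL N + 1) * (2 * LL N) :=
        mul_le_mul hd2 hq (Nat.cast_nonneg _) (by positivity)
      have e2 : 2 ≤ kap2 * LL N := by
        rw [div_le_iff₀ hk] at hL2
        linarith
      unfold tau2
      nlinarith
    linarith
  have hcount1 : (((powersetCard d (univ : Finset (Fin q))).biUnion A1).card : ℝ) ≤
      (2:ℝ) ^ q * ((2:ℝ) ^ (-(10 * LL N)) * G.card) := by
    have e1 : (((powersetCard d (univ : Finset (Fin q))).biUnion A1).card : ℝ) ≤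
        ∑ D ∈ powersetCard d (univ : Finset (Fin q)), ((A1 D).card : ℝ) := by
      exact_mod_cast card_biUnion_le
    refine e1.trans ?_
    have e2 : ∑ D ∈ powersetCard d (univ : Finset (Fin q)), ((A1 D).card : ℝ) ≤
        ∑ _D ∈ powersetCard d (univ : Finset (Fin q)), ((2:ℝ) ^ (-(10 * LL N)) * G.card) :=
      sum_le_sum fun D hD => hA1 D (mem_powersetCard.1 hD).2
    refine e2.trans ?_
    rw [sum_const, nsmul_eq_mul]
    refine mul_le_mul_of_nonneg_right ?_ (by positivity)
    have e3 : (powersetCard d (univ : Finset (Fin q))).card ≤ 2 ^ q := by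
      calc (powersetCard d (univ : Finset (Fin q))).card ≤ (powerset (univ : Finset (Fin q))).card :=
            card_le_card (fun D _ => mem_powerset.2 (subset_univ _))
        _ = 2 ^ q := by rw [card_powerset, card_univ, Fintype.card_fin]
    exact_mod_cast e3
  have hcount2 : ((((univ : Finset (Fin q × Fin N)) ×ˢ (powersetCard d (univ : Finset (Fin q)))).biUnion
        (fun y => A2 y.1.1 y.1.2 y.2)).card : ℝ) ≤
      (q : ℝ) * N * (2:ℝ) ^ q * ((2:ℝ) ^ (-(10 * LL N)) * G.card) := by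
    have e1 : ((((univ : Finset (Fin q × Fin N)) ×ˢ (powersetCard d (univ : Finset (Fin q)))).biUnion
        (fun y => A2 y.1.1 y.1.2 y.2)).card : ℝ) ≤
        ∑ y ∈ (univ : Finset (Fin q × Fin N)) ×ˢ (powersetCard d (univ : Finset (Fin q))),
          ((A2 y.1.1 y.1.2 y.2).card : ℝ) := by
      exact_mod_cast card_biUnion_le
    refine e1.trans ?_
    have e2 : ∑ y ∈ (univ : Finset (Fin q × Fin N)) ×ˢ (powersetCard d (univ : Finset (Fin q))),
          ((A2 y.1.1 y.1.2 y.2).card : ℝ) ≤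
        ∑ _y ∈ (univ : Finset (Fin q × Fin N)) ×ˢ (powersetCard d (univ : Finset (Fin q))),
          ((2:ℝ) ^ (-(10 * LL N)) * G.card) :=
      sum_le_sum fun y hy => hA2 _ _ _ (mem_powersetCard.1 (mem_product.1 hy).2).2
    refine e2.trans ?_
    rw [sum_const, nsmul_eq_mul]
    refine mul_le_mul_of_nonneg_right ?_ (by positivity)
    have e3 : ((univ : Finset (Fin q × Fin N)) ×ˢ (powersetCard d (univ : Finset (Fin q)))).card ≤
        q * N * 2 ^ q := by
      rw [card_product]
      refine Nat.mul_le_mul ?_ ?_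
      · simp
      · calc (powersetCard d (univ : Finset (Fin q))).card ≤ (powerset (univ : Finset (Fin q))).card :=
            card_le_card (fun D _ => mem_powerset.2 (subset_univ _))
          _ = 2 ^ q := by rw [card_powerset, card_univ, Fintype.card_fin]
    exact_mod_cast e3
  have h2q : (2:ℝ) ^ q ≤ (2:ℝ) ^ (2 * LL N) := by
    rw [← Real.rpow_natCast]
    exact Real.rpow_le_rpow_of_exponent_le (by norm_num) hq
  have hqq : (q : ℝ) * 2 ≤ (2:ℝ) ^ (2 * LL N) := by
    refine le_trans ?_ h2q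
    have : q * 2 ≤ 2 ^ q := by
      rcases Nat.eq_zero_or_pos q with h0 | h0
      · simp [h0]
      · obtain ⟨r, rfl⟩ : ∃ r, q = r + 1 := ⟨q - 1, by omega⟩
        have := Nat.lt_two_pow_self (n := r)
        rw [pow_succ]
        omega
    exact_mod_cast this
  have htot : ((G.filter (fun a => tau2 N < ((univ.filter (fun pp : Fin q × Fin q =>
      Hv G pp.1 pp.2 (a pp.1) (a pp.2))).card : ℝ))).card : ℝ) ≤
      (2:ℝ) ^ q * ((2:ℝ) ^ (-(10 * LL N)) * G.card) +
      (q : ℝ) * N * (2:ℝ) ^ q * ((2:ℝ) ^ (-(10 * LL N)) * G.card) := by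
    have e1 : ((G.filter (fun a => tau2 N < ((univ.filter (fun pp : Fin q × Fin q =>
      Hv G pp.1 pp.2 (a pp.1) (a pp.2))).card : ℝ))).card : ℝ) ≤
        (((powersetCard d (univ : Finset (Fin q))).biUnion A1).card : ℝ) +
        ((((univ : Finset (Fin q × Fin N)) ×ˢ (powersetCard d (univ : Finset (Fin q)))).biUnion
          (fun y => A2 y.1.1 y.1.2 y.2)).card : ℝ) := by
      exact_mod_cast (card_le_card hcover).trans (card_union_le _ _)
    linarith
  -- numerics
  set x : ℝ := (2:ℝ) ^ LL N with hx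
  have hx1 : 2 ≤ x := by
    rw [hx]
    calc (2:ℝ) = (2:ℝ) ^ (1:ℝ) := by simp
      _ ≤ (2:ℝ) ^ LL N := Real.rpow_le_rpow_of_exponent_le (by norm_num) hL1
  have hx0 : 0 < x := by linarith
  have hx2 : (2:ℝ) ^ (2 * LL N) = x ^ 2 := by
    rw [hx, mul_comm, Real.rpow_mul (by norm_num)]
    norm_cast
  have hx10 : (2:ℝ) ^ (-(10 * LL N)) = (x ^ 10)⁻¹ := by
    rw [Real.rpow_neg (by norm_num), hx, mul_comm, Real.rpow_mul (by norm_num)]
    norm_cast
  have hx5 : (2:ℝ) ^ (-(5 * LL N)) = (x ^ 5)⁻¹ := by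
    rw [Real.rpow_neg (by norm_num), hx, mul_comm, Real.rpow_mul (by norm_num)]
    norm_cast
  rw [hx2] at h2q hqq
  rw [hNL, hx10] at htot
  rw [hx5]
  refine htot.trans ?_
  have f1 : (2:ℝ) ^ q * ((x ^ 10)⁻¹ * G.card) ≤ x ^ 2 * ((x ^ 10)⁻¹ * G.card) :=
    mul_le_mul_of_nonneg_right h2q (by positivity)
  have f2 : (q : ℝ) * x * (2:ℝ) ^ q * ((x ^ 10)⁻¹ * G.card) ≤
      (x ^ 2 / 2) * x * x ^ 2 * ((x ^ 10)⁻¹ * G.card) := by
    refine mul_le_mul_of_nonneg_right ?_ (by positivity)
    refine mul_le_mul (mul_le_mul_of_nonneg_right (by linarith) hx0.le) h2q (by positivity) (by positivity)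
  have f3 : x ^ 2 * (x ^ 10)⁻¹ ≤ (x ^ 5)⁻¹ / 2 := by
    have : x ^ 2 * (x ^ 10)⁻¹ = (x ^ 5)⁻¹ * (x ^ 3)⁻¹ := by
      field_simp
    rw [this, div_eq_mul_inv]
    refine mul_le_mul_of_nonneg_left ?_ (by positivity)
    refine inv_anti₀ (by norm_num) ?_
    nlinarith [pow_pos hx0 2, pow_pos hx0 3]
  have f4 : (x ^ 2 / 2) * x * x ^ 2 * (x ^ 10)⁻¹ = (x ^ 5)⁻¹ / 2 := by
    field_simp
  have f5 : x ^ 2 * ((x ^ 10)⁻¹ * G.card) ≤ (x ^ 5)⁻¹ / 2 * G.card := by
    rw [← mul_assoc]
    exact mul_le_mul_of_nonneg_right f3 hGc.le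
  have f6 : (x ^ 2 / 2) * x * x ^ 2 * ((x ^ 10)⁻¹ * G.card) = (x ^ 5)⁻¹ / 2 * G.card := by
    rw [← mul_assoc, f4]
  linarith

end Pool.Agent.CG
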