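import Pool.Agent.CG.D0

/-!
# CG D4: the sampled edge sets are avoided by most tuples (except for heavy pairs)

PAPER PROOF. For i, (p,p') ∈ Cn i, an edge f = s(v,v') ∈ F i (two orientations) with (v,v') not heavy at
(p,p'): #{a ∈ G : a p = v, a p' = v'} ≤ N^(3g)|G| / (|supp G p||supp G p'|) ≤ N^(3g)|G| / (m i N^(5g)).
Sum over i (n values), (p,p') (≤ q² values), (v,v') (≤ 2|F i| ≤ 8 m i N^g q² values):
≤ n q² * 8 m i N^g q² * N^(-2g)|G| / m i = 8 n q⁴ N^(-g)|G|.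
(For fixed i and (p,p') the map a ↦ (a p, a p') sends the counted tuples into
{(v,v') : s(v,v') ∈ F i}, which has at most 2|F i| elements.)
-/

set_option autoImplicit false

namespace Pool.Agent.CG

open Finset

open Classical in
private theorem sparse_pairs {V : Type} [Fintype V] (F : Finset (Sym2 V)) :
    ((univ : Finset (V × V)).filter (fun vv => s(vv.1, vv.2) ∈ F)).card ≤ 2 * F.card := by
  have h := Finset.card_le_mul_card_image_of_maps_to (s := (univ : Finset (V × V)).filter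
    (fun vv => s(vv.1, vv.2) ∈ F)) (t := F) (f := fun vv => s(vv.1, vv.2))
    (fun vv hvv => (Finset.mem_filter.1 hvv).2) 2 (fun e he => by
      induction e using Sym2.ind with
      | _ x y =>
        have hsub : ((univ : Finset (V × V)).filter (fun vv => s(vv.1, vv.2) ∈ F)).filter
            (fun vv => s(vv.1, vv.2) = s(x, y)) ⊆ {(x, y), (y, x)} := by
          intro vv hvv
          have h2 := (Finset.mem_filter.1 hvv).2
          rw [Sym2.eq_iff] at h2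
          rw [Finset.mem_insert, Finset.mem_singleton]
          rcases h2 with ⟨h3, h4⟩ | ⟨h3, h4⟩
          · exact Or.inl (Prod.ext h3 h4)
          · exact Or.inr (Prod.ext h3 h4)
        exact (Finset.card_le_card hsub).trans (Finset.card_le_two))
  exact h

open Classical in
private theorem sparse_one {N q : ℕ} (G : Finset (Fin q → Fin N))
    (F : Finset (Sym2 (Fin N))) (p p' : Fin q) (K : ℝ) (hK : 0 ≤ K)
    (hs : ∀ v v', ¬ Hv G p p' v v' → ((G.filter (fun a => a p = v ∧ a p' = v')).card : ℝ) ≤ K) :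
    ((G.filter (fun a => s(a p, a p') ∈ F ∧ ¬ Hv G p p' (a p) (a p'))).card : ℝ) ≤
      2 * (F.card : ℝ) * K := by
  set S := G.filter (fun a => s(a p, a p') ∈ F ∧ ¬ Hv G p p' (a p) (a p')) with hS
  set T := ((univ : Finset (Fin N × Fin N)).filter (fun vv => s(vv.1, vv.2) ∈ F)) with hT
  have h1 : S.card = ∑ vv ∈ T, (S.filter (fun a => (a p, a p') = vv)).card := by
    apply Finset.card_eq_sum_card_fiberwise
    intro a ha
    have ha' := (Finset.mem_filter.1 (Finset.mem_coe.1 ha)).2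
    exact Finset.mem_coe.2 (Finset.mem_filter.2 ⟨mem_univ _, ha'.1⟩)
  have h2 : ∀ vv ∈ T, ((S.filter (fun a => (a p, a p') = vv)).card : ℝ) ≤ K := by
    intro vv _
    rcases Finset.eq_empty_or_nonempty (S.filter (fun a => (a p, a p') = vv)) with h0 | ⟨a, ha⟩
    · rw [h0]
      simpa using hK
    · have ha1 := Finset.mem_filter.1 ha
      have ha2 := (Finset.mem_filter.1 ha1.1).2
      have h3 : ¬ Hv G p p' vv.1 vv.2 := by
        have e1 : a p = vv.1 := congrArg Prod.fst ha1.2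
        have e2 : a p' = vv.2 := congrArg Prod.snd ha1.2
        rw [← e1, ← e2]
        exact ha2.2
      refine le_trans ?_ (hs vv.1 vv.2 h3)
      have hsub : S.filter (fun a => (a p, a p') = vv) ⊆ G.filter (fun a => a p = vv.1 ∧ a p' = vv.2) := by
        intro b hb
        have hb1 := Finset.mem_filter.1 hb
        have hb2 := Finset.mem_filter.1 hb1.1
        exact Finset.mem_filter.2 ⟨hb2.1, congrArg Prod.fst hb1.2, congrArg Prod.snd hb1.2⟩
      exact_mod_cast Finset.card_le_card hsub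
  have h3 : (S.card : ℝ) ≤ (T.card : ℝ) * K := by
    rw [h1]
    push_cast
    refine (Finset.sum_le_sum h2).trans ?_
    rw [Finset.sum_const, nsmul_eq_mul]
  have h4 : (T.card : ℝ) ≤ 2 * (F.card : ℝ) := by
    have h5 : T.card ≤ 2 * F.card := by
      rw [hT]
      convert sparse_pairs F
    exact_mod_cast h5
  exact h3.trans (mul_le_mul_of_nonneg_right h4 hK)

open Classical in
theorem sparse {N q n : ℕ} (hN : 1 ≤ N) (G : Finset (Fin q → Fin N)) (hG : G.Nonempty)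
    (Cn : Fin n → Finset (Fin q × Fin q)) (F : Fin n → Finset (Sym2 (Fin N))) (m : Fin n → ℝ)
    (hm : ∀ i, 0 < m i) (hF : ∀ i, ((F i).card : ℝ) ≤ 4 * m i * (N:ℝ) ^ g2 * (q:ℝ) ^ 2)
    (hC : ∀ i, ∀ pp ∈ Cn i, m i * (N:ℝ) ^ (5 * g2) ≤
      ((supp G pp.1).card : ℝ) * ((supp G pp.2).card : ℝ)) :
    ((G.filter (fun a => ∃ i, ∃ pp ∈ Cn i, s(a pp.1, a pp.2) ∈ F i ∧
      ¬ Hv G pp.1 pp.2 (a pp.1) (a pp.2))).card : ℝ) ≤
        8 * n * (q:ℝ) ^ 4 * (N:ℝ) ^ (-g2) * G.card := by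
  have hN0 : (0 : ℝ) < (N : ℝ) := by exact_mod_cast hN
  have hgc : (0 : ℝ) ≤ (G.card : ℝ) := Nat.cast_nonneg _
  have hsupp : ∀ p : Fin q, 0 < ((supp G p).card : ℝ) := by
    intro p
    have : 0 < (supp G p).card := Finset.card_pos.2 (hG.image _)
    exact_mod_cast this
  -- one pair of positions
  have hone : ∀ i, ∀ pp ∈ Cn i, ((G.filter (fun a => s(a pp.1, a pp.2) ∈ F i ∧
      ¬ Hv G pp.1 pp.2 (a pp.1) (a pp.2))).card : ℝ) ≤ 8 * (q:ℝ) ^ 2 * (N:ℝ) ^ (-g2) * G.card := by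
    intro i pp hpp
    have hpos : 0 < m i * (N:ℝ) ^ (5 * g2) := mul_pos (hm i) (Real.rpow_pos_of_pos hN0 _)
    have hK : 0 ≤ (N:ℝ) ^ (3 * g2) * (G.card : ℝ) / (m i * (N:ℝ) ^ (5 * g2)) := by positivity
    refine (sparse_one G (F i) pp.1 pp.2 ((N:ℝ) ^ (3 * g2) * (G.card : ℝ) / (m i * (N:ℝ) ^ (5 * g2))) hK ?_).trans ?_
    · intro v v' hv
      rw [le_div_iff₀ hpos]
      unfold Hv at hv
      push Not at hv
      calc ((G.filter (fun a => a pp.1 = v ∧ a pp.2 = v')).card : ℝ) * (m i * (N:ℝ) ^ (5 * g2))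
          ≤ ((G.filter (fun a => a pp.1 = v ∧ a pp.2 = v')).card : ℝ) *
            (((supp G pp.1).card : ℝ) * ((supp G pp.2).card : ℝ)) :=
            mul_le_mul_of_nonneg_left (hC i pp hpp) (Nat.cast_nonneg _)
        _ = ((G.filter (fun a => a pp.1 = v ∧ a pp.2 = v')).card : ℝ) * (supp G pp.1).card *
            (supp G pp.2).card := by ring
        _ ≤ (N:ℝ) ^ (3 * g2) * (G.card : ℝ) := hv
    · have hsplit : (N:ℝ) ^ (3 * g2) * (N:ℝ) ^ g2 = (N:ℝ) ^ (-g2) * (N:ℝ) ^ (5 * g2) := by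
        rw [← Real.rpow_add hN0, ← Real.rpow_add hN0]
        congr 1
        ring
      have h1 : 2 * ((F i).card : ℝ) * ((N:ℝ) ^ (3 * g2) * (G.card : ℝ) / (m i * (N:ℝ) ^ (5 * g2))) ≤
          2 * (4 * m i * (N:ℝ) ^ g2 * (q:ℝ) ^ 2) *
            ((N:ℝ) ^ (3 * g2) * (G.card : ℝ) / (m i * (N:ℝ) ^ (5 * g2))) :=
        mul_le_mul_of_nonneg_right (by have := hF i; linarith) hK
      refine h1.trans (le_of_eq ?_)
      have hm' := (hm i).ne'
      have h5 := (Real.rpow_pos_of_pos hN0 (5 * g2)).ne'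
      rw [mul_div_assoc', div_eq_iff hpos.ne']
      calc 2 * (4 * m i * (N:ℝ) ^ g2 * (q:ℝ) ^ 2) * ((N:ℝ) ^ (3 * g2) * (G.card : ℝ))
          = 8 * m i * (q:ℝ) ^ 2 * (G.card : ℝ) * ((N:ℝ) ^ (3 * g2) * (N:ℝ) ^ g2) := by ring
        _ = 8 * m i * (q:ℝ) ^ 2 * (G.card : ℝ) * ((N:ℝ) ^ (-g2) * (N:ℝ) ^ (5 * g2)) := by rw [hsplit]
        _ = _ := by ring
  -- union bound
  have hsub : G.filter (fun a => ∃ i, ∃ pp ∈ Cn i, s(a pp.1, a pp.2) ∈ F i ∧
      ¬ Hv G pp.1 pp.2 (a pp.1) (a pp.2)) ⊆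
      (univ : Finset (Fin n)).biUnion (fun i => (Cn i).biUnion (fun pp =>
        G.filter (fun a => s(a pp.1, a pp.2) ∈ F i ∧ ¬ Hv G pp.1 pp.2 (a pp.1) (a pp.2)))) := by
    intro a ha
    obtain ⟨haG, i, pp, hpp, h1, h2⟩ := Finset.mem_filter.1 ha
    exact Finset.mem_biUnion.2 ⟨i, mem_univ _, Finset.mem_biUnion.2 ⟨pp, hpp, Finset.mem_filter.2 ⟨haG, h1, h2⟩⟩⟩
  have h1 : ((G.filter (fun a => ∃ i, ∃ pp ∈ Cn i, s(a pp.1, a pp.2) ∈ F i ∧
      ¬ Hv G pp.1 pp.2 (a pp.1) (a pp.2))).card : ℝ) ≤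
      ∑ i : Fin n, ∑ pp ∈ Cn i, ((G.filter (fun a => s(a pp.1, a pp.2) ∈ F i ∧
        ¬ Hv G pp.1 pp.2 (a pp.1) (a pp.2))).card : ℝ) := by
    have h2 := (Finset.card_le_card hsub).trans (Finset.card_biUnion_le.trans
      (Finset.sum_le_sum fun i _ => Finset.card_biUnion_le))
    exact_mod_cast h2
  refine h1.trans ?_
  have h0 : 0 ≤ 8 * (q:ℝ) ^ 2 * (N:ℝ) ^ (-g2) * G.card := by positivity
  have h2 : ∀ i : Fin n, ∑ pp ∈ Cn i, ((G.filter (fun a => s(a pp.1, a pp.2) ∈ F i ∧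
        ¬ Hv G pp.1 pp.2 (a pp.1) (a pp.2))).card : ℝ) ≤
      (q:ℝ) ^ 2 * (8 * (q:ℝ) ^ 2 * (N:ℝ) ^ (-g2) * G.card) := by
    intro i
    refine (Finset.sum_le_sum (hone i)).trans ?_
    rw [Finset.sum_const, nsmul_eq_mul]
    refine mul_le_mul_of_nonneg_right ?_ h0
    have h3 : (Cn i).card ≤ q ^ 2 := by
      refine (Finset.card_le_univ _).trans ?_
      rw [Fintype.card_prod, Fintype.card_fin]
      exact le_of_eq (by ring)
    exact_mod_cast h3
  refine (Finset.sum_le_sum fun i _ => h2 i).trans ?_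
  rw [Finset.sum_const, nsmul_eq_mul, Finset.card_univ, Fintype.card_fin]
  exact le_of_eq (by ring)

end Pool.Agent.CG
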