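import Pool.Agent.CG.D0

/-!
# CG D5: a spread family has few positions with a small support

PAPER PROOF. If P is empty: |H| ≤ |G| since a ↦ image is injective into G. Otherwise split H by the values
(a p)_{p ∈ P}: at most ∏_{p ∈ P} |supp H p| ≤ (N^(kap0/2))^|P| classes. For a class with values v (any
member a): V' = P.image a has |V'| = |P| (a injective), is disjoint from E, nonempty; every member b of the
class has V' ⊆ image b, so its size is ≤ |sub G V'| < (N^(-kap0))^|P| |G| (`Spr`, |V'| ≤ N). Multiply.
-/

set_option autoImplicit false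

namespace Pool.Agent.CG

open Finset

theorem fewSmall {N q : ℕ} (hN : 1 ≤ N) (E : Finset (Fin N)) (G : Finset (Finset (Fin N)))
    (hspr : Spr ((N:ℝ) ^ (-kap0)) N G E) (H : Finset (Fin q → Fin N))
    (hinj : ∀ a ∈ H, Function.Injective a) (hG : ∀ a ∈ H, univ.image a ∈ G)
    (hio : Set.InjOn (fun a : Fin q → Fin N => univ.image a) (↑H : Set (Fin q → Fin N)))
    (P : Finset (Fin q)) (hE : ∀ a ∈ H, ∀ p ∈ P, a p ∉ E)
    (hP : ∀ p ∈ P, ((supp H p).card : ℝ) ≤ (N:ℝ) ^ (kap0 / 2)) :
    (H.card : ℝ) ≤ (N:ℝ) ^ (-(kap0 / 2) * (P.card : ℝ)) * G.card := by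
  classical
  have hN0 : (0 : ℝ) < (N : ℝ) := by exact_mod_cast hN
  rcases P.eq_empty_or_nonempty with rfl | hPne
  · rw [Finset.card_empty, Nat.cast_zero, mul_zero, Real.rpow_zero, one_mul]
    have h1 : H.card ≤ G.card := Finset.card_le_card_of_injOn (fun a => univ.image a)
      (fun a ha => Finset.mem_coe.2 (hG a ha)) hio
    exact_mod_cast h1
  · set T : Finset (P → Fin N) := Fintype.piFinset (fun p : P => supp H (p : Fin q)) with hT
    have hmaps : ∀ a ∈ H, (fun p : P => a (p : Fin q)) ∈ T := by
      intro a ha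
      rw [hT, Fintype.mem_piFinset]
      intro p
      exact Finset.mem_image.2 ⟨a, ha, rfl⟩
    have hcard := Finset.card_eq_sum_card_fiberwise (s := H) (t := T)
      (f := fun (a : Fin q → Fin N) (p : P) => a (p : Fin q)) (fun a ha => Finset.mem_coe.2 (hmaps a ha))
    set K : ℝ := (N:ℝ) ^ (-kap0 * (P.card : ℝ)) * G.card with hK
    have hK0 : 0 ≤ K := by positivity
    have hfib : ∀ t ∈ T, ((H.filter (fun a => (fun p : P => a (p : Fin q)) = t)).card : ℝ) ≤ K := by
      intro t _
      rcases Finset.eq_empty_or_nonempty (H.filter (fun a => (fun p : P => a (p : Fin q)) = t)) with h0 | ⟨a, ha⟩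
      · rw [h0]
        simpa using hK0
      · obtain ⟨haH, hat⟩ := Finset.mem_filter.1 ha
        have hVc : (P.image a).card = P.card := Finset.card_image_of_injective _ (hinj a haH)
        have h1 : (H.filter (fun a => (fun p : P => a (p : Fin q)) = t)).card ≤ (sub G (P.image a)).card := by
          refine Finset.card_le_card_of_injOn (fun b => univ.image b) ?_ ?_
          · intro b hb
            obtain ⟨hbH, hbt⟩ := Finset.mem_filter.1 (Finset.mem_coe.1 hb)
            refine Finset.mem_coe.2 (Finset.mem_filter.2 ⟨hG b hbH, ?_⟩)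
            intro x hx
            obtain ⟨p, hp, rfl⟩ := Finset.mem_image.1 hx
            have h2 : b p = a p := by
              have h3 := congrFun (hbt.trans hat.symm) ⟨p, hp⟩
              exact h3
            rw [← h2]
            exact Finset.mem_image.2 ⟨p, mem_univ _, rfl⟩
          · intro b hb b' hb' hbb
            exact hio (Finset.mem_coe.2 (Finset.mem_filter.1 (Finset.mem_coe.1 hb)).1)
              (Finset.mem_coe.2 (Finset.mem_filter.1 (Finset.mem_coe.1 hb')).1) hbb
        have h4 : Disjoint (P.image a) E := by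
          rw [Finset.disjoint_left]
          intro x hx
          obtain ⟨p, hp, rfl⟩ := Finset.mem_image.1 hx
          exact hE a haH p hp
        have h5 : (P.image a).card ≤ N := by
          refine (Finset.card_le_univ _).trans ?_
          rw [Fintype.card_fin]
        have h6 := hspr (P.image a) (hPne.image a) h4 h5
        rw [hVc, ← Real.rpow_mul_natCast hN0.le] at h6
        refine le_trans ?_ h6.le
        exact_mod_cast h1
    have h7 : (H.card : ℝ) ≤ (T.card : ℝ) * K := by
      rw [hcard]
      push_cast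
      refine (Finset.sum_le_sum hfib).trans ?_
      rw [Finset.sum_const, nsmul_eq_mul]
    have h8 : (T.card : ℝ) ≤ (N:ℝ) ^ (kap0 / 2 * (P.card : ℝ)) := by
      rw [hT, Fintype.card_piFinset]
      push_cast
      calc ∏ p : P, ((supp H (p : Fin q)).card : ℝ) ≤ ∏ _p : P, (N:ℝ) ^ (kap0 / 2) :=
            Finset.prod_le_prod (fun p _ => Nat.cast_nonneg _) (fun p _ => hP p p.2)
        _ = (N:ℝ) ^ (kap0 / 2 * (P.card : ℝ)) := by
            rw [Finset.prod_const, Finset.card_univ, Fintype.card_coe, ← Real.rpow_mul_natCast hN0.le]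
    refine (h7.trans (mul_le_mul_of_nonneg_right h8 hK0)).trans (le_of_eq ?_)
    rw [hK, ← mul_assoc, ← Real.rpow_add hN0]
    congr 2
    ring

end Pool.Agent.CG
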