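import Pool.Agent.CG.D0

/-!
# CG D6: windows and levels (pure combinatorics of real exponents)

`e p` = exponent of the support at p. κ = kap0.
PAPER PROOF. For t ∈ {0,…,M-1} put om_t i = κ/2 + t * (κ/(4M)) + i κ/4. For a pair (p,p') of positions of P,
p < p', let y = (e p + e p' - κ/2) / (κ/(4M)) > 2M > 0. Then om_t i < e p + e p' ≤ om_t i + κ/(4M) iff
t + iM < y ≤ t + iM + 1 iff ⌈y⌉ - 1 = t + iM; this forces t = (⌈y⌉₊ - 1) mod M. So by the pigeonhole principle some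
t has at most (number of pairs)/M ≤ |P|²/M pairs p < p' with (⌈y⌉₊ - 1) mod M = t; fix it, om = om_t.
Note κ/2 ≤ om 0 < 3κ/4 and om (n-1) ≥ κ/2 + (n-1)κ/4 ≥ 1.
lev p = the least i with e p ≤ om i (exists: i = n-1). Clearly e z ≤ e p → lev z ≤ lev p.
Cn i = pairs (p,p') of P with p < p', om i + κ/(4M) < e p + e p', and (e p + e p' ≤ om (i+1) if i+1 < n).
If (p,p') ∈ Cn i, then e p, e p' ≤ om i: for i+1 < n: e p ≤ om (i+1) - e p' < om i + κ/4 - κ/2; for i = n-1: e p ≤ 1 ≤ om i.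
Disjointness: for i < j (so i+1 < n), e p + e p' ≤ om (i+1) ≤ om j, contradiction to om j < e p + e p'.
Uncovered pairs: p < p' in P in no Cn i: e p + e p' > κ > om 0; let i be the largest index with
om i < e p + e p'; if om i + κ/(4M) < e p + e p' then (p,p') ∈ Cn i. Otherwise (⌈y⌉₊-1) mod M = t.
-/

set_option autoImplicit false

namespace Pool.Agent.CG

open Finset

/-- The largest index below `n` with a property. -/
private theorem D6_last (n : ℕ) (Q : ℕ → Prop) (hn : 1 ≤ n) (h0 : Q 0) :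
    ∃ i, i < n ∧ Q i ∧ (i + 1 < n → ¬ Q (i + 1)) := by
  classical
  induction n with
  | zero => omega
  | succ k ih =>
    rcases Nat.eq_zero_or_pos k with rfl | hk
    · exact ⟨0, by omega, h0, fun h => absurd h (by omega)⟩
    · obtain ⟨i, hi, hQ, hlast⟩ := ih hk
      by_cases hik : i + 1 < k
      · exact ⟨i, by omega, hQ, fun _ => hlast hik⟩
      · by_cases hQ' : Q (i + 1)
        · exact ⟨i + 1, by omega, hQ', fun h => absurd h (by omega)⟩
        · exact ⟨i, by omega, hQ, fun _ => hQ'⟩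

open Classical in
private theorem D6_windows {q n M : ℕ} (κ : ℝ) (hκ : 0 < κ) (hn : 1 ≤ n) (hM : 1 ≤ M)
    (h1 : 1 ≤ κ / 2 + ((n:ℝ) - 1) * (κ / 4)) (e : Fin q → ℝ)
    (he1 : ∀ p, e p ≤ 1) (P : Finset (Fin q)) (hP : ∀ p ∈ P, κ / 2 < e p) :
    ∃ (om : ℕ → ℝ) (lev : Fin q → Fin n) (Cn : Fin n → Finset (Fin q × Fin q)),
      (∀ i, om (i + 1) = om i + κ / 4) ∧ κ / 2 ≤ om 0 ∧ om 0 ≤ κ ∧
      (∀ p, e p ≤ om (lev p)) ∧ (∀ p z, e z ≤ e p → lev z ≤ lev p) ∧
      (∀ i, ∀ pp ∈ Cn i, pp.1 ∈ P ∧ pp.2 ∈ P ∧ pp.1 < pp.2 ∧ lev pp.1 ≤ i ∧ lev pp.2 ≤ i ∧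
        om i + κ / (4 * M) < e pp.1 + e pp.2 ∧
        ((i:ℕ) + 1 < n → e pp.1 + e pp.2 ≤ om (i + 1))) ∧
      (∀ i j, i ≠ j → Disjoint (Cn i) (Cn j)) ∧
      M * ((P ×ˢ P).filter (fun pp => pp.1 < pp.2 ∧ ∀ i, pp ∉ Cn i)).card ≤ P.card ^ 2 := by
  have hMr : (1 : ℝ) ≤ (M : ℝ) := by exact_mod_cast hM
  have hM0 : (0 : ℝ) < (M : ℝ) := by linarith
  obtain ⟨w, hw⟩ : ∃ w, w = κ / (4 * (M : ℝ)) := ⟨_, rfl⟩
  have hw0 : 0 < w := by rw [hw]; positivity
  have hMw : (M : ℝ) * w = κ / 4 := by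
    rw [hw]
    field_simp
  rw [← hw]
  let A : Finset (Fin q × Fin q) := (P ×ˢ P).filter (fun pp => pp.1 < pp.2)
  let c : Fin q × Fin q → ℕ := fun pp => (⌈(e pp.1 + e pp.2 - κ / 2) / w⌉₊ - 1) % M
  obtain ⟨t, htM, ht⟩ : ∃ t ∈ Finset.range M, M * (A.filter (fun pp => c pp = t)).card ≤ A.card := by
    apply Finset.exists_le_of_sum_le (Finset.nonempty_range_iff.2 (by omega))
    rw [← Finset.mul_sum, Finset.sum_const, Finset.card_range, smul_eq_mul]
    apply Nat.mul_le_mul_left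
    apply le_of_eq
    symm
    apply Finset.card_eq_sum_card_fiberwise
    intro pp _
    exact Finset.mem_coe.2 (Finset.mem_range.2 (Nat.mod_lt _ (by omega)))
  rw [Finset.mem_range] at htM
  have htr : (t : ℝ) + 1 ≤ (M : ℝ) := by exact_mod_cast htM
  have ht0 : (0 : ℝ) ≤ (t : ℝ) := by positivity
  have htw0 : 0 ≤ (t : ℝ) * w := by positivity
  have htw1 : (t : ℝ) * w + w ≤ κ / 4 := by
    rw [← hMw]
    nlinarith
  obtain ⟨om, hom⟩ : ∃ om : ℕ → ℝ, om = fun i : ℕ => κ / 2 + t * w + (i : ℝ) * (κ / 4) := ⟨_, rfl⟩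
  have hom' : ∀ i, om i = κ / 2 + t * w + i * (κ / 4) := fun i => by rw [hom]
  have hsucc : ∀ i, om (i + 1) = om i + κ / 4 := fun i => by
    rw [hom', hom']
    push_cast
    ring
  have hom0 : om 0 = κ / 2 + t * w := by rw [hom']; simp
  have hmono : ∀ i j, i ≤ j → om i ≤ om j := fun i j hij => by
    rw [hom', hom']
    have : (i : ℝ) ≤ (j : ℝ) := by exact_mod_cast hij
    nlinarith
  have hlast : 1 ≤ om (n - 1) := by
    rw [hom']
    have : ((n - 1 : ℕ) : ℝ) = (n : ℝ) - 1 := by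
      rw [Nat.cast_sub hn]
      simp
    rw [this]
    linarith
  have hex : ∀ p, ∃ i, e p ≤ om i := fun p => ⟨n - 1, (he1 p).trans hlast⟩
  have hlt : ∀ p, Nat.find (hex p) < n := fun p =>
    lt_of_le_of_lt (Nat.find_min' (hex p) ((he1 p).trans hlast)) (by omega)
  let lev : Fin q → Fin n := fun p => ⟨Nat.find (hex p), hlt p⟩
  let Cn : Fin n → Finset (Fin q × Fin q) := fun i => A.filter (fun pp =>
    om i + w < e pp.1 + e pp.2 ∧ ((i : ℕ) + 1 < n → e pp.1 + e pp.2 ≤ om (i + 1)))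
  have hmemA : ∀ pp : Fin q × Fin q, pp ∈ A ↔ (pp.1 ∈ P ∧ pp.2 ∈ P) ∧ pp.1 < pp.2 := fun pp => by
    simp only [A, Finset.mem_filter, Finset.mem_product]
  have hmemC : ∀ (i : Fin n) (pp : Fin q × Fin q), pp ∈ Cn i ↔ pp ∈ A ∧
      (om i + w < e pp.1 + e pp.2 ∧ ((i : ℕ) + 1 < n → e pp.1 + e pp.2 ≤ om (i + 1))) := fun i pp => by
    simp only [Cn, Finset.mem_filter]
  have hlev : ∀ (p : Fin q) (i : Fin n), e p ≤ om i → lev p ≤ i := fun p i h =>
    Fin.le_def.2 (Nat.find_min' (hex p) h)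
  refine ⟨om, lev, Cn, hsucc, ?_, ?_, fun p => Nat.find_spec (hex p), ?_, ?_, ?_, ?_⟩
  · rw [hom0]
    linarith
  · rw [hom0]
    linarith
  · intro p z hz
    exact hlev z _ (hz.trans (Nat.find_spec (hex p)))
  · intro i pp hpp
    rw [hmemC, hmemA] at hpp
    obtain ⟨⟨⟨hp1, hp2⟩, hlt'⟩, hs, hs'⟩ := hpp
    have h2 : e pp.1 ≤ om i ∧ e pp.2 ≤ om i := by
      by_cases hi : (i : ℕ) + 1 < n
      · have h3 := hs' hi
        rw [hsucc] at h3
        have h4 := hP _ hp1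
        have h5 := hP _ hp2
        constructor <;> linarith
      · have h3 : (i : ℕ) = n - 1 := by
          have := i.2
          omega
        rw [h3]
        exact ⟨(he1 _).trans hlast, (he1 _).trans hlast⟩
    exact ⟨hp1, hp2, hlt', hlev _ _ h2.1, hlev _ _ h2.2, hs, hs'⟩
  · have key : ∀ i j : Fin n, i < j → Disjoint (Cn i) (Cn j) := by
      intro i j hij
      rw [Finset.disjoint_left]
      intro pp h3 h4
      rw [hmemC] at h3 h4
      have hij' : (i : ℕ) + 1 ≤ (j : ℕ) := hij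
      have h5 := h3.2.2 (lt_of_le_of_lt hij' j.2)
      have h6 := hmono _ _ hij'
      have h7 := h4.2.1
      linarith
    intro i j hij
    rcases lt_or_gt_of_ne hij with h | h
    · exact key i j h
    · exact (key j i h).symm
  · have hsub : (P ×ˢ P).filter (fun pp => pp.1 < pp.2 ∧ ∀ i, pp ∉ Cn i) ⊆
        A.filter (fun pp => c pp = t) := by
      intro pp hpp
      rw [Finset.mem_filter, Finset.mem_product] at hpp
      obtain ⟨hpP, hlt', hno⟩ := hpp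
      have hA : pp ∈ A := (hmemA pp).2 ⟨hpP, hlt'⟩
      rw [Finset.mem_filter]
      refine ⟨hA, ?_⟩
      have hp1 := hP _ hpP.1
      have hp2 := hP _ hpP.2
      obtain ⟨s, hs⟩ : ∃ s, s = e pp.1 + e pp.2 := ⟨_, rfl⟩
      have hs0 : om 0 < s := by
        rw [hom0, hs]
        linarith
      obtain ⟨i, hi, hQ, hl⟩ := D6_last n (fun i => om i < s) hn hs0
      have hle : s ≤ om i + w := by
        by_contra hcon
        rw [not_le] at hcon
        apply hno ⟨i, hi⟩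
        rw [hmemC]
        refine ⟨hA, ?_, fun h => ?_⟩
        · rw [← hs]
          exact hcon
        · rw [← hs]
          exact not_lt.1 (hl h)
      have hy1 : ((t + i * M : ℕ) : ℝ) < (s - κ / 2) / w := by
        rw [lt_div_iff₀ hw0]
        have h3 : om i < s := hQ
        rw [hom'] at h3
        push_cast
        have : ((t : ℝ) + i * M) * w = t * w + i * (κ / 4) := by
          rw [← hMw]
          ring
        rw [this]
        linarith
      have hy2 : (s - κ / 2) / w ≤ ((t + i * M + 1 : ℕ) : ℝ) := by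
        rw [div_le_iff₀ hw0]
        rw [hom'] at hle
        push_cast
        have : ((t : ℝ) + i * M + 1) * w = t * w + i * (κ / 4) + w := by
          rw [← hMw]
          ring
        rw [this]
        linarith
      have hceil : ⌈(s - κ / 2) / w⌉₊ = t + i * M + 1 := by
        apply le_antisymm
        · exact Nat.ceil_le.2 hy2
        · exact Nat.lt_ceil.2 hy1
      change (⌈(e pp.1 + e pp.2 - κ / 2) / w⌉₊ - 1) % M = t
      rw [← hs, hceil, Nat.add_sub_cancel, Nat.add_mul_mod_self_right, Nat.mod_eq_of_lt htM]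
    calc M * ((P ×ˢ P).filter (fun pp => pp.1 < pp.2 ∧ ∀ i, pp ∉ Cn i)).card
        ≤ M * (A.filter (fun pp => c pp = t)).card := Nat.mul_le_mul_left _ (Finset.card_le_card hsub)
      _ ≤ A.card := ht
      _ ≤ (P ×ˢ P).card := Finset.card_filter_le _ _
      _ = P.card ^ 2 := by rw [Finset.card_product, sq]

open Classical in
theorem windows {q n M : ℕ} (hn : 1 ≤ n) (hM : 1 ≤ M)
    (h1 : 1 ≤ kap0 / 2 + ((n:ℝ) - 1) * (kap0 / 4)) (e : Fin q → ℝ)
    (he1 : ∀ p, e p ≤ 1) (P : Finset (Fin q)) (hP : ∀ p ∈ P, kap0 / 2 < e p) :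
    ∃ (om : ℕ → ℝ) (lev : Fin q → Fin n) (Cn : Fin n → Finset (Fin q × Fin q)),
      (∀ i, om (i + 1) = om i + kap0 / 4) ∧ kap0 / 2 ≤ om 0 ∧ om 0 ≤ kap0 ∧
      (∀ p, e p ≤ om (lev p)) ∧ (∀ p z, e z ≤ e p → lev z ≤ lev p) ∧
      (∀ i, ∀ pp ∈ Cn i, pp.1 ∈ P ∧ pp.2 ∈ P ∧ pp.1 < pp.2 ∧ lev pp.1 ≤ i ∧ lev pp.2 ≤ i ∧
        om i + kap0 / (4 * M) < e pp.1 + e pp.2 ∧
        ((i:ℕ) + 1 < n → e pp.1 + e pp.2 ≤ om (i + 1))) ∧
      (∀ i j, i ≠ j → Disjoint (Cn i) (Cn j)) ∧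
      M * ((P ×ˢ P).filter (fun pp => pp.1 < pp.2 ∧ ∀ i, pp ∉ Cn i)).card ≤ P.card ^ 2 := by
  exact D6_windows kap0 (by unfold kap0; positivity) hn hM h1 e he1 P hP

end Pool.Agent.CG
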