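import Pool.Agent.CG.S6

/-!
# CG D7: the determined positions

PAPER PROOF. S = {p : k' ≤ p}, Sa, Sb ⊆ S as in the statement (disjoint), pred p = {z,w} if
rho p = some (z,w), ∅ otherwise. For p ∈ Sa one of z, w is p0 ∉ S (p0 < k'), so |pred p ∩ S| ≤ 1; for p ∈ Sb,
|pred p ∩ S| ≤ 2. `order` gives r. Put ord p = r p + 1 for p ∈ S and 0 otherwise, and rule p = rho p if
p ∈ Sa ∪ Sb and all elements of pred p ∩ S precede p in r, else none. If rule p = some (z,w) then z is either
in S, so r z < r p, or not in S, so ord z = 0 < ord p; same for w. The number of p with rule p ≠ none is at least the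
cardinality of the filter in `order`.
-/

set_option autoImplicit false

namespace Pool.Agent.CG

open Finset

open Classical in
theorem rules {q n : ℕ} (k' : ℕ) (p0 : Fin q) (hp0 : (p0 : ℕ) < k')
    (rho : Fin q → Option (Fin q × Fin q)) (lev : Fin q → Fin n)
    (h : ∀ p z w, rho p = some (z, w) → k' ≤ (p : ℕ) ∧ z ≠ p ∧ w ≠ p ∧ z ≠ w ∧ lev z ≤ lev p ∧ lev w ≤ lev p) :
    ∃ (rule : Fin q → Option (Fin q × Fin q)) (ord : Fin q → ℕ),
      (∀ p z w, rule p = some (z, w) → rho p = some (z, w) ∧ ord z < ord p ∧ ord w < ord p) ∧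
      3 * (univ.filter (fun p => ∃ z w, rho p = some (z, w) ∧ (z = p0 ∨ w = p0))).card +
        2 * (univ.filter (fun p => ∃ z w, rho p = some (z, w) ∧ z ≠ p0 ∧ w ≠ p0)).card ≤
        6 * (univ.filter (fun p => rule p ≠ none)).card := by
  classical
  set S : Finset (Fin q) := univ.filter (fun p => k' ≤ (p : ℕ)) with hS
  set Sa := univ.filter (fun p => ∃ z w, rho p = some (z, w) ∧ (z = p0 ∨ w = p0)) with hSa
  set Sb := univ.filter (fun p => ∃ z w, rho p = some (z, w) ∧ z ≠ p0 ∧ w ≠ p0) with hSb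
  set pred : Fin q → Finset (Fin q) := fun p =>
    match rho p with
    | some (z, w) => {z, w}
    | none => ∅ with hpred
  have hp : ∀ p z w, rho p = some (z, w) → pred p = {z, w} := by
    intro p z w hr
    simp only [hpred, hr]
  have hp0S : p0 ∉ S := by
    rw [hS, mem_filter]
    rintro ⟨-, h1⟩
    omega
  have haS : Sa ⊆ S := by
    intro p hp
    obtain ⟨-, z, w, hr, -⟩ := mem_filter.mp hp
    exact mem_filter.mpr ⟨mem_univ _, (h p z w hr).1⟩
  have hbS : Sb ⊆ S := by
    intro p hp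
    obtain ⟨-, z, w, hr, -⟩ := mem_filter.mp hp
    exact mem_filter.mpr ⟨mem_univ _, (h p z w hr).1⟩
  have hab : Disjoint Sa Sb := by
    rw [disjoint_left]
    intro p hpa hpb
    obtain ⟨-, z, w, hr, h1⟩ := mem_filter.mp hpa
    obtain ⟨-, z', w', hr', h2, h3⟩ := mem_filter.mp hpb
    rw [hr] at hr'
    simp only [Option.some.injEq, Prod.mk.injEq] at hr'
    obtain ⟨rfl, rfl⟩ := hr'
    rcases h1 with h1 | h1
    · exact h2 h1
    · exact h3 h1
  have ha1 : ∀ v ∈ Sa, (pred v ∩ S).card ≤ 1 := by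
    intro p hpa
    obtain ⟨-, z, w, hr, h1⟩ := mem_filter.mp hpa
    rw [hp p z w hr]
    rcases h1 with h1 | h1
    · have : ({z, w} : Finset (Fin q)) ∩ S ⊆ {w} := by
        intro y hy
        rw [mem_inter, mem_insert, mem_singleton] at hy
        rcases hy.1 with h2 | h2
        · exfalso
          rw [h2, h1] at hy
          exact hp0S hy.2
        · exact mem_singleton.mpr h2
      exact (card_le_card this).trans (by simp)
    · have : ({z, w} : Finset (Fin q)) ∩ S ⊆ {z} := by
        intro y hy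
        rw [mem_inter, mem_insert, mem_singleton] at hy
        rcases hy.1 with h2 | h2
        · exact mem_singleton.mpr h2
        · exfalso
          rw [h2, h1] at hy
          exact hp0S hy.2
      exact (card_le_card this).trans (by simp)
  have hb2 : ∀ v ∈ Sb, (pred v ∩ S).card ≤ 2 := by
    intro p hpb
    obtain ⟨-, z, w, hr, -, -⟩ := mem_filter.mp hpb
    rw [hp p z w hr]
    exact (card_le_card inter_subset_left).trans card_le_two
  have hex : ∀ v ∈ Sa ∪ Sb, ∃ z w, rho v = some (z, w) := by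
    intro v hv
    rw [mem_union] at hv
    rcases hv with hv | hv
    · obtain ⟨-, z, w, hr, -⟩ := mem_filter.mp hv
      exact ⟨z, w, hr⟩
    · obtain ⟨-, z, w, hr, -⟩ := mem_filter.mp hv
      exact ⟨z, w, hr⟩
  have hself : ∀ v ∈ Sa ∪ Sb, v ∉ pred v := by
    intro v hv
    obtain ⟨z, w, hr⟩ := hex v hv
    rw [hp v z w hr, mem_insert, mem_singleton]
    obtain ⟨-, h1, h2, -⟩ := h v z w hr
    rintro (h3 | h3)
    · exact h1 h3.symm
    · exact h2 h3.symm
  have hlev : ∀ v ∈ Sa ∪ Sb, ∀ u ∈ pred v ∩ S, (lev u : ℕ) ≤ (lev v : ℕ) := by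
    intro v hv u hu
    obtain ⟨z, w, hr⟩ := hex v hv
    rw [hp v z w hr, mem_inter, mem_insert, mem_singleton] at hu
    obtain ⟨-, -, -, -, h1, h2⟩ := h v z w hr
    rcases hu.1 with h3 | h3
    · rw [h3]; exact h1
    · rw [h3]; exact h2
  obtain ⟨r, -, -, hcount⟩ := order S Sa Sb (fun p => (lev p : ℕ)) pred haS hbS hab ha1 hb2 hself hlev
  set rule : Fin q → Option (Fin q × Fin q) := fun p =>
    if p ∈ Sa ∪ Sb ∧ ∀ u ∈ pred p ∩ S, r u < r p then rho p else none with hrule
  set ord : Fin q → ℕ := fun p => if p ∈ S then r p + 1 else 0 with hord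
  refine ⟨rule, ord, ?_, ?_⟩
  · intro p z w hr
    simp only [hrule] at hr
    split_ifs at hr with hc
    refine ⟨hr, ?_⟩
    have hpS : p ∈ S := by
      rcases mem_union.mp hc.1 with h1 | h1
      · exact haS h1
      · exact hbS h1
    have key : ∀ y, y ∈ pred p → ord y < ord p := by
      intro y hy
      simp only [hord]
      rw [if_pos hpS]
      by_cases hyS : y ∈ S
      · rw [if_pos hyS]
        have := hc.2 y (mem_inter.mpr ⟨hy, hyS⟩)
        omega
      · rw [if_neg hyS]
        omega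
    have h1 := hp p z w hr
    refine ⟨key z ?_, key w ?_⟩
    · rw [h1]; simp
    · rw [h1]; simp
  · refine hcount.trans ?_
    apply Nat.mul_le_mul_left
    apply card_le_card
    intro p hp
    obtain ⟨hp1, hp2⟩ := (@Finset.mem_filter _ _ (_) _ p).mp hp
    refine mem_filter.mpr ⟨mem_univ _, ?_⟩
    simp only [hrule]
    rw [if_pos ⟨hp1, hp2⟩]
    obtain ⟨z, w, hr⟩ := hex p hp1
    rw [hr]
    simp

end Pool.Agent.CG
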