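import Pool.Agent.CG.D0

/-!
# CG D8a: labelling one member; its pattern

PAPER PROOF of `labels`. Put k = |E'|. Enumerate E' increasingly (`Finset.orderEmbOfFin`) on the
positions < k and A \ E' (which has q - k elements) increasingly on the positions ≥ k; for sets A which are not
of this form take anything (needs `Nonempty (Fin q → Fin N)`, given by hN).
PAPER PROOF of `pattern`. For every position p there is at most one pair (z,w) with
σ.pi s(x, a p) = s(a z, a w), a z < a w (a injective). Let rho p be this pair if it exists, k ≤ p, z ≠ p, w ≠ p; none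
otherwise. If v ∈ Ra σ A x \ E', v = a p: k ≤ p, σ.pi s(x,v) = s(x,y) with y ∈ A, y ≠ x, y ≠ v; x = a p0,
y = a y': so rho p = some (p0, y') or some (y', p0) (according to x < y or y < x); here p0 ≠ p as v ∉ E'. If v ∈ Rb σ A x \ E',
then rho p = some (z', w') with a z', a w' ≠ x, so z', w' ≠ p0. Ra and Rb are disjoint and do not contain x,
so |Ra ∩ E'| + |Rb ∩ E'| ≤ k - 1, whence 3|Ra| + 2|Rb| ≤ 3|Ra \ E'| + 2|Rb \ E'| + 3(k-1)
(k ≥ 1; written with + 3 on the left side).
-/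

set_option autoImplicit false

namespace Pool.Agent.CG

open Finset

private theorem D8a_card {N q : ℕ} {E' A : Finset (Fin N)} (h : A.card = q ∧ E' ⊆ A) :
    (A \ E').card = q - E'.card := by
  rw [card_sdiff_of_subset h.2, h.1]

private noncomputable def D8a_lab {N q : ℕ} (hN : 1 ≤ N) (E' A : Finset (Fin N)) : Fin q → Fin N :=
  if h : A.card = q ∧ E' ⊆ A then
    fun p => if hp : (p : ℕ) < E'.card then E'.orderEmbOfFin rfl ⟨p, hp⟩
      else (A \ E').orderEmbOfFin (D8a_card h) ⟨(p : ℕ) - E'.card, by have := p.2; omega⟩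
  else fun _ => ⟨0, hN⟩

private theorem D8a_lt {N q : ℕ} (hN : 1 ≤ N) {E' A : Finset (Fin N)} (h : A.card = q ∧ E' ⊆ A)
    (p : Fin q) (hp : (p : ℕ) < E'.card) :
    D8a_lab hN E' A p = E'.orderEmbOfFin rfl ⟨p, hp⟩ := by
  unfold D8a_lab
  rw [dif_pos h, dif_pos hp]

private theorem D8a_ge {N q : ℕ} (hN : 1 ≤ N) {E' A : Finset (Fin N)} (h : A.card = q ∧ E' ⊆ A)
    (p : Fin q) (hp : ¬ (p : ℕ) < E'.card) :
    D8a_lab hN E' A p = (A \ E').orderEmbOfFin (D8a_card h)
      ⟨(p : ℕ) - E'.card, by have := p.2; omega⟩ := by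
  unfold D8a_lab
  rw [dif_pos h, dif_neg hp]

theorem labels {N q : ℕ} (hN : 1 ≤ N) (E' : Finset (Fin N)) :
    ∃ lab : Finset (Fin N) → (Fin q → Fin N),
      (∀ A, A.card = q → E' ⊆ A → Function.Injective (lab A) ∧ univ.image (lab A) = A ∧
        ∀ p, lab A p ∈ E' ↔ (p : ℕ) < E'.card) ∧
      (∀ A B, A.card = q → E' ⊆ A → B.card = q → E' ⊆ B →
        ∀ p : Fin q, (p : ℕ) < E'.card → lab A p = lab B p) := by
  classical
  refine ⟨D8a_lab hN E', ?_, ?_⟩
  · intro A h1 h2
    have h : A.card = q ∧ E' ⊆ A := ⟨h1, h2⟩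
    have hmem : ∀ p : Fin q, ¬ (p : ℕ) < E'.card → D8a_lab hN E' A p ∈ A \ E' := by
      intro p hp
      rw [D8a_ge hN h p hp]
      exact orderEmbOfFin_mem _ _ _
    have hmem' : ∀ p : Fin q, (p : ℕ) < E'.card → D8a_lab hN E' A p ∈ E' := by
      intro p hp
      rw [D8a_lt hN h p hp]
      exact orderEmbOfFin_mem _ _ _
    have hiff : ∀ p : Fin q, D8a_lab hN E' A p ∈ E' ↔ (p : ℕ) < E'.card := by
      intro p
      constructor
      · intro hp
        by_contra hc
        exact (mem_sdiff.1 (hmem p hc)).2 hp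
      · exact hmem' p
    have hinj : Function.Injective (D8a_lab (q := q) hN E' A) := by
      intro p p' hpp
      by_cases c : (p : ℕ) < E'.card
      · have c' : (p' : ℕ) < E'.card := by
          rw [← hiff p', ← hpp]
          exact hmem' p c
        rw [D8a_lt hN h p c, D8a_lt hN h p' c'] at hpp
        have := (E'.orderEmbOfFin rfl).injective hpp
        rw [Fin.mk.injEq] at this
        exact Fin.ext this
      · have c' : ¬ (p' : ℕ) < E'.card := by
          rw [← hiff p', ← hpp]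
          exact (mem_sdiff.1 (hmem p c)).2
        rw [D8a_ge hN h p c, D8a_ge hN h p' c'] at hpp
        have := ((A \ E').orderEmbOfFin (D8a_card h)).injective hpp
        rw [Fin.mk.injEq] at this
        apply Fin.ext
        omega
    refine ⟨hinj, ?_, hiff⟩
    apply eq_of_subset_of_card_le
    · intro v hv
      rw [mem_image] at hv
      obtain ⟨p, _, rfl⟩ := hv
      by_cases c : (p : ℕ) < E'.card
      · exact h2 (hmem' p c)
      · exact (mem_sdiff.1 (hmem p c)).1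
    · rw [card_image_of_injective _ hinj, card_univ, Fintype.card_fin, h1]
  · intro A B h1 h2 h3 h4 p hp
    rw [D8a_lt hN ⟨h1, h2⟩ p hp, D8a_lt hN ⟨h3, h4⟩ p hp]

private theorem D8a_mem_Ra {V : Type} [DecidableEq V] (σ : St (Sym2 V)) (A : Finset V) (x v : V) :
    v ∈ Ra σ A x ↔ v ∈ A ∧ v ≠ x ∧ ∃ y ∈ A, y ≠ x ∧ y ≠ v ∧ σ.pi s(x, v) = s(x, y) := by
  unfold Ra
  rw [mem_filter]

private theorem D8a_mem_Rb {V : Type} [DecidableEq V] (σ : St (Sym2 V)) (A : Finset V) (x v : V) :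
    v ∈ Rb σ A x ↔ v ∈ A ∧ v ≠ x ∧ ∃ z ∈ A, ∃ w ∈ A, z ≠ w ∧ z ≠ x ∧ w ≠ x ∧ z ≠ v ∧ w ≠ v ∧
      σ.pi s(x, v) = s(z, w) := by
  unfold Rb
  rw [mem_filter]

open Classical in
theorem pattern {N q : ℕ} (σ : St (Sym2 (Fin N))) (E' A : Finset (Fin N)) (x : Fin N)
    (hx : x ∈ E') (a : Fin q → Fin N) (ha : Function.Injective a) (hA : univ.image a = A)
    (hk : ∀ p, a p ∈ E' ↔ (p : ℕ) < E'.card) (p0 : Fin q) (hp0 : a p0 = x) :
    ∃ rho : Fin q → Option (Fin q × Fin q),
      (∀ p z w, rho p = some (z, w) → E'.card ≤ (p : ℕ) ∧ z ≠ p ∧ w ≠ p ∧ z ≠ w ∧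
        σ.pi s(x, a p) = s(a z, a w) ∧ a z < a w) ∧
      3 * (Ra σ A x).card + 2 * (Rb σ A x).card + 3 ≤
        3 * (univ.filter (fun p => ∃ z w, rho p = some (z, w) ∧ (z = p0 ∨ w = p0))).card +
        2 * (univ.filter (fun p => ∃ z w, rho p = some (z, w) ∧ z ≠ p0 ∧ w ≠ p0)).card +
        3 * E'.card := by
  let C : Fin q → Fin q × Fin q → Prop := fun p zw => E'.card ≤ (p : ℕ) ∧ zw.1 ≠ p ∧ zw.2 ≠ p ∧
    σ.pi s(x, a p) = s(a zw.1, a zw.2) ∧ a zw.1 < a zw.2
  let rho : Fin q → Option (Fin q × Fin q) := fun p =>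
    if h : ∃ zw, C p zw then some h.choose else none
  have hrho1 : ∀ p z w, rho p = some (z, w) → C p (z, w) := by
    intro p z w h
    by_cases hc : ∃ zw, C p zw
    · have h1 : rho p = some hc.choose := dif_pos hc
      rw [h1, Option.some.injEq] at h
      rw [← h]
      exact hc.choose_spec
    · have h1 : rho p = none := dif_neg hc
      rw [h1] at h
      exact absurd h (by simp)
  have hrho2 : ∀ p, (∃ zw, C p zw) → ∃ z w, rho p = some (z, w) := by
    intro p hc
    have h1 : rho p = some hc.choose := dif_pos hc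
    exact ⟨hc.choose.1, hc.choose.2, h1⟩
  have hsym : ∀ p z w : Fin q, E'.card ≤ (p : ℕ) → z ≠ p → w ≠ p → a z ≠ a w →
      σ.pi s(x, a p) = s(a z, a w) → ∃ zw, C p zw := by
    intro p z w h1 h2 h3 h4 h5
    rcases lt_or_gt_of_ne h4 with h6 | h6
    · exact ⟨(z, w), h1, h2, h3, h5, h6⟩
    · exact ⟨(w, z), h1, h3, h2, by rw [h5]; exact Sym2.eq_swap, h6⟩
  refine ⟨rho, ?_, ?_⟩
  · intro p z w h
    obtain ⟨h1, h2, h3, h4, h5⟩ := hrho1 p z w h
    exact ⟨h1, h2, h3, fun hc => by simp only [hc, lt_self_iff_false] at h5, h4, h5⟩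
  · set Pa := univ.filter (fun p => ∃ z w, rho p = some (z, w) ∧ (z = p0 ∨ w = p0)) with hPa
    set Pb := univ.filter (fun p => ∃ z w, rho p = some (z, w) ∧ z ≠ p0 ∧ w ≠ p0) with hPb
    have hAm : ∀ v ∈ A, ∃ p, a p = v := by
      intro v hv
      rw [← hA, mem_image] at hv
      obtain ⟨p, _, hp⟩ := hv
      exact ⟨p, hp⟩
    have hRa : Ra σ A x \ E' ⊆ Pa.image a := by
      intro v hv
      rw [mem_sdiff] at hv
      obtain ⟨hv, hvE⟩ := hv
      rw [D8a_mem_Ra] at hv
      obtain ⟨hvA, hvx, y, hy, hyx, hyv, hpi⟩ := hv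
      obtain ⟨p, rfl⟩ := hAm v hvA
      obtain ⟨y', rfl⟩ := hAm y hy
      have hkp : E'.card ≤ (p : ℕ) := by
        by_contra hc
        exact hvE ((hk p).2 (by omega))
      have hpi' : σ.pi s(x, a p) = s(a p0, a y') := by rw [hp0]; exact hpi
      have h1 : p0 ≠ p := by
        rintro rfl
        exact hvx hp0
      have h2 : y' ≠ p := by
        rintro rfl
        exact hyv rfl
      obtain ⟨z, w, hzw⟩ := hrho2 p (hsym p p0 y' hkp h1 h2 (by rw [hp0]; exact fun h => hyx h.symm)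
        hpi')
      refine mem_image.2 ⟨p, mem_filter.2 ⟨mem_univ _, z, w, hzw, ?_⟩, rfl⟩
      obtain ⟨_, _, _, h5, _⟩ := hrho1 p z w hzw
      rw [hpi', Sym2.eq_iff] at h5
      rcases h5 with h5 | h5
      · exact Or.inl (ha h5.1).symm
      · exact Or.inr (ha h5.1).symm
    have hRb : Rb σ A x \ E' ⊆ Pb.image a := by
      intro v hv
      rw [mem_sdiff] at hv
      obtain ⟨hv, hvE⟩ := hv
      rw [D8a_mem_Rb] at hv
      obtain ⟨hvA, hvx, z1, hz1, w1, hw1, hzw1, hz1x, hw1x, hz1v, hw1v, hpi⟩ := hv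
      obtain ⟨p, rfl⟩ := hAm v hvA
      obtain ⟨z', rfl⟩ := hAm z1 hz1
      obtain ⟨w', rfl⟩ := hAm w1 hw1
      have hkp : E'.card ≤ (p : ℕ) := by
        by_contra hc
        exact hvE ((hk p).2 (by omega))
      obtain ⟨z, w, hzw⟩ := hrho2 p (hsym p z' w' hkp (fun h => hz1v (by rw [h]))
        (fun h => hw1v (by rw [h])) hzw1 hpi)
      refine mem_image.2 ⟨p, mem_filter.2 ⟨mem_univ _, z, w, hzw, ?_⟩, rfl⟩
      obtain ⟨_, _, _, h5, _⟩ := hrho1 p z w hzw
      rw [hpi, Sym2.eq_iff] at h5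
      simp only at h5
      rcases h5 with h5 | h5
      · refine ⟨fun h => hz1x ?_, fun h => hw1x ?_⟩
        · rw [h5.1, h, hp0]
        · rw [h5.2, h, hp0]
      · refine ⟨fun h => hw1x ?_, fun h => hz1x ?_⟩
        · rw [h5.2, h, hp0]
        · rw [h5.1, h, hp0]
    have hdisj : Disjoint (Ra σ A x) (Rb σ A x) := by
      rw [disjoint_left]
      intro v hv hv'
      rw [D8a_mem_Ra] at hv
      rw [D8a_mem_Rb] at hv'
      obtain ⟨_, _, y, _, _, _, h1⟩ := hv
      obtain ⟨_, _, z, _, w, _, _, h3, h4, _, _, h2⟩ := hv'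
      rw [h1, Sym2.eq_iff] at h2
      rcases h2 with h2 | h2
      · exact h3 h2.1.symm
      · exact h4 h2.1.symm
    have hinter : (Ra σ A x ∩ E').card + (Rb σ A x ∩ E').card + 1 ≤ E'.card := by
      rw [← card_union_of_disjoint (disjoint_of_subset_left inter_subset_left
        (disjoint_of_subset_right inter_subset_left hdisj))]
      have h1 : (Ra σ A x ∩ E') ∪ (Rb σ A x ∩ E') ⊆ E'.erase x := by
        intro v hv
        rw [mem_union, mem_inter, mem_inter] at hv
        rw [mem_erase]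
        rcases hv with ⟨h2, h3⟩ | ⟨h2, h3⟩
        · exact ⟨((D8a_mem_Ra σ A x v).1 h2).2.1, h3⟩
        · exact ⟨((D8a_mem_Rb σ A x v).1 h2).2.1, h3⟩
      have h2 := card_le_card h1
      rw [card_erase_of_mem hx] at h2
      have h3 : 1 ≤ E'.card := card_pos.2 ⟨x, hx⟩
      omega
    have e1 := card_sdiff_add_card_inter (Ra σ A x) E'
    have e2 := card_sdiff_add_card_inter (Rb σ A x) E'
    have e3 : (Ra σ A x \ E').card ≤ Pa.card := (card_le_card hRa).trans card_image_le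
    have e4 : (Rb σ A x \ E').card ≤ Pb.card := (card_le_card hRb).trans card_image_le
    omega

end Pool.Agent.CG
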