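import Pool.Agent.CG.D8a
import Pool.Agent.CG.S5

/-!
# CG D8b: the popular root and pattern

PAPER PROOF. For every A ∈ G choose a root x(A) ∈ A by `root` (S5; |A| = q ≥ 1), so that with
dd σ (ed A) ≥ 1.96 J q: 0.98 J ≤ |Ra|/2 + |Rb|/4, in particular 5.88 J ≤ 3|Ra| + 2|Rb| (|Rb|/4 ≤ |Rb|/3).
E'(A) = insert x(A) E ⊆ A. Let a(A) = lab A with the labelling `labels` of E' = insert x(A) E (it depends only on
x(A)), p0(A) the position < |E'| with a(A) p0 = x(A) (x ∈ E' ⊆ A; by the second property of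
`labels` it depends only on x(A)), rho(A) from `pattern`, and lam(A) p = ⌊lw σ (star E' (a p))⌋₊ ≤ |E'| ≤ q for p ≥ |E'| (0 for the
other p). Here lw ≤ cl ≤ |star| = |E'| (`lw_le_cl`, `cl_le_card`, `card_star`), lw ≥ 0.
Pigeonhole over (x(A), rho(A), lam(A)) ∈ Fin N × (Fin q → Option (Fin q × Fin q)) × (Fin q → Fin (q+1)):
some class has at least |G| / (N (q²+1)^q (q+1)^q) members; T = the set of the tuples a(A), A in the class
(A ↦ a(A) is injective since A = image). All properties are then clear.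
-/

set_option autoImplicit false

namespace Pool.Agent.CG

open Finset

open Classical in
/-- the data of the labelled subfamily -/
structure TuOK {N q : ℕ} (σ : St (Sym2 (Fin N))) (J : ℕ) (E : Finset (Fin N))
    (G : Finset (Finset (Fin N))) (x : Fin N) (k' : ℕ) (p0 : Fin q) (T : Finset (Fin q → Fin N))
    (rho : Fin q → Option (Fin q × Fin q)) (lam : Fin q → ℕ) : Prop where
  hk : (insert x E).card = k'
  hp0 : (p0 : ℕ) < k'
  inj : ∀ a ∈ T, Function.Injective a
  img : ∀ a ∈ T, univ.image a ∈ G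
  sub : ∀ a ∈ T, insert x E ⊆ univ.image a
  io : Set.InjOn (fun a : Fin q → Fin N => univ.image a) (↑T : Set (Fin q → Fin N))
  ker : ∀ a ∈ T, ∀ p, a p ∈ insert x E ↔ (p : ℕ) < k'
  root : ∀ a ∈ T, a p0 = x
  fix : ∀ a ∈ T, ∀ a' ∈ T, ∀ p : Fin q, (p : ℕ) < k' → a p = a' p
  rho_spec : ∀ p z w, rho p = some (z, w) → k' ≤ (p : ℕ) ∧ z ≠ p ∧ w ≠ p ∧ z ≠ w ∧
    ∀ a ∈ T, σ.pi s(x, a p) = s(a z, a w) ∧ a z < a w
  lam_spec : ∀ a ∈ T, ∀ p : Fin q, k' ≤ (p : ℕ) → (lam p : ℝ) ≤ lw σ (star (insert x E) (a p)) ∧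
    lw σ (star (insert x E) (a p)) < lam p + 1
  lam_le : ∀ p, lam p ≤ k'
  count : (5.88 : ℝ) * J + 3 ≤
    3 * ((univ.filter (fun p => ∃ z w, rho p = some (z, w) ∧ (z = p0 ∨ w = p0))).card : ℝ) +
    2 * ((univ.filter (fun p => ∃ z w, rho p = some (z, w) ∧ z ≠ p0 ∧ w ≠ p0)).card : ℝ) +
    3 * (k' : ℝ)
  big : G.card ≤ N * ((q ^ 2 + 1) ^ q * (q + 1) ^ q) * T.card

private theorem D8b_root {N q J : ℕ} (hq : 1 ≤ q) (σ : St (Sym2 (Fin N)))
    (A : Finset (Fin N)) (hA : A ∈ GJ σ q J) :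
    ∃ x ∈ A, (5.88 : ℝ) * J ≤ 3 * ((Ra σ A x).card : ℝ) + 2 * ((Rb σ A x).card : ℝ) := by
  unfold GJ at hA
  rw [mem_filter, mem_powersetCard] at hA
  obtain ⟨⟨-, hc⟩, -, -, hd, -⟩ := hA
  have hne : A.Nonempty := by
    rw [← card_pos]; omega
  obtain ⟨x, hx, h⟩ := root σ A hne
  refine ⟨x, hx, ?_⟩
  rw [hc] at h
  have hq' : (0 : ℝ) < q := by exact_mod_cast hq
  have h1 : (0.98 : ℝ) * J ≤ (dd σ (ed A) : ℝ) / (2 * q) := by
    rw [le_div_iff₀ (by positivity)]
    linarith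
  have h2 : (0 : ℝ) ≤ ((Rb σ A x).card : ℝ) := by positivity
  linarith

private theorem D8b_pigeon {ι κ : Type} [DecidableEq κ] [Fintype κ] (G : Finset ι)
    (hne : G.Nonempty) (f : ι → κ) :
    ∃ k : κ, G.card ≤ Fintype.card κ * (G.filter (fun i => f i = k)).card := by
  classical
  have hκ : (univ : Finset κ).Nonempty := by
    obtain ⟨i, -⟩ := hne
    exact ⟨f i, mem_univ _⟩
  have h : ∑ _k : κ, G.card ≤ ∑ k : κ, Fintype.card κ * (G.filter (fun i => f i = k)).card := by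
    rw [sum_const, ← mul_sum, ← card_eq_sum_card_fiberwise (f := f) (t := univ)
      (fun i _ => by simp), card_univ, smul_eq_mul]
  obtain ⟨k, -, hk⟩ := exists_le_of_sum_le hκ h
  exact ⟨k, hk⟩

theorem tuples {N q J : ℕ} (hN : 1 ≤ N) (hq : 1 ≤ q) (σ : St (Sym2 (Fin N))) (E : Finset (Fin N))
    (G : Finset (Finset (Fin N))) (hG : G ⊆ GJ σ q J) (hE : ∀ A ∈ G, E ⊆ A) (hne : G.Nonempty) :
    ∃ (x : Fin N) (k' : ℕ) (p0 : Fin q) (T : Finset (Fin q → Fin N))
      (rho : Fin q → Option (Fin q × Fin q)) (lam : Fin q → ℕ),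
      TuOK σ J E G x k' p0 T rho lam := by
  classical
  -- basic facts on members of G
  have hcard : ∀ A ∈ G, A.card = q := by
    intro A hA
    have := hG hA
    unfold GJ at this
    rw [mem_filter, mem_powersetCard] at this
    exact this.1.2
  -- root
  have hroot : ∀ A : Finset (Fin N), ∃ x : Fin N, A ∈ G → x ∈ A ∧
      (5.88 : ℝ) * J ≤ 3 * ((Ra σ A x).card : ℝ) + 2 * ((Rb σ A x).card : ℝ) := by
    intro A
    by_cases hA : A ∈ G
    · obtain ⟨x, hx, h⟩ := D8b_root hq σ A (hG hA)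
      exact ⟨x, fun _ => ⟨hx, h⟩⟩
    · exact ⟨⟨0, hN⟩, fun h => absurd h hA⟩
  choose xr hxr using hroot
  choose lab hlab1 hlab2 using fun x : Fin N => labels (q := q) hN (insert x E)
  -- pattern
  have hpat : ∀ A : Finset (Fin N), ∃ rho : Fin q → Option (Fin q × Fin q), A ∈ G →
      ∀ p0 : Fin q, lab (xr A) A p0 = xr A →
      (∀ p z w, rho p = some (z, w) → (insert (xr A) E).card ≤ (p : ℕ) ∧ z ≠ p ∧ w ≠ p ∧ z ≠ w ∧
        σ.pi s(xr A, lab (xr A) A p) = s(lab (xr A) A z, lab (xr A) A w) ∧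
          lab (xr A) A z < lab (xr A) A w) ∧
      3 * (Ra σ A (xr A)).card + 2 * (Rb σ A (xr A)).card + 3 ≤
        3 * (univ.filter (fun p => ∃ z w, rho p = some (z, w) ∧ (z = p0 ∨ w = p0))).card +
        2 * (univ.filter (fun p => ∃ z w, rho p = some (z, w) ∧ z ≠ p0 ∧ w ≠ p0)).card +
        3 * (insert (xr A) E).card := by
    intro A
    by_cases hA : A ∈ G
    · have hxA := (hxr A hA).1
      have hsub : insert (xr A) E ⊆ A := insert_subset hxA (hE A hA)
      obtain ⟨h1, h2, h3⟩ := hlab1 (xr A) A (hcard A hA) hsub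
      have hx' : xr A ∈ univ.image (lab (xr A) A) := by rw [h2]; exact hxA
      obtain ⟨p0, -, hp0⟩ := mem_image.mp hx'
      obtain ⟨rho, hr1, hr2⟩ := pattern σ (insert (xr A) E) A (xr A) (mem_insert_self _ _)
        (lab (xr A) A) h1 h2 h3 p0 hp0
      refine ⟨rho, fun _ p1 hp1 => ?_⟩
      have : p1 = p0 := h1 (hp1.trans hp0.symm)
      subst this
      exact ⟨hr1, hr2⟩
    · exact ⟨fun _ => none, fun h => absurd h hA⟩
  choose rh hrh using hpat
  -- the weights
  set lw' : Finset (Fin N) → Fin q → ℕ := fun A p =>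
    if (insert (xr A) E).card ≤ (p : ℕ) then
      ⌊lw σ (star (insert (xr A) E) (lab (xr A) A p))⌋₊ else 0 with hlw'
  have hlwle : ∀ A p, lw' A p ≤ (insert (xr A) E).card := by
    intro A p
    simp only [hlw']
    split_ifs
    · apply Nat.floor_le_of_le
      refine (lw_le_cl σ _).trans ?_
      have := cl_le_card σ (star (insert (xr A) E) (lab (xr A) A p))
      rw [card_star] at this
      exact_mod_cast this
    · exact Nat.zero_le _
  have hkq : ∀ A ∈ G, (insert (xr A) E).card ≤ q := by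
    intro A hA
    rw [← hcard A hA]
    exact card_le_card (insert_subset (hxr A hA).1 (hE A hA))
  set key : Finset (Fin N) → Fin N × (Fin q → Option (Fin q × Fin q)) × (Fin q → Fin (q + 1)) :=
    fun A => (xr A, rh A, fun p => ⟨min (lw' A p) q, by omega⟩) with hkey
  obtain ⟨⟨x, rho, lamf⟩, hbig⟩ := D8b_pigeon G hne key
  set C := G.filter (fun A => key A = (x, rho, lamf)) with hC
  have hCG : ∀ A ∈ C, A ∈ G := fun A hA => (mem_filter.mp hA).1
  have hCx : ∀ A ∈ C, xr A = x := fun A hA => by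
    have := (mem_filter.mp hA).2
    simp only [hkey, Prod.mk.injEq] at this
    exact this.1
  have hCr : ∀ A ∈ C, rh A = rho := fun A hA => by
    have := (mem_filter.mp hA).2
    simp only [hkey, Prod.mk.injEq] at this
    exact this.2.1
  have hCl : ∀ A ∈ C, ∀ p, lw' A p = (lamf p : ℕ) := fun A hA p => by
    have := (mem_filter.mp hA).2
    simp only [hkey, Prod.mk.injEq] at this
    have h2 := congrFun this.2.2 p
    rw [← h2]
    have h3 := hlwle A p
    have h4 := hkq A (hCG A hA)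
    simp only
    omega
  have hCne : C.Nonempty := by
    rw [← card_pos]
    by_contra h0
    have : C.card = 0 := by omega
    rw [this] at hbig
    have := hne.card_pos
    omega
  have hsub : ∀ A ∈ C, insert x E ⊆ A := fun A hA => by
    have h1 := (hxr A (hCG A hA)).1
    rw [hCx A hA] at h1
    exact insert_subset h1 (hE A (hCG A hA))
  have hl1 : ∀ A ∈ C, Function.Injective (lab x A) ∧ univ.image (lab x A) = A ∧
      ∀ p, lab x A p ∈ insert x E ↔ (p : ℕ) < (insert x E).card := fun A hA =>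
    hlab1 x A (hcard A (hCG A hA)) (hsub A hA)
  obtain ⟨A0, hA0⟩ := hCne
  have hx0 : x ∈ univ.image (lab x A0) := by
    rw [(hl1 A0 hA0).2.1]
    exact hsub A0 hA0 (mem_insert_self _ _)
  obtain ⟨p0, -, hp0⟩ := mem_image.mp hx0
  have hp0k : (p0 : ℕ) < (insert x E).card := by
    rw [← (hl1 A0 hA0).2.2 p0, hp0]
    exact mem_insert_self _ _
  have hfix : ∀ A ∈ C, ∀ B ∈ C, ∀ p : Fin q, (p : ℕ) < (insert x E).card → lab x A p = lab x B p :=
    fun A hA B hB p hp => hlab2 x A B (hcard A (hCG A hA)) (hsub A hA) (hcard B (hCG B hB))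
      (hsub B hB) p hp
  have hp0' : ∀ A ∈ C, lab x A p0 = x := fun A hA => by
    rw [hfix A hA A0 hA0 p0 hp0k, hp0]
  have hpat : ∀ A ∈ C, (∀ p z w, rho p = some (z, w) → (insert x E).card ≤ (p : ℕ) ∧ z ≠ p ∧
        w ≠ p ∧ z ≠ w ∧ σ.pi s(x, lab x A p) = s(lab x A z, lab x A w) ∧ lab x A z < lab x A w) ∧
      3 * (Ra σ A x).card + 2 * (Rb σ A x).card + 3 ≤
        3 * (univ.filter (fun p => ∃ z w, rho p = some (z, w) ∧ (z = p0 ∨ w = p0))).card +
        2 * (univ.filter (fun p => ∃ z w, rho p = some (z, w) ∧ z ≠ p0 ∧ w ≠ p0)).card +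
        3 * (insert x E).card := by
    intro A hA
    have h := hrh A (hCG A hA) p0
    rw [hCx A hA, hCr A hA] at h
    exact h (hp0' A hA)
  refine ⟨x, (insert x E).card, p0, C.image (lab x), rho, fun p => (lamf p : ℕ), ?_⟩
  refine
    { hk := rfl
      hp0 := hp0k
      inj := ?_
      img := ?_
      sub := ?_
      io := ?_
      ker := ?_
      root := ?_
      fix := ?_
      rho_spec := ?_
      lam_spec := ?_
      lam_le := ?_
      count := ?_
      big := ?_ }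
  · intro a ha
    obtain ⟨A, hA, rfl⟩ := mem_image.mp ha
    exact (hl1 A hA).1
  · intro a ha
    obtain ⟨A, hA, rfl⟩ := mem_image.mp ha
    rw [(hl1 A hA).2.1]
    exact hCG A hA
  · intro a ha
    obtain ⟨A, hA, rfl⟩ := mem_image.mp ha
    rw [(hl1 A hA).2.1]
    exact hsub A hA
  · intro a ha b hb hab
    obtain ⟨A, hA, rfl⟩ := mem_image.mp (mem_coe.mp ha)
    obtain ⟨B, hB, rfl⟩ := mem_image.mp (mem_coe.mp hb)
    simp only at hab
    rw [(hl1 A hA).2.1, (hl1 B hB).2.1] at hab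
    rw [hab]
  · intro a ha
    obtain ⟨A, hA, rfl⟩ := mem_image.mp ha
    exact (hl1 A hA).2.2
  · intro a ha
    obtain ⟨A, hA, rfl⟩ := mem_image.mp ha
    exact hp0' A hA
  · intro a ha b hb p hp
    obtain ⟨A, hA, rfl⟩ := mem_image.mp ha
    obtain ⟨B, hB, rfl⟩ := mem_image.mp hb
    exact hfix A hA B hB p hp
  · intro p z w hpzw
    obtain ⟨h1, h2, h3, h4, -, -⟩ := (hpat A0 hA0).1 p z w hpzw
    refine ⟨h1, h2, h3, h4, ?_⟩
    intro a ha
    obtain ⟨A, hA, rfl⟩ := mem_image.mp ha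
    obtain ⟨-, -, -, -, h5, h6⟩ := (hpat A hA).1 p z w hpzw
    exact ⟨h5, h6⟩
  · intro a ha p hp
    obtain ⟨A, hA, rfl⟩ := mem_image.mp ha
    have h1 := hCl A hA p
    simp only [hlw', hCx A hA] at h1
    rw [if_pos hp] at h1
    rw [← h1]
    exact ⟨Nat.floor_le (lw_nonneg σ _), Nat.lt_floor_add_one _⟩
  · intro p
    rw [← hCl A0 hA0 p]
    have := hlwle A0 p
    rw [hCx A0 hA0] at this
    exact this
  · have h1 := (hpat A0 hA0).2
    have h2 := (hxr A0 (hCG A0 hA0)).2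
    rw [hCx A0 hA0] at h2
    have h3 : (3 : ℝ) * (Ra σ A0 x).card + 2 * (Rb σ A0 x).card + 3 ≤
        3 * ((univ.filter (fun p => ∃ z w, rho p = some (z, w) ∧ (z = p0 ∨ w = p0))).card : ℝ) +
        2 * ((univ.filter (fun p => ∃ z w, rho p = some (z, w) ∧ z ≠ p0 ∧ w ≠ p0)).card : ℝ) +
        3 * ((insert x E).card : ℝ) := by exact_mod_cast h1
    linarith
  · have h1 : (C.image (lab x)).card = C.card := by
      apply card_image_of_injOn
      intro A hA B hB hAB
      have hA' := mem_coe.mp hA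
      have hB' := mem_coe.mp hB
      rw [← (hl1 A hA').2.1, ← (hl1 B hB').2.1]
      rw [hAB]
    rw [h1]
    refine hbig.trans (le_of_eq ?_)
    congr 1
    rw [Fintype.card_prod, Fintype.card_prod, Fintype.card_fun, Fintype.card_fun,
      Fintype.card_option, Fintype.card_prod, Fintype.card_fin, Fintype.card_fin, Fintype.card_fin,
      sq]

end Pool.Agent.CG
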