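import Pool.Agent.CG.D0

/-!
# CG D8c: entropy maximal subfamily; supports

PAPER PROOF of `entExists`. Among the nonempty subsets of T take H with
log₂|H| - lam ∑ log₂|supp H p| maximal (`Finset.exists_max_image` on the nonempty part of the power set);
subsets of H are subsets of T, so `Ent H`. Comparison with T:
log₂|H| ≥ log₂|T| - lam ∑_p log₂|supp T p| + lam ∑_p log₂|supp H p| ≥ log₂|T| - lam q L (all supports have between 1
and N elements), lam q L = 10 q/(kap2 g2).
PAPER PROOF of `suppMono`. The endpoints of σ.pi s(x, v), in increasing order, are functions of v: so supp H z and supp H w are images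
of supp H p.
PAPER PROOF of `suppNum`: 2^lam ≤ 2 N^0.6, so N 2^(-lam) ≥ N^0.4/2 ≥ k((k+22)L+1) for N large, k ≤ L.
PAPER PROOF of `suppCard`: supp H p ⊆ {v : v ∉ E', star alive, lam p ≤ lw}.
PAPER PROOF of `popular`: pigeonhole.
-/

set_option autoImplicit false

namespace Pool.Agent.CG

open Finset Filter

theorem entExists {N q : ℕ} (hN : 2 ≤ N) (T : Finset (Fin q → Fin N)) (hT : T.Nonempty) :
    ∃ H ⊆ T, H.Nonempty ∧ Ent H ∧
      Real.logb 2 (T.card : ℝ) - 10 * q / (kap2 * g2) ≤ Real.logb 2 (H.card : ℝ) := by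
  classical
  have hLL : 0 < LL N := by
    unfold LL
    exact Real.logb_pos (by norm_num) (by exact_mod_cast (by omega : 1 < N))
  have hkap : 0 < kap2 := by unfold kap2; positivity
  have hg : 0 < g2 := by unfold g2; positivity
  obtain ⟨lam, hlam⟩ : ∃ lam : ℝ, lam = 10 / (kap2 * g2 * LL N) := ⟨_, rfl⟩
  have hlam0 : 0 < lam := by rw [hlam]; positivity
  let phi : Finset (Fin q → Fin N) → ℝ := fun G =>
    Real.logb 2 (G.card : ℝ) - lam * ∑ p, Real.logb 2 ((supp G p).card : ℝ)
  obtain ⟨H, hH, hmax⟩ := Finset.exists_max_image (T.powerset.filter (fun G => G.Nonempty)) phi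
    ⟨T, by simp [hT]⟩
  rw [Finset.mem_filter, Finset.mem_powerset] at hH
  refine ⟨H, hH.1, hH.2, ?_, ?_⟩
  · intro G' hG' hne
    have h := hmax G' (by
      rw [Finset.mem_filter, Finset.mem_powerset]
      exact ⟨hG'.trans hH.1, hne⟩)
    simp only [phi] at h
    rw [hlam] at h
    exact h
  · have h := hmax T (by simp [hT])
    simp only [phi] at h
    have hT1 : ∑ p, Real.logb 2 ((supp T p).card : ℝ) ≤ q * LL N := by
      calc ∑ p, Real.logb 2 ((supp T p).card : ℝ) ≤ ∑ _p : Fin q, LL N := by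
            refine Finset.sum_le_sum fun p _ => ?_
            unfold LL
            apply Real.logb_le_logb_of_le (by norm_num)
            · have : (supp T p).Nonempty := by
                unfold supp
                exact hT.image _
              exact_mod_cast this.card_pos
            · have : (supp T p).card ≤ N := by
                have := Finset.card_le_univ (supp T p)
                simpa using this
              exact_mod_cast this
        _ = q * LL N := by simp
    have hH1 : 0 ≤ ∑ p, Real.logb 2 ((supp H p).card : ℝ) := by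
      refine Finset.sum_nonneg fun p _ => ?_
      apply Real.logb_nonneg (by norm_num)
      have : (supp H p).Nonempty := by
        unfold supp
        exact hH.2.image _
      exact_mod_cast this.card_pos
    have h3 : lam * (q * LL N) = 10 * q / (kap2 * g2) := by
      rw [hlam]
      field_simp
    have h4 : lam * ∑ p, Real.logb 2 ((supp T p).card : ℝ) ≤ lam * (q * LL N) :=
      mul_le_mul_of_nonneg_left hT1 hlam0.le
    have h5 : 0 ≤ lam * ∑ p, Real.logb 2 ((supp H p).card : ℝ) := mul_nonneg hlam0.le hH1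
    linarith

theorem suppMono {N q : ℕ} (σ : St (Sym2 (Fin N))) (x : Fin N) (H : Finset (Fin q → Fin N))
    (p z w : Fin q) (h : ∀ a ∈ H, σ.pi s(x, a p) = s(a z, a w) ∧ a z < a w) :
    (supp H z).card ≤ (supp H p).card ∧ (supp H w).card ≤ (supp H p).card := by
  constructor
  · have hsub : supp H z ⊆ (supp H p).image (fun v => (σ.pi s(x, v)).inf) := by
      intro v hv
      unfold supp at hv ⊢
      rw [Finset.mem_image] at hv
      obtain ⟨a, ha, rfl⟩ := hv
      obtain ⟨h1, h2⟩ := h a ha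
      refine Finset.mem_image.2 ⟨a p, Finset.mem_image_of_mem _ ha, ?_⟩
      simp only [h1, Sym2.inf_mk]
      exact inf_eq_left.2 h2.le
    exact (Finset.card_le_card hsub).trans Finset.card_image_le
  · have hsub : supp H w ⊆ (supp H p).image (fun v => (σ.pi s(x, v)).sup) := by
      intro v hv
      unfold supp at hv ⊢
      rw [Finset.mem_image] at hv
      obtain ⟨a, ha, rfl⟩ := hv
      obtain ⟨h1, h2⟩ := h a ha
      refine Finset.mem_image.2 ⟨a p, Finset.mem_image_of_mem _ ha, ?_⟩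
      simp only [h1, Sym2.sup_mk]
      exact sup_eq_right.2 h2.le
    exact (Finset.card_le_card hsub).trans Finset.card_image_le

theorem suppNum : ∀ᶠ N : ℕ in atTop, ∀ k lam : ℕ, (k:ℝ) ≤ 0.6 * LL N + 2 →
    (lam:ℝ) ≤ 0.6 * LL N + 1 →
    2 * N * (2:ℝ) ^ (-(lam:ℝ)) + 2 * k * ((k + 22) * LL N + 1) ≤ 4 * N * (2:ℝ) ^ (-(lam:ℝ)) := by
  have h1 : ∀ᶠ x : ℝ in atTop, 48 * (Real.logb 2 x) ^ (3 : ℝ) ≤ x ^ (0.4 : ℝ) := by
    have h := (isLittleO_log_rpow_rpow_atTop (3 : ℝ) (by norm_num : (0 : ℝ) < 0.4)).bound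
      (show (0 : ℝ) < (Real.log 2) ^ (3 : ℝ) / 48 by
        have : 0 < Real.log 2 := Real.log_pos (by norm_num)
        positivity)
    filter_upwards [h, eventually_ge_atTop (1 : ℝ)] with x hx hx1
    have hl2 : 0 < Real.log 2 := Real.log_pos (by norm_num)
    have hlx : 0 ≤ Real.log x := Real.log_nonneg hx1
    rw [Real.norm_of_nonneg (by positivity), Real.norm_of_nonneg (by positivity)] at hx
    unfold Real.logb
    rw [Real.div_rpow hlx hl2.le]
    have hpos : 0 < Real.log 2 ^ (3 : ℝ) := by positivity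
    rw [← mul_div_assoc, div_le_iff₀ hpos]
    have : Real.log 2 ^ (3 : ℝ) / 48 * x ^ (0.4 : ℝ) = (x ^ (0.4 : ℝ) * Real.log 2 ^ (3 : ℝ)) / 48 := by
      ring
    rw [this] at hx
    linarith
  have h2 : ∀ᶠ x : ℝ in atTop, 5 ≤ Real.logb 2 x := by
    exact (Real.tendsto_logb_atTop (by norm_num)).eventually_ge_atTop 5
  have h3 := tendsto_natCast_atTop_atTop (R := ℝ)
  filter_upwards [h3.eventually h1, h3.eventually h2, eventually_ge_atTop 1] with N hN1 hN2 hN3
  intro k lam hk hlam
  change 5 ≤ LL N at hN2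
  change 48 * (LL N) ^ (3 : ℝ) ≤ (N : ℝ) ^ (0.4 : ℝ) at hN1
  have hN0 : (0 : ℝ) < (N : ℝ) := by exact_mod_cast hN3
  have hkL : (k : ℝ) ≤ LL N := by linarith
  have hk0 : (0 : ℝ) ≤ (k : ℝ) := by positivity
  have hL0 : 0 ≤ LL N := by linarith
  have hbound : 2 * (k : ℝ) * ((k + 22) * LL N + 1) ≤ 48 * (LL N) ^ (3 : ℝ) := by
    have e : (LL N) ^ (3 : ℝ) = (LL N) ^ (3 : ℕ) := by
      rw [← Real.rpow_natCast]
      norm_num
    rw [e]
    have e1 : ((k : ℝ) + 22) * LL N + 1 ≤ (LL N + 22) * LL N + 1 := by nlinarith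
    have e2 : 0 ≤ (LL N + 22) * LL N + 1 := by positivity
    have e3 : 2 * (k : ℝ) * ((k + 22) * LL N + 1) ≤ 2 * LL N * ((LL N + 22) * LL N + 1) := by
      apply mul_le_mul (by linarith) e1 (by positivity) (by positivity)
    refine e3.trans ?_
    nlinarith [mul_nonneg hL0 hL0, mul_nonneg (mul_nonneg hL0 hL0) (by linarith : (0:ℝ) ≤ LL N - 5),
      mul_nonneg hL0 (by linarith : (0:ℝ) ≤ LL N - 5)]
  have hpow : (N : ℝ) ^ (0.4 : ℝ) / 2 ≤ N * (2 : ℝ) ^ (-(lam : ℝ)) := by
    have e4 : (N : ℝ) = (2 : ℝ) ^ (LL N) := by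
      unfold LL
      rw [Real.rpow_logb (by norm_num) (by norm_num) hN0]
    have e5 : (N : ℝ) ^ (0.4 : ℝ) / 2 = (2 : ℝ) ^ (LL N * 0.4 - 1) := by
      rw [Real.rpow_sub (by norm_num), Real.rpow_one, Real.rpow_mul (by norm_num), ← e4]
    have e6 : (N : ℝ) * (2 : ℝ) ^ (-(lam : ℝ)) = (2 : ℝ) ^ (LL N + -(lam : ℝ)) := by
      rw [Real.rpow_add (by norm_num), ← e4]
    rw [e5, e6]
    apply Real.rpow_le_rpow_of_exponent_le (by norm_num)
    linarith
  nlinarith [hbound, hpow, hN1]

theorem suppCard {N q : ℕ} (σ : St (Sym2 (Fin N))) (E' : Finset (Fin N)) (H : Finset (Fin q → Fin N))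
    (p : Fin q) (lam : ℝ) (h : ∀ a ∈ H, a p ∉ E' ∧ Disjoint (star E' (a p)) σ.B ∧
      lam ≤ lw σ (star E' (a p))) :
    (supp H p).card ≤
      (univ.filter (fun v => v ∉ E' ∧ Disjoint (star E' v) σ.B ∧ lam ≤ lw σ (star E' v))).card := by
  apply Finset.card_le_card
  intro v hv
  unfold supp at hv
  rw [Finset.mem_image] at hv
  obtain ⟨a, ha, rfl⟩ := hv
  rw [Finset.mem_filter]
  exact ⟨Finset.mem_univ _, h a ha⟩

theorem popular {α β : Type} [DecidableEq β] [Fintype β] [Nonempty β] (S : Finset α) (f : α → β) :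
    ∃ y, S.card ≤ Fintype.card β * (S.filter (fun a => f a = y)).card := by
  obtain ⟨y, _, hy⟩ : ∃ y ∈ (Finset.univ : Finset β),
      S.card ≤ Fintype.card β * (S.filter (fun a => f a = y)).card := by
    apply Finset.exists_le_of_sum_le Finset.univ_nonempty
    rw [← Finset.mul_sum, Finset.sum_const, Finset.card_univ, smul_eq_mul]
    apply Nat.mul_le_mul_left
    apply le_of_eq
    exact Finset.card_eq_sum_card_fiberwise (fun a _ => Finset.mem_coe.2 (Finset.mem_univ _))
  exact ⟨y, hy⟩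

end Pool.Agent.CG
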