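import Pool.Agent.CG.D0

/-!
# CG D8d: the weight of a member is at most the sum over the pieces

PAPER PROOF. A = univ.image a. `lw_decomp` with E = E': lw (ed A) - C(k',2) ≤ lw (ed (A \ E')) +
∑_{v ∈ A \ E'} lw (star E' v); the last sum is ∑_{p ≥ k'} lw (star E' (a p)) (a is a bijection from the
positions ≥ k' onto A \ E'). ed (A \ E') is the disjoint union of the sets cnt (Cn i) a and cnt U a, U = the
uncovered pairs: every edge of A \ E' is s(a p, a p') for exactly one pair p < p' of positions ≥ k' (a injective).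
`lw_union_le`, `lw_biUnion_le` (subadditivity on disjoint unions), lw (cnt U a) ≤ |cnt U a| ≤ |U|.
-/

set_option autoImplicit false

namespace Pool.Agent.CG

open Finset

private theorem D8d_disj {N q : ℕ} {C C' : Finset (Fin q × Fin q)} {a : Fin q → Fin N}
    (ha : Function.Injective a) (hC : ∀ pp ∈ C, pp.1 < pp.2) (hC' : ∀ pp ∈ C', pp.1 < pp.2)
    (h : Disjoint C C') : Disjoint (cnt C a) (cnt C' a) := by
  rw [disjoint_left] at h ⊢
  intro e he he'
  unfold cnt at he he'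
  rw [mem_image] at he he'
  obtain ⟨pp, hpp, rfl⟩ := he
  obtain ⟨rr, hrr, heq⟩ := he'
  rw [Sym2.eq_iff] at heq
  rcases heq with ⟨h1, h2⟩ | ⟨h1, h2⟩
  · have e1 := ha h1
    have e2 := ha h2
    have : rr = pp := Prod.ext e1 e2
    exact h hpp (this ▸ hrr)
  · have e1 := ha h1
    have e2 := ha h2
    have h3 := hC pp hpp
    have h4 := hC' rr hrr
    rw [e1, e2] at h4
    exact absurd h3 (not_lt.2 h4.le)

open Classical in
theorem lwSum {N q n : ℕ} (σ : St (Sym2 (Fin N))) (a : Fin q → Fin N)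
    (ha : Function.Injective a) (E' : Finset (Fin N)) (k' : ℕ) (hk : E'.card = k')
    (hE : E' ⊆ univ.image a) (hker : ∀ p, a p ∈ E' ↔ (p : ℕ) < k')
    (Cn : Fin n → Finset (Fin q × Fin q))
    (hC : ∀ i, ∀ pp ∈ Cn i, k' ≤ (pp.1 : ℕ) ∧ k' ≤ (pp.2 : ℕ) ∧ pp.1 < pp.2)
    (hd : ∀ i j, i ≠ j → Disjoint (Cn i) (Cn j)) :
    lw σ (ed (univ.image a)) ≤ (k'.choose 2 : ℝ) +
      ∑ p ∈ univ.filter (fun p : Fin q => k' ≤ (p : ℕ)), lw σ (star E' (a p)) +
      ∑ i, lw σ (cnt (Cn i) a) +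
      ((univ.filter (fun pp : Fin q × Fin q => k' ≤ (pp.1 : ℕ) ∧ k' ≤ (pp.2 : ℕ) ∧ pp.1 < pp.2 ∧
        ∀ i, pp ∉ Cn i)).card : ℝ) := by
  set A := univ.image a with hA
  set S := univ.filter (fun p : Fin q => k' ≤ (p : ℕ)) with hS
  set Un := univ.filter (fun pp : Fin q × Fin q => k' ≤ (pp.1 : ℕ) ∧ k' ≤ (pp.2 : ℕ) ∧
    pp.1 < pp.2 ∧ ∀ i, pp ∉ Cn i) with hUn
  have h1 := lw_decomp σ hE
  rw [hk] at h1
  have hAE : A \ E' = S.image a := by
    ext v
    rw [mem_sdiff, hA, mem_image, mem_image]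
    constructor
    · rintro ⟨⟨p, _, rfl⟩, hv⟩
      refine ⟨p, mem_filter.2 ⟨mem_univ _, ?_⟩, rfl⟩
      by_contra hc
      exact hv ((hker p).2 (not_le.1 hc))
    · rintro ⟨p, hp, rfl⟩
      refine ⟨⟨p, mem_univ _, rfl⟩, fun hc => ?_⟩
      have h2 := (hker p).1 hc
      have h3 := (mem_filter.1 hp).2
      omega
  have h2 : ∑ v ∈ A \ E', lw σ (star E' v) = ∑ p ∈ S, lw σ (star E' (a p)) := by
    rw [hAE, sum_image]
    intro p _ p' _ h
    exact ha h
  have hClt : ∀ i, ∀ pp ∈ Cn i, pp.1 < pp.2 := fun i pp hpp => (hC i pp hpp).2.2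
  have hUlt : ∀ pp ∈ Un, pp.1 < pp.2 := fun pp hpp => (mem_filter.1 hpp).2.2.2.1
  have h3 : ed (A \ E') = (univ.biUnion (fun i => cnt (Cn i) a)) ∪ cnt Un a := by
    ext e
    induction e using Sym2.ind with
    | _ u v =>
      rw [mk_mem_ed, hAE, mem_union, mem_biUnion, mem_image, mem_image]
      constructor
      · rintro ⟨⟨p, hp, rfl⟩, ⟨p', hp', rfl⟩, hne⟩
        have hpp : p ≠ p' := fun h => hne (by rw [h])
        have key : ∀ r r' : Fin q, r ∈ S → r' ∈ S → r < r' →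
            (∃ i ∈ (univ : Finset (Fin n)), s(a r, a r') ∈ cnt (Cn i) a) ∨
              s(a r, a r') ∈ cnt Un a := by
          intro r r' hr hr' hlt
          by_cases hcov : ∃ i, (r, r') ∈ Cn i
          · obtain ⟨i, hi⟩ := hcov
            exact Or.inl ⟨i, mem_univ _, mem_image.2 ⟨(r, r'), hi, rfl⟩⟩
          · refine Or.inr (mem_image.2 ⟨(r, r'), mem_filter.2 ⟨mem_univ _, ?_⟩, rfl⟩)
            exact ⟨(mem_filter.1 hr).2, (mem_filter.1 hr').2, hlt,
              fun i hi => hcov ⟨i, hi⟩⟩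
        rcases lt_or_gt_of_ne hpp with hlt | hlt
        · exact key p p' hp hp' hlt
        · rw [Sym2.eq_swap]
          exact key p' p hp' hp hlt
      · have key : ∀ C : Finset (Fin q × Fin q), (∀ pp ∈ C, pp.1 ∈ S ∧ pp.2 ∈ S ∧ pp.1 < pp.2) →
            s(u, v) ∈ cnt C a → (∃ p ∈ S, a p = u) ∧ (∃ p ∈ S, a p = v) ∧ u ≠ v := by
          intro C hCS hmem
          unfold cnt at hmem
          rw [mem_image] at hmem
          obtain ⟨pp, hpp, heq⟩ := hmem
          obtain ⟨g1, g2, g3⟩ := hCS pp hpp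
          have hne : a pp.1 ≠ a pp.2 := fun h => g3.ne (ha h)
          rw [Sym2.eq_iff] at heq
          rcases heq with ⟨rfl, rfl⟩ | ⟨rfl, rfl⟩
          · exact ⟨⟨_, g1, rfl⟩, ⟨_, g2, rfl⟩, hne⟩
          · exact ⟨⟨_, g2, rfl⟩, ⟨_, g1, rfl⟩, hne.symm⟩
        rintro (⟨i, _, hi⟩ | hmem)
        · refine key (Cn i) (fun pp hpp => ?_) hi
          have := hC i pp hpp
          exact ⟨mem_filter.2 ⟨mem_univ _, this.1⟩, mem_filter.2 ⟨mem_univ _, this.2.1⟩, this.2.2⟩
        · refine key Un (fun pp hpp => ?_) hmem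
          have := (mem_filter.1 hpp).2
          exact ⟨mem_filter.2 ⟨mem_univ _, this.1⟩, mem_filter.2 ⟨mem_univ _, this.2.1⟩,
            this.2.2.1⟩
  have h4 : Disjoint (univ.biUnion (fun i => cnt (Cn i) a)) (cnt Un a) := by
    rw [disjoint_biUnion_left]
    intro i _
    refine D8d_disj ha (hClt i) hUlt ?_
    rw [disjoint_left]
    intro pp h5 h6
    exact (mem_filter.1 h6).2.2.2.2 i h5
  have h5 := lw_union_le σ h4
  have h6 := lw_biUnion_le σ (univ : Finset (Fin n)) (fun i => cnt (Cn i) a) (by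
    intro i _ j _ hij
    exact D8d_disj ha (hClt i) (hClt j) (hd i j hij))
  have h7 : lw σ (cnt Un a) ≤ (Un.card : ℝ) := by
    refine (lw_le_cl σ _).trans ?_
    exact_mod_cast (cl_le_card σ _).trans card_image_le
  rw [h3, h2] at h1
  linarith

end Pool.Agent.CG
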