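import Pool.Agent.CG.D0

/-!
# CG D8n: the final numerical inequality

Notation L = LL N; `regNum`, 0.2074 < β < 0.2076.
PAPER PROOF. q - 1 ≤ 2L, so 1.96 J q ≤ q(q-1)/2 gives 0.98 J ≤ (q-1)/4 ≤ L/2 (q ≥ 1).
qL - C(q,2) = q (L - (q-1)/2) ≤ q (log₂ L + 1/2) by Reg (C ≥ 0).
CLAIM k'(L - k'/2) + D (L - k') ≥ 0.98 J L. D ≥ 0.98 J + 1/2 - k'/2 by the hypothesis. If 0.98 J ≥ k'/2 the left side is
≥ k'L - k'²/2 + (0.98J - k'/2)(L - k') = 0.98 J L + k'(L/2 - 0.98 J) ≥ 0.98 J L. If 0.98 J < k'/2: t(L - t/2) is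
increasing for t ≤ L, so it is ≥ 1.96 J (L - 0.98 J) ≥ 0.98 J L (k' ≤ 0.6L + 1 ≤ L).
C(k',2) ≤ k'²/2. So the total is at most
 -0.98 J L + 0.23 * J L/100 + 2β(J+1)q + q(log₂ L + 1/2) + err + 3 nL + 3q + nL tau2 + U
≤ -0.98JL + 0.0023JL + 0.8304 JL + 0.8304 L + 2L(log₂L + 1/2) + err + 3nL + 6L + nL tau2 + U.
err ≤ L + 2L(2 log₂(q+1)) + 2L log₂(q+1) + 20·10^80 L + … ≤ 10^-18 L² for N large; nL * tau2 = (4·10^19+1) 6·10^-40 L² ≤ 10^-18 L²;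
P0 ≤ 2·10^19 err / L, 2 q P0 ≤ 8·10^19 err ≤ 10^-18 L² for N large (err = O(L log L)); q²/nM ≤ 4L²/(5·10^19) ≤ 10^-18 L².
All these together are ≤ 10^-16 L² ≤ 0.01 J L since J ≥ 10^-14 L. Total < 0.
-/

set_option autoImplicit false

namespace Pool.Agent.CG

open Finset Filter

private theorem D8n_LL : Tendsto (fun N : ℕ => LL N) atTop atTop := by
  have h1 : Tendsto (fun N : ℕ => Real.log (N : ℝ)) atTop atTop :=
    Real.tendsto_log_atTop.comp tendsto_natCast_atTop_atTop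
  have h2 : 0 < Real.log 2 := Real.log_pos (by norm_num)
  exact h1.atTop_div_const h2

private theorem D8n_lg : Tendsto (fun x : ℝ => Real.logb 2 x) atTop atTop := by
  have h2 : 0 < Real.log 2 := Real.log_pos (by norm_num)
  exact Real.tendsto_log_atTop.atTop_div_const h2

/-- all smallness conditions on `N` -/
private theorem D8n_cond (C : ℕ) : ∀ᶠ N : ℕ in atTop, 1 ≤ N ∧ 1 ≤ Real.logb 2 (LL N) ∧
    (C : ℝ) + 1 ≤ 2 * Real.logb 2 (LL N) ∧ 10 ^ 119 * Real.logb 2 (LL N) ≤ LL N := by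
  have h2 : 0 < Real.log 2 := Real.log_pos (by norm_num)
  have e1 : ∀ᶠ x : ℝ in atTop, 10 ^ 119 * Real.logb 2 x ≤ x := by
    have := Real.isLittleO_log_id_atTop.bound (show (0 : ℝ) < Real.log 2 / 10 ^ 119 by positivity)
    filter_upwards [this, eventually_ge_atTop (1 : ℝ)] with x hx hx1
    have h3 : Real.log x ≤ Real.log 2 / 10 ^ 119 * x := by
      have h4 : ‖id x‖ = x := by
        rw [id, Real.norm_eq_abs, abs_of_nonneg (by linarith)]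
      rw [h4] at hx
      exact (Real.le_norm_self _).trans hx
    unfold Real.logb
    rw [mul_div_assoc', div_le_iff₀ h2]
    have h5 : (10 : ℝ) ^ 119 * Real.log x ≤ 10 ^ 119 * (Real.log 2 / 10 ^ 119 * x) :=
      mul_le_mul_of_nonneg_left h3 (by positivity)
    have h6 : (10 : ℝ) ^ 119 * (Real.log 2 / 10 ^ 119 * x) = x * Real.log 2 := by
      field_simp
    linarith
  have e2 : ∀ᶠ x : ℝ in atTop, 1 ≤ Real.logb 2 x := D8n_lg.eventually_ge_atTop 1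
  have e3 : ∀ᶠ x : ℝ in atTop, (C : ℝ) + 1 ≤ 2 * Real.logb 2 x := by
    filter_upwards [D8n_lg.eventually_ge_atTop ((C : ℝ) + 1)] with x hx
    have : (0 : ℝ) ≤ C := Nat.cast_nonneg C
    linarith
  filter_upwards [eventually_ge_atTop 1, D8n_LL.eventually e1, D8n_LL.eventually e2,
    D8n_LL.eventually e3] with N h h1 h2 h3
  exact ⟨h, h2, h3, h1⟩

/-- consequences of the regime -/
private theorem D8n_reg {C N q : ℕ} (hR : Reg C N q) (h1 : 1 ≤ Real.logb 2 (LL N))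
    (hC : (C : ℝ) + 1 ≤ 2 * Real.logb 2 (LL N)) (hL : 10 ^ 119 * Real.logb 2 (LL N) ≤ LL N) :
    (10 : ℝ) ^ 119 ≤ LL N ∧ (q : ℝ) ≤ 2 * LL N ∧ (1 : ℝ) ≤ q ∧
      LL N - ((q : ℝ) - 1) / 2 ≤ Real.logb 2 (LL N) + 1 / 2 := by
  obtain ⟨r1, r2⟩ := hR
  have hC0 : (0 : ℝ) ≤ C := Nat.cast_nonneg C
  have h10 : (10 : ℝ) ^ 119 ≤ LL N := by
    have : (10 : ℝ) ^ 119 * 1 ≤ 10 ^ 119 * Real.logb 2 (LL N) :=
      mul_le_mul_of_nonneg_left h1 (by positivity)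
    linarith
  have hsmall : Real.logb 2 (LL N) * 100 ≤ LL N := by
    have : (100 : ℝ) * Real.logb 2 (LL N) ≤ 10 ^ 119 * Real.logb 2 (LL N) :=
      mul_le_mul_of_nonneg_right (by norm_num) (by linarith)
    linarith
  refine ⟨h10, by linarith, by linarith, by linarith⟩

/-- logarithms of polynomials in `q` -/
private theorem D8n_log {L : ℝ} {q : ℕ} (hL : (10 : ℝ) ^ 119 ≤ L) (hq : (q : ℝ) ≤ 2 * L) :
    Real.logb 2 ((q : ℝ) ^ 2 + 1) ≤ 3 * Real.logb 2 L ∧ Real.logb 2 ((q : ℝ) + 1) ≤ 2 * Real.logb 2 L ∧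
      0 ≤ Real.logb 2 ((q : ℝ) ^ 2 + 1) ∧ 0 ≤ Real.logb 2 ((q : ℝ) + 1) := by
  have hq0 : (0 : ℝ) ≤ q := Nat.cast_nonneg q
  have hL10 : (10 : ℝ) ≤ L := by
    refine le_trans ?_ hL
    norm_num
  have hL0 : 0 < L := by linarith
  have hqq : (q : ℝ) ^ 2 ≤ (2 * L) ^ 2 := pow_le_pow_left₀ hq0 hq 2
  refine ⟨?_, ?_, Real.logb_nonneg (by norm_num) (by nlinarith), Real.logb_nonneg (by norm_num) (by linarith)⟩
  · have h1 : (q : ℝ) ^ 2 + 1 ≤ L ^ 3 := by nlinarith [mul_nonneg hL0.le hL0.le]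
    have h2 : Real.logb 2 ((q : ℝ) ^ 2 + 1) ≤ Real.logb 2 (L ^ 3) :=
      Real.logb_le_logb_of_le (by norm_num) (by positivity) h1
    have h3 : Real.logb 2 (L ^ 3) = 3 * Real.logb 2 L := by
      rw [Real.logb_pow]
      norm_num
    linarith
  · have h1 : (q : ℝ) + 1 ≤ L ^ 2 := by nlinarith
    have h2 : Real.logb 2 ((q : ℝ) + 1) ≤ Real.logb 2 (L ^ 2) :=
      Real.logb_le_logb_of_le (by norm_num) (by positivity) h1
    have h3 : Real.logb 2 (L ^ 2) = 2 * Real.logb 2 L := by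
      rw [Real.logb_pow]
      norm_num
    linarith

private theorem D8n_main {L k D J : ℝ} (hk0 : 0 ≤ k) (hkL : k ≤ L) (hD0 : 0 ≤ D) (hJ0 : 0 ≤ J)
    (hJ : 0.98 * J ≤ L / 2) (hD : 5.88 * J + 3 ≤ 6 * D + 3 * k) :
    0.98 * J * L ≤ k * L - k ^ 2 / 2 + D * (L - k) := by
  have hLk : 0 ≤ L - k := by linarith
  have hD' : 0.98 * J + 1 / 2 - k / 2 ≤ D := by linarith
  rcases le_total (k / 2) (0.98 * J) with h | h
  · have h1 : (0.98 * J - k / 2) * (L - k) ≤ D * (L - k) :=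
      mul_le_mul_of_nonneg_right (by linarith) hLk
    have h2 : k * L - k ^ 2 / 2 + (0.98 * J - k / 2) * (L - k) =
        0.98 * J * L + k * (L / 2 - 0.98 * J) := by ring
    have h3 : 0 ≤ k * (L / 2 - 0.98 * J) := mul_nonneg hk0 (by linarith)
    linarith
  · have h1 : 0 ≤ D * (L - k) := mul_nonneg hD0 hLk
    have h2 : 0 ≤ (k - 1.96 * J) * (2 * L - k - 1.96 * J) := mul_nonneg (by linarith) (by linarith)
    have h3 : 0 ≤ 1.96 * J * (L / 2 - 0.98 * J) := mul_nonneg (by linarith) (by linarith)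
    nlinarith

theorem numII2 : ∀ᶠ C : ℕ in atTop, ∀ᶠ N : ℕ in atTop, ∀ q J : ℕ, Reg C N q → C ≤ J →
    eta * LL N ≤ (J:ℝ) → ∀ (k' D : ℕ) (U P0 err : ℝ), 1 ≤ k' → (k':ℝ) ≤ 0.6 * LL N + 1 →
    k' + D ≤ q → (1.96:ℝ) * J * q ≤ (q.choose 2 : ℝ) → (5.88:ℝ) * J + 3 ≤ 6 * D + 3 * k' →
    err = LL N + q * Real.logb 2 ((q:ℝ) ^ 2 + 1) + q * Real.logb 2 ((q:ℝ) + 1) +
      10 * q / (kap2 * g2) + nL * Real.logb 2 ((q:ℝ) ^ 2 + 1) + 2 →
    0 ≤ P0 → P0 * (kap0 / 2) * LL N ≤ err → U ≤ 2 * q * P0 + (q:ℝ) ^ 2 / nM →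
    err + 3 * nL + 3 * q + nL * tau2 N + U + ((q:ℝ) - k' - D) * LL N + D * k' -
      (q.choose 2 : ℝ) + (k'.choose 2 : ℝ) + 0.23 * uJ N J + 2 * beta * (J + 1) * q < 0 := by
  refine Filter.Eventually.of_forall fun C => ?_
  filter_upwards [D8n_cond C] with N hN
  intro q J hR _ hJe k' D U P0 err _ hk2 _ hch hD herr hP0 hP hU
  obtain ⟨_, hlg1, hClg, hLlg⟩ := hN
  obtain ⟨h10, hq2, hq1, hqr⟩ := D8n_reg hR hlg1 hClg hLlg
  obtain ⟨l1, l2, l3, l4⟩ := D8n_log h10 hq2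
  have hb := beta_lt
  have hb0 := beta_pos
  have hchq : ((q.choose 2 : ℕ) : ℝ) = q * (q - 1) / 2 := Nat.cast_choose_two ℝ q
  have hchk : ((k'.choose 2 : ℕ) : ℝ) = k' * (k' - 1) / 2 := Nat.cast_choose_two ℝ k'
  have huJ : (uJ N J : ℝ) ≤ (J : ℝ) * LL N / 100 := by
    unfold uJ
    exact Nat.floor_le (by positivity)
  unfold eta at hJe
  unfold kap0 at hP
  have htau : tau2 N = 6 * (1 / 10 ^ 40) * LL N ^ 2 := rfl
  have hnL : ((nL : ℕ) : ℝ) = 4 * 10 ^ 19 + 1 := by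
    unfold nL
    push_cast
    norm_num
  have hnM : ((nM : ℕ) : ℝ) = 5 * 10 ^ 19 := by
    unfold nM
    push_cast
    norm_num
  have hkg : 10 * (q : ℝ) / (kap2 * g2) = 10 ^ 81 * q := by
    unfold kap2 g2
    field_simp
  rw [hnL, hkg] at herr
  rw [hnM] at hU
  rw [hchq] at hch
  rw [hnL, htau, hchq, hchk]
  set L := LL N with hLdef
  set lg := Real.logb 2 L with hlgdef
  set x1 := Real.logb 2 ((q : ℝ) ^ 2 + 1) with hx1
  set x2 := Real.logb 2 ((q : ℝ) + 1) with hx2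
  have hL0 : 0 < L := lt_of_lt_of_le (by positivity) h10
  have hq0 : (0 : ℝ) < q := by linarith
  have hJ0 : (0 : ℝ) ≤ J := Nat.cast_nonneg J
  have hk0 : (0 : ℝ) ≤ k' := Nat.cast_nonneg k'
  have hD0 : (0 : ℝ) ≤ D := Nat.cast_nonneg D
  -- bound of J
  have hJ98 : 0.98 * (J : ℝ) ≤ L / 2 := by
    have h1 : (1.96 * (J : ℝ)) * q ≤ ((q - 1) / 2) * q := by linarith
    have h2 : 1.96 * (J : ℝ) ≤ (q - 1) / 2 := le_of_mul_le_mul_right h1 hq0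
    linarith
  have hbig : (100 : ℝ) ≤ L := by
    refine le_trans ?_ h10
    norm_num
  have hmain := D8n_main (L := L) (k := k') (D := D) (J := J) hk0 (by linarith) hD0 hJ0 hJ98 hD
  -- L * lg is tiny compared with L ^ 2
  have hLL : 10 ^ 119 * (L * lg) ≤ L ^ 2 := by
    have := mul_le_mul_of_nonneg_left hLlg hL0.le
    have h1 : L * (10 ^ 119 * lg) = 10 ^ 119 * (L * lg) := by ring
    have h2 : L * L = L ^ 2 := by ring
    linarith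
  have hLg : L ≤ L * lg := by
    have := mul_le_mul_of_nonneg_left hlg1 hL0.le
    linarith
  have h1Lg : 1 ≤ L * lg := by linarith
  have hgLg : lg ≤ L * lg := by
    have := mul_le_mul_of_nonneg_right (show (1 : ℝ) ≤ L by linarith) (show (0 : ℝ) ≤ lg by linarith)
    linarith
  -- bound of err
  have t1 : (q : ℝ) * x1 ≤ 6 * (L * lg) := by
    have h1 : (q : ℝ) * x1 ≤ (2 * L) * (3 * lg) := mul_le_mul hq2 l1 l3 (by linarith)
    linarith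
  have t2 : (q : ℝ) * x2 ≤ 4 * (L * lg) := by
    have h1 : (q : ℝ) * x2 ≤ (2 * L) * (2 * lg) := mul_le_mul hq2 l2 l4 (by linarith)
    linarith
  have herr' : err ≤ 3 * 10 ^ 81 * (L * lg) := by
    rw [herr]
    have t3 : (4 * 10 ^ 19 + 1) * x1 ≤ (4 * 10 ^ 19 + 1) * (3 * (L * lg)) :=
      mul_le_mul_of_nonneg_left (by linarith) (by norm_num)
    have t4 : (10 : ℝ) ^ 81 * q ≤ 10 ^ 81 * (2 * (L * lg)) :=
      mul_le_mul_of_nonneg_left (by linarith) (by positivity)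
    have t5 : L + 6 * (L * lg) + 4 * (L * lg) + 10 ^ 81 * (2 * (L * lg)) +
        (4 * 10 ^ 19 + 1) * (3 * (L * lg)) + 2 ≤ 3 * 10 ^ 81 * (L * lg) := by
      have : (6 + 4 + 10 ^ 81 * 2 + (4 * 10 ^ 19 + 1) * 3 + 1 + 2) * (L * lg) ≤
          3 * 10 ^ 81 * (L * lg) := mul_le_mul_of_nonneg_right (by norm_num) (by linarith)
      nlinarith
    linarith
  -- bound of U
  have hP' : P0 * L ≤ 2 * 10 ^ 19 * err := by
    have h1 : P0 * (1 / 10 ^ 19 / 2) * L = (P0 * L) / (2 * 10 ^ 19) := by ring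
    rw [h1, div_le_iff₀ (by norm_num)] at hP
    linarith
  have hqP : (q : ℝ) * P0 ≤ 4 * 10 ^ 19 * err := by
    have h1 : (q : ℝ) * P0 ≤ (2 * L) * P0 := mul_le_mul_of_nonneg_right hq2 hP0
    linarith
  have hqq : (q : ℝ) ^ 2 / (5 * 10 ^ 19) ≤ 4 * L ^ 2 / (5 * 10 ^ 19) := by
    have h1 : (q : ℝ) ^ 2 ≤ 4 * L ^ 2 := by
      have := pow_le_pow_left₀ hq0.le hq2 2
      linarith [this, mul_pow (2 : ℝ) L 2]
    gcongr
  -- J L ≥ 10^-14 L^2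
  have hJL : L ^ 2 ≤ 10 ^ 14 * ((J : ℝ) * L) := by
    have h1 : L ≤ 10 ^ 14 * (J : ℝ) := by
      have : 1 / 10 ^ 14 * L ≤ (J : ℝ) := hJe
      linarith
    have := mul_le_mul_of_nonneg_right h1 hL0.le
    have h2 : L * L = L ^ 2 := by ring
    linarith
  -- beta term
  have hbt : 2 * beta * ((J : ℝ) + 1) * q ≤ 0.8304 * ((J : ℝ) * L) + 0.8304 * L := by
    have h1 : 2 * beta * ((J : ℝ) + 1) ≤ 2 * 0.2076 * ((J : ℝ) + 1) :=
      mul_le_mul_of_nonneg_right (by linarith) (by linarith)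
    have h2 : 2 * beta * ((J : ℝ) + 1) * q ≤ (2 * 0.2076 * ((J : ℝ) + 1)) * (2 * L) :=
      mul_le_mul h1 hq2 hq0.le (by positivity)
    linarith
  -- q L - choose
  have hqL : (q : ℝ) * L - q * (q - 1) / 2 ≤ 3 * (L * lg) := by
    have h1 : (q : ℝ) * (L - (q - 1) / 2) ≤ q * (lg + 1 / 2) := mul_le_mul_of_nonneg_left hqr hq0.le
    have h2 : (q : ℝ) * (lg + 1 / 2) ≤ 2 * L * (lg + 1 / 2) :=
      mul_le_mul_of_nonneg_right hq2 (by linarith)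
    linarith
  have hL2 : 0 ≤ L ^ 2 := by positivity
  -- collect
  have hE : (1 + 8 * 10 ^ 19) * err ≤ (1 + 8 * 10 ^ 19) * (3 * 10 ^ 81 * (L * lg)) :=
    mul_le_mul_of_nonneg_left herr' (by norm_num)
  have hJLL : 0.98 * (J : ℝ) * L = 0.98 * ((J : ℝ) * L) := by ring
  have hDk : ((q : ℝ) - k' - D) * L + D * k' = q * L - (k' * L - (k' : ℝ) ^ 2 / 2 + D * (L - k')) -
      (k' : ℝ) ^ 2 / 2 := by ring
  have hkk : (k' : ℝ) * (k' - 1) / 2 ≤ (k' : ℝ) ^ 2 / 2 := by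
    have : (k' : ℝ) * (k' - 1) = (k' : ℝ) ^ 2 - k' := by ring
    linarith
  have hLlg0 : 0 ≤ L * lg := by linarith
  have hfin : (1 + 8 * 10 ^ 19) * (3 * 10 ^ 81 * (L * lg)) + 3 * (4 * 10 ^ 19 + 1) * (L * lg) +
      10 * (L * lg) ≤ 1 / 10 ^ 16 * L ^ 2 := by
    have h1 : (1 + 8 * 10 ^ 19) * (3 * 10 ^ 81 * (L * lg)) + 3 * (4 * 10 ^ 19 + 1) * (L * lg) +
      10 * (L * lg) = ((1 + 8 * 10 ^ 19) * (3 * 10 ^ 81) + 3 * (4 * 10 ^ 19 + 1) + 10) * (L * lg) := by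
      ring
    have h2 : ((1 + 8 * 10 ^ 19) * (3 * 10 ^ 81) + 3 * (4 * 10 ^ 19 + 1) + 10) * (L * lg) ≤
        (1 / 10 ^ 16 * 10 ^ 119) * (L * lg) := mul_le_mul_of_nonneg_right (by norm_num) hLlg0
    have h3 : 1 / 10 ^ 16 * (10 ^ 119 * (L * lg)) ≤ 1 / 10 ^ 16 * L ^ 2 :=
      mul_le_mul_of_nonneg_left hLL (by norm_num)
    rw [h1]
    linarith
  have hL2pos : 0 < L ^ 2 := by positivity
  linarith

/-- further numerical facts for the assembly -/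
theorem numII2b : ∀ᶠ C : ℕ in atTop, ∀ᶠ N : ℕ in atTop, ∀ q : ℕ, Reg C N q →
    (1:ℝ) ≤ q ∧ (q:ℝ) ≤ 2 * LL N ∧ 10 ^ 100 ≤ LL N ∧
    (2:ℝ) ^ (-(5 * LL N)) ≤ 1 / 4 ∧
    8 * nL * (q:ℝ) ^ 4 * (N:ℝ) ^ (-g2) * ((q:ℝ) ^ 2 + 1) ^ nL ≤ 1 / 4 ∧
    (∀ s : ℝ, kap0 / 2 ≤ s → 4 * (N:ℝ) ^ s * (N:ℝ) ^ g2 * (q:ℝ) ^ 2 + 1 ≤ (N:ℝ) ^ (s + kap0 / 4)) := by
  refine Filter.Eventually.of_forall fun C => ?_
  filter_upwards [D8n_cond C] with N hN
  intro q hR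
  obtain ⟨hN1, hlg1, hClg, hLlg⟩ := hN
  obtain ⟨h10, hq2, hq1, hqr⟩ := D8n_reg hR hlg1 hClg hLlg
  obtain ⟨l1, l2, l3, l4⟩ := D8n_log h10 hq2
  have hnL : ((nL : ℕ) : ℝ) = 4 * 10 ^ 19 + 1 := by
    unfold nL
    push_cast
    ring
  have hNpos : (0 : ℝ) < N := by exact_mod_cast hN1
  have hN2 : (N : ℝ) = (2 : ℝ) ^ (LL N) := by
    unfold LL
    rw [Real.rpow_logb (by norm_num) (by norm_num) hNpos]
  have hNs : ∀ s : ℝ, (N : ℝ) ^ s = (2 : ℝ) ^ (LL N * s) := by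
    intro s
    nth_rewrite 1 [hN2]
    rw [← Real.rpow_mul (by norm_num)]
  set L := LL N with hLdef
  set lg := Real.logb 2 L with hlgdef
  have hL0 : 0 < L := lt_of_lt_of_le (by positivity) h10
  have hbig : (10 : ℝ) ^ 100 ≤ L := by
    refine le_trans ?_ h10
    norm_num
  have hbig' : (100 : ℝ) ≤ L := by
    refine le_trans ?_ h10
    norm_num
  have hq0 : (0 : ℝ) < q := by linarith
  have hqpow : (q : ℝ) ^ 2 + 1 = (2 : ℝ) ^ (Real.logb 2 ((q : ℝ) ^ 2 + 1)) := by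
    rw [Real.rpow_logb (by norm_num) (by norm_num) (by positivity)]
  refine ⟨hq1, hq2, hbig, ?_, ?_, ?_⟩
  · have h1 : (2 : ℝ) ^ (-(5 * L)) ≤ (2 : ℝ) ^ (-2 : ℝ) :=
      Real.rpow_le_rpow_of_exponent_le (by norm_num) (by linarith)
    have h2 : (2 : ℝ) ^ (-2 : ℝ) = 1 / 4 := by
      rw [Real.rpow_neg (by norm_num), show (2 : ℝ) = ((2 : ℕ) : ℝ) by norm_num, Real.rpow_natCast]
      norm_num
    exact h1.trans h2.le
  · -- everything as a power of two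
    set x1 := Real.logb 2 ((q : ℝ) ^ 2 + 1) with hx1
    have h1 : ((q : ℝ) ^ 2 + 1) ^ nL = (2 : ℝ) ^ (x1 * nL) := by
      nth_rewrite 1 [hqpow]
      rw [← Real.rpow_natCast, ← Real.rpow_mul (by norm_num)]
    have h2 : (q : ℝ) ^ 4 ≤ (2 : ℝ) ^ (x1 * 2) := by
      have h3 : (2 : ℝ) ^ (x1 * 2) = ((q : ℝ) ^ 2 + 1) ^ 2 := by
        rw [Real.rpow_mul (by norm_num), ← hqpow, Real.rpow_two]
      rw [h3]
      nlinarith [sq_nonneg (q : ℝ)]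
    have h3 : (8 : ℝ) * nL ≤ (2 : ℝ) ^ (70 : ℝ) := by
      have : (2 : ℝ) ^ (70 : ℝ) = 2 ^ 70 := by
        rw [show (70 : ℝ) = ((70 : ℕ) : ℝ) by norm_num, Real.rpow_natCast]
      rw [this, hnL]
      norm_num
    have h4 : (N : ℝ) ^ (-g2) = (2 : ℝ) ^ (L * (-g2)) := hNs _
    have h5 : 8 * nL * (q:ℝ) ^ 4 * (N:ℝ) ^ (-g2) * ((q:ℝ) ^ 2 + 1) ^ nL ≤
        (2 : ℝ) ^ (70 : ℝ) * (2 : ℝ) ^ (x1 * 2) * (2 : ℝ) ^ (L * (-g2)) * (2 : ℝ) ^ (x1 * nL) := by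
      rw [h1, h4]
      gcongr
    have h6 : (2 : ℝ) ^ (70 : ℝ) * (2 : ℝ) ^ (x1 * 2) * (2 : ℝ) ^ (L * (-g2)) * (2 : ℝ) ^ (x1 * nL) =
        (2 : ℝ) ^ (70 + x1 * 2 + L * (-g2) + x1 * nL) := by
      rw [Real.rpow_add (by norm_num), Real.rpow_add (by norm_num), Real.rpow_add (by norm_num)]
    have h7 : 70 + x1 * 2 + L * (-g2) + x1 * nL ≤ -2 := by
      unfold g2
      rw [hnL]
      have h8 : x1 * (4 * 10 ^ 19 + 1) ≤ 3 * lg * (4 * 10 ^ 19 + 1) :=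
        mul_le_mul_of_nonneg_right l1 (by norm_num)
      have h9 : 1 / 10 ^ 40 * (10 ^ 119 * lg) ≤ 1 / 10 ^ 40 * L :=
        mul_le_mul_of_nonneg_left hLlg (by norm_num)
      have h10' : (72 + 6 + 3 * (4 * 10 ^ 19 + 1)) * lg ≤ (1 / 10 ^ 40 * 10 ^ 119) * lg :=
        mul_le_mul_of_nonneg_right (by norm_num) (by linarith)
      linarith
    have h8 : (2 : ℝ) ^ (70 + x1 * 2 + L * (-g2) + x1 * nL) ≤ (2 : ℝ) ^ (-2 : ℝ) :=
      Real.rpow_le_rpow_of_exponent_le (by norm_num) h7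
    have h9 : (2 : ℝ) ^ (-2 : ℝ) = 1 / 4 := by
      rw [Real.rpow_neg (by norm_num), show (2 : ℝ) = ((2 : ℕ) : ℝ) by norm_num, Real.rpow_natCast]
      norm_num
    exact (h5.trans (h6.le.trans h8)).trans h9.le
  · intro s hs
    have hs0 : 0 ≤ s := by
      unfold kap0 at hs
      refine le_trans ?_ hs
      norm_num
    have e1 : (N : ℝ) ^ (s + kap0 / 4) = (N : ℝ) ^ s * (N : ℝ) ^ (kap0 / 4) := Real.rpow_add hNpos _ _
    have e2 : (1 : ℝ) ≤ (N : ℝ) ^ s := Real.one_le_rpow (by exact_mod_cast hN1) hs0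
    have e3 : 4 * (N : ℝ) ^ g2 * (q : ℝ) ^ 2 + 1 ≤ (N : ℝ) ^ (kap0 / 4) := by
      set x1 := Real.logb 2 ((q : ℝ) ^ 2 + 1) with hx1
      have h1 : 4 * (N : ℝ) ^ g2 * (q : ℝ) ^ 2 + 1 ≤ 4 * (N : ℝ) ^ g2 * ((q : ℝ) ^ 2 + 1) := by
        have h2 : (1 : ℝ) ≤ (N : ℝ) ^ g2 := Real.one_le_rpow (by exact_mod_cast hN1) (by
          unfold g2
          norm_num)
        nlinarith
      have h2 : 4 * (N : ℝ) ^ g2 * ((q : ℝ) ^ 2 + 1) = (2 : ℝ) ^ (2 + L * g2 + x1) := by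
        rw [Real.rpow_add (by norm_num), Real.rpow_add (by norm_num), ← hNs, ← hqpow]
        norm_num
      have h3 : 2 + L * g2 + x1 ≤ L * (kap0 / 4) := by
        unfold g2 kap0
        have h9 : 1 / 10 ^ 21 * (10 ^ 119 * lg) ≤ 1 / 10 ^ 21 * L :=
          mul_le_mul_of_nonneg_left hLlg (by norm_num)
        have h10' : (2 + 3) * lg ≤ (1 / 10 ^ 21 * 10 ^ 119) * lg :=
          mul_le_mul_of_nonneg_right (by norm_num) (by linarith)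
        have h11 : L * (1 / 10 ^ 40) + 1 / 10 ^ 21 * L ≤ L * (1 / 10 ^ 19 / 4) := by
          have : (1 / 10 ^ 40 + 1 / 10 ^ 21) * L ≤ (1 / 10 ^ 19 / 4) * L :=
            mul_le_mul_of_nonneg_right (by norm_num) hL0.le
          linarith
        linarith
      rw [hNs (kap0 / 4)]
      calc 4 * (N : ℝ) ^ g2 * (q : ℝ) ^ 2 + 1 ≤ (2 : ℝ) ^ (2 + L * g2 + x1) := by rw [← h2]; exact h1
        _ ≤ (2 : ℝ) ^ (L * (kap0 / 4)) := Real.rpow_le_rpow_of_exponent_le (by norm_num) h3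
    rw [e1]
    have e4 := mul_le_mul_of_nonneg_left e3 (by linarith : (0 : ℝ) ≤ (N : ℝ) ^ s)
    have e5 : (N : ℝ) ^ s * (4 * (N : ℝ) ^ g2 * (q : ℝ) ^ 2 + 1) =
        4 * (N : ℝ) ^ s * (N : ℝ) ^ g2 * (q : ℝ) ^ 2 + (N : ℝ) ^ s := by ring
    linarith

end Pool.Agent.CG
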