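import Pool.Agent.CG.D1c
import Pool.Agent.CG.D2
import Pool.Agent.CG.D3
import Pool.Agent.CG.D4
import Pool.Agent.CG.D5
import Pool.Agent.CG.D6
import Pool.Agent.CG.D7
import Pool.Agent.CG.D8b
import Pool.Agent.CG.D8c
import Pool.Agent.CG.D8d
import Pool.Agent.CG.D8n
import Pool.Agent.CG.S2

/-!
# CG D9: regime II.2 (assembly)
-/

set_option autoImplicit false

namespace Pool.Agent.CG

open Finset Filter

/-- constants -/
private theorem D9_nL : ((nL : ℕ) : ℝ) = 4 * 10 ^ 19 + 1 := by unfold nL; norm_num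

private theorem D9_nM : ((nM : ℕ) : ℝ) = 5 * 10 ^ 19 := by unfold nM; norm_num

private theorem D9_nL1 : 1 ≤ nL := by unfold nL; norm_num

private theorem D9_nM1 : 1 ≤ nM := by unfold nM; norm_num

private theorem D9_win : kap0 / (4 * (nM : ℝ)) = 5 * g2 := by
  rw [D9_nM]; unfold kap0 g2; norm_num

private theorem D9_h1 : 1 ≤ kap0 / 2 + (((nL : ℕ) : ℝ) - 1) * (kap0 / 4) := by
  rw [D9_nL]; unfold kap0; norm_num

/-- the exponent of the support -/
private noncomputable def ex {N q : ℕ} (H : Finset (Fin q → Fin N)) (p : Fin q) : ℝ :=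
  Real.logb 2 ((supp H p).card : ℝ) / LL N

section ex

variable {N q : ℕ} {H : Finset (Fin q → Fin N)}

private theorem supp_pos (hH : H.Nonempty) (p : Fin q) : 0 < (supp H p).card := by
  obtain ⟨a, ha⟩ := hH
  exact card_pos.2 ⟨a p, mem_image.2 ⟨a, ha, rfl⟩⟩

private theorem supp_le (p : Fin q) : (supp H p).card ≤ N := by
  have := card_le_univ (supp H p)
  rwa [Fintype.card_fin] at this

private theorem LL_pos (hN : 2 ≤ N) : 0 < LL N := by
  unfold LL
  exact Real.logb_pos (by norm_num) (by exact_mod_cast (by omega : 1 < N))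

private theorem rpow_LL (hN : 2 ≤ N) (s : ℝ) : (N : ℝ) ^ s = (2:ℝ) ^ (s * LL N) := by
  have hN0 : (0:ℝ) < N := by exact_mod_cast (by omega : 0 < N)
  unfold LL
  rw [mul_comm, Real.rpow_mul (by norm_num), Real.rpow_logb (by norm_num) (by norm_num) hN0]

private theorem logb_rpow_N (hN : 2 ≤ N) (s : ℝ) : Real.logb 2 ((N : ℝ) ^ s) = s * LL N := by
  rw [rpow_LL hN, Real.logb_rpow (by norm_num) (by norm_num)]

private theorem ex_spec (hN : 2 ≤ N) (hH : H.Nonempty) (p : Fin q) :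
    (N : ℝ) ^ (ex H p) = (supp H p).card := by
  have h1 := LL_pos hN
  have h2 : (0:ℝ) < (supp H p).card := by exact_mod_cast supp_pos hH p
  rw [rpow_LL hN]
  unfold ex
  rw [div_mul_cancel₀ _ h1.ne', Real.rpow_logb (by norm_num) (by norm_num) h2]

private theorem ex_le_one (hN : 2 ≤ N) (hH : H.Nonempty) (p : Fin q) : ex H p ≤ 1 := by
  have h1 := LL_pos hN
  have h2 : (0:ℝ) < (supp H p).card := by exact_mod_cast supp_pos hH p
  unfold ex
  rw [div_le_one h1]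
  unfold LL
  apply Real.logb_le_logb_of_le (by norm_num) h2
  exact_mod_cast supp_le p

private theorem ex_le_ex (hN : 2 ≤ N) (hH : H.Nonempty) {p z : Fin q}
    (h : (supp H z).card ≤ (supp H p).card) : ex H z ≤ ex H p := by
  have h1 := LL_pos hN
  have h2 : (0:ℝ) < (supp H z).card := by exact_mod_cast supp_pos hH z
  unfold ex
  refine div_le_div_of_nonneg_right ?_ h1.le
  apply Real.logb_le_logb_of_le (by norm_num) h2
  exact_mod_cast h

end ex


section geom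

variable {N q : ℕ}

private theorem cnt_card_le (C : Finset (Fin q × Fin q)) (a : Fin q → Fin N) :
    (cnt C a).card ≤ q ^ 2 := by
  refine card_image_le.trans ?_
  have := card_le_univ C
  rw [Fintype.card_prod, Fintype.card_fin] at this
  nlinarith only [this]

private theorem lw_cnt_le (σ : St (Sym2 (Fin N))) (C : Finset (Fin q × Fin q))
    (a : Fin q → Fin N) : lw σ (cnt C a) ≤ ((q ^ 2 : ℕ) : ℝ) := by
  refine (lw_le_cl σ _).trans ?_
  exact_mod_cast (cl_le_card σ _).trans (cnt_card_le C a)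

private theorem cnt_subset_ed {C : Finset (Fin q × Fin q)} (hC : ∀ pp ∈ C, pp.1 < pp.2)
    {a : Fin q → Fin N} (ha : Function.Injective a) : cnt C a ⊆ ed (univ.image a) := by
  intro e he
  unfold cnt at he
  rw [mem_image] at he
  obtain ⟨pp, hpp, rfl⟩ := he
  rw [mk_mem_ed]
  refine ⟨mem_image_of_mem _ (mem_univ _), mem_image_of_mem _ (mem_univ _), fun h => ?_⟩
  exact (hC pp hpp).ne (ha h)

open Classical in
private theorem cnt_inter_card_le {H : Finset (Fin q → Fin N)} {C : Finset (Fin q × Fin q)}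
    {F : Finset (Sym2 (Fin N))} {a : Fin q → Fin N}
    (h : ∀ pp ∈ C, s(a pp.1, a pp.2) ∈ F → Hv H pp.1 pp.2 (a pp.1) (a pp.2)) :
    (cnt C a ∩ F).card ≤ (univ.filter (fun pp : Fin q × Fin q =>
      Hv H pp.1 pp.2 (a pp.1) (a pp.2))).card := by
  have : cnt C a ∩ F ⊆ (univ.filter (fun pp : Fin q × Fin q =>
      Hv H pp.1 pp.2 (a pp.1) (a pp.2))).image (fun pp => s(a pp.1, a pp.2)) := by
    intro e he
    rw [mem_inter] at he
    obtain ⟨he1, he2⟩ := he
    unfold cnt at he1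
    rw [mem_image] at he1 ⊢
    obtain ⟨pp, hpp, rfl⟩ := he1
    exact ⟨pp, mem_filter.2 ⟨mem_univ _, h pp hpp he2⟩, rfl⟩
  exact (card_le_card this).trans card_image_le

/-- weight of a near-complete member -/
private theorem lw_GJ {J : ℕ} {σ : St (Sym2 (Fin N))} {A : Finset (Fin N)} (h : A ∈ GJ σ q J) :
    (q.choose 2 : ℝ) - uJ N J - 2 * beta * (J + 1) * q ≤ lw σ (ed A) ∧
      (1.96:ℝ) * J * q ≤ (q.choose 2 : ℝ) ∧ Disjoint (ed A) σ.B ∧ A.card = q := by
  unfold GJ at h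
  rw [mem_filter, mem_powersetCard] at h
  obtain ⟨⟨_, hq⟩, hB, hu, h1, h2⟩ := h
  have h3 := cl_add_card_sdiff σ (ed A)
  rw [card_ed, hq] at h3
  have h3' : (cl σ (ed A) : ℝ) + ((ed A \ σ.M).card : ℝ) = (q.choose 2 : ℝ) := by exact_mod_cast h3
  have hu' : ((ed A \ σ.M).card : ℝ) ≤ uJ N J := by exact_mod_cast hu
  have h4 := dd_le_cl σ (ed A)
  have h4' : (dd σ (ed A) : ℝ) ≤ cl σ (ed A) := by exact_mod_cast h4
  have h5 : (0:ℝ) ≤ ((ed A \ σ.M).card : ℝ) := by positivity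
  have h6 : (dd σ (ed A) : ℝ) ≤ 2 * (J + 1) * q := by exact_mod_cast h2
  have hb := beta_pos
  refine ⟨?_, by linarith only [h1, h3', h4'], hB, hq⟩
  unfold lw
  have : beta * (dd σ (ed A) : ℝ) ≤ beta * (2 * (J + 1) * q) := mul_le_mul_of_nonneg_left h6 hb.le
  nlinarith only [h3', hu', this]

end geom

/-- the levels -/
private theorem om_formula {om : ℕ → ℝ} (hom : ∀ i, om (i + 1) = om i + kap0 / 4) (i : ℕ) :
    om i = om 0 + i * (kap0 / 4) := by
  induction i with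
  | zero => simp
  | succ i ih => rw [hom, ih]; push_cast; ring

private theorem kap0_pos : 0 < kap0 := by unfold kap0; norm_num

private theorem om_mono {om : ℕ → ℝ} (hom : ∀ i, om (i + 1) = om i + kap0 / 4) {i j : ℕ}
    (h : i ≤ j) : om i ≤ om j := by
  rw [om_formula hom i, om_formula hom j]
  have : (i:ℝ) ≤ j := by exact_mod_cast h
  have := kap0_pos
  nlinarith

private theorem om_le_two {om : ℕ → ℝ} (hom : ∀ i, om (i + 1) = om i + kap0 / 4)
    (h0 : om 0 ≤ kap0) {i : ℕ} (hi : i < nL) : om i ≤ 2 := by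
  rw [om_formula hom i]
  have h1 : (i:ℝ) ≤ 4 * 10 ^ 19 := by
    have : i ≤ 4 * 10 ^ 19 := by unfold nL at hi; omega
    exact_mod_cast this
  have h2 : kap0 = 1 / 10 ^ 19 := rfl
  rw [h2] at h0 ⊢
  nlinarith only [h0, h1]


open Classical in
/-- the combinatorial core -/
private theorem D9_core {N q J : ℕ} (hN2 : 2 ≤ N) (hq1 : 1 ≤ q) (hq2 : (q:ℝ) ≤ 2 * LL N)
    (e1 : (2:ℝ) ^ (-(5 * LL N)) ≤ 1 / 4)
    (e2 : 8 * nL * (q:ℝ) ^ 4 * (N:ℝ) ^ (-g2) * ((q:ℝ) ^ 2 + 1) ^ nL ≤ 1 / 4)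
    (e3 : ∀ s : ℝ, kap0 / 2 ≤ s →
      4 * (N:ℝ) ^ s * (N:ℝ) ^ g2 * (q:ℝ) ^ 2 + 1 ≤ (N:ℝ) ^ (s + kap0 / 4))
    (hsn : ∀ k lam : ℕ, (k:ℝ) ≤ 0.6 * LL N + 2 → (lam:ℝ) ≤ 0.6 * LL N + 1 →
      2 * N * (2:ℝ) ^ (-(lam:ℝ)) + 2 * k * ((k + 22) * LL N + 1) ≤ 4 * N * (2:ℝ) ^ (-(lam:ℝ)))
    (hhv : ∀ G : Finset (Fin q → Fin N), G.Nonempty → Ent G →
      ((G.filter (fun a => tau2 N < ((univ.filter (fun pp : Fin q × Fin q =>
      Hv G pp.1 pp.2 (a pp.1) (a pp.2))).card : ℝ))).card : ℝ) ≤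
        (2:ℝ) ^ (-(5 * LL N)) * G.card)
    (σ : St (Sym2 (Fin N))) (k : ℕ) (hk : (k:ℝ) ≤ 0.6 * LL N + 1)
    (hver : ∀ E : Finset (Fin N), E.card ≤ k → ∀ l : ℝ,
      ((univ.filter (fun v => v ∉ E ∧ Disjoint (star E v) σ.B ∧ l ≤ lw σ (star E v))).card : ℝ) ≤
        2 * N * (2:ℝ) ^ (-l) + 2 * k * ((k + 22) * LL N + 1))
    (hlev : ∀ m : ℕ, 1 ≤ m → m ≤ N ^ 2 →
      ∀ (lev : Fin q → Fin nL) (rule : Fin q → Option (Fin q × Fin q))
        (Cn : Fin nL → Finset (Fin q × Fin q)) (l : Fin nL → ℕ) (x : Fin N)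
        (R : Fin q → Finset (Fin N)) (F : Fin nL → Finset (Sym2 (Fin N))) (i : Fin nL),
      (∀ j, l j ≤ q ^ 2) → (∀ p, lev p ≤ i → (R p).card ≤ m) →
      (∀ j < i, ∀ pp ∈ Cn j, lev pp.1 ≤ j ∧ lev pp.2 ≤ j ∧
        (R pp.1).card * (R pp.2).card ≤ m) →
      (∀ j < i, (F j).card ≤ m) →
      ∃ Fi : Finset (Sym2 (Fin N)), (Fi.card : ℝ) ≤ 4 * m * (N:ℝ) ^ g2 * (q:ℝ) ^ 2 ∧
        (((PT σ lev rule Cn l x R F (tau2 N) (i + 1) i).filter
          (fun b => WinOK σ (Cn i) (l i) Fi (tau2 N) b)).card : ℝ) *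
            (2:ℝ) ^ ((l i : ℝ) - tau2 N) ≤
        4 * ((PT σ lev rule Cn l x R F (tau2 N) (i + 1) i).card : ℝ))
    (E : Finset (Fin N)) (hEk : E.card + 1 ≤ k) (G : Finset (Finset (Fin N)))
    (hG : G ⊆ GJ σ q J) (hEG : ∀ A ∈ G, E ⊆ A) (hne : G.Nonempty)
    (hspr : Spr ((N:ℝ) ^ (-kap0)) N G E) :
    ∃ (k' D : ℕ) (U P0 err : ℝ), 1 ≤ k' ∧ (k':ℝ) ≤ 0.6 * LL N + 1 ∧
      k' + D ≤ q ∧ (1.96:ℝ) * J * q ≤ (q.choose 2 : ℝ) ∧ (5.88:ℝ) * J + 3 ≤ 6 * D + 3 * k' ∧
      err = LL N + q * Real.logb 2 ((q:ℝ) ^ 2 + 1) + q * Real.logb 2 ((q:ℝ) + 1) +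
        10 * q / (kap2 * g2) + nL * Real.logb 2 ((q:ℝ) ^ 2 + 1) + 2 ∧
      0 ≤ P0 ∧ P0 * (kap0 / 2) * LL N ≤ err ∧ U ≤ 2 * q * P0 + (q:ℝ) ^ 2 / nM ∧
      Real.logb 2 (G.card : ℝ) - uJ N J ≤
        err + 3 * nL + 3 * q + nL * tau2 N + U + ((q:ℝ) - k' - D) * LL N + D * k' -
        (q.choose 2 : ℝ) + (k'.choose 2 : ℝ) + 2 * beta * (J + 1) * q := by
  have hLpos := LL_pos hN2
  have hN0 : (0:ℝ) < N := by exact_mod_cast (by omega : 0 < N)
  have hN1 : (1:ℝ) ≤ N := by exact_mod_cast (by omega : 1 ≤ N)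
  -- labelled family
  obtain ⟨x, k', p0, T, rho, lam, ht⟩ := tuples (q := q) (J := J) (by omega) hq1 σ E G hG hEG hne
  have hTne : T.Nonempty := by
    by_contra h0
    rw [not_nonempty_iff_eq_empty] at h0
    have := ht.big
    rw [h0, card_empty, mul_zero] at this
    exact absurd (card_pos.2 hne) (by omega)
  obtain ⟨H, hHT, hHne, hEnt, hHlog⟩ := entExists hN2 T hTne
  have hk'k : k' ≤ k := by
    rw [← ht.hk]
    exact (card_insert_le _ _).trans hEk
  have hk'1 : 1 ≤ k' := by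
    have := ht.hp0
    omega
  have hk'L : (k':ℝ) ≤ 0.6 * LL N + 1 := by
    have : (k':ℝ) ≤ k := by exact_mod_cast hk'k
    linarith only [hk, this]
  have hAq : ∀ a ∈ T, (univ.image a).card = q := fun a ha => (lw_GJ (hG (ht.img a ha))).2.2.2
  have hsmall : ∀ a ∈ H, ∀ p : Fin q, k' ≤ (p:ℕ) → a p ∉ insert x E := by
    intro a ha p hp hmem
    have := (ht.ker a (hHT ha) p).1 hmem
    omega
  -- exponents and small supports
  set P := univ.filter (fun p : Fin q => k' ≤ (p:ℕ) ∧ kap0 / 2 < ex H p) with hPdef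
  set Q := univ.filter (fun p : Fin q => k' ≤ (p:ℕ) ∧ ex H p ≤ kap0 / 2) with hQdef
  have hfew : (H.card : ℝ) ≤ (N:ℝ) ^ (-(kap0 / 2) * (Q.card : ℝ)) * G.card := by
    apply fewSmall (by omega) E G hspr H (fun a ha => ht.inj a (hHT ha))
      (fun a ha => ht.img a (hHT ha)) (ht.io.mono (by exact_mod_cast hHT)) Q
    · intro a ha p hp hE
      exact hsmall a ha p (mem_filter.1 hp).2.1 (mem_insert_of_mem hE)
    · intro p hp
      rw [← ex_spec hN2 hHne]
      exact Real.rpow_le_rpow_of_exponent_le hN1 (mem_filter.1 hp).2.2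
  -- windows
  obtain ⟨om, lev, Cn, hom, hom0, hom1, hlev1, hlev2, hCn, hdis, hgap⟩ :=
    windows (n := nL) (M := nM) D9_nL1 D9_nM1 D9_h1 (ex H) (fun p => ex_le_one hN2 hHne p) P
      (fun p hp => (mem_filter.1 hp).2.2)
  -- determined positions
  obtain ⟨rule, ord, hrule, hcount⟩ := rules k' p0 ht.hp0 rho lev (by
    intro p z w h
    have h1 := ht.rho_spec p z w h
    have h2 := suppMono σ x H p z w (fun a ha => h1.2.2.2.2 a (hHT ha))
    exact ⟨h1.1, h1.2.1, h1.2.2.1, h1.2.2.2.1, hlev2 p z (ex_le_ex hN2 hHne h2.1),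
      hlev2 p w (ex_le_ex hN2 hHne h2.2)⟩)
  have hrule' : ∀ p z w, rule p = some (z, w) →
      ord z < ord p ∧ ord w < ord p ∧ lev z ≤ lev p ∧ lev w ≤ lev p := by
    intro p z w h
    have h0 := hrule p z w h
    have h1 := ht.rho_spec p z w h0.1
    have h2 := suppMono σ x H p z w (fun a ha => h1.2.2.2.2 a (hHT ha))
    exact ⟨h0.2.1, h0.2.2, hlev2 p z (ex_le_ex hN2 hHne h2.1), hlev2 p w (ex_le_ex hN2 hHne h2.2)⟩
  -- remove the tuples with many heavy pairs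
  set H' := H.filter (fun a => ¬ (tau2 N < ((univ.filter (fun pp : Fin q × Fin q =>
      Hv H pp.1 pp.2 (a pp.1) (a pp.2))).card : ℝ))) with hH'def
  have hH'card : (3 / 4 : ℝ) * H.card ≤ H'.card := by
    have h1 := hhv H hHne hEnt
    have h2 := card_filter_add_card_filter_not (s := H) (fun a => tau2 N <
      ((univ.filter (fun pp : Fin q × Fin q => Hv H pp.1 pp.2 (a pp.1) (a pp.2))).card : ℝ))
    have h2' : ((H.filter (fun a => tau2 N < ((univ.filter (fun pp : Fin q × Fin q =>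
      Hv H pp.1 pp.2 (a pp.1) (a pp.2))).card : ℝ))).card : ℝ) + H'.card = H.card := by
      exact_mod_cast h2
    have h3 : (2:ℝ) ^ (-(5 * LL N)) * (H.card : ℝ) ≤ 1 / 4 * H.card :=
      mul_le_mul_of_nonneg_right e1 (by positivity)
    linarith only [h1, h2', h3]
  -- popular floors
  set f : (Fin q → Fin N) → (Fin nL → Fin (q ^ 2 + 1)) := fun a i =>
    ⟨min ⌊lw σ (cnt (Cn i) a)⌋₊ (q ^ 2), by omega⟩ with hfdef
  obtain ⟨y, hy⟩ := popular H' f
  set H2 := H'.filter (fun a => f a = y) with hH2def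
  set l : Fin nL → ℕ := fun i => (y i : ℕ) with hldef
  have hlq : ∀ j, l j ≤ q ^ 2 := fun j => by have := (y j).isLt; simp only [hldef]; omega
  have hlspec : ∀ a ∈ H2, ∀ i, (l i : ℝ) ≤ lw σ (cnt (Cn i) a) ∧
      lw σ (cnt (Cn i) a) < l i + 1 := by
    intro a ha i
    have h1 := (mem_filter.1 ha).2
    have h2 : (l i) = min ⌊lw σ (cnt (Cn i) a)⌋₊ (q ^ 2) := by
      have := congrFun h1 i
      rw [hldef]
      simp only
      rw [← this]
    have h3 := lw_cnt_le σ (Cn i) a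
    have h4 : ⌊lw σ (cnt (Cn i) a)⌋₊ ≤ q ^ 2 := Nat.floor_le_of_le h3
    rw [min_eq_left h4] at h2
    rw [h2]
    exact ⟨Nat.floor_le (lw_nonneg σ _), Nat.lt_floor_add_one _⟩
  -- the chain
  have hfl : ∀ i : Fin nL, ((⌊(N:ℝ) ^ (om i)⌋₊ : ℕ) : ℝ) ≤ (N:ℝ) ^ (om i) := fun i =>
    Nat.floor_le (by positivity)
  have hfl1 : ∀ i : Fin nL, 1 ≤ ⌊(N:ℝ) ^ (om i)⌋₊ := by
    intro i
    apply Nat.le_floor
    rw [Nat.cast_one]
    apply Real.one_le_rpow hN1
    have := om_mono hom (Nat.zero_le (i:ℕ))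
    have := kap0_pos
    linarith
  have hstep : ∀ (i : Fin nL) (F : Fin nL → Finset (Sym2 (Fin N))),
      (∀ j < i, ((F j).card : ℝ) ≤ 4 * ((⌊(N:ℝ) ^ (om j)⌋₊ : ℕ) : ℝ) * (N:ℝ) ^ g2 * (q:ℝ) ^ 2) →
      ∃ Fi : Finset (Sym2 (Fin N)),
        (Fi.card : ℝ) ≤ 4 * ((⌊(N:ℝ) ^ (om i)⌋₊ : ℕ) : ℝ) * (N:ℝ) ^ g2 * (q:ℝ) ^ 2 ∧
        (((PT σ lev rule Cn l x (supp H) F (tau2 N) (i + 1) i).filter
          (fun b => WinOK σ (Cn i) (l i) Fi (tau2 N) b)).card : ℝ) *
            (2:ℝ) ^ ((l i : ℝ) - tau2 N) ≤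
        4 * ((PT σ lev rule Cn l x (supp H) F (tau2 N) (i + 1) i).card : ℝ) := by
    intro i F hF
    apply hlev ⌊(N:ℝ) ^ (om i)⌋₊ (hfl1 i) _ lev rule Cn l x (supp H) F i hlq
    · intro p hp
      apply Nat.le_floor
      rw [← ex_spec hN2 hHne]
      apply Real.rpow_le_rpow_of_exponent_le hN1
      exact (hlev1 p).trans (om_mono hom hp)
    · intro j hj pp hpp
      have h1 := hCn j pp hpp
      refine ⟨h1.2.2.2.1, h1.2.2.2.2.1, ?_⟩
      apply Nat.le_floor
      rw [Nat.cast_mul, ← ex_spec hN2 hHne, ← ex_spec hN2 hHne, ← Real.rpow_add hN0]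
      apply Real.rpow_le_rpow_of_exponent_le hN1
      have hji : (j:ℕ) + 1 ≤ i := hj
      have := h1.2.2.2.2.2.2 (by have := i.isLt; omega)
      exact this.trans (om_mono hom hji)
    · intro j hj
      apply Nat.le_floor
      refine (hF j hj).trans ?_
      have h1 := hfl j
      have h2 := e3 (om j) (hom0.trans (om_mono hom (Nat.zero_le _)))
      rw [← hom] at h2
      have hji : (j:ℕ) + 1 ≤ i := hj
      have h3 : (N:ℝ) ^ (om ((j:ℕ) + 1)) ≤ (N:ℝ) ^ (om i) :=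
        Real.rpow_le_rpow_of_exponent_le hN1 (om_mono hom hji)
      have h4 : 4 * ((⌊(N:ℝ) ^ (om j)⌋₊ : ℕ) : ℝ) * (N:ℝ) ^ g2 * (q:ℝ) ^ 2 ≤
          4 * (N:ℝ) ^ (om j) * (N:ℝ) ^ g2 * (q:ℝ) ^ 2 := by gcongr
      linarith only [h2, h3, h4]
    · have h1 : ((⌊(N:ℝ) ^ (om i)⌋₊ : ℕ) : ℝ) ≤ ((N ^ 2 : ℕ) : ℝ) := by
        refine (hfl i).trans ?_
        have : (N:ℝ) ^ (om i) ≤ (N:ℝ) ^ (2:ℝ) :=
          Real.rpow_le_rpow_of_exponent_le hN1 (om_le_two hom hom1 i.isLt)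
        rw [Real.rpow_two] at this
        push_cast
        exact this
      exact_mod_cast h1
  have hClev : ∀ j, ∀ pp ∈ Cn j, lev pp.1 ≤ j ∧ lev pp.2 ≤ j := fun j pp hpp =>
    ⟨(hCn j pp hpp).2.2.2.1, (hCn j pp hpp).2.2.2.2.1⟩
  obtain ⟨F, hF, hchain⟩ := chain σ lev rule Cn l x (supp H) (tau2 N) ord
    (fun i => 4 * ((⌊(N:ℝ) ^ (om i)⌋₊ : ℕ) : ℝ) * (N:ℝ) ^ g2 * (q:ℝ) ^ 2) hrule' hClev hstep
  -- sparse transfer
  have hsp := sparse (by omega) H hHne Cn F (fun i => ((⌊(N:ℝ) ^ (om i)⌋₊ : ℕ) : ℝ))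
    (fun i => by
      have := hfl1 i
      show (0:ℝ) < ((⌊(N:ℝ) ^ (om i)⌋₊ : ℕ) : ℝ)
      exact_mod_cast (by omega : 0 < ⌊(N:ℝ) ^ (om i)⌋₊)) hF
    (by
      intro i pp hpp
      have h1 := (hCn i pp hpp).2.2.2.2.2.1
      rw [D9_win] at h1
      rw [← ex_spec hN2 hHne, ← ex_spec hN2 hHne, ← Real.rpow_add hN0]
      calc ((⌊(N:ℝ) ^ (om i)⌋₊ : ℕ) : ℝ) * (N:ℝ) ^ (5 * g2)
          ≤ (N:ℝ) ^ (om i) * (N:ℝ) ^ (5 * g2) := by
            gcongr
            exact hfl i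
        _ = (N:ℝ) ^ (om i + 5 * g2) := by rw [Real.rpow_add hN0]
        _ ≤ _ := Real.rpow_le_rpow_of_exponent_le hN1 h1.le)
  set Bad := H.filter (fun a => ∃ i, ∃ pp ∈ Cn i, s(a pp.1, a pp.2) ∈ F i ∧
      ¬ Hv H pp.1 pp.2 (a pp.1) (a pp.2)) with hBad
  set H3 := H2 \ Bad with hH3
  have hH2H : ∀ a ∈ H2, a ∈ H := fun a ha => (mem_filter.1 (mem_filter.1 ha).1).1
  have hHc : (0:ℝ) < H.card := by exact_mod_cast card_pos.2 hHne
  have hQ0 : (0:ℝ) < ((q:ℝ) ^ 2 + 1) ^ nL := by positivity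
  have hH3card : (H.card : ℝ) / (2 * ((q:ℝ) ^ 2 + 1) ^ nL) ≤ H3.card := by
    have h1 : (H'.card : ℝ) ≤ ((q:ℝ) ^ 2 + 1) ^ nL * H2.card := by
      have : Fintype.card (Fin nL → Fin (q ^ 2 + 1)) = (q ^ 2 + 1) ^ nL := by
        rw [Fintype.card_fun, Fintype.card_fin, Fintype.card_fin]
      rw [this] at hy
      exact_mod_cast hy
    have h2 : (H2.card : ℝ) - Bad.card ≤ H3.card := by
      have := le_card_sdiff Bad H2
      rw [← hH3] at this
      have h3 : H2.card ≤ H3.card + Bad.card := by omega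
      have h3' : (H2.card : ℝ) ≤ H3.card + Bad.card := by exact_mod_cast h3
      linarith only [h3']
    have h4 : (3 / 4 : ℝ) * H.card / ((q:ℝ) ^ 2 + 1) ^ nL ≤ H2.card := by
      rw [div_le_iff₀ hQ0]
      linarith only [hH'card, h1]
    have h5 : (Bad.card : ℝ) ≤ 1 / 4 * H.card / ((q:ℝ) ^ 2 + 1) ^ nL := by
      rw [le_div_iff₀ hQ0]
      calc (Bad.card : ℝ) * ((q:ℝ) ^ 2 + 1) ^ nL
          ≤ (8 * nL * (q:ℝ) ^ 4 * (N:ℝ) ^ (-g2) * H.card) * ((q:ℝ) ^ 2 + 1) ^ nL := by gcongr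
        _ = (8 * nL * (q:ℝ) ^ 4 * (N:ℝ) ^ (-g2) * ((q:ℝ) ^ 2 + 1) ^ nL) * H.card := by ring
        _ ≤ 1 / 4 * H.card := by gcongr
    have h6 : (H.card : ℝ) / (2 * ((q:ℝ) ^ 2 + 1) ^ nL) =
        (3 / 4 : ℝ) * H.card / ((q:ℝ) ^ 2 + 1) ^ nL - 1 / 4 * H.card / ((q:ℝ) ^ 2 + 1) ^ nL := by
      field_simp
      ring
    rw [h6]
    linarith only [h2, h4, h5]
  have hH3ne : H3.Nonempty := by
    rw [← card_pos]
    have : (0:ℝ) < H3.card := lt_of_lt_of_le (by positivity) hH3card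
    exact_mod_cast this
  have hClt : ∀ j, ∀ pp ∈ Cn j, pp.1 < pp.2 := fun j pp hpp => (hCn j pp hpp).2.2.1
  -- the good tuples are counted by the chain
  have hH3PT : H3 ⊆ PT σ lev rule Cn l x (supp H) F (tau2 N) nL nL := by
    intro a ha
    rw [hH3, Finset.mem_sdiff] at ha
    have haH := hH2H a ha.1
    have haT := hHT haH
    unfold PT
    rw [mem_filter]
    refine ⟨mem_univ _, fun p _ => mem_image.2 ⟨a, haH, rfl⟩,
      fun p hp => absurd (lev p).isLt (by omega), ?_, ?_⟩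
    · intro p z w _ h
      exact ((ht.rho_spec p z w (hrule p z w h).1).2.2.2.2 a haT).1
    · intro j _
      refine ⟨?_, (hlspec a ha.1 j).1, ?_⟩
      · exact disjoint_of_subset_left (cnt_subset_ed (hClt j) (ht.inj a haT))
          (lw_GJ (hG (ht.img a haT))).2.2.1
      · have h1 := (mem_filter.1 (mem_filter.1 ha.1).1).2
        push Not at h1
        refine le_trans ?_ h1
        have h2 : ∀ pp ∈ Cn j, s(a pp.1, a pp.2) ∈ F j → Hv H pp.1 pp.2 (a pp.1) (a pp.2) := by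
          intro pp hpp hF'
          by_contra hc
          exact ha.2 (mem_filter.2 ⟨haH, j, pp, hpp, hF', hc⟩)
        exact_mod_cast cnt_inter_card_le h2
  -- logarithms
  set X := Real.logb 2 (H3.card : ℝ) with hX
  have hH3c : (0:ℝ) < H3.card := by exact_mod_cast card_pos.2 hH3ne
  have hGc : (0:ℝ) < G.card := by exact_mod_cast card_pos.2 hne
  have hTc : (0:ℝ) < T.card := by exact_mod_cast card_pos.2 hTne
  have hX1 : Real.logb 2 (H.card : ℝ) - 1 - nL * Real.logb 2 ((q:ℝ) ^ 2 + 1) ≤ X := by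
    have h1 := Real.logb_le_logb_of_le (b := 2) (by norm_num) (by positivity) hH3card
    rw [Real.logb_div hHc.ne' (by positivity), Real.logb_mul (by norm_num) hQ0.ne',
      Real.logb_pow, Real.logb_self_eq_one (by norm_num)] at h1
    linarith only [h1]
  have hXT : Real.logb 2 (G.card : ℝ) ≤ LL N + q * Real.logb 2 ((q:ℝ) ^ 2 + 1) +
      q * Real.logb 2 ((q:ℝ) + 1) + Real.logb 2 (T.card : ℝ) := by
    have h0 : (G.card : ℝ) ≤ N * (((q:ℝ) ^ 2 + 1) ^ q * ((q:ℝ) + 1) ^ q) * T.card := by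
      exact_mod_cast ht.big
    have h1 := Real.logb_le_logb_of_le (b := 2) (by norm_num) hGc h0
    rw [Real.logb_mul (by positivity) hTc.ne', Real.logb_mul hN0.ne' (by positivity),
      Real.logb_mul (by positivity) (by positivity), Real.logb_pow, Real.logb_pow] at h1
    unfold LL
    linarith only [h1]
  have hnn1 : 0 ≤ Real.logb 2 ((q:ℝ) ^ 2 + 1) :=
    Real.logb_nonneg (by norm_num) (le_add_of_nonneg_left (sq_nonneg _))
  have hfewlog : (Q.card : ℝ) * (kap0 / 2) * LL N ≤ Real.logb 2 (G.card : ℝ) -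
      Real.logb 2 (H.card : ℝ) := by
    have h1 := Real.logb_le_logb_of_le (b := 2) (by norm_num) hHc hfew
    rw [Real.logb_mul (by positivity) hGc.ne', logb_rpow_N hN2] at h1
    linarith only [h1]
  have hchain2 : X + ∑ j, ((l j : ℝ) - tau2 N) ≤ 2 * nL +
      ∑ p ∈ univ.filter (fun p => rule p = none), Real.logb 2 ((supp H p).card : ℝ) := by
    have h1 : (H3.card : ℝ) * (2:ℝ) ^ (∑ j, ((l j : ℝ) - tau2 N)) ≤
        4 ^ nL * ∏ p ∈ univ.filter (fun p => rule p = none), ((supp H p).card : ℝ) := by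
      refine le_trans ?_ hchain
      have : (H3.card : ℝ) ≤ ((PT σ lev rule Cn l x (supp H) F (tau2 N) nL nL).card : ℝ) := by
        exact_mod_cast card_le_card hH3PT
      gcongr
    have hprod : ∀ p ∈ univ.filter (fun p => rule p = none), ((supp H p).card : ℝ) ≠ 0 := by
      intro p _
      have := supp_pos hHne p
      positivity
    have h2 := Real.logb_le_logb_of_le (b := 2) (by norm_num) (by positivity) h1
    have hprod0 : ∏ p ∈ univ.filter (fun p => rule p = none), ((supp H p).card : ℝ) ≠ 0 :=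
      prod_ne_zero_iff.2 hprod
    rw [Real.logb_mul hH3c.ne' (by positivity), Real.logb_rpow (by norm_num) (by norm_num),
      Real.logb_mul (by positivity) hprod0, Real.logb_pow,
      Real.logb_prod _ _ hprod] at h2
    have h4 : Real.logb 2 4 = 2 := by
      rw [show (4:ℝ) = 2 ^ (2:ℕ) by norm_num, Real.logb_pow, Real.logb_self_eq_one (by norm_num)]
      norm_num
    rw [h4] at h2
    linarith only [h2]
  -- the supports
  have hsupp : ∀ p : Fin q, k' ≤ (p:ℕ) →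
      Real.logb 2 ((supp H p).card : ℝ) ≤ 2 + LL N - lam p := by
    intro p hp
    have h1 := suppCard σ (insert x E) H p (lam p : ℝ) (by
      intro a ha
      refine ⟨hsmall a ha p hp, ?_, (ht.lam_spec a (hHT ha) p hp).1⟩
      have haT := hHT ha
      refine disjoint_of_subset_left ?_ (lw_GJ (hG (ht.img a haT))).2.2.1
      apply star_subset_ed (ht.sub a haT)
      rw [Finset.mem_sdiff]
      exact ⟨mem_image_of_mem _ (mem_univ _), hsmall a ha p hp⟩)
    have h2 := hver (insert x E) (by rw [ht.hk]; exact hk'k) (lam p : ℝ)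
    have h3 := hsn k (lam p) (by linarith only [hk]) (by
      have h4 : (lam p : ℝ) ≤ k' := by exact_mod_cast ht.lam_le p
      linarith only [hk'L, h4])
    have h5 : ((supp H p).card : ℝ) ≤ 4 * N * (2:ℝ) ^ (-(lam p : ℝ)) := by
      have : ((supp H p).card : ℝ) ≤ ((univ.filter (fun v => v ∉ insert x E ∧
        Disjoint (star (insert x E) v) σ.B ∧ (lam p : ℝ) ≤ lw σ (star (insert x E) v))).card : ℝ) := by
        exact_mod_cast h1
      linarith only [h2, h3, this]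
    have h6 := Real.logb_le_logb_of_le (b := 2) (by norm_num)
      (by exact_mod_cast supp_pos hHne p) h5
    rw [Real.logb_mul (by positivity) (by positivity), Real.logb_mul (by norm_num) hN0.ne',
      Real.logb_rpow (by norm_num) (by norm_num)] at h6
    have h4 : Real.logb 2 4 = 2 := by
      rw [show (4:ℝ) = 2 ^ (2:ℕ) by norm_num, Real.logb_pow, Real.logb_self_eq_one (by norm_num)]
      norm_num
    rw [h4] at h6
    unfold LL
    linarith only [h6]
  have hsupp0 : ∀ p : Fin q, (p:ℕ) < k' → Real.logb 2 ((supp H p).card : ℝ) = 0 := by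
    intro p hp
    have h1 : (supp H p).card ≤ 1 := by
      rw [card_le_one]
      intro u hu v hv
      unfold supp at hu hv
      rw [mem_image] at hu hv
      obtain ⟨a, ha, rfl⟩ := hu
      obtain ⟨b, hb, rfl⟩ := hv
      exact ht.fix a (hHT ha) b (hHT hb) p hp
    have h2 := supp_pos hHne p
    have h3 : (supp H p).card = 1 := by omega
    rw [h3]; simp
  -- positions
  have hrulek : ∀ p, rule p ≠ none → k' ≤ (p:ℕ) := by
    intro p hp
    obtain ⟨zw, hzw⟩ := Option.ne_none_iff_exists'.1 hp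
    exact (ht.rho_spec p zw.1 zw.2 (hrule p zw.1 zw.2 hzw).1).1
  set D := (univ.filter (fun p => rule p ≠ none)).card with hD
  set S := univ.filter (fun p : Fin q => k' ≤ (p:ℕ)) with hS
  have hk'q : k' ≤ q := by
    obtain ⟨a, ha⟩ := hTne
    have := card_le_card (ht.sub a ha)
    rw [ht.hk, hAq a ha] at this
    exact this
  have hScard : S.card = q - k' := by
    have h1 : univ.filter (fun p : Fin q => (p:ℕ) < k') = (univ : Finset (Fin k')).map
        (Fin.castLEEmb hk'q) := by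
      ext p
      simp only [mem_filter, mem_univ, true_and, Finset.mem_map]
      constructor
      · intro hp
        exact ⟨⟨p, hp⟩, by ext; simp⟩
      · rintro ⟨i, rfl⟩
        simp
    have h2 := card_filter_add_card_filter_not (s := (univ : Finset (Fin q)))
      (fun p : Fin q => (p:ℕ) < k')
    rw [h1, card_map, card_univ, card_univ, Fintype.card_fin, Fintype.card_fin] at h2
    have h3 : S = univ.filter (fun p : Fin q => ¬ (p:ℕ) < k') := by
      rw [hS]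
      apply filter_congr
      intro p _
      exact not_lt.symm
    rw [h3]
    omega
  have hSsplit : (S.filter (fun p => rule p = none)).card + D = q - k' := by
    rw [← hScard]
    have h2 := card_filter_add_card_filter_not (s := S) (fun p => rule p = none)
    rw [← h2]
    congr 1
    rw [hD]
    congr 1
    ext p
    simp only [mem_filter, mem_univ, true_and, hS]
    exact ⟨fun h => ⟨hrulek p h, h⟩, fun h => h.2⟩
  -- the sum over the supports
  have hR : ∑ p ∈ univ.filter (fun p => rule p = none), Real.logb 2 ((supp H p).card : ℝ) ≤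
      ∑ p ∈ S.filter (fun p => rule p = none), (2 + LL N - (lam p : ℝ)) := by
    have h1 : ∑ p ∈ univ.filter (fun p => rule p = none), Real.logb 2 ((supp H p).card : ℝ) =
        ∑ p ∈ S.filter (fun p => rule p = none), Real.logb 2 ((supp H p).card : ℝ) := by
      symm
      apply sum_subset
      · intro p hp
        rw [mem_filter] at hp ⊢
        exact ⟨mem_univ _, hp.2⟩
      · intro p hp hp'
        apply hsupp0
        by_contra hc
        apply hp'
        rw [mem_filter, hS, mem_filter]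
        exact ⟨⟨mem_univ _, by omega⟩, (mem_filter.1 hp).2⟩
    rw [h1]
    refine sum_le_sum fun p hp => hsupp p ?_
    exact (mem_filter.1 (mem_filter.1 hp).1).2
  have hR2 : ∑ p ∈ S.filter (fun p => rule p = none), (2 + LL N - (lam p : ℝ)) =
      ((q:ℝ) - k' - D) * (2 + LL N) - ∑ p ∈ S.filter (fun p => rule p = none), (lam p : ℝ) := by
    rw [sum_sub_distrib, sum_const, nsmul_eq_mul]
    have h1 : ((S.filter (fun p => rule p = none)).card : ℝ) = (q:ℝ) - k' - D := by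
      have h2 : (S.filter (fun p => rule p = none)).card + D + k' = q := by omega
      have h3 : ((S.filter (fun p => rule p = none)).card : ℝ) + D + k' = q := by exact_mod_cast h2
      linarith only [h3]
    rw [h1]
  have hLam : ∑ p ∈ S, (lam p : ℝ) ≤
      ∑ p ∈ S.filter (fun p => rule p = none), (lam p : ℝ) + D * k' := by
    rw [← sum_filter_add_sum_filter_not S (fun p => rule p = none)]
    have h1 : ∑ p ∈ S.filter (fun p => ¬ rule p = none), (lam p : ℝ) ≤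
        ∑ p ∈ S.filter (fun p => ¬ rule p = none), (k' : ℝ) :=
      sum_le_sum fun p _ => by exact_mod_cast ht.lam_le p
    rw [sum_const, nsmul_eq_mul] at h1
    have h2 : ((S.filter (fun p => ¬ rule p = none)).card : ℝ) ≤ D := by
      have : (S.filter (fun p => ¬ rule p = none)).card ≤ D := by
        rw [hD]
        apply card_le_card
        intro p hp
        rw [mem_filter] at hp ⊢
        exact ⟨mem_univ _, hp.2⟩
      exact_mod_cast this
    have h3 : ((S.filter (fun p => ¬ rule p = none)).card : ℝ) * k' ≤ D * k' := by gcongr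
    linarith only [h1, h3]
  -- the weight of one good member
  obtain ⟨a, ha⟩ := hH3ne
  have ha2 : a ∈ H2 := (Finset.mem_sdiff.1 ha).1
  have haH := hH2H a ha2
  have haT := hHT haH
  have hA := lw_GJ (hG (ht.img a haT))
  have hlw := lwSum σ a (ht.inj a haT) (insert x E) k' ht.hk (ht.sub a haT) (ht.ker a haT) Cn
    (fun i pp hpp => ⟨(mem_filter.1 (hCn i pp hpp).1).2.1, (mem_filter.1 (hCn i pp hpp).2.1).2.1,
      (hCn i pp hpp).2.2.1⟩) hdis
  rw [← hS] at hlw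
  set U := ((univ.filter (fun pp : Fin q × Fin q => k' ≤ (pp.1 : ℕ) ∧ k' ≤ (pp.2 : ℕ) ∧
    pp.1 < pp.2 ∧ ∀ i, pp ∉ Cn i)).card : ℝ) with hU
  have hstar : ∑ p ∈ S, lw σ (star (insert x E) (a p)) ≤ ∑ p ∈ S, (lam p : ℝ) + q := by
    have h1 : ∑ p ∈ S, lw σ (star (insert x E) (a p)) ≤ ∑ p ∈ S, ((lam p : ℝ) + 1) :=
      sum_le_sum fun p hp => ((ht.lam_spec a haT p (mem_filter.1 hp).2).2).le
    rw [sum_add_distrib, sum_const, nsmul_eq_mul, mul_one] at h1
    have h2 : (S.card : ℝ) ≤ q := by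
      have : S.card ≤ q := by omega
      exact_mod_cast this
    linarith only [h1, h2]
  have hcntsum : ∑ i, lw σ (cnt (Cn i) a) ≤ ∑ i, (l i : ℝ) + nL := by
    have h1 : ∑ i, lw σ (cnt (Cn i) a) ≤ ∑ i : Fin nL, ((l i : ℝ) + 1) :=
      sum_le_sum fun i _ => (hlspec a ha2 i).2.le
    rw [sum_add_distrib, sum_const, nsmul_eq_mul, mul_one, card_univ, Fintype.card_fin] at h1
    exact h1
  have hlsum : ∑ j, ((l j : ℝ) - tau2 N) = ∑ j, (l j : ℝ) - nL * tau2 N := by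
    rw [sum_sub_distrib, sum_const, nsmul_eq_mul, card_univ, Fintype.card_fin]
  -- uncovered pairs
  have hUb : U ≤ 2 * q * (Q.card : ℝ) + (q:ℝ) ^ 2 / nM := by
    set Gp := (P ×ˢ P).filter (fun pp => pp.1 < pp.2 ∧ ∀ i, pp ∉ Cn i) with hGp
    have h1 : univ.filter (fun pp : Fin q × Fin q => k' ≤ (pp.1 : ℕ) ∧ k' ≤ (pp.2 : ℕ) ∧
        pp.1 < pp.2 ∧ ∀ i, pp ∉ Cn i) ⊆ (Q ×ˢ univ) ∪ ((univ ×ˢ Q) ∪ Gp) := by
      intro pp hpp
      obtain ⟨-, h1, h2, h3, h4⟩ := mem_filter.1 hpp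
      by_cases hq1' : pp.1 ∈ Q
      · exact mem_union.2 (Or.inl (mem_product.2 ⟨hq1', mem_univ _⟩))
      by_cases hq2' : pp.2 ∈ Q
      · exact mem_union.2 (Or.inr (mem_union.2 (Or.inl (mem_product.2 ⟨mem_univ _, hq2'⟩))))
      · refine mem_union.2 (Or.inr (mem_union.2 (Or.inr (mem_filter.2
          ⟨mem_product.2 ⟨?_, ?_⟩, h3, h4⟩))))
        · rw [hPdef, mem_filter]
          refine ⟨mem_univ _, h1, ?_⟩
          by_contra hc
          exact hq1' (mem_filter.2 ⟨mem_univ _, h1, not_lt.1 hc⟩)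
        · rw [hPdef, mem_filter]
          refine ⟨mem_univ _, h2, ?_⟩
          by_contra hc
          exact hq2' (mem_filter.2 ⟨mem_univ _, h2, not_lt.1 hc⟩)
    have h2 : (univ.filter (fun pp : Fin q × Fin q => k' ≤ (pp.1 : ℕ) ∧ k' ≤ (pp.2 : ℕ) ∧
        pp.1 < pp.2 ∧ ∀ i, pp ∉ Cn i)).card ≤ Q.card * q + (q * Q.card + Gp.card) := by
      refine (card_le_card h1).trans ((card_union_le _ _).trans ?_)
      have h3 := card_union_le (univ ×ˢ Q : Finset (Fin q × Fin q)) Gp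
      rw [card_product, card_univ, Fintype.card_fin] at h3 ⊢
      omega
    have h3 : (nM : ℝ) * Gp.card ≤ (q:ℝ) ^ 2 := by
      have h4 : nM * Gp.card ≤ q ^ 2 := by
        refine hgap.trans ?_
        have : P.card ≤ q := by
          have := card_le_univ P
          rwa [Fintype.card_fin] at this
        exact Nat.pow_le_pow_left this 2
      exact_mod_cast h4
    have hMpos : (0:ℝ) < nM := by rw [D9_nM]; norm_num
    have h5 : (Gp.card : ℝ) ≤ (q:ℝ) ^ 2 / nM := by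
      rw [le_div_iff₀ hMpos]; linarith only [h3]
    have h6 : U ≤ (Q.card : ℝ) * q + (q * Q.card + Gp.card) := by
      rw [hU]
      exact_mod_cast h2
    linarith only [h5, h6]
  -- conclusion
  have hcount' : (5.88:ℝ) * J + 3 ≤ 6 * D + 3 * k' := by
    have h1 := ht.count
    have h2 : 3 * ((univ.filter (fun p => ∃ z w, rho p = some (z, w) ∧
        (z = p0 ∨ w = p0))).card : ℝ) +
      2 * ((univ.filter (fun p => ∃ z w, rho p = some (z, w) ∧ z ≠ p0 ∧ w ≠ p0)).card : ℝ) ≤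
        6 * D := by
      exact_mod_cast hcount
    linarith only [h1, h2]
  refine ⟨k', D, U, Q.card, _, hk'1, hk'L, by omega, hA.2.1, hcount', rfl, Nat.cast_nonneg _, ?_,
    hUb, ?_⟩
  · have : 0 ≤ (nL : ℝ) * Real.logb 2 ((q:ℝ) ^ 2 + 1) := mul_nonneg (Nat.cast_nonneg _) hnn1
    linarith only [hHlog, hXT, hfewlog, this]
  · have hm0 : ((q:ℝ) - k' - D) * (2 + LL N) ≤ ((q:ℝ) - k' - D) * LL N + 2 * q := by
      have : (0:ℝ) ≤ k' := Nat.cast_nonneg _
      have : (0:ℝ) ≤ D := Nat.cast_nonneg _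
      linarith only []
    have hf := hA.1
    linarith only [hHlog, hX1, hXT, hchain2, hR, hR2, hLam, hA, hlw, hstar, hcntsum, hlsum]

theorem regII2 : ∀ᶠ C : ℕ in atTop, ∀ᶠ N : ℕ in atTop, ∀ q J : ℕ, Reg C N q → C ≤ J → J ≤ q →
    eta * LL N ≤ (J:ℝ) →
    Cert ((N:ℝ) ^ 10) (fun σ : St (Sym2 (Fin N)) => ∀ E : Finset (Fin N),
      (E.card : ℝ) ≤ (0.6:ℝ) * LL N → ∀ G ⊆ GJ σ q J, (∀ A ∈ G, E ⊆ A) →
        (2:ℝ) ^ ((0.77:ℝ) * uJ N J) ≤ G.card →
        ¬ Spr ((N:ℝ) ^ (-kap0)) N G E) := by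
  filter_upwards [numII2, numII2b] with C h1 h2
  filter_upwards [h1, h2, suppNum, heavyFew, vertexCount, levelStep nL D9_nL1,
    eventually_ge_atTop 2] with N n1 n2 n3 n4 n5 n6 hN2
  intro q J hreg hCJ hJq heta
  obtain ⟨hq1, hq2, hL, e1, e2, e3⟩ := n2 q hreg
  have hLpos := LL_pos hN2
  have hN2' : (2:ℝ) ≤ N := by exact_mod_cast hN2
  have hk : ((⌊0.6 * LL N⌋₊ + 1 : ℕ) : ℝ) ≤ 0.6 * LL N + 1 := by
    have := Nat.floor_le (a := 0.6 * LL N) (by positivity)
    push_cast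
    linarith only [this]
  have hv := n5 (⌊0.6 * LL N⌋₊ + 1) (by linarith only [hk])
  have hl := n6 q hq2 (tau2 N)
  have hp1 : 2 * (N:ℝ) ^ 10 ≤ (N:ℝ) ^ 20 := by
    have : (N:ℝ) ^ 20 = (N:ℝ) ^ 9 * N * (N:ℝ) ^ 10 := by ring
    rw [this]
    gcongr
    have : (1:ℝ) ≤ (N:ℝ) ^ 9 := one_le_pow₀ (by linarith)
    nlinarith only [hN2', this]
  have hp2 : 2 * (N:ℝ) ^ 10 ≤ (N:ℝ) ^ 15 := by
    have : (N:ℝ) ^ 15 = (N:ℝ) ^ 4 * N * (N:ℝ) ^ 10 := by ring
    rw [this]
    gcongr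
    have : (1:ℝ) ≤ (N:ℝ) ^ 4 := one_le_pow₀ (by linarith)
    nlinarith only [hN2', this]
  refine (Cert.and (hv.mono hp1 fun σ h => h) (hl.mono hp2 fun σ h => h)).mono le_rfl ?_
  intro σ hσ E hE G hG hEG hGc hspr
  have hGpos : (0:ℝ) < G.card := lt_of_lt_of_le (by positivity) hGc
  have hne : G.Nonempty := card_pos.1 (by exact_mod_cast hGpos)
  have hEk : E.card + 1 ≤ ⌊0.6 * LL N⌋₊ + 1 := by
    have := Nat.le_floor hE
    omega
  obtain ⟨k', D, U, P0, err, c1, c2, c3, c4, c5', c6, c7, c8, c9, c10⟩ :=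
    D9_core hN2 (by exact_mod_cast hq1) hq2 e1 e2 e3 n3 (n4 q hq2) σ _ hk hσ.1 hσ.2 E hEk G hG
      hEG hne hspr
  have h3 := n1 q J hreg hCJ heta k' D U P0 err c1 c2 c3 c4 c5' c6 c7 c8 c9
  have h4 := Real.logb_le_logb_of_le (b := 2) (by norm_num) (by positivity) hGc
  rw [Real.logb_rpow (by norm_num) (by norm_num)] at h4
  linarith only [c10, h3, h4]

end Pool.Agent.CG
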