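import Mathlib

/-!
# Project CG (MP_5748f3_co, (2:2) clique game): basic definitions

`N` vertices `Fin N`, edges `Sym2 (Fin N)`; `q` the clique size, `L = log₂ N`.
-/

set_option autoImplicit false

namespace Pool.Agent.CG

open Finset

/-- `β = 1 - (log₂ 3)/2`, so that `2^(2-2β) = 3`. -/
noncomputable def beta : ℝ := 1 - Real.logb 2 3 / 2

/-- A game state: Maker's edges `M`, Breaker's edges `B`, and the partner involution `pi`
(`pi e` is the other edge claimed by Maker in the same turn as `e`, or `pi e = e`). -/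
structure St (α : Type) where
  M : Finset α
  B : Finset α
  pi : α → α
  inv : ∀ e, pi (pi e) = e
  mem : ∀ e, pi e ≠ e → e ∈ M

variable {α : Type} [DecidableEq α]

/-- number of claimed (Maker) edges in `H` -/
def cl (σ : St α) (H : Finset α) : ℕ := (H ∩ σ.M).card

/-- number of edges of `H` whose partner is a different edge of `H` (twice the number of rounds) -/
def dd (σ : St α) (H : Finset α) : ℕ := (H.filter (fun e => σ.pi e ≠ e ∧ σ.pi e ∈ H)).card

/-- log₂ of the weight -/
noncomputable def lw (σ : St α) (H : Finset α) : ℝ := (cl σ H : ℝ) - beta * (dd σ H : ℝ)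

/-- the weight of an edge set -/
noncomputable def W (σ : St α) (H : Finset α) : ℝ :=
  if Disjoint H σ.B then (2 : ℝ) ^ (lw σ H) else 0

/-- the potential with coefficients `c` -/
noncomputable def Phi [Fintype α] (c : Finset α → ℝ) (σ : St α) : ℝ := ∑ H, c H * W σ H

/-- a prior: nonnegative coefficients with sum at most one -/
def IsPrior [Fintype α] (c : Finset α → ℝ) : Prop := (∀ H, 0 ≤ c H) ∧ ∑ H, c H ≤ 1

/-- `Cert K P`: there is a prior such that `P` holds at every state where the potential is `≤ K`. -/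
def Cert [Fintype α] (K : ℝ) (P : St α → Prop) : Prop :=
  ∃ c : Finset α → ℝ, IsPrior c ∧ ∀ σ : St α, Phi c σ ≤ K → P σ

section graph

variable {V : Type} [DecidableEq V]

/-- the pairs inside `A` -/
def ed (A : Finset V) : Finset (Sym2 V) := A.sym2.filter (fun e => ¬ e.IsDiag)

/-- the pairs between `E` and `v` -/
def star (E : Finset V) (v : V) : Finset (Sym2 V) := E.image (fun x => s(x, v))

/-- members of `G` containing `E` -/
def sub (G : Finset (Finset V)) (E : Finset V) : Finset (Finset V) := G.filter (fun A => E ⊆ A)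

end graph

/-- `L = log₂ N` -/
noncomputable def LL (N : ℕ) : ℝ := Real.logb 2 (N : ℝ)

/-- the clique size regime -/
def Reg (C N q : ℕ) : Prop :=
  2 * LL N - 2 * Real.logb 2 (LL N) + C ≤ q ∧ (q : ℝ) ≤ 2 * LL N - 2 * Real.logb 2 (LL N) + C + 1

/-- allowed number of unclaimed pairs in class `J` -/
noncomputable def uJ (N J : ℕ) : ℕ := ⌊(J : ℝ) * LL N / 100⌋₊

/-- near-complete cliques of class `J` -/
noncomputable def GJ {N : ℕ} (σ : St (Sym2 (Fin N))) (q J : ℕ) : Finset (Finset (Fin N)) :=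
  (powersetCard q univ).filter (fun A =>
    Disjoint (ed A) σ.B ∧ (ed A \ σ.M).card ≤ uJ N J ∧
      (1.96 : ℝ) * J * q ≤ (dd σ (ed A) : ℝ) ∧ dd σ (ed A) ≤ 2 * (J + 1) * q)

/-- spreadness of `G` outside `E` with rate `ρ` (for sets `V'` of size at most `k`) -/
def Spr {N : ℕ} (ρ : ℝ) (k : ℕ) (G : Finset (Finset (Fin N))) (E : Finset (Fin N)) : Prop :=
  ∀ V' : Finset (Fin N), V'.Nonempty → Disjoint V' E → V'.card ≤ k →
    ((sub G V').card : ℝ) < ρ ^ (V'.card) * (G.card : ℝ)

/-! ## constants -/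

/-- regime I: `J ≤ eta * L` -/
noncomputable def eta : ℝ := 1 / 10 ^ 14
noncomputable def c5 : ℝ := 1 / 20000
noncomputable def del0 : ℝ := 1 / 80000
noncomputable def del1 : ℝ := 1 / 160000
noncomputable def gg : ℝ := 1 / 320000
def k0 : ℕ := 10 ^ 6
noncomputable def kap9 : ℝ := 1 / 10000
noncomputable def kap0 : ℝ := 1 / 10 ^ 19

section roots

variable {V : Type} [DecidableEq V]

/-- vertices `v` of `A` such that the partner of `xv` is `xy` with `y ∈ A` -/
def Ra (σ : St (Sym2 V)) (A : Finset V) (x : V) : Finset V :=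
  A.filter (fun v => v ≠ x ∧ ∃ y ∈ A, y ≠ x ∧ y ≠ v ∧ σ.pi s(x, v) = s(x, y))

/-- vertices `v` of `A` such that the partner of `xv` is `zw`, disjoint from `xv`, with `z, w ∈ A` -/
def Rb (σ : St (Sym2 V)) (A : Finset V) (x : V) : Finset V :=
  A.filter (fun v => v ≠ x ∧ ∃ z ∈ A, ∃ w ∈ A, z ≠ w ∧ z ≠ x ∧ w ≠ x ∧ z ≠ v ∧ w ≠ v ∧
    σ.pi s(x, v) = s(z, w))

end roots

end Pool.Agent.CG
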