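import Pool.Agent.CG.GDefs
import Pool.Agent.CG.S7

/-!
# CG G4: numerics and the base family of the game part

PAPER PROOF. Use `regNum` (1.999 L ≤ q ≤ 2L, L huge) and `slack`; 0.2074 < β < 0.2076.
`base`: `Cert.family` with ι = {A // A.card = q}, H = ed A, K = N^5: for a completed alive A,
2^(C(q,2) - β dd) = W σ (ed A) ≤ ∑ W ≤ N^5 C(N,q) ≤ N^5 N^q / q!, so by `slack`
β dd ≥ C(q,2) - qL + log₂ q! - 5L ≥ q(C/2 - 1) - 2.51 q, dd/(2q) ≥ (C/2 - 3.51)/0.4152 ≥ C + 1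
for C ≥ 50. Take J = ⌊dd/(2q)⌋ (natural division dd / (2q)); J ≤ q because dd ≤ C(q,2).
`gameNum`: uJ ≤ J L/100 ≤ 0.04 J q; uJ ≤ qL/100 < C(q,2);
theta * 2^(0.78 uJ) = 8 * 2^(1-β) * 2^(-(1-β-0.78) uJ) ≤ 16 * 2^(-0.0124 uJ) and uJ ≥ JL/100 - 1, so
the sum over J ∈ [C,q] is ≤ (q+1) * 17 * 2^(-0.000124 C L) = 17 (q+1) N^(-0.000124 C) ≤ N^(-2) for
C ≥ 10^5 and N large.
-/

set_option autoImplicit false

namespace Pool.Agent.CG

open Finset Filter

private theorem G4_N_pos {N : ℕ} (h : (10:ℝ)^100 ≤ LL N) : 2 ≤ N := by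
  by_contra hc
  have h1 : LL N = 0 := by
    unfold LL
    interval_cases N <;> simp
  rw [h1] at h
  have : (0:ℝ) < 10 ^ 100 := by positivity
  linarith

private theorem G4_two_rpow {N : ℕ} (h : 2 ≤ N) : (2:ℝ) ^ (LL N) = N := by
  unfold LL
  exact Real.rpow_logb (by norm_num) (by norm_num) (by positivity)

private theorem G4_card_ed {V : Type} [DecidableEq V] (A : Finset V) :
    (ed A).card = A.card.choose 2 := by
  unfold ed
  have h1 : A.sym2.filter (fun e => ¬ e.IsDiag) = (A.offDiag.image Sym2.mk.uncurry) := by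
    ext e
    induction e with | _ a b => ?_
    simp only [mem_filter, mk_mem_sym2_iff, Sym2.mk_isDiag_iff, mem_image, mem_offDiag, Prod.exists,
      Function.uncurry_apply_pair, Sym2.eq_iff]
    constructor
    · rintro ⟨⟨ha, hb⟩, hab⟩
      exact ⟨a, b, ⟨ha, hb, hab⟩, Or.inl ⟨rfl, rfl⟩⟩
    · rintro ⟨x, y, ⟨hx, hy, hxy⟩, ⟨rfl, rfl⟩ | ⟨rfl, rfl⟩⟩
      · exact ⟨⟨hx, hy⟩, hxy⟩
      · exact ⟨⟨hy, hx⟩, Ne.symm hxy⟩
  rw [h1]
  exact Sym2.card_image_offDiag A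

private theorem G4_base_aux (C N q : ℕ) (hC : 50 ≤ C)
    (h1 : (1.999:ℝ) * LL N ≤ q) (h3 : (10:ℝ)^100 ≤ LL N)
    (hs : (q:ℝ) * ((C:ℝ) / 2 - 1) ≤ (q.choose 2 : ℝ) - q * LL N + Real.logb 2 (q.factorial : ℝ))
    (σ : St (Sym2 (Fin N)))
    (hσ : ∑ A : {A : Finset (Fin N) // A.card = q}, W σ (ed A.1) ≤
      (N:ℝ) ^ 5 * Fintype.card {A : Finset (Fin N) // A.card = q})
    (A : Finset (Fin N)) (hA : A.card = q) (hB : Disjoint (ed A) σ.B) (hM : ed A ⊆ σ.M) :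
    ∃ J ∈ Icc C q, 2 * J * q ≤ dd σ (ed A) ∧ dd σ (ed A) ≤ 2 * (J + 1) * q := by
  have hN := G4_N_pos h3
  have hNr : (2:ℝ) ≤ N := by exact_mod_cast hN
  have hL : (0:ℝ) < LL N := lt_of_lt_of_le (by positivity) h3
  have hqpos : (0:ℝ) < q := lt_of_lt_of_le (by positivity) h1
  have hq0 : 0 < q := by exact_mod_cast hqpos
  -- the single term
  have e1 : W σ (ed A) ≤ (N:ℝ) ^ 5 * Fintype.card {A : Finset (Fin N) // A.card = q} := by
    refine le_trans ?_ hσ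
    exact single_le_sum (f := fun A : {A : Finset (Fin N) // A.card = q} => W σ (ed A.1))
      (fun i _ => W_nonneg _ _) (mem_univ (⟨A, hA⟩ : {A : Finset (Fin N) // A.card = q}))
  rw [W_of_disjoint hB, Fintype.card_finset_len, Fintype.card_fin] at e1
  have e2 : (N.choose q : ℝ) ≤ (N:ℝ) ^ q / (q.factorial : ℝ) := Nat.choose_le_pow_div q N
  have hf : (0:ℝ) < (q.factorial : ℝ) := by exact_mod_cast q.factorial_pos
  have hcl : cl σ (ed A) = q.choose 2 := by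
    unfold cl
    rw [inter_eq_left.2 hM, G4_card_ed, hA]
  have e3 : (2:ℝ) ^ (lw σ (ed A)) ≤ (N:ℝ) ^ 5 * ((N:ℝ) ^ q / (q.factorial : ℝ)) :=
    e1.trans (mul_le_mul_of_nonneg_left e2 (by positivity))
  have e4 : lw σ (ed A) ≤ 5 * LL N + (q * LL N - Real.logb 2 (q.factorial : ℝ)) := by
    have := Real.logb_le_logb_of_le (by norm_num : (1:ℝ) < 2) (by positivity) e3
    rw [Real.logb_rpow (by norm_num) (by norm_num), Real.logb_mul (by positivity) (by positivity),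
      Real.logb_div (by positivity) (by positivity), Real.logb_pow, Real.logb_pow] at this
    unfold LL
    push_cast at this
    exact this
  unfold lw at e4
  rw [hcl] at e4
  set d := dd σ (ed A) with hd
  have e5 : (q:ℝ) * ((C:ℝ) / 2 - 1) - 5 * LL N ≤ beta * d := by linarith
  have e6 : 5 * LL N ≤ 2.51 * q := by linarith
  have e7 : (q:ℝ) * ((C:ℝ) / 2 - 3.51) ≤ 0.2076 * d := by
    have := beta_lt
    have hd0 : (0:ℝ) ≤ d := Nat.cast_nonneg _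
    nlinarith
  have hCr : (50:ℝ) ≤ C := by exact_mod_cast hC
  have e8 : (2:ℝ) * q * C ≤ d := by
    have : (q:ℝ) * (0.4152 * C) ≤ (q:ℝ) * ((C:ℝ) / 2 - 3.51) := by
      apply mul_le_mul_of_nonneg_left _ hqpos.le
      linarith
    nlinarith
  have e8' : 2 * q * C ≤ d := by exact_mod_cast e8
  have e9 : d ≤ q.choose 2 := by
    rw [← hcl]
    exact dd_le_cl σ (ed A)
  have e10 : q.choose 2 ≤ 2 * q * q := by
    rw [Nat.choose_two_right]
    calc q * (q - 1) / 2 ≤ q * (q - 1) := Nat.div_le_self _ _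
      _ ≤ q * q := Nat.mul_le_mul_left _ (Nat.sub_le _ _)
      _ ≤ 2 * q * q := by nlinarith
  have h2q : 0 < 2 * q := by omega
  refine ⟨d / (2 * q), ?_, ?_, ?_⟩
  · rw [mem_Icc]
    constructor
    · rw [Nat.le_div_iff_mul_le h2q]
      linarith [e8', mul_comm (2 * q) C]
    · exact Nat.div_le_of_le_mul (e9.trans e10)
  · have := Nat.div_mul_le_self d (2 * q)
    calc 2 * (d / (2 * q)) * q = d / (2 * q) * (2 * q) := by ring
      _ ≤ d := this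
  · have h := Nat.lt_div_mul_add (a := d) h2q
    calc d ≤ d / (2 * q) * (2 * q) + 2 * q := h.le
      _ = 2 * (d / (2 * q) + 1) * q := by ring

theorem base : ∀ᶠ C : ℕ in atTop, ∀ᶠ N : ℕ in atTop, ∀ q : ℕ, Reg C N q →
    Cert ((N:ℝ) ^ 5) (fun σ : St (Sym2 (Fin N)) => ∀ A : Finset (Fin N), A.card = q →
      Disjoint (ed A) σ.B → ed A ⊆ σ.M →
        ∃ J ∈ Icc C q, 2 * J * q ≤ dd σ (ed A) ∧ dd σ (ed A) ≤ 2 * (J + 1) * q) := by
  filter_upwards [regNum, slack, eventually_ge_atTop 50] with C h1 h2 hC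
  filter_upwards [h1, h2] with N h1 h2 q hq
  obtain ⟨ha, hb, hc, hd⟩ := h1 q hq
  have hs := h2 q hq
  exact (Cert.family (fun A : {A : Finset (Fin N) // A.card = q} => ed A.1)).mono le_rfl
    fun σ hσ A hA hB hM => G4_base_aux C N q hC ha hc hs σ hσ A hA hB hM

private theorem G4_uJ_le (N J : ℕ) (h : 0 ≤ LL N) : (uJ N J : ℝ) ≤ (J:ℝ) * LL N / 100 := by
  unfold uJ
  exact Nat.floor_le (by positivity)

private theorem G4_uJ_ge (N J : ℕ) : (J:ℝ) * LL N / 100 - 1 ≤ (uJ N J : ℝ) := by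
  unfold uJ
  have := Nat.lt_floor_add_one ((J:ℝ) * LL N / 100)
  linarith

private theorem G4_term (C N J : ℕ) (hC : 10 ^ 5 ≤ C) (hJ : C ≤ J) (hL : 0 ≤ LL N) :
    theta N J * (2:ℝ) ^ ((0.78:ℝ) * uJ N J) ≤ 17 * (2:ℝ) ^ (-(12 * LL N)) := by
  have hb1 := beta_gt
  have hb2 := beta_lt
  have hu := G4_uJ_ge N J
  have hu0 : (0:ℝ) ≤ uJ N J := Nat.cast_nonneg _
  unfold theta
  rw [mul_assoc, ← Real.rpow_add (by norm_num)]
  have hCr : (10 ^ 5 : ℝ) ≤ C := by exact_mod_cast hC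
  have hJr : (10 ^ 5 : ℝ) ≤ J := hCr.trans (by exact_mod_cast hJ)
  have h1 : -(1 - beta) * ((uJ N J : ℝ) - 1) + (0.78:ℝ) * uJ N J ≤ 0.806 + -(12 * LL N) := by
    have h2 : (10 ^ 5 : ℝ) * LL N ≤ J * LL N := mul_le_mul_of_nonneg_right hJr hL
    nlinarith
  have h2 : (2:ℝ) ^ (-(1 - beta) * ((uJ N J : ℝ) - 1) + (0.78:ℝ) * uJ N J) ≤
      (2:ℝ) ^ (0.806 + -(12 * LL N)) := Real.rpow_le_rpow_of_exponent_le (by norm_num) h1
  have h2' : (2:ℝ) ^ (0.806 + -(12 * LL N)) = (2:ℝ) ^ (0.806:ℝ) * (2:ℝ) ^ (-(12 * LL N)) :=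
    Real.rpow_add (by norm_num) _ _
  rw [h2'] at h2
  have h3 : (2:ℝ) ^ (0.806:ℝ) ≤ 2 := by
    calc (2:ℝ) ^ (0.806:ℝ) ≤ (2:ℝ) ^ (1:ℝ) :=
          Real.rpow_le_rpow_of_exponent_le (by norm_num) (by norm_num)
      _ = 2 := Real.rpow_one 2
  have h4 : (0:ℝ) < (2:ℝ) ^ (-(12 * LL N)) := by positivity
  have h5 := mul_le_mul_of_nonneg_right h3 h4.le
  linarith

theorem gameNum : ∀ᶠ C : ℕ in atTop, ∀ᶠ N : ℕ in atTop, ∀ q : ℕ, Reg C N q →
    (∀ J ∈ Icc C q, (1.96:ℝ) * J * q + uJ N J ≤ 2 * J * q) ∧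
    (∀ J ∈ Icc C q, uJ N J < q.choose 2) ∧
    ∑ J ∈ Icc C q, theta N J * (2:ℝ) ^ ((0.78:ℝ) * uJ N J) ≤ 1 / (N:ℝ) ^ 2 := by
  filter_upwards [regNum, eventually_ge_atTop (10 ^ 5)] with C h1 hC
  filter_upwards [h1] with N h1 q hq
  obtain ⟨ha, hb, hc, hd⟩ := h1 q hq
  have hN := G4_N_pos hc
  have hNr : (2:ℝ) ≤ N := by exact_mod_cast hN
  have hL1 : (100:ℝ) ≤ LL N := le_trans (by norm_num) hc
  have hL : (0:ℝ) < LL N := by linarith
  have hq1 : (100:ℝ) ≤ q := by linarith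
  refine ⟨fun J hJ => ?_, fun J hJ => ?_, ?_⟩
  · have h2 := G4_uJ_le N J hL.le
    have hJ0 : (0:ℝ) ≤ J := Nat.cast_nonneg _
    have h3 : (J:ℝ) * LL N ≤ J * q := mul_le_mul_of_nonneg_left (by linarith) hJ0
    nlinarith
  · have h2 := G4_uJ_le N J hL.le
    rw [mem_Icc] at hJ
    have hJq : (J:ℝ) ≤ q := by exact_mod_cast hJ.2
    have h3 : (J:ℝ) * LL N ≤ q * q := by
      apply mul_le_mul hJq (by linarith) hL.le (by linarith)
    have h4 : ((q.choose 2 : ℕ) : ℝ) = (q:ℝ) * (q - 1) / 2 := Nat.cast_choose_two ℝ q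
    have h5 : (uJ N J : ℝ) < ((q.choose 2 : ℕ) : ℝ) := by
      rw [h4]
      nlinarith
    exact_mod_cast h5
  · have hs : ∑ J ∈ Icc C q, theta N J * (2:ℝ) ^ ((0.78:ℝ) * uJ N J) ≤
        ∑ _J ∈ Icc C q, 17 * (2:ℝ) ^ (-(12 * LL N)) :=
      sum_le_sum fun J hJ => G4_term C N J hC (mem_Icc.1 hJ).1 hL.le
    rw [sum_const, nsmul_eq_mul] at hs
    refine hs.trans ?_
    have hcard : ((Icc C q).card : ℝ) ≤ q + 1 := by
      rw [Nat.card_Icc]
      have : q + 1 - C ≤ q + 1 := Nat.sub_le _ _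
      exact_mod_cast this
    have hLN : LL N ≤ N := by
      unfold LL
      rw [Real.logb_le_iff_le_rpow (by norm_num) (by positivity), Real.rpow_natCast]
      exact_mod_cast (Nat.lt_two_pow_self (n := N)).le
    have hq2 : (q:ℝ) + 1 ≤ 3 * N := by linarith
    have hpow : (2:ℝ) ^ (-(12 * LL N)) = 1 / (N:ℝ) ^ 12 := by
      rw [Real.rpow_neg (by norm_num), show (12 * LL N : ℝ) = LL N * ((12:ℕ):ℝ) by push_cast; ring,
        Real.rpow_mul (by norm_num), G4_two_rpow hN, Real.rpow_natCast, one_div]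
    rw [hpow]
    have hNp : (0:ℝ) < N := by linarith
    calc ((Icc C q).card : ℝ) * (17 * (1 / (N:ℝ) ^ 12)) ≤ (3 * N) * (17 * (1 / (N:ℝ) ^ 12)) :=
          mul_le_mul_of_nonneg_right (hcard.trans hq2) (by positivity)
      _ = 51 / (N:ℝ) ^ 11 := by field_simp; ring
      _ ≤ 1 / (N:ℝ) ^ 2 := by
          rw [div_le_div_iff₀ (by positivity) (by positivity)]
          have h9 : (2:ℝ) ^ 9 ≤ (N:ℝ) ^ 9 := pow_le_pow_left₀ (by norm_num) hNr 9
          have h2 : (0:ℝ) < (N:ℝ) ^ 2 := by positivity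
          calc 51 * (N:ℝ) ^ 2 ≤ (2:ℝ) ^ 9 * (N:ℝ) ^ 2 := by
                apply mul_le_mul_of_nonneg_right _ h2.le
                norm_num
            _ ≤ (N:ℝ) ^ 9 * (N:ℝ) ^ 2 := mul_le_mul_of_nonneg_right h9 h2.le
            _ = 1 * (N:ℝ) ^ 11 := by ring

end Pool.Agent.CG
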