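import Pool.Agent.CG.Basic

/-!
# CG S3: spread kernels

PAPER PROOF. Among all E with E₀ ⊆ E, |E| ≤ cap and ρ^|E \ E₀| |sub G E₀| ≤ |sub G E| (E = E₀ is
one) choose one with |E| maximal. If |E| + k ≤ cap and V' is nonempty, disjoint from E, |V'| ≤ k
with |sub (sub G E) V'| ≥ ρ^|V'| |sub G E|, then E ∪ V' is a larger such set, because
sub (sub G E) V' = sub G (E ∪ V') and |(E ∪ V') \ E₀| = |E \ E₀| + |V'|. Contradiction.
-/

set_option autoImplicit false

namespace Pool.Agent.CG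

open Finset

theorem kernel {N : ℕ} (ρ : ℝ) (hρ : 0 < ρ) (G : Finset (Finset (Fin N)))
    (E₀ : Finset (Fin N)) (cap k : ℕ) (h0 : E₀.card ≤ cap) :
    ∃ E : Finset (Fin N), E₀ ⊆ E ∧ E.card ≤ cap ∧
      ρ ^ ((E \ E₀).card) * ((sub G E₀).card : ℝ) ≤ ((sub G E).card : ℝ) ∧
      (E.card + k ≤ cap → Spr ρ k (sub G E) E) := by
  classical
  let P : Finset (Finset (Fin N)) := univ.filter (fun E => E₀ ⊆ E ∧ E.card ≤ cap ∧
    ρ ^ ((E \ E₀).card) * ((sub G E₀).card : ℝ) ≤ ((sub G E).card : ℝ))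
  have hne : P.Nonempty := by
    refine ⟨E₀, mem_filter.2 ⟨mem_univ _, Subset.refl _, h0, ?_⟩⟩
    rw [sdiff_self]
    simp
  obtain ⟨E, hE, hmax⟩ := exists_max_image P (fun E => E.card) hne
  obtain ⟨-, h1, h2, h3⟩ := mem_filter.1 hE
  refine ⟨E, h1, h2, h3, fun hcap V' hV hd hk => ?_⟩
  by_contra hlt
  push Not at hlt
  have hsub : sub (sub G E) V' = sub G (E ∪ V') := by
    ext A
    simp only [sub, mem_filter, union_subset_iff, and_assoc]
  have hcard : (E ∪ V').card = E.card + V'.card := card_union_of_disjoint hd.symm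
  have hsd : (E ∪ V') \ E₀ = (E \ E₀) ∪ V' := by
    rw [union_sdiff_distrib]
    congr 1
    exact sdiff_eq_self_of_disjoint (disjoint_of_subset_right h1 hd)
  have hcard2 : ((E ∪ V') \ E₀).card = (E \ E₀).card + V'.card := by
    rw [hsd]
    exact card_union_of_disjoint (disjoint_of_subset_left sdiff_subset hd.symm)
  have hmem : E ∪ V' ∈ P := by
    refine mem_filter.2 ⟨mem_univ _, h1.trans subset_union_left, by omega, ?_⟩
    rw [hcard2, pow_add, ← hsub]
    refine le_trans ?_ hlt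
    calc ρ ^ (E \ E₀).card * ρ ^ V'.card * ((sub G E₀).card : ℝ)
        = ρ ^ V'.card * (ρ ^ (E \ E₀).card * ((sub G E₀).card : ℝ)) := by ring
      _ ≤ ρ ^ V'.card * ((sub G E).card : ℝ) :=
          mul_le_mul_of_nonneg_left h3 (pow_nonneg hρ.le _)
  have h4 := hmax _ hmem
  have h5 : 0 < V'.card := hV.card_pos
  simp only [hcard] at h4
  omega

end Pool.Agent.CG
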