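import Pool.Agent.CG.A6
import Pool.Agent.CG.B1
import Pool.Agent.CG.B2
import Pool.Agent.CG.C1
import Pool.Agent.CG.D9
import Pool.Agent.CG.S3

/-!
# CG MC: the main claim from the five regime theorems

PAPER PROOF. `kernel` with E₀ ⊆ …; `sub G ∅ = G`. Let G = GJ σ q J, u = uJ N J, L = LL N and suppose
|G| > 2^(0.78u). (The finitely many regime certificates are combined by Cert.and.)
Case J ≤ eta L. `kernel` (ρ = N^(-c5), E₀ = ∅, cap = 4J, k = k0+1) gives E₁ with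
|sub G E₁| ≥ N^(-c5 * 4J) |G| ≥ 2^(0.78u - 4 c5 J L) and 4 c5 J L = 0.0002 J L ≤ 0.02 (u+1)
(u ≥ JL/100 - 1). In particular sub G E₁ is nonempty. If |E₁| + k0 + 1 ≤ 4J, then
Spr (N^(-c5)) (k0+1) (sub G E₁) E₁, contradiction to `regIA`. So |E₁| > 4J - k0 - 1 ≥ 3.9 J.
`kernel` (ρ = 2^(-kap9 J), E₀ = E₁, cap = 2N, k = N): E ⊇ E₁, |sub G E| ≥ ρ^|E \ E₁| |sub G E₁| > 0, so E is
contained in a q-set, |E \ E₁| ≤ q ≤ 2L, ρ^.. ≥ 2^(-0.0002 J L) ≥ 2^(-0.02(u+1)):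
|sub G E| ≥ 2^(0.74u - 0.04) ≥ 2^(0.73u) (u ≥ 4). |E| ≤ N so |E| + N ≤ 2N and Spr ρ N (sub G E) E. If |E| = q then
|sub G E| ≤ 1 < 2^(0.73u). Otherwise `regIB1` (|E| + 10J ≤ q) or `regIB2` gives a contradiction.
Case J ≥ eta L. `kernel` (ρ = N^(-kap0), E₀ = ∅, cap = 2N, k = N): |E| ≤ q ≤ 2L,
|sub G E| ≥ N^(-2 kap0 L) 2^(0.78u) ≥ 2^(0.77u), as 2 kap0 L² = 2·10^-19 L² ≤ 0.01u (u ≥ 10^-16 L² - 1);
`regII1` or `regII2`.
Members of sub G E contain E.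
-/

set_option autoImplicit false

namespace Pool.Agent.CG

open Finset Filter

private theorem MC_sub_empty {N : ℕ} (G : Finset (Finset (Fin N))) : sub G ∅ = G := by
  unfold sub
  exact filter_true_of_mem (fun A _ => empty_subset A)

private theorem MC_npow {N : ℕ} (hN : 0 < N) (x : ℝ) : (N:ℝ) ^ x = (2:ℝ) ^ (x * LL N) := by
  unfold LL
  rw [mul_comm, Real.rpow_mul (by norm_num),
    Real.rpow_logb (by norm_num) (by norm_num) (by exact_mod_cast hN)]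

private theorem MC_mem_sub {N : ℕ} {G : Finset (Finset (Fin N))} {E A : Finset (Fin N)} :
    A ∈ sub G E ↔ A ∈ G ∧ E ⊆ A := by
  unfold sub
  simp

private theorem MC_card_of_mem {N : ℕ} {σ : St (Sym2 (Fin N))} {q J : ℕ} {A : Finset (Fin N)}
    (hA : A ∈ GJ σ q J) : A.card = q := by
  unfold GJ at hA
  rw [mem_filter, mem_powersetCard] at hA
  exact hA.1.2

/-- kernel with cap `2N` and `k = N` -/
private theorem MC_kernel {N q : ℕ} (r : ℝ) (hr : 0 ≤ r) (G : Finset (Finset (Fin N)))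
    (hG : ∀ A ∈ G, A.card = q) (E₀ : Finset (Fin N)) (h0 : (sub G E₀).Nonempty) :
    ∃ E : Finset (Fin N), E₀ ⊆ E ∧ E.card ≤ q ∧
      (2:ℝ) ^ (-(r * q)) * ((sub G E₀).card : ℝ) ≤ ((sub G E).card : ℝ) ∧
      Spr ((2:ℝ) ^ (-r)) N (sub G E) E := by
  have hcardN : ∀ E : Finset (Fin N), E.card ≤ N := fun E => by
    simpa using card_le_univ E
  have hρ : (0:ℝ) < (2:ℝ) ^ (-r) := Real.rpow_pos_of_pos (by norm_num) _
  have hρ1 : (2:ℝ) ^ (-r) ≤ 1 := Real.rpow_le_one_of_one_le_of_nonpos (by norm_num) (by linarith)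
  obtain ⟨E, hE0, -, hE, hS⟩ := kernel ((2:ℝ) ^ (-r)) hρ G E₀ (2 * N) N
    (by have := hcardN E₀; omega)
  have hc0 : (0:ℝ) < ((sub G E₀).card : ℝ) := by exact_mod_cast h0.card_pos
  have hcE : (0:ℝ) < ((sub G E).card : ℝ) := lt_of_lt_of_le (mul_pos (pow_pos hρ _) hc0) hE
  have hne : (sub G E).Nonempty := card_pos.1 (by exact_mod_cast hcE)
  obtain ⟨A, hA⟩ := hne
  rw [MC_mem_sub] at hA
  have hEq : E.card ≤ q := by
    rw [← hG A hA.1]; exact card_le_card hA.2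
  have hEq' : (E \ E₀).card ≤ q := (card_le_card sdiff_subset).trans hEq
  refine ⟨E, hE0, hEq, ?_, hS (by have := hcardN E; omega)⟩
  refine le_trans ?_ hE
  apply mul_le_mul_of_nonneg_right _ hc0.le
  have h1 : (2:ℝ) ^ (-(r * q)) = ((2:ℝ) ^ (-r)) ^ q := by
    rw [← Real.rpow_natCast, ← Real.rpow_mul (by norm_num)]
    congr 1; ring
  rw [h1]
  exact pow_le_pow_of_le_one hρ.le hρ1 hEq'

/-- regime I -/
private theorem MC_caseI {N : ℕ} (hN : 0 < N) {q J : ℕ} (hJ : 10 ^ 7 ≤ J) (hL : 1000 ≤ LL N)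
    (hq : (q:ℝ) ≤ 2 * LL N) (σ : St (Sym2 (Fin N)))
    (hA : ∀ E : Finset (Fin N), E.card ≤ 4 * J →
      ∀ G ⊆ GJ σ q J, (∀ A ∈ G, E ⊆ A) → G.Nonempty →
        ¬ Spr ((N:ℝ) ^ (-c5)) (k0 + 1) G E)
    (hB1 : ∀ E : Finset (Fin N), (3.9:ℝ) * J ≤ E.card →
      E.card + 10 * J ≤ q → ∀ G ⊆ GJ σ q J, (∀ A ∈ G, E ⊆ A) → G.Nonempty →
        ¬ Spr ((2:ℝ) ^ (-(kap9 * J))) N G E)
    (hB2 : ∀ E : Finset (Fin N), E.card < q →
      q ≤ E.card + 10 * J → ∀ G ⊆ GJ σ q J, (∀ A ∈ G, E ⊆ A) →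
        (2:ℝ) ^ ((0.73:ℝ) * uJ N J) ≤ G.card →
        ¬ Spr ((2:ℝ) ^ (-(kap9 * J))) N G E) :
    ((GJ σ q J).card : ℝ) ≤ (2:ℝ) ^ ((0.78:ℝ) * uJ N J) := by
  by_contra hcon
  push Not at hcon
  set G := GJ σ q J with hGdef
  have hJR : (10:ℝ) ^ 7 ≤ (J:ℝ) := by exact_mod_cast hJ
  have hu : (J:ℝ) * LL N / 100 < (uJ N J : ℝ) + 1 := Nat.lt_floor_add_one _
  have hu4 : (4:ℝ) ≤ (uJ N J : ℝ) := by nlinarith
  have h2 : ∀ x : ℝ, (0:ℝ) < (2:ℝ) ^ x := fun x => Real.rpow_pos_of_pos (by norm_num) x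
  -- first kernel
  have hρ1pos : (0:ℝ) < (N:ℝ) ^ (-c5) := Real.rpow_pos_of_pos (by exact_mod_cast hN) _
  obtain ⟨E₁, -, hE₁c, hE₁, hS₁⟩ := kernel ((N:ℝ) ^ (-c5)) hρ1pos G ∅ (4 * J) (k0 + 1) (by simp)
  rw [MC_sub_empty, sdiff_empty] at hE₁
  have hρle1 : (N:ℝ) ^ (-c5) ≤ 1 := Real.rpow_le_one_of_one_le_of_nonpos
    (by exact_mod_cast hN) (by unfold c5; norm_num)
  have hGpos : (0:ℝ) < (G.card : ℝ) := lt_trans (h2 _) hcon
  have hE₁' : (2:ℝ) ^ (-(0.0002 * (J * LL N))) * (G.card : ℝ) ≤ ((sub G E₁).card : ℝ) := by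
    refine le_trans ?_ hE₁
    apply mul_le_mul_of_nonneg_right _ hGpos.le
    have h1 : (2:ℝ) ^ (-(0.0002 * (J * LL N))) = ((N:ℝ) ^ (-c5)) ^ (4 * J) := by
      rw [MC_npow hN, ← Real.rpow_natCast, ← Real.rpow_mul (by norm_num)]
      congr 1
      unfold c5
      push_cast
      ring
    rw [h1]
    exact pow_le_pow_of_le_one hρ1pos.le hρle1 hE₁c
  have hE₁pos : (0:ℝ) < ((sub G E₁).card : ℝ) := lt_of_lt_of_le (mul_pos (h2 _) hGpos) hE₁'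
  have hE₁ne : (sub G E₁).Nonempty := card_pos.1 (by exact_mod_cast hE₁pos)
  have hsubG : ∀ E : Finset (Fin N), sub G E ⊆ G := fun E => by unfold sub; exact filter_subset _ _
  have hsubE : ∀ E : Finset (Fin N), ∀ A ∈ sub G E, E ⊆ A := fun E A hA => (MC_mem_sub.1 hA).2
  have hbig : 4 * J < E₁.card + (k0 + 1) := by
    by_contra hle
    push Not at hle
    exact hA E₁ hE₁c (sub G E₁) (hsubG E₁) (hsubE E₁) hE₁ne (hS₁ hle)
  have hbigR : (3.9:ℝ) * J ≤ (E₁.card : ℝ) := by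
    have h3 : 4 * J ≤ E₁.card + k0 := by omega
    have h4 : (4:ℝ) * J ≤ (E₁.card : ℝ) + (k0 : ℝ) := by exact_mod_cast h3
    have h5 : (k0 : ℝ) = 10 ^ 6 := by unfold k0; norm_num
    rw [h5] at h4
    linarith
  -- second kernel
  have hkap : (0:ℝ) ≤ kap9 * J := by unfold kap9; positivity
  obtain ⟨E, hE0, hEq, hE, hS⟩ := MC_kernel (kap9 * J) hkap G
    (fun A hA => MC_card_of_mem hA) E₁ hE₁ne
  have hEcard : (2:ℝ) ^ ((0.73:ℝ) * uJ N J) ≤ ((sub G E).card : ℝ) := by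
    refine le_trans ?_ hE
    have h6 : (2:ℝ) ^ (-(kap9 * J * q)) * ((2:ℝ) ^ (-(0.0002 * (J * LL N))) *
        (2:ℝ) ^ ((0.78:ℝ) * uJ N J)) ≤ (2:ℝ) ^ (-(kap9 * J * q)) * ((sub G E₁).card : ℝ) := by
      apply mul_le_mul_of_nonneg_left _ (h2 _).le
      refine le_trans ?_ hE₁'
      exact mul_le_mul_of_nonneg_left hcon.le (h2 _).le
    refine le_trans ?_ h6
    rw [← Real.rpow_add (by norm_num), ← Real.rpow_add (by norm_num)]
    apply Real.rpow_le_rpow_of_exponent_le (by norm_num)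
    have h7 : kap9 * J * q ≤ 0.0002 * (J * LL N) := by
      unfold kap9
      have : (J:ℝ) * q ≤ J * (2 * LL N) := mul_le_mul_of_nonneg_left hq (by positivity)
      linarith
    linarith
  have hEcard1 : (1:ℝ) < ((sub G E).card : ℝ) := by
    refine lt_of_lt_of_le ?_ hEcard
    apply Real.one_lt_rpow (by norm_num)
    linarith
  have hElt : E.card < q := by
    rcases lt_or_eq_of_le hEq with h | h
    · exact h
    · exfalso
      have h8 : sub G E ⊆ {E} := by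
        intro A hA
        rw [MC_mem_sub] at hA
        rw [mem_singleton]
        symm
        apply eq_of_subset_of_card_le hA.2
        rw [h, MC_card_of_mem hA.1]
      have h9 : (sub G E).card ≤ 1 := by
        simpa using card_le_card h8
      have h10 : ((sub G E).card : ℝ) ≤ 1 := by exact_mod_cast h9
      linarith
  have hEne : (sub G E).Nonempty := card_pos.1 (by
    have : (0:ℝ) < ((sub G E).card : ℝ) := by linarith
    exact_mod_cast this)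
  rcases le_total (E.card + 10 * J) q with h | h
  · refine hB1 E ?_ h (sub G E) (hsubG E) (hsubE E) hEne hS
    refine hbigR.trans ?_
    exact_mod_cast card_le_card hE0
  · exact hB2 E hElt h (sub G E) (hsubG E) (hsubE E) hEcard hS

/-- regime II -/
private theorem MC_caseII {N : ℕ} (hN : 0 < N) {q J : ℕ} (hJ : eta * LL N ≤ (J:ℝ))
    (hL : (10:ℝ) ^ 9 ≤ LL N)
    (hq : (q:ℝ) ≤ 2 * LL N) (σ : St (Sym2 (Fin N)))
    (h1 : ∀ E : Finset (Fin N), (0.6:ℝ) * LL N ≤ E.card → ∀ G ⊆ GJ σ q J, (∀ A ∈ G, E ⊆ A) →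
        (2:ℝ) ^ ((0.77:ℝ) * uJ N J) ≤ G.card →
        ¬ Spr ((N:ℝ) ^ (-kap0)) N G E)
    (h2 : ∀ E : Finset (Fin N), (E.card : ℝ) ≤ (0.6:ℝ) * LL N → ∀ G ⊆ GJ σ q J,
      (∀ A ∈ G, E ⊆ A) →
        (2:ℝ) ^ ((0.77:ℝ) * uJ N J) ≤ G.card →
        ¬ Spr ((N:ℝ) ^ (-kap0)) N G E) :
    ((GJ σ q J).card : ℝ) ≤ (2:ℝ) ^ ((0.78:ℝ) * uJ N J) := by
  by_contra hcon
  push Not at hcon
  set G := GJ σ q J with hGdef
  have hu : (J:ℝ) * LL N / 100 < (uJ N J : ℝ) + 1 := Nat.lt_floor_add_one _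
  have hLpos : (0:ℝ) < LL N := lt_of_lt_of_le (by norm_num) hL
  have hp : ∀ x : ℝ, (0:ℝ) < (2:ℝ) ^ x := fun x => Real.rpow_pos_of_pos (by norm_num) x
  have hGpos : (0:ℝ) < (G.card : ℝ) := lt_trans (hp _) hcon
  have hGne : (sub G ∅).Nonempty := by
    rw [MC_sub_empty]
    exact card_pos.1 (by exact_mod_cast hGpos)
  have hkap : (0:ℝ) ≤ kap0 * LL N := by unfold kap0; positivity
  obtain ⟨E, -, hEq, hE, hS⟩ := MC_kernel (kap0 * LL N) hkap G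
    (fun A hA => MC_card_of_mem hA) ∅ hGne
  rw [MC_sub_empty] at hE
  have hρ : (N:ℝ) ^ (-kap0) = (2:ℝ) ^ (-(kap0 * LL N)) := by
    rw [MC_npow hN]; congr 1; ring
  rw [← hρ] at hS
  have hsubG : sub G E ⊆ G := by unfold sub; exact filter_subset _ _
  have hsubE : ∀ A ∈ sub G E, E ⊆ A := fun A hA => (MC_mem_sub.1 hA).2
  have hEcard : (2:ℝ) ^ ((0.77:ℝ) * uJ N J) ≤ ((sub G E).card : ℝ) := by
    refine le_trans ?_ hE
    have h6 : (2:ℝ) ^ (-(kap0 * LL N * q)) * (2:ℝ) ^ ((0.78:ℝ) * uJ N J)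
        ≤ (2:ℝ) ^ (-(kap0 * LL N * q)) * (G.card : ℝ) :=
      mul_le_mul_of_nonneg_left hcon.le (hp _).le
    refine le_trans ?_ h6
    rw [← Real.rpow_add (by norm_num)]
    apply Real.rpow_le_rpow_of_exponent_le (by norm_num)
    have h7 : kap0 * LL N * q ≤ kap0 * LL N * (2 * LL N) :=
      mul_le_mul_of_nonneg_left hq hkap
    have h8 : eta * LL N * LL N ≤ J * LL N := mul_le_mul_of_nonneg_right hJ hLpos.le
    have h9 : (10:ℝ) ^ 9 * (10:ℝ) ^ 9 ≤ LL N * LL N := mul_le_mul hL hL (by norm_num) hLpos.le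
    unfold kap0 at h7
    unfold eta at h8
    unfold kap0
    norm_num at h7 h8 h9 ⊢
    nlinarith
  rcases le_total ((0.6:ℝ) * LL N) (E.card : ℝ) with h | h
  · exact h1 E h (sub G E) hsubG hsubE hEcard hS
  · exact h2 E h (sub G E) hsubG hsubE hEcard hS

private theorem MC_LL_tendsto : Tendsto (fun N : ℕ => LL N) atTop atTop := by
  unfold LL
  exact (Real.tendsto_logb_atTop (by norm_num)).comp tendsto_natCast_atTop_atTop

private theorem MC_q_le (C : ℕ) : ∀ᶠ N : ℕ in atTop, ∀ q : ℕ, Reg C N q → (q:ℝ) ≤ 2 * LL N := by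
  have h1 : Tendsto (fun N : ℕ => Real.logb 2 (LL N)) atTop atTop :=
    (Real.tendsto_logb_atTop (by norm_num)).comp MC_LL_tendsto
  filter_upwards [h1.eventually_ge_atTop ((C:ℝ) + 1)] with N hN q hq
  have := hq.2
  have hC : (0:ℝ) ≤ C := by positivity
  linarith

theorem mainClaim : ∀ᶠ C : ℕ in atTop, ∀ᶠ N : ℕ in atTop, ∀ q J : ℕ, Reg C N q → C ≤ J → J ≤ q →
    Cert ((N:ℝ) ^ 5) (fun σ : St (Sym2 (Fin N)) =>
      ((GJ σ q J).card : ℝ) ≤ (2:ℝ) ^ ((0.78:ℝ) * uJ N J)) := by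
  filter_upwards [regIA, regIB1, regIB2, regII1, regII2, eventually_ge_atTop (10 ^ 7)]
    with C hA hB1 hB2 hC1 hC2 hC
  filter_upwards [hA, hB1, hB2, hC1, hC2, MC_q_le C, eventually_ge_atTop 2,
    MC_LL_tendsto.eventually_ge_atTop ((10:ℝ) ^ 9)] with N hA hB1 hB2 hC1 hC2 hq hN hL q J hR hCJ hJq
  have hNR : (2:ℝ) ≤ (N:ℝ) := by exact_mod_cast hN
  have hN5 : (32:ℝ) ≤ (N:ℝ) ^ 5 := by
    have := pow_le_pow_left₀ (by norm_num : (0:ℝ) ≤ 2) hNR 5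
    norm_num at this
    exact this
  have hlev : 4 * (N:ℝ) ^ 5 ≤ (N:ℝ) ^ 10 := by
    have : (N:ℝ) ^ 10 = (N:ℝ) ^ 5 * (N:ℝ) ^ 5 := by ring
    rw [this]
    apply mul_le_mul_of_nonneg_right _ (by positivity)
    linarith
  have hlev2 : 2 * (N:ℝ) ^ 5 ≤ (N:ℝ) ^ 10 := by linarith
  have hlev3 : 2 * (2 * (N:ℝ) ^ 5) ≤ (N:ℝ) ^ 10 := by linarith
  have hq' := hq q hR
  have hN0 : 0 < N := by omega
  have hJ7 : 10 ^ 7 ≤ J := hC.trans hCJ
  rcases le_total (J:ℝ) (eta * LL N) with hJ | hJ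
  · have c1 := (hA q J hR hCJ hJ).mono (Q := _) hlev2 (fun _ h => h)
    have c2 := (hB1 q J hR hCJ hJ).mono (Q := _) hlev3 (fun _ h => h)
    have c3 := (hB2 q J hR hCJ hJ).mono (Q := _) hlev3 (fun _ h => h)
    refine (c1.and (c2.and c3)).mono le_rfl ?_
    rintro σ ⟨s1, s2, s3⟩
    exact MC_caseI hN0 hJ7 (by linarith) hq' σ s1 s2 s3
  · have c1 := (hC1 q J hR hCJ hJq hJ).mono (Q := _) hlev2 (fun _ h => h)
    have c2 := (hC2 q J hR hCJ hJq hJ).mono (Q := _) hlev2 (fun _ h => h)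
    refine (c1.and c2).mono le_rfl ?_
    rintro σ ⟨s1, s2⟩
    exact MC_caseII hN0 hJ hL hq' σ s1 s2

end Pool.Agent.CG
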