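import Pool.Agent.CG.G3
import Pool.Agent.CG.G4
import Pool.Agent.CG.MC

/-!
# CG Final: the frozen statement
-/

set_option autoImplicit false

namespace Pool.Agent.CG

open Finset Filter

private theorem final_x0 : ∀ᶠ N : ℕ in atTop, 0 ≤ 2 * LL N - 2 * Real.logb 2 (LL N) := by
  have h : Tendsto (fun N : ℕ => LL N) atTop atTop := by
    unfold LL
    exact (Real.tendsto_logb_atTop (by norm_num)).comp tendsto_natCast_atTop_atTop
  filter_upwards [h.eventually_ge_atTop 1] with N hN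
  have h1 : Real.logb 2 (LL N) ≤ LL N := by
    rw [Real.logb_le_iff_le_rpow (by norm_num) (by linarith)]
    have := one_add_mul_self_le_rpow_one_add (s := 1) (by norm_num) hN
    norm_num at this ⊢
    linarith
  linarith

theorem final :
    ∃ C : ℝ, ∃ N₀ : ℕ, ∀ N : ℕ, N₀ ≤ N → ∀ q : ℕ,
      2 * Real.logb 2 (N : ℝ) - 2 * Real.logb 2 (Real.logb 2 (N : ℝ)) + C ≤ (q : ℝ) →
      ∃ P : Set (Finset (Sym2 (Fin N)) × Finset (Sym2 (Fin N))),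
        ((∅ : Finset (Sym2 (Fin N))), (∅ : Finset (Sym2 (Fin N)))) ∈ P ∧
        ∀ p ∈ P, ∀ A : Finset (Sym2 (Fin N)),
          A ⊆ (⊤ : SimpleGraph (Fin N)).edgeFinset \ (p.1 ∪ p.2) →
          A.card = min 2 ((⊤ : SimpleGraph (Fin N)).edgeFinset \ (p.1 ∪ p.2)).card →
          (¬ ∃ s : Finset (Fin N), s.card = q ∧
              ∀ x ∈ s, ∀ y ∈ s, x ≠ y → s(x, y) ∈ p.1 ∪ A) ∧
          ∃ D : Finset (Sym2 (Fin N)),
            D ⊆ (⊤ : SimpleGraph (Fin N)).edgeFinset \ (p.1 ∪ p.2 ∪ A) ∧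
            D.card = min 2 ((⊤ : SimpleGraph (Fin N)).edgeFinset \ (p.1 ∪ p.2 ∪ A)).card ∧
            (p.1 ∪ A, p.2 ∪ D) ∈ P := by
  obtain ⟨C, hC⟩ := ((base.and gameNum).and (mainClaim.and regNum)).exists
  obtain ⟨⟨h1, h2⟩, h3, h4⟩ := hC
  obtain ⟨N₀, hN₀⟩ := eventually_atTop.1 ((h1.and h2).and ((h3.and h4).and
    (final_x0.and (eventually_ge_atTop 8))))
  refine ⟨C, N₀, fun N hN q hq => ?_⟩
  obtain ⟨⟨h1, h2⟩, ⟨h3, h4⟩, h5, hN8⟩ := hN₀ N hN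
  set x : ℝ := 2 * LL N - 2 * Real.logb 2 (LL N) + C with hx
  set q₀ : ℕ := ⌈x⌉₊ with hq₀
  have hle : x ≤ q₀ := Nat.le_ceil x
  have hq₀q : q₀ ≤ q := Nat.ceil_le.2 (by simpa [hx, LL] using hq)
  have hx0 : 0 ≤ x := by
    have : (0:ℝ) ≤ C := by positivity
    linarith
  have hreg : Reg C N q₀ := ⟨hle, (Nat.ceil_lt_add_one hx0).le⟩
  have hnum := h2 q₀ hreg
  have hrn := h4 q₀ hreg
  have hN1 : (1:ℝ) ≤ N := by exact_mod_cast (by omega : 1 ≤ N)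
  -- q₀ ≤ N
  have hqN : (q₀ : ℝ) ≤ 2 * N := by
    have : LL N ≤ N := by
      unfold LL
      rw [Real.logb_le_iff_le_rpow (by norm_num) (by linarith)]
      have := one_add_mul_self_le_rpow_one_add (s := 1) (by norm_num) hN1
      norm_num at this ⊢
      linarith
    linarith [hrn.2.1]
  -- one certificate
  have hcert : Cert (4:ℝ) (fun σ : St (Sym2 (Fin N)) =>
      (∀ A : Finset (Fin N), A.card = q₀ → Disjoint (ed A) σ.B → ed A ⊆ σ.M →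
        ∃ J ∈ Icc C q₀, 2 * J * q₀ ≤ dd σ (ed A) ∧ dd σ (ed A) ≤ 2 * (J + 1) * q₀) ∧
      ∀ J : Fin (q₀ + 1), C ≤ (J : ℕ) →
        ((GJ σ q₀ J).card : ℝ) ≤ (2:ℝ) ^ ((0.78:ℝ) * uJ N J)) := by
    have hNp : (8:ℝ) * (2 * N + 1) ≤ (N:ℝ) ^ 5 := by
      have h8 : (8:ℝ) ≤ N := by exact_mod_cast hN8
      have h2 : (64:ℝ) ≤ (N:ℝ) ^ 2 := by nlinarith
      have h4 : (64:ℝ) * 64 ≤ (N:ℝ) ^ 4 := by
        have : (N:ℝ) ^ 4 = (N:ℝ) ^ 2 * (N:ℝ) ^ 2 := by ring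
        nlinarith
      have : (N:ℝ) ^ 5 = (N:ℝ) ^ 4 * N := by ring
      nlinarith
    apply Cert.and
    · refine (h1 q₀ hreg).mono ?_ fun σ h => h
      linarith
    · apply Cert.forall
      intro J
      by_cases hJ : C ≤ (J : ℕ)
      · refine (h3 q₀ J hreg hJ (by have := J.2; omega)).mono ?_ fun σ h _ => h
        rw [Fintype.card_fin]
        push_cast
        nlinarith
      · exact Cert.of_forall fun σ h => absurd h hJ
  obtain ⟨c₀, hc₀, hc⟩ := hcert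
  obtain ⟨P, hP0, hP⟩ := game_main (q := q₀) (Icc C q₀) c₀ hc₀
    (fun σ hσ J hJ => (hc σ hσ).2 ⟨J, by rw [mem_Icc] at hJ; omega⟩ (mem_Icc.1 hJ).1)
    (fun σ hσ => (hc σ hσ).1) hnum.1 hnum.2.1 hnum.2.2
  refine ⟨P, hP0, fun p hp A hA hAc => ?_⟩
  obtain ⟨h6, h7⟩ := hP p hp A hA hAc
  refine ⟨?_, h7⟩
  rintro ⟨s, hs, hsE⟩
  apply h6
  obtain ⟨t, ht, htc⟩ := exists_subset_card_eq (hq₀q.trans hs.ge)
  exact ⟨t, htc, fun x hx y hy hxy => hsE x (ht hx) y (ht hy) hxy⟩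

end Pool.Agent.CG
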