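import Pool.Agent.CG.GDefs

/-!
# CG G0: Maker moves and the first move

PAPER PROOF. `exists_makerMove`: |A| = 2, A = {e,f}: let pi' swap e and f and agree with pi elsewhere
(pi e = e, pi f = f because e, f ∉ M, by the field `mem`; and no g ∉ A has pi g ∈ A, since pi g = e
would give g = pi e = e). |A| ≤ 1: pi' = pi.
`W_makerMove_*`: if H ∩ A = {e} (exactly one new edge) then cl grows by one and dd does not change:
W' = 2 W (or both 0). If A = {e,f} ⊆ H then cl grows by 2 and dd by 2: W' = 2^(2-2β) W = 3 W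
(`two_rpow_beta`). If H ∩ A = ∅, W' = W. In particular W' ≤ 3^… : `W_makerMove_le`.
`firstMove`: M = B = ∅ gives pi = id, W σ H = 1 for all H, W σ' H ≤ 3.
-/

set_option autoImplicit false

namespace Pool.Agent.CG

open Finset

variable {α : Type} [DecidableEq α]

private theorem G0_pi_of_not_mem (σ : St α) {e : α} (h : e ∉ σ.M) : σ.pi e = e := by
  by_contra hne
  exact h (σ.mem e hne)

theorem exists_makerMove (σ : St α) (A : Finset α) (hA : A.card ≤ 2) (hAM : Disjoint A σ.M) :
    ∃ σ', MakerMove σ A σ' := by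
  have hpi : ∀ e ∈ A, σ.pi e = e := fun e he =>
    G0_pi_of_not_mem σ (Finset.disjoint_left.1 hAM he)
  by_cases h2 : A.card = 2
  · obtain ⟨e, f, hef, rfl⟩ := Finset.card_eq_two.1 h2
    have he : σ.pi e = e := hpi e (by simp)
    have hf : σ.pi f = f := hpi f (by simp)
    have hne : ∀ g, g ≠ e → σ.pi g ≠ e := by
      intro g hg hc
      apply hg
      rw [← σ.inv g, hc, he]
    have hnf : ∀ g, g ≠ f → σ.pi g ≠ f := by
      intro g hg hc
      apply hg
      rw [← σ.inv g, hc, hf]
    refine ⟨⟨σ.M ∪ {e, f}, σ.B, fun g => if g = e then f else if g = f then e else σ.pi g,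
      ?_, ?_⟩, rfl, rfl, ?_, ?_, ?_⟩
    · intro g
      by_cases h1 : g = e
      · subst h1
        simp [hef.symm]
      · by_cases h3 : g = f
        · subst h3
          simp [h1]
        · simp only [if_neg h1, if_neg h3, if_neg (hne g h1), if_neg (hnf g h3)]
          exact σ.inv g
    · intro g hg
      by_cases h1 : g = e
      · subst h1; simp
      · by_cases h3 : g = f
        · subst h3; simp
        · simp only [if_neg h1, if_neg h3] at hg
          exact Finset.mem_union_left _ (σ.mem g hg)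
    · intro g hg
      simp only [mem_insert, mem_singleton, not_or] at hg
      simp only [if_neg hg.1, if_neg hg.2]
    · intro _ g hg
      simp only [mem_insert, mem_singleton] at hg
      rcases hg with rfl | rfl
      · simp [hef.symm]
      · simp [hef, hef.symm]
    · intro h _ _
      exact absurd h2 h
  · exact ⟨⟨σ.M ∪ A, σ.B, σ.pi, σ.inv, fun g hg => Finset.mem_union_left _ (σ.mem g hg)⟩,
      rfl, rfl, fun _ _ => rfl, fun h => absurd h h2, fun _ e he => hpi e he⟩

private theorem G0_dd {σ σ' : St α} {A : Finset α} (h : MakerMove σ A σ')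
    (hAM : Disjoint A σ.M) (H : Finset α) :
    dd σ' H = dd σ H + ((H ∩ A).filter (fun e => σ'.pi e ≠ e ∧ σ'.pi e ∈ H)).card := by
  unfold dd
  rw [← card_union_of_disjoint]
  · congr 1
    ext e
    simp only [mem_filter, mem_union, mem_inter]
    by_cases he : e ∈ A
    · have h1 : σ.pi e = e := G0_pi_of_not_mem σ (Finset.disjoint_left.1 hAM he)
      constructor
      · rintro ⟨a, b⟩
        exact Or.inr ⟨⟨a, he⟩, b⟩
      · rintro (⟨a, b, c⟩ | ⟨⟨a, _⟩, b⟩)
        · exact absurd h1 b
        · exact ⟨a, b⟩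
    · rw [h.2.2.1 e he]
      constructor
      · rintro ⟨a, b⟩
        exact Or.inl ⟨a, b⟩
      · rintro (⟨a, b⟩ | ⟨⟨_, a⟩, _⟩)
        · exact ⟨a, b⟩
        · exact absurd a he
  · rw [disjoint_left]
    intro e he he'
    simp only [mem_filter, mem_inter] at he he'
    exact he.2.1 (G0_pi_of_not_mem σ (Finset.disjoint_left.1 hAM he'.1.2))

/-- the numbers `cl`, `dd` under a Maker move -/
theorem cl_makerMove {σ σ' : St α} {A : Finset α} (h : MakerMove σ A σ')
    (hAM : Disjoint A σ.M) (H : Finset α) : cl σ' H = cl σ H + (H ∩ A).card := by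
  unfold cl
  rw [h.1, inter_union_distrib_left, card_union_of_disjoint]
  exact disjoint_of_subset_left inter_subset_right
    (disjoint_of_subset_right inter_subset_right hAM.symm)

theorem dd_makerMove {σ σ' : St α} {A : Finset α} (h : MakerMove σ A σ')
    (hAM : Disjoint A σ.M) (hA : A.card ≤ 2) (H : Finset α) :
    dd σ H ≤ dd σ' H ∧ dd σ' H ≤ dd σ H + (H ∩ A).card := by
  have := hA
  rw [G0_dd h hAM H]
  refine ⟨Nat.le_add_right _ _, Nat.add_le_add_left (card_le_card (filter_subset _ _)) _⟩

private theorem G0_cl_zero {σ σ' : St α} {A H : Finset α} (h : MakerMove σ A σ')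
    (hH : Disjoint H A) : cl σ' H = cl σ H := by
  unfold cl
  rw [h.1, inter_union_distrib_left, disjoint_iff_inter_eq_empty.1 hH, union_empty]

private theorem G0_dd_zero {σ σ' : St α} {A H : Finset α} (h : MakerMove σ A σ')
    (hH : Disjoint H A) : dd σ' H = dd σ H := by
  unfold dd
  congr 1
  apply filter_congr
  intro e he
  rw [h.2.2.1 e (Finset.disjoint_left.1 hH he)]

/-- no new edge in `H` -/
theorem W_makerMove_zero {σ σ' : St α} {A H : Finset α} (h : MakerMove σ A σ')
    (hH : Disjoint H A) : W σ' H = W σ H := by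
  unfold W lw
  rw [h.2.1, G0_cl_zero h hH, G0_dd_zero h hH]

/-- exactly one new edge in `H` -/
theorem W_makerMove_one {σ σ' : St α} {A H : Finset α} (h : MakerMove σ A σ')
    (hAM : Disjoint A σ.M) (hA : A.card ≤ 2) (hH : (H ∩ A).card = 1) : W σ' H = 2 * W σ H := by
  have hz : ((H ∩ A).filter (fun e => σ'.pi e ≠ e ∧ σ'.pi e ∈ H)).card = 0 := by
    rw [card_eq_zero, filter_eq_empty_iff]
    rintro e he ⟨h1, h2⟩
    have heA := (mem_inter.1 he).2
    by_cases hc : A.card = 2
    · have h3 := (h.2.2.2.1 hc e heA).1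
      obtain ⟨x, hx⟩ := card_eq_one.1 hH
      have e1 : e = x := by
        have := he
        rw [hx] at this
        exact mem_singleton.1 this
      have e2 : σ'.pi e = x := by
        have : σ'.pi e ∈ H ∩ A := mem_inter.2 ⟨h2, h3⟩
        rw [hx] at this
        exact mem_singleton.1 this
      exact h1 (e2.trans e1.symm)
    · exact h1 (h.2.2.2.2 hc e heA)
  have hlw : lw σ' H = 1 + lw σ H := by
    unfold lw
    rw [cl_makerMove h hAM H, G0_dd h hAM H, hz, hH]
    push_cast
    ring
  unfold W
  rw [h.2.1, hlw, Real.rpow_add (by norm_num), Real.rpow_one]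
  split_ifs <;> simp

/-- two new edges in `H` -/
theorem W_makerMove_two {σ σ' : St α} {A H : Finset α} (h : MakerMove σ A σ')
    (hAM : Disjoint A σ.M) (hA : A.card ≤ 2) (hH : (H ∩ A).card = 2) : W σ' H = 3 * W σ H := by
  have hle : (H ∩ A).card ≤ A.card := card_le_card inter_subset_right
  have hc : A.card = 2 := by omega
  have hsub : H ∩ A = A := eq_of_subset_of_card_le inter_subset_right (by omega)
  have hAH : A ⊆ H := by
    rw [← hsub]
    exact inter_subset_left
  have hz : ((H ∩ A).filter (fun e => σ'.pi e ≠ e ∧ σ'.pi e ∈ H)).card = 2 := by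
    rw [filter_true_of_mem, hH]
    intro e he
    have heA := (mem_inter.1 he).2
    have h3 := h.2.2.2.1 hc e heA
    exact ⟨h3.2, hAH h3.1⟩
  have hlw : lw σ' H = (2 - 2 * beta) + lw σ H := by
    unfold lw
    rw [cl_makerMove h hAM H, G0_dd h hAM H, hz, hH]
    push_cast
    ring
  unfold W
  rw [h.2.1, hlw, Real.rpow_add (by norm_num), two_rpow_beta]
  split_ifs <;> simp

theorem W_brk_le (σ : St α) (D H : Finset α) : W (brk σ D) H ≤ W σ H := by
  by_cases h : Disjoint H (brk σ D).B
  · have h' : Disjoint H σ.B := disjoint_of_subset_right subset_union_left h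
    rw [W_of_disjoint h, W_of_disjoint h']
    exact le_rfl
  · have : W (brk σ D) H = 0 := by
      unfold W
      rw [if_neg h]
    rw [this]
    exact W_nonneg σ H

theorem firstMove [Fintype α] (c : Finset α → ℝ) (hc : IsPrior c) (σ σ' : St α) (A : Finset α)
    (hM : σ.M = ∅) (hB : σ.B = ∅) (hA : A.card ≤ 2) (h : MakerMove σ A σ') : Phi c σ' ≤ 3 := by
  have hW1 : ∀ H, W σ H = 1 := by
    intro H
    have h1 : cl σ H = 0 := by
      unfold cl
      rw [hM, inter_empty, card_empty]
    have h2 : dd σ H = 0 := Nat.le_zero.1 (h1 ▸ dd_le_cl σ H)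
    rw [W_of_disjoint (by rw [hB]; exact disjoint_empty_right H)]
    unfold lw
    rw [h1, h2]
    simp
  have hAM : Disjoint A σ.M := by
    rw [hM]
    exact disjoint_empty_right A
  have hW3 : ∀ H, W σ' H ≤ 3 := by
    intro H
    have hle : (H ∩ A).card ≤ A.card := card_le_card inter_subset_right
    have hcases : (H ∩ A).card = 0 ∨ (H ∩ A).card = 1 ∨ (H ∩ A).card = 2 := by omega
    rcases hcases with h0 | h0 | h0
    · rw [W_makerMove_zero h (disjoint_iff_inter_eq_empty.2 (card_eq_zero.1 h0)), hW1]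
      norm_num
    · rw [W_makerMove_one h hAM hA h0, hW1]
      norm_num
    · rw [W_makerMove_two h hAM hA h0, hW1]
      norm_num
  unfold Phi
  calc ∑ H, c H * W σ' H ≤ ∑ H, c H * 3 :=
        sum_le_sum fun H _ => mul_le_mul_of_nonneg_left (hW3 H) (hc.1 H)
    _ = (∑ H, c H) * 3 := by rw [sum_mul]
    _ ≤ 1 * 3 := mul_le_mul_of_nonneg_right hc.2 (by norm_num)
    _ = 3 := by norm_num

end Pool.Agent.CG
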