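import Pool.Agent.CG.G0

/-!
# CG G1: greedy Breaker (X is the board)

PAPER PROOF. danger c σ e := ∑_{H ∋ e} c H * W σ H. Let Y = X \ (M ∪ B).
If |Y| ≤ 2 take D = Y: then A = ∅ and σ' has the same M, pi and more Breaker edges, so Phi decreases
(`W_makerMove_zero`, `W_brk_le`). Otherwise let e ∈ Y maximise danger c σ, σ₁ = brk σ {e}, and let
f ∈ Y \ {e} maximise danger c σ₁; D = {e,f}, σ₂ = brk σ D. Then
Phi c σ₂ = Phi c σ - danger c σ e - danger c σ₁ f.
For A = {a,b} ⊆ Y \ D (or A = {a}): Phi c σ' = Phi c σ₂ + danger c σ₂ a + danger c σ₂ b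
(H with exactly one of them doubles, with both is tripled: 3 = 1+1+1). Finally
danger c σ₂ a ≤ danger c σ₁ a ≤ danger c σ₁ f and danger c σ₂ b ≤ danger c σ b ≤ danger c σ e.
-/

set_option autoImplicit false

namespace Pool.Agent.CG

open Finset

variable {α : Type} [DecidableEq α]

/-- the danger of an edge -/
private noncomputable def danger [Fintype α] (c : Finset α → ℝ) (σ : St α) (e : α) : ℝ :=
  ∑ H, if e ∈ H then c H * W σ H else 0

/-- after Breaker's edge `e` -/
private theorem W_brk (σ : St α) (D H : Finset α) :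
    W (brk σ D) H = if Disjoint H D then W σ H else 0 := by
  have h1 : lw (brk σ D) H = lw σ H := rfl
  have h2 : (Disjoint H (brk σ D).B) ↔ (Disjoint H σ.B ∧ Disjoint H D) := by
    show Disjoint H (σ.B ∪ D) ↔ _
    exact disjoint_union_right
  unfold W
  rw [h1]
  by_cases hB : Disjoint H σ.B <;> by_cases hD : Disjoint H D
  · rw [if_pos (h2.2 ⟨hB, hD⟩), if_pos hD, if_pos hB]
  · rw [if_neg (fun h => hD (h2.1 h).2), if_neg hD]
  · rw [if_neg (fun h => hB (h2.1 h).1), if_pos hD, if_neg hB]
  · rw [if_neg (fun h => hD (h2.1 h).2), if_neg hD]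

private theorem W_makerMove_all {σ σ' : St α} {A H : Finset α} (h : MakerMove σ A σ')
    (hAM : Disjoint A σ.M) (hA : A.card ≤ 2) :
    W σ' H = W σ H + ∑ a ∈ A, (if a ∈ H then W σ H else 0) := by
  have hs : ∑ a ∈ A, (if a ∈ H then W σ H else 0) = ((H ∩ A).card : ℝ) * W σ H := by
    rw [← sum_filter, sum_const, nsmul_eq_mul, filter_mem_eq_inter, inter_comm]
  rw [hs]
  have hle : (H ∩ A).card ≤ 2 := (card_le_card inter_subset_right).trans hA
  have hc : (H ∩ A).card = 0 ∨ (H ∩ A).card = 1 ∨ (H ∩ A).card = 2 := by omega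
  rcases hc with hc | hc | hc
  · have hd : Disjoint H A := by
      rw [disjoint_iff_inter_eq_empty]; exact card_eq_zero.1 hc
    rw [W_makerMove_zero h hd, hc]; simp
  · rw [W_makerMove_one h hAM hA hc, hc]; push_cast; ring
  · rw [W_makerMove_two h hAM hA hc, hc]; push_cast; ring

private theorem Phi_makerMove [Fintype α] (c : Finset α → ℝ) {σ σ' : St α} {A : Finset α}
    (h : MakerMove σ A σ') (hAM : Disjoint A σ.M) (hA : A.card ≤ 2) :
    Phi c σ' = Phi c σ + ∑ a ∈ A, danger c σ a := by
  unfold Phi danger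
  rw [sum_comm, ← sum_add_distrib]
  refine sum_congr rfl fun H _ => ?_
  rw [W_makerMove_all h hAM hA, mul_add, mul_sum]
  congr 1
  refine sum_congr rfl fun a _ => ?_
  split_ifs <;> simp

private theorem Phi_brk_single [Fintype α] (c : Finset α → ℝ) (σ : St α) (e : α) :
    Phi c (brk σ {e}) = Phi c σ - danger c σ e := by
  unfold Phi danger
  rw [← sum_sub_distrib]
  refine sum_congr rfl fun H _ => ?_
  rw [W_brk]
  by_cases he : e ∈ H
  · rw [if_neg (by simpa using he), if_pos he]; ring
  · rw [if_pos (by simpa using he), if_neg he]; ring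

private theorem brk_brk (σ : St α) (D D' : Finset α) : brk (brk σ D) D' = brk σ (D ∪ D') := by
  unfold brk
  simp [union_assoc]

private theorem danger_brk_le [Fintype α] (c : Finset α → ℝ) (hc : ∀ H, 0 ≤ c H) (σ : St α)
    (D : Finset α) (e : α) : danger c (brk σ D) e ≤ danger c σ e := by
  unfold danger
  refine sum_le_sum fun H _ => ?_
  split_ifs
  · exact mul_le_mul_of_nonneg_left (W_brk_le σ D H) (hc H)
  · exact le_rfl

theorem greedy [Fintype α] (c : Finset α → ℝ) (hc : ∀ H, 0 ≤ c H) (σ : St α) (X : Finset α) :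
    ∃ D ⊆ X \ (σ.M ∪ σ.B), D.card = min 2 (X \ (σ.M ∪ σ.B)).card ∧
      ∀ A ⊆ X \ (σ.M ∪ σ.B ∪ D), A.card = min 2 (X \ (σ.M ∪ σ.B ∪ D)).card →
        ∀ σ', MakerMove (brk σ D) A σ' → Phi c σ' ≤ Phi c σ := by
  set Y := X \ (σ.M ∪ σ.B) with hY
  by_cases hcard : Y.card ≤ 2
  · refine ⟨Y, Subset.rfl, by omega, ?_⟩
    intro A hA _ σ' h
    have hA0 : A = ∅ := by
      rw [← subset_empty]
      intro a ha
      have := hA ha
      simp only [mem_sdiff, mem_union, not_or, hY] at this
      exact absurd ⟨this.1, this.2.1⟩ this.2.2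
    subst hA0
    unfold Phi
    refine sum_le_sum fun H _ => mul_le_mul_of_nonneg_left ?_ (hc H)
    rw [W_makerMove_zero h (disjoint_empty_right H)]
    exact W_brk_le σ Y H
  · push Not at hcard
    obtain ⟨e, heY, hemax⟩ := exists_max_image Y (danger c σ) (card_pos.1 (by omega))
    have hcard1 : (Y.erase e).card = Y.card - 1 := card_erase_of_mem heY
    obtain ⟨f, hfY, hfmax⟩ := exists_max_image (Y.erase e) (danger c (brk σ {e}))
      (card_pos.1 (by omega))
    have hfe : f ≠ e := ne_of_mem_erase hfY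
    have hfY' : f ∈ Y := mem_of_mem_erase hfY
    refine ⟨{e, f}, ?_, ?_, ?_⟩
    · intro x hx
      simp only [mem_insert, mem_singleton] at hx
      rcases hx with rfl | rfl
      · exact heY
      · exact hfY'
    · rw [card_pair (Ne.symm hfe)]; omega
    intro A hA hAcard σ' h
    have hA2 : A.card ≤ 2 := by omega
    have hAY : ∀ a ∈ A, a ∈ Y ∧ a ≠ e ∧ a ≠ f ∧ a ∉ σ.M := by
      intro a ha
      have := hA ha
      simp only [mem_sdiff, mem_union, not_or, mem_insert, mem_singleton] at this
      refine ⟨?_, this.2.2.1, this.2.2.2, this.2.1.1⟩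
      simp only [hY, mem_sdiff, mem_union, not_or]
      exact ⟨this.1, this.2.1⟩
    have hAM : Disjoint A (brk σ {e, f}).M := by
      rw [disjoint_left]
      intro a ha
      exact (hAY a ha).2.2.2
    rw [Phi_makerMove c h hAM hA2]
    have h12 : brk σ {e, f} = brk (brk σ {e}) {f} := by
      rw [brk_brk]; rfl
    have h2 : Phi c (brk σ {e, f}) = Phi c σ - danger c σ e - danger c (brk σ {e}) f := by
      rw [h12, Phi_brk_single, Phi_brk_single]
    have hd1 : ∀ a ∈ A, danger c (brk σ {e, f}) a ≤ danger c (brk σ {e}) f := by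
      intro a ha
      rw [h12]
      refine (danger_brk_le c hc _ _ a).trans (hfmax a ?_)
      exact mem_erase.2 ⟨(hAY a ha).2.1, (hAY a ha).1⟩
    have hd2 : ∀ a ∈ A, danger c (brk σ {e, f}) a ≤ danger c σ e := by
      intro a ha
      exact (danger_brk_le c hc _ _ a).trans (hemax a (hAY a ha).1)
    have hnn : ∀ (τ : St α) (a : α), 0 ≤ danger c τ a := by
      intro τ a
      unfold danger
      refine sum_nonneg fun H _ => ?_
      split_ifs
      · exact mul_nonneg (hc H) (W_nonneg τ H)
      · exact le_rfl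
    rw [h2]
    have hcases : A.card = 0 ∨ A.card = 1 ∨ A.card = 2 := by omega
    have n1 := hnn σ e
    have n2 := hnn (brk σ {e}) f
    rcases hcases with h0 | h1 | h2
    · rw [card_eq_zero.1 h0, sum_empty]; linarith
    · obtain ⟨a, rfl⟩ := card_eq_one.1 h1
      rw [sum_singleton]
      have := hd1 a (mem_singleton_self a)
      linarith
    · obtain ⟨a, b, hab, rfl⟩ := card_eq_two.1 h2
      rw [sum_pair hab]
      have t1 := hd1 a (by simp)
      have t2 := hd2 b (by simp)
      linarith

end Pool.Agent.CG
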