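import Pool.Agent.CG.G1

/-!
# CG G3: from the main claim to the positional strategy

PAPER PROOF. Board X = (⊤ : SimpleGraph (Fin N)).edgeFinset. Note ed A ⊆ X for every A, |ed A| =
C(|A|,2). Let P be the set of (M,B) such that there are a state σ with σ.M = M, σ.B = B and
coefficients c with: (I0) M, B ⊆ X, Disjoint M B, and 0 ≤ c₀ H ≤ c H for all H; (I1) for every
A ⊆ X \ (M ∪ B) with |A| = min 2 |X \ (M ∪ B)| and every σ' with MakerMove σ A σ':
Phi c σ' ≤ 3 + |M|/N²; (I3) for every J ∈ Js and every A₀ with |A₀| = q, Disjoint (ed A₀) B and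
|ed A₀ \ M| ≤ uJ N J there are natural numbers cl', dd' with
  cl' + uJ N J ≤ C(q,2) + 0 … precisely  C(q,2) ≤ cl' + uJ N J ≤ C(q,2)+… i.e.
  (a) C(q,2) ≤ cl' + uJ ∧ cl' + uJ ≤ C(q,2) + 1 (unclaimed number at the crossing is uJ or uJ - 1),
  (b) cl' ≤ cl σ (ed A₀), dd' ≤ dd σ (ed A₀), dd σ (ed A₀) - dd' ≤ cl σ (ed A₀) - cl' (as integers),
  (c) if 1.96 J q ≤ dd' and dd' ≤ 2(J+1)q then c (ed A₀) ≥ theta N J / 2^(cl' - β dd').
(∅,∅) ∈ P with c = c₀ (I1: `firstMove`; I3 is void since |ed A₀| = C(q,2) > uJ by hnum2).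
Let (M,B) ∈ P with σ, c, and let A be a legal Maker move; take σ' with MakerMove σ A σ' (`exists_makerMove`).
Phi c₀ σ' ≤ Phi c σ' ≤ 3 + |M|/N² ≤ 4 (|M| ≤ |X| ≤ N²). Let c' H = c H + ∑ over (J,A₀) with J ∈ Js,
|A₀| = q, ed A₀ = H, |ed A₀ \ M| > uJ (not crossed before), A₀ ∈ GJ σ' q J (crossed now) of
theta N J / W σ' H. Then Phi c' σ' = Phi c σ' + ∑_{J} theta N J * (number of such A₀ in GJ σ' q J)
≤ Phi c σ' + ∑_J theta N J 2^(0.78 uJ) ≤ Phi c σ' + 1/N² (hcl, hnum3), and if A = ∅ nothing crosses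
and c' = c. So Phi c' σ' ≤ 3 + |M ∪ A|/N² ≤ 4. (I3) holds for σ', c': sets crossed before keep cl', dd'
(`cl_makerMove`, `dd_makerMove`: dd grows by at most the growth of cl); sets crossing now take
cl' = cl σ' (ed A₀), dd' = dd σ' (ed A₀): before, more than uJ pairs were unclaimed, so at least
uJ + 1, and at most 2 were claimed now: (a) holds.
No K_q in M ∪ A: otherwise A₀ with |A₀| = q, ed A₀ ⊆ σ'.M, disjoint from B (Disjoint M B). By hbase
there is J ∈ Js with 2Jq ≤ dd ≤ 2(J+1)q. By (I3): dd' ≥ dd - (cl - cl') ≥ 2Jq - uJ ≥ 1.96 J q (hnum1),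
dd' ≤ dd ≤ 2(J+1)q, so c' (ed A₀) W σ' (ed A₀) ≥ theta * 2^((cl-cl') - β(dd-dd'))
≥ theta * 2^((1-β)(cl - cl')) ≥ theta * 2^((1-β)(uJ - 1)) = 8 > 4 ≥ Phi c' σ'. Contradiction.
Breaker's answer D: `greedy` for c', σ', X. The new position (M ∪ A, B ∪ D) with the state brk σ' D and
c' satisfies (I1) by `greedy`, (I3) since fewer sets are alive, (I0) clear.
-/

set_option autoImplicit false

namespace Pool.Agent.CG

open Finset Filter


section aux

variable {N : ℕ}

private theorem G3_mem_X (e : Sym2 (Fin N)) :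
    e ∈ (⊤ : SimpleGraph (Fin N)).edgeFinset ↔ ¬ e.IsDiag := by
  rw [SimpleGraph.mem_edgeFinset]
  induction e with
  | _ x y => simp

private theorem G3_ed_card (A : Finset (Fin N)) : (ed A).card = A.card.choose 2 := by
  rw [← Sym2.card_image_offDiag]
  congr 1
  ext e
  induction e with
  | _ x y =>
    simp only [ed, mem_filter, Finset.mk_mem_sym2_iff, Sym2.mk_isDiag_iff, mem_image, mem_offDiag,
      Prod.exists, Function.uncurry]
    constructor
    · rintro ⟨⟨h1, h2⟩, h3⟩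
      exact ⟨x, y, ⟨h1, h2, h3⟩, rfl⟩
    · rintro ⟨a, b, ⟨h1, h2, h3⟩, h4⟩
      rw [Sym2.eq_iff] at h4
      rcases h4 with ⟨rfl, rfl⟩ | ⟨rfl, rfl⟩
      · exact ⟨⟨h1, h2⟩, h3⟩
      · exact ⟨⟨h2, h1⟩, fun h => h3 h.symm⟩

/-- the crossing data -/
private def Inv3 (q : ℕ) (Js : Finset ℕ) (σ : St (Sym2 (Fin N)))
    (c : Finset (Sym2 (Fin N)) → ℝ) : Prop :=
  ∀ J ∈ Js, ∀ A₀ : Finset (Fin N), A₀.card = q → Disjoint (ed A₀) σ.B →
    (ed A₀ \ σ.M).card ≤ uJ N J →
    ∃ cl' dd' : ℕ, q.choose 2 ≤ cl' + uJ N J ∧ cl' + uJ N J ≤ q.choose 2 + 1 ∧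
      cl' ≤ cl σ (ed A₀) ∧ dd' ≤ dd σ (ed A₀) ∧ dd σ (ed A₀) + cl' ≤ cl σ (ed A₀) + dd' ∧
      ((1.96:ℝ) * J * q ≤ dd' → dd' ≤ 2 * (J + 1) * q →
        theta N J / (2:ℝ) ^ ((cl':ℝ) - beta * dd') ≤ c (ed A₀))

/-- the new coefficients -/
private noncomputable def newc (q : ℕ) (Js : Finset ℕ) (σ σ' : St (Sym2 (Fin N)))
    (c : Finset (Sym2 (Fin N)) → ℝ) (H : Finset (Sym2 (Fin N))) : ℝ :=
  c H + ∑ J ∈ Js, ∑ A₀ ∈ (GJ σ' q J).filter (fun A₀ => uJ N J < (ed A₀ \ σ.M).card ∧ ed A₀ = H),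
    theta N J / W σ' (ed A₀)

private theorem theta_pos (N J : ℕ) : 0 < theta N J := by
  unfold theta; positivity

private theorem le_newc (q : ℕ) (Js : Finset ℕ) (σ σ' : St (Sym2 (Fin N)))
    (c : Finset (Sym2 (Fin N)) → ℝ) (H : Finset (Sym2 (Fin N))) : c H ≤ newc q Js σ σ' c H := by
  unfold newc
  have : 0 ≤ ∑ J ∈ Js, ∑ A₀ ∈ (GJ σ' q J).filter
      (fun A₀ => uJ N J < (ed A₀ \ σ.M).card ∧ ed A₀ = H), theta N J / W σ' (ed A₀) :=
    sum_nonneg fun J _ => sum_nonneg fun A₀ _ => div_nonneg (theta_pos N J).le (W_nonneg _ _)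
  linarith

private theorem GJ_alive {σ : St (Sym2 (Fin N))} {q J : ℕ} {A₀ : Finset (Fin N)}
    (h : A₀ ∈ GJ σ q J) : 0 < W σ (ed A₀) := by
  unfold GJ at h
  rw [mem_filter] at h
  rw [W_of_disjoint h.2.1]
  positivity

private theorem Phi_newc (q : ℕ) (Js : Finset ℕ) (σ σ' : St (Sym2 (Fin N)))
    (c : Finset (Sym2 (Fin N)) → ℝ) :
    Phi (newc q Js σ σ' c) σ' = Phi c σ' +
      ∑ J ∈ Js, theta N J * (((GJ σ' q J).filter (fun A₀ => uJ N J < (ed A₀ \ σ.M).card)).card : ℝ) := by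
  unfold Phi newc
  simp_rw [add_mul, sum_add_distrib]
  congr 1
  simp_rw [sum_mul]
  rw [sum_comm]
  refine sum_congr rfl fun J _ => ?_
  have h1 : ∀ H : Finset (Sym2 (Fin N)),
      ∑ A₀ ∈ (GJ σ' q J).filter (fun A₀ => uJ N J < (ed A₀ \ σ.M).card ∧ ed A₀ = H),
        theta N J / W σ' (ed A₀) * W σ' H =
      ∑ A₀ ∈ ((GJ σ' q J).filter (fun A₀ => uJ N J < (ed A₀ \ σ.M).card)).filter
        (fun A₀ => ed A₀ = H), theta N J := by
    intro H
    rw [filter_filter]
    refine sum_congr rfl fun A₀ hA₀ => ?_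
    rw [mem_filter] at hA₀
    have hp := GJ_alive hA₀.1
    rw [← hA₀.2.2]
    field_simp
  rw [sum_congr rfl fun H _ => h1 H, sum_fiberwise]
  rw [sum_const, nsmul_eq_mul, mul_comm]

private theorem inv3_step {q : ℕ} {Js : Finset ℕ} {σ σ' : St (Sym2 (Fin N))}
    {c : Finset (Sym2 (Fin N)) → ℝ} {A : Finset (Sym2 (Fin N))} (hc : ∀ H, 0 ≤ c H)
    (h : MakerMove σ A σ')
    (hAM : Disjoint A σ.M) (hA : A.card ≤ 2) (inv : Inv3 q Js σ c) :
    Inv3 q Js σ' (newc q Js σ σ' c) := by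
  intro J hJ A₀ hq hB hu
  have hcl := cl_makerMove h hAM (ed A₀)
  have hdd := dd_makerMove h hAM hA (ed A₀)
  have hB' : Disjoint (ed A₀) σ.B := by rw [← h.2.1]; exact hB
  by_cases hold : (ed A₀ \ σ.M).card ≤ uJ N J
  · obtain ⟨cl', dd', h1, h2, h3, h4, h5, h6⟩ := inv J hJ A₀ hq hB' hold
    refine ⟨cl', dd', h1, h2, by omega, by omega, by omega, ?_⟩
    intro a b
    exact (h6 a b).trans (le_newc _ _ _ _ _ _)
  · push Not at hold
    have hI : ((ed A₀) ∩ A).card ≤ 2 := (card_le_card inter_subset_right).trans hA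
    have e1 := cl_add_card_sdiff σ (ed A₀)
    have e2 := cl_add_card_sdiff σ' (ed A₀)
    rw [G3_ed_card, hq] at e1 e2
    refine ⟨cl σ' (ed A₀), dd σ' (ed A₀), by omega, by omega, le_rfl, le_rfl, by omega, ?_⟩
    intro a b
    have hG : A₀ ∈ GJ σ' q J := by
      unfold GJ
      rw [mem_filter, mem_powersetCard]
      exact ⟨⟨subset_univ _, hq⟩, hB, hu, a, b⟩
    have hW : W σ' (ed A₀) = (2:ℝ) ^ ((cl σ' (ed A₀) : ℝ) - beta * dd σ' (ed A₀)) :=
      W_of_disjoint hB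
    unfold newc
    have hc' : theta N J / W σ' (ed A₀) ≤ ∑ J ∈ Js, ∑ A₁ ∈ (GJ σ' q J).filter
        (fun A₁ => uJ N J < (ed A₁ \ σ.M).card ∧ ed A₁ = ed A₀), theta N J / W σ' (ed A₁) := by
      refine le_trans ?_ (single_le_sum (f := fun J => ∑ A₁ ∈ (GJ σ' q J).filter
        (fun A₁ => uJ N J < (ed A₁ \ σ.M).card ∧ ed A₁ = ed A₀), theta N J / W σ' (ed A₁)) ?_ hJ)
      · refine single_le_sum (f := fun A₁ => theta N J / W σ' (ed A₁)) ?_ ?_
        · intro A₁ _
          exact div_nonneg (theta_pos N J).le (W_nonneg _ _)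
        · rw [mem_filter]
          exact ⟨hG, hold, rfl⟩
      · intro J' _
        exact sum_nonneg fun A₁ _ => div_nonneg (theta_pos N J').le (W_nonneg _ _)
    rw [← hW]
    linarith [hc (ed A₀)]

end aux

theorem game_main {N q : ℕ} (Js : Finset ℕ) (c₀ : Finset (Sym2 (Fin N)) → ℝ) (hc₀ : IsPrior c₀)
    (hcl : ∀ σ : St (Sym2 (Fin N)), Phi c₀ σ ≤ 4 → ∀ J ∈ Js,
      ((GJ σ q J).card : ℝ) ≤ (2:ℝ) ^ ((0.78:ℝ) * uJ N J))
    (hbase : ∀ σ : St (Sym2 (Fin N)), Phi c₀ σ ≤ 4 → ∀ A : Finset (Fin N), A.card = q →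
      Disjoint (ed A) σ.B → ed A ⊆ σ.M →
        ∃ J ∈ Js, 2 * J * q ≤ dd σ (ed A) ∧ dd σ (ed A) ≤ 2 * (J + 1) * q)
    (hnum1 : ∀ J ∈ Js, (1.96:ℝ) * J * q + uJ N J ≤ 2 * J * q)
    (hnum2 : ∀ J ∈ Js, uJ N J < q.choose 2)
    (hnum3 : ∑ J ∈ Js, theta N J * (2:ℝ) ^ ((0.78:ℝ) * uJ N J) ≤ 1 / (N:ℝ) ^ 2) :
    ∃ P : Set (Finset (Sym2 (Fin N)) × Finset (Sym2 (Fin N))),
      ((∅ : Finset (Sym2 (Fin N))), (∅ : Finset (Sym2 (Fin N)))) ∈ P ∧
      ∀ p ∈ P, ∀ A : Finset (Sym2 (Fin N)),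
        A ⊆ (⊤ : SimpleGraph (Fin N)).edgeFinset \ (p.1 ∪ p.2) →
        A.card = min 2 ((⊤ : SimpleGraph (Fin N)).edgeFinset \ (p.1 ∪ p.2)).card →
        (¬ ∃ s : Finset (Fin N), s.card = q ∧
            ∀ x ∈ s, ∀ y ∈ s, x ≠ y → s(x, y) ∈ p.1 ∪ A) ∧
        ∃ D : Finset (Sym2 (Fin N)),
          D ⊆ (⊤ : SimpleGraph (Fin N)).edgeFinset \ (p.1 ∪ p.2 ∪ A) ∧
          D.card = min 2 ((⊤ : SimpleGraph (Fin N)).edgeFinset \ (p.1 ∪ p.2 ∪ A)).card ∧
          (p.1 ∪ A, p.2 ∪ D) ∈ P := by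
  classical
  set X : Finset (Sym2 (Fin N)) := (⊤ : SimpleGraph (Fin N)).edgeFinset with hX
  have hXcard : (X.card : ℝ) / (N:ℝ) ^ 2 ≤ 1 := by
    have h1 : X.card = N.choose 2 := by
      rw [hX, SimpleGraph.card_edgeFinset_top_eq_card_choose_two, Fintype.card_fin]
    have h2 : N.choose 2 ≤ N ^ 2 := Nat.choose_le_pow N 2
    refine div_le_one_of_le₀ ?_ (by positivity)
    rw [h1]
    exact_mod_cast h2
  refine ⟨{p | ∃ (σ : St (Sym2 (Fin N))) (c : Finset (Sym2 (Fin N)) → ℝ), σ.M = p.1 ∧ σ.B = p.2 ∧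
    p.1 ⊆ X ∧ p.2 ⊆ X ∧ Disjoint p.1 p.2 ∧ (∀ H, c₀ H ≤ c H) ∧
    (∀ A ⊆ X \ (p.1 ∪ p.2), A.card = min 2 (X \ (p.1 ∪ p.2)).card → ∀ σ', MakerMove σ A σ' →
      Phi c σ' ≤ 3 + (p.1.card : ℝ) / (N:ℝ) ^ 2) ∧ Inv3 q Js σ c}, ?_, ?_⟩
  · refine ⟨⟨∅, ∅, id, fun e => rfl, fun e he => absurd rfl he⟩, c₀, rfl, rfl, empty_subset _,
      empty_subset _, disjoint_empty_left _, fun H => le_rfl, ?_, ?_⟩
    · intro A _ hA σ' h
      have := firstMove c₀ hc₀ _ σ' A rfl rfl (by omega) h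
      simpa using this
    · intro J hJ A₀ hq _ hu
      exfalso
      have h1 := hnum2 J hJ
      have h2 : (ed A₀ \ (∅ : Finset (Sym2 (Fin N)))).card = q.choose 2 := by
        rw [sdiff_empty, G3_ed_card, hq]
      have h3 : (ed A₀ \ (∅ : Finset (Sym2 (Fin N)))).card ≤ uJ N J := hu
      omega
  · rintro ⟨M, B⟩ ⟨σ, c, hM, hB, hMX, hBX, hMB, hcc, hI1, hI3⟩ A hAX hAcard
    simp only at hM hB hMX hBX hMB hI1 hAX hAcard ⊢
    have hA2 : A.card ≤ 2 := by omega
    have hAM : Disjoint A σ.M := by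
      rw [hM, disjoint_left]
      intro a ha hm
      have := hAX ha
      simp only [Finset.mem_sdiff, Finset.mem_union, not_or] at this
      exact this.2.1 hm
    have hAB : Disjoint A B := by
      rw [disjoint_left]
      intro a ha hm
      have := hAX ha
      simp only [Finset.mem_sdiff, Finset.mem_union, not_or] at this
      exact this.2.2 hm
    obtain ⟨σ', h⟩ := exists_makerMove σ A hA2 hAM
    have hM' : σ'.M = M ∪ A := by rw [h.1, hM]
    have hB' : σ'.B = B := by rw [h.2.1, hB]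
    have hc0 : ∀ H, 0 ≤ c H := fun H => (hc₀.1 H).trans (hcc H)
    have hPc := hI1 A hAX hAcard σ' h
    have hMA : M ∪ A ⊆ X := by
      intro e he
      rcases mem_union.1 he with he | he
      · exact hMX he
      · exact (Finset.mem_sdiff.1 (hAX he)).1
    have hbound : ∀ T : Finset (Sym2 (Fin N)), T ⊆ X → (T.card : ℝ) / (N:ℝ) ^ 2 ≤ 1 := by
      intro T hT
      refine le_trans ?_ hXcard
      gcongr
    have hmono : ∀ (c₁ c₂ : Finset (Sym2 (Fin N)) → ℝ), (∀ H, c₁ H ≤ c₂ H) →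
        Phi c₁ σ' ≤ Phi c₂ σ' := by
      intro c₁ c₂ h12
      unfold Phi
      exact sum_le_sum fun H _ => mul_le_mul_of_nonneg_right (h12 H) (W_nonneg _ _)
    have hP0 : Phi c₀ σ' ≤ 4 := by
      have := hmono c₀ c hcc
      have := hbound M hMX
      linarith
    -- the new coefficients
    set c' := newc q Js σ σ' c with hc'
    have hcc' : ∀ H, c H ≤ c' H := fun H => le_newc q Js σ σ' c H
    have hPc' : Phi c' σ' ≤ 3 + ((M ∪ A).card : ℝ) / (N:ℝ) ^ 2 := by
      rw [hc', Phi_newc]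
      rcases A.eq_empty_or_nonempty with hA0 | hA0
      · have hz : ∀ J ∈ Js, theta N J *
            (((GJ σ' q J).filter (fun A₀ => uJ N J < (ed A₀ \ σ.M).card)).card : ℝ) = 0 := by
          intro J _
          rw [filter_eq_empty_iff.2]
          · simp
          · intro A₀ hA₀
            unfold GJ at hA₀
            rw [mem_filter] at hA₀
            have := hA₀.2.2.1
            rw [h.1, hA0, union_empty] at this
            omega
        rw [sum_eq_zero hz, hA0, union_empty, add_zero]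
        exact hPc
      · have h1 : ∑ J ∈ Js, theta N J *
            (((GJ σ' q J).filter (fun A₀ => uJ N J < (ed A₀ \ σ.M).card)).card : ℝ)
            ≤ 1 / (N:ℝ) ^ 2 := by
          refine le_trans (sum_le_sum fun J hJ => ?_) hnum3
          refine mul_le_mul_of_nonneg_left ?_ (theta_pos N J).le
          refine le_trans ?_ (hcl σ' hP0 J hJ)
          exact_mod_cast card_filter_le _ _
        have h2 : (M ∪ A).card = M.card + A.card := by
          refine card_union_of_disjoint ?_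
          rw [← hM]; exact hAM.symm
        have h3 : 1 ≤ A.card := card_pos.2 hA0
        have h4 : (M.card : ℝ) / (N:ℝ) ^ 2 + 1 / (N:ℝ) ^ 2 ≤ ((M ∪ A).card : ℝ) / (N:ℝ) ^ 2 := by
          rw [← add_div]
          refine div_le_div_of_nonneg_right ?_ (by positivity)
          rw [h2]; push_cast
          have : (1:ℝ) ≤ A.card := by exact_mod_cast h3
          linarith
        linarith
    have hI3' : Inv3 q Js σ' c' := inv3_step hc0 h hAM hA2 hI3
    refine ⟨?_, ?_⟩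
    · -- no clique
      rintro ⟨s, hs, hall⟩
      have hedM : ed s ⊆ σ'.M := by
        intro e he
        rw [hM']
        unfold ed at he
        rw [mem_filter] at he
        induction e with
        | _ x y =>
          rw [Finset.mk_mem_sym2_iff, Sym2.mk_isDiag_iff] at he
          exact hall x he.1.1 y he.1.2 he.2
      have hedB : Disjoint (ed s) σ'.B := by
        refine disjoint_of_subset_left hedM ?_
        rw [hM', hB', disjoint_union_left]
        exact ⟨hMB, hAB⟩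
      obtain ⟨J, hJ, hJ1, hJ2⟩ := hbase σ' hP0 s hs hedB hedM
      have hz : (ed s \ σ'.M).card = 0 := by
        rw [card_eq_zero, sdiff_eq_empty_iff_subset]; exact hedM
      obtain ⟨cl', dd', h1, h2, h3, h4, h5, h6⟩ := hI3' J hJ s hs hedB (by omega)
      have hclq : cl σ' (ed s) = q.choose 2 := by
        have := cl_add_card_sdiff σ' (ed s)
        rw [G3_ed_card, hs] at this
        omega
      have hn1 := hnum1 J hJ
      have a1 : (1.96:ℝ) * J * q ≤ dd' := by
        have : 2 * J * q ≤ dd' + uJ N J := by omega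
        have : (2:ℝ) * J * q ≤ dd' + uJ N J := by exact_mod_cast this
        linarith
      have a2 : dd' ≤ 2 * (J + 1) * q := h4.trans hJ2
      have h7 := h6 a1 a2
      have hW : W σ' (ed s) = (2:ℝ) ^ ((cl σ' (ed s) : ℝ) - beta * dd σ' (ed s)) :=
        W_of_disjoint hedB
      have h8 : c' (ed s) * W σ' (ed s) ≤ Phi c' σ' := by
        unfold Phi
        exact single_le_sum (f := fun H => c' H * W σ' H)
          (fun H _ => mul_nonneg ((hc0 H).trans (hcc' H)) (W_nonneg _ _)) (mem_univ _)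
      have h9 : (8:ℝ) ≤ c' (ed s) * W σ' (ed s) := by
        have e1 : theta N J / (2:ℝ) ^ ((cl':ℝ) - beta * dd') * W σ' (ed s) ≤
            c' (ed s) * W σ' (ed s) := mul_le_mul_of_nonneg_right h7 (W_nonneg _ _)
        refine le_trans ?_ e1
        rw [hW]
        unfold theta
        rw [div_mul_eq_mul_div, mul_assoc, ← Real.rpow_add (by norm_num), mul_div_assoc,
          ← Real.rpow_sub (by norm_num)]
        have hexp : 0 ≤ -(1 - beta) * ((uJ N J : ℝ) - 1) +
            ((cl σ' (ed s) : ℝ) - beta * dd σ' (ed s)) - ((cl':ℝ) - beta * dd') := by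
          have hb0 := beta_pos
          have hb1 := beta_lt
          have r1 : (uJ N J : ℝ) - 1 ≤ (cl σ' (ed s) : ℝ) - cl' := by
            have : uJ N J + cl' ≤ cl σ' (ed s) + 1 := by omega
            have : (uJ N J : ℝ) + cl' ≤ cl σ' (ed s) + 1 := by exact_mod_cast this
            linarith
          have r2 : (dd σ' (ed s) : ℝ) - dd' ≤ (cl σ' (ed s) : ℝ) - cl' := by
            have : (dd σ' (ed s) : ℝ) + cl' ≤ cl σ' (ed s) + dd' := by exact_mod_cast h5
            linarith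
          nlinarith
        have := Real.one_le_rpow (x := 2) (by norm_num) hexp
        linarith
      have := hbound (M ∪ A) hMA
      linarith
    · obtain ⟨D, hD1, hD2, hD3⟩ := greedy c' (fun H => (hc0 H).trans (hcc' H)) σ' X
      have hset : σ'.M ∪ σ'.B = M ∪ B ∪ A := by
        rw [hM', hB']; ext; simp only [mem_union]; tauto
      rw [hset] at hD1 hD2 hD3
      refine ⟨D, hD1, hD2, brk σ' D, c', hM', ?_, hMA, ?_, ?_, fun H => (hcc H).trans (hcc' H),
        ?_, ?_⟩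
      · show σ'.B ∪ D = B ∪ D
        rw [hB']
      · exact union_subset hBX (hD1.trans sdiff_subset)
      · simp only
        rw [disjoint_union_left, disjoint_union_right, disjoint_union_right]
        refine ⟨⟨hMB, ?_⟩, hAB, ?_⟩
        · rw [disjoint_right]
          intro e he
          have := hD1 he
          simp only [Finset.mem_sdiff, Finset.mem_union, not_or] at this
          exact this.2.1.1
        · rw [disjoint_right]
          intro e he
          have := hD1 he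
          simp only [Finset.mem_sdiff, Finset.mem_union, not_or] at this
          exact this.2.2
      · intro A' hA' hA'c σ'' h''
        have hset2 : M ∪ A ∪ (B ∪ D) = M ∪ B ∪ A ∪ D := by
          ext; simp only [mem_union]; tauto
        simp only [hset2] at hA' hA'c
        exact (hD3 A' hA' hA'c σ'' h'').trans hPc'
      · intro J hJ A₀ hq hBD hu
        have hB2 : Disjoint (ed A₀) σ'.B := by
          have : Disjoint (ed A₀) (σ'.B ∪ D) := hBD
          exact (disjoint_union_right.1 this).1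
        exact hI3' J hJ A₀ hq hB2 hu

end Pool.Agent.CG
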