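import Pool.Agent.CG.Basic

/-!
# Project CG: definitions of the game part
-/

set_option autoImplicit false

namespace Pool.Agent.CG

open Finset

variable {α : Type} [DecidableEq α]

/-- `σ'` arises from `σ` when Maker claims the set `A` (one or two new edges, or none). -/
def MakerMove (σ : St α) (A : Finset α) (σ' : St α) : Prop :=
  σ'.M = σ.M ∪ A ∧ σ'.B = σ.B ∧ (∀ e, e ∉ A → σ'.pi e = σ.pi e) ∧
    (A.card = 2 → ∀ e ∈ A, σ'.pi e ∈ A ∧ σ'.pi e ≠ e) ∧ (A.card ≠ 2 → ∀ e ∈ A, σ'.pi e = e)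

/-- Breaker claims `D` -/
def brk (σ : St α) (D : Finset α) : St α where
  M := σ.M
  B := σ.B ∪ D
  pi := σ.pi
  inv := σ.inv
  mem := σ.mem

/-- the factor by which the members of `GJ` are charged -/
noncomputable def theta (N J : ℕ) : ℝ := 8 * (2:ℝ) ^ (-(1 - beta) * ((uJ N J : ℝ) - 1))

end Pool.Agent.CG
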