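import Pool.Agent.CG.Basic

/-!
# CG S1a: one sampling step

PAPER PROOF. cl(H ∪ X) = cl H + cl X - |X ∩ H ∩ M|.
dd(H ∪ X): let e ∈ H ∪ X, pi e ≠ e, pi e ∈ H ∪ X. Either e, pi e ∈ H (at most dd H such e), or
e, pi e ∈ X (at most dd X), or one of e, pi e lies in X \ H and the other one in H \ X; in the last
case the one in X \ H lies in X ∩ (H.image pi) \ H (use pi (pi e) = e). So
dd(H ∪ X) ≤ dd H + dd X + 2 |(X ∩ H.image pi) \ H|.
Total loss ≤ |X ∩ H| + 2β |(X ∩ H.image pi) \ H| ≤ |X ∩ (H ∪ H.image pi)| since 2β ≤ 1 (`beta_lt`).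
-/

set_option autoImplicit false

namespace Pool.Agent.CG

open Finset

variable {α : Type} [DecidableEq α]

private theorem S1a_cl (σ : St α) (H X : Finset α) :
    cl σ H + cl σ X ≤ cl σ (H ∪ X) + (X ∩ H).card := by
  unfold cl
  rw [union_inter_distrib_right, ← card_union_add_card_inter (H ∩ σ.M) (X ∩ σ.M)]
  refine Nat.add_le_add_left (card_le_card ?_) _
  intro e he
  simp only [mem_inter] at he ⊢
  exact ⟨he.2.1, he.1.1⟩

private theorem S1a_dd (σ : St α) (H X : Finset α) :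
    dd σ (H ∪ X) ≤ dd σ H + dd σ X + 2 * ((X ∩ H.image σ.pi) \ H).card := by
  unfold dd
  set P := (X ∩ H.image σ.pi) \ H with hP
  have hsub : (H ∪ X).filter (fun e => σ.pi e ≠ e ∧ σ.pi e ∈ H ∪ X) ⊆
      ((H.filter (fun e => σ.pi e ≠ e ∧ σ.pi e ∈ H)) ∪
        (X.filter (fun e => σ.pi e ≠ e ∧ σ.pi e ∈ X))) ∪ (P ∪ P.image σ.pi) := by
    intro e he
    simp only [mem_filter, mem_union] at he
    obtain ⟨h1, h2, h3⟩ := he
    by_cases hH : e ∈ H
    · by_cases hpH : σ.pi e ∈ H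
      · exact mem_union_left _ (mem_union_left _ (mem_filter.2 ⟨hH, h2, hpH⟩))
      · have hpX : σ.pi e ∈ X := h3.resolve_left hpH
        refine mem_union_right _ (mem_union_right _ (mem_image.2 ⟨σ.pi e, ?_, σ.inv e⟩))
        rw [hP, mem_sdiff, mem_inter]
        exact ⟨⟨hpX, mem_image_of_mem _ hH⟩, hpH⟩
    · have hX : e ∈ X := h1.resolve_left hH
      by_cases hpX : σ.pi e ∈ X
      · exact mem_union_left _ (mem_union_right _ (mem_filter.2 ⟨hX, h2, hpX⟩))
      · have hpH : σ.pi e ∈ H := h3.resolve_right hpX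
        refine mem_union_right _ (mem_union_left _ ?_)
        rw [hP, mem_sdiff, mem_inter]
        exact ⟨⟨hX, mem_image.2 ⟨σ.pi e, hpH, σ.inv e⟩⟩, hH⟩
  have h1 := (card_le_card hsub).trans (card_union_le _ _)
  have h2 := card_union_le (H.filter (fun e => σ.pi e ≠ e ∧ σ.pi e ∈ H))
    (X.filter (fun e => σ.pi e ≠ e ∧ σ.pi e ∈ X))
  have h3 := card_union_le P (P.image σ.pi)
  have h4 : (P.image σ.pi).card ≤ P.card := card_image_le
  omega

private theorem S1a_loss (σ : St α) (H X : Finset α) :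
    (X ∩ H).card + ((X ∩ H.image σ.pi) \ H).card ≤ (X ∩ (H ∪ H.image σ.pi)).card := by
  rw [← card_union_of_disjoint]
  · apply card_le_card
    intro e he
    simp only [mem_union, mem_inter, mem_sdiff] at he ⊢
    rcases he with he | he
    · exact ⟨he.1, Or.inl he.2⟩
    · exact ⟨he.1.1, Or.inr he.1.2⟩
  · rw [disjoint_left]
    intro e he he'
    exact (mem_sdiff.1 he').2 (mem_inter.1 he).2

theorem oneStep (σ : St α) (H X : Finset α) :
    lw σ H + lw σ X - ((X ∩ (H ∪ H.image σ.pi)).card : ℝ) ≤ lw σ (H ∪ X) := by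
  have h1 : ((cl σ H : ℝ) + cl σ X) ≤ cl σ (H ∪ X) + ((X ∩ H).card : ℝ) := by
    exact_mod_cast S1a_cl σ H X
  have h2 : (dd σ (H ∪ X) : ℝ) ≤ dd σ H + dd σ X + 2 * (((X ∩ H.image σ.pi) \ H).card : ℝ) := by
    exact_mod_cast S1a_dd σ H X
  have h3 : ((X ∩ H).card : ℝ) + (((X ∩ H.image σ.pi) \ H).card : ℝ) ≤
      ((X ∩ (H ∪ H.image σ.pi)).card : ℝ) := by
    exact_mod_cast S1a_loss σ H X
  have hb := beta_pos
  have hb' := beta_lt
  have h4 := mul_le_mul_of_nonneg_left h2 hb.le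
  have h5 : (0 : ℝ) ≤ (((X ∩ H.image σ.pi) \ H).card : ℝ) := Nat.cast_nonneg _
  unfold lw
  nlinarith [mul_le_mul_of_nonneg_right hb'.le h5]

end Pool.Agent.CG
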